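import Pool.Agent.LibBU39.S12a

/-! The local problem (definition). -/

namespace BU39

/-- The labels of the local problem. -/
abbrev Lb (P : Par) : Type := {c : Cell // CellBd P.K c}

/-- The local problem with window `{0, -u, -w}`. -/
def prob {n : ℕ} (u w : Fin n → ℤ) (P : Par) : LCL n where
  W := {0, -u, -w}
  Lbl := Lb P
  fin := (finite_cell P.K).to_subtype
  A := {g | Rule P (g ⟨0, by simp⟩).1 (g ⟨-u, by simp⟩).1 (g ⟨-w, by simp⟩).1}

end BU39
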