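import Pool.Agent.LibBU39.Gen
import Pool.Agent.LibBU39.Prob

/-!
COMPLETENESS, part 5: the rotation action has a Baire-measurable labelling.
-/

namespace BU39

open Topology Filter

theorem act_comp {n : ℕ} {X : Type} (T : Act n X) (g h : Fin n → ℤ) (x : X) :
    T.act g (T.act h x) = T.act (g + h) x := (T.act_add g h x).symm

/-- The rotation homeomorphism. -/
noncomputable def rotH {n : ℕ} (α : Fin n → ℝ) (g : Fin n → ℤ) :
    UnitAddCircle ≃ₜ UnitAddCircle :=
  Homeomorph.addRight ((∑ i, (g i : ℝ) * α i : ℝ) : UnitAddCircle)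

theorem rotH_apply {n : ℕ} (α : Fin n → ℝ) (g : Fin n → ℤ) (x : UnitAddCircle) :
    rotH α g x = (rot α).act g x := rfl

theorem rot_borel {n : ℕ} (α : Fin n → ℝ) : (rot α).IsBorel := by
  intro g
  borelize UnitAddCircle
  exact (rotH α g).continuous.measurable

theorem rot_neg_single {n : ℕ} (α : Fin n → ℝ) (i : Fin n) (x : UnitAddCircle) :
    (rot α).act (-(Pi.single i 1)) x = x - ((α i : ℝ) : UnitAddCircle) := by
  change x + _ = _
  have e : (∑ k, (((-(Pi.single i 1 : Fin n → ℤ)) k : ℤ) : ℝ) * α k) = -(α i) := by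
    have h : ∀ k, (((-(Pi.single i 1 : Fin n → ℤ)) k : ℤ) : ℝ) * α k =
        if k = i then -(α i) else 0 := by
      intro k
      by_cases hk : k = i
      · subst hk
        simp
      · simp [hk]
    rw [Finset.sum_congr rfl fun k _ => h k]
    simp
  rw [e, AddCircle.coe_neg, sub_eq_add_neg]

/-- The circle action solves the local problem. -/
theorem circle_solves {n : ℕ} {α : Fin n → ℝ} {i j : Fin n} {P : Par} (H : HierG P)
    (hi : (H.α 0).1 = ((α i : ℝ) : UnitAddCircle)) (hj : (H.α 0).2 = ((α j : ℝ) : UnitAddCircle))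
    (hfree : (rot α).Free) :
    (rot α).BaireSolves (prob (Pi.single i 1) (Pi.single j 1) P) := by
  set u : Fin n → ℤ := Pi.single i 1 with hu
  set w : Fin n → ℤ := Pi.single j 1 with hw
  have hactu : ∀ x, (rot α).act (-u) x = rt (H.α 0) (-e1) x := by
    intro x
    rw [hu, rot_neg_single, ← hi]
    simp [rt, e1, sub_eq_add_neg]
  have hactw : ∀ x, (rot α).act (-w) x = rt (H.α 0) (-e2) x := by
    intro x
    rw [hw, rot_neg_single, ← hj]
    simp [rt, e2, sub_eq_add_neg]
  -- the generic set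
  let G : Set UnitAddCircle := {x | ∀ g, (rot α).act g x ∈ H.OO}
  have hG : G ∈ residual UnitAddCircle := by
    change ∀ᶠ x in residual UnitAddCircle, ∀ g, (rot α).act g x ∈ H.OO
    rw [eventually_countable_forall]
    intro g
    have h1 : H.OO ∈ residual UnitAddCircle :=
      residual_of_dense_open HierG.isOpen_OO HierG.dense_OO
    exact (tendsto_residual_of_isOpenMap (rotH α g).continuous (rotH α g).isOpenMap) h1
  have hGinv : ∀ g x, (rot α).act g x ∈ G ↔ x ∈ G := by
    intro g x
    constructor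
    · intro h g'
      have := h (g' - g)
      rw [act_comp, sub_add_cancel] at this
      exact this
    · intro h g'
      rw [act_comp]
      exact h _
  obtain ⟨x0, hx0⟩ := (dense_of_mem_residual hG).nonempty
  -- canonical labels
  have hcan : ∀ x, x ∈ G → ∃ c : Lb P, x ∈ H.VV c.1 := by
    intro x hx
    have h1 := hx 0
    rw [(rot α).act_zero] at h1
    obtain ⟨p, hp⟩ := Set.mem_iUnion.1 h1
    exact ⟨⟨p, (HierG.VV_lab hp).bd⟩, hp⟩
  have hcan_uniq : ∀ x (c c' : Lb P), x ∈ H.VV c.1 → x ∈ H.VV c'.1 → c = c' :=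
    fun x c c' h h' => Subtype.ext ((HierG.VV_lab h).uniq (HierG.VV_lab h'))
  obtain ⟨c0, -⟩ := hcan x0 hx0
  have hne : Nonempty (Lb P) := ⟨c0⟩
  choose! F hF using hcan
  have hrule : ∀ x ∈ G, Rule P (F x).1 (F ((rot α).act (-u) x)).1 (F ((rot α).act (-w) x)).1 := by
    intro x hx
    have h1 := HierG.VV_lab (hF x hx)
    have h2 := HierG.VV_lab (hF _ ((hGinv (-u) x).2 hx))
    have h3 := HierG.VV_lab (hF _ ((hGinv (-w) x).2 hx))
    have h2' : H.toHier.Lab (rt (H.α 0) (-e1) x) (F ((rot α).act (-u) x)).1 := by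
      rw [hactu] at h2 ⊢; exact h2
    have h3' : H.toHier.Lab (rt (H.α 0) (-e2) x) (F ((rot α).act (-w) x)).1 := by
      rw [hactw] at h3 ⊢; exact h3
    exact h1.rule h2' h3'
  -- representatives of orbits
  let s : Setoid UnitAddCircle :=
    { r := fun x y => ∃ g, (rot α).act g x = y
      iseqv := ⟨fun x => ⟨0, (rot α).act_zero x⟩,
        fun {x y} ⟨g, hg⟩ => ⟨-g, by rw [← hg, act_comp, neg_add_cancel, (rot α).act_zero]⟩,
        fun {x y z} ⟨g, hg⟩ ⟨h, hh⟩ => ⟨h + g, by rw [← hh, ← hg, act_comp]⟩⟩ }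
  let R : UnitAddCircle → UnitAddCircle := fun x => Quotient.out (Quotient.mk s x)
  have hR : ∀ x, ∃ g, (rot α).act g (R x) = x := fun x => Quotient.mk_out (s := s) x
  have hRinv : ∀ g x, R ((rot α).act g x) = R x := by
    intro g x
    have : Quotient.mk s ((rot α).act g x) = Quotient.mk s x :=
      Quotient.sound (s := s) ⟨-g, by rw [act_comp, neg_add_cancel, (rot α).act_zero]⟩
    change Quotient.out _ = Quotient.out _
    rw [this]
  choose γ hγ using hR
  have hγu : ∀ g x, γ ((rot α).act g x) = g + γ x := by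
    intro g x
    have h1 := hγ ((rot α).act g x)
    rw [hRinv] at h1
    have h2 : (rot α).act (g + γ x) (R x) = (rot α).act g x := by
      rw [(rot α).act_add, hγ]
    have h3 : (rot α).act (γ ((rot α).act g x) - (g + γ x)) ((rot α).act (g + γ x) (R x)) =
        (rot α).act (g + γ x) (R x) := by
      rw [act_comp, sub_add_cancel, h1, h2]
    have := hfree _ _ h3
    exact sub_eq_zero.1 this
  classical
  let f : UnitAddCircle → Lb P := fun x => if x ∈ G then F x else F ((rot α).act (γ x) x0)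
  have hf1 : ∀ x, x ∈ G → f x = F x := fun x hx => if_pos hx
  have hf2 : ∀ x, x ∉ G → f x = F ((rot α).act (γ x) x0) := fun x hx => if_neg hx
  refine ⟨f, ?_, ?_⟩
  · intro c
    refine (HierG.isOpen_VV (H := H) c.1).baireMeasurableSet.congr ?_
    rw [Filter.eventuallyEq_set]
    filter_upwards [hG] with x hx
    change x ∈ H.VV c.1 ↔ f x = c
    rw [hf1 x hx]
    constructor
    · intro h
      exact hcan_uniq x _ _ (hF x hx) h
    · intro h
      rw [← h]
      exact hF x hx
  · intro x
    change Rule P (f ((rot α).act 0 x)).1 (f ((rot α).act (-u) x)).1 (f ((rot α).act (-w) x)).1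
    rw [(rot α).act_zero]
    by_cases hx : x ∈ G
    · rw [hf1 x hx, hf1 _ ((hGinv (-u) x).2 hx), hf1 _ ((hGinv (-w) x).2 hx)]
      exact hrule x hx
    · have h1 : (rot α).act (-u) x ∉ G := fun h => hx ((hGinv _ _).1 h)
      have h2 : (rot α).act (-w) x ∉ G := fun h => hx ((hGinv _ _).1 h)
      rw [hf2 x hx, hf2 _ h1, hf2 _ h2, hγu, hγu, (rot α).act_add, (rot α).act_add]
      exact hrule _ ((hGinv _ _).2 hx0)

end BU39
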