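import Pool.Agent.LibBU39.Geo

/-!
TASK G02.  Rows of a skew grid and the height function of a horizontal wall; transposition.

`Φ (i + 1, j)`.1 - `Φ (i, j)`.1 ≥ `A ≥ 1`, so for every `x` there is exactly one `i` with
`Φ (i, j)`.1 ≤ x < `Φ (i + 1, j)`.1 (the sequence tends to `± ∞`; e.g. `Int.exists_greatest_of_bdd`).
-/

namespace BU39

variable {G : GeoC} {C : Cn} {K1 : ℤ}

private theorem G02_step (S : Skew G C K1) (j i : ℤ) :
    (S.Φ (i, j)).1 + 1 ≤ (S.Φ (i + 1, j)).1 := by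
  have h1 := (S.h1 (i, j)).lo
  have e : ((i, j) : V) + e1 = (i + 1, j) := by
    ext <;> simp [e1]
  rw [e, Prod.fst_sub] at h1
  have h2 := G.hA1
  have h3 := G.hρ
  omega

private theorem G02_mono (S : Skew G C K1) (j : ℤ) : StrictMono fun i => (S.Φ (i, j)).1 := by
  refine strictMono_int_of_lt_succ fun i => ?_
  have := G02_step S j i
  change (S.Φ (i, j)).1 < (S.Φ (i + 1, j)).1
  omega

private theorem G02_up (S : Skew G C K1) (j : ℤ) (n : ℕ) :
    (S.Φ (0, j)).1 + n ≤ (S.Φ ((n : ℤ), j)).1 := by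
  induction n with
  | zero => simp
  | succ n ih =>
    have := G02_step S j n
    push_cast
    omega

private theorem G02_down (S : Skew G C K1) (j : ℤ) (n : ℕ) :
    (S.Φ (-(n : ℤ), j)).1 + n ≤ (S.Φ (0, j)).1 := by
  induction n with
  | zero => simp
  | succ n ih =>
    have := G02_step S j (-(n : ℤ) - 1)
    rw [sub_add_cancel] at this
    push_cast
    rw [show -((n : ℤ) + 1) = -(n : ℤ) - 1 by ring]
    omega

theorem Skew.exists_col (S : Skew G C K1) (j x : ℤ) :
    ∃ i, (S.Φ (i, j)).1 ≤ x ∧ x < (S.Φ (i + 1, j)).1 := by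
  obtain ⟨i, hi, hi'⟩ := Int.exists_greatest_of_bdd (P := fun i => (S.Φ (i, j)).1 ≤ x)
    ⟨(x - (S.Φ (0, j)).1).toNat, fun z hz => by
      by_contra hc
      rw [not_le] at hc
      have h0 : 0 ≤ z := by omega
      obtain ⟨n, rfl⟩ := Int.eq_ofNat_of_zero_le h0
      have := G02_up S j n
      omega⟩
    ⟨-(((S.Φ (0, j)).1 - x).toNat : ℤ), by
      have := G02_down S j ((S.Φ (0, j)).1 - x).toNat
      omega⟩
  refine ⟨i, hi, ?_⟩
  by_contra hc
  have := hi' (i + 1) (not_lt.1 hc)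
  omega

theorem Skew.strictMono (S : Skew G C K1) (j : ℤ) : StrictMono fun i => (S.Φ (i, j)).1 :=
  G02_mono S j

/-- The height of the horizontal wall `j` over the interval `[x, x + 1]`. -/
noncomputable def Skew.H (S : Skew G C K1) (j x : ℤ) : ℤ :=
  (S.Φ ((S.exists_col j x).choose, j)).2 +
    hh G.ρ (S.D1 ((S.exists_col j x).choose, j)) (x - (S.Φ ((S.exists_col j x).choose, j)).1)

theorem Skew.H_eq (S : Skew G C K1) {i j x : ℤ} (h : (S.Φ (i, j)).1 ≤ x)
    (h' : x < (S.Φ (i + 1, j)).1) :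
    S.H j x = (S.Φ (i, j)).2 + hh G.ρ (S.D1 (i, j)) (x - (S.Φ (i, j)).1) := by
  have hs := (S.exists_col j x).choose_spec
  have e : (S.exists_col j x).choose = i := by
    set i' := (S.exists_col j x).choose
    have m := S.strictMono j
    have h1 : i' < i + 1 := m.lt_iff_lt.1 (lt_of_le_of_lt hs.1 h')
    have h2 : i < i' + 1 := m.lt_iff_lt.1 (lt_of_le_of_lt h hs.2)
    omega
  unfold Skew.H
  rw [e]

theorem Cn.Good.sw (hC : C.Good G) : C.sw.Good G :=
  ⟨hC.wp1, hC.wp2, hC.wm1, hC.wm2, hC.up1, hC.up2, hC.um1, hC.um2,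
    (mul_comm _ _).trans_le hC.pp, (mul_comm _ _).trans_le hC.mm⟩

/-- The transposed skew grid. -/
def Skew.tr (S : Skew G C K1) : Skew G C.sw K1 where
  Φ k := (S.Φ k.swap).swap
  h1 := by
    intro k
    have h := S.h2 k.swap
    have e : (k + e1).swap = k.swap + e2 := by
      ext <;> simp [e1, e2]
    rw [e, ← Prod.swap_sub]
    exact h
  h2 := by
    intro k
    have h := S.h1 k.swap
    have e : (k + e2).swap = k.swap + e1 := by
      ext <;> simp [e1, e2]
    rw [e, ← Prod.swap_sub, Prod.swap_swap]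
    exact h

/-- The vertex `w` is on the horizontal wall `j`. -/
def Skew.onH (S : Skew G C K1) (j : ℤ) (w : V) : Prop :=
  min (S.H j (w.1 - 1)) (S.H j w.1) ≤ w.2 ∧ w.2 ≤ max (S.H j (w.1 - 1)) (S.H j w.1)

end BU39
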