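import Pool.Agent.LibBU39.G01
import Pool.Agent.LibBU39.G02

/-!
TASK G03.  Cone bounds for the walls (relative to every root of the row).

Let `(X, Y) = Φ (i, j)`.  Inside the segment `i` (`X ≤ x < Φ (i+1, j).1`) the first bound is
`hh_fw`; in general let `i' ≥ i` be the segment of `x`; `Y' - Y` is in
`[- um (X' - X), up (X' - X)]` (sum of sides, `InD.sp`, `InD.sm`, induction on `i' - i`).
Backward: `x < X`, segment `i' < i`, right end `(X'', Y'') = Φ (i' + 1, j)`; `hh_bw` gives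
`H j x - Y'' ∈ [- up (X'' - 1 - x), um (X'' - 1 - x)]`, and
`Y'' - Y ∈ [- up (X - X''), um (X - X'')]`.
-/

namespace BU39

variable {G : GeoC} {C : Cn} {K1 : ℤ}

private theorem G03_e1 (i j : ℤ) : ((i, j) : V) + e1 = (i + 1, j) := by
  ext <;> simp [e1]

private theorem G03_D (S : Skew G C K1) (i j : ℤ) : InD G C K1 (S.D1 (i, j)) := S.h1 (i, j)

private theorem G03_D1 (S : Skew G C K1) (i j : ℤ) :
    (S.D1 (i, j)).1 = (S.Φ (i + 1, j)).1 - (S.Φ (i, j)).1 := by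
  unfold Skew.D1
  rw [G03_e1, Prod.fst_sub]

private theorem G03_D2 (S : Skew G C K1) (i j : ℤ) :
    (S.D1 (i, j)).2 = (S.Φ (i + 1, j)).2 - (S.Φ (i, j)).2 := by
  unfold Skew.D1
  rw [G03_e1, Prod.snd_sub]

theorem Skew.row_fw (S : Skew G C K1) (hC : C.Good G) {i i' j : ℤ} (h : i ≤ i') :
    -(C.um * ((S.Φ (i', j)).1 - (S.Φ (i, j)).1)) ≤ ((S.Φ (i', j)).2 : ℝ) - (S.Φ (i, j)).2 ∧
      ((S.Φ (i', j)).2 : ℝ) - (S.Φ (i, j)).2 ≤ C.up * ((S.Φ (i', j)).1 - (S.Φ (i, j)).1) := by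
  induction i', h using Int.le_induction with
  | base => simp
  | succ m _ ih =>
    have hD := G03_D S m j
    have h1 := hD.lo
    have h2 := hD.sp
    have h3 := hD.sm
    have hε := G.hε
    have h4 : (0 : ℝ) ≤ ((S.D1 (m, j)).1 : ℝ) := by
      have a1 := G.hA1
      have a2 := G.hρ
      exact_mod_cast (by omega : (0 : ℤ) ≤ (S.D1 (m, j)).1)
    have h5 : ((S.D1 (m, j)).1 : ℝ) = (S.Φ (m + 1, j)).1 - (S.Φ (m, j)).1 := by
      rw [G03_D1]
      push_cast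
      ring
    have h6 : ((S.D1 (m, j)).2 : ℝ) = (S.Φ (m + 1, j)).2 - (S.Φ (m, j)).2 := by
      rw [G03_D2]
      push_cast
      ring
    have h7 := mul_nonneg hε.le h4
    rw [h6] at h2 h3
    rw [h5] at h2 h3 h7
    constructor <;> nlinarith [ih.1, ih.2]

theorem Skew.H_fw (S : Skew G C K1) (hC : C.Good G) {i j x : ℤ} (h : (S.Φ (i, j)).1 ≤ x) :
    -(C.um * (x - (S.Φ (i, j)).1)) ≤ (S.H j x : ℝ) - (S.Φ (i, j)).2 ∧
      (S.H j x : ℝ) - (S.Φ (i, j)).2 ≤ C.up * (x - (S.Φ (i, j)).1) := by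
  obtain ⟨i', h1, h2⟩ := S.exists_col j x
  have hi : i < i' + 1 := (S.strictMono j).lt_iff_lt.1 (lt_of_le_of_lt h h2)
  have h3 := S.row_fw hC (j := j) (by omega : i ≤ i')
  have h4 := hh_fw hC (G03_D S i' j) (u := x - (S.Φ (i', j)).1) (by omega)
  rw [S.H_eq h1 h2]
  push_cast at h4 ⊢
  constructor <;> nlinarith [h3.1, h3.2, h4.1, h4.2]

theorem Skew.H_bw (S : Skew G C K1) (hC : C.Good G) {i j x : ℤ} (h : x < (S.Φ (i, j)).1) :
    -(C.up * ((S.Φ (i, j)).1 - 1 - x)) ≤ (S.H j x : ℝ) - (S.Φ (i, j)).2 ∧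
      (S.H j x : ℝ) - (S.Φ (i, j)).2 ≤ C.um * ((S.Φ (i, j)).1 - 1 - x) := by
  obtain ⟨i', h1, h2⟩ := S.exists_col j x
  have hi : i' < i := (S.strictMono j).lt_iff_lt.1 (lt_of_le_of_lt h1 h)
  have h3 := S.row_fw hC (j := j) (by omega : i' + 1 ≤ i)
  have h4 := hh_bw hC (G03_D S i' j) (u := x - (S.Φ (i', j)).1) (by
    rw [G03_D1]
    omega)
  rw [G03_D1, G03_D2] at h4
  rw [S.H_eq h1 h2]
  push_cast at h4 ⊢
  constructor <;> nlinarith [h3.1, h3.2, h4.1, h4.2]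

/-- The wall is flat near the roots. -/
theorem Skew.H_root (S : Skew G C K1) {i j x : ℤ} (h : (S.Φ (i, j)).1 - G.ρ ≤ x)
    (h' : x ≤ (S.Φ (i, j)).1 + G.ρ) : S.H j x = (S.Φ (i, j)).2 := by
  have a1 := G.hA1
  have a2 := G.hρ
  rcases le_or_gt (S.Φ (i, j)).1 x with hx | hx
  · have h1 := (G03_D S i j).lo
    rw [G03_D1] at h1
    rw [S.H_eq hx (by omega), hh_lo (G03_D S i j) (by omega), add_zero]
  · have h1 := (G03_D S (i - 1) j).lo
    have h2 := G03_D1 S (i - 1) j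
    have h3 := G03_D2 S (i - 1) j
    rw [sub_add_cancel] at h2 h3
    rw [h2] at h1
    rw [S.H_eq (i := i - 1) (by omega) (by rw [sub_add_cancel]; exact hx),
      hh_hi (G03_D S (i - 1) j) (by rw [h2]; omega), h3]
    omega

end BU39
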