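import Pool.Agent.LibBU39.G06
import Pool.Agent.LibBU39.G03

/-!
TASK G07.  The cell of index `k` is given by the local formula `patchQ`.

Let `p00 = Φ k`, `p10 = Φ (k + e1)`, `p01 = Φ (k + e2)`, `p11 = Φ (k + e1 + e2)`,
`H0 = H k.2`, `H1 = H (k.2 + 1)`, `V0 = tr.H k.1`, `V1 = tr.H (k.1 + 1)`.  `patchQ` uses the
constant extensions: e.g. the bottom condition is `hb z.1 ≤ z.2` with `hb x = H0 x` for
`p00.1 ≤ x < p10.1`, `hb x = p00.2` for `x < p00.1` and `hb x = p10.2` for `x ≥ p10.1`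
(`hh_lo`, `hh_hi`), same for the other three.
Corner principle.  Let a horizontal and a vertical wall cross in `(X, Y)` with the cone
bounds of G03.  For `z = (X + x, Y + y)`:
 * if `x < 0`, `y < 0`: not (`H ≤ z.2` and `V ≤ z.1`) [`H - Y ≥ - up |x|`... gives
   `|y| ≤ up |x|`, `|x| ≤ wp |y|`, contradiction to `up wp < 1`], and similarly in the other
   quadrants: `x ≥ 0, y < 0`: not (`H ≤ z.2` and `z.1 < V`); `x < 0, y ≥ 0`: not (`z.2 < H` and
   `V ≤ z.1`); `x ≥ 0, y ≥ 0`: not (`z.2 < H` and `z.1 < V`).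
   The same statements hold if `H` or `V` is replaced by its constant extension on the side
   in question.
(⇒) Let `z` be in the cell.  Bottom condition: only `z.1 < p00.1` and `z.1 ≥ p10.1` are to be
   shown: if `z.1 < p00.1`, `z.2 < p00.2`: contradiction by the first statement at `p00`; if
   `z.1 ≥ p10.1`, `z.2 < p10.2`: contradiction by the second statement at `p10`.  The other three
   conditions are similar (use the transposed grid for the left and right conditions).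
(⇐) Let `z` satisfy `patchQ`.  To show `H0 z.1 ≤ z.2` for `z.1 < p00.1`: we know
   `p00.2 ≤ z.2`; the left condition gives `z.1 ≥ V0ext`, so with `y = z.2 - p00.2 ≥ 0`,
   `x = z.1 - p00.1 < 0`: `|x| ≤ wm y` (for `z.2 < p01.2` from the cone bound; for
   `z.2 ≥ p01.2` the extension is `p01.1`, and `p01.1 - p00.1 ≥ - wm (p01.2 - p00.2) ≥ - wm y`),
   and `H0 z.1 - p00.2 ≤ um |x| ≤ um wm y < y`.  And so on for the other 7 cases (symmetry:
   transposition; reversal of the two axes is similar).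
Split it into lemmas as you like.
-/

namespace BU39

variable {G : GeoC} {C : Cn} {K1 : ℤ}

/-- `f` is in the horizontal double cone with apex `(X, Y)`. -/
structure Cone (C : Cn) (f : ℤ → ℤ) (X Y : ℤ) : Prop where
  fw : ∀ x, X ≤ x → -(C.um * (x - X)) ≤ (f x : ℝ) - Y ∧ (f x : ℝ) - Y ≤ C.up * (x - X)
  bw : ∀ x, x < X → -(C.up * (X - 1 - x)) ≤ (f x : ℝ) - Y ∧ (f x : ℝ) - Y ≤ C.um * (X - 1 - x)

/-- Corner principle, lower left quadrant. -/
theorem corner1 (hC : C.Good G) {f g : ℤ → ℤ} {X Y x y : ℤ} (hf : Cone C f X Y)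
    (hg : Cone C.sw g Y X) (hx : x < X) (hy : y < Y) (h1 : f x ≤ y) (h2 : g y ≤ x) : False := by
  have a1 := (hf.bw x hx).1
  have a2 : -(C.wp * (Y - 1 - y)) ≤ (g y : ℝ) - X := (hg.bw y hy).1
  have b1 : (f x : ℝ) ≤ y := by exact_mod_cast h1
  have b2 : (g y : ℝ) ≤ x := by exact_mod_cast h2
  have hε := G.hε
  have u0 : 0 < C.up := by linarith [hC.up1]
  have w0 : 0 < C.wp := by linarith [hC.wp1]
  have hx' : (x : ℝ) + 1 ≤ X := by exact_mod_cast hx
  have hy' : (y : ℝ) + 1 ≤ Y := by exact_mod_cast hy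
  have c1 : (Y : ℝ) - y ≤ C.up * (X - 1 - x) := by linarith
  have c2 : (X : ℝ) - x ≤ C.wp * (Y - 1 - y) := by linarith
  have c3 : C.up * (X - 1 - x) ≤ C.up * (C.wp * (Y - 1 - y)) := by
    apply mul_le_mul_of_nonneg_left _ u0.le
    linarith
  have c4 : C.up * C.wp * (Y - 1 - y) ≤ 1 * (Y - 1 - y) := by
    apply mul_le_mul_of_nonneg_right _ (by linarith)
    linarith [hC.pp, G.hm]
  linarith [mul_assoc C.up C.wp ((Y : ℝ) - 1 - y)]

/-- Corner principle, lower right quadrant. -/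
theorem corner2 (hC : C.Good G) {f g : ℤ → ℤ} {X Y x y : ℤ} (hf : Cone C f X Y)
    (hg : Cone C.sw g Y X) (hx : X ≤ x) (hy : y < Y) (h1 : f x ≤ y) (h2 : x < g y) : False := by
  have a1 := (hf.fw x hx).1
  have a2 : (g y : ℝ) - X ≤ C.wm * (Y - 1 - y) := (hg.bw y hy).2
  have b1 : (f x : ℝ) ≤ y := by exact_mod_cast h1
  have b2 : (x : ℝ) < g y := by exact_mod_cast h2
  have hε := G.hε
  have u0 : 0 < C.um := by linarith [hC.um1]
  have w0 : 0 < C.wm := by linarith [hC.wm1]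
  have hx' : (X : ℝ) ≤ x := by exact_mod_cast hx
  have hy' : (y : ℝ) + 1 ≤ Y := by exact_mod_cast hy
  have c1 : (Y : ℝ) - y ≤ C.um * (x - X) := by linarith
  have c2 : (x : ℝ) - X ≤ C.wm * (Y - 1 - y) := by linarith
  have c3 : C.um * (x - X) ≤ C.um * (C.wm * (Y - 1 - y)) := mul_le_mul_of_nonneg_left c2 u0.le
  have c4 : C.um * C.wm * (Y - 1 - y) ≤ 1 * (Y - 1 - y) := by
    apply mul_le_mul_of_nonneg_right _ (by linarith)
    linarith [hC.mm, G.hm]
  linarith [mul_assoc C.um C.wm ((Y : ℝ) - 1 - y)]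

/-- Corner principle, upper left quadrant. -/
theorem corner3 (hC : C.Good G) {f g : ℤ → ℤ} {X Y x y : ℤ} (hf : Cone C f X Y)
    (hg : Cone C.sw g Y X) (hx : x < X) (hy : Y ≤ y) (h1 : y < f x) (h2 : g y ≤ x) : False := by
  have a1 := (hf.bw x hx).2
  have a2 : -(C.wm * (y - Y)) ≤ (g y : ℝ) - X := (hg.fw y hy).1
  have b1 : (y : ℝ) < f x := by exact_mod_cast h1
  have b2 : (g y : ℝ) ≤ x := by exact_mod_cast h2
  have hε := G.hε
  have u0 : 0 < C.um := by linarith [hC.um1]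
  have w0 : 0 < C.wm := by linarith [hC.wm1]
  have hx' : (x : ℝ) + 1 ≤ X := by exact_mod_cast hx
  have hy' : (Y : ℝ) ≤ y := by exact_mod_cast hy
  have c1 : (y : ℝ) - Y ≤ C.um * (X - 1 - x) := by linarith
  have c2 : (X : ℝ) - x ≤ C.wm * (y - Y) := by linarith
  have c3 : C.wm * (y - Y) ≤ C.wm * (C.um * (X - 1 - x)) := mul_le_mul_of_nonneg_left c1 w0.le
  have c4 : C.um * C.wm * (X - 1 - x) ≤ 1 * (X - 1 - x) := by
    apply mul_le_mul_of_nonneg_right _ (by linarith)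
    linarith [hC.mm, G.hm]
  linarith [mul_assoc C.wm C.um ((X : ℝ) - 1 - x), mul_comm C.wm C.um,
    congrArg (fun t => t * ((X : ℝ) - 1 - x)) (mul_comm C.wm C.um)]

/-- Corner principle, upper right quadrant. -/
theorem corner4 (hC : C.Good G) {f g : ℤ → ℤ} {X Y x y : ℤ} (hf : Cone C f X Y)
    (hg : Cone C.sw g Y X) (hx : X ≤ x) (hy : Y ≤ y) (h1 : y < f x) (h2 : x < g y) : False := by
  have a1 := (hf.fw x hx).2
  have a2 : (g y : ℝ) - X ≤ C.wp * (y - Y) := (hg.fw y hy).2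
  have b1 : (y : ℝ) < f x := by exact_mod_cast h1
  have b2 : (x : ℝ) < g y := by exact_mod_cast h2
  have hε := G.hε
  have u0 : 0 < C.up := by linarith [hC.up1]
  have w0 : 0 < C.wp := by linarith [hC.wp1]
  have hx' : (X : ℝ) ≤ x := by exact_mod_cast hx
  have hy' : (Y : ℝ) ≤ y := by exact_mod_cast hy
  have c1 : (y : ℝ) - Y < C.up * (x - X) := by linarith
  have c2 : (x : ℝ) - X < C.wp * (y - Y) := by linarith
  have c3 : C.up * (x - X) ≤ C.up * (C.wp * (y - Y)) := mul_le_mul_of_nonneg_left c2.le u0.le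
  have c4 : C.up * C.wp * (y - Y) ≤ 1 * (y - Y) := by
    apply mul_le_mul_of_nonneg_right _ (by linarith)
    linarith [hC.pp, G.hm]
  linarith [mul_assoc C.up C.wp ((y : ℝ) - Y)]

/-- A wall `f` and its extension `fe` that is constant outside a segment. -/
structure Ext (C : Cn) (f fe : ℤ → ℤ) (X Y X' Y' : ℤ) : Prop where
  mid : ∀ x, X ≤ x → x < X' → fe x = f x
  lo : ∀ x, x < X → fe x = Y
  hi : ∀ x, X' ≤ x → fe x = Y'
  c : Cone C f X Y
  c' : Cone C f X' Y'
  ce : Cone C fe X Y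
  ce' : Cone C fe X' Y'

theorem cell_core (hC : C.Good G) {H0 Hb H1 Ht V0 Vl V1 Vr : ℤ → ℤ}
    {X0 Y0 X1 Y1 X2 Y2 X3 Y3 : ℤ} (hb : Ext C H0 Hb X0 Y0 X1 Y1) (ht : Ext C H1 Ht X2 Y2 X3 Y3)
    (hl : Ext C.sw V0 Vl Y0 X0 Y2 X2) (hr : Ext C.sw V1 Vr Y1 X1 Y3 X3) (x y : ℤ) :
    ((H0 x ≤ y ∧ y < H1 x) ∧ (V0 y ≤ x ∧ x < V1 y)) ↔
      (Hb x ≤ y ∧ y < Ht x ∧ Vl y ≤ x ∧ x < Vr y) := by
  constructor
  · rintro ⟨⟨h1, h2⟩, h3, h4⟩
    refine ⟨?_, ?_, ?_, ?_⟩
    · rcases lt_or_ge x X0 with hx | hx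
      · rw [hb.lo x hx]
        by_contra hc
        push Not at hc
        exact corner1 hC hb.c hl.c hx hc h1 h3
      · rcases lt_or_ge x X1 with hx' | hx'
        · rw [hb.mid x hx hx']
          exact h1
        · rw [hb.hi x hx']
          by_contra hc
          push Not at hc
          exact corner2 hC hb.c' hr.c hx' hc h1 h4
    · rcases lt_or_ge x X2 with hx | hx
      · rw [ht.lo x hx]
        by_contra hc
        push Not at hc
        exact corner3 hC ht.c hl.c' hx hc h2 h3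
      · rcases lt_or_ge x X3 with hx' | hx'
        · rw [ht.mid x hx hx']
          exact h2
        · rw [ht.hi x hx']
          by_contra hc
          push Not at hc
          exact corner4 hC ht.c' hr.c' hx' hc h2 h4
    · rcases lt_or_ge y Y0 with hy | hy
      · rw [hl.lo y hy]
        by_contra hc
        push Not at hc
        exact corner1 hC hb.c hl.c hc hy h1 h3
      · rcases lt_or_ge y Y2 with hy' | hy'
        · rw [hl.mid y hy hy']
          exact h3
        · rw [hl.hi y hy']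
          by_contra hc
          push Not at hc
          exact corner3 hC ht.c hl.c' hc hy' h2 h3
    · rcases lt_or_ge y Y1 with hy | hy
      · rw [hr.lo y hy]
        by_contra hc
        push Not at hc
        exact corner2 hC hb.c' hr.c hc hy h1 h4
      · rcases lt_or_ge y Y3 with hy' | hy'
        · rw [hr.mid y hy hy']
          exact h4
        · rw [hr.hi y hy']
          by_contra hc
          push Not at hc
          exact corner4 hC ht.c' hr.c' hc hy' h2 h4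
  · rintro ⟨h1, h2, h3, h4⟩
    refine ⟨⟨?_, ?_⟩, ?_, ?_⟩
    · rcases lt_or_ge x X0 with hx | hx
      · rw [hb.lo x hx] at h1
        by_contra hc
        push Not at hc
        exact corner3 hC hb.c hl.ce hx h1 hc h3
      · rcases lt_or_ge x X1 with hx' | hx'
        · rwa [hb.mid x hx hx'] at h1
        · rw [hb.hi x hx'] at h1
          by_contra hc
          push Not at hc
          exact corner4 hC hb.c' hr.ce hx' h1 hc h4
    · rcases lt_or_ge x X2 with hx | hx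
      · rw [ht.lo x hx] at h2
        by_contra hc
        push Not at hc
        exact corner1 hC ht.c hl.ce' hx h2 hc h3
      · rcases lt_or_ge x X3 with hx' | hx'
        · rwa [ht.mid x hx hx'] at h2
        · rw [ht.hi x hx'] at h2
          by_contra hc
          push Not at hc
          exact corner2 hC ht.c' hr.ce' hx' h2 hc h4
    · rcases lt_or_ge y Y0 with hy | hy
      · rw [hl.lo y hy] at h3
        by_contra hc
        push Not at hc
        exact corner2 hC hb.ce hl.c h3 hy h1 hc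
      · rcases lt_or_ge y Y2 with hy' | hy'
        · rwa [hl.mid y hy hy'] at h3
        · rw [hl.hi y hy'] at h3
          by_contra hc
          push Not at hc
          exact corner4 hC ht.ce hl.c' h3 hy' h2 hc
    · rcases lt_or_ge y Y1 with hy | hy
      · rw [hr.lo y hy] at h4
        by_contra hc
        push Not at hc
        exact corner1 hC hb.ce' hr.c h4 hy h1 hc
      · rcases lt_or_ge y Y3 with hy' | hy'
        · rwa [hr.mid y hy hy'] at h4
        · rw [hr.hi y hy'] at h4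
          by_contra hc
          push Not at hc
          exact corner3 hC ht.ce' hr.c' h4 hy' h2 hc

theorem Skew.cone (S : Skew G C K1) (hC : C.Good G) (i j : ℤ) :
    Cone C (S.H j) (S.Φ (i, j)).1 (S.Φ (i, j)).2 :=
  ⟨fun _ h => S.H_fw hC h, fun _ h => S.H_bw hC h⟩

theorem Skew.ext (S : Skew G C K1) (hC : C.Good G) (i j : ℤ) :
    Ext C (S.H j) (fun x => (S.Φ (i, j)).2 + hh G.ρ (S.D1 (i, j)) (x - (S.Φ (i, j)).1))
      (S.Φ (i, j)).1 (S.Φ (i, j)).2 (S.Φ (i + 1, j)).1 (S.Φ (i + 1, j)).2 := by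
  have hD : InD G C K1 (S.D1 (i, j)) := S.h1 (i, j)
  have e : ((i, j) : V) + e1 = (i + 1, j) := by simp [e1]
  have eD1 : (S.D1 (i, j)).1 = (S.Φ (i + 1, j)).1 - (S.Φ (i, j)).1 := by
    unfold Skew.D1
    rw [e]
    rfl
  have eD2 : (S.D1 (i, j)).2 = (S.Φ (i + 1, j)).2 - (S.Φ (i, j)).2 := by
    unfold Skew.D1
    rw [e]
    rfl
  have hρ := G.hρ
  have hlt : (S.Φ (i, j)).1 < (S.Φ (i + 1, j)).1 := S.strictMono j (lt_add_one i)
  have mid : ∀ x, (S.Φ (i, j)).1 ≤ x → x < (S.Φ (i + 1, j)).1 →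
      (S.Φ (i, j)).2 + hh G.ρ (S.D1 (i, j)) (x - (S.Φ (i, j)).1) = S.H j x :=
    fun x h h' => (S.H_eq h h').symm
  have lo : ∀ x, x < (S.Φ (i, j)).1 →
      (S.Φ (i, j)).2 + hh G.ρ (S.D1 (i, j)) (x - (S.Φ (i, j)).1) = (S.Φ (i, j)).2 := by
    intro x h
    rw [hh_lo hD (by omega), add_zero]
  have hi : ∀ x, (S.Φ (i + 1, j)).1 ≤ x →
      (S.Φ (i, j)).2 + hh G.ρ (S.D1 (i, j)) (x - (S.Φ (i, j)).1) = (S.Φ (i + 1, j)).2 := by
    intro x h
    rw [hh_hi hD (by omega), eD2]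
    omega
  have hrow := S.row_fw hC (i := i) (i' := i + 1) (j := j) (by omega)
  have hε := G.hε
  have up0 : 0 < C.up := by linarith [hC.up1]
  have um0 : 0 < C.um := by linarith [hC.um1]
  refine ⟨mid, lo, hi, S.cone hC i j, S.cone hC (i + 1) j, ⟨fun x h => ?_, fun x h => ?_⟩,
    ⟨fun x h => ?_, fun x h => ?_⟩⟩
  · rcases lt_or_ge x (S.Φ (i + 1, j)).1 with h' | h'
    · rw [mid x h h']
      exact (S.cone hC i j).fw x h
    · rw [hi x h']
      have h'' : ((S.Φ (i + 1, j)).1 : ℝ) ≤ x := by exact_mod_cast h'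
      constructor
      · refine le_trans ?_ hrow.1
        rw [neg_le_neg_iff]
        exact mul_le_mul_of_nonneg_left (by linarith) um0.le
      · refine le_trans hrow.2 ?_
        exact mul_le_mul_of_nonneg_left (by linarith) up0.le
  · rw [lo x h, sub_self]
    have h'' : (x : ℝ) + 1 ≤ (S.Φ (i, j)).1 := by exact_mod_cast h
    constructor
    · rw [neg_nonpos]
      exact mul_nonneg up0.le (by linarith)
    · exact mul_nonneg um0.le (by linarith)
  · rw [hi x h, sub_self]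
    have h'' : ((S.Φ (i + 1, j)).1 : ℝ) ≤ x := by exact_mod_cast h
    constructor
    · rw [neg_nonpos]
      exact mul_nonneg um0.le (by linarith)
    · exact mul_nonneg up0.le (by linarith)
  · rcases lt_or_ge x (S.Φ (i, j)).1 with h' | h'
    · rw [lo x h']
      have h'' : (x : ℝ) + 1 ≤ (S.Φ (i, j)).1 := by exact_mod_cast h'
      have g1 : C.up * ((S.Φ (i + 1, j)).1 - (S.Φ (i, j)).1) ≤
          C.up * ((S.Φ (i + 1, j)).1 - 1 - x) := mul_le_mul_of_nonneg_left (by linarith) up0.le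
      have g2 : C.um * ((S.Φ (i + 1, j)).1 - (S.Φ (i, j)).1) ≤
          C.um * ((S.Φ (i + 1, j)).1 - 1 - x) := mul_le_mul_of_nonneg_left (by linarith) um0.le
      constructor
      · linarith [hrow.2]
      · linarith [hrow.1]
    · rw [mid x h' h]
      exact (S.cone hC (i + 1) j).bw x h

theorem Skew.inCell_iff (S : Skew G C K1) (hC : C.Good G) (z k : V) :
    S.InCell z k ↔
      patchQ G.ρ (S.D1 k) (S.D2 k) (S.D1 (k + e2)) (S.D2 (k + e1)) (z - S.Φ k) := by
  obtain ⟨i, j⟩ := k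
  have q1 : ((i, j) : V) + e1 = (i + 1, j) := by simp [e1]
  have q2 : ((i, j) : V) + e2 = (i, j + 1) := by simp [e2]
  have q3 : ((j, i) : V) + e1 = (j + 1, i) := by simp [e1]
  have q4 : ((i + 1, j) : V) + e2 = (i + 1, j + 1) := by simp [e2]
  have q5 : ((j, i + 1) : V) + e1 = (j + 1, i + 1) := by simp [e1]
  have hb := S.ext hC i j
  have ht := S.ext hC i (j + 1)
  have hl : Ext C.sw (S.tr.H i) (fun y => (S.Φ (i, j)).1 + hh G.ρ (S.D2 (i, j)).swap
      (y - (S.Φ (i, j)).2)) (S.Φ (i, j)).2 (S.Φ (i, j)).1 (S.Φ (i, j + 1)).2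
      (S.Φ (i, j + 1)).1 := by
    have h := S.tr.ext hC.sw j i
    have e : S.tr.D1 (j, i) = (S.D2 (i, j)).swap := by
      unfold Skew.D1 Skew.D2
      rw [q2, q3]
      rfl
    rw [e] at h
    exact h
  have hr : Ext C.sw (S.tr.H (i + 1)) (fun y => (S.Φ (i + 1, j)).1 +
      hh G.ρ (S.D2 (i + 1, j)).swap (y - (S.Φ (i + 1, j)).2)) (S.Φ (i + 1, j)).2
      (S.Φ (i + 1, j)).1 (S.Φ (i + 1, j + 1)).2 (S.Φ (i + 1, j + 1)).1 := by
    have h := S.tr.ext hC.sw j (i + 1)
    have e : S.tr.D1 (j, i + 1) = (S.D2 (i + 1, j)).swap := by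
      unfold Skew.D1 Skew.D2
      rw [q4, q5]
      rfl
    rw [e] at h
    exact h
  have key := cell_core hC hb ht hl hr z.1 z.2
  have e1' : (z - S.Φ (i, j)).1 = z.1 - (S.Φ (i, j)).1 := rfl
  have e2' : (z - S.Φ (i, j)).2 = z.2 - (S.Φ (i, j)).2 := rfl
  have e3 : (S.D2 (i, j)).1 = (S.Φ (i, j + 1)).1 - (S.Φ (i, j)).1 := by
    unfold Skew.D2
    rw [q2]
    rfl
  have e4 : (S.D2 (i, j)).2 = (S.Φ (i, j + 1)).2 - (S.Φ (i, j)).2 := by
    unfold Skew.D2
    rw [q2]
    rfl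
  have e5 : (S.D1 (i, j)).1 = (S.Φ (i + 1, j)).1 - (S.Φ (i, j)).1 := by
    unfold Skew.D1
    rw [q1]
    rfl
  have e6 : (S.D1 (i, j)).2 = (S.Φ (i + 1, j)).2 - (S.Φ (i, j)).2 := by
    unfold Skew.D1
    rw [q1]
    rfl
  have goal : S.InCell z (i, j) ↔ ((S.H j z.1 ≤ z.2 ∧ z.2 < S.H (j + 1) z.1) ∧
      (S.tr.H i z.2 ≤ z.1 ∧ z.1 < S.tr.H (i + 1) z.2)) := Iff.rfl
  rw [goal, key]
  unfold patchQ
  rw [e1', e2', e3, e4, e5, e6, q1, q2]
  rw [show z.1 - (S.Φ (i, j)).1 - ((S.Φ (i, j + 1)).1 - (S.Φ (i, j)).1) =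
      z.1 - (S.Φ (i, j + 1)).1 by ring,
    show z.2 - (S.Φ (i, j)).2 - ((S.Φ (i + 1, j)).2 - (S.Φ (i, j)).2) =
      z.2 - (S.Φ (i + 1, j)).2 by ring]
  constructor
  · rintro ⟨h1, h2, h3, h4⟩
    refine ⟨?_, ?_, ?_, ?_⟩ <;> omega
  · rintro ⟨h1, h2, h3, h4⟩
    refine ⟨?_, ?_, ?_, ?_⟩ <;> omega

end BU39
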