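import Pool.Agent.LibBU39.G04

/-!
TASK G06.  The index of a cell.

By `H_sep` (with `x' = x`) `H (j + 1) x ≥ H j x + ρ`, so for every `z` there is exactly one `j`
with `H j z.1 ≤ z.2 < H (j + 1) z.1`.  Same for the transposed grid.
-/

namespace BU39

variable {G : GeoC} {C : Cn} {K1 : ℤ}

/-- `k` is the index of the cell `z`. -/
def Skew.InCell (S : Skew G C K1) (z k : V) : Prop :=
  (S.H k.2 z.1 ≤ z.2 ∧ z.2 < S.H (k.2 + 1) z.1) ∧
    (S.tr.H k.1 z.2 ≤ z.1 ∧ z.1 < S.tr.H (k.1 + 1) z.2)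

private theorem G06_up {f : ℤ → ℤ} (hf : ∀ j, f j + 1 ≤ f (j + 1)) (n : ℕ) :
    f 0 + n ≤ f n := by
  induction n with
  | zero => simp
  | succ n ih =>
    have := hf n
    push_cast
    omega

private theorem G06_down {f : ℤ → ℤ} (hf : ∀ j, f j + 1 ≤ f (j + 1)) (n : ℕ) :
    f (-(n : ℤ)) + n ≤ f 0 := by
  induction n with
  | zero => simp
  | succ n ih =>
    have := hf (-(n : ℤ) - 1)
    rw [sub_add_cancel] at this
    push_cast
    rw [show -((n : ℤ) + 1) = -(n : ℤ) - 1 by ring]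
    omega

private theorem G06_exists {f : ℤ → ℤ} (hf : ∀ j, f j + 1 ≤ f (j + 1)) (y : ℤ) :
    ∃ j, f j ≤ y ∧ y < f (j + 1) := by
  obtain ⟨i, hi, hi'⟩ := Int.exists_greatest_of_bdd (P := fun i => f i ≤ y)
    ⟨(y - f 0).toNat, fun z hz => by
      by_contra hc
      rw [not_le] at hc
      have h0 : 0 ≤ z := by omega
      obtain ⟨n, rfl⟩ := Int.eq_ofNat_of_zero_le h0
      have := G06_up hf n
      omega⟩
    ⟨-((f 0 - y).toNat : ℤ), by
      have := G06_down hf (f 0 - y).toNat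
      omega⟩
  refine ⟨i, hi, ?_⟩
  by_contra hc
  have := hi' (i + 1) (not_lt.1 hc)
  omega

private theorem G06_unique {f : ℤ → ℤ} (hf : ∀ j, f j + 1 ≤ f (j + 1)) {y j j' : ℤ}
    (h1 : f j ≤ y) (h2 : y < f (j + 1)) (h3 : f j' ≤ y) (h4 : y < f (j' + 1)) : j = j' := by
  have m : StrictMono f := strictMono_int_of_lt_succ fun i => by
    have := hf i
    omega
  have a1 : j < j' + 1 := m.lt_iff_lt.1 (lt_of_le_of_lt h1 h4)
  have a2 : j' < j + 1 := m.lt_iff_lt.1 (lt_of_le_of_lt h3 h2)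
  omega

private theorem G06_sep (S : Skew G C K1) (hC : C.Good G) (x j : ℤ) :
    S.H j x + 1 ≤ S.H (j + 1) x := by
  have h1 := S.H_sep hC (j := j) (x := x) (x' := x) (by simp)
  have h2 := G.hρ
  omega

theorem Skew.exists_index (S : Skew G C K1) (hC : C.Good G) :
    ∃ ι : V → V, ∀ z k, ι z = k ↔ S.InCell z k := by
  choose J hJ1 hJ2 using fun z : V => G06_exists (G06_sep S hC z.1) z.2
  choose I hI1 hI2 using fun z : V => G06_exists (G06_sep S.tr hC.sw z.2) z.1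
  refine ⟨fun z => (I z, J z), fun z k => ⟨?_, ?_⟩⟩
  · rintro rfl
    exact ⟨⟨hJ1 z, hJ2 z⟩, hI1 z, hI2 z⟩
  · rintro ⟨⟨h1, h2⟩, h3, h4⟩
    exact Prod.ext (G06_unique (G06_sep S.tr hC.sw z.2) (hI1 z) (hI2 z) h3 h4)
      (G06_unique (G06_sep S hC z.1) (hJ1 z) (hJ2 z) h1 h2)

end BU39
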