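import Pool.Agent.LibBU39.G05
import Pool.Agent.LibBU39.G06

/-!
TASK G08.  The cells near a root, and the size of the patches.

(1) `InCell (Φ k) k`: `H k.2 X = Y` (`H_root`), `H (k.2 + 1) X ≥ Y + ρ` (`H_sep`), transposed.
(2) `InCell (Φ k - e1) (k - e1)`: `H k.2 (X - 1) = Y`; the vertical wall `k.1` at height `Y` is
    `X`, the wall `k.1 - 1` is at least `ρ` to the left.  `InCell (Φ k - e2) (k - e2)` similar.
(3) `InCell (Φ k + (x, y)) k` for `0 ≤ x, y < ρ`: `H k.2 (X + x) = Y` (`H_root`), and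
    `H (k.2 + 1) (X + x) ≥ Y + ρ` (`H_sep` with the same abscissa).
(4) If `InCell z k` then `Bd (2 K1) (z - Φ k)`: use G07 (imported below in the statement as a
    hypothesis `hp`): `hh_bd`: `- K1 ≤ hh B _ ≤ w.2 < L.2 + hh T _ ≤ 2 K1`, transposed.
-/

namespace BU39

variable {G : GeoC} {C : Cn} {K1 : ℤ}

private theorem G08_H (S : Skew G C K1) (k : V) {x : ℤ} (h : -G.ρ ≤ x) (h' : x ≤ G.ρ) :
    S.H k.2 ((S.Φ k).1 + x) = (S.Φ k).2 :=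
  S.H_root (i := k.1) (j := k.2) (by change (S.Φ k).1 - G.ρ ≤ _; omega)
    (by change _ ≤ (S.Φ k).1 + G.ρ; omega)

private theorem G08_V (S : Skew G C K1) (k : V) {y : ℤ} (h : -G.ρ ≤ y) (h' : y ≤ G.ρ) :
    S.tr.H k.1 ((S.Φ k).2 + y) = (S.Φ k).1 :=
  S.tr.H_root (i := k.2) (j := k.1) (by change (S.Φ k).2 - G.ρ ≤ _; omega)
    (by change _ ≤ (S.Φ k).2 + G.ρ; omega)

private theorem G08_s (S : Skew G C K1) (hC : C.Good G) (x j : ℤ) :
    S.H j x + G.ρ ≤ S.H (j + 1) x := by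
  have h1 := S.H_sep hC (j := j) (x := x) (x' := x) (by simp)
  omega

theorem Skew.cell_root (S : Skew G C K1) (hC : C.Good G) (k : V) :
    S.InCell (S.Φ k) k ∧ S.InCell (S.Φ k - e1) (k - e1) ∧ S.InCell (S.Φ k - e2) (k - e2) := by
  have hρ := G.hρ
  have a1 := G08_H S k (x := 0) (by omega) (by omega)
  have a2 := G08_H S k (x := -1) (by omega) (by omega)
  have b1 := G08_V S k (y := 0) (by omega) (by omega)
  have b2 := G08_V S k (y := -1) (by omega) (by omega)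
  rw [add_zero] at a1 b1
  have c1 := G08_s S hC (S.Φ k).1 k.2
  have c2 := G08_s S hC ((S.Φ k).1 + -1) k.2
  have c3 := G08_s S hC (S.Φ k).1 (k.2 - 1)
  have d1 := G08_s S.tr hC.sw (S.Φ k).2 k.1
  have d2 := G08_s S.tr hC.sw ((S.Φ k).2 + -1) k.1
  have d3 := G08_s S.tr hC.sw (S.Φ k).2 (k.1 - 1)
  rw [sub_add_cancel] at c3 d3
  have f1 : (S.Φ k - e1).1 = (S.Φ k).1 + -1 := by simp [e1, sub_eq_add_neg]
  have f2 : (S.Φ k - e1).2 = (S.Φ k).2 := by simp [e1]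
  have f3 : (S.Φ k - e2).1 = (S.Φ k).1 := by simp [e2]
  have f4 : (S.Φ k - e2).2 = (S.Φ k).2 + -1 := by simp [e2, sub_eq_add_neg]
  have g1 : (k - e1).1 = k.1 - 1 := by simp [e1]
  have g2 : (k - e1).2 = k.2 := by simp [e1]
  have g3 : (k - e2).1 = k.1 := by simp [e2]
  have g4 : (k - e2).2 = k.2 - 1 := by simp [e2]
  refine ⟨⟨⟨?_, ?_⟩, ?_, ?_⟩, ⟨⟨?_, ?_⟩, ?_, ?_⟩, ⟨⟨?_, ?_⟩, ?_, ?_⟩⟩
  · omega
  · omega
  · omega
  · omega
  · rw [f1, f2, g2]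
    omega
  · rw [f1, f2, g2]
    omega
  · rw [f1, f2, g1]
    omega
  · rw [f1, f2, g1, sub_add_cancel]
    omega
  · rw [f3, f4, g4]
    omega
  · rw [f3, f4, g4, sub_add_cancel]
    omega
  · rw [f3, f4, g3]
    omega
  · rw [f3, f4, g3]
    omega

theorem Skew.cell_near (S : Skew G C K1) (hC : C.Good G) (k : V) {x y : ℤ} (hx : 0 ≤ x)
    (hx' : x < G.ρ) (hy : 0 ≤ y) (hy' : y < G.ρ) : S.InCell (S.Φ k + (x, y)) k := by
  have hρ := G.hρ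
  have a1 := G08_H S k (x := x) (by omega) (by omega)
  have b1 := G08_V S k (y := y) (by omega) (by omega)
  have c1 := G08_s S hC ((S.Φ k).1 + x) k.2
  have d1 := G08_s S.tr hC.sw ((S.Φ k).2 + y) k.1
  have f1 : (S.Φ k + (x, y)).1 = (S.Φ k).1 + x := rfl
  have f2 : (S.Φ k + (x, y)).2 = (S.Φ k).2 + y := rfl
  refine ⟨⟨?_, ?_⟩, ?_, ?_⟩ <;> rw [f1, f2] <;> omega

theorem patch_bd (S : Skew G C K1) (k : V) {w : V}
    (hp : patchQ G.ρ (S.D1 k) (S.D2 k) (S.D1 (k + e2)) (S.D2 (k + e1)) w) :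
    Bd (2 * K1) w := by
  obtain ⟨h1, h2, h3, h4⟩ := hp
  have hB : InD G C K1 (S.D1 k) := S.h1 k
  have hL : InD G C.sw K1 (S.D2 k).swap := S.h2 k
  have hT : InD G C K1 (S.D1 (k + e2)) := S.h1 (k + e2)
  have hR : InD G C.sw K1 (S.D2 (k + e1)).swap := S.h2 (k + e1)
  have b1 := (hh_bd hB w.1).1
  have b2 := (hh_bd hT (w.1 - (S.D2 k).1)).2
  have b3 := (hh_bd hL w.2).1
  have b4 := (hh_bd hR (w.2 - (S.D1 k).2)).2
  have c1 := abs_le.1 hB.hi2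
  have c2 := abs_le.1 hT.hi2
  have c3 := abs_le.1 hL.hi2
  have c4 := abs_le.1 hR.hi2
  have d1 := hB.hi
  have d2 := hL.hi
  rw [Prod.snd_swap] at b3 b4 c3 c4
  rw [Prod.fst_swap] at d2
  refine ⟨abs_le.2 ⟨?_, ?_⟩, abs_le.2 ⟨?_, ?_⟩⟩ <;> omega

end BU39
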