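import Pool.Agent.LibBU39.G06

/-!
TASK G09.  The walls of the partition.

`ι` is the index function (G06).  For the horizontal edge `(w, false)` compare the cells
`w - e2` (below) and `w` (above).  Second coordinates of the index: `H j w.1 ≤ w.2 - 1` versus
`H j w.1 ≤ w.2`: they differ iff `H j w.1 = w.2` for some `j`, then `(ι w).2 = j` and
`(ι (w - e2)).2 = j - 1`.  First coordinates: `tr.H i (w.2 - 1) ≤ w.1` versus
`tr.H i w.2 ≤ w.1`: they differ iff `w.1` is in the half open interval between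
`tr.H i (w.2 - 1)` and `tr.H i w.2` for some `i` (by `H_sep` with `|x' - x| ≤ 1` at most one
`i` is possible and the index changes by 1).  Both cannot happen at the same time by G05's
`cross` (hypothesis `hx` below): the vertices `w` and `w + e1` would both be on the
horizontal wall `j` and on the vertical wall `i`.
For vertical edges use the transposed grid (or repeat).
-/

namespace BU39

variable {G : GeoC} {C : Cn} {K1 : ℤ}

/-- The horizontal edge at `w` is on the horizontal wall `j`. -/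
def Skew.hH (S : Skew G C K1) (j : ℤ) (w : V) : Prop := S.H j w.1 = w.2

/-- The vertical edge at `w` is on the horizontal wall `j`. -/
def Skew.vH (S : Skew G C K1) (j : ℤ) (w : V) : Prop :=
  (S.H j (w.1 - 1) ≤ w.2 ∧ w.2 < S.H j w.1) ∨ (S.H j w.1 ≤ w.2 ∧ w.2 < S.H j (w.1 - 1))

/-- Monotonicity in the index from the separation of consecutive walls. -/
theorem sep_mono {H : ℤ → ℤ → ℤ} (hH : ∀ j x x', |x' - x| ≤ 1 → 9 ≤ H (j + 1) x' - H j x)
    {i j : ℤ} (h : i < j) (x x' : ℤ) (hx : |x' - x| ≤ 1) : H i x + 9 ≤ H j x' := by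
  have h1 : ∀ n : ℕ, H i x + 9 ≤ H (i + 1 + n) x' := by
    intro n
    induction n with
    | zero =>
      have := hH i x x' hx
      simp only [Nat.cast_zero, add_zero]
      omega
    | succ n ih =>
      have := hH (i + 1 + n) x' x' (by simp)
      push_cast
      rw [← add_assoc]
      omega
  have h2 := h1 (j - i - 1).toNat
  rwa [show i + 1 + ((j - i - 1).toNat : ℤ) = j by omega] at h2

/-- If `H i x ≤ a < H j x'` and `x`, `x'` differ by at most `1` then `i ≤ j`. -/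
theorem sep_lt {H : ℤ → ℤ → ℤ} (hH : ∀ j x x', |x' - x| ≤ 1 → 9 ≤ H (j + 1) x' - H j x)
    {i j x x' a : ℤ} (hx : |x' - x| ≤ 1) (h1 : H i x ≤ a) (h2 : a < H j x') : i ≤ j := by
  by_contra hc
  push Not at hc
  have := sep_mono hH hc x' x (by rw [abs_sub_comm]; exact hx)
  omega

/-- The same at the same abscissa: `i < j`. -/
theorem sep_lt' {H : ℤ → ℤ → ℤ} (hH : ∀ j x x', |x' - x| ≤ 1 → 9 ≤ H (j + 1) x' - H j x)
    {i j x a : ℤ} (h1 : H i x ≤ a) (h2 : a < H j x) : i < j := by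
  rcases lt_or_eq_of_le (sep_lt hH (by simp) h1 h2) with h | h
  · exact h
  · subst h
    omega

/-- The comparison of the cells `(a, b - 1)` and `(a, b)`. -/
theorem edge_core {H V : ℤ → ℤ → ℤ}
    (hH : ∀ j x x', |x' - x| ≤ 1 → 9 ≤ H (j + 1) x' - H j x)
    (hV : ∀ j x x', |x' - x| ≤ 1 → 9 ≤ V (j + 1) x' - V j x) {a b : ℤ}
    (hx : ∀ i j, H j a = b →
      (V i (b - 1) ≤ a ∧ a < V i b) ∨ (V i b ≤ a ∧ a < V i (b - 1)) → False)
    {k1 k2 k1' k2' : ℤ} (h1 : H k2 a ≤ b) (h2 : b < H (k2 + 1) a) (h3 : V k1 b ≤ a)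
    (h4 : a < V (k1 + 1) b) (h1' : H k2' a ≤ b - 1) (h2' : b - 1 < H (k2' + 1) a)
    (h3' : V k1' (b - 1) ≤ a) (h4' : a < V (k1' + 1) (b - 1)) :
    (k1 = k1' ∧ k2 = k2' ∧ (∀ j, H j a ≠ b) ∧
      ∀ i, ¬ ((V i (b - 1) ≤ a ∧ a < V i b) ∨ (V i b ≤ a ∧ a < V i (b - 1)))) ∨
    (k1 = k1' ∧ k2 = k2' + 1 ∧ H k2 a = b) ∨
    (k1 = k1' + 1 ∧ k2 = k2' ∧
      ((V k1 (b - 1) ≤ a ∧ a < V k1 b) ∨ (V k1 b ≤ a ∧ a < V k1 (b - 1)))) ∨
    (k1' = k1 + 1 ∧ k2' = k2 ∧
      ((V k1' (b - 1) ≤ a ∧ a < V k1' b) ∨ (V k1' b ≤ a ∧ a < V k1' (b - 1)))) := by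
  have e1 : |b - 1 - b| ≤ 1 := by
    rw [show b - 1 - b = -1 by ring]; simp
  have e2 : |b - (b - 1)| ≤ 1 := by
    rw [show b - (b - 1) = 1 by ring]; simp
  -- second coordinates
  have a1 : k2' ≤ k2 := by
    have := sep_lt' hH h1' (show b - 1 < H (k2 + 1) a by omega)
    omega
  have a2 : k2 = k2' ∨ (k2 = k2' + 1 ∧ H k2 a = b) := by
    rcases eq_or_lt_of_le a1 with h | h
    · exact Or.inl h.symm
    · right
      have b1 : k2 ≤ k2' + 1 := by
        by_contra hc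
        push Not at hc
        have := sep_mono hH hc a a (by simp)
        omega
      have b2 : k2 = k2' + 1 := by omega
      refine ⟨b2, ?_⟩
      rw [← b2] at h2'
      omega
  -- first coordinates
  have a3 : k1' ≤ k1 + 1 := sep_lt hV e2 h3' h4
  have a4 : k1 ≤ k1' + 1 := sep_lt hV e1 h3 h4'
  have a5 : k1 = k1' ∨ (k1 = k1' + 1 ∧ (V k1 b ≤ a ∧ a < V k1 (b - 1))) ∨
      (k1' = k1 + 1 ∧ (V k1' (b - 1) ≤ a ∧ a < V k1' b)) := by
    rcases lt_trichotomy k1 k1' with h | h | h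
    · have b2 : k1' = k1 + 1 := by omega
      refine Or.inr (Or.inr ⟨b2, h3', ?_⟩)
      rw [b2]; exact h4
    · exact Or.inl h
    · have b2 : k1 = k1' + 1 := by omega
      refine Or.inr (Or.inl ⟨b2, h3, ?_⟩)
      rw [b2]; exact h4'
  rcases a2 with a2 | ⟨a2, a2'⟩
  · rcases a5 with a5 | ⟨a5, a5'⟩ | ⟨a5, a5'⟩
    · refine Or.inl ⟨a5, a2, fun j hj => ?_, fun i hi => ?_⟩
      · have b1 : j < k2 + 1 := sep_lt' hH (le_of_eq hj) h2
        have b2 : k2' < j := sep_lt' hH h1' (show b - 1 < H j a by omega)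
        omega
      · rcases hi with hi | hi
        · have b1 : k1 < i := sep_lt' hV h3 hi.2
          have b2 : i < k1' + 1 := sep_lt' hV hi.1 h4'
          omega
        · have b1 : k1' < i := sep_lt' hV h3' hi.2
          have b2 : i < k1 + 1 := sep_lt' hV hi.1 h4
          omega
    · exact Or.inr (Or.inr (Or.inl ⟨a5, a2, Or.inr a5'⟩))
    · exact Or.inr (Or.inr (Or.inr ⟨a5, a2.symm, Or.inl a5'⟩))
  · rcases a5 with a5 | ⟨a5, a5'⟩ | ⟨a5, a5'⟩
    · exact Or.inr (Or.inl ⟨a5, a2, a2'⟩)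
    · exact (hx _ _ a2' (Or.inr a5')).elim
    · exact (hx _ _ a2' (Or.inl a5')).elim

theorem Skew.H_sep9 (S : Skew G C K1) (hC : C.Good G) (j x x' : ℤ) (h : |x' - x| ≤ 1) :
    9 ≤ S.H (j + 1) x' - S.H j x := le_trans G.hρ (S.H_sep hC h)

theorem Skew.edge_h (S : Skew G C K1) (hC : C.Good G)
    (hx : ∀ (i j : ℤ) (w : V), S.onH j w → S.tr.onH i w.swap → w = S.Φ (i, j))
    {ι : V → V} (hι : ∀ z k, ι z = k ↔ S.InCell z k) (w : V) :
    (ι w = ι (w - e2) ∧ (∀ j, ¬ S.hH j w) ∧ ∀ i, ¬ S.tr.vH i w.swap) ∨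
    (ι w = ι (w - e2) + e2 ∧ S.hH (ι w).2 w) ∨
    (ι w = ι (w - e2) + e1 ∧ S.tr.vH (ι w).1 w.swap) ∨
    (ι (w - e2) = ι w + e1 ∧ S.tr.vH (ι (w - e2)).1 w.swap) := by
  obtain ⟨⟨h1, h2⟩, h3, h4⟩ := (hι w (ι w)).1 rfl
  obtain ⟨⟨h1', h2'⟩, h3', h4'⟩ := (hι (w - e2) (ι (w - e2))).1 rfl
  have f1 : (w - e2).1 = w.1 := by simp [e2]
  have f2 : (w - e2).2 = w.2 - 1 := by simp [e2]
  rw [f1, f2] at h1' h2' h3' h4'
  have hxx : ∀ i j, S.H j w.1 = w.2 →
      (S.tr.H i (w.2 - 1) ≤ w.1 ∧ w.1 < S.tr.H i w.2) ∨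
        (S.tr.H i w.2 ≤ w.1 ∧ w.1 < S.tr.H i (w.2 - 1)) → False := by
    intro i j hj hi
    have g1 : w = S.Φ (i, j) := by
      refine hx i j w ⟨?_, ?_⟩ ⟨?_, ?_⟩
      · exact le_trans (min_le_right _ _) hj.le
      · exact le_trans hj.ge (le_max_right _ _)
      · show min (S.tr.H i (w.2 - 1)) (S.tr.H i w.2) ≤ w.1
        rcases hi with hi | hi
        · exact le_trans (min_le_left _ _) hi.1
        · exact le_trans (min_le_right _ _) hi.1
      · show w.1 ≤ max (S.tr.H i (w.2 - 1)) (S.tr.H i w.2)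
        rcases hi with hi | hi
        · exact le_trans hi.2.le (le_max_right _ _)
        · exact le_trans hi.2.le (le_max_left _ _)
    have g2 : w + e1 = S.Φ (i, j) := by
      have k1 : (w + e1).1 = w.1 + 1 := by simp [e1]
      have k2 : (w + e1).2 = w.2 := by simp [e1]
      refine hx i j (w + e1) ⟨?_, ?_⟩ ⟨?_, ?_⟩
      · rw [k1, k2, add_sub_cancel_right]
        exact le_trans (min_le_left _ _) hj.le
      · rw [k1, k2, add_sub_cancel_right]
        exact le_trans hj.ge (le_max_left _ _)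
      · show min (S.tr.H i ((w + e1).2 - 1)) (S.tr.H i (w + e1).2) ≤ (w + e1).1
        rw [k1, k2]
        rcases hi with hi | hi
        · exact le_trans (min_le_left _ _) (by omega)
        · exact le_trans (min_le_right _ _) (by omega)
      · show (w + e1).1 ≤ max (S.tr.H i ((w + e1).2 - 1)) (S.tr.H i (w + e1).2)
        rw [k1, k2]
        rcases hi with hi | hi
        · exact le_trans (by omega) (le_max_right _ _)
        · exact le_trans (by omega) (le_max_left _ _)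
    rw [← g1] at g2
    have := congrArg Prod.fst g2
    simp [e1] at this
  have key := edge_core (S.H_sep9 hC) (S.tr.H_sep9 hC.sw) hxx h1 h2 h3 h4 h1' h2' h3' h4'
  rcases key with ⟨c1, c2, c3, c4⟩ | ⟨c1, c2, c3⟩ | ⟨c1, c2, c3⟩ | ⟨c1, c2, c3⟩
  · exact Or.inl ⟨Prod.ext c1 c2, c3, c4⟩
  · refine Or.inr (Or.inl ⟨Prod.ext ?_ ?_, c3⟩)
    · simpa [e2] using c1
    · simpa [e2] using c2
  · refine Or.inr (Or.inr (Or.inl ⟨Prod.ext ?_ ?_, c3⟩))
    · simpa [e1] using c1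
    · simpa [e1] using c2
  · refine Or.inr (Or.inr (Or.inr ⟨Prod.ext ?_ ?_, c3⟩))
    · simpa [e1] using c1
    · simpa [e1] using c2

theorem Skew.edge_v (S : Skew G C K1) (hC : C.Good G)
    (hx : ∀ (i j : ℤ) (w : V), S.onH j w → S.tr.onH i w.swap → w = S.Φ (i, j))
    {ι : V → V} (hι : ∀ z k, ι z = k ↔ S.InCell z k) (w : V) :
    (ι w = ι (w - e1) ∧ (∀ i, ¬ S.tr.hH i w.swap) ∧ ∀ j, ¬ S.vH j w) ∨
    (ι w = ι (w - e1) + e1 ∧ S.tr.hH (ι w).1 w.swap) ∨
    (ι w = ι (w - e1) + e2 ∧ S.vH (ι w).2 w) ∨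
    (ι (w - e1) = ι w + e2 ∧ S.vH (ι (w - e1)).2 w) := by
  obtain ⟨⟨h3, h4⟩, h1, h2⟩ := (hι w (ι w)).1 rfl
  obtain ⟨⟨h3', h4'⟩, h1', h2'⟩ := (hι (w - e1) (ι (w - e1))).1 rfl
  have f1 : (w - e1).1 = w.1 - 1 := by simp [e1]
  have f2 : (w - e1).2 = w.2 := by simp [e1]
  rw [f1, f2] at h1' h2' h3' h4'
  have hxx : ∀ j i, S.tr.H i w.2 = w.1 →
      (S.H j (w.1 - 1) ≤ w.2 ∧ w.2 < S.H j w.1) ∨
        (S.H j w.1 ≤ w.2 ∧ w.2 < S.H j (w.1 - 1)) → False := by
    intro j i hi hj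
    have g1 : w = S.Φ (i, j) := by
      refine hx i j w ⟨?_, ?_⟩ ⟨?_, ?_⟩
      · rcases hj with hj | hj
        · exact le_trans (min_le_left _ _) hj.1
        · exact le_trans (min_le_right _ _) hj.1
      · rcases hj with hj | hj
        · exact le_trans hj.2.le (le_max_right _ _)
        · exact le_trans hj.2.le (le_max_left _ _)
      · show min (S.tr.H i (w.2 - 1)) (S.tr.H i w.2) ≤ w.1
        exact le_trans (min_le_right _ _) hi.le
      · show w.1 ≤ max (S.tr.H i (w.2 - 1)) (S.tr.H i w.2)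
        exact le_trans hi.ge (le_max_right _ _)
    have g2 : w + e2 = S.Φ (i, j) := by
      have k1 : (w + e2).1 = w.1 := by simp [e2]
      have k2 : (w + e2).2 = w.2 + 1 := by simp [e2]
      refine hx i j (w + e2) ⟨?_, ?_⟩ ⟨?_, ?_⟩
      · rw [k1, k2]
        rcases hj with hj | hj
        · exact le_trans (min_le_left _ _) (by omega)
        · exact le_trans (min_le_right _ _) (by omega)
      · rw [k1, k2]
        rcases hj with hj | hj
        · exact le_trans (by omega) (le_max_right _ _)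
        · exact le_trans (by omega) (le_max_left _ _)
      · show min (S.tr.H i ((w + e2).2 - 1)) (S.tr.H i (w + e2).2) ≤ (w + e2).1
        rw [k1, k2, add_sub_cancel_right]
        exact le_trans (min_le_left _ _) hi.le
      · show (w + e2).1 ≤ max (S.tr.H i ((w + e2).2 - 1)) (S.tr.H i (w + e2).2)
        rw [k1, k2, add_sub_cancel_right]
        exact le_trans hi.ge (le_max_left _ _)
    rw [← g1] at g2
    have := congrArg Prod.snd g2
    simp [e2] at this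
  have key := edge_core (S.tr.H_sep9 hC.sw) (S.H_sep9 hC) hxx h1 h2 h3 h4 h1' h2' h3' h4'
  rcases key with ⟨c1, c2, c3, c4⟩ | ⟨c1, c2, c3⟩ | ⟨c1, c2, c3⟩ | ⟨c1, c2, c3⟩
  · exact Or.inl ⟨Prod.ext c2 c1, c3, c4⟩
  · refine Or.inr (Or.inl ⟨Prod.ext ?_ ?_, c3⟩)
    · simpa [e1] using c2
    · simpa [e1] using c1
  · refine Or.inr (Or.inr (Or.inl ⟨Prod.ext ?_ ?_, c3⟩))
    · simpa [e2] using c2
    · simpa [e2] using c1
  · refine Or.inr (Or.inr (Or.inr ⟨Prod.ext ?_ ?_, c3⟩))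
    · simpa [e2] using c2
    · simpa [e2] using c1

end BU39
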