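import Pool.Agent.LibBU39.G05
import Pool.Agent.LibBU39.G09

/-!
TASK G10.  A vertex which is not a root has at most two walls.

By G09 each wall at the vertex `w` is an edge of a horizontal wall `j` (`hH j` or `vH j`) or of
a vertical wall `i`; this wall contains the vertex `w` (`onH j w` or `tr.onH i w.swap`).  If `w` is
not a root only one wall passes through `w` (G05: `cross`, `onH_unique` and its transposed
version).  Suppose it is the horizontal wall `j` (the other case by transposition or in the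
same way).  The four edges at `w`: `E`: `H j w.1 = w.2`; `W`: `H j (w.1 - 1) = w.2`; `N`: `vH j w`;
`S`: `vH j (w - e2)`.  With `p = H j (w.1 - 1)`, `q = H j w.1`, `y = w.2` at most two of
`q = y`, `p = y`, (`p ≤ y < q` or `q ≤ y < p`), (`p ≤ y - 1 < q` or `q ≤ y - 1 < p`) hold.
-/

namespace BU39

variable {G : GeoC} {C : Cn} {K1 : ℤ}

theorem cnt_core {p q y : ℤ} {PE PN PW PS : Prop} [Decidable PE] [Decidable PN] [Decidable PW]
    [Decidable PS] (hE : PE → q = y) (hN : PN → (p ≤ y ∧ y < q) ∨ (q ≤ y ∧ y < p))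
    (hW : PW → p = y) (hS : PS → (p ≤ y - 1 ∧ y - 1 < q) ∨ (q ≤ y - 1 ∧ y - 1 < p)) :
    (decide PE).toNat + (decide PN).toNat + (decide PW).toNat + (decide PS).toNat ≤ 2 := by
  by_cases h1 : PE
  · have g1 := hE h1
    by_cases h3 : PW
    · have g3 := hW h3
      have n2 : ¬ PN := fun h => by have := hN h; omega
      have n4 : ¬ PS := fun h => by have := hS h; omega
      simp [h1, h3, n2, n4]
    · by_cases h2 : PN
      · have g2 := hN h2
        have n4 : ¬ PS := fun h => by have := hS h; omega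
        simp [h1, h2, h3, n4]
      · by_cases h4 : PS <;> simp [h1, h2, h3, h4]
  · by_cases h3 : PW
    · have g3 := hW h3
      by_cases h2 : PN
      · have g2 := hN h2
        have n4 : ¬ PS := fun h => by have := hS h; omega
        simp [h1, h2, h3, n4]
      · by_cases h4 : PS <;> simp [h1, h2, h3, h4]
    · by_cases h2 : PN <;> by_cases h4 : PS <;> simp [h1, h2, h3, h4]

theorem Skew.hH_onH (S : Skew G C K1) {j : ℤ} {w : V} (h : S.hH j w) :
    S.onH j w ∧ S.onH j (w + e1) := by
  have k1 : (w + e1).1 = w.1 + 1 := by simp [e1]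
  have k2 : (w + e1).2 = w.2 := by simp [e1]
  have h' : S.H j w.1 = w.2 := h
  refine ⟨⟨le_trans (min_le_right _ _) h'.le, le_trans h'.ge (le_max_right _ _)⟩, ?_, ?_⟩
  · rw [k1, k2, add_sub_cancel_right]
    exact le_trans (min_le_left _ _) h'.le
  · rw [k1, k2, add_sub_cancel_right]
    exact le_trans h'.ge (le_max_left _ _)

theorem Skew.vH_onH (S : Skew G C K1) {j : ℤ} {w : V} (h : S.vH j w) :
    S.onH j w ∧ S.onH j (w + e2) := by
  have k1 : (w + e2).1 = w.1 := by simp [e2]
  have k2 : (w + e2).2 = w.2 + 1 := by simp [e2]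
  unfold Skew.onH
  rw [k1, k2]
  unfold Skew.vH at h
  omega

theorem Skew.cnt_le (S : Skew G C K1) (hC : C.Good G) {ι : V → V}
    (hι : ∀ z k, ι z = k ↔ S.InCell z k) {w : V} (hw : w ∉ Set.range S.Φ) :
    (vtF ι w).cnt ≤ 2 := by
  have hx : ∀ (i j : ℤ) (w : V), S.onH j w → S.tr.onH i w.swap → w = S.Φ (i, j) :=
    fun i j w h h' => S.cross hC h h'
  have hn : ∀ i j, S.onH j w → ¬ S.tr.onH i w.swap := fun i j h h' =>
    hw ⟨(i, j), (hx i j w h h').symm⟩
  have s1 : w - e1 + e1 = w := sub_add_cancel _ _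
  have s2 : w - e2 + e2 = w := sub_add_cancel _ _
  have s3 : (w - e1).swap + e2 = w.swap := Prod.ext (by simp [e1, e2]) (by simp [e1, e2])
  have s4 : (w - e2).swap + e1 = w.swap := Prod.ext (by simp [e1, e2]) (by simp [e1, e2])
  -- the four edges
  have hE : wallF ι (w, false) → (∃ j, S.hH j w) ∨ ∃ i, S.tr.vH i w.swap := by
    intro h
    have h' : ι (w - e2) ≠ ι w := h
    rcases S.edge_h hC hx hι w with c | c | c | c
    · exact absurd c.1.symm h'
    · exact Or.inl ⟨_, c.2⟩
    · exact Or.inr ⟨_, c.2⟩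
    · exact Or.inr ⟨_, c.2⟩
  have hN : wallF ι (w, true) → (∃ j, S.vH j w) ∨ ∃ i, S.tr.hH i w.swap := by
    intro h
    have h' : ι (w - e1) ≠ ι w := h
    rcases S.edge_v hC hx hι w with c | c | c | c
    · exact absurd c.1.symm h'
    · exact Or.inr ⟨_, c.2⟩
    · exact Or.inl ⟨_, c.2⟩
    · exact Or.inl ⟨_, c.2⟩
  have hW : wallF ι (w - e1, false) →
      (∃ j, S.hH j (w - e1)) ∨ ∃ i, S.tr.vH i (w - e1).swap := by
    intro h
    have h' : ι (w - e1 - e2) ≠ ι (w - e1) := h
    rcases S.edge_h hC hx hι (w - e1) with c | c | c | c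
    · exact absurd c.1.symm h'
    · exact Or.inl ⟨_, c.2⟩
    · exact Or.inr ⟨_, c.2⟩
    · exact Or.inr ⟨_, c.2⟩
  have hS : wallF ι (w - e2, true) →
      (∃ j, S.vH j (w - e2)) ∨ ∃ i, S.tr.hH i (w - e2).swap := by
    intro h
    have h' : ι (w - e2 - e1) ≠ ι (w - e2) := h
    rcases S.edge_v hC hx hι (w - e2) with c | c | c | c
    · exact absurd c.1.symm h'
    · exact Or.inr ⟨_, c.2⟩
    · exact Or.inl ⟨_, c.2⟩
    · exact Or.inl ⟨_, c.2⟩
  -- the vertex `w` is on these walls
  have oE : ∀ j, S.hH j w → S.onH j w := fun j h => (S.hH_onH h).1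
  have oE' : ∀ i, S.tr.vH i w.swap → S.tr.onH i w.swap := fun i h => (S.tr.vH_onH h).1
  have oN : ∀ j, S.vH j w → S.onH j w := fun j h => (S.vH_onH h).1
  have oN' : ∀ i, S.tr.hH i w.swap → S.tr.onH i w.swap := fun i h => (S.tr.hH_onH h).1
  have oW : ∀ j, S.hH j (w - e1) → S.onH j w := fun j h => by
    have := (S.hH_onH h).2
    rwa [s1] at this
  have oW' : ∀ i, S.tr.vH i (w - e1).swap → S.tr.onH i w.swap := fun i h => by
    have := (S.tr.vH_onH h).2
    rwa [s3] at this
  have oS : ∀ j, S.vH j (w - e2) → S.onH j w := fun j h => by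
    have := (S.vH_onH h).2
    rwa [s2] at this
  have oS' : ∀ i, S.tr.hH i (w - e2).swap → S.tr.onH i w.swap := fun i h => by
    have := (S.tr.hH_onH h).2
    rwa [s4] at this
  have f1 : (w - e1).1 = w.1 - 1 := by simp [e1]
  have f2 : (w - e1).2 = w.2 := by simp [e1]
  have f3 : (w - e2).1 = w.1 := by simp [e2]
  have f4 : (w - e2).2 = w.2 - 1 := by simp [e2]
  by_cases hA : ∃ j, S.onH j w
  · obtain ⟨j, hj⟩ := hA
    have hu : ∀ j', S.onH j' w → j' = j := fun j' h => S.onH_unique hC h hj
    refine cnt_core (p := S.H j (w.1 - 1)) (q := S.H j w.1) (y := w.2) ?_ ?_ ?_ ?_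
    · intro h
      rcases hE h with ⟨j', h1⟩ | ⟨i, h1⟩
      · have := hu j' (oE _ h1)
        subst this
        exact h1
      · exact absurd (oE' _ h1) (hn i j hj)
    · intro h
      rcases hN h with ⟨j', h1⟩ | ⟨i, h1⟩
      · have := hu j' (oN _ h1)
        subst this
        exact h1
      · exact absurd (oN' _ h1) (hn i j hj)
    · intro h
      rcases hW h with ⟨j', h1⟩ | ⟨i, h1⟩
      · have := hu j' (oW _ h1)
        subst this
        unfold Skew.hH at h1
        rwa [f1, f2] at h1
      · exact absurd (oW' _ h1) (hn i j hj)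
    · intro h
      rcases hS h with ⟨j', h1⟩ | ⟨i, h1⟩
      · have := hu j' (oS _ h1)
        subst this
        unfold Skew.vH at h1
        rwa [f3, f4] at h1
      · exact absurd (oS' _ h1) (hn i j hj)
  · push Not at hA
    by_cases hB : ∃ i, S.tr.onH i w.swap
    · obtain ⟨i, hi⟩ := hB
      have hu : ∀ i', S.tr.onH i' w.swap → i' = i := fun i' h => S.tr.onH_unique hC.sw h hi
      have key := cnt_core (PE := wallF ι (w, true)) (PN := wallF ι (w, false))
        (PW := wallF ι (w - e2, true)) (PS := wallF ι (w - e1, false))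
        (p := S.tr.H i (w.2 - 1)) (q := S.tr.H i w.2) (y := w.1) ?_ ?_ ?_ ?_
      · show (decide (wallF ι (w, false))).toNat + (decide (wallF ι (w, true))).toNat +
          (decide (wallF ι (w - e1, false))).toNat + (decide (wallF ι (w - e2, true))).toNat ≤ 2
        omega
      · intro h
        rcases hN h with ⟨j', h1⟩ | ⟨i', h1⟩
        · exact absurd (oN _ h1) (hA _)
        · have := hu i' (oN' _ h1)
          subst this
          exact h1
      · intro h
        rcases hE h with ⟨j', h1⟩ | ⟨i', h1⟩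
        · exact absurd (oE _ h1) (hA _)
        · have := hu i' (oE' _ h1)
          subst this
          exact h1
      · intro h
        rcases hS h with ⟨j', h1⟩ | ⟨i', h1⟩
        · exact absurd (oS _ h1) (hA _)
        · have := hu i' (oS' _ h1)
          subst this
          have h2 : S.tr.H i' (w - e2).2 = (w - e2).1 := h1
          rwa [f3, f4] at h2
      · intro h
        rcases hW h with ⟨j', h1⟩ | ⟨i', h1⟩
        · exact absurd (oW _ h1) (hA _)
        · have := hu i' (oW' _ h1)
          subst this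
          have h2 : (S.tr.H i' ((w - e1).2 - 1) ≤ (w - e1).1 ∧ (w - e1).1 < S.tr.H i' (w - e1).2) ∨
            (S.tr.H i' (w - e1).2 ≤ (w - e1).1 ∧ (w - e1).1 < S.tr.H i' ((w - e1).2 - 1)) := h1
          rwa [f1, f2] at h2
    · push Not at hB
      have nE : ¬ wallF ι (w, false) := fun h => by
        rcases hE h with ⟨j, h1⟩ | ⟨i, h1⟩
        · exact hA _ (oE _ h1)
        · exact hB _ (oE' _ h1)
      have nN : ¬ wallF ι (w, true) := fun h => by
        rcases hN h with ⟨j, h1⟩ | ⟨i, h1⟩
        · exact hA _ (oN _ h1)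
        · exact hB _ (oN' _ h1)
      have nW : ¬ wallF ι (w - e1, false) := fun h => by
        rcases hW h with ⟨j, h1⟩ | ⟨i, h1⟩
        · exact hA _ (oW _ h1)
        · exact hB _ (oW' _ h1)
      show (decide (wallF ι (w, false))).toNat + (decide (wallF ι (w, true))).toNat +
        (decide (wallF ι (w - e1, false))).toNat + (decide (wallF ι (w - e2, true))).toNat ≤ 2
      rw [decide_eq_false nE, decide_eq_false nN, decide_eq_false nW]
      have := Bool.toNat_le (decide (wallF ι (w - e2, true)))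
      simp only [Bool.toNat_false]
      omega

end BU39
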