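import Pool.Agent.LibBU39.G12
import Pool.Agent.LibBU39.G10
import Pool.Agent.LibBU39.G07
import Pool.Agent.LibBU39.G08

/-!
TASK G13.  Assembly: all facts about the partition given by a skew grid.

`ι` from G06.  `inj` G05, `s1` G06 + G07, `sb` G08 (`patch_bd`), `s2`, `s7` G08, `s3` from G09 (at
`w = z + e1`, `z + e2`), `s4` G10, `s5` from `follow` with `x = Φ (k + e1).1 - 1`
(`H_root`: the height there is `Φ (k + e1).2`) and `follow_tr`.
`s6`: let `(z, o)` be a wall.  By G09 it is `hH j`, `vH j` or `tr.hH i`, `tr.vH i` with the indices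
of the two cells as stated.  Horizontal wall `j`: let `i` be the segment of the abscissa `z.1`
(`exists_col`), `k = (i, j)`; `follow` connects `(Φ k, false)` with `(z, o)` (for a vertical edge
the abscissa is not `Φ k.1` because the wall is flat there: `H j (X - 1) = H j X`).  Then
`Bd (2 K1) (Φ k - z)` (`hh_bd`), change the centre with `ReachF.center`, `ReachF.symm`.
That `ι z`, `ι z⁻` are `k` and `k - e2` in some order: `LinkF` preserves the pair of the indices
of the two cells of a wall, hence `ReachF` preserves the pair.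
-/

namespace BU39

variable {G : GeoC} {C : Cn} {K1 : ℤ}

/-- one of the two cells of the edge has the name `p` -/
def PrF (f : V → V) (e : V × Bool) (p : V) : Prop :=
  f e.1 = p ∨ f (e.1 - (if e.2 then e1 else e2)) = p

theorem G13_inc {e : V × Bool} {u : V} (h : inc e u) :
    e = (u, false) ∨ e = (u, true) ∨ e = (u - e1, false) ∨ e = (u - e2, true) := by
  obtain ⟨w, o⟩ := e
  unfold inc at h
  cases o with
  | false =>
    simp only [Bool.false_eq_true, if_false] at h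
    rcases h with rfl | rfl
    · exact Or.inl rfl
    · right; right; left
      simp
  | true =>
    simp only [if_true] at h
    rcases h with rfl | rfl
    · exact Or.inr (Or.inl rfl)
    · right; right; right
      simp

theorem G13_link {K : ℤ} {f : V → V} {Rt : Set V} {z : V} (hcnt : ∀ w, w ∉ Rt → (vtF f w).cnt ≤ 2)
    {e e' : V × Bool} (h : LinkF K f Rt z e e') {p : V} (hp : PrF f e p) : PrF f e' p := by
  obtain ⟨u, -, hu, h1, h2, h3, h4⟩ := h
  have hc := hcnt u hu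
  have a1 : u - e1 - e2 = u - e2 - e1 := by abel
  unfold vtF VT.cnt at hc
  simp only [wallF, Bool.false_eq_true, if_false, if_true] at hc
  rw [a1] at hc
  rcases G13_inc h1 with rfl | rfl | rfl | rfl <;> rcases G13_inc h2 with rfl | rfl | rfl | rfl <;>
    simp only [PrF, wallF, Bool.false_eq_true, if_false, if_true, a1] at h3 h4 hp ⊢ <;>
    (generalize f u = a at *
     generalize f (u - e1) = b at *
     generalize f (u - e2) = c at *
     generalize f (u - e2 - e1) = d at *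
     by_cases q1 : c = a <;> by_cases q2 : b = a <;> by_cases q3 : d = b <;>
      by_cases q4 : d = c <;> simp_all <;> tauto)

theorem G13_reach {K : ℤ} {f : V → V} {Rt : Set V} {z : V}
    (hcnt : ∀ w, w ∉ Rt → (vtF f w).cnt ≤ 2)
    {e e' : V × Bool} (h : ReachF K f Rt z e e') {p : V} (hp : PrF f e p) : PrF f e' p := by
  induction h with
  | refl => exact hp
  | tail _ hl ih => exact G13_link hcnt hl ih

theorem G13_e1 (i j : ℤ) : ((i, j) : V) + e1 = (i + 1, j) := by simp [e1]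

theorem G13_e2 (i j : ℤ) : ((i, j) : V) + e2 = (i, j + 1) := by simp [e2]

theorem G13_bd (S : Skew G C K1) {i j x : ℤ} (h : (S.Φ (i, j)).1 ≤ x)
    (h' : x < (S.Φ (i + 1, j)).1) :
    |x - (S.Φ (i, j)).1| ≤ K1 ∧ |S.H j x - (S.Φ (i, j)).2| ≤ K1 := by
  have hD := S.h1 (i, j)
  have hH := S.H_eq h h'
  have hb := hh_bd (D := S.D1 (i, j)) hD (x - (S.Φ (i, j)).1)
  have e : S.D1 (i, j) = S.Φ (i + 1, j) - S.Φ (i, j) := by
    unfold Skew.D1
    rw [G13_e1]
  have hhi := hD.hi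
  have hhi2 := hD.hi2
  have hlo := hD.lo
  have hA := G.hA1
  have hρ := G.hρ
  rw [G13_e1, ← e] at hhi hhi2 hlo
  have e' : (S.D1 (i, j)).1 = (S.Φ (i + 1, j)).1 - (S.Φ (i, j)).1 := by rw [e]; rfl
  rw [abs_le] at hhi2 ⊢
  rw [abs_le]
  refine ⟨⟨by omega, by omega⟩, ?_, ?_⟩
  · rw [hH]
    have : -K1 ≤ min 0 (S.D1 (i, j)).2 := by
      rw [le_min_iff]
      exact ⟨by omega, hhi2.1⟩
    linarith [hb.1]
  · rw [hH]
    have : max 0 (S.D1 (i, j)).2 ≤ K1 := by
      rw [max_le_iff]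
      exact ⟨by omega, hhi2.2⟩
    linarith [hb.2]

/-- bounds for `vH` -/
theorem G13_vbd (S : Skew G C K1) {i j : ℤ} {z : V} (h : (S.Φ (i, j)).1 < z.1)
    (h' : z.1 < (S.Φ (i + 1, j)).1) (hz : S.vH j z) :
    |z.1 - (S.Φ (i, j)).1| ≤ K1 ∧ |z.2 - (S.Φ (i, j)).2| ≤ K1 := by
  obtain ⟨a1, a2⟩ := G13_bd S (i := i) (j := j) (x := z.1) h.le h'
  obtain ⟨b1, b2⟩ := G13_bd S (i := i) (j := j) (x := z.1 - 1) (by omega) (by omega)
  refine ⟨a1, ?_⟩
  rw [abs_le] at a2 b2 ⊢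
  rcases hz with ⟨c1, c2⟩ | ⟨c1, c2⟩ <;> constructor <;> omega

/-- a vertical edge of a horizontal wall is not above a root -/
theorem G13_vne (S : Skew G C K1) {i j : ℤ} {z : V} (hz : S.vH j z)
    (h : (S.Φ (i, j)).1 = z.1) : False := by
  have hρ := G.hρ
  have h1 := S.H_root (i := i) (j := j) (x := z.1) (by omega) (by omega)
  have h2 := S.H_root (i := i) (j := j) (x := z.1 - 1) (by omega) (by omega)
  rcases hz with ⟨c1, c2⟩ | ⟨c1, c2⟩ <;> omega

theorem G13_K1 (S : Skew G C K1) : 0 ≤ K1 := by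
  have hD := S.h1 0
  have hA := G.hA1
  have hρ := G.hρ
  have h1 := hD.lo
  have h2 := hD.hi
  omega

theorem G13_hH (S : Skew G C K1) (hC : C.Good G) {ι : V → V}
    (hι : ∀ z k, ι z = k ↔ S.InCell z k) {j : ℤ} {z : V} (hz : S.hH j z) :
    ∃ i, Bd (2 * K1) (S.Φ (i, j) - z) ∧
      ReachF (2 * K1) ι (Set.range S.Φ) (S.Φ (i, j)) (S.Φ (i, j), false) (z, false) := by
  obtain ⟨i, h1, h2⟩ := S.exists_col j z.1
  have hK := G13_K1 S
  refine ⟨i, ?_, ?_⟩
  · obtain ⟨a1, a2⟩ := G13_bd S h1 h2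
    have hz' : S.H j z.1 = z.2 := hz
    rw [hz', abs_le] at a2
    rw [abs_le] at a1
    constructor
    · show |(S.Φ (i, j)).1 - z.1| ≤ 2 * K1
      rw [abs_le]
      constructor <;> omega
    · show |(S.Φ (i, j)).2 - z.2| ≤ 2 * K1
      rw [abs_le]
      constructor <;> omega
  · have h := (S.follow hC hι (i, j) h1 (by rw [G13_e1]; exact h2)).1
    have e : ((z.1, S.H j z.1) : V) = z := by
      have hz' : S.H j z.1 = z.2 := hz
      rw [hz']
    have h' : ReachF (2 * K1) ι (Set.range S.Φ) (S.Φ (i, j)) (S.Φ (i, j), false)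
      ((z.1, S.H j z.1), false) := h
    rwa [e] at h'

theorem G13_vH (S : Skew G C K1) (hC : C.Good G) {ι : V → V}
    (hι : ∀ z k, ι z = k ↔ S.InCell z k) {j : ℤ} {z : V} (hz : S.vH j z) :
    ∃ i, Bd (2 * K1) (S.Φ (i, j) - z) ∧
      ReachF (2 * K1) ι (Set.range S.Φ) (S.Φ (i, j)) (S.Φ (i, j), false) (z, true) := by
  obtain ⟨i, h1, h2⟩ := S.exists_col j z.1
  have hK := G13_K1 S
  have h1' : (S.Φ (i, j)).1 < z.1 := lt_of_le_of_ne h1 (fun h => G13_vne S hz h)
  refine ⟨i, ?_, ?_⟩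
  · obtain ⟨a1, a2⟩ := G13_vbd S h1' h2 hz
    rw [abs_le] at a1 a2
    constructor
    · show |(S.Φ (i, j)).1 - z.1| ≤ 2 * K1
      rw [abs_le]
      constructor <;> omega
    · show |(S.Φ (i, j)).2 - z.2| ≤ 2 * K1
      rw [abs_le]
      constructor <;> omega
  · exact (S.follow hC hι (i, j) h1 (by rw [G13_e1]; exact h2)).2 z.2 h1' hz

theorem G13_hHt (S : Skew G C K1) (hC : C.Good G) {ι : V → V}
    (hι : ∀ z k, ι z = k ↔ S.InCell z k) {i : ℤ} {z : V} (hz : S.tr.hH i z.swap) :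
    ∃ j, Bd (2 * K1) (S.Φ (i, j) - z) ∧
      ReachF (2 * K1) ι (Set.range S.Φ) (S.Φ (i, j)) (S.Φ (i, j), true) (z, true) := by
  obtain ⟨j, h1, h2⟩ := S.tr.exists_col i z.2
  have hK := G13_K1 S
  have h1' : (S.Φ (i, j)).2 ≤ z.2 := h1
  have h2' : z.2 < (S.Φ (i, j + 1)).2 := h2
  have hz' : S.tr.H i z.2 = z.1 := hz
  refine ⟨j, ?_, ?_⟩
  · obtain ⟨a1, a2⟩ := G13_bd S.tr h1 h2
    have a1' : |z.2 - (S.Φ (i, j)).2| ≤ K1 := a1
    have a2' : |S.tr.H i z.2 - (S.Φ (i, j)).1| ≤ K1 := a2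
    rw [hz', abs_le] at a2'
    rw [abs_le] at a1'
    constructor
    · show |(S.Φ (i, j)).1 - z.1| ≤ 2 * K1
      rw [abs_le]
      constructor <;> omega
    · show |(S.Φ (i, j)).2 - z.2| ≤ 2 * K1
      rw [abs_le]
      constructor <;> omega
  · have h := (S.follow_tr hC hι (i, j) h1' (by rw [G13_e2]; exact h2')).1
    have e : ((S.tr.H i z.2, z.2) : V) = z := by
      rw [hz']
    have h' : ReachF (2 * K1) ι (Set.range S.Φ) (S.Φ (i, j)) (S.Φ (i, j), true)
      ((S.tr.H i z.2, z.2), true) := h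
    rwa [e] at h'

theorem G13_vHt (S : Skew G C K1) (hC : C.Good G) {ι : V → V}
    (hι : ∀ z k, ι z = k ↔ S.InCell z k) {i : ℤ} {z : V} (hz : S.tr.vH i z.swap) :
    ∃ j, Bd (2 * K1) (S.Φ (i, j) - z) ∧
      ReachF (2 * K1) ι (Set.range S.Φ) (S.Φ (i, j)) (S.Φ (i, j), true) (z, false) := by
  obtain ⟨j, h1, h2⟩ := S.tr.exists_col i z.2
  have hK := G13_K1 S
  have h1' : (S.Φ (i, j)).2 ≤ z.2 := h1
  have h2' : z.2 < (S.Φ (i, j + 1)).2 := h2
  have h3 : (S.tr.Φ (j, i)).1 < z.swap.1 := lt_of_le_of_ne h1 (fun h => G13_vne S.tr hz h)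
  have h3' : (S.Φ (i, j)).2 < z.2 := h3
  refine ⟨j, ?_, ?_⟩
  · obtain ⟨a1, a2⟩ := G13_vbd S.tr h3 h2 hz
    have a1' : |z.2 - (S.Φ (i, j)).2| ≤ K1 := a1
    have a2' : |z.1 - (S.Φ (i, j)).1| ≤ K1 := a2
    rw [abs_le] at a1' a2'
    constructor
    · show |(S.Φ (i, j)).1 - z.1| ≤ 2 * K1
      rw [abs_le]
      constructor <;> omega
    · show |(S.Φ (i, j)).2 - z.2| ≤ 2 * K1
      rw [abs_le]
      constructor <;> omega
  · exact (S.follow_tr hC hι (i, j) h1' (by rw [G13_e2]; exact h2')).2 z.1 h3' hz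

theorem G13_fin (S : Skew G C K1) {ι : V → V} {z r : V} {e e' : V × Bool}
    (hb : Bd (2 * K1) (r - z)) (h : ReachF (2 * K1) ι (Set.range S.Φ) r e e') :
    Bd (4 * K1) (r - z) ∧ ReachF (4 * K1) ι (Set.range S.Φ) z e' e := by
  have hK := G13_K1 S
  refine ⟨⟨hb.1.trans (by omega), hb.2.trans (by omega)⟩, ?_⟩
  have := (h.center hb).symm
  have e : 2 * K1 + 2 * K1 = 4 * K1 := by ring
  rwa [e] at this

theorem Skew.exists_out (S : Skew G C K1) (hC : C.Good G) : ∃ ι, S.Out ι := by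
  obtain ⟨ι, hι⟩ := S.exists_index hC
  have hx : ∀ (i j : ℤ) (w : V), S.onH j w → S.tr.onH i w.swap → w = S.Φ (i, j) :=
    fun i j w h h' => S.cross hC h h'
  have hcnt : ∀ w, w ∉ Set.range S.Φ → (vtF ι w).cnt ≤ 2 := fun w hw => S.cnt_le hC hι hw
  have s1 : ∀ z k, ι z = k ↔
      patchQ G.ρ (S.D1 k) (S.D2 k) (S.D1 (k + e2)) (S.D2 (k + e1)) (z - S.Φ k) :=
    fun z k => (hι z k).trans (S.inCell_iff hC z k)
  have s2 : ∀ k, ι (S.Φ k) = k ∧ ι (S.Φ k - e1) = k - e1 ∧ ι (S.Φ k - e2) = k - e2 := by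
    intro k
    obtain ⟨a, b, c⟩ := S.cell_root hC k
    exact ⟨(hι _ _).mpr a, (hι _ _).mpr b, (hι _ _).mpr c⟩
  have hK := G13_K1 S
  have hρ := G.hρ
  have hA := G.hA1
  -- pairs at the roots
  have pf : ∀ k, PrF ι (S.Φ k, false) k ∧ PrF ι (S.Φ k, false) (k - e2) := by
    intro k
    exact ⟨Or.inl (s2 k).1, Or.inr (s2 k).2.2⟩
  have pt : ∀ k, PrF ι (S.Φ k, true) k ∧ PrF ι (S.Φ k, true) (k - e1) := by
    intro k
    exact ⟨Or.inl (s2 k).1, Or.inr (s2 k).2.1⟩
  refine ⟨ι, ⟨S.inj hC, s1, ?_, s2, ?_, hcnt, ?_, ?_, ?_⟩⟩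
  · intro z
    exact patch_bd S (ι z) ((s1 z (ι z)).mp rfl)
  · intro z
    constructor
    · have h := S.edge_v hC hx hι (z + e1)
      rw [add_sub_cancel_right] at h
      rcases h with h | h | h | h
      · exact Or.inl h.1
      · exact Or.inr (Or.inl h.1)
      · exact Or.inr (Or.inr (Or.inr (Or.inl h.1)))
      · exact Or.inr (Or.inr (Or.inr (Or.inr h.1)))
    · have h := S.edge_h hC hx hι (z + e2)
      rw [add_sub_cancel_right] at h
      rcases h with h | h | h | h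
      · exact Or.inl h.1
      · exact Or.inr (Or.inr (Or.inr (Or.inl h.1)))
      · exact Or.inr (Or.inl h.1)
      · exact Or.inr (Or.inr (Or.inl h.1))
  · intro k
    constructor
    · have hlo := (S.h1 k).lo
      have hlo' : G.A ≤ (S.Φ (k + e1)).1 - (S.Φ k).1 := hlo
      have h := (S.follow hC hι k (x := (S.Φ (k + e1)).1 - 1) (by omega) (by omega)).1
      have e : k + e1 = (k.1 + 1, k.2) := G13_e1 k.1 k.2
      have hr := S.H_root (i := k.1 + 1) (j := k.2) (x := (S.Φ (k + e1)).1 - 1)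
        (by rw [e]; omega) (by rw [e]; omega)
      rw [← e] at hr
      rw [hr] at h
      have e' : (((S.Φ (k + e1)).1 - 1, (S.Φ (k + e1)).2) : V) = S.Φ (k + e1) - e1 := by
        ext <;> simp [e1]
      rwa [e'] at h
    · have hlo := (S.h2 k).lo
      have hlo' : G.A ≤ (S.Φ (k + e2)).2 - (S.Φ k).2 := hlo
      have h := (S.follow_tr hC hι k (y := (S.Φ (k + e2)).2 - 1) (by omega) (by omega)).1
      have e : k + e2 = (k.1, k.2 + 1) := G13_e2 k.1 k.2
      have hr := S.tr.H_root (i := k.2 + 1) (j := k.1) (x := (S.Φ (k + e2)).2 - 1)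
        (by
          show (S.Φ (k.1, k.2 + 1)).2 - G.ρ ≤ _
          rw [e]; omega)
        (by
          show _ ≤ (S.Φ (k.1, k.2 + 1)).2 + G.ρ
          rw [e]; omega)
      have hr' : S.tr.H k.1 ((S.Φ (k + e2)).2 - 1) = (S.Φ (k.1, k.2 + 1)).1 := hr
      rw [← e] at hr'
      rw [hr'] at h
      have e' : (((S.Φ (k + e2)).1, (S.Φ (k + e2)).2 - 1) : V) = S.Φ (k + e2) - e2 := by
        ext <;> simp [e2]
      rwa [e'] at h
  · intro z o hw
    cases o with
    | false =>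
      have hw' : ι (z - e2) ≠ ι z := by simpa [wallF] using hw
      rcases S.edge_h hC hx hι z with h | h | h | h
      · exact absurd h.1.symm hw'
      · obtain ⟨i, hb, hr⟩ := G13_hH S hC hι h.2
        obtain ⟨hb', hr'⟩ := G13_fin S hb hr
        exact ⟨_, false, hb', hr', Or.inr ⟨rfl, G13_reach hcnt hr (pf _).1,
          G13_reach hcnt hr (pf _).2⟩⟩
      · obtain ⟨j, hb, hr⟩ := G13_vHt S hC hι h.2
        obtain ⟨hb', hr'⟩ := G13_fin S hb hr
        exact ⟨_, true, hb', hr', Or.inl ⟨rfl, G13_reach hcnt hr (pt _).1,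
          G13_reach hcnt hr (pt _).2⟩⟩
      · obtain ⟨j, hb, hr⟩ := G13_vHt S hC hι h.2
        obtain ⟨hb', hr'⟩ := G13_fin S hb hr
        exact ⟨_, true, hb', hr', Or.inl ⟨rfl, G13_reach hcnt hr (pt _).1,
          G13_reach hcnt hr (pt _).2⟩⟩
    | true =>
      have hw' : ι (z - e1) ≠ ι z := by simpa [wallF] using hw
      rcases S.edge_v hC hx hι z with h | h | h | h
      · exact absurd h.1.symm hw'
      · obtain ⟨j, hb, hr⟩ := G13_hHt S hC hι h.2
        obtain ⟨hb', hr'⟩ := G13_fin S hb hr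
        exact ⟨_, true, hb', hr', Or.inl ⟨rfl, G13_reach hcnt hr (pt _).1,
          G13_reach hcnt hr (pt _).2⟩⟩
      · obtain ⟨i, hb, hr⟩ := G13_vH S hC hι h.2
        obtain ⟨hb', hr'⟩ := G13_fin S hb hr
        exact ⟨_, false, hb', hr', Or.inr ⟨rfl, G13_reach hcnt hr (pf _).1,
          G13_reach hcnt hr (pf _).2⟩⟩
      · obtain ⟨i, hb, hr⟩ := G13_vH S hC hι h.2
        obtain ⟨hb', hr'⟩ := G13_fin S hb hr
        exact ⟨_, false, hb', hr', Or.inr ⟨rfl, G13_reach hcnt hr (pf _).1,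
          G13_reach hcnt hr (pf _).2⟩⟩
  · intro k x y hx1 hx2 hy1 hy2
    exact (hι _ _).mpr (S.cell_near hC k hx1 hx2 hy1 hy2)

end BU39
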