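import Pool.Agent.LibBU39.L02
import Pool.Agent.LibBU39.G13

/-! The canonical configuration of a frame (definitions). -/

namespace BU39

namespace Frame

variable {G : GeoC} {K1 : ℤ} {x y : ℝ} (F : Frame G K1 x y)

/-- The index of a cell. -/
noncomputable def ι (e : ℝ) : V → V := ((F.sk e).exists_out F.hC).choose

theorem out (e : ℝ) : (F.sk e).Out (F.ι e) := ((F.sk e).exists_out F.hC).choose_spec

/-- The raw labels if the cell `0` is the root of a block with phase `e`. -/
noncomputable def conf (e : ℝ) (z : V) : Raw where
  b1 := decide (1 ≤ Int.fract (F.δ * Int.fract e + ph x y z) + x)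
  b2 := decide (1 ≤ Int.fract (F.δ * Int.fract e + ph x y z) + y)
  g := F.gl e (F.ι e z)
  p := z - F.gΦ e (F.ι e z)

end Frame

end BU39
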