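import Pool.Agent.LibBU39.S03

/-!
COMPLETENESS, part 1: contents of the edges of a hierarchy of labellings given by phases.
A hierarchy consists of labellings of the circle (all levels) with the phase `bp` of the block
that contains a cell, and for each wall edge the root cell `gr` at the beginning of the edge of
the grid level to which it belongs.
-/

namespace BU39

open Topology Filter

/-- The circle. -/
abbrev T1 : Type := UnitAddCircle

/-- Rotation by `z`. -/
noncomputable def rt (α : T1 × T1) (z : V) (x : T1) : T1 := x + (z.1 • α.1 + z.2 • α.2)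

theorem rt_zero (α : T1 × T1) (x : T1) : rt α 0 x = x := by simp [rt]

theorem rt_rt (α : T1 × T1) (z w : V) (x : T1) : rt α z (rt α w x) = rt α (z + w) x := by
  simp only [rt, Prod.fst_add, Prod.snd_add, add_smul]
  abel

/-- The configuration of the phase `x`. -/
noncomputable def cfg (α : T1 × T1) (raw : T1 → Raw) (x : T1) : V → Raw := fun z => raw (rt α z x)

theorem cfg_zero (α : T1 × T1) (raw : T1 → Raw) (x : T1) : cfg α raw x 0 = raw x := by
  simp [cfg, rt_zero]

theorem cfg_rt (α : T1 × T1) (raw : T1 → Raw) (w : V) (x : T1) (z : V) :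
    cfg α raw (rt α w x) z = cfg α raw x (z + w) := by
  simp only [cfg, rt_rt]

/-- The direction of an edge. -/
def dv (o : Bool) : V := if o then e2 else e1

/-- The normal vector of an edge. -/
def nv (o : Bool) : V := if o then e1 else e2

/-- Does the line (row or column) after the edge start a block? -/
def sf (o : Bool) (g : Gl) : Bool := if o then g.a else g.b

/-- The flag of an interior edge. -/
def ff (o : Bool) (g : Gl) : Bool := if o then g.b else g.a

/-- Labellings of all levels by phases. -/
structure Hier (P : Par) where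
  α : ℕ → T1 × T1
  raw : ℕ → T1 → Raw
  bp : ℕ → T1 → T1
  gr : ℕ → T1 → Bool → T1 × Bool
  /-- the local rules -/
  lr : ∀ l x, LR P (cfg (α l) (raw l) x) 0
  /-- the two edges at a root -/
  gr0 : ∀ l x o, (raw l x).p = 0 → gr l x o = (x, o)
  /-- the edge to the left of a root -/
  grW : ∀ l x, (raw l x).p = 0 → gr l (rt (α l) (-e1) x) false =
    (rt (α l) (-(raw l (rt (α l) (-e1) x)).p) (rt (α l) (-e1) x), false)
  /-- the edge below a root -/
  grS : ∀ l x, (raw l x).p = 0 → gr l (rt (α l) (-e2) x) true =
    (rt (α l) (-(raw l (rt (α l) (-e2) x)).p) (rt (α l) (-e2) x), true)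
  /-- walls that meet at a vertex that is not a root belong to the same edge -/
  grv : ∀ l x, (raw l x).p ≠ 0 → ∀ e e' : V × Bool, inc e 0 → inc e' 0 →
    wall (cfg (α l) (raw l) x) e → wall (cfg (α l) (raw l) x) e' →
    gr l (rt (α l) e.1 x) e.2 = gr l (rt (α l) e'.1 x) e'.2
  /-- the root of the patch is in the same block -/
  bpr : ∀ l x, bp l (rt (α l) (-(raw l x).p) x) = bp l x
  /-- the cell to the left of a root -/
  bpW : ∀ l x, (raw l x).p = 0 → bp l (rt (α l) (-e1) x) =
    if (raw l x).g.a then rt (α (l + 1)) (-e1) (bp l x) else bp l x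
  /-- the cell below a root -/
  bpS : ∀ l x, (raw l x).p = 0 → bp l (rt (α l) (-e2) x) =
    if (raw l x).g.b then rt (α (l + 1)) (-e2) (bp l x) else bp l x
  /-- the label of the grid level fits to the label of the block -/
  tg : ∀ l x, TG (raw l x).g (win P.K (cfg (α (l + 1)) (raw (l + 1)) (bp l x)) 0)

namespace Hier

variable {P : Par} (H : Hier P)

/-- The configuration of a phase. -/
noncomputable def cf (l : ℕ) (x : T1) : V → Raw := cfg (H.α l) (H.raw l) x

/-- The window label of a phase. -/
noncomputable def wn (l : ℕ) (x : T1) : V → Raw := win P.K (H.cf l x) 0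

/-- The content of the edge `(0, o)` in the configuration of the phase `x`. -/
inductive Con : ℕ → T1 → Bool → Cont → Prop
  | intl {l : ℕ} {x : T1} {o : Bool} (h : ¬ wall (H.cf l x) (0, o)) :
      Con l x o (Cont.intL o (vt (H.cf l x) 0) (vt (H.cf l x) (dv o)) (H.raw l x).p)
  | intg {l : ℕ} {x : T1} {o : Bool} {r : T1} {o' : Bool} (h : wall (H.cf l x) (0, o))
      (hg : H.gr l x o = (r, o')) (hi : sf o' (H.raw l r).g = false) :
      Con l x o (Cont.intG o' (H.wn (l + 1) (H.bp l r)) (ff o' (H.raw l r).g))
  | up {l : ℕ} {x : T1} {o : Bool} {r : T1} {o' : Bool} {c : Cont} (h : wall (H.cf l x) (0, o))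
      (hg : H.gr l x o = (r, o')) (hi : sf o' (H.raw l r).g = true)
      (hc : Con (l + 1) (H.bp l r) o' c) : Con l x o c

/-- Content of an edge of a grid level. -/
def ConG (l : ℕ) (r : T1) (o : Bool) (c : Cont) : Prop :=
  (sf o (H.raw l r).g = false ∧
    c = Cont.intG o (H.wn (l + 1) (H.bp l r)) (ff o (H.raw l r).g)) ∨
  (sf o (H.raw l r).g = true ∧ H.Con (l + 1) (H.bp l r) o c)

variable {H} {l : ℕ} {x : T1} {o : Bool} {c c' : Cont}

theorem Con.of_wall (hc : H.Con l x o c) (h : wall (H.cf l x) (0, o)) :
    H.ConG l (H.gr l x o).1 (H.gr l x o).2 c := by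
  cases hc with
  | intl h' => exact absurd h h'
  | intg h' hg hi => rw [hg]; exact Or.inl ⟨hi, rfl⟩
  | up h' hg hi hc => rw [hg]; exact Or.inr ⟨hi, hc⟩

theorem Con.of_not_wall (hc : H.Con l x o c) (h : ¬ wall (H.cf l x) (0, o)) :
    c = Cont.intL o (vt (H.cf l x) 0) (vt (H.cf l x) (dv o)) (H.raw l x).p := by
  cases hc with
  | intl h' => rfl
  | intg h' hg hi => exact absurd h' h
  | up h' hg hi hc => exact absurd h' h

/-- Contents are unique. -/
theorem Con.uniq (h : H.Con l x o c) : ∀ {c'}, H.Con l x o c' → c = c' := by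
  induction h with
  | intl h =>
    intro c' h'
    exact (h'.of_not_wall h).symm
  | intg h hg hi =>
    intro c' h'
    have := h'.of_wall h
    rw [hg] at this
    rcases this with ⟨-, h2⟩ | ⟨h1, -⟩
    · exact h2.symm
    · simp only at h1
      rw [hi] at h1
      cases h1
  | up h hg hi hc ih =>
    intro c' h'
    have := h'.of_wall h
    rw [hg] at this
    rcases this with ⟨h1, -⟩ | ⟨-, h2⟩
    · simp only at h1
      rw [hi] at h1
      cases h1
    · exact ih h2

theorem ConG.uniq {r : T1} (h : H.ConG l r o c) (h' : H.ConG l r o c') : c = c' := by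
  rcases h with ⟨h1, rfl⟩ | ⟨h1, h2⟩
  · rcases h' with ⟨-, h4⟩ | ⟨h3, -⟩
    · exact h4.symm
    · rw [h1] at h3; cases h3
  · rcases h' with ⟨h3, -⟩ | ⟨-, h4⟩
    · rw [h1] at h3; cases h3
    · exact h2.uniq h4

end Hier

end BU39
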