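import Pool.Agent.LibBU39.Conts

/-!
COMPLETENESS, part 2: the rules of the canonical labelling.
-/

namespace BU39

namespace Hier

variable {P : Par} {H : Hier P} {l : ℕ} {x : T1} {o : Bool} {c c' : Cont}

theorem cf_zero (l : ℕ) (x : T1) : H.cf l x 0 = H.raw l x := cfg_zero _ _ _

theorem cf_rt (l : ℕ) (w : V) (x : T1) (z : V) :
    H.cf l (rt (H.α l) w x) z = H.cf l x (z + w) := cfg_rt _ _ _ _ _

theorem cf_def (l : ℕ) (x : T1) (z : V) : H.cf l x z = H.raw l (rt (H.α l) z x) := rfl

theorem root_rt (l : ℕ) (w : V) (x : T1) (z : V) :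
    root (H.cf l (rt (H.α l) w x)) z = root (H.cf l x) (z + w) - w := by
  unfold root
  rw [cf_rt]
  abel

theorem wall_rt (l : ℕ) (w : V) (x : T1) (e : V × Bool) :
    wall (H.cf l (rt (H.α l) w x)) e ↔ wall (H.cf l x) (e.1 + w, e.2) := by
  unfold wall
  rw [root_rt, root_rt]
  have h : e.1 - (if e.2 = true then e1 else e2) + w = e.1 + w - (if e.2 = true then e1 else e2) := by
    abel
  rw [h, Ne, Ne, sub_left_inj]

theorem vt_rt (l : ℕ) (w : V) (x : T1) (z : V) :
    vt (H.cf l (rt (H.α l) w x)) z = vt (H.cf l x) (z + w) := by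
  unfold vt
  have h1 : z - e1 + w = z + w - e1 := by abel
  have h2 : z - e2 + w = z + w - e2 := by abel
  simp only [wall_rt, h1, h2]

theorem lrz (H : Hier P) (l : ℕ) (x : T1) (z : V) : LR P (H.cf l x) z := by
  refine LR.congr ?_ (H.lr l (rt (H.α l) z x))
  intro w _
  change H.cf l (rt (H.α l) z x) (0 + w) = H.cf l x (z + w)
  rw [cf_rt, zero_add, add_comm]

theorem long_ne {v : V} (h : Long v) : v ≠ 0 := by
  rintro rfl
  rcases h with h | h <;> simp at h

/-- The root of a root. -/
theorem root_of {ξ : V → Raw} {z : V} (h : (ξ z).p = 0) : root ξ z = z := by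
  unfold root
  rw [h, sub_zero]

theorem wall_E {z : V} (h : (H.cf l x z).p = 0) : wall (H.cf l x) (z, false) := by
  have h1 := (H.lrz l x z).up h
  intro h2
  simp only [Bool.false_eq_true, if_false] at h2
  rw [root_of h] at h2
  have h3 := h1.2.2.2
  rw [h2] at h3
  exact long_ne (H.lrz l x (z - e2)).ok.Ll (by simpa using h3)

theorem wall_N {z : V} (h : (H.cf l x z).p = 0) : wall (H.cf l x) (z, true) := by
  have h1 := (H.lrz l x z).rt h
  intro h2
  simp only [if_true] at h2
  rw [root_of h] at h2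
  have h3 := h1.2.2.2
  rw [h2] at h3
  exact long_ne (H.lrz l x (z - e1)).ok.Bl (by simpa using h3)

theorem reach_wall {K : ℤ} {ξ : V → Raw} {z : V} {e e' : V × Bool} (h : Reach K ξ z e e')
    (hne : e ≠ e') : wall ξ e' := by
  rcases Relation.ReflTransGen.cases_tail h with h | ⟨f, -, h⟩
  · exact absurd h.symm hne
  · obtain ⟨u, -, -, -, -, -, h⟩ := h
    exact h

theorem wall_W {z : V} (h : (H.cf l x z).p = 0) : wall (H.cf l x) (z - e1, false) := by
  have h1 := (H.lrz l x z).rt h
  have h2 := h1.2.2.2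
  have hp : (H.cf l x (root (H.cf l x) (z - e1))).p = 0 := (H.lrz l x (z - e1)).p0
  have hg := (H.lrz l x (z - e1)).pg
  have h3 := (H.lrz l x _).pH hp
  rw [hg, h2] at h3
  refine reach_wall h3 ?_
  intro h4
  have h5 : root (H.cf l x) (z - e1) = z - e1 := congrArg Prod.fst h4
  have h6 : (H.cf l x (z - e1)).g.B = e1 := by
    have := h2
    rw [h5] at this
    exact add_left_cancel (this.trans (sub_add_cancel z e1).symm)
  have h8 := (H.lrz l x (z - e1)).ok.Bl
  rw [h6] at h8
  rcases h8 with h8 | h8 <;> simp [e1] at h8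

theorem wall_S {z : V} (h : (H.cf l x z).p = 0) : wall (H.cf l x) (z - e2, true) := by
  have h1 := (H.lrz l x z).up h
  have h2 := h1.2.2.2
  have hp : (H.cf l x (root (H.cf l x) (z - e2))).p = 0 := (H.lrz l x (z - e2)).p0
  have hg := (H.lrz l x (z - e2)).pg
  have h3 := (H.lrz l x _).pV hp
  rw [hg, h2] at h3
  refine reach_wall h3 ?_
  intro h4
  have h5 : root (H.cf l x) (z - e2) = z - e2 := congrArg Prod.fst h4
  have h6 : (H.cf l x (z - e2)).g.L = e2 := by
    have := h2
    rw [h5] at this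
    exact add_left_cancel (this.trans (sub_add_cancel z e2).symm)
  have h8 := (H.lrz l x (z - e2)).ok.Ll
  rw [h6] at h8
  rcases h8 with h8 | h8 <;> simp [e2] at h8

/-- The label of the cell to the left of a root. -/
theorem rg_W {z : V} (h : (H.cf l x z).p = 0) :
    RG (H.cf l x (z - e1)).g (H.cf l x z).g := by
  have h1 := ((H.lrz l x z).rt h).2.2.2
  have hp : (H.cf l x (root (H.cf l x) (z - e1))).p = 0 := (H.lrz l x (z - e1)).p0
  have h2 := ((H.lrz l x _).rt hp).2.1
  rwa [(H.lrz l x (z - e1)).pg, h1] at h2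

theorem ug_S {z : V} (h : (H.cf l x z).p = 0) :
    UG (H.cf l x (z - e2)).g (H.cf l x z).g := by
  have h1 := ((H.lrz l x z).up h).2.2.2
  have hp : (H.cf l x (root (H.cf l x) (z - e2))).p = 0 := (H.lrz l x (z - e2)).p0
  have h2 := ((H.lrz l x _).up hp).2.1
  rwa [(H.lrz l x (z - e2)).pg, h1] at h2

theorem cf_rt0 (l : ℕ) (w : V) (x : T1) : H.raw l (rt (H.α l) w x) = H.cf l x w := rfl

theorem Con.eh (h : H.Con l x false c) : EH (H.cf l x) 0 c := by
  constructor
  · intro h1
    have h2 : ¬ wall (H.cf l x) (0, false) := by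
      intro h3
      exact h3 h1
    rw [h.of_not_wall h2]
    simp only [dv, Bool.false_eq_true, if_false, zero_add, cf_zero]
  · intro h1
    have hw : wall (H.cf l x) (0, false) := wall_E h1
    refine ⟨ug_S h1, ?_⟩
    intro hb
    rw [cf_zero] at h1
    have h3 := h.of_wall hw
    rw [H.gr0 l x false h1] at h3
    rcases h3 with ⟨h4, h5⟩ | ⟨h4, -⟩
    · refine ⟨H.wn (l + 1) (H.bp l x), ?_, ?_, ?_⟩
      · rw [h5]; simp only [ff, Bool.false_eq_true, if_false, cf_zero]
      · have h6 := H.tg l (rt (H.α l) (-e2) x)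
        rw [H.bpS l x h1] at h6
        rw [cf_zero] at hb
        rw [hb] at h6
        simp only [Bool.false_eq_true, if_false] at h6
        rw [cf_def, zero_sub]
        exact h6
      · rw [cf_zero]; exact H.tg l x
    · simp only [sf, Bool.false_eq_true, if_false] at h4
      rw [cf_zero] at hb
      rw [hb] at h4
      cases h4

theorem Con.ev (h : H.Con l x true c) : EV (H.cf l x) 0 c := by
  constructor
  · intro h1
    have h2 : ¬ wall (H.cf l x) (0, true) := by
      intro h3
      exact h3 h1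
    rw [h.of_not_wall h2]
    simp only [dv, if_true, zero_add, cf_zero]
  · intro h1
    have hw : wall (H.cf l x) (0, true) := wall_N h1
    refine ⟨rg_W h1, ?_⟩
    intro hb
    rw [cf_zero] at h1
    have h3 := h.of_wall hw
    rw [H.gr0 l x true h1] at h3
    rcases h3 with ⟨h4, h5⟩ | ⟨h4, -⟩
    · refine ⟨H.wn (l + 1) (H.bp l x), ?_, ?_, ?_⟩
      · rw [h5]; simp only [ff, if_true, cf_zero]
      · have h6 := H.tg l (rt (H.α l) (-e1) x)
        rw [H.bpW l x h1] at h6
        rw [cf_zero] at hb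
        rw [hb] at h6
        simp only [Bool.false_eq_true, if_false] at h6
        rw [cf_def, zero_sub]
        exact h6
      · rw [cf_zero]; exact H.tg l x
    · simp only [sf, if_true] at h4
      rw [cf_zero] at hb
      rw [hb] at h4
      cases h4

end Hier

end BU39
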