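import Pool.Agent.LibBU39.Conts2

/-!
COMPLETENESS, part 3: the rule at the vertices, and the system of a phase.
-/

namespace BU39

namespace Hier

variable {P : Par} {H : Hier P} {l : ℕ} {x : T1} {o : Bool} {c c' : Cont}

theorem wn_congr (l : ℕ) (x : T1) (w : V) (z : V) (hz : |z.1| ≤ P.K + 3 ∧ |z.2| ≤ P.K + 3) :
    H.wn l (rt (H.α l) w x) z = H.cf l x (z + w) := by
  unfold wn win
  rw [if_pos hz, zero_add, cf_rt]

theorem wn_apply (l : ℕ) (x : T1) (z : V) (hz : |z.1| ≤ P.K + 3 ∧ |z.2| ≤ P.K + 3) :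
    H.wn l x z = H.cf l x z := by
  unfold wn win
  rw [if_pos hz, zero_add]

theorem Bd_le {K K' : ℤ} (h : K ≤ K') {v : V} (hv : Bd K v) : Bd K' v :=
  ⟨hv.1.trans h, hv.2.trans h⟩

theorem K_nonneg (H : Hier P) : 0 ≤ P.K := (abs_nonneg _).trans (H.lr 0 0).bd.1

theorem lr_wn (H : Hier P) (l : ℕ) (x : T1) : LR P (H.wn l x) 0 := by
  refine LR.congr ?_ (H.lrz l x 0)
  intro w hw
  rw [zero_add, wn_apply l x w hw]

theorem eh_wn (h : EH (H.cf l x) 0 c) : EH (H.wn l x) 0 c := by
  refine EH_congr ?_ h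
  intro w hw
  have hK := H.K_nonneg
  rw [zero_add, wn_apply l x w (Bd_le (by linarith) hw)]

theorem ev_wn (h : EV (H.cf l x) 0 c) : EV (H.wn l x) 0 c := by
  refine EV_congr ?_ h
  intro w hw
  have hK := H.K_nonneg
  rw [zero_add, wn_apply l x w (Bd_le (by linarith) hw)]

theorem Con.relN (h : H.Con l x false c) :
    RelN P (H.wn l (rt (H.α l) (-e2) x)) (H.wn l x) c := by
  refine ⟨H.lr_wn _ _, H.lr_wn _ _, ?_, eh_wn h.eh⟩
  intro w hw hw'
  rw [wn_apply l x w hw, wn_congr l x (-e2) (w + e2) hw', add_neg_cancel_right]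

theorem Con.relE (h : H.Con l x true c) :
    RelE P (H.wn l (rt (H.α l) (-e1) x)) (H.wn l x) c := by
  refine ⟨H.lr_wn _ _, H.lr_wn _ _, ?_, ev_wn h.ev⟩
  intro w hw hw'
  rw [wn_apply l x w hw, wn_congr l x (-e1) (w + e1) hw', add_neg_cancel_right]

theorem wall_W0 (h : (H.raw l x).p = 0) : wall (H.cf l (rt (H.α l) (-e1) x)) (0, false) := by
  rw [wall_rt]
  have := wall_W (H := H) (l := l) (x := x) (z := 0) (by rw [cf_zero]; exact h)
  simpa using this

theorem wall_S0 (h : (H.raw l x).p = 0) : wall (H.cf l (rt (H.α l) (-e2) x)) (0, true) := by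
  rw [wall_rt]
  have := wall_S (H := H) (l := l) (x := x) (z := 0) (by rw [cf_zero]; exact h)
  simpa using this

/-- The rule at a vertex that is not a root. -/
theorem va (hp : (H.raw l x).p ≠ 0) {cE cN cW cS : Cont} (hE : H.Con l x false cE)
    (hN : H.Con l x true cN) (hW : H.Con l (rt (H.α l) (-e1) x) false cW)
    (hS : H.Con l (rt (H.α l) (-e2) x) true cS) :
    VA (vt (H.cf l x) 0) cE cN cW cS := by
  have hp' : (H.cf l x 0).p ≠ 0 := by rw [cf_zero]; exact hp
  have iE : inc ((0, false) : V × Bool) 0 := Or.inl rfl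
  have iN : inc ((0, true) : V × Bool) 0 := Or.inl rfl
  have iW : inc ((-e1, false) : V × Bool) 0 := Or.inr (by simp)
  have iS : inc ((-e2, true) : V × Bool) 0 := Or.inr (by simp)
  have tE : (vt (H.cf l x) 0).E = decide (wall (H.cf l x) (0, false)) := rfl
  have tN : (vt (H.cf l x) 0).N = decide (wall (H.cf l x) (0, true)) := rfl
  have tW : (vt (H.cf l x) 0).W = decide (wall (H.cf l x) (-e1, false)) := by
    simp only [vt, zero_sub]
  have tS : (vt (H.cf l x) 0).S = decide (wall (H.cf l x) (-e2, true)) := by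
    simp only [vt, zero_sub]
  have wW : wall (H.cf l (rt (H.α l) (-e1) x)) (0, false) ↔ wall (H.cf l x) (-e1, false) := by
    rw [wall_rt, zero_add]
  have wS : wall (H.cf l (rt (H.α l) (-e2) x)) (0, true) ↔ wall (H.cf l x) (-e2, true) := by
    rw [wall_rt, zero_add]
  have eE : wall (H.cf l x) (0, false) → H.ConG l (H.gr l (rt (H.α l) 0 x) false).1
      (H.gr l (rt (H.α l) 0 x) false).2 cE := by
    intro h; rw [rt_zero]; exact hE.of_wall h
  have eN : wall (H.cf l x) (0, true) → H.ConG l (H.gr l (rt (H.α l) 0 x) true).1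
      (H.gr l (rt (H.α l) 0 x) true).2 cN := by
    intro h; rw [rt_zero]; exact hN.of_wall h
  have eW : wall (H.cf l x) (-e1, false) → H.ConG l (H.gr l (rt (H.α l) (-e1) x) false).1
      (H.gr l (rt (H.α l) (-e1) x) false).2 cW := by
    intro h; exact hW.of_wall (wW.2 h)
  have eS : wall (H.cf l x) (-e2, true) → H.ConG l (H.gr l (rt (H.α l) (-e2) x) true).1
      (H.gr l (rt (H.α l) (-e2) x) true).2 cS := by
    intro h; exact hS.of_wall (wS.2 h)
  have key : ∀ {e e' : V × Bool} {c c' : Cont}, inc e 0 → inc e' 0 → wall (H.cf l x) e →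
      wall (H.cf l x) e' →
      H.ConG l (H.gr l (rt (H.α l) e.1 x) e.2).1 (H.gr l (rt (H.α l) e.1 x) e.2).2 c →
      H.ConG l (H.gr l (rt (H.α l) e'.1 x) e'.2).1 (H.gr l (rt (H.α l) e'.1 x) e'.2).2 c' →
      c = c' := by
    intro e e' c c' h1 h2 h3 h4 h5 h6
    rw [H.grv l x hp e e' h1 h2 h3 h4] at h5
    exact h5.uniq h6
  refine ⟨(H.lrz l x 0).vx hp', ?_, ?_, ?_, ?_, ?_, ?_, ?_, ?_, ?_, ?_⟩
  · intro h
    rw [tE, decide_eq_false_iff_not] at h
    exact ⟨_, _, hE.of_not_wall h⟩
  · intro h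
    rw [tN, decide_eq_false_iff_not] at h
    exact ⟨_, _, hN.of_not_wall h⟩
  · intro h
    rw [tW, decide_eq_false_iff_not] at h
    have h1 := hW.of_not_wall (fun h' => h (wW.1 h'))
    rw [vt_rt, vt_rt] at h1
    have h2 : dv false + -e1 = 0 := by simp [dv]
    rw [h2] at h1
    exact ⟨_, _, h1⟩
  · intro h
    rw [tS, decide_eq_false_iff_not] at h
    have h1 := hS.of_not_wall (fun h' => h (wS.1 h'))
    rw [vt_rt, vt_rt] at h1
    have h2 : dv true + -e2 = 0 := by simp [dv]
    rw [h2] at h1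
    exact ⟨_, _, h1⟩
  · intro h1 h2
    rw [tE, decide_eq_true_iff] at h1
    rw [tN, decide_eq_true_iff] at h2
    exact key iE iN h1 h2 (eE h1) (eN h2)
  · intro h1 h2
    rw [tE, decide_eq_true_iff] at h1
    rw [tW, decide_eq_true_iff] at h2
    exact key iE iW h1 h2 (eE h1) (eW h2)
  · intro h1 h2
    rw [tE, decide_eq_true_iff] at h1
    rw [tS, decide_eq_true_iff] at h2
    exact key iE iS h1 h2 (eE h1) (eS h2)
  · intro h1 h2
    rw [tN, decide_eq_true_iff] at h1
    rw [tW, decide_eq_true_iff] at h2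
    exact key iN iW h1 h2 (eN h1) (eW h2)
  · intro h1 h2
    rw [tN, decide_eq_true_iff] at h1
    rw [tS, decide_eq_true_iff] at h2
    exact key iN iS h1 h2 (eN h1) (eS h2)
  · intro h1 h2
    rw [tW, decide_eq_true_iff] at h1
    rw [tS, decide_eq_true_iff] at h2
    exact key iW iS h1 h2 (eW h1) (eS h2)

/-- The rule at the vertices. -/
theorem Con.vr (hE : H.Con l x o c) : o = false → ∀ {cN cW cS : Cont},
    H.Con l x true cN → H.Con l (rt (H.α l) (-e1) x) false cW →
    H.Con l (rt (H.α l) (-e2) x) true cS → VR P c cN cW cS := by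
  -- the contents at a root
  have rootcase : ∀ (l : ℕ) (x : T1) (cE cN cW cS : Cont), (H.raw l x).p = 0 →
      H.Con l x false cE → H.Con l x true cN → H.Con l (rt (H.α l) (-e1) x) false cW →
      H.Con l (rt (H.α l) (-e2) x) true cS →
      (((H.raw l x).g.a = true → (H.raw l x).g.b = true →
        H.Con (l + 1) (H.bp l x) true cN →
        H.Con (l + 1) (rt (H.α (l + 1)) (-e1) (H.bp l x)) false cW →
        H.Con (l + 1) (rt (H.α (l + 1)) (-e2) (H.bp l x)) true cS → VR P cE cN cW cS) →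
      VR P cE cN cW cS) := by
    intro l x cE cN cW cS hp hE hN hW hS hrec
    have hp' : (H.cf l x 0).p = 0 := by rw [cf_zero]; exact hp
    have gE := hE.of_wall (wall_E hp')
    have gN := hN.of_wall (wall_N hp')
    have gW := hW.of_wall (wall_W0 hp)
    have gS := hS.of_wall (wall_S0 hp)
    rw [H.gr0 l x false hp] at gE
    rw [H.gr0 l x true hp] at gN
    rw [H.grW l x hp] at gW
    rw [H.grS l x hp] at gS
    have rg := rg_W hp'
    have ug := ug_S hp'
    rw [zero_sub, cf_zero] at rg ug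
    have pgW : (H.raw l (rt (H.α l) (-(H.raw l (rt (H.α l) (-e1) x)).p)
        (rt (H.α l) (-e1) x))).g = (H.cf l x (-e1)).g := by
      have := (H.lrz l (rt (H.α l) (-e1) x) 0).pg
      unfold root at this
      rw [cf_zero, zero_sub] at this
      exact this
    have pgS : (H.raw l (rt (H.α l) (-(H.raw l (rt (H.α l) (-e2) x)).p)
        (rt (H.α l) (-e2) x))).g = (H.cf l x (-e2)).g := by
      have := (H.lrz l (rt (H.α l) (-e2) x) 0).pg
      unfold root at this
      rw [cf_zero, zero_sub] at this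
      exact this
    simp only [ConG] at gE gN gW gS
    rw [pgW, H.bpr, H.bpW l x hp] at gW
    rw [pgS, H.bpr, H.bpS l x hp] at gS
    simp only [sf, ff, Bool.false_eq_true, if_false, if_true] at gE gN gW gS
    rw [rg.2.2.1] at gW
    rw [ug.2.2.1] at gS
    rcases ha : (H.raw l x).g.a with _ | _
    · rcases hb : (H.raw l x).g.b with _ | _
      · -- interior
        simp only [ha, hb, Bool.false_eq_true, if_false, true_and, false_and, or_false] at gE gN gW gS
        exact Or.inr (Or.inl ⟨H.wn (l + 1) (H.bp l x), (H.cf l x (-e1)).g.a,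
          (H.cf l x (-e2)).g.b, gE, gN, gW, gS⟩)
      · -- horizontal side
        simp only [ha, hb, Bool.true_eq_false, Bool.false_eq_true, if_false, if_true, true_and, false_and,
          or_false, false_or] at gE gN gW gS
        have hb' : (H.cf l x (-e2)).g.b = false := by
          rcases h : (H.cf l x (-e2)).g.b with _ | _
          · rfl
          · have := ug.2.2.2.2 h
            rw [hb] at this
            exact this
        rw [hb'] at gS
        refine Or.inr (Or.inr (Or.inl ⟨H.wn (l + 1) (rt (H.α (l + 1)) (-e2) (H.bp l x)),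
          H.wn (l + 1) (H.bp l x), gN, gS, gE.uniq gW, gE.relN⟩))
    · rcases hb : (H.raw l x).g.b with _ | _
      · -- vertical side
        simp only [ha, hb, Bool.true_eq_false, Bool.false_eq_true, if_false, if_true, true_and, false_and,
          or_false, false_or] at gE gN gW gS
        have ha' : (H.cf l x (-e1)).g.a = false := by
          rcases h : (H.cf l x (-e1)).g.a with _ | _
          · rfl
          · have := rg.2.2.2.2 h
            rw [ha] at this
            exact this
        rw [ha'] at gW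
        refine Or.inr (Or.inr (Or.inr ⟨H.wn (l + 1) (rt (H.α (l + 1)) (-e1) (H.bp l x)),
          H.wn (l + 1) (H.bp l x), gE, gW, gN.uniq gS, gN.relE⟩))
      · simp only [ha, hb, Bool.true_eq_false, Bool.false_eq_true, if_false, if_true, true_and, false_and,
          or_false, false_or] at gE gN gW gS
        exact hrec ha hb gN gW gS
  induction hE with
  | @intl l x o h =>
    rintro rfl cN cW cS hN hW hS
    by_cases hp : (H.raw l x).p = 0
    · exact absurd (wall_E (by rw [cf_zero]; exact hp)) h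
    · exact Or.inl ⟨_, va hp (Con.intl h) hN hW hS⟩
  | @intg l x o r o' h hg hi =>
    rintro rfl cN cW cS hN hW hS
    by_cases hp : (H.raw l x).p = 0
    · refine rootcase l x _ cN cW cS hp (Con.intg h hg hi) hN hW hS ?_
      intro ha hb
      rw [H.gr0 l x false hp] at hg
      cases hg
      simp only [sf, Bool.false_eq_true, if_false] at hi
      rw [hb] at hi
      cases hi
    · exact Or.inl ⟨_, va hp (Con.intg h hg hi) hN hW hS⟩
  | @up l x o r o' c h hg hi hc ih =>
    rintro rfl cN cW cS hN hW hS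
    by_cases hp : (H.raw l x).p = 0
    · refine rootcase l x _ cN cW cS hp (Con.up h hg hi hc) hN hW hS ?_
      intro ha hb qN qW qS
      rw [H.gr0 l x false hp] at hg
      cases hg
      exact ih rfl qN qW qS
    · exact Or.inl ⟨_, va hp (Con.up h hg hi hc) hN hW hS⟩

/-- Bounds of the labels. -/
theorem raw_bd (H : Hier P) (l : ℕ) (x : T1) : RawBd P.K (H.raw l x) := by
  have h := H.lrz l x 0
  have h1 := h.ok
  have h2 := h.bd
  rw [cf_zero] at h1 h2
  exact ⟨h1.sb, h1.Pb, h1.Qb, h2⟩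

theorem wn_bd (H : Hier P) (l : ℕ) (x : T1) : LabBd P.K (H.wn l x) := by
  have hK := H.K_nonneg
  intro w
  unfold wn win
  by_cases h : |w.1| ≤ P.K + 3 ∧ |w.2| ≤ P.K + 3
  · rw [if_pos h]
    refine ⟨?_, fun h' => absurd h h'⟩
    exact H.raw_bd l _
  · rw [if_neg h]
    refine ⟨?_, fun _ => rfl⟩
    have h0 : Bd P.K (0 : V) := by simp [Bd, hK]
    exact ⟨h0, h0, h0, h0⟩

theorem Con.bd (h : H.Con l x o c) : ContBd P.K c := by
  induction h with
  | @intl l x o h => exact (H.raw_bd l x).2.2.2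
  | @intg l x o r o' h hg hi => exact H.wn_bd _ _
  | up h hg hi hc ih => exact ih

/-- All contents in the orbit of `x` are defined. -/
def Full (H : Hier P) (l : ℕ) (x : T1) : Prop :=
  ∀ z o, ∃ c, H.Con l (rt (H.α l) z x) o c

/-- The canonical label of a phase. -/
def Lab (H : Hier P) (x : T1) (c : Cell) : Prop :=
  c.1 = H.wn 0 x ∧ H.Con 0 x false c.2.1 ∧ H.Con 0 x true c.2.2

theorem Lab.uniq {c c' : Cell} (h : H.Lab x c) (h' : H.Lab x c') : c = c' :=
  Prod.ext (h.1.trans h'.1.symm) (Prod.ext (h.2.1.uniq h'.2.1) (h.2.2.uniq h'.2.2))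

theorem Lab.bd {c : Cell} (h : H.Lab x c) : CellBd P.K c := by
  refine ⟨?_, h.2.1.bd, h.2.2.bd⟩
  rw [h.1]
  exact H.wn_bd _ _

theorem Lab.rule {c cW cS : Cell} (h : H.Lab x c) (hW : H.Lab (rt (H.α 0) (-e1) x) cW)
    (hS : H.Lab (rt (H.α 0) (-e2) x) cS) : Rule P c cW cS := by
  refine ⟨?_, ?_, h.2.1.vr rfl h.2.2 hW.2.1 hS.2.2⟩
  · rw [hS.1, h.1]
    exact h.2.1.relN
  · rw [hW.1, h.1]
    exact h.2.2.relE

end Hier

end BU39
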