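import Pool.Agent.LibBU39.Dyn
import Pool.Agent.LibRotU.Shift

/-!
MODULE CRIT (helper6's criterion).

If a local problem is in `BAIRE(ℤ^n)`, then it has a constant configuration or two labels
that are independent along `D ℤ^n`.

Proof.  Test action: `X` = the set of the `x : (Fin n → ℤ) → Bool` that are not fixed by any
shift `g ≠ 0`, with `(g x) h = x (h + g)`; `X` is a dense Gδ subset of a compact metrizable
space, hence Polish (a countable intersection of open sets `U k` is homeomorphic to the closed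
diagonal of `∏ k, U k`, and open subsets of Polish spaces are Polish), the action is
continuous and free.  Let `f` be a Baire-measurable labelling.  For each label `l` the set
`f ⁻¹' {l}` agrees with an open set `U l` on a residual set `G`.  The union of the `U l` is
dense.  If only one `U l` is non-empty it is residual-dense; take `x` in the intersection of
the residual sets `{x | f (z x) = l}` (`z ∈ ℤ^n`), this gives the constant configuration.  If
`U l1`, `U l2` are non-empty, `l1 ≠ l2`, they contain cylinders (prescribed values on a box of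
radius `r`); take `D = 2 r + 1`; for finite `A` and `σ : A → {l1, l2}` the set of the `x ∈ X`
with `D z x` in the cylinder of `σ z` for all `z ∈ A` is open and non-empty (`X` is dense in
the full shift), so it contains a point `x` with `f (D z x) = σ z` for all `z ∈ A`.
Put `F z = f (z x)`.
-/

namespace BU39

/-- `F` obeys the local problem `P` everywhere on `ℤ^n`. -/
def Obeys {n : ℕ} (P : LCL n) (F : (Fin n → ℤ) → P.Lbl) : Prop :=
  ∀ z, (fun w : P.W => F (w.1 + z)) ∈ P.A

open Pool.Agent.LibRotU in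
/-- Every finite pattern occurs in the free part of the shift. -/
theorem FP_dense {n : ℕ} (hn : 0 < n) (S : Finset (Fin n → ℤ)) (u : (Fin n → ℤ) → Bool) :
    ∃ y : FP n, ∀ h ∈ S, y.1 h = u h := by
  classical
  have : Infinite (Fin n → ℤ) := by
    refine Infinite.of_injective (fun i : ℤ => (fun _ : Fin n => i)) fun i j hij => ?_
    exact congrFun hij ⟨0, hn⟩
  obtain ⟨p, hp⟩ := Infinite.exists_notMem_finset S
  let z : (Fin n → ℤ) → Bool := fun h => if h ∈ S then u h else decide (h = p)
  have z1 : ∀ h ∈ S, z h = u h := fun h hh => if_pos hh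
  have z3 : z p = true := by
    show (if p ∈ S then _ else _) = _
    rw [if_neg hp]
    simp
  have z4 : ∀ h, z h = true → h ∈ insert p S := by
    intro h hh
    by_cases h1 : h ∈ S
    · exact Finset.mem_insert_of_mem h1
    · have : z h = decide (h = p) := if_neg h1
      rw [this, decide_eq_true_eq] at hh
      rw [hh]
      exact Finset.mem_insert_self _ _
  have zf : z ∈ FP n := by
    rw [FP_mem]
    intro g hg
    by_contra hc
    push Not at hc
    have h1 : ∀ m : ℕ, z (p + m • g) = true := by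
      intro m
      induction m with
      | zero => simpa using z3
      | succ m ih => rw [succ_nsmul, ← add_assoc, hc, ih]
    have hinj : Function.Injective (fun m : ℕ => p + m • g) := by
      obtain ⟨k', hk'⟩ := Function.ne_iff.1 hg
      have hk2 : g k' ≠ 0 := hk'
      intro a b hab
      have := congrFun hab k'
      simpa [hk2] using this
    exact (Set.infinite_of_injective_forall_mem hinj (fun m => h1 m)).mono
      (s := {h | z h = true}) (t := ↑(insert p S))
      (fun h hh => z4 h hh) |>.not_finite (Finset.finite_toSet _)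
  exact ⟨⟨z, zf⟩, z1⟩

open Pool.Agent.LibRotU in
/-- A non-empty open subset of the free part contains a cylinder. -/
theorem FP_cyl {n : ℕ} {U : Set (FP n)} (hU : IsOpen U) (hne : U.Nonempty) :
    ∃ (S : Finset (Fin n → ℤ)) (u : (Fin n → ℤ) → Bool), ∀ y : FP n,
      (∀ h ∈ S, y.1 h = u h) → y ∈ U := by
  obtain ⟨y0, hy0⟩ := hne
  obtain ⟨V, hV, rfl⟩ := isOpen_induced_iff.1 hU
  obtain ⟨S, u, hu, hS⟩ := isOpen_pi_iff.1 hV y0.1 hy0
  refine ⟨S, y0.1, fun y hy => ?_⟩
  apply hS
  intro h hh
  show y.1 h ∈ u h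
  rw [hy h hh]
  exact (hu h hh).2

theorem crit {n : ℕ} (hn : 0 < n) {P : LCL n} (hP : P ∈ BAIRE n) :
    (∃ l : P.Lbl, Obeys P fun _ => l) ∨
    ∃ (l1 l2 : P.Lbl) (D : ℕ), l1 ≠ l2 ∧ 0 < D ∧
      ∀ (A : Finset (Fin n → ℤ)) (σ : (Fin n → ℤ) → Bool), ∃ F, Obeys P F ∧
        ∀ z ∈ A, F (D • z) = if σ z then l1 else l2 := by
  classical
  let T : Act n (Pool.Agent.LibRotU.FP n) :=
    { act := Pool.Agent.LibRotU.sh
      act_zero := Pool.Agent.LibRotU.sh_zero
      act_add := Pool.Agent.LibRotU.sh_add }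
  have hB : T.IsBorel := fun g => (Pool.Agent.LibRotU.shAct n).meas g
  have hF : T.Free := (Pool.Agent.LibRotU.shAct n).free
  obtain ⟨f, hf, hlab⟩ := hP (Pool.Agent.LibRotU.FP n) T hB hF
  have hfin : Finite P.Lbl := P.fin
  choose U hU hfU using fun l => (hf l).residualEq_isOpen
  have hG : ∀ᶠ y in residual (Pool.Agent.LibRotU.FP n), ∀ (g : Fin n → ℤ) (l : P.Lbl),
      f (Pool.Agent.LibRotU.sh g y) = l ↔ Pool.Agent.LibRotU.sh g y ∈ U l := by
    rw [eventually_countable_forall]
    intro g
    rw [eventually_countable_forall]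
    intro l
    have h1 : ∀ᶠ y in residual (Pool.Agent.LibRotU.FP n), f y = l ↔ y ∈ U l := by
      filter_upwards [hfU l] with y hy
      exact iff_of_eq hy
    exact (tendsto_residual_of_isOpenMap (Pool.Agent.LibRotU.sh_continuous g)
      (Pool.Agent.LibRotU.shH g).isOpenMap).eventually h1
  have hd := dense_of_mem_residual hG
  have hob : ∀ y : Pool.Agent.LibRotU.FP n,
      Obeys P fun z => f (Pool.Agent.LibRotU.sh z y) := by
    intro y z
    have h1 := hlab (Pool.Agent.LibRotU.sh z y)
    have e : (fun w : P.W => f (Pool.Agent.LibRotU.sh (w.1 + z) y)) =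
        fun w : P.W => f (T.act w (Pool.Agent.LibRotU.sh z y)) := by
      funext w
      rw [Pool.Agent.LibRotU.sh_add]
    show (fun w : P.W => f (Pool.Agent.LibRotU.sh (w.1 + z) y)) ∈ P.A
    rw [e]
    exact h1
  by_cases hc : ∃ l1 l2, l1 ≠ l2 ∧ (U l1).Nonempty ∧ (U l2).Nonempty
  · right
    obtain ⟨l1, l2, hne, hn1, hn2⟩ := hc
    obtain ⟨S1, u1, h1⟩ := FP_cyl (hU l1) hn1
    obtain ⟨S2, u2, h2⟩ := FP_cyl (hU l2) hn2
    obtain ⟨r, hr⟩ : ∃ r : ℕ, ∀ s ∈ S1 ∪ S2, ∀ k, (s k).natAbs ≤ r := by
      refine ⟨(S1 ∪ S2).sup fun s => Finset.univ.sup fun k => (s k).natAbs, fun s hs k => ?_⟩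
      refine le_trans ?_ (Finset.le_sup (f := fun s : Fin n → ℤ =>
        Finset.univ.sup fun k => (s k).natAbs) hs)
      exact Finset.le_sup (f := fun k => (s k).natAbs) (Finset.mem_univ k)
    refine ⟨l1, l2, 2 * r + 1, hne, by omega, fun A σ => ?_⟩
    let c : (Fin n → ℤ) → (Fin n → ℤ) := fun h k => (h k + r) / (2 * r + 1)
    have hcz : ∀ s ∈ S1 ∪ S2, ∀ z : Fin n → ℤ, c (s + (2 * r + 1) • z) = z := by
      intro s hs z
      funext k
      have a1 := hr s hs k
      show (s k + ((2 * r + 1) • z) k + r) / (2 * r + 1) = z k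
      have e : ((2 * r + 1) • z) k = (2 * (r : ℤ) + 1) * z k := by
        rw [Pi.smul_apply, nsmul_eq_mul]
        push_cast
        ring
      rw [e, show s k + (2 * (r : ℤ) + 1) * z k + r = (s k + r) + (2 * (r : ℤ) + 1) * z k by ring,
        Int.add_mul_ediv_left _ _ (by omega), Int.ediv_eq_zero_of_lt (by omega) (by omega), zero_add]
    let u : (Fin n → ℤ) → Bool := fun h =>
      if σ (c h) then u1 (h - (2 * r + 1) • c h) else u2 (h - (2 * r + 1) • c h)
    obtain ⟨y0, hy0⟩ := FP_dense hn
      ((A ×ˢ (S1 ∪ S2)).image fun p => p.2 + (2 * r + 1) • p.1) u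
    let O : Set (Pool.Agent.LibRotU.FP n) :=
      ⋂ z ∈ A, Pool.Agent.LibRotU.sh ((2 * r + 1) • z) ⁻¹' (if σ z then U l1 else U l2)
    have hO : IsOpen O := by
      refine isOpen_biInter_finset fun z _ => IsOpen.preimage
        (Pool.Agent.LibRotU.sh_continuous _) ?_
      split_ifs
      · exact hU l1
      · exact hU l2
    have hO0 : O.Nonempty := by
      refine ⟨y0, ?_⟩
      refine Set.mem_iInter₂.2 fun z hz => ?_
      have hval : ∀ s ∈ S1 ∪ S2, (Pool.Agent.LibRotU.sh ((2 * r + 1) • z) y0).1 s =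
          if σ z then u1 s else u2 s := by
        intro s hs
        have h3 := hy0 (s + (2 * r + 1) • z)
          (Finset.mem_image.2 ⟨(z, s), Finset.mk_mem_product hz hs, rfl⟩)
        show y0.1 (s + (2 * r + 1) • z) = _
        rw [h3]
        show (if σ (c (s + (2 * r + 1) • z)) then _ else _) = _
        rw [hcz s hs z, add_sub_cancel_right]
      show Pool.Agent.LibRotU.sh ((2 * r + 1) • z) y0 ∈ (if σ z then U l1 else U l2)
      by_cases hσ : σ z = true
      · rw [if_pos hσ]
        refine h1 _ fun s hs => ?_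
        rw [hval s (Finset.mem_union_left _ hs), if_pos hσ]
      · rw [if_neg hσ]
        refine h2 _ fun s hs => ?_
        rw [hval s (Finset.mem_union_right _ hs), if_neg hσ]
    obtain ⟨y, hyO, hy⟩ := hd.inter_open_nonempty O hO hO0
    refine ⟨fun z => f (Pool.Agent.LibRotU.sh z y), hob y, fun z hz => ?_⟩
    have h4 : Pool.Agent.LibRotU.sh ((2 * r + 1) • z) y ∈ (if σ z then U l1 else U l2) :=
      Set.mem_iInter₂.1 hyO z hz
    show f (Pool.Agent.LibRotU.sh ((2 * r + 1) • z) y) = _
    by_cases hσ : σ z = true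
    · rw [if_pos hσ] at h4 ⊢
      exact (hy _ _).2 h4
    · rw [if_neg hσ] at h4 ⊢
      exact (hy _ _).2 h4
  · left
    obtain ⟨y0, -⟩ := FP_dense hn ∅ fun _ => true
    obtain ⟨y, -, hy⟩ := hd.inter_open_nonempty Set.univ isOpen_univ ⟨y0, trivial⟩
    refine ⟨f y, ?_⟩
    have h5 : ∀ z, f (Pool.Agent.LibRotU.sh z y) = f y := by
      intro z
      by_contra hz
      refine hc ⟨_, _, hz, ⟨_, (hy z _).1 rfl⟩, ⟨y, ?_⟩⟩
      have h6 := (hy 0 (f y)).1 (by rw [Pool.Agent.LibRotU.sh_zero])
      rwa [Pool.Agent.LibRotU.sh_zero] at h6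
    have h7 := hob y
    have e : (fun z => f (Pool.Agent.LibRotU.sh z y)) = fun _ => f y := funext h5
    rw [e] at h7
    exact h7

end BU39
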