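import Pool.Agent.LibBU39.Dyn

/-!
The local rules of a self-similar labelling of the plane (two alternating kinds of levels).

Cells are the elements of `V = ℤ × ℤ`; the cell `z` is the unit square with lower left
corner `z`.  The edge `(w, false)` is the horizontal edge from the vertex `w` to `w + e1`
(between the cells `w - e2` and `w`), the edge `(w, true)` is the vertical edge from `w`
to `w + e2` (between the cells `w - e1` and `w`).
-/

namespace BU39

/-- Cells, vertices and vectors of the plane. -/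
abbrev V := ℤ × ℤ

def e1 : V := (1, 0)
def e2 : V := (0, 1)

/-- `b • s`. -/
def bt (b : Bool) (s : V) : V := if b then s else 0

/-- Label of a cell of a grid level.  `s`: the vector of the level, `P`, `Q`: vectors of the
column and the row, `a`, `b`: is it the first column (row) of its block, `t1`, `t2`, `u1`,
`u2`: is the bottom (left, top, right) side shortened by `s`. -/
@[ext] structure Gl where
  s : V
  P : V
  Q : V
  a : Bool
  b : Bool
  t1 : Bool
  t2 : Bool
  u1 : Bool
  u2 : Bool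

namespace Gl

/-- bottom side -/
def B (g : Gl) : V := g.P - bt g.t1 g.s
/-- top side -/
def T (g : Gl) : V := g.P - bt g.u1 g.s
/-- left side -/
def L (g : Gl) : V := g.Q - bt g.t2 g.s
/-- right side -/
def R (g : Gl) : V := g.Q - bt g.u2 g.s

end Gl

/-- Raw label of a cell of a `Λ`-level: two bits, the label of the patch that contains the
cell, and the position in the patch. -/
@[ext] structure Raw where
  b1 : Bool
  b2 : Bool
  g : Gl
  p : V

/-- The default raw label. -/
def dflt : Raw := ⟨false, false, ⟨0, 0, 0, false, false, false, false, false, false⟩, 0⟩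

/-- Type of a vertex: which of the four edges are walls. -/
@[ext] structure VT where
  E : Bool
  N : Bool
  W : Bool
  S : Bool

/-- The number of walls. -/
def VT.cnt (τ : VT) : ℕ := τ.E.toNat + τ.N.toNat + τ.W.toNat + τ.S.toNat

/-- Content of an edge.  `intL o τ σ p`: interior edge of a patch; orientation, types of the
first and the last vertex, position.  `intG o μ f`: interior edge of a block of a grid level;
orientation, label `μ` of the block at the next level, and the flag of the column (for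
horizontal edges) or the row (for vertical edges). -/
inductive Cont
  | intL (o : Bool) (τ σ : VT) (p : V)
  | intG (o : Bool) (μ : V → Raw) (f : Bool)

/-- Parameters of the local problem: a bound and the shapes of the patches. -/
structure Par where
  K : ℤ
  patch : Gl → V → Prop

/-- Bounded vectors. -/
def Bd (K : ℤ) (v : V) : Prop := |v.1| ≤ K ∧ |v.2| ≤ K

/-- Long vectors. -/
def Long (v : V) : Prop := 2 ≤ |v.1| ∨ 2 ≤ |v.2|

/-- Allowed labels of a grid level. -/
structure Ok (P : Par) (g : Gl) : Prop where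
  s0 : g.s ≠ 0
  sb : Bd P.K g.s
  Pb : Bd P.K g.P
  Qb : Bd P.K g.Q
  Bb : Bd P.K g.B
  Lb : Bd P.K g.L
  Bl : Long g.B
  Ll : Long g.L
  cl : g.B + g.R = g.L + g.T

/-- Rule for horizontally adjacent labels (`g'` to the right of `g`). -/
def RG (g g' : Gl) : Prop :=
  g.s = g'.s ∧ g.Q = g'.Q ∧ g.b = g'.b ∧ g.u2 = g'.t2 ∧ (g.a = true → g'.a = false)

/-- Rule for vertically adjacent labels (`g'` above `g`). -/
def UG (g g' : Gl) : Prop :=
  g.s = g'.s ∧ g.P = g'.P ∧ g.a = g'.a ∧ g.u1 = g'.t1 ∧ (g.b = true → g'.b = false)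

/-- The label `g` fits to the label `μ` of its block. -/
def TG (g : Gl) (μ : V → Raw) : Prop :=
  g.t1 = (g.a && (if g.b then (μ 0).b1 else (μ e2).b1)) ∧
  g.u1 = (g.a && (μ e2).b1) ∧
  g.t2 = (g.b && (if g.a then (μ 0).b2 else (μ e1).b2)) ∧
  g.u2 = (g.b && (μ e1).b2)

/-- Rule for the horizontal edge between `g` and `g'` (above `g`) with content `c`. -/
def RelGH (g g' : Gl) (c : Cont) : Prop :=
  UG g g' ∧ (g'.b = false → ∃ μ, c = Cont.intG false μ g'.a ∧ TG g μ ∧ TG g' μ)

/-- Rule for the vertical edge between `g` and `g'` (to the right of `g`) with content `c`. -/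
def RelGV (g g' : Gl) (c : Cont) : Prop :=
  RG g g' ∧ (g'.a = false → ∃ μ, c = Cont.intG true μ g'.b ∧ TG g μ ∧ TG g' μ)

/-! ### Configurations of raw labels -/

/-- The root of the patch of the cell `z`. -/
def root (ξ : V → Raw) (z : V) : V := z - (ξ z).p

/-- The edge `e` is a wall. -/
def wall (ξ : V → Raw) (e : V × Bool) : Prop :=
  root ξ (e.1 - (if e.2 then e1 else e2)) ≠ root ξ e.1

instance (ξ : V → Raw) (e : V × Bool) : Decidable (wall ξ e) := by
  unfold wall; infer_instance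

/-- The type of the vertex `w`. -/
def vt (ξ : V → Raw) (w : V) : VT :=
  ⟨decide (wall ξ (w, false)), decide (wall ξ (w, true)),
    decide (wall ξ (w - e1, false)), decide (wall ξ (w - e2, true))⟩

/-- The edge `e` is incident with the vertex `u`. -/
def inc (e : V × Bool) (u : V) : Prop := u = e.1 ∨ u = e.1 + (if e.2 then e2 else e1)

/-- Two walls meet at a vertex that is not a root, near `z`. -/
def Link (K : ℤ) (ξ : V → Raw) (z : V) (e e' : V × Bool) : Prop :=
  ∃ u, Bd K (u - z) ∧ (ξ u).p ≠ 0 ∧ inc e u ∧ inc e' u ∧ wall ξ e ∧ wall ξ e'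

/-- The edges `e`, `e'` are connected by walls without meeting a root. -/
def Reach (K : ℤ) (ξ : V → Raw) (z : V) : V × Bool → V × Bool → Prop :=
  Relation.ReflTransGen (Link K ξ z)

/-- `z` is the root of a block. -/
def br (ξ : V → Raw) (z : V) : Bool := decide ((ξ z).p = 0) && (ξ z).g.a && (ξ z).g.b

/-- The roots of the patches of neighbouring cells. -/
def Adj (ξ : V → Raw) (z z' : V) : Prop :=
  root ξ z' = root ξ z ∨
  root ξ z' = root ξ z + (ξ z).g.B ∨ root ξ z = root ξ z' + (ξ z').g.B ∨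
  root ξ z' = root ξ z + (ξ z).g.L ∨ root ξ z = root ξ z' + (ξ z').g.L

/-- The local rule for the raw labels at `z`. -/
structure LR (P : Par) (ξ : V → Raw) (z : V) : Prop where
  ok : Ok P (ξ z).g
  bd : Bd P.K (ξ z).p
  pp : P.patch (ξ z).g (ξ z).p
  p0 : (ξ (root ξ z)).p = 0
  pg : (ξ (root ξ z)).g = (ξ z).g
  fill : (ξ z).p = 0 → ∀ w, Bd P.K w → P.patch (ξ z).g w → (ξ (z + w)).p = w
  rt : (ξ z).p = 0 → (ξ (z + (ξ z).g.B)).p = 0 ∧ RG (ξ z).g (ξ (z + (ξ z).g.B)).g ∧
    root ξ (z + (ξ z).g.B - e1) = z ∧ root ξ (z - e1) + (ξ (z - e1)).g.B = z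
  up : (ξ z).p = 0 → (ξ (z + (ξ z).g.L)).p = 0 ∧ UG (ξ z).g (ξ (z + (ξ z).g.L)).g ∧
    root ξ (z + (ξ z).g.L - e2) = z ∧ root ξ (z - e2) + (ξ (z - e2)).g.L = z
  ad1 : Adj ξ z (z + e1)
  ad2 : Adj ξ z (z + e2)
  vx : (ξ z).p ≠ 0 → (vt ξ z).cnt ≤ 2
  pH : (ξ z).p = 0 → Reach P.K ξ z (z, false) (z + (ξ z).g.B - e1, false)
  pV : (ξ z).p = 0 → Reach P.K ξ z (z, true) (z + (ξ z).g.L - e2, true)
  wl : ∀ o, wall ξ (z, o) → ∃ r o', Bd P.K (r - z) ∧ (ξ r).p = 0 ∧
    Reach P.K ξ z (z, o) (r, o')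
  c1 : (ξ z).b1.toNat + (br ξ z).toNat =
    (ξ (z - (ξ z).g.s)).b1.toNat + (br ξ (z + e1)).toNat
  c2 : (ξ z).b2.toNat + (br ξ z).toNat =
    (ξ (z - (ξ z).g.s)).b2.toNat + (br ξ (z + e2)).toNat

/-- Bounded raw labels. -/
def RawBd (K : ℤ) (r : Raw) : Prop := Bd K r.g.s ∧ Bd K r.g.P ∧ Bd K r.g.Q ∧ Bd K r.p

/-- Bounded window labels. -/
def LabBd (K : ℤ) (μ : V → Raw) : Prop :=
  ∀ w, RawBd K (μ w) ∧ (¬ Bd (K + 3) w → μ w = dflt)

/-- Bounded contents. -/
def ContBd (K : ℤ) : Cont → Prop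
  | Cont.intL _ _ _ p => Bd K p
  | Cont.intG _ μ _ => LabBd K μ

/-- The label of the cell `z` in the configuration `ξ`: the raw labels in a window. -/
def win (K : ℤ) (ξ : V → Raw) (z : V) : V → Raw :=
  fun w => if |w.1| ≤ K + 3 ∧ |w.2| ≤ K + 3 then ξ (z + w) else dflt

/-- Rule for the content of the horizontal edge at `z`. -/
def EH (ξ : V → Raw) (z : V) (c : Cont) : Prop :=
  (root ξ (z - e2) = root ξ z → c = Cont.intL false (vt ξ z) (vt ξ (z + e1)) (ξ z).p) ∧
  ((ξ z).p = 0 → RelGH (ξ (z - e2)).g (ξ z).g c)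

/-- Rule for the content of the vertical edge at `z`. -/
def EV (ξ : V → Raw) (z : V) (c : Cont) : Prop :=
  (root ξ (z - e1) = root ξ z → c = Cont.intL true (vt ξ z) (vt ξ (z + e2)) (ξ z).p) ∧
  ((ξ z).p = 0 → RelGV (ξ (z - e1)).g (ξ z).g c)

/-- `μ'` is above `μ`, the common edge has content `c`. -/
def RelN (P : Par) (μ μ' : V → Raw) (c : Cont) : Prop :=
  LR P μ 0 ∧ LR P μ' 0 ∧ (∀ w, Bd (P.K + 3) w → Bd (P.K + 3) (w + e2) → μ' w = μ (w + e2)) ∧
    EH μ' 0 c

/-- `μ'` is to the right of `μ`, the common edge has content `c`. -/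
def RelE (P : Par) (μ μ' : V → Raw) (c : Cont) : Prop :=
  LR P μ 0 ∧ LR P μ' 0 ∧ (∀ w, Bd (P.K + 3) w → Bd (P.K + 3) (w + e1) → μ' w = μ (w + e1)) ∧
    EV μ' 0 c

/-- Vertex of a `Λ`-level that is not a root, with walls `τ`. -/
def VA (τ : VT) (cE cN cW cS : Cont) : Prop :=
  τ.cnt ≤ 2 ∧
  (τ.E = false → ∃ σ p, cE = Cont.intL false τ σ p) ∧
  (τ.N = false → ∃ σ p, cN = Cont.intL true τ σ p) ∧
  (τ.W = false → ∃ σ p, cW = Cont.intL false σ τ p) ∧
  (τ.S = false → ∃ σ p, cS = Cont.intL true σ τ p) ∧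
  (τ.E = true → τ.N = true → cE = cN) ∧
  (τ.E = true → τ.W = true → cE = cW) ∧
  (τ.E = true → τ.S = true → cE = cS) ∧
  (τ.N = true → τ.W = true → cN = cW) ∧
  (τ.N = true → τ.S = true → cN = cS) ∧
  (τ.W = true → τ.S = true → cW = cS)

/-- Rule for the four edges at a vertex (right, up, left, down). -/
def VR (P : Par) (cE cN cW cS : Cont) : Prop :=
  (∃ τ, VA τ cE cN cW cS) ∨
  (∃ μ fW fS, cE = Cont.intG false μ false ∧ cN = Cont.intG true μ false ∧
    cW = Cont.intG false μ fW ∧ cS = Cont.intG true μ fS) ∨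
  (∃ μ μ', cN = Cont.intG true μ' true ∧ cS = Cont.intG true μ false ∧ cE = cW ∧
    RelN P μ μ' cE) ∨
  (∃ μ μ', cE = Cont.intG false μ' true ∧ cW = Cont.intG false μ false ∧ cN = cS ∧
    RelE P μ μ' cN)

/-! ### The local problem -/

/-- Label of a cell of the plane: window label, contents of the bottom and the left edge. -/
abbrev Cell := (V → Raw) × Cont × Cont

/-- Allowed labels. -/
def CellBd (K : ℤ) (c : Cell) : Prop := LabBd K c.1 ∧ ContBd K c.2.1 ∧ ContBd K c.2.2

/-- The local rule for a cell, its left and its lower neighbour. -/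
def Rule (P : Par) (c cW cS : Cell) : Prop :=
  RelN P cS.1 c.1 c.2.1 ∧ RelE P cW.1 c.1 c.2.2 ∧ VR P c.2.1 c.2.2 cW.2.1 cS.2.2

/-- The configurations of the plane. -/
def GX (P : Par) : Set (V → Cell) :=
  {X | ∀ z, CellBd P.K (X z) ∧ Rule P (X z) (X (z - e1)) (X (z - e2))}

end BU39
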