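import Mathlib

/-!
Actions of `ℤ^n`, local problems on `ℤ^n`, Baire-measurable labellings, the class
`BAIRE(ℤ^n)` and Baire-universality.
-/

namespace BU39

/-- A local (LCL) problem on `ℤ^n`: a finite window `W`, a finite set of labels and a set
`A` of allowed labellings of the window. -/
structure LCL (n : ℕ) where
  W : Finset (Fin n → ℤ)
  Lbl : Type
  fin : Finite Lbl
  A : Set (W → Lbl)

/-- An action of `ℤ^n` on `X`. -/
structure Act (n : ℕ) (X : Type) where
  act : (Fin n → ℤ) → X → X
  act_zero : ∀ x, act 0 x = x
  act_add : ∀ g h x, act (g + h) x = act g (act h x)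

namespace Act

variable {n : ℕ} {X : Type} (T : Act n X)

/-- The action is free. -/
def Free : Prop := ∀ g x, T.act g x = x → g = 0

/-- The action is by Borel maps. -/
def IsBorel [TopologicalSpace X] : Prop := ∀ g, @Measurable X X (borel X) (borel X) (T.act g)

/-- `f` is a labelling for the local problem `P`. -/
def IsLabeling (P : LCL n) (f : X → P.Lbl) : Prop := ∀ x, (fun w : P.W => f (T.act w x)) ∈ P.A

/-- There is a Baire-measurable labelling for the local problem `P`. -/
def BaireSolves [TopologicalSpace X] (P : LCL n) : Prop :=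
  ∃ f : X → P.Lbl, (∀ c, BaireMeasurableSet (f ⁻¹' {c})) ∧ T.IsLabeling P f

end Act

/-- The class `BAIRE(ℤ^n)`: the local problems with a Baire-measurable labelling on every
free Borel action of `ℤ^n` on a Polish space. -/
def BAIRE (n : ℕ) : Set (LCL n) :=
  {P | ∀ (X : Type) [TopologicalSpace X] [PolishSpace X] (T : Act n X),
    T.IsBorel → T.Free → T.BaireSolves P}

/-- A free Borel action on a Polish space is Baire-universal if the local problems with a
Baire-measurable labelling on it are exactly the members of `BAIRE(ℤ^n)`. -/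
def BaireUniversal {n : ℕ} {X : Type} [TopologicalSpace X] [PolishSpace X] (T : Act n X) :
    Prop :=
  T.IsBorel ∧ T.Free ∧ ∀ P : LCL n, T.BaireSolves P ↔ P ∈ BAIRE n

/-- The action of `ℤ^n` on the circle `ℝ/ℤ` by rotations: `e_i` acts by `x ↦ x + α i`. -/
noncomputable def rot {n : ℕ} (α : Fin n → ℝ) : Act n UnitAddCircle where
  act g x := x + ((∑ i, (g i : ℝ) * α i : ℝ) : UnitAddCircle)
  act_zero x := by simp
  act_add g h x := by
    have e : (∑ i, (((g + h) i : ℤ) : ℝ) * α i) =
        (∑ i, (h i : ℝ) * α i) + ∑ i, (g i : ℝ) * α i := by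
      rw [← Finset.sum_add_distrib]
      refine Finset.sum_congr rfl fun i _ => ?_
      rw [Pi.add_apply]
      push_cast
      ring
    rw [e, AddCircle.coe_add]
    abel

/-- `1, α_1, ..., α_n` are linearly independent over `ℚ`. -/
def Indep {n : ℕ} (α : Fin n → ℝ) : Prop := LinearIndependent ℚ (Fin.cons 1 α : Fin (n + 1) → ℝ)

end BU39
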