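import Pool.Agent.LibBU39.FrA

/-!
Task F11.  Rotation (pure algebra in `ℝ²`).  `RtV μ a`: `a` points to the right with margin;
`UpV μ a`: up with margin.  Write `N = n1`, `μ = m / 2`, `m ≤ 1/4`.

The hypotheses and the conclusion are invariant under the quarter turn
`(a, a', b, b') → (b, b', -a', -a)` (4 times = identity; put `Hyp`, `Goal` as predicates and
prove this first, then `wlog`-type steps are applications of it).

Step 1 (`a`, `a'` both to the right after some turns).  Call `u` steep if `|u.1| < μ N u`.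
If `a` is steep then `b` is not: `m N a N b ≤ cr a b ≤ |a.1| N b + N a |b.1|`
gives `|b.1| ≥ (m - μ) N b ≥ μ N b`; same for `b'`, and the same if `a'` is steep.  So after a
quarter turn if needed, `a` and `a'` are not steep.  If `a.1 > 0 > a'.1`: `dt a a' > 0` gives
`a.2 * a'.2 > 0`.  Multiply `cr a b ≥ m N a N b` by `|a'.1|`, `cr a' b ≥ m N a' N b` by `a.1` and
add: `- b.1 (a.2 |a'.1| + a'.2 a.1) ≥ m N b (N a |a'.1| + N a' a.1)`; so if `a.2, a'.2 > 0`, then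
`- b.1 ≥ m N b`, the same for `b'`: `-b, -b'` are to the right (three quarter turns); if
`a.2, a'.2 < 0` then `b.1 ≥ m N b` (one quarter turn).  The case `a.1 < 0 < a'.1` is the same.  If
`a.1, a'.1 < 0` make two quarter turns.

Step 2 (`a`, `a'` to the right: `a.1 ≥ μ N a`, `a'.1 ≥ μ N a'`).  If `b, b'` are up with margin
`μ`, done (first alternative).  Otherwise one of them, say `w` (the other is `w'`), has
`w.2 < μ N w`.
 (i) `w.1 ≥ 0`: `cr a w = a.1 w.2 - a.2 w.1 ≥ m N a N w` and `a.1 w.2 ≤ μ N a N w` (if `w.2 ≤ 0`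
  trivially) give `-a.2 w.1 ≥ (m - μ) N a N w`, so `-a.2 ≥ μ N a` and `w.1 ≥ μ N w`; same for `a'`.
  So `-a, -a'` are up.  `w'` is to the right: if `w'.2 < μ N w'` and `w'.1 ≥ 0` the same argument;
  if `w'.2 < μ N w'` and `w'.1 < 0`: `dt w w' ≥ 1/4 N w N w' > 0` and `w.1 w'.1 ≤ 0` give
  `w.2 w'.2 ≥ 1/4 N w N w'`, with `w.2, w'.2` both `< μ N` this forces both to be negative
  (if both are positive the product is `< μ² N N' < 1/4 N N'`), then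
  `cr a w' = a.1 w'.2 - a.2 w'.1 < 0`, contradiction; if `w'.2 ≥ μ N w'`: then
  `w.2 w'.2 ≤ μ N w N w'`, `w.1 w'.1 ≥ (1/4 - μ) N w N w'`, so `w'.1 ≥ (1/4 - μ) N w' ≥ μ N w'`.
  Conclusion: second alternative.
 (ii) `w.1 < 0`: mirror image: `a.2, a'.2` up, `-w, -w'` to the right: fourth alternative.
-/

namespace BU39.Fr

def RtV (μ : ℝ) (a : ℝ × ℝ) : Prop := μ * n1 a ≤ a.1

def UpV (μ : ℝ) (a : ℝ × ℝ) : Prop := μ * n1 a ≤ a.2

/-- The normalised hypotheses. -/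
private structure Fr11_H (m : ℝ) (a a' b b' : ℝ × ℝ) : Prop where
  na : |a.1| + |a.2| = 1
  na' : |a'.1| + |a'.2| = 1
  nb : |b.1| + |b.2| = 1
  nb' : |b'.1| + |b'.2| = 1
  c11 : m ≤ cr a b
  c12 : m ≤ cr a b'
  c21 : m ≤ cr a' b
  c22 : m ≤ cr a' b'
  ta : 1 / 4 ≤ dt a a'
  tb : 1 / 4 ≤ dt b b'

/-- The normalised conclusion. -/
private def Fr11_G (μ : ℝ) (a a' b b' : ℝ × ℝ) : Prop :=
  (μ ≤ a.1 ∧ μ ≤ a'.1 ∧ μ ≤ b.2 ∧ μ ≤ b'.2) ∨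
  (μ ≤ b.1 ∧ μ ≤ b'.1 ∧ μ ≤ -a.2 ∧ μ ≤ -a'.2) ∨
  (μ ≤ -a.1 ∧ μ ≤ -a'.1 ∧ μ ≤ -b.2 ∧ μ ≤ -b'.2) ∨
  (μ ≤ -b.1 ∧ μ ≤ -b'.1 ∧ μ ≤ a.2 ∧ μ ≤ a'.2)

private theorem Fr11_turn {m : ℝ} {a a' b b' : ℝ × ℝ} (h : Fr11_H m a a' b b') :
    Fr11_H m b b' (-a) (-a') := by
  have e : ∀ u v : ℝ × ℝ, cr u (-v) = cr v u := by
    intro u v
    unfold cr
    simp only [Prod.fst_neg, Prod.snd_neg]
    ring
  refine ⟨h.nb, h.nb', ?_, ?_, ?_, ?_, ?_, ?_, h.tb, ?_⟩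
  · simp only [Prod.fst_neg, Prod.snd_neg, abs_neg]
    exact h.na
  · simp only [Prod.fst_neg, Prod.snd_neg, abs_neg]
    exact h.na'
  · rw [e]; exact h.c11
  · rw [e]; exact h.c21
  · rw [e]; exact h.c12
  · rw [e]; exact h.c22
  · have h1 := h.ta
    unfold dt at h1 ⊢
    simp only [Prod.fst_neg, Prod.snd_neg]
    linarith

private theorem Fr11_back {μ : ℝ} {a a' b b' : ℝ × ℝ} (h : Fr11_G μ b b' (-a) (-a')) :
    Fr11_G μ a a' b b' := by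
  unfold Fr11_G at h ⊢
  simp only [Prod.fst_neg, Prod.snd_neg, neg_neg] at h
  tauto

private theorem Fr11_sym {m : ℝ} {a a' b b' : ℝ × ℝ} (h : Fr11_H m a a' b b') :
    Fr11_H m a' a b' b := by
  refine ⟨h.na', h.na, h.nb', h.nb, h.c22, h.c21, h.c12, h.c11, ?_, ?_⟩
  · have h1 := h.ta
    unfold dt at h1 ⊢
    linarith
  · have h1 := h.tb
    unfold dt at h1 ⊢
    linarith

private theorem Fr11_symG {μ : ℝ} {a a' b b' : ℝ × ℝ} (h : Fr11_G μ a' a b' b) :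
    Fr11_G μ a a' b b' := by
  unfold Fr11_G at h ⊢
  tauto

private theorem Fr11_bd {a : ℝ × ℝ} (h : |a.1| + |a.2| = 1) :
    a.1 ≤ 1 ∧ -1 ≤ a.1 ∧ a.2 ≤ 1 ∧ -1 ≤ a.2 := by
  have h1 := abs_nonneg a.1
  have h2 := abs_nonneg a.2
  have h3 := abs_le.1 (show |a.1| ≤ 1 by linarith)
  have h4 := abs_le.1 (show |a.2| ≤ 1 by linarith)
  exact ⟨h3.2, h3.1, h4.2, h4.1⟩

/-- one vector `w` which is not up: first case -/
private theorem Fr11_ri {m : ℝ} (hm : 0 < m) {a w : ℝ × ℝ}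
    (na : |a.1| + |a.2| = 1) (nw : |w.1| + |w.2| = 1) (c : m ≤ cr a w) (ha : m / 2 ≤ a.1)
    (hw : w.2 < m / 2) (hw1 : 0 ≤ w.1) : m / 2 ≤ -a.2 ∧ m / 2 ≤ w.1 := by
  obtain ⟨a1, a2, a3, a4⟩ := Fr11_bd na
  obtain ⟨w1, w2, w3, w4⟩ := Fr11_bd nw
  unfold cr at c
  have h1 : a.1 * w.2 ≤ m / 2 := by
    rcases le_or_gt w.2 0 with h | h
    · nlinarith
    · nlinarith
  have h2 : m / 2 ≤ -a.2 * w.1 := by linarith
  have h3 : 0 < -a.2 := by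
    by_contra h4
    nlinarith
  constructor <;> nlinarith

private theorem Fr11_le {m : ℝ} (hm : 0 < m) {a w : ℝ × ℝ}
    (na : |a.1| + |a.2| = 1) (nw : |w.1| + |w.2| = 1) (c : m ≤ cr a w) (ha : m / 2 ≤ a.1)
    (hw : w.2 < m / 2) (hw1 : w.1 < 0) : m / 2 ≤ a.2 ∧ m / 2 ≤ -w.1 := by
  obtain ⟨a1, a2, a3, a4⟩ := Fr11_bd na
  obtain ⟨w1, w2, w3, w4⟩ := Fr11_bd nw
  unfold cr at c
  have h1 : a.1 * w.2 ≤ m / 2 := by
    rcases le_or_gt w.2 0 with h | h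
    · nlinarith
    · nlinarith
  have h2 : m / 2 ≤ a.2 * (-w.1) := by linarith
  have h3 : 0 < a.2 := by
    by_contra h4
    nlinarith
  constructor <;> nlinarith

/-- the other vector -/
private theorem Fr11_ot {m : ℝ} (hm : 0 < m) (hm1 : m ≤ 1 / 4) {a w w' : ℝ × ℝ}
    (na : |a.1| + |a.2| = 1) (nw : |w.1| + |w.2| = 1) (nw' : |w'.1| + |w'.2| = 1)
    (c' : m ≤ cr a w') (t : 1 / 4 ≤ dt w w') (ha : m / 2 ≤ a.1)
    (hw : w.2 < m / 2) (hw1 : 0 ≤ w.1) (ha2 : m / 2 ≤ -a.2) : m / 2 ≤ w'.1 := by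
  obtain ⟨a1, a2, a3, a4⟩ := Fr11_bd na
  obtain ⟨w1, w2, w3, w4⟩ := Fr11_bd nw
  obtain ⟨v1, v2, v3, v4⟩ := Fr11_bd nw'
  rcases lt_or_ge w'.2 (m / 2) with h | h
  · rcases le_or_gt 0 w'.1 with h1 | h1
    · exact (Fr11_ri hm na nw' c' ha h h1).2
    · exfalso
      unfold dt at t
      unfold cr at c'
      have h2 : 1 / 4 ≤ w.2 * w'.2 := by nlinarith
      have h3 : w'.2 < 0 := by
        by_contra h4
        have h5 : 0 ≤ w'.2 := not_lt.1 h4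
        rcases le_or_gt w.2 0 with h6 | h6
        · nlinarith
        · nlinarith
      nlinarith
  · unfold dt at t
    have h2 : w.2 * w'.2 ≤ m / 2 := by
      rcases le_or_gt w.2 0 with h6 | h6
      · nlinarith
      · nlinarith
    have h3 : m / 2 ≤ w.1 * w'.1 := by linarith
    have h4 : 0 < w'.1 := by
      by_contra h5
      nlinarith
    nlinarith

private theorem Fr11_ot' {m : ℝ} (hm : 0 < m) (hm1 : m ≤ 1 / 4) {a w w' : ℝ × ℝ}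
    (na : |a.1| + |a.2| = 1) (nw : |w.1| + |w.2| = 1) (nw' : |w'.1| + |w'.2| = 1)
    (c' : m ≤ cr a w') (t : 1 / 4 ≤ dt w w') (ha : m / 2 ≤ a.1)
    (hw : w.2 < m / 2) (hw1 : w.1 < 0) (ha2 : m / 2 ≤ a.2) : m / 2 ≤ -w'.1 := by
  obtain ⟨a1, a2, a3, a4⟩ := Fr11_bd na
  obtain ⟨w1, w2, w3, w4⟩ := Fr11_bd nw
  obtain ⟨v1, v2, v3, v4⟩ := Fr11_bd nw'
  rcases lt_or_ge w'.2 (m / 2) with h | h
  · rcases lt_or_ge w'.1 0 with h1 | h1
    · exact (Fr11_le hm na nw' c' ha h h1).2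
    · exfalso
      unfold dt at t
      unfold cr at c'
      have h2 : 1 / 4 ≤ w.2 * w'.2 := by nlinarith
      have h3 : w'.2 < 0 := by
        by_contra h4
        have h5 : 0 ≤ w'.2 := not_lt.1 h4
        rcases le_or_gt w.2 0 with h6 | h6
        · nlinarith
        · nlinarith
      nlinarith
  · unfold dt at t
    have h2 : w.2 * w'.2 ≤ m / 2 := by
      rcases le_or_gt w.2 0 with h6 | h6
      · nlinarith
      · nlinarith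
    have h3 : m / 2 ≤ w.1 * w'.1 := by linarith
    have h4 : w'.1 < 0 := by
      by_contra h5
      nlinarith
    nlinarith

/-- step 2, if `b` is not up -/
private theorem Fr11_two_aux {m : ℝ} (hm : 0 < m) (hm1 : m ≤ 1 / 4) {a a' b b' : ℝ × ℝ}
    (h : Fr11_H m a a' b b') (ha : m / 2 ≤ a.1) (ha' : m / 2 ≤ a'.1) (hb : b.2 < m / 2) :
    Fr11_G (m / 2) a a' b b' := by
  rcases le_or_gt 0 b.1 with h1 | h1
  · obtain ⟨h2, h3⟩ := Fr11_ri hm h.na h.nb h.c11 ha hb h1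
    obtain ⟨h4, -⟩ := Fr11_ri hm h.na' h.nb h.c21 ha' hb h1
    have h5 := Fr11_ot hm hm1 h.na h.nb h.nb' h.c12 h.tb ha hb h1 h2
    exact Or.inr (Or.inl ⟨h3, h5, h2, h4⟩)
  · obtain ⟨h2, h3⟩ := Fr11_le hm h.na h.nb h.c11 ha hb h1
    obtain ⟨h4, -⟩ := Fr11_le hm h.na' h.nb h.c21 ha' hb h1
    have h5 := Fr11_ot' hm hm1 h.na h.nb h.nb' h.c12 h.tb ha hb h1 h2
    exact Or.inr (Or.inr (Or.inr ⟨h3, h5, h2, h4⟩))

/-- step 2 -/
private theorem Fr11_two {m : ℝ} (hm : 0 < m) (hm1 : m ≤ 1 / 4) {a a' b b' : ℝ × ℝ}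
    (h : Fr11_H m a a' b b') (ha : m / 2 ≤ a.1) (ha' : m / 2 ≤ a'.1) :
    Fr11_G (m / 2) a a' b b' := by
  rcases lt_or_ge b.2 (m / 2) with h1 | h1
  · exact Fr11_two_aux hm hm1 h ha ha' h1
  · rcases lt_or_ge b'.2 (m / 2) with h2 | h2
    · exact Fr11_symG (Fr11_two_aux hm hm1 (Fr11_sym h) ha' ha h2)
    · exact Or.inl ⟨ha, ha', h1, h2⟩

private theorem Fr11_mix {m : ℝ} {a a' b : ℝ × ℝ} (hm : 0 < m)
    (na : |a.1| + |a.2| = 1) (na' : |a'.1| + |a'.2| = 1)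
    (c1 : m ≤ cr a b) (c2 : m ≤ cr a' b) (h1 : 0 < a.1) (h2 : a'.1 < 0) :
    (0 < a.2 → 0 < a'.2 → m / 2 ≤ -b.1) ∧ (a.2 < 0 → a'.2 < 0 → m / 2 ≤ b.1) := by
  obtain ⟨a1, a2, a3, a4⟩ := Fr11_bd na
  obtain ⟨v1, v2, v3, v4⟩ := Fr11_bd na'
  unfold cr at c1 c2
  have h3 : m * (a.1 - a'.1) ≤ -b.1 * (a.2 * (-a'.1) + a'.2 * a.1) := by nlinarith
  constructor
  · intro h4 h5
    have h6 : 0 < a.2 * (-a'.1) + a'.2 * a.1 := by
      have := mul_pos h4 (neg_pos.2 h2)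
      have := mul_pos h5 h1
      linarith
    have h7 : a.2 * (-a'.1) + a'.2 * a.1 ≤ a.1 - a'.1 := by nlinarith
    by_contra h8
    have h9 : -b.1 < m / 2 := not_le.1 h8
    nlinarith
  · intro h4 h5
    have h6 : a.2 * (-a'.1) + a'.2 * a.1 < 0 := by
      have := mul_pos (neg_pos.2 h4) (neg_pos.2 h2)
      have := mul_pos (neg_pos.2 h5) h1
      linarith
    have h7 : -(a.2 * (-a'.1) + a'.2 * a.1) ≤ a.1 - a'.1 := by nlinarith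
    by_contra h8
    have h9 : b.1 < m / 2 := not_le.1 h8
    nlinarith

/-- `a`, `a'` not steep, opposite sides -/
private theorem Fr11_opp {m : ℝ} (hm : 0 < m) (hm1 : m ≤ 1 / 4) {a a' b b' : ℝ × ℝ}
    (h : Fr11_H m a a' b b') (h1 : 0 < a.1) (h2 : a'.1 < 0) : Fr11_G (m / 2) a a' b b' := by
  have ht := h.ta
  unfold dt at ht
  have h3 : 0 < a.2 * a'.2 := by nlinarith [mul_pos h1 (neg_pos.2 h2)]
  obtain ⟨p1, p2⟩ := Fr11_mix hm h.na h.na' h.c11 h.c21 h1 h2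
  obtain ⟨q1, q2⟩ := Fr11_mix hm h.na h.na' h.c12 h.c22 h1 h2
  rcases pos_and_pos_or_neg_and_neg_of_mul_pos h3 with ⟨h4, h5⟩ | ⟨h4, h5⟩
  · apply Fr11_back
    apply Fr11_back
    apply Fr11_back
    refine Fr11_two hm hm1 (Fr11_turn (Fr11_turn (Fr11_turn h))) ?_ ?_
    · exact p1 h4 h5
    · exact q1 h4 h5
  · apply Fr11_back
    exact Fr11_two hm hm1 (Fr11_turn h) (p2 h4 h5) (q2 h4 h5)

/-- `a`, `a'` not steep -/
private theorem Fr11_ns {m : ℝ} (hm : 0 < m) (hm1 : m ≤ 1 / 4) {a a' b b' : ℝ × ℝ}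
    (h : Fr11_H m a a' b b') (h1 : m / 2 ≤ |a.1|) (h2 : m / 2 ≤ |a'.1|) :
    Fr11_G (m / 2) a a' b b' := by
  rcases le_abs.1 h1 with h3 | h3 <;> rcases le_abs.1 h2 with h4 | h4
  · exact Fr11_two hm hm1 h h3 h4
  · exact Fr11_opp hm hm1 h (by linarith) (by linarith)
  · exact Fr11_symG (Fr11_opp hm hm1 (Fr11_sym h) (by linarith) (by linarith))
  · apply Fr11_back
    apply Fr11_back
    exact Fr11_two hm hm1 (Fr11_turn (Fr11_turn h)) h3 h4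

private theorem Fr11_st {m : ℝ} {a b : ℝ × ℝ} (na : |a.1| + |a.2| = 1)
    (nb : |b.1| + |b.2| = 1) (c : m ≤ cr a b) (h : |a.1| < m / 2) : m / 2 ≤ |b.1| := by
  unfold cr at c
  have h1 : a.1 * b.2 ≤ |a.1| * |b.2| := by
    rw [← abs_mul]
    exact le_abs_self _
  have h2 : -(a.2 * b.1) ≤ |a.2| * |b.1| := by
    rw [← abs_mul]
    exact neg_le_abs _
  have h3 := abs_nonneg a.1
  have h4 := abs_nonneg a.2
  have h5 := abs_nonneg b.1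
  have h6 := abs_nonneg b.2
  nlinarith

private theorem Fr11_main {m : ℝ} (hm : 0 < m) (hm1 : m ≤ 1 / 4) {a a' b b' : ℝ × ℝ}
    (h : Fr11_H m a a' b b') : Fr11_G (m / 2) a a' b b' := by
  rcases le_or_gt (m / 2) |a.1| with h1 | h1
  · rcases le_or_gt (m / 2) |a'.1| with h2 | h2
    · exact Fr11_ns hm hm1 h h1 h2
    · apply Fr11_back
      exact Fr11_ns hm hm1 (Fr11_turn h) (Fr11_st h.na' h.nb h.c21 h2) (Fr11_st h.na' h.nb' h.c22 h2)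
  · apply Fr11_back
    exact Fr11_ns hm hm1 (Fr11_turn h) (Fr11_st h.na h.nb h.c11 h1) (Fr11_st h.na h.nb' h.c12 h1)

private theorem Fr11_n1 {a : ℝ × ℝ} (ha : 0 < n1 a) :
    |((n1 a)⁻¹ • a).1| + |((n1 a)⁻¹ • a).2| = 1 := by
  simp only [Prod.smul_fst, Prod.smul_snd, smul_eq_mul]
  rw [abs_mul, abs_mul, ← mul_add, abs_of_pos (inv_pos.2 ha)]
  exact inv_mul_cancel₀ ha.ne'

private theorem Fr11_cr {m : ℝ} {a b : ℝ × ℝ} (ha : 0 < n1 a) (hb : 0 < n1 b)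
    (h : m * n1 a * n1 b ≤ cr a b) : m ≤ cr ((n1 a)⁻¹ • a) ((n1 b)⁻¹ • b) := by
  have h1 : cr ((n1 a)⁻¹ • a) ((n1 b)⁻¹ • b) = cr a b / (n1 a * n1 b) := by
    unfold cr
    simp only [Prod.smul_fst, Prod.smul_snd, smul_eq_mul]
    field_simp
  rw [h1, le_div_iff₀ (mul_pos ha hb)]
  linarith

private theorem Fr11_dt {m : ℝ} {a b : ℝ × ℝ} (ha : 0 < n1 a) (hb : 0 < n1 b)
    (h : m * n1 a * n1 b ≤ dt a b) : m ≤ dt ((n1 a)⁻¹ • a) ((n1 b)⁻¹ • b) := by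
  have h1 : dt ((n1 a)⁻¹ • a) ((n1 b)⁻¹ • b) = dt a b / (n1 a * n1 b) := by
    unfold dt
    simp only [Prod.smul_fst, Prod.smul_snd, smul_eq_mul]
    field_simp
  rw [h1, le_div_iff₀ (mul_pos ha hb)]
  linarith

private theorem Fr11_out {μ r t : ℝ} (hr : 0 < r) (h : μ ≤ r⁻¹ * t) : μ * r ≤ t := by
  have h1 := mul_le_mul_of_nonneg_right h hr.le
  have h2 : r⁻¹ * t * r = t := by field_simp
  rwa [h2] at h1

private theorem Fr11_out' {μ r t : ℝ} (hr : 0 < r) (h : μ ≤ -(r⁻¹ * t)) : μ * r ≤ -t := by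
  apply Fr11_out hr
  rw [mul_neg]
  exact h

private theorem Fr11_n1neg (a : ℝ × ℝ) : n1 (-a) = n1 a := by
  unfold n1
  simp

theorem rot_alg {m : ℝ} (hm : 0 < m) (hm1 : m ≤ 1 / 4) {a a' b b' : ℝ × ℝ}
    (ha : 0 < n1 a) (ha' : 0 < n1 a') (hb : 0 < n1 b) (hb' : 0 < n1 b')
    (c11 : m * n1 a * n1 b ≤ cr a b) (c12 : m * n1 a * n1 b' ≤ cr a b')
    (c21 : m * n1 a' * n1 b ≤ cr a' b) (c22 : m * n1 a' * n1 b' ≤ cr a' b')
    (ta : 1 / 4 * n1 a * n1 a' ≤ dt a a') (tb : 1 / 4 * n1 b * n1 b' ≤ dt b b') :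
    (RtV (m / 2) a ∧ RtV (m / 2) a' ∧ UpV (m / 2) b ∧ UpV (m / 2) b') ∨
    (RtV (m / 2) b ∧ RtV (m / 2) b' ∧ UpV (m / 2) (-a) ∧ UpV (m / 2) (-a')) ∨
    (RtV (m / 2) (-a) ∧ RtV (m / 2) (-a') ∧ UpV (m / 2) (-b) ∧ UpV (m / 2) (-b')) ∨
    (RtV (m / 2) (-b) ∧ RtV (m / 2) (-b') ∧ UpV (m / 2) a ∧ UpV (m / 2) a') := by
  have h := Fr11_main hm hm1 (a := (n1 a)⁻¹ • a) (a' := (n1 a')⁻¹ • a') (b := (n1 b)⁻¹ • b)
    (b' := (n1 b')⁻¹ • b') ⟨Fr11_n1 ha, Fr11_n1 ha', Fr11_n1 hb, Fr11_n1 hb', Fr11_cr ha hb c11,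
      Fr11_cr ha hb' c12, Fr11_cr ha' hb c21, Fr11_cr ha' hb' c22, Fr11_dt ha ha' ta,
      Fr11_dt hb hb' tb⟩
  unfold Fr11_G at h
  simp only [Prod.smul_fst, Prod.smul_snd, smul_eq_mul] at h
  unfold RtV UpV
  simp only [Fr11_n1neg, Prod.fst_neg, Prod.snd_neg]
  rcases h with ⟨h1, h2, h3, h4⟩ | ⟨h1, h2, h3, h4⟩ | ⟨h1, h2, h3, h4⟩ | ⟨h1, h2, h3, h4⟩
  · exact Or.inl ⟨Fr11_out ha h1, Fr11_out ha' h2, Fr11_out hb h3, Fr11_out hb' h4⟩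
  · exact Or.inr (Or.inl ⟨Fr11_out hb h1, Fr11_out hb' h2, Fr11_out' ha h3, Fr11_out' ha' h4⟩)
  · exact Or.inr (Or.inr (Or.inl ⟨Fr11_out' ha h1, Fr11_out' ha' h2, Fr11_out' hb h3,
      Fr11_out' hb' h4⟩))
  · exact Or.inr (Or.inr (Or.inr ⟨Fr11_out' hb h1, Fr11_out' hb' h2, Fr11_out ha h3,
      Fr11_out ha' h4⟩))

end BU39.Fr
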