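import Pool.Agent.LibBU39.Fr10
import Pool.Agent.LibBU39.Fr11

/-!
Task F12.  From `rot_alg` and `CoreF.turn` (applied 0, 1, 2, 3 times).  `C0 > 0` gives
`0 < n1 (rv d1)` etc.  Two turns: `(s - d1, s - d2)`, three turns: `(s - d2, s - (s - d1))`, and
`s - (s - d1) = d1`.
-/

namespace BU39.Fr

private theorem rv_neg' (a : V) : rv (-a) = -rv a := by
  simp [rv]

private theorem rv_sub_sub (s d : V) : rv (s - d - s) = -rv d := by
  have h : s - d - s = -d := by abel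
  rw [h, rv_neg']

private theorem rv_sub_neg (s d : V) : rv (s - d) = -rv (d - s) := by
  have h : s - d = -(d - s) := by abel
  rw [h, rv_neg']

theorem rotate {m0 C0 x y : ℝ} {s d1 d2 : V} {cs k1 k2 : ℤ} {δ x' y' : ℝ}
    (hm : 0 < m0) (hm1 : m0 ≤ 1 / 4) (hC : 0 < C0)
    (h : CoreF m0 C0 x y s d1 d2 cs k1 k2 δ x' y') :
    ∃ (D1 D2 : V) (l1 l2 : ℤ) (X Y : ℝ), CoreF m0 C0 x y s D1 D2 cs l1 l2 δ X Y ∧
      RtV (m0 / 2) (rv D1) ∧ RtV (m0 / 2) (rv (D1 - s)) ∧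
      UpV (m0 / 2) (rv D2) ∧ UpV (m0 / 2) (rv (D2 - s)) := by
  have h1 := h.turn
  have h2 := h1.turn
  have h3 := h2.turn
  rcases rot_alg hm hm1 (hC.trans_le h.l1) (hC.trans_le h.l1') (hC.trans_le h.l2)
    (hC.trans_le h.l2') h.c11 h.c12 h.c21 h.c22 h.t1 h.t2 with
    ⟨a1, a2, a3, a4⟩ | ⟨a1, a2, a3, a4⟩ | ⟨a1, a2, a3, a4⟩ | ⟨a1, a2, a3, a4⟩
  · exact ⟨_, _, _, _, _, _, h, a1, a2, a3, a4⟩
  · refine ⟨_, _, _, _, _, _, h1, a1, a2, ?_, ?_⟩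
    · rw [rv_sub_neg]; exact a4
    · rw [rv_sub_sub]; exact a3
  · refine ⟨_, _, _, _, _, _, h2, ?_, ?_, ?_, ?_⟩
    · rw [rv_sub_neg]; exact a2
    · rw [rv_sub_sub]; exact a1
    · rw [rv_sub_neg]; exact a4
    · rw [rv_sub_sub]; exact a3
  · rw [sub_sub_cancel] at h3
    refine ⟨_, _, _, _, _, _, h3, ?_, ?_, a3, a4⟩
    · rw [rv_sub_neg]; exact a2
    · rw [rv_sub_sub]; exact a1

end BU39.Fr
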