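import Pool.Agent.LibBU39.Fr11

/-!
Task F13.  The cones (pure algebra in `ℝ²`).
-/

namespace BU39.Fr

theorem pair13 {m : ℝ} (hm : 0 < m) {u w : ℝ × ℝ} (hu : 0 < u.1) (hw : 0 < w.2)
    (c : m * n1 u * n1 w ≤ cr u w) : (u.2 / u.1) * (w.1 / w.2) ≤ 1 - m := by
  have h1 : u.1 ≤ n1 u := by
    unfold n1; have := le_abs_self u.1; have := abs_nonneg u.2; linarith
  have h2 : w.2 ≤ n1 w := by
    unfold n1; have := le_abs_self w.2; have := abs_nonneg w.1; linarith
  have h3 : m * (u.1 * w.2) ≤ m * n1 u * n1 w := by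
    rw [mul_assoc]
    exact mul_le_mul_of_nonneg_left (mul_le_mul h1 h2 hw.le (hu.le.trans h1)) hm.le
  have h4 : u.2 * w.1 ≤ (1 - m) * (u.1 * w.2) := by
    have := h3.trans c
    unfold cr at this
    linarith
  rw [div_mul_div_comm, div_le_iff₀ (mul_pos hu hw)]
  exact h4

theorem cones {m μ ε : ℝ} (hm : 0 < m) (hm1 : m ≤ 1) (hμ : 0 < μ) (hμ1 : μ ≤ 1) (hε : 0 < ε)
    (hε1 : ε ≤ μ * m / 100) {a a' b b' : ℝ × ℝ}
    (ha : 0 < n1 a) (ha' : 0 < n1 a') (hb : 0 < n1 b) (hb' : 0 < n1 b')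
    (c11 : m * n1 a * n1 b ≤ cr a b) (c12 : m * n1 a * n1 b' ≤ cr a b')
    (c21 : m * n1 a' * n1 b ≤ cr a' b) (c22 : m * n1 a' * n1 b' ≤ cr a' b')
    (ra : RtV μ a) (ra' : RtV μ a') (ub : UpV μ b) (ub' : UpV μ b') :
    ∃ C : Cn, (4 * ε ≤ C.up ∧ C.up ≤ 1 / μ + 1) ∧ (4 * ε ≤ C.um ∧ C.um ≤ 1 / μ + 1) ∧
      (4 * ε ≤ C.wp ∧ C.wp ≤ 1 / μ + 1) ∧ (4 * ε ≤ C.wm ∧ C.wm ≤ 1 / μ + 1) ∧
      C.up * C.wp ≤ 1 - m / 2 ∧ C.um * C.wm ≤ 1 - m / 2 ∧
      (a.2 ≤ (C.up - 4 * ε) * a.1 ∧ -((C.um - 4 * ε) * a.1) ≤ a.2) ∧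
      (a'.2 ≤ (C.up - 4 * ε) * a'.1 ∧ -((C.um - 4 * ε) * a'.1) ≤ a'.2) ∧
      (b.1 ≤ (C.wp - 4 * ε) * b.2 ∧ -((C.wm - 4 * ε) * b.2) ≤ b.1) ∧
      (b'.1 ≤ (C.wp - 4 * ε) * b'.2 ∧ -((C.wm - 4 * ε) * b'.2) ≤ b'.1) := by
  unfold RtV at ra ra'
  unfold UpV at ub ub'
  have pa : 0 < a.1 := (mul_pos hμ ha).trans_le ra
  have pa' : 0 < a'.1 := (mul_pos hμ ha').trans_le ra'
  have pb : 0 < b.2 := (mul_pos hμ hb).trans_le ub
  have pb' : 0 < b'.2 := (mul_pos hμ hb').trans_le ub'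
  have bd : ∀ {p q : ℝ}, 0 < p → μ * (|p| + |q|) ≤ p → |q / p| ≤ 1 / μ := by
    intro p q hp h
    rw [abs_div, abs_of_pos hp, div_le_div_iff₀ hp hμ]
    have := abs_nonneg p
    nlinarith [abs_nonneg q]
  have sa : |a.2 / a.1| ≤ 1 / μ := bd pa ra
  have sa' : |a'.2 / a'.1| ≤ 1 / μ := bd pa' ra'
  have sb : |b.1 / b.2| ≤ 1 / μ := bd pb (by unfold n1 at ub; rwa [add_comm |b.2|])
  have sb' : |b'.1 / b'.2| ≤ 1 / μ := bd pb' (by unfold n1 at ub'; rwa [add_comm |b'.2|])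
  have p11 := pair13 hm pa pb c11
  have p12 := pair13 hm pa pb' c12
  have p21 := pair13 hm pa' pb c21
  have p22 := pair13 hm pa' pb' c22
  have iμ : 0 < 1 / μ := by positivity
  have iμ1 : 1 ≤ 1 / μ := by rw [le_div_iff₀ hμ]; linarith
  set s := a.2 / a.1 with hs
  set s' := a'.2 / a'.1 with hs'
  set t := b.1 / b.2 with ht
  set t' := b'.1 / b'.2 with ht'
  have es : a.2 = s * a.1 := by rw [hs]; field_simp
  have es' : a'.2 = s' * a'.1 := by rw [hs']; field_simp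
  have et : b.1 = t * b.2 := by rw [ht]; field_simp
  have et' : b'.1 = t' * b'.2 := by rw [ht']; field_simp
  clear_value s s' t t'
  obtain ⟨sa1, sa2⟩ := abs_le.mp sa
  obtain ⟨sa1', sa2'⟩ := abs_le.mp sa'
  obtain ⟨sb1, sb2⟩ := abs_le.mp sb
  obtain ⟨sb1', sb2'⟩ := abs_le.mp sb'
  have hε4 : 4 * ε ≤ 1 := by nlinarith
  have key : ∀ {x y : ℝ}, 0 ≤ x → 0 ≤ y → x ≤ 1 / μ → y ≤ 1 / μ → x * y ≤ 1 - m →
      (x + 4 * ε) * (y + 4 * ε) ≤ 1 - m / 2 := by
    intro x y hx hy hx1 hy1 hxy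
    have e1 : ε * (1 / μ) ≤ m / 100 := by
      have : ε * (1 / μ) ≤ (μ * m / 100) * (1 / μ) := mul_le_mul_of_nonneg_right hε1 iμ.le
      have e : (μ * m / 100) * (1 / μ) = m / 100 := by field_simp
      linarith
    have e2 : ε ≤ m / 100 := by
      have : μ * m ≤ m := by nlinarith
      linarith
    have e3 : ε * x ≤ ε * (1 / μ) := mul_le_mul_of_nonneg_left hx1 hε.le
    have e4 : ε * y ≤ ε * (1 / μ) := mul_le_mul_of_nonneg_left hy1 hε.le
    have e5 : ε * ε ≤ m / 100 := by nlinarith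
    nlinarith
  have mx : ∀ {x1 x2 y1 y2 : ℝ}, x1 * y1 ≤ 1 - m → x1 * y2 ≤ 1 - m → x2 * y1 ≤ 1 - m →
      x2 * y2 ≤ 1 - m → max 0 (max x1 x2) * max 0 (max y1 y2) ≤ 1 - m := by
    intro x1 x2 y1 y2 h1 h2 h3 h4
    have h0 : 0 ≤ 1 - m := by linarith
    rcases max_choice (0 : ℝ) (max x1 x2) with h | h <;> rw [h]
    · simpa using h0
    rcases max_choice (0 : ℝ) (max y1 y2) with h' | h' <;> rw [h']
    · simpa using h0
    rcases max_choice x1 x2 with g | g <;> rcases max_choice y1 y2 with g' | g' <;>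
      rw [g, g'] <;> assumption
  refine ⟨⟨max 0 (max s s') + 4 * ε, max 0 (max (-s) (-s')) + 4 * ε,
    max 0 (max t t') + 4 * ε, max 0 (max (-t) (-t')) + 4 * ε⟩, ?_, ?_, ?_, ?_, ?_, ?_, ?_, ?_, ?_,
    ?_⟩
  · exact ⟨by have := le_max_left 0 (max s s'); simp only; linarith,
      by have : max 0 (max s s') ≤ 1 / μ := max_le iμ.le (max_le sa2 sa2')
         simp only; linarith⟩
  · exact ⟨by have := le_max_left 0 (max (-s) (-s')); simp only; linarith,
      by have : max 0 (max (-s) (-s')) ≤ 1 / μ := max_le iμ.le (max_le (by linarith) (by linarith))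
         simp only; linarith⟩
  · exact ⟨by have := le_max_left 0 (max t t'); simp only; linarith,
      by have : max 0 (max t t') ≤ 1 / μ := max_le iμ.le (max_le sb2 sb2')
         simp only; linarith⟩
  · exact ⟨by have := le_max_left 0 (max (-t) (-t')); simp only; linarith,
      by have : max 0 (max (-t) (-t')) ≤ 1 / μ := max_le iμ.le (max_le (by linarith) (by linarith))
         simp only; linarith⟩
  · exact key (le_max_left _ _) (le_max_left _ _) (max_le iμ.le (max_le sa2 sa2'))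
      (max_le iμ.le (max_le sb2 sb2')) (mx p11 p12 p21 p22)
  · refine key (le_max_left _ _) (le_max_left _ _)
      (max_le iμ.le (max_le (by linarith) (by linarith)))
      (max_le iμ.le (max_le (by linarith) (by linarith))) (mx ?_ ?_ ?_ ?_) <;> linarith
  · refine ⟨?_, ?_⟩
    · simp only [add_sub_cancel_right]
      rw [es]
      exact mul_le_mul_of_nonneg_right ((le_max_left _ _).trans (le_max_right _ _)) pa.le
    · simp only [add_sub_cancel_right]
      have := mul_le_mul_of_nonneg_right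
        ((le_max_left (-s) (-s')).trans (le_max_right 0 _)) pa.le
      rw [es]; linarith
  · refine ⟨?_, ?_⟩
    · simp only [add_sub_cancel_right]
      rw [es']
      exact mul_le_mul_of_nonneg_right ((le_max_right _ _).trans (le_max_right _ _)) pa'.le
    · simp only [add_sub_cancel_right]
      have := mul_le_mul_of_nonneg_right
        ((le_max_right (-s) (-s')).trans (le_max_right 0 _)) pa'.le
      rw [es']; linarith
  · refine ⟨?_, ?_⟩
    · simp only [add_sub_cancel_right]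
      rw [et]
      exact mul_le_mul_of_nonneg_right ((le_max_left _ _).trans (le_max_right _ _)) pb.le
    · simp only [add_sub_cancel_right]
      have := mul_le_mul_of_nonneg_right
        ((le_max_left (-t) (-t')).trans (le_max_right 0 _)) pb.le
      rw [et]; linarith
  · refine ⟨?_, ?_⟩
    · simp only [add_sub_cancel_right]
      rw [et']
      exact mul_le_mul_of_nonneg_right ((le_max_right _ _).trans (le_max_right _ _)) pb'.le
    · simp only [add_sub_cancel_right]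
      have := mul_le_mul_of_nonneg_right
        ((le_max_right (-t) (-t')).trans (le_max_right 0 _)) pb'.le
      rw [et']; linarith

end BU39.Fr
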