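import Pool.Agent.LibBU39.Fr15

/-!
Task F16.  The cutting lemma.  `C1` from `cut2` (take `C1 ≥ 2`).  For given `C0` let `B, K` be from
`cutn` with `S = 4 C0`.  If `d.1 ≥ B` use `cutn`.  Otherwise `μ n1 (rv d) ≤ d.1 < B`, so
`10 n1 (rv d) ≤ 10 B / μ` (take `K1 ≥ K` and `≥ 10 |B| / μ`); use `cut2` with `n = 2`,
`P 0 = P0`, `P a = P1` for `a ≥ 1`.
-/

namespace BU39.Fr

private theorem fr16_mono {ε : ℝ} {A : ℤ} {u0 u1 K K' : ℝ} (h : K ≤ K') {D : V}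
    (hD : OkD ε A u0 u1 K D) : OkD ε A u0 u1 K' D :=
  ⟨hD.lo, hD.hi.trans h, hD.hi2.trans h, hD.sp, hD.sm⟩

theorem cut {μ ε U : ℝ} {A : ℤ} (hμ : 0 < μ) (hμ1 : μ ≤ 1) (hε : 0 < ε) (hε1 : ε ≤ 1)
    (hU : 1 ≤ U) (hA : 1 ≤ A) (hA2 : 4 * U ≤ ε * A) : ∃ C1 : ℝ, ∀ C0, C1 ≤ C0 → ∃ K1 : ℝ,
      ∀ (u0 u1 : ℝ) (d s : V), n1 (rv s) ≤ 4 * C0 → CutH μ U C0 u0 u1 d s →
      ∃ (n : ℕ) (P : ℕ → V), 2 ≤ n ∧ ∑ a ∈ Finset.range n, P a = d ∧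
        (∀ a < n, OkD ε A u0 u1 K1 (P a)) ∧ OkD ε A u0 u1 K1 (P 0 - s) := by
  obtain ⟨C1, hC1⟩ := cut2 hμ hμ1 hε hε1 hU hA hA2
  refine ⟨max C1 2, fun C0 hC0 => ?_⟩
  have h1 : C1 ≤ C0 := (le_max_left _ _).trans hC0
  have h2 : 2 ≤ C0 := (le_max_right _ _).trans hC0
  obtain ⟨B, K, hBK⟩ := cutn (S := 4 * C0) hε hε1 hU hA (by linarith)
  refine ⟨max K (10 * (|B| / μ)), fun u0 u1 d s hs hH => ?_⟩
  by_cases hd : B ≤ d.1
  · obtain ⟨n, P, hn, hsum, hP, hP0⟩ := hBK u0 u1 d s hH.u00 hH.u0U hH.u10 hH.u1U hs hd hH.p hH.q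
    exact ⟨n, P, hn, hsum, fun a ha => fr16_mono (le_max_left _ _) (hP a ha),
      fr16_mono (le_max_left _ _) hP0⟩
  · push Not at hd
    obtain ⟨P0, P1, hsum, g0, g1, g2⟩ := hC1 C0 u0 u1 d s h1 hH
    have hr : μ * n1 (rv d) ≤ (d.1 : ℝ) := hH.r
    have hb : n1 (rv d) ≤ |B| / μ := by
      rw [le_div_iff₀ hμ]
      have := le_abs_self B
      linarith
    have hK : 10 * n1 (rv d) ≤ max K (10 * (|B| / μ)) :=
      (mul_le_mul_of_nonneg_left hb (by norm_num)).trans (le_max_right _ _)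
    refine ⟨2, fun a => if a = 0 then P0 else P1, le_rfl, ?_, ?_, ?_⟩
    · rw [Finset.sum_range_succ, Finset.sum_range_one]
      simpa using hsum
    · intro a _
      by_cases ha : a = 0
      · simp only [ha, if_true]
        exact fr16_mono hK g0
      · simp only [ha, if_false]
        exact fr16_mono hK g1
    · simp only [if_true]
      exact fr16_mono hK g2

end BU39.Fr
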