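import Pool.Agent.LibBU39.Fr09
import Pool.Agent.LibBU39.Fr12
import Pool.Agent.LibBU39.Fr13
import Pool.Agent.LibBU39.Fr16

/-!
Module FRAME: existence of frames with uniform constants (assembly).
-/

namespace BU39

open Fr

namespace Fr

/-- The constants of the geometry. -/
noncomputable def GG : GeoC where
  ε := 1 / 80000000000
  m := 1 / 40000
  U := 40001
  ρ := 160000000001
  A := 25600640000000000 * 160000000001
  hε := by norm_num
  hε1 := by norm_num
  hm := by norm_num
  hm1 := by norm_num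
  hU := by norm_num
  hρ := by norm_num
  hρε := by norm_num
  hA1 := by norm_num
  hA2 := by norm_num
  hA3 := by norm_num

theorem rv_swap (z : V) : rv z.swap = (rv z).swap := rfl

theorem n1_swap (a : ℝ × ℝ) : n1 a.swap = n1 a := by
  simp only [n1, Prod.fst_swap, Prod.snd_swap]
  ring

/-- From `OkD` to `InD`. -/
theorem toInD {C : Cn} {K1 : ℝ} {KK : ℤ} (hK : K1 ≤ KK) {D : V}
    (h : OkD (3 * GG.ε) GG.A (C.um - 4 * GG.ε) (C.up - 4 * GG.ε) K1 D) : InD GG C KK D where
  lo := h.lo
  hi := by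
    have := h.hi.trans hK
    exact_mod_cast this
  hi2 := by
    have := h.hi2.trans hK
    exact_mod_cast this
  sp := by
    have := h.sp
    have e : C.up - 4 * GG.ε + 3 * GG.ε = C.up - GG.ε := by ring
    rwa [e] at this
  sm := by
    have := h.sm
    have e : C.um - 4 * GG.ε + 3 * GG.ε = C.um - GG.ε := by ring
    rwa [e] at this

end Fr

theorem exists_frame : ∃ (G : GeoC) (K1 : ℤ), ∀ x y : ℝ, 0 < x → x < 1 → 0 < y → y < 1 →
    Ind2 x y → Nonempty (Frame G K1 x y) := by
  have hμ : (0 : ℝ) < 1 / 40000 := by norm_num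
  have hcut := cut (μ := 1 / 40000) (ε := 3 * GG.ε) (U := 40001) (A := GG.A) hμ (by norm_num)
    (by norm_num [GG]) (by norm_num [GG]) (by norm_num) (by norm_num [GG]) (by norm_num [GG])
  obtain ⟨C1, hC1⟩ := hcut
  obtain ⟨K1, hK1⟩ := hC1 (max C1 2) (le_max_left _ _)
  set C0 : ℝ := max C1 2 with hC0
  have hC02 : 2 ≤ C0 := le_max_right _ _
  refine ⟨GG, max ⌈K1⌉ ⌈4 * C0⌉, ?_⟩
  set KK : ℤ := max ⌈K1⌉ ⌈4 * C0⌉ with hKK
  have hKa : K1 ≤ (KK : ℝ) := (Int.le_ceil K1).trans (by exact_mod_cast le_max_left _ _)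
  have hKb : 4 * C0 ≤ (KK : ℝ) := (Int.le_ceil _).trans (by exact_mod_cast le_max_right _ _)
  intro x y hx hx1 hy hy1 hI
  obtain ⟨s, e1', e2', cs, ke1, ke2, δ, X', Y', hcore⟩ := core hI hx hx1 hy hy1 hC02
  obtain ⟨d1, d2, k1, k2, x', y', h, r1, r1', r2, r2'⟩ := rotate (by norm_num) (by norm_num)
    (by linarith) hcore
  have em : (1 / 20000 / 2 : ℝ) = 1 / 40000 := by norm_num
  rw [em] at r1 r1' r2 r2'
  have p1 : 0 < n1 (rv d1) := by have := h.l1; linarith
  have p1' : 0 < n1 (rv (d1 - s)) := by have := h.l1'; linarith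
  have p2 : 0 < n1 (rv d2) := by have := h.l2; linarith
  have p2' : 0 < n1 (rv (d2 - s)) := by have := h.l2'; linarith
  obtain ⟨C, ⟨u1, u2⟩, ⟨u3, u4⟩, ⟨w1, w2⟩, ⟨w3, w4⟩, pp, mm, ⟨q1, q2⟩, ⟨q3, q4⟩, ⟨q5, q6⟩,
    ⟨q7, q8⟩⟩ := cones (m := 1 / 20000) (μ := 1 / 40000) (ε := GG.ε) (by norm_num) (by norm_num)
    hμ (by norm_num) GG.hε (by norm_num [GG]) p1 p1' p2 p2' h.c11 h.c12 h.c21 h.c22 r1 r1' r2 r2'
  have hεp := GG.hε
  have eU : (1 / (1 / 40000) + 1 : ℝ) = 40001 := by norm_num
  rw [eU] at u2 u4 w2 w4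
  -- first vector
  have H1 : CutH (1 / 40000) 40001 C0 (C.um - 4 * GG.ε) (C.up - 4 * GG.ε) d1 s :=
    { u00 := by linarith
      u0U := by linarith
      u10 := by linarith
      u1U := by linarith
      r := r1
      r' := r1'
      l := h.l1
      l' := h.l1'
      s1 := h.s1
      s1' := h.s1'
      p := q1
      q := q2
      p' := q3
      q' := q4 }
  have H2 : CutH (1 / 40000) 40001 C0 (C.wm - 4 * GG.ε) (C.wp - 4 * GG.ε) d2.swap s.swap :=
    { u00 := by linarith
      u0U := by linarith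
      u10 := by linarith
      u1U := by linarith
      r := by
        have := r2
        unfold RtV; unfold UpV at this
        rw [rv_swap, n1_swap]; exact this
      r' := by
        have := r2'
        unfold RtV; unfold UpV at this
        rw [← Prod.swap_sub, rv_swap, n1_swap]; exact this
      l := by rw [rv_swap, n1_swap]; exact h.l2
      l' := by rw [← Prod.swap_sub, rv_swap, n1_swap]; exact h.l2'
      s1 := by rw [rv_swap, n1_swap, rv_swap, n1_swap]; exact h.s2
      s1' := by rw [← Prod.swap_sub, rv_swap, n1_swap, rv_swap, n1_swap]; exact h.s2'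
      p := q5
      q := q6
      p' := q7
      q' := q8 }
  obtain ⟨n1', P, hn1, sP, hP, hP0⟩ := hK1 _ _ _ _ h.sb H1
  obtain ⟨n2', Q, hn2, sQ, hQ, hQ0⟩ := hK1 _ _ _ _ (by rw [rv_swap, n1_swap]; exact h.sb) H2
  have sb1 : |(s.1 : ℝ)| ≤ 4 * C0 := by
    have := h.sb
    simp only [n1, rv] at this
    have := abs_nonneg (s.2 : ℝ)
    linarith
  have sb2 : |(s.2 : ℝ)| ≤ 4 * C0 := by
    have := h.sb
    simp only [n1, rv] at this
    have := abs_nonneg (s.1 : ℝ)
    linarith
  refine ⟨{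
    C := C
    hC := {
      up1 := by linarith
      up2 := by simpa [GG] using u2
      um1 := by linarith
      um2 := by simpa [GG] using u4
      wp1 := by linarith
      wp2 := by simpa [GG] using w2
      wm1 := by linarith
      wm2 := by simpa [GG] using w4
      pp := by
        have : (1 - 1 / 20000 / 2 : ℝ) = 1 - GG.m := by norm_num [GG]
        rw [← this]; exact pp
      mm := by
        have : (1 - 1 / 20000 / 2 : ℝ) = 1 - GG.m := by norm_num [GG]
        rw [← this]; exact mm }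
    s := s
    d1 := d1
    d2 := d2
    cs := cs
    k1 := k1
    k2 := k2
    δ := δ
    x' := x'
    y' := y'
    hs := h.hs
    hsb := ⟨by exact_mod_cast sb1.trans hKb, by exact_mod_cast sb2.trans hKb⟩
    hδ0 := h.hδ0
    hδ1 := h.hδ1
    hx0 := h.hx0
    hx1 := h.hx1
    hy0 := h.hy0
    hy1 := h.hy1
    es := h.es
    ed1 := h.ed1
    ed2 := h.ed2
    basis := h.basis
    n1 := n1'
    n2 := n2'
    hn1 := hn1
    hn2 := hn2
    P := P
    Q := fun b => (Q b).swap
    sP := sP
    sQ := ?_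
    hP := fun a ha => toInD hKa (hP a ha)
    hP0 := toInD hKa hP0
    hQ := fun b hb => ?_
    hQ0 := ?_ }⟩
  · have e := congrArg Prod.swap sQ
    rw [Prod.swap_swap] at e
    rw [← e]
    ext
    · simp [Prod.fst_sum, Prod.snd_sum]
    · simp [Prod.fst_sum, Prod.snd_sum]
  · rw [Prod.swap_swap]
    exact toInD (C := C.sw) hKa (hQ b hb)
  · have : ((Q 0).swap - s).swap = Q 0 - s.swap := by
      rw [Prod.swap_sub, Prod.swap_swap]
    rw [this]
    exact toInD (C := C.sw) hKa hQ0

end BU39
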