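import Pool.Agent.LibBU39.S03

/-!
TASK S04.  There is no constant configuration.

If `X` is constant, take the system of S03; `win K ξ z` is constant, so `ξ` is constant
(value at `0`).  `p` is constant and `(ξ (root ξ z)).p = 0`, hence `p = 0` and
`root ξ z = z` for all `z`.  Then `root ξ (z + B - e1) = z` gives `B = e1`, which is not
`Long`.
-/

namespace BU39

theorem no_const (P : Par) (c : Cell) : (fun _ => c) ∉ GX P := by
  intro hX
  obtain ⟨S, hS⟩ := exists_sys hX
  have hK : 0 ≤ P.K := (abs_nonneg _).trans (S.lr 0).bd.1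
  have hξ : ∀ z, S.ξ z = S.ξ 0 := by
    intro z
    have h1 : S.cell z = S.cell 0 := by rw [hS z, hS 0]
    have h2 : win P.K S.ξ z 0 = win P.K S.ξ 0 0 := congrFun (congrArg Prod.fst h1) 0
    have h3 : |(0 : V).1| ≤ P.K + 3 ∧ |(0 : V).2| ≤ P.K + 3 := by
      constructor <;> simp <;> omega
    unfold win at h2
    rw [if_pos h3, if_pos h3] at h2
    simpa using h2
  have hp : ∀ z, (S.ξ z).p = 0 := by
    intro z
    rw [hξ z, ← hξ (root S.ξ 0)]
    exact (S.lr 0).p0
  have hr : ∀ z, root S.ξ z = z := by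
    intro z
    unfold root
    rw [hp z, sub_zero]
  have h4 := ((S.lr 0).rt (hp 0)).2.2.1
  rw [hr] at h4
  have h5 : (S.ξ 0).g.B = e1 := by
    have h6 : (0 : V) + (S.ξ 0).g.B - e1 + e1 = 0 + e1 := by rw [h4]
    simpa using h6
  have h7 := (S.lr 0).ok.Bl
  rw [h5] at h7
  unfold Long e1 at h7
  norm_num at h7

end BU39
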