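import Pool.Agent.LibBU39.S12a

/-!
TASK S12.  Balls and general counting principles.

`dia M` is finite with at most `2 M ^ 2 + 2 M + 1` elements (it is the union over `x` of
intervals).  `cnt` is the number of patterns on a set.
-/

namespace BU39

theorem dia_finite (M : ℕ) : (dia M).Finite := by
  refine ((Set.finite_Icc (-(M : ℤ)) M).prod (Set.finite_Icc (-(M : ℤ)) M)).subset ?_
  rintro ⟨x, y⟩ h
  simp only [dia, Set.mem_ofPred_eq] at h
  simp only [Set.mem_prod, Set.mem_Icc]
  have h1 := abs_nonneg x
  have h2 := abs_nonneg y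
  have h3 := neg_abs_le x
  have h4 := le_abs_self x
  have h5 := neg_abs_le y
  have h6 := le_abs_self y
  omega

theorem dia_ncard (M : ℕ) : (dia M).ncard ≤ 2 * M ^ 2 + 2 * M + 1 := by
  classical
  induction M with
  | zero =>
    have h : dia 0 ⊆ {(0 : V)} := by
      rintro ⟨x, y⟩ h
      simp only [dia, Set.mem_ofPred_eq, Nat.cast_zero] at h
      have h1 := abs_nonneg x
      have h2 := abs_nonneg y
      have h3 : x = 0 := abs_eq_zero.mp (by omega)
      have h4 : y = 0 := abs_eq_zero.mp (by omega)
      rw [h3, h4]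
      rfl
    have h1 := Set.ncard_le_ncard h (Set.finite_singleton _)
    rw [Set.ncard_singleton] at h1
    simpa using h1
  | succ M ih =>
    obtain ⟨D, hD⟩ : ∃ D : Finset V, D =
        (((Finset.range (M + 1)).image fun i : ℕ => ((i : ℤ), (M : ℤ) + 1 - i)) ∪
          ((Finset.range (M + 1)).image fun i : ℕ => ((M : ℤ) + 1 - i, -(i : ℤ)))) ∪
        (((Finset.range (M + 1)).image fun i : ℕ => (-(i : ℤ), -((M : ℤ) + 1 - i))) ∪
          ((Finset.range (M + 1)).image fun i : ℕ => (-((M : ℤ) + 1 - i), (i : ℤ)))) := ⟨_, rfl⟩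
    have hc : D.card ≤ 4 * (M + 1) := by
      rw [hD]
      refine (Finset.card_union_le _ _).trans ?_
      have a1 : ∀ f : ℕ → V, ((Finset.range (M + 1)).image f).card ≤ M + 1 := fun f =>
        Finset.card_image_le.trans (by simp)
      have a2 := Finset.card_union_le
        ((Finset.range (M + 1)).image fun i : ℕ => (((i : ℤ), (M : ℤ) + 1 - i) : V))
        ((Finset.range (M + 1)).image fun i : ℕ => (((M : ℤ) + 1 - i, -(i : ℤ)) : V))
      have a3 := Finset.card_union_le
        ((Finset.range (M + 1)).image fun i : ℕ => ((-(i : ℤ), -((M : ℤ) + 1 - i)) : V))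
        ((Finset.range (M + 1)).image fun i : ℕ => ((-((M : ℤ) + 1 - i), (i : ℤ)) : V))
      have b1 := a1 fun i : ℕ => (((i : ℤ), (M : ℤ) + 1 - i) : V)
      have b2 := a1 fun i : ℕ => (((M : ℤ) + 1 - i, -(i : ℤ)) : V)
      have b3 := a1 fun i : ℕ => ((-(i : ℤ), -((M : ℤ) + 1 - i)) : V)
      have b4 := a1 fun i : ℕ => ((-((M : ℤ) + 1 - i), (i : ℤ)) : V)
      omega
    have hsub : dia (M + 1) ⊆ dia M ∪ (D : Set V) := by
      rintro ⟨x, y⟩ h
      simp only [dia, Set.mem_ofPred_eq, Nat.cast_add, Nat.cast_one] at h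
      by_cases hM : |x| + |y| ≤ (M : ℤ)
      · left
        exact hM
      · right
        have he : |x| + |y| = (M : ℤ) + 1 := by omega
        rw [Finset.mem_coe, hD]
        simp only [Finset.mem_union, Finset.mem_image, Finset.mem_range, Prod.mk.injEq]
        rcases le_total 0 x with hx | hx <;> rcases le_total 0 y with hy | hy
        · rw [abs_of_nonneg hx, abs_of_nonneg hy] at he
          rcases eq_or_lt_of_le hy with h0 | h0
          · left; right
            exact ⟨0, by omega, by push_cast; omega, by push_cast; omega⟩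
          · left; left
            exact ⟨x.toNat, by omega, by omega, by omega⟩
        · rw [abs_of_nonneg hx, abs_of_nonpos hy] at he
          rcases eq_or_lt_of_le hx with h0 | h0
          · right; left
            exact ⟨0, by omega, by push_cast; omega, by push_cast; omega⟩
          · left; right
            exact ⟨(-y).toNat, by omega, by omega, by omega⟩
        · rw [abs_of_nonpos hx, abs_of_nonneg hy] at he
          rcases eq_or_lt_of_le hx with h0 | h0
          · left; left
            exact ⟨0, by omega, by push_cast; omega, by push_cast; omega⟩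
          · right; right
            exact ⟨y.toNat, by omega, by omega, by omega⟩
        · rw [abs_of_nonpos hx, abs_of_nonpos hy] at he
          rcases eq_or_lt_of_le hy with h0 | h0
          · right; right
            exact ⟨0, by omega, by push_cast; omega, by push_cast; omega⟩
          · right; left
            exact ⟨(-x).toNat, by omega, by omega, by omega⟩
    have h1 := Set.ncard_le_ncard hsub ((dia_finite M).union D.finite_toSet)
    have h2 := Set.ncard_union_le (dia M) (D : Set V)
    rw [Set.ncard_coe_finset] at h2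
    have h3 : 2 * (M + 1) ^ 2 + 2 * (M + 1) + 1 = (2 * M ^ 2 + 2 * M + 1) + 4 * (M + 1) := by
      ring
    omega

/-- The set of patterns is finite. -/
theorem pat_finite {α : Type} {F : Set α} (hF : F.Finite) {S : Set (V → α)} {A : Set V}
    (hA : A.Finite) (h : ∀ X ∈ S, ∀ z ∈ A, X z ∈ F) :
    ((fun (X : V → α) (z : A) => X z) '' S).Finite := by
  have : Finite A := hA.to_subtype
  refine (Set.Finite.pi (t := fun _ : A => F) fun _ => hF).subset ?_
  rintro _ ⟨X, hX, rfl⟩
  intro z _
  exact h X hX z z.2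

/-- Counting principle: a pattern on `A` is determined by a pattern on `A'` of a derived
configuration and an element of a finite set `T` of data. -/
theorem cnt_le {α β γ : Type} {S : Set (V → α)} {S' : Set (V → β)} {A A' : Set V}
    {T : Set γ} (hT : T.Finite) (hfin : ((fun (X : V → β) (z : A') => X z) '' S').Finite)
    (f : (V → α) → (V → β)) (d : (V → α) → γ) (hf : ∀ X ∈ S, f X ∈ S')
    (hd : ∀ X ∈ S, d X ∈ T)
    (h : ∀ X ∈ S, ∀ X' ∈ S, d X = d X' → (∀ z ∈ A', f X z = f X' z) → ∀ z ∈ A, X z = X' z) :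
    cnt S A ≤ T.ncard * cnt S' A' := by
  classical
  unfold cnt
  rcases S.eq_empty_or_nonempty with rfl | ⟨X0, -⟩
  · simp
  have hne : Nonempty (V → α) := ⟨X0⟩
  rw [← Set.ncard_prod]
  choose! g hg1 hg2 using fun (p : A → α)
    (hp : p ∈ (fun (X : V → α) (z : A) => X z) '' S) => hp
  refine Set.ncard_le_ncard_of_injOn (fun p => (d (g p), fun z : A' => f (g p) z)) ?_ ?_
    (hT.prod hfin)
  · intro p hp
    exact ⟨hd _ (hg1 p hp), ⟨f (g p), hf _ (hg1 p hp), rfl⟩⟩
  · intro p hp q hq hpq
    simp only [Prod.mk.injEq] at hpq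
    have h1 := h _ (hg1 p hp) _ (hg1 q hq) hpq.1 fun z hz => congrFun hpq.2 ⟨z, hz⟩
    rw [← hg2 p hp, ← hg2 q hq]
    funext z
    exact h1 z z.2

/-- Counting principle with a finite set of cases. -/
theorem cnt_le' {α γ : Type} {S : Set (V → α)} {A : Set V} {T : Set γ} (hT : T.Finite)
    (d : (V → α) → γ) (hd : ∀ X ∈ S, d X ∈ T) (B : ℕ)
    (h : ∀ t ∈ T, cnt {X | X ∈ S ∧ d X = t} A ≤ B) : cnt S A ≤ T.ncard * B := by
  classical
  unfold cnt at h ⊢
  by_cases hfin : ((fun (X : V → α) (z : A) => X z) '' S).Finite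
  · have h1 : ((fun (X : V → α) (z : A) => X z) '' S) ⊆
        ⋃ t ∈ hT.toFinset, ((fun (X : V → α) (z : A) => X z) '' {X | X ∈ S ∧ d X = t}) := by
      rintro _ ⟨X, hX, rfl⟩
      simp only [Set.mem_iUnion]
      exact ⟨d X, by simpa using hd X hX, ⟨X, ⟨hX, rfl⟩, rfl⟩⟩
    have h2 : (⋃ t ∈ hT.toFinset,
        ((fun (X : V → α) (z : A) => X z) '' {X | X ∈ S ∧ d X = t})).Finite := by
      refine hfin.subset ?_
      intro p hp
      simp only [Set.mem_iUnion] at hp
      obtain ⟨t, -, X, hX, rfl⟩ := hp
      exact ⟨X, hX.1, rfl⟩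
    refine (Set.ncard_le_ncard h1 h2).trans ?_
    refine (Finset.set_ncard_biUnion_le _ _).trans ?_
    refine (Finset.sum_le_card_nsmul _ _ B fun t ht => h t (by simpa using ht)).trans ?_
    rw [Set.ncard_eq_toFinset_card T hT, smul_eq_mul]
  · rw [Set.Infinite.ncard hfin]
    exact Nat.zero_le _

/-- Monotonicity. -/
theorem cnt_mono {α : Type} {S S' : Set (V → α)} {A : Set V}
    (hfin : ((fun (X : V → α) (z : A) => X z) '' S').Finite) (h : S ⊆ S') :
    cnt S A ≤ cnt S' A :=
  Set.ncard_le_ncard (Set.image_mono h) hfin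

end BU39
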