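import Pool.Agent.LibBU39.S17
import Pool.Agent.LibBU39.S12

/-!
TASK S18.  The number of patterns of a grid level is bounded by the number of local
patterns of a `Λ`-level.

For `Y ∈ GY P` take `cc`, `rr` (S16), `Z` (S17).  The range of `blk` is a product of two
intervals of `ℤ` (possibly infinite) containing `0`; cut it with `dia k`, `k = N / 2 + 2`:
this is `rect x0 x1 y0 y1 ∩ dia k` with `-k ≤ x0`, `x1 ≤ k`, ... .  `Z` is in
`LP P (rect .. ∩ dia k)`.  For `z ∈ dia N`, `blk z ∈ dia k` (`Blk.bd`).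
Data of `Y`: `x0, x1, y0, y1`, `s`, the functions `P`, `a` on the columns `|i| ≤ N` and
`Q`, `b` on the rows `|j| ≤ N`, and also `cc.c`, `rr.c` on `[-N, N]` (they are determined by
`a`, `b`; or put them in the data: they are bounded by `N`, monotone; easier: recompute them
from `a`, `b` by `c0`, `step`).  The number of data is at most `2 ^ (c (N + 1))`
(`(2 k + 1) ^ 4 ≤ 2 ^ (c (N + 1))`, and a finite set of possible `(P, a)`).
If the data agree and `Z`, `Z'` agree on `rect ∩ dia k`, then `Y`, `Y'` agree on `dia N` by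
S17.  So the number of patterns is at most the sum over the rectangles ... `≤ 2 ^ (c (N+1)) T`.
-/

namespace BU39

private theorem S18_up {F : ℤ → Bool} (b : Blk F) (i : ℕ) :
    ∀ m : ℤ, 0 ≤ m → m ≤ b.c i → ∃ j, b.c j = m := by
  induction i with
  | zero =>
    intro m h1 h2
    refine ⟨0, ?_⟩
    rw [Nat.cast_zero, b.c0] at h2
    rw [b.c0]
    omega
  | succ i ih =>
    intro m h1 h2
    by_cases h3 : m ≤ b.c i
    · exact ih m h1 h3
    · refine ⟨((i + 1 : ℕ) : ℤ), ?_⟩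
      have h4 := b.step i
      push_cast at h2 ⊢
      split_ifs at h4 <;> omega

private theorem S18_down {F : ℤ → Bool} (b : Blk F) (i : ℕ) :
    ∀ m : ℤ, m ≤ 0 → b.c (-(i : ℤ)) ≤ m → ∃ j, b.c j = m := by
  induction i with
  | zero =>
    intro m h1 h2
    refine ⟨0, ?_⟩
    rw [Nat.cast_zero, neg_zero, b.c0] at h2
    rw [b.c0]
    omega
  | succ i ih =>
    intro m h1 h2
    by_cases h3 : b.c (-(i : ℤ)) ≤ m
    · exact ih m h1 h3
    · refine ⟨-((i + 1 : ℕ) : ℤ), ?_⟩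
      have h4 := b.step (-((i : ℤ) + 1))
      rw [show -((i : ℤ) + 1) + 1 = -(i : ℤ) by ring] at h4
      push_cast at h2 ⊢
      split_ifs at h4 <;> omega

/-- The range of the block coordinate is an interval. -/
private theorem S18_range {F : ℤ → Bool} (b : Blk F) (k : ℕ) :
    ∃ x0 x1 : ℤ, (-(k : ℤ) ≤ x0 ∧ x0 ≤ k) ∧ (-(k : ℤ) ≤ x1 ∧ x1 ≤ k) ∧
      ∀ n : ℤ, -(k : ℤ) ≤ n → n ≤ k → ((∃ i, b.c i = n) ↔ x0 ≤ n ∧ n ≤ x1) := by
  classical
  set p : ℕ → Prop := fun x => ∃ i, b.c i = (x : ℤ) with hp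
  set q : ℕ → Prop := fun x => ∃ i, b.c i = -(x : ℤ) with hq
  have hp0 : p 0 := ⟨0, by rw [b.c0]; simp⟩
  have hq0 : q 0 := ⟨0, by rw [b.c0]; simp⟩
  have hP := Nat.findGreatest_spec (P := p) (Nat.zero_le k) hp0
  have hQ := Nat.findGreatest_spec (P := q) (Nat.zero_le k) hq0
  have hPk := Nat.findGreatest_le (P := p) k
  have hQk := Nat.findGreatest_le (P := q) k
  refine ⟨-(Nat.findGreatest q k : ℤ), (Nat.findGreatest p k : ℤ), ⟨by omega, by omega⟩,
    ⟨by omega, by omega⟩, fun n h1 h2 => ⟨?_, ?_⟩⟩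
  · rintro ⟨i, hi⟩
    constructor
    · rcases le_or_gt 0 n with h | h
      · omega
      · have h3 : q n.natAbs := ⟨i, by rw [hi]; omega⟩
        have h4 := Nat.le_findGreatest (P := q) (by omega : n.natAbs ≤ k) h3
        omega
    · rcases le_or_gt 0 n with h | h
      · have h3 : p n.natAbs := ⟨i, by rw [hi]; omega⟩
        have h4 := Nat.le_findGreatest (P := p) (by omega : n.natAbs ≤ k) h3
        omega
      · omega
  · rintro ⟨h3, h4⟩
    rcases le_or_gt 0 n with h | h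
    · obtain ⟨i, hi⟩ := hP
      rcases le_or_gt 0 i with hi0 | hi0
      · obtain ⟨m, rfl⟩ := Int.eq_ofNat_of_zero_le hi0
        exact S18_up b m n h (by rw [hi]; exact h4)
      · have := b.mono hi0.le
        rw [hi, b.c0] at this
        exact ⟨0, by rw [b.c0]; omega⟩
    · obtain ⟨i, hi⟩ := hQ
      rcases le_or_gt i 0 with hi0 | hi0
      · obtain ⟨m, hm⟩ := Int.eq_ofNat_of_zero_le (by omega : 0 ≤ -i)
        have hm' : i = -(m : ℤ) := by omega
        rw [hm'] at hi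
        exact S18_down b m n h.le (by rw [hi]; exact h3)
      · have := b.mono hi0.le
        rw [hi, b.c0] at this
        exact ⟨0, by rw [b.c0]; omega⟩

/-- The block coordinates are determined by the marks. -/
private theorem S18_eq {F F' : ℤ → Bool} (b : Blk F) (b' : Blk F') (N : ℕ)
    (h : ∀ i : ℤ, |i| ≤ N → F i = F' i) : ∀ i : ℤ, |i| ≤ N → b.c i = b'.c i := by
  have hpos : ∀ n : ℕ, n ≤ N → b.c n = b'.c n := by
    intro n
    induction n with
    | zero => intro _; rw [Nat.cast_zero, b.c0, b'.c0]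
    | succ n ih =>
      intro hn
      push_cast
      rw [b.step, b'.step, ih (by omega), h ((n : ℤ) + 1) (by rw [abs_of_nonneg] <;> omega)]
  have hneg : ∀ n : ℕ, n ≤ N → b.c (-(n : ℤ)) = b'.c (-(n : ℤ)) := by
    intro n
    induction n with
    | zero => intro _; rw [Nat.cast_zero, neg_zero, b.c0, b'.c0]
    | succ n ih =>
      intro hn
      have h1 := b.step (-((n : ℤ) + 1))
      have h2 := b'.step (-((n : ℤ) + 1))
      rw [show -((n : ℤ) + 1) + 1 = -(n : ℤ) by ring] at h1 h2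
      rw [ih (by omega), h (-(n : ℤ)) (by rw [abs_of_nonpos] <;> omega)] at h1
      push_cast
      omega
  intro i hi
  rcases le_or_gt 0 i with h0 | h0
  · obtain ⟨n, rfl⟩ := Int.eq_ofNat_of_zero_le h0
    refine hpos n ?_
    rw [abs_of_nonneg h0] at hi
    exact_mod_cast hi
  · obtain ⟨n, hn⟩ := Int.eq_ofNat_of_zero_le (by omega : 0 ≤ -i)
    have hn' : i = -(n : ℤ) := by omega
    rw [abs_of_neg h0] at hi
    rw [hn']
    exact hneg n (by omega)

private theorem S18_aF {P : Par} {Y : V → GCell} (hY : Y ∈ GY P) (i : ℤ)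
    (h : (Y (i, 0)).1.a = true) : (Y (i + 1, 0)).1.a = false := by
  have h1 := (hY (i + 1, 0)).2.2.1.1
  have e : ((i + 1, 0) : V) - e1 = (i, 0) := by
    ext <;> simp [e1]
  rw [e] at h1
  exact h1.2.2.2.2 h

private theorem S18_bF {P : Par} {Y : V → GCell} (hY : Y ∈ GY P) (j : ℤ)
    (h : (Y (0, j)).1.b = true) : (Y (0, j + 1)).1.b = false := by
  have h1 := (hY (0, j + 1)).2.1.1
  have e : ((0, j + 1) : V) - e2 = (0, j) := by
    ext <;> simp [e2]
  rw [e] at h1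
  exact h1.2.2.2.2 h

/-- the block coordinates of the columns -/
private noncomputable def S18_cc {P : Par} (Y : V → GCell) (hY : Y ∈ GY P) :
    Blk (fun i => (Y (i, 0)).1.a) := (exists_blk _ (S18_aF hY)).some

/-- the block coordinates of the rows -/
private noncomputable def S18_rr {P : Par} (Y : V → GCell) (hY : Y ∈ GY P) :
    Blk (fun j => (Y (0, j)).1.b) := (exists_blk _ (S18_bF hY)).some

private theorem S18_exZ {P : Par} (Y : V → GCell) (hY : Y ∈ GY P) : ∃ Z : V → Cell,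
    (∀ n, CellBd P.K (Z n)) ∧
    (∀ n, n ∈ Set.range (blk (S18_cc Y hY) (S18_rr Y hY)) →
      n - e1 ∈ Set.range (blk (S18_cc Y hY) (S18_rr Y hY)) →
      n - e2 ∈ Set.range (blk (S18_cc Y hY) (S18_rr Y hY)) →
        Rule P (Z n) (Z (n - e1)) (Z (n - e2))) ∧
    (∀ k, TG (Y k).1 (Z (blk (S18_cc Y hY) (S18_rr Y hY) k)).1) ∧
    (∀ k, (Y k).2.1 = if (Y k).1.b then (Z (blk (S18_cc Y hY) (S18_rr Y hY) k)).2.1
      else Cont.intG false (Z (blk (S18_cc Y hY) (S18_rr Y hY) k)).1 (Y k).1.a) ∧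
    (∀ k, (Y k).2.2 = if (Y k).1.a then (Z (blk (S18_cc Y hY) (S18_rr Y hY) k)).2.2
      else Cont.intG true (Z (blk (S18_cc Y hY) (S18_rr Y hY) k)).1 (Y k).1.b) :=
  GY.exists_Z hY (S18_cc Y hY) (S18_rr Y hY)

/-- the cells agree if the data agree -/
private theorem S18_cell {P : Par} {Y Y' : V → GCell} (hY : Y ∈ GY P) (hY' : Y' ∈ GY P)
    {z : V} (hc : Y (z.1, 0) = Y' (z.1, 0)) (hr : Y (0, z.2) = Y' (0, z.2)) {Z Z' : V → Cell}
    {n n' : V} (hn : Z n = Z' n')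
    (h1 : TG (Y z).1 (Z n).1) (h1' : TG (Y' z).1 (Z' n').1)
    (h2 : (Y z).2.1 = if (Y z).1.b then (Z n).2.1 else Cont.intG false (Z n).1 (Y z).1.a)
    (h2' : (Y' z).2.1 = if (Y' z).1.b then (Z' n').2.1
      else Cont.intG false (Z' n').1 (Y' z).1.a)
    (h3 : (Y z).2.2 = if (Y z).1.a then (Z n).2.2 else Cont.intG true (Z n).1 (Y z).1.b)
    (h3' : (Y' z).2.2 = if (Y' z).1.a then (Z' n').2.2
      else Cont.intG true (Z' n').1 (Y' z).1.b) : Y z = Y' z := by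
  have ea : (Y z).1.a = (Y' z).1.a := by
    have a1 := GY.colF hY z.1 z.2 0
    have a2 := GY.colF hY' z.1 z.2 0
    rw [Prod.mk.eta] at a1 a2
    rw [a1, a2, hc]
  have eb : (Y z).1.b = (Y' z).1.b := by
    have a1 := GY.rowF hY z.1 0 z.2
    have a2 := GY.rowF hY' z.1 0 z.2
    rw [Prod.mk.eta] at a1 a2
    rw [a1, a2, hr]
  have eP : (Y z).1.P = (Y' z).1.P ∧ (Y z).1.s = (Y' z).1.s := by
    have a1 := GY.colP hY z.1 z.2 0
    have a2 := GY.colP hY' z.1 z.2 0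
    rw [Prod.mk.eta] at a1 a2
    rw [a1.1, a1.2, a2.1, a2.2, hc]
    exact ⟨rfl, rfl⟩
  have eQ : (Y z).1.Q = (Y' z).1.Q := by
    have a1 := (GY.rowQ hY z.1 0 z.2).1
    have a2 := (GY.rowQ hY' z.1 0 z.2).1
    rw [Prod.mk.eta] at a1 a2
    rw [a1, a2, hr]
  have eg : (Y z).1 = (Y' z).1 := by
    refine Gl.ext eP.2 eP.1 eQ ea eb ?_ ?_ ?_ ?_
    · rw [h1.1, h1'.1, hn, ea, eb]
    · rw [h1.2.2.1, h1'.2.2.1, hn, ea, eb]
    · rw [h1.2.1, h1'.2.1, hn, ea]
    · rw [h1.2.2.2, h1'.2.2.2, hn, eb]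
  refine Prod.ext eg (Prod.ext ?_ ?_)
  · rw [h2, h2', hn, ea, eb]
  · rw [h3, h3', hn, ea, eb]

private theorem S18_num (N G : ℕ) :
    (2 * (N / 2 + 2) + 1) ^ 4 * (G ^ (2 * N + 1) * G ^ (2 * N + 1)) ≤
      2 ^ ((20 + 4 * G) * (N + 1)) := by
  have h1 : 2 * (N / 2 + 2) + 1 ≤ 2 ^ (N + 5) := by
    have : N + 5 < 2 ^ (N + 5) := Nat.lt_two_pow_self
    omega
  have h2 : G ≤ 2 ^ G := Nat.lt_two_pow_self.le
  calc (2 * (N / 2 + 2) + 1) ^ 4 * (G ^ (2 * N + 1) * G ^ (2 * N + 1))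
      ≤ (2 ^ (N + 5)) ^ 4 * ((2 ^ G) ^ (2 * N + 1) * (2 ^ G) ^ (2 * N + 1)) := by gcongr
    _ = 2 ^ ((N + 5) * 4 + (G * (2 * N + 1) + G * (2 * N + 1))) := by
      rw [← pow_mul, ← pow_mul, ← pow_add, ← pow_add]
    _ ≤ 2 ^ ((20 + 4 * G) * (N + 1)) := by
      refine Nat.pow_le_pow_right (by norm_num) ?_
      nlinarith

theorem B_count (P : Par) : ∃ c : ℕ, ∀ N T : ℕ,
    (∀ x0 x1 y0 y1 : ℤ, cnt (LP P (rect x0 x1 y0 y1 ∩ dia (N / 2 + 2)))
      (rect x0 x1 y0 y1 ∩ dia (N / 2 + 2)) ≤ T) →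
    cnt (GY P) (dia N) ≤ 2 ^ (c * (N + 1)) * T := by
  classical
  have hfinG : Finite {c : GCell | GBd P.K c} := (finite_gcell P.K).to_subtype
  refine ⟨20 + 4 * Nat.card {c : GCell | GBd P.K c}, fun N T hT => ?_⟩
  rcases (GY P).eq_empty_or_nonempty with hE | ⟨Y0, hY0⟩
  · unfold cnt
    rw [hE, Set.image_empty, Set.ncard_empty]
    exact Nat.zero_le _
  set k : ℕ := N / 2 + 2 with hk
  have hint : ∀ (Y : V → GCell) (hY : Y ∈ GY P), ∃ x0 x1 y0 y1 : ℤ,
      (-(k : ℤ) ≤ x0 ∧ x0 ≤ k) ∧ (-(k : ℤ) ≤ x1 ∧ x1 ≤ k) ∧ (-(k : ℤ) ≤ y0 ∧ y0 ≤ k) ∧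
      (-(k : ℤ) ≤ y1 ∧ y1 ≤ k) ∧
      (∀ n : ℤ, -(k : ℤ) ≤ n → n ≤ k → ((∃ i, (S18_cc Y hY).c i = n) ↔ x0 ≤ n ∧ n ≤ x1)) ∧
      ∀ n : ℤ, -(k : ℤ) ≤ n → n ≤ k →
        ((∃ i, (S18_rr Y hY).c i = n) ↔ y0 ≤ n ∧ n ≤ y1) := by
    intro Y hY
    obtain ⟨x0, x1, a1, a2, a3⟩ := S18_range (S18_cc Y hY) k
    obtain ⟨y0, y1, b1, b2, b3⟩ := S18_range (S18_rr Y hY) k
    exact ⟨x0, x1, y0, y1, a1, a2, b1, b2, a3, b3⟩
  choose! x0 x1 y0 y1 hx0 hx1 hy0 hy1 hx hy using hint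
  -- the data
  let Q : Type := {x : ℤ // x ∈ Finset.Icc (-(k : ℤ)) k}
  let I : Type := {x : ℤ // x ∈ Finset.Icc (-(N : ℤ)) N}
  let G : Type := {c : GCell | GBd P.K c}
  let D : (Y : V → GCell) → Y ∈ GY P → (Q × Q × Q × Q) × (I → G) × (I → G) := fun Y hY =>
    ((⟨x0 Y, Finset.mem_Icc.2 (hx0 Y hY)⟩, ⟨x1 Y, Finset.mem_Icc.2 (hx1 Y hY)⟩,
      ⟨y0 Y, Finset.mem_Icc.2 (hy0 Y hY)⟩, ⟨y1 Y, Finset.mem_Icc.2 (hy1 Y hY)⟩),
      fun i => ⟨Y (i.1, 0), (hY _).1⟩, fun j => ⟨Y (0, j.1), (hY _).1⟩)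
  let d : (V → GCell) → (Q × Q × Q × Q) × (I → G) × (I → G) := fun Y =>
    if h : Y ∈ GY P then D Y h else D Y0 hY0
  have hd : ∀ Y (h : Y ∈ GY P), d Y = D Y h := fun Y h => dif_pos h
  have : Finite G := hfinG
  have : Finite Q := inferInstanceAs (Finite {x : ℤ // x ∈ Finset.Icc (-(k : ℤ)) k})
  have : Finite I := inferInstanceAs (Finite {x : ℤ // x ∈ Finset.Icc (-(N : ℤ)) N})
  have hQc : Nat.card Q = 2 * k + 1 := by
    change Nat.card {x : ℤ // x ∈ Finset.Icc (-(k : ℤ)) k} = _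
    rw [Nat.card_eq_fintype_card, Fintype.card_coe, Int.card_Icc]
    omega
  have hIc : Nat.card I = 2 * N + 1 := by
    change Nat.card {x : ℤ // x ∈ Finset.Icc (-(N : ℤ)) N} = _
    rw [Nat.card_eq_fintype_card, Fintype.card_coe, Int.card_Icc]
    omega
  have hmain := cnt_le' (S := GY P) (A := dia N)
    (Set.finite_univ (α := (Q × Q × Q × Q) × (I → G) × (I → G))) d (fun _ _ => Set.mem_univ _) T
    ?_
  · refine hmain.trans (Nat.mul_le_mul_right T ?_)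
    rw [Set.ncard_univ, Nat.card_prod, Nat.card_prod, Nat.card_prod, Nat.card_prod,
      Nat.card_prod, Nat.card_fun, hQc, hIc]
    have h1 := S18_num N (Nat.card G)
    rw [← hk] at h1
    calc _ = (2 * k + 1) ^ 4 * (Nat.card G ^ (2 * N + 1) * Nat.card G ^ (2 * N + 1)) := by ring
      _ ≤ _ := h1
  · intro t _
    by_cases hne : ∃ Y1, Y1 ∈ GY P ∧ d Y1 = t
    · obtain ⟨Y1, hY1, ht⟩ := hne
      set A' : Set V := rect (x0 Y1) (x1 Y1) (y0 Y1) (y1 Y1) ∩ dia k with hA'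
      refine le_trans ?_ (hT (x0 Y1) (x1 Y1) (y0 Y1) (y1 Y1))
      rw [← hA']
      have hexZ := fun (Y : V → GCell) (hY : Y ∈ GY P) => S18_exZ Y hY
      have : Nonempty Cell := ⟨(S18_exZ Y1 hY1).choose 0⟩
      choose! Z hZ1 hZ2 hZ3 hZ4 hZ5 using hexZ
      have hD1 : ∀ Y, Y ∈ GY P → d Y = t → x0 Y = x0 Y1 ∧ x1 Y = x1 Y1 ∧ y0 Y = y0 Y1 ∧
          y1 Y = y1 Y1 ∧ (∀ i : ℤ, |i| ≤ N → Y (i, 0) = Y1 (i, 0)) ∧
          ∀ j : ℤ, |j| ≤ N → Y (0, j) = Y1 (0, j) := by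
        intro Y hY hdY
        have e : D Y hY = D Y1 hY1 :=
          (hd Y hY).symm.trans (hdY.trans (ht.symm.trans (hd Y1 hY1)))
        have e1 := congrArg Prod.fst e
        have e2 := congrArg (fun p => p.2.1) e
        have e3 := congrArg (fun p => p.2.2) e
        refine ⟨congrArg Subtype.val (congrArg Prod.fst e1),
          congrArg Subtype.val (congrArg (fun p => p.2.1) e1),
          congrArg Subtype.val (congrArg (fun p => p.2.2.1) e1),
          congrArg Subtype.val (congrArg (fun p => p.2.2.2) e1), fun i hi => ?_, fun j hj => ?_⟩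
        · have := congrFun e2 ⟨i, Finset.mem_Icc.2 (abs_le.1 hi)⟩
          exact congrArg Subtype.val this
        · have := congrFun e3 ⟨j, Finset.mem_Icc.2 (abs_le.1 hj)⟩
          exact congrArg Subtype.val this
      have hrange : ∀ Y (hY : Y ∈ GY P), d Y = t → ∀ n ∈ A',
          n ∈ Set.range (blk (S18_cc Y hY) (S18_rr Y hY)) := by
        intro Y hY hdY n hn
        obtain ⟨a1, a2, a3, a4, -, -⟩ := hD1 Y hY hdY
        obtain ⟨⟨⟨n1, n2⟩, n3, n4⟩, n5⟩ := hn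
        have n5' : |n.1| + |n.2| ≤ k := n5
        have n6 := abs_nonneg n.1
        have n7 := abs_nonneg n.2
        have n8 : |n.1| ≤ k := by omega
        have n9 : |n.2| ≤ k := by omega
        rw [abs_le] at n8 n9
        obtain ⟨i, hi⟩ := (hx Y hY n.1 n8.1 n8.2).2 ⟨by rw [a1]; exact n1, by rw [a2]; exact n2⟩
        obtain ⟨j, hj⟩ := (hy Y hY n.2 n9.1 n9.2).2 ⟨by rw [a3]; exact n3, by rw [a4]; exact n4⟩
        exact ⟨(i, j), Prod.ext hi hj⟩
      have hblk : ∀ Y (hY : Y ∈ GY P), d Y = t → ∀ z ∈ dia N,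
          blk (S18_cc Y hY) (S18_rr Y hY) z ∈ A' := by
        intro Y hY hdY z hz
        obtain ⟨a1, a2, a3, a4, -, -⟩ := hD1 Y hY hdY
        have hz' : |z.1| + |z.2| ≤ N := hz
        have c1 := (S18_cc Y hY).bd z.1
        have c2 := (S18_rr Y hY).bd z.2
        have c3 := abs_nonneg ((S18_cc Y hY).c z.1)
        have c4 := abs_nonneg ((S18_rr Y hY).c z.2)
        have c5 : |(S18_cc Y hY).c z.1| + |(S18_rr Y hY).c z.2| ≤ k := by
          rw [hk]
          push_cast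
          omega
        have c6 : |(S18_cc Y hY).c z.1| ≤ k := by omega
        have c7 : |(S18_rr Y hY).c z.2| ≤ k := by omega
        rw [abs_le] at c6 c7
        have d1 := (hx Y hY _ c6.1 c6.2).1 ⟨z.1, rfl⟩
        have d2 := (hy Y hY _ c7.1 c7.2).1 ⟨z.2, rfl⟩
        rw [a1, a2] at d1
        rw [a3, a4] at d2
        exact ⟨⟨d1, d2⟩, c5⟩
      have hfin : ((fun (X : V → Cell) (z : A') => X z) '' (LP P A')).Finite :=
        pat_finite (finite_cell P.K) ((dia_finite k).subset Set.inter_subset_right)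
          fun X hX z hz => (hX z hz).1
      have h1 := cnt_le (S := {Y | Y ∈ GY P ∧ d Y = t}) (S' := LP P A') (A := dia N) (A' := A')
        (T := ({()} : Set Unit)) (Set.finite_singleton _) hfin Z (fun _ => ())
        (fun Y hY z hz => ⟨hZ1 Y hY.1 z, fun h1 h2 => hZ2 Y hY.1 z (hrange Y hY.1 hY.2 z hz)
          (hrange Y hY.1 hY.2 _ h1) (hrange Y hY.1 hY.2 _ h2)⟩)
        (fun _ _ => rfl)
        (fun Y hY Y' hY' _ hag z hz => by
          obtain ⟨a1, a2, a3, a4, a5, a6⟩ := hD1 Y hY.1 hY.2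
          obtain ⟨b1, b2, b3, b4, b5, b6⟩ := hD1 Y' hY'.1 hY'.2
          have hz' : |z.1| + |z.2| ≤ N := hz
          have z1 := abs_nonneg z.1
          have z2 := abs_nonneg z.2
          have z3 : |z.1| ≤ N := by omega
          have z4 : |z.2| ≤ N := by omega
          have eblk : blk (S18_cc Y hY.1) (S18_rr Y hY.1) z =
              blk (S18_cc Y' hY'.1) (S18_rr Y' hY'.1) z := by
            refine Prod.ext ?_ ?_
            · exact S18_eq _ _ N (fun i hi => by rw [a5 i hi, b5 i hi]) z.1 z3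
            · exact S18_eq _ _ N (fun j hj => by rw [a6 j hj, b6 j hj]) z.2 z4
          refine S18_cell hY.1 hY'.1 (by rw [a5 _ z3, b5 _ z3]) (by rw [a6 _ z4, b6 _ z4])
            (Z := Z Y) (Z' := Z Y') (n := blk (S18_cc Y hY.1) (S18_rr Y hY.1) z)
            (n' := blk (S18_cc Y' hY'.1) (S18_rr Y' hY'.1) z) ?_ (hZ3 Y hY.1 z)
            (hZ3 Y' hY'.1 z) (hZ4 Y hY.1 z) (hZ4 Y' hY'.1 z) (hZ5 Y hY.1 z) (hZ5 Y' hY'.1 z)
          rw [← eblk]
          exact hag _ (hblk Y hY.1 hY.2 z hz))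
      simpa using h1
    · have : {Y | Y ∈ GY P ∧ d Y = t} = ∅ := by
        ext Y
        simp only [Set.mem_ofPred_eq, Set.mem_empty_iff_false, iff_false]
        exact fun h => hne ⟨Y, h⟩
      rw [this]
      unfold cnt
      rw [Set.image_empty, Set.ncard_empty]
      exact Nat.zero_le _

end BU39
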