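import Pool.Agent.LibBU39.S20a

/-!
TASK S20b.  Squares inside a set, second part: the cells which are not in a good square.

`A = rect x0 x1 y0 y1 ∩ dia k`.  Let `w ∈ A` be in the square `Q_u` which is not good: there is
`w' ∉ A` with `Bd R (w' - (2 r + 1) • u)`, so `Bd ρ (w' - w)` with `ρ = R + r`.  Then `w` is at
distance `≤ ρ` from one of the lines `x = x0`, `x = x1`, `y = y0`, `y = y1` or
`|w|_1 > k - 2 ρ`.  There are at most `4 (2 ρ + 1) (2 k + 1)` cells of `dia k` of the first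
kinds and at most `c (k + 1)` of the last kind (for each `x` at most `2 (2 ρ + 1)` values of
`y`).
-/

namespace BU39

private theorem S20b_Icc (m : ℕ) (a : ℤ) : (Set.Icc (a - m) (a + m)).ncard = 2 * m + 1 := by
  rw [← Finset.coe_Icc, Set.ncard_coe_finset, Int.card_Icc]
  omega

private theorem S20b_mem {k : ℕ} {w : V} : w ∈ dia k ↔ |w.1| + |w.2| ≤ k := Iff.rfl

/-- cells of `dia k` near a vertical line -/
private theorem S20b_v (ρ k : ℕ) (a : ℤ) :
    {w : V | w ∈ dia k ∧ |w.1 - a| ≤ ρ}.ncard ≤ (2 * ρ + 1) * (2 * k + 1) := by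
  have e : (Set.Icc (a - ρ) (a + ρ) ×ˢ Set.Icc (0 - (k : ℤ)) (0 + k)).ncard =
      (2 * ρ + 1) * (2 * k + 1) := by
    rw [Set.ncard_prod, S20b_Icc, S20b_Icc]
  rw [← e]
  refine Set.ncard_le_ncard ?_ ((Set.finite_Icc _ _).prod (Set.finite_Icc _ _))
  rintro w ⟨h1, h2⟩
  rw [S20b_mem] at h1
  rw [abs_le] at h2
  have h3 := abs_nonneg w.1
  have h4 : |w.2| ≤ k := by omega
  rw [abs_le] at h4
  exact ⟨⟨by linarith, by linarith⟩, ⟨by linarith, by linarith⟩⟩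

/-- cells of `dia k` near a horizontal line -/
private theorem S20b_h (ρ k : ℕ) (a : ℤ) :
    {w : V | w ∈ dia k ∧ |w.2 - a| ≤ ρ}.ncard ≤ (2 * ρ + 1) * (2 * k + 1) := by
  have e : (Set.Icc (0 - (k : ℤ)) (0 + k) ×ˢ Set.Icc (a - ρ) (a + ρ)).ncard =
      (2 * ρ + 1) * (2 * k + 1) := by
    rw [Set.ncard_prod, S20b_Icc, S20b_Icc, mul_comm]
  rw [← e]
  refine Set.ncard_le_ncard ?_ ((Set.finite_Icc _ _).prod (Set.finite_Icc _ _))
  rintro w ⟨h1, h2⟩
  rw [S20b_mem] at h1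
  rw [abs_le] at h2
  have h3 := abs_nonneg w.2
  have h4 : |w.1| ≤ k := by omega
  rw [abs_le] at h4
  exact ⟨⟨by linarith, by linarith⟩, ⟨by linarith, by linarith⟩⟩

/-- cells near the boundary of `dia k` -/
private theorem S20b_d (ρ k : ℕ) :
    {w : V | w ∈ dia k ∧ (k : ℤ) < |w.1| + |w.2| + 2 * ρ}.ncard ≤
      (2 * k + 1) * (2 * (2 * ρ + 1)) := by
  have e : (Set.Icc (0 - (k : ℤ)) (0 + k) ×ˢ ((Set.univ : Set Bool) ×ˢ
      Set.Icc ((ρ : ℤ) - ρ) (ρ + ρ))).ncard = (2 * k + 1) * (2 * (2 * ρ + 1)) := by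
    rw [Set.ncard_prod, Set.ncard_prod, S20b_Icc, S20b_Icc, Set.ncard_univ]
    simp
  rw [← e]
  refine Set.ncard_le_ncard_of_injOn
    (fun w : V => (w.1, decide (0 ≤ w.2), (k : ℤ) - |w.1| - |w.2|)) ?_ ?_
    ((Set.finite_Icc _ _).prod (Set.finite_univ.prod (Set.finite_Icc _ _)))
  · rintro w ⟨h1, h2⟩
    rw [S20b_mem] at h1
    have h3 := abs_nonneg w.2
    have h4 : |w.1| ≤ k := by omega
    rw [abs_le] at h4
    refine ⟨⟨by linarith, by linarith⟩, Set.mem_univ _, ?_, ?_⟩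
    · change (ρ : ℤ) - ρ ≤ (k : ℤ) - |w.1| - |w.2|
      omega
    · change (k : ℤ) - |w.1| - |w.2| ≤ (ρ : ℤ) + ρ
      omega
  · rintro ⟨x, y⟩ - ⟨x', y'⟩ - h
    simp only [Prod.mk.injEq, decide_eq_decide] at h
    obtain ⟨rfl, h2, h3⟩ := h
    have h4 : |y| = |y'| := by omega
    refine Prod.ext rfl ?_
    change y = y'
    rcases le_or_gt 0 y with h5 | h5
    · rwa [abs_of_nonneg h5, abs_of_nonneg (h2.1 h5)] at h4
    · have h6 : y' < 0 := by
        by_contra hc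
        exact absurd (h2.2 (not_lt.1 hc)) (not_le.2 h5)
      rw [abs_of_neg h5, abs_of_neg h6] at h4
      omega

theorem bad_ncard (R r : ℕ) : ∃ c : ℕ, ∀ (k : ℕ) (x0 x1 y0 y1 : ℤ),
    {w | w ∈ rect x0 x1 y0 y1 ∩ dia k ∧
      ∀ u ∈ gd R r (rect x0 x1 y0 y1 ∩ dia k), ¬ Bd r (w - (2 * (r : ℤ) + 1) • u)}.ncard ≤
      c * (k + 1) := by
  refine ⟨12 * (2 * (R + r) + 1), fun k x0 x1 y0 y1 => ?_⟩
  set ρ : ℕ := R + r with hρ
  have hsub : {w | w ∈ rect x0 x1 y0 y1 ∩ dia k ∧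
      ∀ u ∈ gd R r (rect x0 x1 y0 y1 ∩ dia k), ¬ Bd r (w - (2 * (r : ℤ) + 1) • u)} ⊆
      {w : V | w ∈ dia k ∧ |w.1 - x0| ≤ ρ} ∪ ({w : V | w ∈ dia k ∧ |w.1 - x1| ≤ ρ} ∪
      ({w : V | w ∈ dia k ∧ |w.2 - y0| ≤ ρ} ∪ ({w : V | w ∈ dia k ∧ |w.2 - y1| ≤ ρ} ∪
      {w : V | w ∈ dia k ∧ (k : ℤ) < |w.1| + |w.2| + 2 * ρ}))) := by
    rintro w ⟨⟨hw1, hw2⟩, hw3⟩
    obtain ⟨u, hu⟩ := exists_sq r w
    have h1 : u ∉ gd R r (rect x0 x1 y0 y1 ∩ dia k) := fun h => hw3 u h hu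
    unfold gd at h1
    rw [Set.mem_setOf_eq] at h1
    push Not at h1
    obtain ⟨w', hw', hn⟩ := h1
    have b1 : |w'.1 - w.1| ≤ ρ := by
      have a1 := hw'.1
      have a2 := hu.1
      rw [Prod.fst_sub] at a1 a2
      rw [abs_le] at a1 a2 ⊢
      rw [hρ]
      push_cast
      constructor <;> linarith
    have b2 : |w'.2 - w.2| ≤ ρ := by
      have a1 := hw'.2
      have a2 := hu.2
      rw [Prod.snd_sub] at a1 a2
      rw [abs_le] at a1 a2 ⊢
      rw [hρ]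
      push_cast
      constructor <;> linarith
    have b1' := abs_le.1 b1
    have b2' := abs_le.1 b2
    obtain ⟨⟨r1, r2⟩, r3, r4⟩ := hw1
    by_cases hd : w' ∈ dia k
    · have hr : w' ∉ rect x0 x1 y0 y1 := fun h => hn ⟨h, hd⟩
      unfold rect at hr
      rw [Set.mem_setOf_eq] at hr
      by_cases c1 : x0 ≤ w'.1
      · by_cases c2 : w'.1 ≤ x1
        · by_cases c3 : y0 ≤ w'.2
          · by_cases c4 : w'.2 ≤ y1
            · exact absurd ⟨⟨c1, c2⟩, c3, c4⟩ hr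
            · right; right; right; left
              exact ⟨hw2, abs_le.2 ⟨by linarith, by linarith⟩⟩
          · right; right; left
            exact ⟨hw2, abs_le.2 ⟨by linarith, by linarith⟩⟩
        · right; left
          exact ⟨hw2, abs_le.2 ⟨by linarith, by linarith⟩⟩
      · left
        exact ⟨hw2, abs_le.2 ⟨by linarith, by linarith⟩⟩
    · right; right; right; right
      refine ⟨hw2, ?_⟩
      rw [S20b_mem, not_le] at hd
      have a1 : |w'.1| ≤ |w'.1 - w.1| + |w.1| := by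
        have := abs_add_le (w'.1 - w.1) w.1
        rwa [sub_add_cancel] at this
      have a2 : |w'.2| ≤ |w'.2 - w.2| + |w.2| := by
        have := abs_add_le (w'.2 - w.2) w.2
        rwa [sub_add_cancel] at this
      linarith
  have hfin : ∀ p : V → Prop, {w : V | w ∈ dia k ∧ p w}.Finite := fun p =>
    (dia_finite k).subset fun w hw => hw.1
  have hfU := (hfin fun w => |w.1 - x0| ≤ ρ).union ((hfin fun w => |w.1 - x1| ≤ ρ).union
    ((hfin fun w => |w.2 - y0| ≤ ρ).union ((hfin fun w => |w.2 - y1| ≤ ρ).union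
      (hfin fun w => (k : ℤ) < |w.1| + |w.2| + 2 * ρ))))
  refine (Set.ncard_le_ncard hsub hfU).trans ?_
  refine (Set.ncard_union_le _ _).trans ?_
  refine (Nat.add_le_add_left (Set.ncard_union_le _ _) _).trans ?_
  refine (Nat.add_le_add_left (Nat.add_le_add_left (Set.ncard_union_le _ _) _) _).trans ?_
  refine (Nat.add_le_add_left (Nat.add_le_add_left (Nat.add_le_add_left
    (Set.ncard_union_le _ _) _) _) _).trans ?_
  have h1 := S20b_v ρ k x0
  have h2 := S20b_v ρ k x1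
  have h3 := S20b_h ρ k y0
  have h4 := S20b_h ρ k y1
  have h5 := S20b_d ρ k
  nlinarith

end BU39
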