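import Pool.Agent.LibBU39.S19
import Pool.Agent.LibBU39.S20b

/-!
TASK S20.  The number of local patterns.

Let `R` be from S19 for `m := r`, wlog `r ≤ R` (the statement of S19 for `R` implies it for
larger values because `LP P` is antitone in the set).  `A = rect x0 x1 y0 y1 ∩ dia k`.  For a
good square `u ∈ gd R r A` the restriction of `X ∈ LP P A` to `Q_u` is the restriction of an
element of `GX P` (S19 with `z = (2 r + 1) • u`); the number of these restrictions is at most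
`cnt (GX P) (dia (2 r))` (`GX P` is translation invariant, and `{w | Bd r w} ⊆ dia (2 r)`).
The map which sends the pattern of `X` on `A` to the family of the patterns on the good
squares and the values on the cells in no good square is injective.  So
`cnt (LP P A) A ≤ F ^ (c (k + 1)) * cnt (GX P) (dia (2 r)) ^ q` with `q = (gd R r A).ncard`,
`F` = number of allowed cells (S12a), `c` from S20b.  For `k = 0` etc. nothing special.
-/

namespace BU39

private theorem S20_anti {P : Par} {A A' : Set V} (h : A ⊆ A') {X : V → Cell}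
    (hX : X ∈ LP P A') : X ∈ LP P A := by
  intro z hz
  obtain ⟨h1, h2⟩ := hX z (h hz)
  exact ⟨h1, fun h3 h4 => h2 (h h3) (h h4)⟩

private theorem S20_shift {P : Par} (v : V) {X : V → Cell} (hX : X ∈ GX P) :
    (fun z => X (z + v)) ∈ GX P := by
  intro z
  obtain ⟨h1, h2⟩ := hX (z + v)
  refine ⟨h1, ?_⟩
  have e3 : z + v - e1 = z - e1 + v := by abel
  have e4 : z + v - e2 = z - e2 + v := by abel
  rw [e3, e4] at h2
  exact h2

theorem L_count (P : Par) (r : ℕ) : ∃ c : ℕ, ∀ (k : ℕ) (x0 x1 y0 y1 : ℤ),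
    ∃ q : ℕ, q * (2 * r + 1) ^ 2 ≤ 2 * k ^ 2 + 2 * k + 1 ∧
      cnt (LP P (rect x0 x1 y0 y1 ∩ dia k)) (rect x0 x1 y0 y1 ∩ dia k) ≤
        2 ^ (c * (k + 1)) * cnt (GX P) (dia (2 * r)) ^ q := by
  classical
  obtain ⟨R0, hR0⟩ := compact P r
  obtain ⟨R, hR⟩ : ∃ R, R = max R0 r := ⟨_, rfl⟩
  have hrR : r ≤ R := hR ▸ le_max_right _ _
  have hR0R : R0 ≤ R := hR ▸ le_max_left _ _
  have hBd : ∀ v : V, Bd (R0 : ℤ) v → Bd (R : ℤ) v := by
    intro v hv
    have h1 : (R0 : ℤ) ≤ R := by exact_mod_cast hR0R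
    exact ⟨hv.1.trans h1, hv.2.trans h1⟩
  obtain ⟨c0, hc0⟩ := bad_ncard R r
  have hFC : ({c : Cell | CellBd P.K c}).Finite := finite_cell P.K
  refine ⟨Nat.card {c : Cell | CellBd P.K c} * c0, fun k x0 x1 y0 y1 => ?_⟩
  obtain ⟨A, hA⟩ : ∃ A : Set V, A = rect x0 x1 y0 y1 ∩ dia k := ⟨_, rfl⟩
  have hc0' := hc0 k x0 x1 y0 y1
  rw [← hA] at hc0'
  have hAk : A ⊆ dia k := hA ▸ Set.inter_subset_right
  have hAfin : A.Finite := (dia_finite k).subset hAk
  have hGfin : (gd R r A).Finite := gd_finite hAk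
  rw [← hA]
  refine ⟨(gd R r A).ncard, gd_ncard hrR hAk, ?_⟩
  obtain ⟨Bad, hBad⟩ : ∃ Bad : Set V,
    Bad = {w | w ∈ A ∧ ∀ u ∈ gd R r A, ¬ Bd r (w - (2 * (r : ℤ) + 1) • u)} := ⟨_, rfl⟩
  rw [← hBad] at hc0'
  have hBadfin : Bad.Finite := hAfin.subset (by rw [hBad]; exact fun w hw => hw.1)
  have hPfin : ((fun (X : V → Cell) (z : dia (2 * r)) => X z) '' GX P).Finite :=
    pat_finite hFC (dia_finite (2 * r)) fun X hX z _ => (hX z).1
  -- the global patterns on the good squares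
  have hY : ∀ (X : V → Cell) (u : V), ∃ Y : V → Cell, X ∈ LP P A → u ∈ gd R r A →
      Y ∈ GX P ∧ ∀ v, Bd r v → Y v = X (v + (2 * (r : ℤ) + 1) • u) := by
    intro X u
    by_cases h : X ∈ LP P A ∧ u ∈ gd R r A
    · obtain ⟨hX, hu⟩ := h
      have hsub : {w | Bd R0 (w - (2 * (r : ℤ) + 1) • u)} ⊆ A := fun w hw => hu w (hBd _ hw)
      obtain ⟨X', hX', hX''⟩ := hR0 ((2 * (r : ℤ) + 1) • u) X (S20_anti hsub hX)
      refine ⟨fun z => X' (z + (2 * (r : ℤ) + 1) • u), fun _ _ => ⟨S20_shift _ hX', ?_⟩⟩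
      intro v hv
      refine hX'' _ ?_
      rw [add_sub_cancel_right]
      exact hv
    · exact ⟨X, fun h1 h2 => absurd ⟨h1, h2⟩ h⟩
  choose Y hY using hY
  have hFG : Finite (gd R r A) := hGfin.to_subtype
  have hFB : Finite Bad := hBadfin.to_subtype
  have hFP : Finite ((fun (X : V → Cell) (z : dia (2 * r)) => X z) '' GX P) := hPfin.to_subtype
  have hFF : Finite {c : Cell | CellBd P.K c} := hFC.to_subtype
  obtain ⟨D, hD⟩ : ∃ D : LP P A → (gd R r A → ((fun (X : V → Cell) (z : dia (2 * r)) => X z) '' GX P)) ×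
      (Bad → {c : Cell | CellBd P.K c}),
      ∀ X, (∀ u, ((D X).1 u).1 = fun z : dia (2 * r) => Y X.1 u.1 z) ∧
        ∀ w, ((D X).2 w).1 = X.1 w.1 := by
    refine ⟨fun X => (fun u => ⟨fun z => Y X.1 u.1 z, Y X.1 u.1, (hY X.1 u.1 X.2 u.2).1, rfl⟩,
      fun w => ⟨X.1 w.1, (X.2 w.1 ?_).1⟩), fun X => ⟨fun u => rfl, fun w => rfl⟩⟩
    have h1 : ∀ v, v ∈ Bad → v ∈ A := fun v hv => by
      rw [hBad] at hv
      exact hv.1
    exact h1 _ w.2
  have hinj : ∀ X X' : LP P A, D X = D X' → ∀ w ∈ A, X.1 w = X'.1 w := by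
    intro X X' h w hw
    by_cases hwB : w ∈ Bad
    · rw [← (hD X).2 ⟨w, hwB⟩, ← (hD X').2 ⟨w, hwB⟩, h]
    · rw [hBad] at hwB
      have h1 : ∃ u ∈ gd R r A, Bd r (w - (2 * (r : ℤ) + 1) • u) := by
        by_contra hcon
        push Not at hcon
        exact hwB ⟨hw, hcon⟩
      obtain ⟨u, hu, hbd⟩ := h1
      have hmem : w - (2 * (r : ℤ) + 1) • u ∈ dia (2 * r) := by
        change |(w - (2 * (r : ℤ) + 1) • u).1| + |(w - (2 * (r : ℤ) + 1) • u).2| ≤ ((2 * r : ℕ) : ℤ)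
        have h2 := hbd.1
        have h3 := hbd.2
        push_cast
        linarith
      have h2 := (hY X.1 u X.2 hu).2 _ hbd
      have h3 := (hY X'.1 u X'.2 hu).2 _ hbd
      rw [sub_add_cancel] at h2 h3
      rw [← h2, ← h3]
      have h4 := (hD X).1 ⟨u, hu⟩
      have h5 := (hD X').1 ⟨u, hu⟩
      rw [h] at h4
      have h6 := congrFun (h4.symm.trans h5) ⟨_, hmem⟩
      exact h6
  -- representatives
  have hrep : ∀ p : ((fun (X : V → Cell) (z : A) => X z) '' LP P A), ∃ X : LP P A,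
      (fun z : A => X.1 z) = p.1 := by
    rintro ⟨p, X, hX, rfl⟩
    exact ⟨⟨X, hX⟩, rfl⟩
  choose rep hrep using hrep
  have hcard : cnt (LP P A) A ≤ Nat.card ((gd R r A →
      ((fun (X : V → Cell) (z : dia (2 * r)) => X z) '' GX P)) ×
      (Bad → {c : Cell | CellBd P.K c})) := by
    unfold cnt
    rw [← Nat.card_coe_set_eq]
    refine Nat.card_le_card_of_injective (fun p => D (rep p)) ?_
    intro p p' hpp
    apply Subtype.ext
    rw [← hrep p, ← hrep p']
    funext z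
    exact hinj _ _ hpp z.1 z.2
  refine hcard.trans ?_
  rw [Nat.card_prod, Nat.card_fun, Nat.card_fun, mul_comm]
  have hP : Nat.card ((fun (X : V → Cell) (z : dia (2 * r)) => X z) '' GX P) =
      cnt (GX P) (dia (2 * r)) := Nat.card_coe_set_eq _
  rw [hP, Nat.card_coe_set_eq (gd R r A), Nat.card_coe_set_eq Bad]
  refine Nat.mul_le_mul_right _ ?_
  have h1 : Nat.card {c : Cell | CellBd P.K c} ≤ 2 ^ Nat.card {c : Cell | CellBd P.K c} :=
    Nat.lt_two_pow_self.le
  refine (Nat.pow_le_pow_left h1 _).trans ?_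
  rw [← pow_mul, mul_assoc]
  exact Nat.pow_le_pow_right (by norm_num) (Nat.mul_le_mul_left _ hc0')

end BU39
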