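import Pool.Agent.LibBU39.S13
import Pool.Agent.LibBU39.S18
import Pool.Agent.LibBU39.S20

/-!
TASK S21.  The number of patterns of `GX P` on balls grows slower than `2 ^ (η M²)`.

Let `N M = cnt (GX P) (dia M)`.  Suppose `2 ^ (η M²) ≤ N M` for all `M ≥ 1`; then `1 ≤ N M`, let
`a M = log₂ (N M) ≥ η M²`.  Combining `A_count`, `B_count`, `L_count` (for fixed `r ≥ 1`):
`a M ≤ c (M + 1) + q * a (2 r)` with `q (2 r + 1)² ≤ 2 k² + 2 k + 1`, `k = (M + c) / 2 + 2`,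
with a constant `c` depending on `P` and `r`.  So
`a M / M² ≤ (1 / 2 + o(1)) a (2 r) / (2 r)² + o(1)` as `M → ∞`.  Let `I` be the infimum of
`a (2 r) / (2 r)²` over `r ≥ 1`.  Then `I ≤ (1/2) a (2 r) / (2 r)²` for all `r`, so `I ≤ I / 2`,
`I ≤ 0`, but `I ≥ η > 0`.
-/

namespace BU39

/-- The combined counting inequality. -/
theorem s21_count (P : Par) (r : ℕ) (hr : 1 ≤ cnt (GX P) (dia (2 * r))) :
    ∃ c1 c2 c3 : ℕ, ∀ M : ℕ, ∃ Q : ℕ,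
      Q * (2 * r + 1) ^ 2 ≤ 2 * ((M + c1) / 2 + 2) ^ 2 + 2 * ((M + c1) / 2 + 2) + 1 ∧
      cnt (GX P) (dia M) ≤
        2 ^ (c1 * (M + 1) + (c2 * (M + c1 + 1) + c3 * ((M + c1) / 2 + 2 + 1))) *
          cnt (GX P) (dia (2 * r)) ^ Q := by
  obtain ⟨c1, hA⟩ := A_count P
  obtain ⟨c2, hB⟩ := B_count P
  obtain ⟨c3, hL⟩ := L_count P r
  refine ⟨c1, c2, c3, fun M => ?_⟩
  refine ⟨(2 * ((M + c1) / 2 + 2) ^ 2 + 2 * ((M + c1) / 2 + 2) + 1) / (2 * r + 1) ^ 2,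
    Nat.div_mul_le_self _ _, ?_⟩
  have hpos : 0 < (2 * r + 1) ^ 2 := by positivity
  have h1 := hB (M + c1)
    (2 ^ (c3 * ((M + c1) / 2 + 2 + 1)) * cnt (GX P) (dia (2 * r)) ^
      ((2 * ((M + c1) / 2 + 2) ^ 2 + 2 * ((M + c1) / 2 + 2) + 1) / (2 * r + 1) ^ 2)) (by
    intro x0 x1 y0 y1
    obtain ⟨q, hq, hq'⟩ := hL ((M + c1) / 2 + 2) x0 x1 y0 y1
    have e : ((((M + c1) / 2 + 2 : ℕ)) : ℕ) = (M + c1) / 2 + 2 := rfl
    refine hq'.trans (Nat.mul_le_mul_left _ ?_)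
    exact Nat.pow_le_pow_right hr ((Nat.le_div_iff_mul_le hpos).mpr hq))
  calc cnt (GX P) (dia M) ≤ 2 ^ (c1 * (M + 1)) * cnt (GY P) (dia (M + c1)) := hA M
    _ ≤ 2 ^ (c1 * (M + 1)) * (2 ^ (c2 * (M + c1 + 1)) *
        (2 ^ (c3 * ((M + c1) / 2 + 2 + 1)) * cnt (GX P) (dia (2 * r)) ^
      ((2 * ((M + c1) / 2 + 2) ^ 2 + 2 * ((M + c1) / 2 + 2) + 1) / (2 * r + 1) ^ 2))) :=
        Nat.mul_le_mul_left _ h1
    _ = _ := by rw [pow_add, pow_add]; ring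

theorem s21_log (P : Par) (r : ℕ) (hr1 : 1 ≤ r) (hpos : ∀ M : ℕ, 1 ≤ M → 1 ≤ cnt (GX P) (dia M)) :
    ∃ C : ℝ, 0 ≤ C ∧ ∀ M : ℕ, 1 ≤ M →
      Real.logb 2 (cnt (GX P) (dia M)) ≤ C * (M + 1) + ((M : ℝ) ^ 2 / 2 + C * (M + 1)) *
        (Real.logb 2 (cnt (GX P) (dia (2 * r))) / (2 * r : ℝ) ^ 2) := by
  have hr := hpos (2 * r) (by omega)
  obtain ⟨c1, c2, c3, h⟩ := s21_count P r hr
  set N := cnt (GX P) (dia (2 * r)) with hN
  set β : ℝ := Real.logb 2 N / (2 * r : ℝ) ^ 2 with hβ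
  have hlogN : 0 ≤ Real.logb 2 (N : ℝ) :=
    Real.logb_nonneg (by norm_num) (by exact_mod_cast hr)
  have hβ0 : 0 ≤ β := by positivity
  have hr0 : (0 : ℝ) < (2 * r : ℝ) ^ 2 := by
    have : (1 : ℝ) ≤ r := by exact_mod_cast hr1
    positivity
  set d : ℝ := (c1 : ℝ) / 2 + 2 with hd
  have hd0 : 0 ≤ d := by positivity
  refine ⟨(c1 + c2 * (c1 + 1) + c3 * (d + 1)) + (2 * d ^ 2 + 4 * d + 2), by positivity, ?_⟩
  intro M hM
  obtain ⟨Q, hQ, hc⟩ := h M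
  have hM0 : (0 : ℝ) ≤ M := Nat.cast_nonneg _
  have hk : (((M + c1) / 2 + 2 : ℕ) : ℝ) ≤ (M : ℝ) / 2 + d := by
    have h1 : (((M + c1) / 2 : ℕ) : ℝ) ≤ ((M + c1 : ℕ) : ℝ) / 2 := by
      have := @Nat.cast_div_le ℝ _ _ _ (M + c1) 2
      simpa using this
    push_cast at h1 ⊢
    rw [hd]
    linarith
  have hk0 : (0 : ℝ) ≤ (((M + c1) / 2 + 2 : ℕ) : ℝ) := Nat.cast_nonneg _
  set k : ℕ := (M + c1) / 2 + 2 with hkdef
  have hcM : 1 ≤ cnt (GX P) (dia M) := hpos M hM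
  have hNpos : (0 : ℝ) < N := by exact_mod_cast hr
  have h1 : Real.logb 2 (cnt (GX P) (dia M) : ℝ) ≤
      ((c1 * (M + 1) + (c2 * (M + c1 + 1) + c3 * (k + 1)) : ℕ) : ℝ) + Q * Real.logb 2 N := by
    have h2 : (cnt (GX P) (dia M) : ℝ) ≤
        2 ^ (c1 * (M + 1) + (c2 * (M + c1 + 1) + c3 * (k + 1))) * (N : ℝ) ^ Q := by
      exact_mod_cast hc
    have h3 : Real.logb 2 (cnt (GX P) (dia M) : ℝ) ≤
        Real.logb 2 (2 ^ (c1 * (M + 1) + (c2 * (M + c1 + 1) + c3 * (k + 1))) * (N : ℝ) ^ Q) :=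
      Real.logb_le_logb_of_le (by norm_num) (by exact_mod_cast hcM) h2
    rw [Real.logb_mul (by positivity) (by positivity)] at h3
    rw [Real.logb_pow, Real.logb_pow, Real.logb_self_eq_one (by norm_num), mul_one] at h3
    exact h3
  have h2 : (Q : ℝ) * Real.logb 2 N ≤ (2 * (k : ℝ) ^ 2 + 2 * k + 1) * β := by
    have h3 : Real.logb 2 (N : ℝ) = β * (2 * r : ℝ) ^ 2 := by
      rw [hβ]; field_simp
    rw [h3]
    have h4 : (Q : ℝ) * (2 * r + 1) ^ 2 ≤ 2 * (k : ℝ) ^ 2 + 2 * k + 1 := by exact_mod_cast hQ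
    have h5 : (Q : ℝ) * (2 * r : ℝ) ^ 2 ≤ (Q : ℝ) * (2 * r + 1) ^ 2 := by
      apply mul_le_mul_of_nonneg_left _ (Nat.cast_nonneg _)
      apply pow_le_pow_left₀ (by positivity)
      linarith
    calc (Q : ℝ) * (β * (2 * r : ℝ) ^ 2) = (Q : ℝ) * (2 * r : ℝ) ^ 2 * β := by ring
      _ ≤ _ := mul_le_mul_of_nonneg_right (h5.trans h4) hβ0
  have h3 : 2 * (k : ℝ) ^ 2 + 2 * k + 1 ≤ (M : ℝ) ^ 2 / 2 + (2 * d ^ 2 + 4 * d + 2) * (M + 1) := by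
    have h4 : (k : ℝ) ^ 2 ≤ ((M : ℝ) / 2 + d) ^ 2 := pow_le_pow_left₀ hk0 hk 2
    have h5 : 0 ≤ d ^ 2 * M := by positivity
    have h6 : 0 ≤ d * M := by positivity
    nlinarith
  have h4 : ((c1 * (M + 1) + (c2 * (M + c1 + 1) + c3 * (k + 1)) : ℕ) : ℝ) ≤
      (c1 + c2 * (c1 + 1) + c3 * (d + 1)) * (M + 1) := by
    push_cast
    have a1 : (c2 : ℝ) * (M + c1 + 1) ≤ c2 * (c1 + 1) * (M + 1) := by
      have : (c2 : ℝ) * (c1 + 1) * (M + 1) = c2 * (M + c1 + 1) + c2 * (c1 * M) := by ring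
      rw [this]
      have : 0 ≤ (c2 : ℝ) * (c1 * M) := by positivity
      linarith
    have a2 : (c3 : ℝ) * (k + 1) ≤ c3 * (d + 1) * (M + 1) := by
      have b1 : (c3 : ℝ) * (k + 1) ≤ c3 * ((M : ℝ) / 2 + d + 1) := by
        apply mul_le_mul_of_nonneg_left _ (Nat.cast_nonneg _)
        linarith
      have b2 : (c3 : ℝ) * (d + 1) * (M + 1) =
          c3 * ((M : ℝ) / 2 + d + 1) + c3 * (d * M + M / 2) := by ring
      rw [b2]
      have : 0 ≤ (c3 : ℝ) * (d * M + M / 2) := by positivity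
      linarith
    linarith
  have h5 : (2 * (k : ℝ) ^ 2 + 2 * k + 1) * β ≤
      ((M : ℝ) ^ 2 / 2 + (2 * d ^ 2 + 4 * d + 2) * (M + 1)) * β :=
    mul_le_mul_of_nonneg_right h3 hβ0
  have h6 : 0 ≤ (2 * d ^ 2 + 4 * d + 2) * ((M : ℝ) + 1) := by positivity
  have h7 : 0 ≤ ((c1 + c2 * (c1 + 1) + c3 * (d + 1)) * ((M : ℝ) + 1)) * β := by positivity
  calc Real.logb 2 (cnt (GX P) (dia M) : ℝ) ≤
      (c1 + c2 * (c1 + 1) + c3 * (d + 1)) * (M + 1) +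
        ((M : ℝ) ^ 2 / 2 + (2 * d ^ 2 + 4 * d + 2) * (M + 1)) * β := by linarith
    _ ≤ _ := by nlinarith

theorem entropy_zero (P : Par) (η : ℝ) (hη : 0 < η) :
    ∃ M : ℕ, 1 ≤ M ∧ (cnt (GX P) (dia M) : ℝ) < 2 ^ (η * (M : ℝ) ^ 2) := by
  by_contra hcon
  push Not at hcon
  have hpos : ∀ M : ℕ, 1 ≤ M → 1 ≤ cnt (GX P) (dia M) := by
    intro M hM
    have h1 := hcon M hM
    have h2 : (0 : ℝ) < 2 ^ (η * (M : ℝ) ^ 2) := by positivity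
    have h3 : (0 : ℝ) < cnt (GX P) (dia M) := h2.trans_le h1
    exact_mod_cast h3
  set a : ℕ → ℝ := fun M => Real.logb 2 (cnt (GX P) (dia M)) with ha
  have hlow : ∀ M : ℕ, 1 ≤ M → η * (M : ℝ) ^ 2 ≤ a M := by
    intro M hM
    have h1 := Real.logb_le_logb_of_le (b := 2) (by norm_num) (by positivity) (hcon M hM)
    rwa [Real.logb_rpow (by norm_num) (by norm_num)] at h1
  have step : ∀ r : ℕ, 1 ≤ r → ∃ r' : ℕ, 1 ≤ r' ∧
      a (2 * r') / (2 * r' : ℝ) ^ 2 ≤ 3 / 4 * (a (2 * r) / (2 * r : ℝ) ^ 2) := by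
    intro r hr
    obtain ⟨C, hC, h⟩ := s21_log P r hr hpos
    set β : ℝ := a (2 * r) / (2 * r : ℝ) ^ 2 with hβ
    have hβ0 : 0 < β := by
      have hr1 : (1 : ℝ) ≤ r := by exact_mod_cast hr
      have h1 := hlow (2 * r) (by omega)
      have h2 : (0 : ℝ) < η * ((2 * r : ℕ) : ℝ) ^ 2 := by push_cast; positivity
      have h3 : 0 < a (2 * r) := h2.trans_le h1
      positivity
    obtain ⟨n, hn⟩ := exists_nat_gt (8 * C * (1 + β) / β)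
    refine ⟨n + 1, by omega, ?_⟩
    have h1 := h (2 * (n + 1)) (by omega)
    have hx : ((2 * (n + 1) : ℕ) : ℝ) = 2 * ((n + 1 : ℕ) : ℝ) := by push_cast; ring
    set x : ℝ := 2 * ((n + 1 : ℕ) : ℝ) with hxdef
    have hx1 : 1 ≤ x := by
      rw [hxdef]; push_cast
      have : (0 : ℝ) ≤ n := Nat.cast_nonneg _
      linarith
    have hxn : (n : ℝ) ≤ x := by
      rw [hxdef]; push_cast
      have : (0 : ℝ) ≤ n := Nat.cast_nonneg _
      linarith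
    rw [hx] at h1
    rw [div_le_iff₀ (by positivity)]
    have h2 : 8 * C * (1 + β) ≤ β * x := by
      have h3 : 8 * C * (1 + β) / β < x := hn.trans_le hxn
      rw [div_lt_iff₀ hβ0] at h3
      linarith
    have h4 : C * (x + 1) * (1 + β) ≤ β * x ^ 2 / 4 := by
      have h5 : C * (x + 1) * (1 + β) ≤ C * (2 * x) * (1 + β) := by
        apply mul_le_mul_of_nonneg_right _ (by positivity)
        apply mul_le_mul_of_nonneg_left _ hC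
        linarith
      have h6 : C * (2 * x) * (1 + β) = (8 * C * (1 + β)) * x / 4 := by ring
      have h7 : (8 * C * (1 + β)) * x / 4 ≤ (β * x) * x / 4 := by
        have := mul_le_mul_of_nonneg_right h2 (by positivity : 0 ≤ x)
        linarith
      calc _ ≤ _ := h5
        _ = _ := h6
        _ ≤ _ := h7
        _ = _ := by ring
    have h8 : a (2 * (n + 1)) ≤ C * (x + 1) + (x ^ 2 / 2 + C * (x + 1)) * β := h1
    calc a (2 * (n + 1)) ≤ C * (x + 1) + (x ^ 2 / 2 + C * (x + 1)) * β := h8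
      _ = C * (x + 1) * (1 + β) + β * x ^ 2 / 2 := by ring
      _ ≤ β * x ^ 2 / 4 + β * x ^ 2 / 2 := by linarith
      _ = 3 / 4 * β * x ^ 2 := by ring
  have iter : ∀ n : ℕ, ∃ r : ℕ, 1 ≤ r ∧
      a (2 * r) / (2 * r : ℝ) ^ 2 ≤ (3 / 4) ^ n * (a (2 * 1) / (2 * (1 : ℕ) : ℝ) ^ 2) := by
    intro n
    induction n with
    | zero => exact ⟨1, le_refl _, by rw [pow_zero, one_mul]⟩
    | succ n ih =>
      obtain ⟨r, hr, h⟩ := ih
      obtain ⟨r', hr', h'⟩ := step r hr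
      refine ⟨r', hr', h'.trans ?_⟩
      rw [pow_succ]
      calc 3 / 4 * (a (2 * r) / (2 * r : ℝ) ^ 2) ≤
          3 / 4 * ((3 / 4) ^ n * (a (2 * 1) / (2 * (1 : ℕ) : ℝ) ^ 2)) := by
            apply mul_le_mul_of_nonneg_left h (by norm_num)
        _ = _ := by ring
  set b0 : ℝ := a (2 * 1) / (2 * (1 : ℕ) : ℝ) ^ 2 with hb0
  have hb0pos : 0 < b0 := by
    have h1 := hlow (2 * 1) (by omega)
    have h2 : (0 : ℝ) < η * ((2 * 1 : ℕ) : ℝ) ^ 2 := by push_cast; positivity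
    have h3 : 0 < a (2 * 1) := h2.trans_le h1
    rw [hb0]
    positivity
  obtain ⟨n, hn⟩ := exists_pow_lt_of_lt_one (show 0 < η / b0 by positivity)
    (show (3 / 4 : ℝ) < 1 by norm_num)
  obtain ⟨r, hr, h⟩ := iter n
  have h1 := hlow (2 * r) (by omega)
  have hr1 : (1 : ℝ) ≤ r := by exact_mod_cast hr
  have h2 : η ≤ a (2 * r) / (2 * r : ℝ) ^ 2 := by
    rw [le_div_iff₀ (by positivity)]
    push_cast at h1
    exact h1
  have h3 : (3 / 4 : ℝ) ^ n * b0 < η := by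
    rwa [lt_div_iff₀ hb0pos] at hn
  linarith

end BU39
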