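import Pool.Agent.LibBU39.Prob
import Pool.Agent.LibBU39.Crit
import Pool.Agent.LibBU39.S04
import Pool.Agent.LibBU39.S21

/-!
TASK S22.  The local problem is not in `BAIRE(ℤ^n)`.

Let `u = Pi.single i 1`, `w = Pi.single j 1`, `i ≠ j`.  Suppose `prob u w P ∈ BAIRE n` and use
`crit`.  For a configuration `F` of the problem put `X (a, b) = (F (a • u + b • w)).1`; it is
in `GX P`.  A constant configuration contradicts `no_const`.  Otherwise `l1 ≠ l2`, `D ≥ 1`.
For `M ≥ D` the `2 ^ #B` maps `σ : B → Bool`, `B = {z | D |z|_1 ≤ M}`, give different patterns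
of `GX P` on `dia M` (the values at `D z`).  `#B ≥ (M / D)²`-ish (e.g. the `z` with
`0 ≤ z.1, z.2 ≤ M / (2 D)`), so `cnt (GX P) (dia M) ≥ 2 ^ (η M²)` for all `M ≥ 1` with
`η = 1 / (16 D²)` or smaller (for small `M` use the single point `z = 0`, two patterns, so
`η M² ≤ 1`).  Contradiction to `entropy_zero`.
-/

namespace BU39

open Classical in
private theorem S22_e {n : ℕ} {i j : Fin n} (hij : i ≠ j) (a b : ℤ) :
    (a • (Pi.single i 1 : Fin n → ℤ) + b • (Pi.single j 1 : Fin n → ℤ)) i = a ∧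
      (a • (Pi.single i 1 : Fin n → ℤ) + b • (Pi.single j 1 : Fin n → ℤ)) j = b := by
  constructor
  · rw [Pi.add_apply, Pi.smul_apply, Pi.smul_apply, Pi.single_eq_same, Pi.single_eq_of_ne hij]
    simp
  · rw [Pi.add_apply, Pi.smul_apply, Pi.smul_apply, Pi.single_eq_same, Pi.single_eq_of_ne hij.symm]
    simp

private theorem S22_GX (P : Par) {n : ℕ} {u w : Fin n → ℤ}
    {F : (Fin n → ℤ) → (prob u w P).Lbl} (hF : Obeys (prob u w P) F) :
    (fun z : V => (F (z.1 • u + z.2 • w)).1) ∈ GX P := by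
  intro z
  refine ⟨(F (z.1 • u + z.2 • w)).2, ?_⟩
  have h1 := hF (z.1 • u + z.2 • w)
  have h2 : Rule P (F (0 + (z.1 • u + z.2 • w))).1 (F (-u + (z.1 • u + z.2 • w))).1
      (F (-w + (z.1 • u + z.2 • w))).1 := h1
  have e0 : (0 : Fin n → ℤ) + (z.1 • u + z.2 • w) = z.1 • u + z.2 • w := zero_add _
  have e1' : -u + (z.1 • u + z.2 • w) = (z - e1).1 • u + (z - e1).2 • w := by
    have h3 : (z - e1).1 = z.1 - 1 := rfl
    have h4 : (z - e1).2 = z.2 := by
      change z.2 - 0 = z.2
      rw [sub_zero]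
    rw [h3, h4, sub_smul, one_smul]
    abel
  have e2' : -w + (z.1 • u + z.2 • w) = (z - e2).1 • u + (z - e2).2 • w := by
    have h3 : (z - e2).2 = z.2 - 1 := rfl
    have h4 : (z - e2).1 = z.1 := by
      change z.1 - 0 = z.1
      rw [sub_zero]
    rw [h3, h4, sub_smul, one_smul]
    abel
  rw [e0, e1', e2'] at h2
  exact h2

theorem not_baire (P : Par) {n : ℕ} {i j : Fin n} (hij : i ≠ j) :
    prob (Pi.single i 1) (Pi.single j 1) P ∉ BAIRE n := by
  classical
  intro hP
  have hn : 0 < n := lt_of_le_of_lt (Nat.zero_le _) i.2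
  rcases crit hn hP with ⟨l, hl⟩ | ⟨l1, l2, D, hne, hD, hind⟩
  · exact no_const P l.1 (S22_GX P hl)
  · -- the lower bound of the number of patterns
    obtain ⟨u, hu⟩ : ∃ u : Fin n → ℤ, u = Pi.single i 1 := ⟨_, rfl⟩
    obtain ⟨w, hw⟩ : ∃ w : Fin n → ℤ, w = Pi.single j 1 := ⟨_, rfl⟩
    have he : ∀ a b : ℤ, (a • u + b • w) i = a ∧ (a • u + b • w) j = b := by
      intro a b
      rw [hu, hw]
      exact S22_e hij a b
    have hlow : ∀ M : ℕ, 2 ^ ((M / (2 * D) + 1) ^ 2) ≤ cnt (GX P) (dia M) := by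
      intro M
      obtain ⟨k, hk⟩ : ∃ k, k = M / (2 * D) := ⟨_, rfl⟩
      obtain ⟨Bf, hBf⟩ : ∃ Bf : Finset (ℕ × ℕ), Bf = Finset.range (k + 1) ×ˢ Finset.range (k + 1) :=
        ⟨_, rfl⟩
      have hcard : Bf.card = (k + 1) ^ 2 := by
        rw [hBf, Finset.card_product, Finset.card_range, pow_two]
      have hex : ∀ T : Finset (ℕ × ℕ), ∃ F : (Fin n → ℤ) → (prob (Pi.single i 1) (Pi.single j 1) P).Lbl,
          Obeys (prob (Pi.single i 1) (Pi.single j 1) P) F ∧ ∀ z ∈ Bf,
            F (D • ((z.1 : ℤ) • u + (z.2 : ℤ) • w)) = if z ∈ T then l1 else l2 := by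
        intro T
        obtain ⟨F, hF, hF'⟩ := hind (Bf.image fun z => (z.1 : ℤ) • u + (z.2 : ℤ) • w)
          (fun v => decide (((v i).toNat, (v j).toNat) ∈ T))
        refine ⟨F, hF, fun z hz => ?_⟩
        rw [hF' _ (Finset.mem_image_of_mem _ hz)]
        rw [(he _ _).1, (he _ _).2]
        simp
      choose F hF hF' using hex
      have hmem : ∀ z ∈ Bf, ((D * z.1 : ℤ), (D * z.2 : ℤ)) ∈ dia M := by
        intro z hz
        rw [hBf, Finset.mem_product, Finset.mem_range, Finset.mem_range] at hz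
        have h1 : z.1 ≤ k := by omega
        have h2 : z.2 ≤ k := by omega
        have h3 : 2 * D * k ≤ M := by
          rw [hk]
          exact Nat.mul_div_le M (2 * D)
        have h4 : D * z.1 ≤ D * k := Nat.mul_le_mul_left D h1
        have h5 : D * z.2 ≤ D * k := Nat.mul_le_mul_left D h2
        have h6 : D * z.1 + D * z.2 ≤ M := by nlinarith
        change |(D * z.1 : ℤ)| + |(D * z.2 : ℤ)| ≤ M
        rw [abs_of_nonneg (by positivity), abs_of_nonneg (by positivity)]
        exact_mod_cast h6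
      have hfin : ((fun (X : V → Cell) (z : dia M) => X z) '' GX P).Finite :=
        pat_finite (finite_cell P.K) (dia_finite M) fun X hX z _ => (hX z).1
      have hval : ∀ T : Finset (ℕ × ℕ), ∀ z ∈ Bf,
          (F T ((D * z.1 : ℤ) • u + (D * z.2 : ℤ) • w)) = if z ∈ T then l1 else l2 := by
        intro T z hz
        rw [← hF' T z hz]
        congr 1
        rw [smul_add, ← Nat.cast_smul_eq_nsmul ℤ, ← Nat.cast_smul_eq_nsmul ℤ, smul_smul, smul_smul]
      have h1 : ((Bf.powerset : Finset (Finset (ℕ × ℕ))) : Set (Finset (ℕ × ℕ))).ncard ≤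
          ((fun (X : V → Cell) (z : dia M) => X z) '' GX P).ncard := by
        refine Set.ncard_le_ncard_of_injOn
          (fun T => fun z : dia M => (F T (z.1.1 • u + z.1.2 • w)).1) ?_ ?_ hfin
        · intro T _
          refine ⟨fun z : V => (F T (z.1 • u + z.2 • w)).1, ?_, rfl⟩
          have h2 := S22_GX P (hF T)
          rw [← hu, ← hw] at h2
          exact h2
        · intro T hT T' hT' hTT'
          rw [Finset.coe_powerset, Set.mem_preimage, Set.mem_powerset_iff, Finset.coe_subset]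
            at hT hT'
          ext z
          by_cases hz : z ∈ Bf
          · have h2 := congrFun hTT' ⟨_, hmem z hz⟩
            have h3 : (F T ((D * z.1 : ℤ) • u + (D * z.2 : ℤ) • w)) =
                (F T' ((D * z.1 : ℤ) • u + (D * z.2 : ℤ) • w)) := Subtype.ext h2
            rw [hval T z hz, hval T' z hz] at h3
            by_cases h4 : z ∈ T
            · by_cases h5 : z ∈ T'
              · exact ⟨fun _ => h5, fun _ => h4⟩
              · rw [if_pos h4, if_neg h5] at h3
                exact absurd h3 hne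
            · by_cases h5 : z ∈ T'
              · rw [if_neg h4, if_pos h5] at h3
                exact absurd h3.symm hne
              · exact ⟨fun h6 => absurd h6 h4, fun h6 => absurd h6 h5⟩
          · exact ⟨fun h6 => absurd (hT h6) hz, fun h6 => absurd (hT' h6) hz⟩
      rw [Set.ncard_coe_finset, Finset.card_powerset, hcard] at h1
      rw [← hk]
      exact h1
    have hDR : (0 : ℝ) < D := by exact_mod_cast hD
    obtain ⟨M, hM, hlt⟩ := entropy_zero P (1 / (4 * (D : ℝ) ^ 2)) (by positivity)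
    have h1 : (2 : ℝ) ^ ((M / (2 * D) + 1) ^ 2 : ℕ) ≤ cnt (GX P) (dia M) := by
      exact_mod_cast hlow M
    have h2 : (M : ℝ) / (2 * D) ≤ ((M / (2 * D) + 1 : ℕ) : ℝ) := by
      have h3 : M < 2 * D * (M / (2 * D) + 1) := Nat.lt_mul_div_succ M (by omega)
      rw [div_le_iff₀ (by positivity)]
      have h4 : (M : ℝ) < 2 * D * ((M / (2 * D) + 1 : ℕ) : ℝ) := by exact_mod_cast h3
      linarith
    have h3 : 1 / (4 * (D : ℝ) ^ 2) * (M : ℝ) ^ 2 ≤ (((M / (2 * D) + 1) ^ 2 : ℕ) : ℝ) := by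
      have h4 : 1 / (4 * (D : ℝ) ^ 2) * (M : ℝ) ^ 2 = ((M : ℝ) / (2 * D)) ^ 2 := by
        field_simp
        ring
      rw [h4]
      push_cast
      push_cast at h2
      exact pow_le_pow_left₀ (by positivity) h2 2
    have h5 : (2 : ℝ) ^ (1 / (4 * (D : ℝ) ^ 2) * (M : ℝ) ^ 2) ≤
        (2 : ℝ) ^ ((M / (2 * D) + 1) ^ 2 : ℕ) := by
      rw [← Real.rpow_natCast 2 ((M / (2 * D) + 1) ^ 2)]
      exact Real.rpow_le_rpow_of_exponent_le one_le_two h3
    exact absurd hlt (not_lt.2 (h5.trans h1))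

end BU39
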