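import Pool.Agent.LibBU39.L07
import Pool.Agent.LibBU39.S22
import Pool.Agent.LibBU39.Circ

/-!
Rotations of the circle by independent numbers are not Baire-universal.
-/

namespace BU39


theorem indep_sum {n : ℕ} {α : Fin n → ℝ} (h : Indep α) {g : Fin n → ℤ} {N : ℤ}
    (hN : ∑ i, (g i : ℝ) * α i = N) : g = 0 := by
  unfold Indep at h
  rw [Fintype.linearIndependent_iff] at h
  have h2 := h (Fin.cons (-(N : ℚ)) fun i => (g i : ℚ)) (by
    rw [Fin.sum_univ_succ]
    simp only [Fin.cons_zero, Fin.cons_succ]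
    rw [Rat.smul_def, mul_one]
    have : ∑ i, ((g i : ℚ) • α i) = ∑ i, (g i : ℝ) * α i := by
      refine Finset.sum_congr rfl fun i _ => ?_
      rw [Rat.smul_def]
      push_cast
      ring
    rw [this, hN]
    simp)
  funext i
  have := h2 i.succ
  simp only [Fin.cons_succ] at this
  exact_mod_cast this

theorem rot_free {n : ℕ} {α : Fin n → ℝ} (h : Indep α) : (rot α).Free := by
  intro g x hx
  have h1 : ((∑ i, (g i : ℝ) * α i : ℝ) : UnitAddCircle) = 0 := by
    have : x + ((∑ i, (g i : ℝ) * α i : ℝ) : UnitAddCircle) = x := hx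
    simpa using this
  rw [AddCircle.coe_eq_zero_iff] at h1
  obtain ⟨N, hN⟩ := h1
  refine indep_sum h (N := N) ?_
  rw [← hN]
  simp

theorem coe_fract (a : ℝ) : ((Int.fract a : ℝ) : UnitAddCircle) = (a : UnitAddCircle) := by
  rw [← sub_eq_zero, ← AddCircle.coe_sub, AddCircle.coe_eq_zero_iff]
  refine ⟨-⌊a⌋, ?_⟩
  unfold Int.fract
  simp

/-- Two of the rotation numbers, reduced modulo 1. -/
theorem isRN_of_indep {n : ℕ} {α : Fin n → ℝ} (h : Indep α) {i j : Fin n} (hij : i ≠ j) :
    IsRN (Int.fract (α i)) (Int.fract (α j)) := by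
  have key : ∀ a b c : ℤ, (a : ℝ) * α i + b * α j = c → a = 0 ∧ b = 0 := by
    intro a b c habc
    have h1 := indep_sum h (g := Pi.single i a + Pi.single j b) (N := c) (by
      rw [← habc]
      have : ∀ k, (((Pi.single i a + Pi.single j b : Fin n → ℤ) k : ℤ) : ℝ) * α k =
          (if k = i then (a : ℝ) * α k else 0) + (if k = j then (b : ℝ) * α k else 0) := by
        intro k
        rw [Pi.add_apply, Pi.single_apply, Pi.single_apply]
        push_cast
        split_ifs <;> ring
      rw [Finset.sum_congr rfl fun k _ => this k, Finset.sum_add_distrib]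
      simp)
    have h2 := congrFun h1 i
    have h3 := congrFun h1 j
    rw [Pi.add_apply, Pi.single_eq_same, Pi.single_eq_of_ne hij, Pi.zero_apply, add_zero] at h2
    rw [Pi.add_apply, Pi.single_eq_same, Pi.single_eq_of_ne hij.symm, Pi.zero_apply, zero_add] at h3
    exact ⟨h2, h3⟩
  have pos : ∀ k, (k = i ∨ k = j) → 0 < Int.fract (α k) := by
    intro k hk
    refine (Int.fract_nonneg _).lt_of_ne fun h0 => ?_
    have h1 : α k = ⌊α k⌋ := by
      have := Int.self_sub_floor (α k)
      linarith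
    rcases hk with rfl | rfl
    · have := (key 1 0 ⌊α k⌋ (by rw [← h1]; push_cast; ring)).1
      exact one_ne_zero this
    · have := (key 0 1 ⌊α k⌋ (by rw [← h1]; push_cast; ring)).2
      exact one_ne_zero this
  refine ⟨pos i (Or.inl rfl), Int.fract_lt_one _, pos j (Or.inr rfl), Int.fract_lt_one _, ?_⟩
  intro a b c habc
  refine key a b (c + a * ⌊α i⌋ + b * ⌊α j⌋) ?_
  unfold Int.fract at habc
  push_cast
  linarith

/-- Main theorem. -/
theorem uniform (n : ℕ) (hn : 2 ≤ n) : ∃ P : LCL n, P ∉ BAIRE n ∧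
    ∀ α : Fin n → ℝ, Indep α → (rot α).BaireSolves P := by
  obtain ⟨P, hP⟩ := exists_hierarchies
  have hij : (⟨0, by omega⟩ : Fin n) ≠ ⟨1, by omega⟩ := by
    intro h
    have := congrArg Fin.val h
    simp at this
  refine ⟨prob (Pi.single ⟨0, by omega⟩ 1) (Pi.single ⟨1, by omega⟩ 1) P, not_baire P hij, ?_⟩
  intro α hα
  have hR := isRN_of_indep hα hij
  obtain ⟨H, hH⟩ := hP _ _ hR.x0 hR.x1 hR.y0 hR.y1 hR.ind
  refine circle_solves H ?_ ?_ (rot_free hα)
  · rw [hH]
    exact coe_fract _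
  · rw [hH]
    exact coe_fract _

end BU39
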