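import Pool.Agent.LibBU39.FrA

/-!
Task F01.  Existence of the minimum.  `T = {(z, k) | nz (rv z) < C ^ 2, 0 < val x y z k ≤ x}` is
finite (`|z.1|, |z.2| ≤ C`, then `k` is between `val`-bounds: `z.1 x + z.2 y - x ≤ k < z.1 x +
z.2 y`, so `|k| ≤ 2 C + 1`) and contains `((1, 0), 0)`.  Take a minimum of `val`
(`Set.exists_min_image` or `Set.Finite.exists_minimal_wrt`).  `s ≠ 0`: otherwise the value is an
integer in `(0, x]`, `x < 1`.  (`Ind2` is not needed.)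
-/

namespace BU39.Fr

theorem min_exists {x y C : ℝ} (hx : 0 < x) (hx1 : x < 1) (hy : 0 < y) (hy1 : y < 1)
    (hC : 2 ≤ C) : ∃ (s : V) (cs : ℤ), IsMin x y C s cs := by
  let T : Set (V × ℤ) := {p | nz (rv p.1) < C ^ 2 ∧ 0 < val x y p.1 p.2 ∧ val x y p.1 p.2 ≤ x}
  have hfin : T.Finite := by
    refine Set.Finite.subset (((Set.finite_Icc (-⌈C⌉) ⌈C⌉).prod
      (Set.finite_Icc (-⌈C⌉) ⌈C⌉)).prod (Set.finite_Icc (-(2 * ⌈C⌉ + 1)) (2 * ⌈C⌉ + 1))) ?_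
    rintro ⟨⟨z1, z2⟩, k⟩ ⟨h1, h2, h3⟩
    simp only [nz, rv, val] at h1 h2 h3
    have hc : C ≤ (⌈C⌉ : ℝ) := Int.le_ceil C
    have hC0 : 0 ≤ C := by linarith
    have a1 : |(z1 : ℝ)| < C := abs_lt_of_sq_lt_sq (by nlinarith [sq_nonneg (z2 : ℝ)]) hC0
    have a2 : |(z2 : ℝ)| < C := abs_lt_of_sq_lt_sq (by nlinarith [sq_nonneg (z1 : ℝ)]) hC0
    obtain ⟨b1, b2⟩ := abs_lt.1 a1
    obtain ⟨b3, b4⟩ := abs_lt.1 a2
    have c1 : (z1 : ℝ) * x ≤ C := by nlinarith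
    have c2 : -C ≤ (z1 : ℝ) * x := by nlinarith
    have c3 : (z2 : ℝ) * y ≤ C := by nlinarith
    have c4 : -C ≤ (z2 : ℝ) * y := by nlinarith
    simp only [Set.mem_prod, Set.mem_Icc]
    refine ⟨⟨⟨?_, ?_⟩, ⟨?_, ?_⟩⟩, ⟨?_, ?_⟩⟩
    · have : (-(⌈C⌉ : ℝ)) ≤ z1 := by linarith
      exact_mod_cast this
    · have : (z1 : ℝ) ≤ ⌈C⌉ := by linarith
      exact_mod_cast this
    · have : (-(⌈C⌉ : ℝ)) ≤ z2 := by linarith
      exact_mod_cast this
    · have : (z2 : ℝ) ≤ ⌈C⌉ := by linarith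
      exact_mod_cast this
    · have : (-(2 * (⌈C⌉ : ℝ) + 1)) ≤ k := by linarith
      exact_mod_cast this
    · have : (k : ℝ) ≤ 2 * (⌈C⌉ : ℝ) + 1 := by linarith
      exact_mod_cast this
  have hne : T.Nonempty := by
    refine ⟨((1, 0), 0), ?_, ?_, ?_⟩
    · simp only [nz, rv]
      push_cast
      nlinarith
    · simp only [val]
      push_cast
      linarith
    · simp only [val]
      push_cast
      linarith
  obtain ⟨⟨s, cs⟩, hs, hmin⟩ := Set.exists_min_image T (fun p => val x y p.1 p.2) hfin hne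
  obtain ⟨h1, h2, h3⟩ := hs
  refine ⟨s, cs, ?_, h1, h2, lt_of_le_of_lt h3 hx1, ?_⟩
  · rintro rfl
    simp only [val, Prod.fst_zero, Prod.snd_zero, Int.cast_zero, zero_mul, add_zero,
      zero_sub] at h2 h3
    have e1 : (0 : ℝ) < ((-cs : ℤ) : ℝ) := by push_cast; exact h2
    have e2 : ((-cs : ℤ) : ℝ) < ((1 : ℤ) : ℝ) := by push_cast; linarith
    have e3 : (0 : ℤ) < -cs := by exact_mod_cast e1
    have e4 : -cs < 1 := by exact_mod_cast e2
    omega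
  · intro z k hz hk
    rcases le_or_gt (val x y z k) x with h | h
    · exact hmin (z, k) ⟨hz, hk, h⟩
    · exact h3.trans h.le

end BU39.Fr
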