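import Pool.Agent.LibBU39.Fr01

/-!
Task F02.  Pigeonhole for the scale.  Let `C k = C0 (65/64) ^ k`, `k ≤ 37`; `(65/64)^37 ≤ 2`
(`norm_num`).  Take `(s k, cs k)` with `IsMin x y (C k) (s k) (cs k)`.  If for some `k` in
`1, ..., 37` one has `(65/64)^2 nz (rv (s k)) ≤ (C k)^2` we are done.  Otherwise
`nz (rv (s k)) > (C (k-1))^2` for `k = 1, ..., 37`.  Let `1 ≤ j < k ≤ 37`: the values satisfy
`val (s k) ≤ val (s j)` (minimality at `k`, `C j ≤ C k`).  They are not equal: if equal then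
`s j = s k` by `Ind2`, but `nz (s k) > (C (k-1))^2 ≥ (C j)^2 > nz (s j)`.  If
`nz (rv (s j - s k)) < (C j)^2`, then minimality at `j` applied to `(s j - s k, cs j - cs k)`, of
positive value `val (s j) - val (s k) < val (s j)`, is a contradiction.  So
`nz (rv (s j - s k)) ≥ (C j)^2 ≥ C0^2` for all `j ≠ k` in `1..37`.  But all the points `s k` are
in the square `[-2 C0, 2 C0)^2`; divide it into `6 * 6 = 36` squares of side `2 C0 / 3`
(map `k ↦ (⌊(s k).1 / (2 C0 / 3)⌋, ⌊(s k).2 / (2 C0 / 3)⌋) ∈ [-3, 2]^2`); two of the 37 points are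
in the same square, at squared distance `≤ 2 (2 C0 / 3)^2 < C0^2`.  Contradiction.
-/

namespace BU39.Fr

theorem F02_val_sub (x y : ℝ) (z w : V) (k l : ℤ) :
    val x y (z - w) (k - l) = val x y z k - val x y w l := by
  unfold val
  push_cast [Prod.fst_sub, Prod.snd_sub]
  ring

theorem F02_nz_coord {z : V} {A : ℝ} (hA : 0 < A) (h : nz (rv z) < A ^ 2) :
    (-A < (z.1 : ℝ) ∧ (z.1 : ℝ) < A) ∧ (-A < (z.2 : ℝ) ∧ (z.2 : ℝ) < A) := by
  unfold nz rv at h
  have h' : (z.1 : ℝ) ^ 2 + (z.2 : ℝ) ^ 2 < A ^ 2 := h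
  have h1 : (z.1 : ℝ) ^ 2 < A ^ 2 := by nlinarith [sq_nonneg (z.2 : ℝ)]
  have h2 : (z.2 : ℝ) ^ 2 < A ^ 2 := by nlinarith [sq_nonneg (z.1 : ℝ)]
  have h3 := abs_lt_of_sq_lt_sq h1 hA.le
  have h4 := abs_lt_of_sq_lt_sq h2 hA.le
  exact ⟨abs_lt.mp h3, abs_lt.mp h4⟩

theorem F02_floor {A u : ℝ} (hA : 0 < A) (h1 : -(3 * A) < u) (h2 : u < 3 * A) :
    ⌊u / A⌋ ∈ Finset.Icc (-3 : ℤ) 2 := by
  rw [Finset.mem_Icc]
  constructor
  · rw [Int.le_floor, le_div_iff₀ hA]
    push_cast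
    linarith
  · have : ⌊u / A⌋ < 3 := by
      rw [Int.floor_lt, div_lt_iff₀ hA]
      push_cast
      linarith
    omega

theorem F02_floor_eq {A u v : ℝ} (hA : 0 < A) (h : ⌊u / A⌋ = ⌊v / A⌋) : (u - v) ^ 2 < A ^ 2 := by
  have h1 := Int.floor_le (u / A)
  have h2 := Int.lt_floor_add_one (u / A)
  have h3 := Int.floor_le (v / A)
  have h4 := Int.lt_floor_add_one (v / A)
  rw [h] at h1 h2
  have h5 : u / A - v / A < 1 := by linarith
  have h6 : -1 < u / A - v / A := by linarith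
  rw [← sub_div] at h5 h6
  rw [div_lt_one hA] at h5
  rw [lt_div_iff₀ hA] at h6
  apply sq_lt_sq.mpr
  rw [abs_of_pos hA, abs_lt]
  constructor <;> linarith

theorem scale {x y C0 : ℝ} (h : Ind2 x y) (hx : 0 < x) (hx1 : x < 1) (hy : 0 < y) (hy1 : y < 1)
    (hC : 2 ≤ C0) : ∃ (C : ℝ) (s : V) (cs : ℤ), C0 ≤ C ∧ C ≤ 2 * C0 ∧ IsSc x y C s cs := by
  by_contra hcon
  push Not at hcon
  have hC0 : 0 < C0 := by linarith
  set C : ℕ → ℝ := fun k => C0 * (65 / 64 : ℝ) ^ k with hCdef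
  have hCpos : ∀ k, 0 < C k := fun k => by
    simp only [hCdef]
    positivity
  have hCmono : ∀ {j k : ℕ}, j ≤ k → C j ≤ C k := by
    intro j k hjk
    simp only [hCdef]
    exact mul_le_mul_of_nonneg_left (pow_le_pow_right₀ (by norm_num) hjk) hC0.le
  have hC00 : C 0 = C0 := by simp [hCdef]
  have hC1 : ∀ k, C0 ≤ C k := fun k => by
    rw [← hC00]
    exact hCmono (Nat.zero_le k)
  have hC2 : ∀ k, k ≤ 37 → C k ≤ 2 * C0 := by
    intro k hk
    refine (hCmono hk).trans ?_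
    simp only [hCdef]
    have : ((65 : ℝ) / 64) ^ 37 ≤ 2 := by norm_num
    nlinarith
  have hCs : ∀ k, C (k + 1) = C k * (65 / 64) := by
    intro k
    simp only [hCdef]
    rw [pow_succ]
    ring
  choose s cs hmin using fun k : ℕ => min_exists hx hx1 hy hy1 (hC.trans (hC1 k))
  have hbig : ∀ m, m ≤ 36 → (C m) ^ 2 < nz (rv (s (m + 1))) := by
    intro m hm
    by_contra hle
    push Not at hle
    apply hcon (C (m + 1)) (s (m + 1)) (cs (m + 1)) (hC1 _) (hC2 _ (by omega))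
    refine ⟨hmin (m + 1), ?_⟩
    rw [hCs m]
    nlinarith
  have hsep : ∀ m m', m < m' → m' ≤ 36 → C0 ^ 2 ≤ nz (rv (s (m + 1) - s (m' + 1))) := by
    intro m m' hmm hm'
    have h1 := (hmin (m + 1)).sC
    have h2 := hbig m' hm'
    have h3 : C (m + 1) ≤ C m' := hCmono hmm
    have h4 : (C (m + 1)) ^ 2 ≤ (C m') ^ 2 := pow_le_pow_left₀ (hCpos _).le h3 2
    have h5 : (C (m + 1)) ^ 2 ≤ (C (m' + 1)) ^ 2 :=
      pow_le_pow_left₀ (hCpos _).le (hCmono (by omega)) 2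
    have h6 := (hmin (m' + 1)).mn (s (m + 1)) (cs (m + 1)) (by linarith) (hmin (m + 1)).p0
    have h7 : val x y (s (m' + 1)) (cs (m' + 1)) ≠ val x y (s (m + 1)) (cs (m + 1)) := by
      intro heq
      have e1 := F02_val_sub x y (s (m' + 1)) (s (m + 1)) (cs (m' + 1)) (cs (m + 1))
      rw [heq, sub_self] at e1
      unfold val at e1
      have e2 := h (s (m' + 1) - s (m + 1)).1 (s (m' + 1) - s (m + 1)).2
        (cs (m' + 1) - cs (m + 1)) (by linarith)
      have e3 : s (m' + 1) = s (m + 1) := by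
        have a1 := e2.1
        have a2 := e2.2
        rw [Prod.fst_sub] at a1
        rw [Prod.snd_sub] at a2
        exact Prod.ext (by omega) (by omega)
      rw [e3] at h2
      linarith
    have h8 : val x y (s (m' + 1)) (cs (m' + 1)) < val x y (s (m + 1)) (cs (m + 1)) :=
      lt_of_le_of_ne h6 h7
    by_contra hlt
    push Not at hlt
    have h9 : nz (rv (s (m + 1) - s (m' + 1))) < (C (m + 1)) ^ 2 := by
      have : C0 ^ 2 ≤ (C (m + 1)) ^ 2 := pow_le_pow_left₀ hC0.le (hC1 _) 2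
      linarith
    have h10 := (hmin (m + 1)).mn (s (m + 1) - s (m' + 1)) (cs (m + 1) - cs (m' + 1)) h9
      (by rw [F02_val_sub]; linarith)
    rw [F02_val_sub] at h10
    have h11 := (hmin (m' + 1)).p0
    linarith
  -- pigeonhole
  set A : ℝ := 2 * C0 / 3 with hA
  have hA0 : 0 < A := by positivity
  have hmap : ∀ m ∈ Finset.range 37,
      ((⌊((s (m + 1)).1 : ℝ) / A⌋, ⌊((s (m + 1)).2 : ℝ) / A⌋) : ℤ × ℤ) ∈
        Finset.Icc (-3 : ℤ) 2 ×ˢ Finset.Icc (-3 : ℤ) 2 := by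
    intro m hm
    rw [Finset.mem_range] at hm
    have h1 := (hmin (m + 1)).sC
    have h2 := hC2 (m + 1) (by omega)
    have h3 : (C (m + 1)) ^ 2 ≤ (2 * C0) ^ 2 := pow_le_pow_left₀ (hCpos _).le h2 2
    obtain ⟨⟨a1, a2⟩, a3, a4⟩ := F02_nz_coord (A := 2 * C0) (by positivity)
      (h1.trans_le h3)
    rw [Finset.mem_product]
    exact ⟨F02_floor hA0 (by rw [hA]; linarith) (by rw [hA]; linarith),
      F02_floor hA0 (by rw [hA]; linarith) (by rw [hA]; linarith)⟩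
  obtain ⟨m, hm, m', hm', hne, heq⟩ := Finset.exists_ne_map_eq_of_card_lt_of_maps_to
    (s := Finset.range 37) (t := Finset.Icc (-3 : ℤ) 2 ×ˢ Finset.Icc (-3 : ℤ) 2)
    (by decide) hmap
  rw [Finset.mem_range] at hm hm'
  simp only [Prod.mk.injEq] at heq
  have b1 := F02_floor_eq hA0 heq.1
  have b2 := F02_floor_eq hA0 heq.2
  have hfin : ∀ a b : V, (((a.1 : ℝ) - b.1) ^ 2 < A ^ 2) → (((a.2 : ℝ) - b.2) ^ 2 < A ^ 2) →
      nz (rv (a - b)) < C0 ^ 2 := by
    intro a b h1 h2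
    unfold nz rv
    show (((a - b).1 : ℤ) : ℝ) ^ 2 + (((a - b).2 : ℤ) : ℝ) ^ 2 < C0 ^ 2
    rw [Prod.fst_sub, Prod.snd_sub]
    push_cast
    rw [hA] at h1 h2
    nlinarith
  rcases lt_or_gt_of_ne hne with hlt | hlt
  · have h1 := hsep m m' hlt (by omega)
    have h2 := hfin _ _ b1 b2
    linarith
  · have h1 := hsep m' m hlt (by omega)
    have h2 := hfin (s (m' + 1)) (s (m + 1)) (by linarith) (by linarith)
    linarith

end BU39.Fr
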