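import Pool.Agent.LibBU39.FrA

/-!
Task F03.  Elementary facts about `lam` and `pj` (projection of `ℤ³` along `(s, cs)`).
`val` is additive, so `lam` and `pj` are additive; `lam s cs = 1`, `pj s cs = 0`.
* `small`: if `0 < |val z k| < val s cs` is not small ... : let `z ≠ 0 ∨ k ≠ 0` and
  `|val z k| < val s cs`.  If `z = 0` then `val = -k`, `|val| ≥ 1 > val s cs`, impossible.  If
  `z ≠ 0` then `val z k ≠ 0` by `Ind2`; if `nz (rv z) < C^2` then minimality for `(z, k)` or
  `(-z, -k)` gives `val s cs ≤ |val z k|`, contradiction.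
* `norm`: let `h = ⌊lam z k⌋`, `z' = z - h • s`, `k' = k - h * cs`; then `0 ≤ lam z' k' < 1` and
  `pj z' k' = pj z k ≠ 0`.  `(z', k') ≠ 0` because `pj 0 0 = 0`.  `lam z' k' ≠ 0`: otherwise
  `val z' k' = 0`, so `z' = 0` by `Ind2`, `k' = 0`.  `|val z' k'| < val s cs` and
  `|val (z' - s) (k' - cs)| < val s cs`, and `(z' - s, k' - cs) ≠ 0` (its `lam` is `< 0`), so
  `small` applies to both.
* `ker`: if `pj z k = 0`: with `h = ⌊lam z k⌋` and `z', k'` as above and `(z', k') ≠ 0`:
  `rv z' = lam' • rv s` with `0 ≤ lam' < 1`, so `nz (rv z') ≤ nz (rv s) < C^2`, and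
  `|val z' k'| < val s cs`: contradiction with `small`.
* `big`: `pj z k = rv z' - l • rv s` with `0 < l < 1` (normalised `z'`) so
  `nz (pj z k) = (1 - l) nz (rv z') + l nz (rv (z' - s)) - l (1 - l) nz (rv s)
   ≥ C^2 - C^2 / 4`.
-/

namespace BU39.Fr

variable {x y C : ℝ} {s : V} {cs : ℤ}

private lemma fr3_val_add (z w : V) (k l : ℤ) :
    val x y (z + w) (k + l) = val x y z k + val x y w l := by
  unfold val
  rw [Prod.fst_add, Prod.snd_add]
  push_cast
  ring

private lemma fr3_val_smul (i : ℤ) (z : V) (k : ℤ) :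
    val x y (i • z) (i * k) = i * val x y z k := by
  unfold val
  rw [Prod.smul_fst, Prod.smul_snd, smul_eq_mul, smul_eq_mul]
  push_cast
  ring

private lemma fr3_val_neg (z : V) (k : ℤ) : val x y (-z) (-k) = -val x y z k := by
  unfold val
  rw [Prod.fst_neg, Prod.snd_neg]
  push_cast
  ring

private lemma fr3_nz_neg (z : V) : nz (rv (-z)) = nz (rv z) := by
  unfold nz rv
  rw [Prod.fst_neg, Prod.snd_neg]
  push_cast
  ring

theorem lam_add (z w : V) (k l : ℤ) :
    lam x y s cs (z + w) (k + l) = lam x y s cs z k + lam x y s cs w l := by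
  unfold lam
  rw [fr3_val_add, add_div]

theorem pj_add (z w : V) (k l : ℤ) :
    pj x y s cs (z + w) (k + l) = pj x y s cs z k + pj x y s cs w l := by
  have h1 : rv (z + w) = rv z + rv w := by
    unfold rv
    ext <;> simp
  unfold pj
  rw [lam_add, h1, add_smul]
  abel

private lemma fr3_lam_smul (i : ℤ) (z : V) (k : ℤ) :
    lam x y s cs (i • z) (i * k) = i * lam x y s cs z k := by
  unfold lam
  rw [fr3_val_smul, mul_div_assoc]

theorem pj_smul (i : ℤ) (z : V) (k : ℤ) :
    pj x y s cs (i • z) (i * k) = (i : ℝ) • pj x y s cs z k := by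
  have h1 : rv (i • z) = (i : ℝ) • rv z := by
    unfold rv
    ext <;> simp
  unfold pj
  rw [fr3_lam_smul, h1, smul_sub, smul_smul]

private lemma fr3_lam_self (h : IsMin x y C s cs) : lam x y s cs s cs = 1 :=
  div_self h.p0.ne'

theorem pj_self (h : IsMin x y C s cs) : pj x y s cs s cs = 0 := by
  unfold pj
  rw [fr3_lam_self h, one_smul, sub_self]

private lemma fr3_val_ne (hI : Ind2 x y) {z : V} {k : ℤ} (hz : z ≠ 0) : val x y z k ≠ 0 := by
  intro h0
  obtain ⟨h1, h2⟩ := hI z.1 z.2 k (by unfold val at h0; linarith)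
  exact hz (Prod.ext h1 h2)

theorem small (hI : Ind2 x y) (h : IsMin x y C s cs) {z : V} {k : ℤ} (h0 : z ≠ 0 ∨ k ≠ 0)
    (hv : |val x y z k| < val x y s cs) : C ^ 2 ≤ nz (rv z) := by
  by_cases hz : z = 0
  · exfalso
    subst hz
    have hk : k ≠ 0 := by
      rcases h0 with h0 | h0
      · exact absurd rfl h0
      · exact h0
    have h1 : |val x y 0 k| = |(k : ℝ)| := by
      unfold val
      simp
    have h2 : (1 : ℝ) ≤ |(k : ℝ)| := by
      have := Int.one_le_abs hk
      exact_mod_cast this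
    have := h.p1
    linarith
  · by_contra hcon
    push Not at hcon
    rcases lt_or_gt_of_ne (fr3_val_ne (k := k) hI hz) with h1 | h1
    · have h2 := h.mn (-z) (-k) (by rw [fr3_nz_neg]; exact hcon) (by rw [fr3_val_neg]; linarith)
      rw [fr3_val_neg] at h2
      rw [abs_of_neg h1] at hv
      linarith
    · have h2 := h.mn z k hcon h1
      rw [abs_of_pos h1] at hv
      linarith

private lemma fr3_sub (h : IsMin x y C s cs) (z : V) (k i : ℤ) :
    lam x y s cs (z - i • s) (k - i * cs) = lam x y s cs z k - i ∧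
    pj x y s cs (z - i • s) (k - i * cs) = pj x y s cs z k := by
  have e1 : z - i • s = z + (-i) • s := by rw [neg_smul, sub_eq_add_neg]
  have e2 : k - i * cs = k + (-i) * cs := by ring
  constructor
  · rw [e1, e2, lam_add, fr3_lam_smul, fr3_lam_self h]
    push_cast
    ring
  · rw [e1, e2, pj_add, pj_smul, pj_self h, smul_zero, add_zero]

private lemma fr3_abs_val (h : IsMin x y C s cs) (z : V) (k : ℤ)
    (hl : |lam x y s cs z k| < 1) : |val x y z k| < val x y s cs := by
  have hp := h.p0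
  unfold lam at hl
  rw [abs_div, abs_of_pos hp, div_lt_one hp] at hl
  exact hl

private lemma fr3_pj_zero : pj x y s cs 0 0 = 0 := by
  unfold pj lam val rv
  ext <;> simp

/-- Normalised lift. -/
theorem norm (hI : Ind2 x y) (h : IsMin x y C s cs) {z : V} {k : ℤ}
    (h0 : pj x y s cs z k ≠ 0) : ∃ h : ℤ,
    0 < lam x y s cs (z - h • s) (k - h * cs) ∧ lam x y s cs (z - h • s) (k - h * cs) < 1 ∧
    pj x y s cs (z - h • s) (k - h * cs) = pj x y s cs z k ∧
    C ^ 2 ≤ nz (rv (z - h • s)) ∧ C ^ 2 ≤ nz (rv (z - h • s - s)) := by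
  refine ⟨⌊lam x y s cs z k⌋, ?_⟩
  set i : ℤ := ⌊lam x y s cs z k⌋ with hi
  obtain ⟨e1, e2⟩ := fr3_sub h z k i
  have hl0 : 0 ≤ lam x y s cs (z - i • s) (k - i * cs) := by
    rw [e1, hi]; linarith [Int.floor_le (lam x y s cs z k)]
  have hl1 : lam x y s cs (z - i • s) (k - i * cs) < 1 := by
    rw [e1, hi]; linarith [Int.lt_floor_add_one (lam x y s cs z k)]
  have hne : z - i • s ≠ 0 ∨ k - i * cs ≠ 0 := by
    by_contra hcon
    push Not at hcon
    rw [← e2, hcon.1, hcon.2] at h0
    exact h0 fr3_pj_zero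
  have hpos : 0 < lam x y s cs (z - i • s) (k - i * cs) := by
    rcases hl0.lt_or_eq with h1 | h1
    · exact h1
    · exfalso
      have h2 : val x y (z - i • s) (k - i * cs) = 0 := by
        have h3 : lam x y s cs (z - i • s) (k - i * cs) = 0 := h1.symm
        unfold lam at h3
        rcases div_eq_zero_iff.mp h3 with h4 | h4
        · exact h4
        · exact absurd h4 h.p0.ne'
      by_cases hz : z - i • s = 0
      · have hk : k - i * cs ≠ 0 := by
          rcases hne with h4 | h4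
          · exact absurd hz h4
          · exact h4
        rw [hz] at h2
        apply hk
        unfold val at h2
        have h5 : ((k - i * cs : ℤ) : ℝ) = 0 := by
          simp only [Prod.fst_zero, Prod.snd_zero, Int.cast_zero, zero_mul, add_zero,
            zero_sub] at h2
          linarith
        exact_mod_cast h5
      · exact fr3_val_ne hI hz h2
  refine ⟨hpos, hl1, e2, ?_, ?_⟩
  · exact small hI h hne (fr3_abs_val h _ _ (by rw [abs_of_pos hpos]; exact hl1))
  · have e3 := fr3_sub h (z - i • s) (k - i * cs) 1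
    rw [one_smul, one_mul] at e3
    have hne' : z - i • s - s ≠ 0 ∨ k - i * cs - cs ≠ 0 := by
      by_contra hcon
      push Not at hcon
      rw [← e2, ← e3.2, hcon.1, hcon.2] at h0
      exact h0 fr3_pj_zero
    apply small hI h hne' (fr3_abs_val h _ _ _)
    rw [e3.1]
    push_cast
    rw [abs_lt]
    constructor <;> linarith

private lemma fr3_nz_smul (l : ℝ) (a : ℝ × ℝ) : nz (l • a) = l ^ 2 * nz a := by
  unfold nz
  rw [Prod.smul_fst, Prod.smul_snd, smul_eq_mul, smul_eq_mul]
  ring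

private lemma fr3_nz_nonneg (a : ℝ × ℝ) : 0 ≤ nz a := by
  unfold nz
  positivity

theorem ker (hI : Ind2 x y) (h : IsMin x y C s cs) {z : V} {k : ℤ}
    (h0 : pj x y s cs z k = 0) : ∃ h : ℤ, z = h • s ∧ k = h * cs := by
  set i : ℤ := ⌊lam x y s cs z k⌋ with hi
  obtain ⟨e1, e2⟩ := fr3_sub h z k i
  have hl0 : 0 ≤ lam x y s cs (z - i • s) (k - i * cs) := by
    rw [e1, hi]; linarith [Int.floor_le (lam x y s cs z k)]
  have hl1 : lam x y s cs (z - i • s) (k - i * cs) < 1 := by
    rw [e1, hi]; linarith [Int.lt_floor_add_one (lam x y s cs z k)]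
  refine ⟨i, ?_⟩
  by_contra hcon
  have hne : z - i • s ≠ 0 ∨ k - i * cs ≠ 0 := by
    by_contra hc
    push Not at hc
    exact hcon ⟨sub_eq_zero.mp hc.1, sub_eq_zero.mp hc.2⟩
  have h1 := small hI h hne (fr3_abs_val h _ _ (by rw [abs_of_nonneg hl0]; exact hl1))
  have h2 : rv (z - i • s) = lam x y s cs (z - i • s) (k - i * cs) • rv s := by
    rw [h0] at e2
    unfold pj at e2
    exact sub_eq_zero.mp e2
  rw [h2, fr3_nz_smul] at h1
  have h3 := h.sC
  have h4 := fr3_nz_nonneg (rv s)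
  have h5 : lam x y s cs (z - i • s) (k - i * cs) ^ 2 ≤ 1 := pow_le_one₀ hl0 hl1.le
  nlinarith

theorem big (hI : Ind2 x y) (h : IsMin x y C s cs) {z : V} {k : ℤ}
    (h0 : pj x y s cs z k ≠ 0) : 3 / 4 * C ^ 2 ≤ nz (pj x y s cs z k) := by
  obtain ⟨i, hl0, hl1, e, hA, hB⟩ := norm hI h h0
  rw [← e]
  set l := lam x y s cs (z - i • s) (k - i * cs) with hl
  set w := z - i • s with hw
  have e1 : rv (w - s) = rv w - rv s := by
    unfold rv
    ext <;> simp
  have e2 : nz (pj x y s cs w (k - i * cs)) =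
      (1 - l) * nz (rv w) + l * nz (rv (w - s)) - l * (1 - l) * nz (rv s) := by
    rw [e1]
    unfold pj
    rw [← hl]
    unfold nz
    simp only [Prod.fst_sub, Prod.snd_sub, Prod.smul_fst, Prod.smul_snd, smul_eq_mul]
    ring
  rw [e2]
  have h3 := h.sC
  have h4 := fr3_nz_nonneg (rv s)
  have h5 : l * (1 - l) ≤ 1 / 4 := by nlinarith [sq_nonneg (l - 1 / 2)]
  have h6 : 0 ≤ l * (1 - l) := mul_nonneg hl0.le (by linarith)
  have h7 : l * (1 - l) * nz (rv s) ≤ 1 / 4 * C ^ 2 :=
    mul_le_mul h5 h3.le h4 (by norm_num)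
  have h8 : (1 - l) * C ^ 2 ≤ (1 - l) * nz (rv w) :=
    mul_le_mul_of_nonneg_left hA (by linarith)
  have h9 : l * C ^ 2 ≤ l * nz (rv (w - s)) := mul_le_mul_of_nonneg_left hB hl0.le
  nlinarith

end BU39.Fr
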