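import Pool.Agent.LibBU39.Fr03

/-!
Task F04.  Minimal vectors.  `S` is a non-empty set of pairs `(z, k)`, invariant under adding
`(s, cs)` and subtracting it.  Fix `g1 ∈ S`.  Every element of `S` has the same `pj` as an element
of `S` with `0 ≤ lam < 1` (subtract `⌊lam⌋` times `(s, cs)`; `S` is invariant by induction on the
integer).  The set of the `(z, k)` with `0 ≤ lam z k < 1` and `nz (pj z k) ≤ nz (pj g1)` is finite:
`rv z = pj z k + lam • rv s` is bounded (so `z` is in a finite set) and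
`k = z.1 x + z.2 y - lam * val s cs` is bounded.  Take a minimum on this finite set.
-/

namespace BU39.Fr

theorem F04_inv {s : V} {cs : ℤ} {S : Set (V × ℤ)}
    (h1 : ∀ g ∈ S, (g.1 + s, g.2 + cs) ∈ S)
    (h2 : ∀ g ∈ S, (g.1 - s, g.2 - cs) ∈ S) (h : ℤ) :
    ∀ g ∈ S, (g.1 - h • s, g.2 - h * cs) ∈ S := by
  induction h using Int.induction_on with
  | zero =>
    intro g hg
    simpa using hg
  | succ n ih =>
    intro g hg
    have h3 := h2 _ (ih g hg)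
    have e : ((g.1 - ((n : ℤ) + 1) • s, g.2 - ((n : ℤ) + 1) * cs) : V × ℤ) =
        ((g.1 - (n : ℤ) • s, g.2 - (n : ℤ) * cs).1 - s,
          (g.1 - (n : ℤ) • s, g.2 - (n : ℤ) * cs).2 - cs) := by
      refine Prod.ext ?_ ?_
      · simp only [add_smul, one_smul]
        abel
      · simp only
        ring
    rw [e]
    exact h3
  | pred n ih =>
    intro g hg
    have h3 := h1 _ (ih g hg)
    have e : ((g.1 - (-(n : ℤ) - 1) • s, g.2 - (-(n : ℤ) - 1) * cs) : V × ℤ) =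
        ((g.1 - (-(n : ℤ)) • s, g.2 - (-(n : ℤ)) * cs).1 + s,
          (g.1 - (-(n : ℤ)) • s, g.2 - (-(n : ℤ)) * cs).2 + cs) := by
      refine Prod.ext ?_ ?_
      · simp only [sub_smul, one_smul]
        abel
      · simp only
        ring
    rw [e]
    exact h3

theorem F04_lam_sub {x y C : ℝ} {s : V} {cs : ℤ} (h : IsMin x y C s cs) (z : V) (k n : ℤ) :
    lam x y s cs (z - n • s) (k - n * cs) = lam x y s cs z k - n := by
  have h0 := h.p0
  unfold lam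
  rw [eq_sub_iff_add_eq, div_add' _ _ _ h0.ne', div_left_inj' h0.ne']
  unfold val
  have a1 : (z - n • s).1 = z.1 - n * s.1 := by simp
  have a2 : (z - n • s).2 = z.2 - n * s.2 := by simp
  rw [a1, a2]
  push_cast
  ring

theorem F04_pj_sub {x y C : ℝ} {s : V} {cs : ℤ} (h : IsMin x y C s cs) (z : V) (k n : ℤ) :
    pj x y s cs (z - n • s) (k - n * cs) = pj x y s cs z k := by
  have e1 : z - n • s = z + (-n) • s := by rw [neg_smul, sub_eq_add_neg]
  have e2 : k - n * cs = k + (-n) * cs := by ring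
  rw [e1, e2, pj_add, pj_smul, pj_self h, smul_zero, add_zero]

theorem F04_bound {x y C M : ℝ} {s : V} {cs : ℤ} (h : IsMin x y C s cs) {g : V × ℤ}
    (h0 : 0 ≤ lam x y s cs g.1 g.2) (h1 : lam x y s cs g.1 g.2 < 1)
    (hM : nz (pj x y s cs g.1 g.2) ≤ M) : nz (rv g.1) ≤ 2 * M + 2 * nz (rv s) := by
  have e : rv g.1 = pj x y s cs g.1 g.2 + lam x y s cs g.1 g.2 • rv s := by
    unfold pj
    rw [sub_add_cancel]
  rw [e]
  set p := pj x y s cs g.1 g.2 with hp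
  set l := lam x y s cs g.1 g.2 with hl
  have hl2 : l ^ 2 ≤ 1 := by nlinarith
  unfold nz at hM ⊢
  have a1 : (p + l • rv s).1 = p.1 + l * (rv s).1 := by simp
  have a2 : (p + l • rv s).2 = p.2 + l * (rv s).2 := by simp
  rw [a1, a2]
  have b1 : l ^ 2 * ((rv s).1 ^ 2 + (rv s).2 ^ 2) ≤ 1 * ((rv s).1 ^ 2 + (rv s).2 ^ 2) :=
    mul_le_mul_of_nonneg_right hl2 (by positivity)
  nlinarith [sq_nonneg (p.1 - l * (rv s).1), sq_nonneg (p.2 - l * (rv s).2)]

theorem F04_abs_le {n : ℤ} {R : ℝ} (h : (n : ℝ) ^ 2 ≤ R) : |n| ≤ ⌈R⌉ := by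
  have h1 : |n| ≤ n ^ 2 := by
    rw [← sq_abs]
    rcases Int.lt_or_le 0 |n| with h0 | h0
    · nlinarith
    · have : |n| = 0 := le_antisymm h0 (abs_nonneg n)
      rw [this]
      norm_num
  have h2 : ((n ^ 2 : ℤ) : ℝ) ≤ ⌈R⌉ := by
    push_cast
    exact h.trans (Int.le_ceil R)
  exact h1.trans (by exact_mod_cast h2)

theorem F04_finite {x y C M : ℝ} {s : V} {cs : ℤ} (h : IsMin x y C s cs) :
    {g : V × ℤ | 0 ≤ lam x y s cs g.1 g.2 ∧ lam x y s cs g.1 g.2 < 1 ∧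
      nz (pj x y s cs g.1 g.2) ≤ M}.Finite := by
  set R : ℝ := 2 * M + 2 * nz (rv s) with hR
  set B : ℤ := ⌈R⌉ with hB
  set B' : ℤ := ⌈(B : ℝ) * |x| + B * |y| + 1⌉ with hB'
  apply (Set.finite_Icc (((-B, -B), -B') : V × ℤ) ((B, B), B')).subset
  rintro ⟨z, k⟩ ⟨h0, h1, h2⟩
  simp only at h0 h1 h2
  have h3 : nz (rv z) ≤ R := F04_bound h (g := (z, k)) h0 h1 h2
  unfold nz rv at h3
  have h3' : (z.1 : ℝ) ^ 2 + (z.2 : ℝ) ^ 2 ≤ R := h3
  have h4 : |z.1| ≤ B := F04_abs_le (by nlinarith [sq_nonneg (z.2 : ℝ)])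
  have h5 : |z.2| ≤ B := F04_abs_le (by nlinarith [sq_nonneg (z.1 : ℝ)])
  have h6 : (k : ℝ) = z.1 * x + z.2 * y - lam x y s cs z k * val x y s cs := by
    have : lam x y s cs z k * val x y s cs = val x y z k := by
      unfold lam
      exact div_mul_cancel₀ _ h.p0.ne'
    rw [this]
    unfold val
    ring
  have h7 : |lam x y s cs z k * val x y s cs| ≤ 1 := by
    rw [abs_of_nonneg (mul_nonneg h0 h.p0.le)]
    have := h.p1
    nlinarith [h.p0]
  have h8 : |(z.1 : ℝ) * x| ≤ B * |x| := by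
    rw [abs_mul]
    exact mul_le_mul_of_nonneg_right (by exact_mod_cast h4) (abs_nonneg x)
  have h9 : |(z.2 : ℝ) * y| ≤ B * |y| := by
    rw [abs_mul]
    exact mul_le_mul_of_nonneg_right (by exact_mod_cast h5) (abs_nonneg y)
  have h10 : |(k : ℝ)| ≤ B * |x| + B * |y| + 1 := by
    rw [h6]
    refine (abs_sub _ _).trans ?_
    have := abs_add_le ((z.1 : ℝ) * x) (z.2 * y)
    linarith
  have h11 : |k| ≤ B' := by
    have : ((|k| : ℤ) : ℝ) ≤ B' := by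
      rw [Int.cast_abs]
      exact h10.trans (Int.le_ceil _)
    exact_mod_cast this
  rw [abs_le] at h4 h5 h11
  exact ⟨⟨⟨h4.1, h5.1⟩, h11.1⟩, ⟨⟨h4.2, h5.2⟩, h11.2⟩⟩

theorem exists_min {x y C : ℝ} {s : V} {cs : ℤ} (h : IsMin x y C s cs) (S : Set (V × ℤ))
    (hS : S.Nonempty) (h1 : ∀ g ∈ S, (g.1 + s, g.2 + cs) ∈ S)
    (h2 : ∀ g ∈ S, (g.1 - s, g.2 - cs) ∈ S) :
    ∃ g ∈ S, ∀ g' ∈ S, nz (pj x y s cs g.1 g.2) ≤ nz (pj x y s cs g'.1 g'.2) := by
  obtain ⟨g1, hg1⟩ := hS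
  have hred : ∀ g ∈ S, ∃ g' ∈ S, 0 ≤ lam x y s cs g'.1 g'.2 ∧ lam x y s cs g'.1 g'.2 < 1 ∧
      pj x y s cs g'.1 g'.2 = pj x y s cs g.1 g.2 := by
    intro g hg
    refine ⟨_, F04_inv h1 h2 ⌊lam x y s cs g.1 g.2⌋ g hg, ?_, ?_, ?_⟩
    · rw [F04_lam_sub h]
      have := Int.floor_le (lam x y s cs g.1 g.2)
      linarith
    · rw [F04_lam_sub h]
      have := Int.lt_floor_add_one (lam x y s cs g.1 g.2)
      linarith
    · exact F04_pj_sub h _ _ _
  set M := nz (pj x y s cs g1.1 g1.2) with hM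
  set A : Set (V × ℤ) := S ∩ {g : V × ℤ | 0 ≤ lam x y s cs g.1 g.2 ∧
    lam x y s cs g.1 g.2 < 1 ∧ nz (pj x y s cs g.1 g.2) ≤ M} with hA
  have hAf : A.Finite := (F04_finite h).inter_of_right S
  have hAne : A.Nonempty := by
    obtain ⟨g', a1, a2, a3, a4⟩ := hred g1 hg1
    exact ⟨g', a1, a2, a3, by rw [a4]⟩
  obtain ⟨a, haA, ha⟩ := Set.exists_min_image A (fun g => nz (pj x y s cs g.1 g.2)) hAf hAne
  refine ⟨a, haA.1, ?_⟩
  intro g' hg'
  obtain ⟨g'', b1, b2, b3, b4⟩ := hred g' hg'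
  rw [← b4]
  by_cases hle : nz (pj x y s cs g''.1 g''.2) ≤ M
  · exact ha g'' ⟨b1, b2, b3, hle⟩
  · push Not at hle
    exact haA.2.2.2.trans hle.le

end BU39.Fr
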