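import Pool.Agent.LibBU39.Fr04

/-!
Task F05.  Reduced basis.  `S1 = {(z, k) | pj z k ≠ 0}` is non-empty: `pj (1,0) 0` and
`pj (0,1) 0` are not both `0` (by `ker` we would have `(1,0) = h • s`, `(0,1) = h' • s`,
impossible).  Let `(e, ke)` be minimal in `S1` (`exists_min`), `E = pj e ke`.
`S2 = {g | cr E (pj g) ≠ 0}` is non-empty: otherwise `cr E (pj g) = 0` for
`g = ((1,0),0), ((0,1),0), (0,1)`.  For the last: `pj 0 1 = - lam 0 1 • rv s = (1/δ) • rv s`
(`val 0 1 = -1`), so `cr E (rv s) = 0`; for the first two `pj (1,0) 0 = (1,0) - (..) • rv s`, so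
`cr E (1,0) = 0`, `cr E (0,1) = 0`, so `E = 0`, contradiction.  Let `(f, kf)` be minimal in `S2`,
`F = pj f kf`.  `F ≠ 0`, so `nz E ≤ nz F`.  `(f ± e) ∈ S2`, so `nz (F ± E) ≥ nz F`, i.e.
`nz E ± 2 dt E F ≥ 0`.
Spanning: let `g = (w, c)`, `D = cr E F ≠ 0`, `b = cr (pj g) F / D`, `c' = cr E (pj g) / D`, so
`pj g = b • E + c' • F`; `i = round b`, `j = round c'`, `g' = g - i e - j f`,
`pj g' = β • E + γ • F`, `|β|, |γ| ≤ 1/2`, `nz (pj g') ≤ β² nz E + γ² nz F + 2 |β γ| |dt E F|
≤ 3/4 nz F < nz F` (`nz F > 0`), so `g' ∉ S2`: `γ D = 0`, `γ = 0`; then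
`nz (pj g') = β² nz E ≤ 1/4 nz E < nz E`, so `g' ∉ S1`, `pj g' = 0`, and `ker` gives
`g' = h (s, cs)`.
-/

namespace BU39.Fr

private theorem Fr05_nz_pos {a : ℝ × ℝ} (h : a ≠ 0) : 0 < nz a := by
  unfold nz
  by_contra hcon
  apply h
  have h1 : a.1 ^ 2 + a.2 ^ 2 ≤ 0 := not_lt.1 hcon
  have h2 : a.1 = 0 := by nlinarith [sq_nonneg a.1, sq_nonneg a.2]
  have h3 : a.2 = 0 := by nlinarith [sq_nonneg a.1, sq_nonneg a.2]
  exact Prod.ext h2 h3

private theorem Fr05_neg {x y : ℝ} {s : V} {cs : ℤ} (z : V) (k : ℤ) :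
    pj x y s cs (-z) (-k) = - pj x y s cs z k := by
  have h := pj_smul (x := x) (y := y) (s := s) (cs := cs) (-1) z k
  simp only [neg_smul, one_smul, neg_mul, one_mul, Int.cast_neg, Int.cast_one] at h
  exact h

private theorem Fr05_sub {x y : ℝ} {s : V} {cs : ℤ} (z w : V) (k l : ℤ) :
    pj x y s cs (z - w) (k - l) = pj x y s cs z k - pj x y s cs w l := by
  rw [sub_eq_add_neg, sub_eq_add_neg, pj_add, Fr05_neg, ← sub_eq_add_neg]

theorem exists_red {x y C : ℝ} {s : V} {cs : ℤ} (hI : Ind2 x y) (h : IsMin x y C s cs) :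
    ∃ (e : V) (ke : ℤ) (f : V) (kf : ℤ), Red x y s cs e ke f kf := by
  have hself : pj x y s cs s cs = 0 := pj_self h
  -- the first vector
  obtain ⟨⟨e, ke⟩, he, hemin⟩ := exists_min h {g : V × ℤ | pj x y s cs g.1 g.2 ≠ 0} (by
      by_contra hne
      rw [Set.not_nonempty_iff_eq_empty] at hne
      have h1 : pj x y s cs ((1, 0) : V) 0 = 0 := by
        by_contra h2
        have : ((((1, 0) : V), (0 : ℤ)) : V × ℤ) ∈ {g : V × ℤ | pj x y s cs g.1 g.2 ≠ 0} := h2
        rw [hne] at this
        exact this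
      have h2 : pj x y s cs ((0, 1) : V) 0 = 0 := by
        by_contra h2
        have : ((((0, 1) : V), (0 : ℤ)) : V × ℤ) ∈ {g : V × ℤ | pj x y s cs g.1 g.2 ≠ 0} := h2
        rw [hne] at this
        exact this
      obtain ⟨i, hi, -⟩ := ker hI h h1
      obtain ⟨j, hj, -⟩ := ker hI h h2
      have a1 := congrArg Prod.fst hi
      have a2 := congrArg Prod.snd hi
      have a3 := congrArg Prod.snd hj
      simp only [Prod.smul_fst, Prod.smul_snd, smul_eq_mul] at a1 a2 a3
      have hi0 : i ≠ 0 := by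
        rintro rfl
        simp at a1
      have hs2 : s.2 = 0 := by
        rcases mul_eq_zero.1 a2.symm with h3 | h3
        · exact absurd h3 hi0
        · exact h3
      rw [hs2] at a3
      simp at a3) (fun g hg => by
      change pj x y s cs (g.1 + s) (g.2 + cs) ≠ 0
      rw [pj_add, hself, add_zero]
      exact hg) (fun g hg => by
      change pj x y s cs (g.1 - s) (g.2 - cs) ≠ 0
      rw [Fr05_sub, hself, sub_zero]
      exact hg)
  change pj x y s cs e ke ≠ 0 at he
  set E := pj x y s cs e ke with hE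
  have hδ : 0 < val x y s cs := h.p0
  -- the second vector
  obtain ⟨⟨f, kf⟩, hf, hfmin⟩ := exists_min h {g : V × ℤ | cr E (pj x y s cs g.1 g.2) ≠ 0} (by
      by_contra hne
      rw [Set.not_nonempty_iff_eq_empty] at hne
      have key : ∀ (z : V) (k : ℤ), cr E (pj x y s cs z k) = 0 := by
        intro z k
        by_contra h2
        have : ((z, k) : V × ℤ) ∈ {g : V × ℤ | cr E (pj x y s cs g.1 g.2) ≠ 0} := h2
        rw [hne] at this
        exact this
      have h1 := key 0 1
      have h2 := key (1, 0) 0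
      have h3 := key (0, 1) 0
      unfold pj lam at h1 h2 h3
      unfold cr rv at h1 h2 h3
      simp only [Prod.fst_sub, Prod.snd_sub, Prod.smul_fst, Prod.smul_snd, smul_eq_mul,
        Prod.fst_zero, Prod.snd_zero, Int.cast_zero, Int.cast_one] at h1 h2 h3
      have h4 : val x y 0 1 = -1 := by
        unfold val
        simp
      rw [h4] at h1
      have h5 : E.1 * (s.2 : ℝ) - E.2 * (s.1 : ℝ) = 0 := by
        field_simp at h1
        linarith
      have h6 : E.2 = 0 := by
        have : E.1 * (0 - val x y (1, 0) 0 / val x y s cs * (s.2 : ℝ)) -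
            E.2 * (1 - val x y (1, 0) 0 / val x y s cs * (s.1 : ℝ)) =
            - E.2 - val x y (1, 0) 0 / val x y s cs * (E.1 * (s.2 : ℝ) - E.2 * (s.1 : ℝ)) := by
          ring
        rw [this, h5] at h2
        linarith
      have h7 : E.1 = 0 := by
        have : E.1 * (1 - val x y (0, 1) 0 / val x y s cs * (s.2 : ℝ)) -
            E.2 * (0 - val x y (0, 1) 0 / val x y s cs * (s.1 : ℝ)) =
            E.1 - val x y (0, 1) 0 / val x y s cs * (E.1 * (s.2 : ℝ) - E.2 * (s.1 : ℝ)) := by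
          ring
        rw [this, h5] at h3
        linarith
      exact he (Prod.ext h7 h6)) (fun g hg => by
      change cr E (pj x y s cs (g.1 + s) (g.2 + cs)) ≠ 0
      rw [pj_add, hself, add_zero]
      exact hg) (fun g hg => by
      change cr E (pj x y s cs (g.1 - s) (g.2 - cs)) ≠ 0
      rw [Fr05_sub, hself, sub_zero]
      exact hg)
  change cr E (pj x y s cs f kf) ≠ 0 at hf
  set F := pj x y s cs f kf with hF
  have hF0 : F ≠ 0 := by
    intro h1
    rw [h1] at hf
    unfold cr at hf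
    simp at hf
  have hnE : 0 < nz E := Fr05_nz_pos he
  have hnF : 0 < nz F := Fr05_nz_pos hF0
  have hEF : nz E ≤ nz F := hemin (f, kf) hF0
  have hplus : nz F ≤ nz (F + E) := by
    have h1 := hfmin (f + e, kf + ke) (by
      change cr E (pj x y s cs (f + e) (kf + ke)) ≠ 0
      rw [pj_add, ← hE, ← hF]
      have : cr E (F + E) = cr E F := by
        unfold cr
        simp only [Prod.fst_add, Prod.snd_add]
        ring
      rw [this]
      exact hf)
    change nz (pj x y s cs f kf) ≤ nz (pj x y s cs (f + e) (kf + ke)) at h1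
    rwa [pj_add, ← hE, ← hF] at h1
  have hminus : nz F ≤ nz (F - E) := by
    have h1 := hfmin (f - e, kf - ke) (by
      change cr E (pj x y s cs (f - e) (kf - ke)) ≠ 0
      rw [Fr05_sub, ← hE, ← hF]
      have : cr E (F - E) = cr E F := by
        unfold cr
        simp only [Prod.fst_sub, Prod.snd_sub]
        ring
      rw [this]
      exact hf)
    change nz (pj x y s cs f kf) ≤ nz (pj x y s cs (f - e) (kf - ke)) at h1
    rwa [Fr05_sub, ← hE, ← hF] at h1
  have hrd : 2 * |dt E F| ≤ nz E := by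
    have h1 : nz (F + E) = nz F + 2 * dt E F + nz E := by
      unfold nz dt
      simp only [Prod.fst_add, Prod.snd_add]
      ring
    have h2 : nz (F - E) = nz F - 2 * dt E F + nz E := by
      unfold nz dt
      simp only [Prod.fst_sub, Prod.snd_sub]
      ring
    rw [h1] at hplus
    rw [h2] at hminus
    rcases abs_cases (dt E F) with ⟨h3, -⟩ | ⟨h3, -⟩ <;> rw [h3] <;> linarith
  refine ⟨e, ke, f, kf, ?_, hf, hEF, hrd⟩
  intro w c
  set D := cr E F with hD
  set Pg := pj x y s cs w c with hPg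
  obtain ⟨i, hi⟩ : ∃ i : ℤ, |cr Pg F / D - i| ≤ 1 / 2 := ⟨round (cr Pg F / D), abs_sub_round _⟩
  obtain ⟨j, hj⟩ : ∃ j : ℤ, |cr E Pg / D - j| ≤ 1 / 2 := ⟨round (cr E Pg / D), abs_sub_round _⟩
  set b := cr Pg F / D - i with hb
  set γ := cr E Pg / D - j with hγ
  have hpg : pj x y s cs (w - i • e - j • f) (c - i * ke - j * kf) = b • E + γ • F := by
    rw [Fr05_sub, Fr05_sub, pj_smul, pj_smul, ← hE, ← hF, ← hPg]
    have h1 : Pg.1 = cr Pg F / D * E.1 + cr E Pg / D * F.1 := by
      rw [div_mul_eq_mul_div, div_mul_eq_mul_div, ← add_div, eq_div_iff hf, hD]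
      unfold cr
      ring
    have h2 : Pg.2 = cr Pg F / D * E.2 + cr E Pg / D * F.2 := by
      rw [div_mul_eq_mul_div, div_mul_eq_mul_div, ← add_div, eq_div_iff hf, hD]
      unfold cr
      ring
    apply Prod.ext
    · simp only [Prod.fst_sub, Prod.fst_add, Prod.smul_fst, smul_eq_mul]
      rw [hb, hγ]
      linarith
    · simp only [Prod.snd_sub, Prod.snd_add, Prod.smul_snd, smul_eq_mul]
      rw [hb, hγ]
      linarith
  have hnz : nz (b • E + γ • F) = b ^ 2 * nz E + γ ^ 2 * nz F + 2 * (b * γ) * dt E F := by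
    unfold nz dt
    simp only [Prod.fst_add, Prod.snd_add, Prod.smul_fst, Prod.smul_snd, smul_eq_mul]
    ring
  have hb2 : b ^ 2 ≤ 1 / 4 := by
    have := abs_le.1 hi
    nlinarith
  have hγ2 : γ ^ 2 ≤ 1 / 4 := by
    have := abs_le.1 hj
    nlinarith
  have hγ0 : γ = 0 := by
    by_contra hγ0
    have h1 := hfmin (w - i • e - j • f, c - i * ke - j * kf) (by
      change cr E (pj x y s cs (w - i • e - j • f) (c - i * ke - j * kf)) ≠ 0
      rw [hpg]
      have : cr E (b • E + γ • F) = γ * D := by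
        rw [hD]
        unfold cr
        simp only [Prod.fst_add, Prod.snd_add, Prod.smul_fst, Prod.smul_snd, smul_eq_mul]
        ring
      rw [this]
      exact mul_ne_zero hγ0 hf)
    change nz F ≤ nz (pj x y s cs (w - i • e - j • f) (c - i * ke - j * kf)) at h1
    rw [hpg, hnz] at h1
    have h2 : 2 * (b * γ) * dt E F ≤ 1 / 4 * nz E := by
      have h3 : |b * γ| ≤ 1 / 4 := by
        rw [abs_mul]
        have := mul_le_mul hi hj (abs_nonneg _) (by norm_num)
        linarith
      have h4 : 2 * (b * γ) * dt E F ≤ 2 * |b * γ| * |dt E F| := by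
        have h5 : 2 * (b * γ) * dt E F ≤ |2 * (b * γ) * dt E F| := le_abs_self _
        rw [abs_mul, abs_mul, abs_two] at h5
        exact h5
      have h5 : 2 * |b * γ| * |dt E F| = |b * γ| * (2 * |dt E F|) := by ring
      rw [h5] at h4
      exact h4.trans (mul_le_mul h3 hrd (by positivity) (by norm_num))
    nlinarith
  have hzero : pj x y s cs (w - i • e - j • f) (c - i * ke - j * kf) = 0 := by
    by_contra h0
    have h1 := hemin (w - i • e - j • f, c - i * ke - j * kf) h0
    change nz E ≤ nz (pj x y s cs (w - i • e - j • f) (c - i * ke - j * kf)) at h1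
    rw [hpg, hnz, hγ0] at h1
    nlinarith
  obtain ⟨l, hl1, hl2⟩ := ker hI h hzero
  refine ⟨i, j, l, ?_, ?_⟩
  · rw [← hl1]
    abel
  · rw [← hl2]
    ring

end BU39.Fr
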