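import Pool.Agent.LibBU39.FrA

/-!
Task F06.  Choice of the basis (pure algebra in `ℝ²`).  Let `b, b'` be the coefficients,
`-s = b • E + b' • F` (Cramer, `cr E F ≠ 0`).  Replacing `E` by `-E` or `F` by `-F` (integer
matrices with entries `±1`, determinant `±1`) we may assume `b, b' ≥ 0` (all hypotheses are
invariant).  Then
1. `dt E F ≥ 0`: `(H1, H2) = (E, F)`;
2. `dt E F < 0`, `b ≥ b'`: `(E, E + F)`, coefficients `b - b'`, `b'`;
   `dt E (E+F) = nz E + dt E F ≥ 0`; `nz (E+F) ≤ nz E + nz F ≤ 2 nz F`;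
3. `dt E F < 0`, `b < b'`, `nz F ≤ 16 nz E`: `(E + F, F)`, coefficients `b`, `b' - b`;
   `dt (E+F) F = nz F + dt E F ≥ 0`; `nz (E+F) ≤ 2 nz F`, `nz F ≤ 16 nz E`;
4. `dt E F < 0`, `b < b'`, `nz F > 16 nz E`: `(E, F)`.  Here
   `nz s = b² nz E + b'² nz F + 2 b b' dt E F ≥ b'² (nz F - nz E) ≥ 15/16 b'² nz F ≥ 15 b'² nz E`
   and `nz s ≤ 4/3 nz E`, so `15 b'² ≤ 4/3`, `b < b' ≤ 0.299 ≤ 1/3` (`nz E > 0`).
In every case interchange `H1` and `H2` if `cr H1 H2 < 0` (matrix with rows exchanged).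
`(cr E F)² = nz E * nz F - (dt E F)² ≥ 3/4 nz E * nz F`, and `|cr H1 H2| = |cr E F|`, so
`nz H1 * nz H2 ≤ 64 (cr H1 H2)²` in all cases.
-/

namespace BU39.Fr

theorem F06_nz (p q : ℝ) (E F : ℝ × ℝ) :
    nz (p • E + q • F) = p ^ 2 * nz E + q ^ 2 * nz F + 2 * p * q * dt E F := by
  unfold nz dt
  simp only [Prod.fst_add, Prod.snd_add, Prod.smul_fst, Prod.smul_snd, smul_eq_mul]
  ring

theorem F06_dt (p q r t : ℝ) (E F : ℝ × ℝ) :
    dt (p • E + q • F) (r • E + t • F) =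
      p * r * nz E + q * t * nz F + (p * t + q * r) * dt E F := by
  unfold nz dt
  simp only [Prod.fst_add, Prod.snd_add, Prod.smul_fst, Prod.smul_snd, smul_eq_mul]
  ring

theorem F06_cr (p q r t : ℝ) (E F : ℝ × ℝ) :
    cr (p • E + q • F) (r • E + t • F) = (p * t - q * r) * cr E F := by
  unfold cr
  simp only [Prod.fst_add, Prod.snd_add, Prod.smul_fst, Prod.smul_snd, smul_eq_mul]
  ring

theorem F06_lagrange (E F : ℝ × ℝ) : cr E F ^ 2 = nz E * nz F - dt E F ^ 2 := by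
  unfold cr nz dt
  ring

theorem F06_nz_nonneg (E : ℝ × ℝ) : 0 ≤ nz E := by
  unfold nz
  positivity

/-- The properties of the chosen basis, up to the orientation. -/
def F06_Q (s H1 H2 : ℝ × ℝ) (b1 b2 : ℝ) : Prop :=
  0 ≤ b1 ∧ 0 ≤ b2 ∧ -s = b1 • H1 + b2 • H2 ∧ cr H1 H2 ≠ 0 ∧
    (0 ≤ dt H1 H2 ∨ (b1 ≤ 1 / 3 ∧ b2 ≤ 1 / 3)) ∧ nz H1 * nz H2 ≤ 64 * (cr H1 H2) ^ 2

theorem F06_comb (b b' p q r t b1 b2 : ℝ) (E F : ℝ × ℝ) (h1 : b = b1 * p + b2 * r)
    (h2 : b' = b1 * q + b2 * t) :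
    b • E + b' • F = b1 • (p • E + q • F) + b2 • (r • E + t • F) := by
  rw [h1, h2]
  ext
  · simp only [Prod.fst_add, Prod.smul_fst, smul_eq_mul]
    ring
  · simp only [Prod.snd_add, Prod.smul_snd, smul_eq_mul]
    ring

theorem F06_core (E F s : ℝ × ℝ) (h0 : cr E F ≠ 0) (hle : nz E ≤ nz F)
    (hrd : 2 * |dt E F| ≤ nz E) (hs : 3 / 4 * nz s ≤ nz E) {b b' : ℝ} (hb : 0 ≤ b)
    (hb' : 0 ≤ b') (hsb : -s = b • E + b' • F) :
    ∃ (p q r t : ℤ) (b1 b2 : ℝ), (p * t - q * r = 1 ∨ p * t - q * r = -1) ∧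
      F06_Q s ((p : ℝ) • E + (q : ℝ) • F) ((r : ℝ) • E + (t : ℝ) • F) b1 b2 := by
  have hL := F06_lagrange E F
  have hE := F06_nz_nonneg E
  have hF := F06_nz_nonneg F
  have hc2 : 0 < cr E F ^ 2 := by positivity
  have hd := abs_le.mp (show |dt E F| ≤ nz E / 2 by linarith)
  obtain ⟨hd1, hd2⟩ := hd
  have hdsq : dt E F ^ 2 ≤ nz E * nz F / 4 := by
    have h1 : dt E F ^ 2 ≤ (nz E / 2) ^ 2 := by
      apply sq_le_sq.mpr
      rw [abs_of_nonneg (show 0 ≤ nz E / 2 by linarith), abs_le]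
      exact ⟨by linarith, hd2⟩
    nlinarith [mul_le_mul_of_nonneg_left hle hE]
  have hprod : nz E * nz F ≤ 4 / 3 * cr E F ^ 2 := by
    rw [hL]
    linarith
  by_cases hdt : 0 ≤ dt E F
  · refine ⟨1, 0, 0, 1, b, b', Or.inl (by norm_num), ?_⟩
    unfold F06_Q
    rw [F06_cr, F06_dt, F06_nz, F06_nz]
    push_cast
    refine ⟨hb, hb', ?_, ?_, Or.inl ?_, ?_⟩
    · rw [hsb]
      apply F06_comb <;> ring
    · ring_nf
      exact h0
    · linarith
    · linarith
  · push Not at hdt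
    by_cases hbb : b' ≤ b
    · refine ⟨1, 0, 1, 1, b - b', b', Or.inl (by norm_num), ?_⟩
      unfold F06_Q
      rw [F06_cr, F06_dt, F06_nz, F06_nz]
      push_cast
      refine ⟨by linarith, hb', ?_, ?_, Or.inl ?_, ?_⟩
      · rw [hsb]
        apply F06_comb <;> ring
      · ring_nf
        exact h0
      · linarith
      · have h1 : nz E * (nz E + nz F + 2 * dt E F) ≤ nz E * (2 * nz F) :=
          mul_le_mul_of_nonneg_left (by linarith) hE
        linarith
    · push Not at hbb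
      by_cases h16 : nz F ≤ 16 * nz E
      · refine ⟨1, 1, 0, 1, b, b' - b, Or.inl (by norm_num), ?_⟩
        unfold F06_Q
        rw [F06_cr, F06_dt, F06_nz, F06_nz]
        push_cast
        refine ⟨hb, by linarith, ?_, ?_, Or.inl ?_, ?_⟩
        · rw [hsb]
          apply F06_comb <;> ring
        · ring_nf
          exact h0
        · linarith
        · have h1 : (nz E + nz F + 2 * dt E F) * nz F ≤ (2 * nz F) * nz F :=
            mul_le_mul_of_nonneg_right (by linarith) hF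
          have h2 : nz F * nz F ≤ 16 * nz E * nz F := mul_le_mul_of_nonneg_right h16 hF
          linarith
      · push Not at h16
        have hEpos : 0 < nz E := by
          rcases hE.eq_or_lt with h | h
          · exfalso
            rw [← h] at hL
            nlinarith [sq_nonneg (dt E F)]
          · exact h
        have h1 : nz s = b ^ 2 * nz E + b' ^ 2 * nz F + 2 * b * b' * dt E F := by
          rw [← F06_nz, ← hsb]
          unfold nz
          simp
        have h2 : 0 ≤ b * b' := mul_nonneg hb hb'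
        have h3 : -(b * b' * nz E) ≤ 2 * b * b' * dt E F := by nlinarith
        have h4 : b * b' * nz E ≤ b' * b' * nz E :=
          mul_le_mul_of_nonneg_right (mul_le_mul_of_nonneg_right hbb.le hb') hE
        have h5 : 0 ≤ b ^ 2 * nz E := by positivity
        have h6 : b' ^ 2 * (16 * nz E) ≤ b' ^ 2 * nz F :=
          mul_le_mul_of_nonneg_left h16.le (by positivity)
        have h7 : 15 * b' ^ 2 * nz E ≤ 4 / 3 * nz E := by nlinarith
        have h8 : 15 * b' ^ 2 ≤ 4 / 3 := le_of_mul_le_mul_right h7 hEpos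
        have h9 : b' ≤ 1 / 3 := by
          by_contra hcon
          push Not at hcon
          nlinarith
        refine ⟨1, 0, 0, 1, b, b', Or.inl (by norm_num), ?_⟩
        unfold F06_Q
        rw [F06_cr, F06_dt, F06_nz, F06_nz]
        push_cast
        refine ⟨hb, hb', ?_, ?_, Or.inr ⟨by linarith, h9⟩, ?_⟩
        · rw [hsb]
          apply F06_comb <;> ring
        · ring_nf
          exact h0
        · linarith

theorem F06_smul_sign (σ : ℤ) (p : ℤ) (E : ℝ × ℝ) :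
    ((p : ℝ)) • ((σ : ℝ) • E) = ((p * σ : ℤ) : ℝ) • E := by
  rw [smul_smul]
  push_cast
  rfl

theorem F06_sign (b : ℝ) : ∃ σ : ℤ, (σ = 1 ∨ σ = -1) ∧ 0 ≤ b * σ := by
  rcases le_total 0 b with h | h
  · exact ⟨1, Or.inl rfl, by simpa using h⟩
  · exact ⟨-1, Or.inr rfl, by push_cast; linarith⟩

theorem choose_basis (E F s : ℝ × ℝ) (h0 : cr E F ≠ 0) (hle : nz E ≤ nz F)
    (hrd : 2 * |dt E F| ≤ nz E) (hs : 3 / 4 * nz s ≤ nz E) :
    ∃ (p q r t : ℤ) (b1 b2 : ℝ), (p * t - q * r = 1 ∨ p * t - q * r = -1) ∧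
      0 ≤ b1 ∧ 0 ≤ b2 ∧
      -s = b1 • ((p : ℝ) • E + (q : ℝ) • F) + b2 • ((r : ℝ) • E + (t : ℝ) • F) ∧
      0 < cr ((p : ℝ) • E + (q : ℝ) • F) ((r : ℝ) • E + (t : ℝ) • F) ∧
      (0 ≤ dt ((p : ℝ) • E + (q : ℝ) • F) ((r : ℝ) • E + (t : ℝ) • F) ∨
        (b1 ≤ 1 / 3 ∧ b2 ≤ 1 / 3)) ∧
      nz ((p : ℝ) • E + (q : ℝ) • F) * nz ((r : ℝ) • E + (t : ℝ) • F) ≤
        64 * (cr ((p : ℝ) • E + (q : ℝ) • F) ((r : ℝ) • E + (t : ℝ) • F)) ^ 2 := by
  -- coefficients
  set b : ℝ := cr (-s) F / cr E F with hb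
  set b' : ℝ := cr E (-s) / cr E F with hb'
  have hsb : -s = b • E + b' • F := by
    rw [hb, hb']
    have h0' := h0
    unfold cr at h0' ⊢
    ext
    · simp only [Prod.fst_add, Prod.smul_fst, smul_eq_mul, Prod.fst_neg, Prod.snd_neg]
      rw [div_mul_eq_mul_div, div_mul_eq_mul_div, ← add_div, eq_div_iff h0']
      ring
    · simp only [Prod.snd_add, Prod.smul_snd, smul_eq_mul, Prod.fst_neg, Prod.snd_neg]
      rw [div_mul_eq_mul_div, div_mul_eq_mul_div, ← add_div, eq_div_iff h0']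
      ring
  obtain ⟨σ, hσ, hσb⟩ := F06_sign b
  obtain ⟨τ, hτ, hτb⟩ := F06_sign b'
  have hσ2 : (σ : ℝ) ^ 2 = 1 := by
    rcases hσ with h | h <;> rw [h] <;> norm_num
  have hτ2 : (τ : ℝ) ^ 2 = 1 := by
    rcases hτ with h | h <;> rw [h] <;> norm_num
  have e1 : nz ((σ : ℝ) • E) = nz E := by
    have : nz ((σ : ℝ) • E) = (σ : ℝ) ^ 2 * nz E := by
      unfold nz
      simp only [Prod.smul_fst, Prod.smul_snd, smul_eq_mul]
      ring
    rw [this, hσ2, one_mul]
  have e2 : nz ((τ : ℝ) • F) = nz F := by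
    have : nz ((τ : ℝ) • F) = (τ : ℝ) ^ 2 * nz F := by
      unfold nz
      simp only [Prod.smul_fst, Prod.smul_snd, smul_eq_mul]
      ring
    rw [this, hτ2, one_mul]
  have hστ : |(σ : ℝ) * τ| = 1 := by
    rcases hσ with h | h <;> rcases hτ with h' | h' <;> rw [h, h'] <;> norm_num
  have e3 : dt ((σ : ℝ) • E) ((τ : ℝ) • F) = (σ * τ) * dt E F := by
    unfold dt
    simp only [Prod.smul_fst, Prod.smul_snd, smul_eq_mul]
    ring
  have e4 : cr ((σ : ℝ) • E) ((τ : ℝ) • F) = (σ * τ) * cr E F := by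
    unfold cr
    simp only [Prod.smul_fst, Prod.smul_snd, smul_eq_mul]
    ring
  have hne : (σ : ℝ) * τ ≠ 0 := by
    intro h
    rw [h] at hστ
    norm_num at hστ
  obtain ⟨p, q, r, t, b1, b2, hdet, hQ⟩ := F06_core ((σ : ℝ) • E) ((τ : ℝ) • F) s
    (by rw [e4]; exact mul_ne_zero hne h0)
    (by rw [e1, e2]; exact hle)
    (by rw [e3, e1, abs_mul, hστ, one_mul]; exact hrd)
    (by rw [e1]; exact hs) hσb hτb
    (by
      rw [hsb, smul_smul, smul_smul, mul_assoc, mul_assoc, ← sq, ← sq, hσ2, hτ2, mul_one,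
        mul_one])
  rw [F06_smul_sign, F06_smul_sign, F06_smul_sign, F06_smul_sign] at hQ
  have hdet' : (p * σ) * (t * τ) - (q * τ) * (r * σ) = 1 ∨
      (p * σ) * (t * τ) - (q * τ) * (r * σ) = -1 := by
    have : (p * σ) * (t * τ) - (q * τ) * (r * σ) = (p * t - q * r) * (σ * τ) := by ring
    rw [this]
    rcases hdet with h | h <;> rw [h] <;> rcases hσ with h1 | h1 <;> rcases hτ with h2 | h2 <;>
      rw [h1, h2] <;> norm_num
  obtain ⟨q1, q2, q3, q4, q5, q6⟩ := hQ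
  rcases lt_or_gt_of_ne q4 with hneg | hpos
  · refine ⟨r * σ, t * τ, p * σ, q * τ, b2, b1, ?_, q2, q1, ?_, ?_, ?_, ?_⟩
    · have : (r * σ) * (q * τ) - (t * τ) * (p * σ) =
        -((p * σ) * (t * τ) - (q * τ) * (r * σ)) := by ring
      rw [this]
      rcases hdet' with h | h <;> rw [h] <;> norm_num
    · rw [q3, add_comm]
    · have : ∀ A B : ℝ × ℝ, cr A B = -cr B A := by
        intro A B
        unfold cr
        ring
      rw [this]
      linarith
    · have : ∀ A B : ℝ × ℝ, dt A B = dt B A := by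
        intro A B
        unfold dt
        ring
      rw [this]
      rcases q5 with h | h
      · exact Or.inl h
      · exact Or.inr ⟨h.2, h.1⟩
    · have : ∀ A B : ℝ × ℝ, cr A B = -cr B A := by
        intro A B
        unfold cr
        ring
      rw [this, neg_sq, mul_comm]
      exact q6
  · exact ⟨p * σ, q * τ, r * σ, t * τ, b1, b2, hdet', q1, q2, q3, hpos, q5, q6⟩

end BU39.Fr
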