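import Pool.Agent.LibBU39.FrA

/-!
Task F07.  The margin (pure algebra in `ℝ²`).
* `nz_seg`: `nz (H + l s) `, `nz (H + (l-1) s) ≥ C²`, `nz s ≤ C²`, `0 ≤ l ≤ 1` give
  `nz H = (1 - l) nz (H + l s) + l nz (H + (l-1) s) - l (1-l) nz s ≥ 3/4 C²`.
* `b_bound`: let `t = 65/64`, `dt H1 H2 ≥ 0`, `-s = b1 H1 + b2 H2`, `b1, b2 ≥ 0`.  Then
  `nz s ≥ b1² nz H1`, `dt s H1 = -b1 nz H1 - b2 dt H1 H2 ≤ -b1 nz H1`, so
  `C² ≤ nz (H1 + l s) = nz H1 + 2 l dt s H1 + l² nz s ≤ (1 - 2 l b1) nz H1 + l² nz s`, and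
  `t² nz s ≤ C²`, so `(t² - l²) b1² nz H1 ≤ (t² - l²) nz s ≤ (1 - 2 l b1) nz H1`; `nz H1 > 0`:
  `(t² - l²) b1² + 2 l b1 - 1 ≤ 0`, i.e. `((t + l) b1 - 1) ((t - l) b1 + 1) ≤ 0`, so
  `b1 (t + l) ≤ 1`.  The same for `b2` (exchange the roles).
* `margin`: `1 - l1 b1 - l2 b2 ≥ 1/129`: if `dt H1 H2 ≥ 0`, `l b ≤ l / (t + l) ≤ 1 / (t + 1)
  = 64/129` for each; otherwise `b1, b2 ≤ 1/3`.
  For `u ≤ l1`, `v ≤ l2`, `|u|, |v| ≤ 1`:
  `cr (H1 + u s) (H2 + v s) = cr H1 H2 * (1 - u b1 - v b2) ≥ cr H1 H2 / 129`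
  (`cr H1 s = -b2 cr H1 H2`, `cr s H2 = -b1 cr H1 H2`; careful: which `b` goes with which).
  `n1 (H + u s)² ≤ 2 nz (H + u s) ≤ 4 nz H + 4 nz s ≤ 10 nz H` (`nz s ≤ C² ≤ 4/3 nz H`), so
  `(n1 D1 * n1 D2)² ≤ 100 nz H1 nz H2 ≤ 6400 (cr H1 H2)²`, `n1 D1 * n1 D2 ≤ 80 cr H1 H2`.
  `80 * 129 = 10320 ≤ 20000`.
-/

namespace BU39.Fr

private theorem fr07_nz_nonneg (a : ℝ × ℝ) : 0 ≤ nz a := by
  unfold nz
  positivity

theorem nz_seg {H s : ℝ × ℝ} {l C : ℝ} (h0 : 0 ≤ l) (h1 : l ≤ 1) (hs : nz s ≤ C ^ 2)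
    (a : C ^ 2 ≤ nz (H + l • s)) (b : C ^ 2 ≤ nz (H + (l - 1) • s)) :
    3 / 4 * C ^ 2 ≤ nz H := by
  have e : nz H = (1 - l) * nz (H + l • s) + l * nz (H + (l - 1) • s) - l * (1 - l) * nz s := by
    simp only [nz, Prod.fst_add, Prod.snd_add, Prod.smul_fst, Prod.smul_snd, smul_eq_mul]
    ring
  have h2 : (1 - l) * C ^ 2 ≤ (1 - l) * nz (H + l • s) :=
    mul_le_mul_of_nonneg_left a (by linarith)
  have h3 : l * C ^ 2 ≤ l * nz (H + (l - 1) • s) := mul_le_mul_of_nonneg_left b h0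
  have h4 : l * (1 - l) * nz s ≤ l * (1 - l) * C ^ 2 :=
    mul_le_mul_of_nonneg_left hs (mul_nonneg h0 (by linarith))
  have h5 : l * (1 - l) ≤ 1 / 4 := by nlinarith [sq_nonneg (l - 1 / 2)]
  have h6 : l * (1 - l) * C ^ 2 ≤ 1 / 4 * C ^ 2 := mul_le_mul_of_nonneg_right h5 (sq_nonneg C)
  linarith

private theorem fr07_gap {s : ℝ × ℝ} {C : ℝ} (gap : (1 + 1 / 64) ^ 2 * nz s ≤ C ^ 2) :
    nz s ≤ C ^ 2 := by
  have := fr07_nz_nonneg s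
  nlinarith

theorem b_bound {s H1 H2 : ℝ × ℝ} {b1 b2 l C : ℝ} (hC : 0 < C)
    (gap : (1 + 1 / 64) ^ 2 * nz s ≤ C ^ 2) (h0 : 0 ≤ l) (h1 : l ≤ 1)
    (hb1 : 0 ≤ b1) (hb2 : 0 ≤ b2) (hs : -s = b1 • H1 + b2 • H2) (hd : 0 ≤ dt H1 H2)
    (a : C ^ 2 ≤ nz (H1 + l • s)) (b : C ^ 2 ≤ nz (H1 + (l - 1) • s)) :
    b1 * (1 + 1 / 64 + l) ≤ 1 := by
  have hss : nz s ≤ C ^ 2 := fr07_gap gap
  have hH := nz_seg h0 h1 hss a b
  have hH0 : 0 < nz H1 := lt_of_lt_of_le (by positivity) hH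
  have e1 : s.1 = -(b1 * H1.1 + b2 * H2.1) := by
    have := congrArg Prod.fst hs
    simp only [Prod.fst_neg, Prod.fst_add, Prod.smul_fst, smul_eq_mul] at this
    linarith
  have e2 : s.2 = -(b1 * H1.2 + b2 * H2.2) := by
    have := congrArg Prod.snd hs
    simp only [Prod.snd_neg, Prod.snd_add, Prod.smul_snd, smul_eq_mul] at this
    linarith
  have k1 : b1 ^ 2 * nz H1 ≤ nz s := by
    have e : nz s = b1 ^ 2 * nz H1 + 2 * (b1 * b2) * dt H1 H2 + b2 ^ 2 * nz H2 := by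
      simp only [nz, dt, e1, e2]
      ring
    have := mul_nonneg (mul_nonneg hb1 hb2) hd
    have := mul_nonneg (sq_nonneg b2) (fr07_nz_nonneg H2)
    nlinarith
  have k2 : nz (H1 + l • s) ≤ (1 - 2 * l * b1) * nz H1 + l ^ 2 * nz s := by
    have e : nz (H1 + l • s) = (1 - 2 * l * b1) * nz H1 + l ^ 2 * nz s -
        2 * (l * b2) * dt H1 H2 := by
      have : nz (H1 + l • s) = nz H1 + 2 * l * (H1.1 * s.1 + H1.2 * s.2) + l ^ 2 * nz s := by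
        simp only [nz, Prod.fst_add, Prod.snd_add, Prod.smul_fst, Prod.smul_snd, smul_eq_mul]
        ring
      rw [this]
      simp only [dt, nz]
      rw [e1, e2]
      ring
    have := mul_nonneg (mul_nonneg h0 hb2) hd
    linarith
  have k3 : ((1 + 1 / 64) ^ 2 - l ^ 2) * nz s ≤ (1 - 2 * l * b1) * nz H1 := by
    nlinarith
  have t0 : 0 ≤ (1 + 1 / 64 : ℝ) ^ 2 - l ^ 2 := by nlinarith
  have k4 : ((1 + 1 / 64) ^ 2 - l ^ 2) * (b1 ^ 2 * nz H1) ≤ (1 - 2 * l * b1) * nz H1 :=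
    (mul_le_mul_of_nonneg_left k1 t0).trans k3
  have k5 : (((1 + 1 / 64 + l) * b1 - 1) * ((1 + 1 / 64 - l) * b1 + 1)) * nz H1 ≤ 0 := by
    have : (((1 + 1 / 64 + l) * b1 - 1) * ((1 + 1 / 64 - l) * b1 + 1)) * nz H1 =
        ((1 + 1 / 64) ^ 2 - l ^ 2) * (b1 ^ 2 * nz H1) - (1 - 2 * l * b1) * nz H1 := by ring
    rw [this]
    linarith
  have k6 : 0 < (1 + 1 / 64 - l) * b1 + 1 := by
    have : 0 ≤ (1 + 1 / 64 - l) * b1 := mul_nonneg (by linarith) hb1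
    linarith
  by_contra hc
  push Not at hc
  have k7 : 0 < (1 + 1 / 64 + l) * b1 - 1 := by linarith
  have := mul_pos (mul_pos k7 k6) hH0
  linarith

private theorem fr07_n1 {H s : ℝ × ℝ} {u C : ℝ} (hH : 3 / 4 * C ^ 2 ≤ nz H) (hs : nz s ≤ C ^ 2)
    (hu : |u| ≤ 1) : n1 (H + u • s) ^ 2 ≤ 10 * nz H := by
  have h1 : n1 (H + u • s) ^ 2 ≤ 2 * nz (H + u • s) := by
    simp only [n1, nz]
    have a1 := sq_abs (H + u • s).1
    have a2 := sq_abs (H + u • s).2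
    nlinarith [sq_nonneg (|(H + u • s).1| - |(H + u • s).2|)]
  have h2 : nz (H + u • s) ≤ 2 * nz H + 2 * (u ^ 2 * nz s) := by
    simp only [nz, Prod.fst_add, Prod.snd_add, Prod.smul_fst, Prod.smul_snd, smul_eq_mul]
    nlinarith [sq_nonneg (H.1 - u * s.1), sq_nonneg (H.2 - u * s.2)]
  have h3 : u ^ 2 ≤ 1 := by
    have := sq_abs u
    have h0 := abs_nonneg u
    nlinarith
  have h4 : u ^ 2 * nz s ≤ nz s := by
    have := fr07_nz_nonneg s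
    nlinarith
  have h5 := fr07_nz_nonneg H
  linarith

theorem margin {s H1 H2 : ℝ × ℝ} {b1 b2 l1 l2 C : ℝ} (hC : 0 < C)
    (gap : (1 + 1 / 64) ^ 2 * nz s ≤ C ^ 2) (h10 : 0 < l1) (h11 : l1 < 1) (h20 : 0 < l2)
    (h21 : l2 < 1) (hb1 : 0 ≤ b1) (hb2 : 0 ≤ b2) (hs : -s = b1 • H1 + b2 • H2)
    (hcr : 0 < cr H1 H2) (hd : 0 ≤ dt H1 H2 ∨ (b1 ≤ 1 / 3 ∧ b2 ≤ 1 / 3))
    (hcov : nz H1 * nz H2 ≤ 64 * (cr H1 H2) ^ 2)
    (a1 : C ^ 2 ≤ nz (H1 + l1 • s)) (a1' : C ^ 2 ≤ nz (H1 + (l1 - 1) • s))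
    (a2 : C ^ 2 ≤ nz (H2 + l2 • s)) (a2' : C ^ 2 ≤ nz (H2 + (l2 - 1) • s))
    {u v : ℝ} (hu : u ≤ l1) (hu1 : |u| ≤ 1) (hv : v ≤ l2) (hv1 : |v| ≤ 1) :
    1 / 20000 * n1 (H1 + u • s) * n1 (H2 + v • s) ≤ cr (H1 + u • s) (H2 + v • s) := by
  have hss : nz s ≤ C ^ 2 := fr07_gap gap
  have hH1 := nz_seg h10.le h11.le hss a1 a1'
  have hH2 := nz_seg h20.le h21.le hss a2 a2'
  -- the margin
  have hk : 1 / 129 ≤ 1 - l1 * b1 - l2 * b2 := by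
    rcases hd with hd | ⟨c1, c2⟩
    · have g1 := b_bound hC gap h10.le h11.le hb1 hb2 hs hd a1 a1'
      have hs' : -s = b2 • H2 + b1 • H1 := by rw [hs, add_comm]
      have hd' : 0 ≤ dt H2 H1 := by
        have : dt H2 H1 = dt H1 H2 := by simp only [dt]; ring
        rw [this]
        exact hd
      have g2 := b_bound hC gap h20.le h21.le hb2 hb1 hs' hd' a2 a2'
      have g3 : l1 * b1 ≤ b1 := by nlinarith
      have g4 : l2 * b2 ≤ b2 := by nlinarith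
      nlinarith
    · have g3 : l1 * b1 ≤ b1 := by nlinarith
      have g4 : l2 * b2 ≤ b2 := by nlinarith
      linarith
  have e1 : s.1 = -(b1 * H1.1 + b2 * H2.1) := by
    have := congrArg Prod.fst hs
    simp only [Prod.fst_neg, Prod.fst_add, Prod.smul_fst, smul_eq_mul] at this
    linarith
  have e2 : s.2 = -(b1 * H1.2 + b2 * H2.2) := by
    have := congrArg Prod.snd hs
    simp only [Prod.snd_neg, Prod.snd_add, Prod.smul_snd, smul_eq_mul] at this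
    linarith
  have hcrE : cr (H1 + u • s) (H2 + v • s) = cr H1 H2 * (1 - u * b1 - v * b2) := by
    simp only [cr, Prod.fst_add, Prod.snd_add, Prod.smul_fst, Prod.smul_snd, smul_eq_mul]
    rw [e1, e2]
    ring
  have hge : 1 / 129 ≤ 1 - u * b1 - v * b2 := by
    have g1 : u * b1 ≤ l1 * b1 := mul_le_mul_of_nonneg_right hu hb1
    have g2 : v * b2 ≤ l2 * b2 := mul_le_mul_of_nonneg_right hv hb2
    linarith
  have m1 := fr07_n1 hH1 hss hu1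
  have m2 := fr07_n1 hH2 hss hv1
  have p1 : 0 ≤ n1 (H1 + u • s) := by unfold n1; positivity
  have p2 : 0 ≤ n1 (H2 + v • s) := by unfold n1; positivity
  have m3 : (n1 (H1 + u • s) * n1 (H2 + v • s)) ^ 2 ≤ (80 * cr H1 H2) ^ 2 := by
    have : n1 (H1 + u • s) ^ 2 * n1 (H2 + v • s) ^ 2 ≤ (10 * nz H1) * (10 * nz H2) :=
      mul_le_mul m1 m2 (sq_nonneg _) (by have := fr07_nz_nonneg H1; positivity)
    nlinarith
  have m4 : n1 (H1 + u • s) * n1 (H2 + v • s) ≤ 80 * cr H1 H2 :=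
    abs_le_of_sq_le_sq' m3 (by positivity) |>.2
  rw [hcrE]
  nlinarith

end BU39.Fr
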