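import Pool.Agent.LibBU39.FrA

/-!
Task F08.  Small facts (pure algebra in `ℝ²`).
* `n1_ge`: `C ≤ n1 d` if `0 ≤ C`, `C² ≤ nz d` (`nz d ≤ (n1 d)²`).
* `n1_s`: `n1 s ≤ 2 n1 d`: `(n1 s)² ≤ 2 nz s ≤ 2 C² ≤ 2 nz d ≤ 2 (n1 d)²`.
* `dots`: `n1 d * n1 (d - s) ≤ ((n1 d)² + (n1 (d-s))²) / 2 ≤ nz d + nz (d - s)` and
  `dt d (d - s) = (nz d + nz (d - s) - nz s) / 2 ≥ (nz d + nz (d - s)) / 4`, because
  `nz s ≤ C² ≤ (nz d + nz (d - s)) / 2`.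
* `n1_up`: `n1 s ≤ 2 C` if `nz s ≤ C²`, `0 ≤ C`.
-/

namespace BU39.Fr

theorem f08_sq_le (d : ℝ × ℝ) : nz d ≤ n1 d ^ 2 := by
  unfold nz n1
  nlinarith [sq_abs d.1, sq_abs d.2, mul_nonneg (abs_nonneg d.1) (abs_nonneg d.2)]

theorem f08_sq_ge (d : ℝ × ℝ) : n1 d ^ 2 ≤ 2 * nz d := by
  unfold nz n1
  nlinarith [sq_abs d.1, sq_abs d.2, sq_nonneg (|d.1| - |d.2|)]

theorem f08_nonneg (d : ℝ × ℝ) : 0 ≤ n1 d := by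
  unfold n1
  positivity

theorem n1_ge {d : ℝ × ℝ} {C : ℝ} (hC : 0 ≤ C) (h : C ^ 2 ≤ nz d) : C ≤ n1 d := by
  rw [← pow_le_pow_iff_left₀ hC (f08_nonneg d) two_ne_zero]
  exact h.trans (f08_sq_le d)

theorem n1_up {s : ℝ × ℝ} {C : ℝ} (hC : 0 ≤ C) (h : nz s ≤ C ^ 2) : n1 s ≤ 2 * C := by
  rw [← pow_le_pow_iff_left₀ (f08_nonneg s) (by positivity) two_ne_zero]
  nlinarith [f08_sq_ge s, sq_nonneg C]

theorem n1_s {d s : ℝ × ℝ} {C : ℝ} (h : C ^ 2 ≤ nz d) (hs : nz s ≤ C ^ 2) :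
    n1 s ≤ 2 * n1 d := by
  rw [← pow_le_pow_iff_left₀ (f08_nonneg s) (by have := f08_nonneg d; positivity) two_ne_zero]
  nlinarith [f08_sq_ge s, f08_sq_le d, sq_nonneg (n1 d)]

theorem dots {d s : ℝ × ℝ} {C : ℝ} (h : C ^ 2 ≤ nz d) (h' : C ^ 2 ≤ nz (d - s))
    (hs : nz s ≤ C ^ 2) : 1 / 4 * n1 d * n1 (d - s) ≤ dt d (d - s) := by
  have e : dt d (d - s) = (nz d + nz (d - s) - nz s) / 2 := by
    unfold dt nz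
    simp only [Prod.fst_sub, Prod.snd_sub]
    ring
  rw [e]
  nlinarith [f08_sq_ge d, f08_sq_ge (d - s), sq_nonneg (n1 d - n1 (d - s))]

end BU39.Fr
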