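import Pool.Agent.LibBU39.Fr02
import Pool.Agent.LibBU39.Fr05
import Pool.Agent.LibBU39.Fr06
import Pool.Agent.LibBU39.Fr07
import Pool.Agent.LibBU39.Fr08

/-!
Task F09.  Assembly of the core.  `scale` gives `C, s, cs`; `exists_red` a reduced basis
`e, f`; `E = pj e`, `F = pj f`; `big` gives `3/4 nz (rv s) ≤ 3/4 C² ≤ nz E`.  `choose_basis` gives
`p q r t b1 b2`.  Let `g1 = p e + q f`, `g2 = r e + t f` (in `ℤ³`); `pj g1 = H1 ≠ 0`,
`pj g2 = H2 ≠ 0` (because `cr H1 H2 > 0`).  `norm` gives `d1 = g1 - h1 s`, `k1 = ...` with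
`x' = lam d1 k1 ∈ (0, 1)`, and `d2`, `y'` in the same way.  `rv d1 = H1 + x' • rv s`,
`rv (d1 - s) = H1 + (x' - 1) • rv s`.  `margin` gives `c11 ... c22` with `m0 = 1/20000`.
`basis`: `w = i e + j f + h s`; `e, f` are integer combinations of `g1, g2` (determinant `± 1`),
`g1 = d1 + h1 s`.  Everything else: `Fr08`, `C0 ≤ C ≤ 2 C0`, `nz (rv s) < C²`.
-/

namespace BU39.Fr

theorem F09_rv_sub (a b : V) : rv (a - b) = rv a - rv b := by
  unfold rv
  ext <;> simp

/-- One normalised generator. -/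
theorem F09_gen {x y C : ℝ} {s : V} {cs : ℤ} (hI : Ind2 x y) (hm : IsMin x y C s cs)
    {e f : V} {ke kf : ℤ} (p q : ℤ)
    (h0 : (p : ℝ) • pj x y s cs e ke + (q : ℝ) • pj x y s cs f kf ≠ 0) :
    ∃ (d : V) (k h : ℤ) (l : ℝ), p • e + q • f = d + h • s ∧ p * ke + q * kf = k + h * cs ∧
      0 < l ∧ l < 1 ∧
      rv d = ((p : ℝ) • pj x y s cs e ke + (q : ℝ) • pj x y s cs f kf) + l • rv s ∧
      rv (d - s) = ((p : ℝ) • pj x y s cs e ke + (q : ℝ) • pj x y s cs f kf) + (l - 1) • rv s ∧
      C ^ 2 ≤ nz (rv d) ∧ C ^ 2 ≤ nz (rv (d - s)) ∧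
      val x y d k = l * val x y s cs := by
  have e1 : pj x y s cs (p • e + q • f) (p * ke + q * kf) =
      (p : ℝ) • pj x y s cs e ke + (q : ℝ) • pj x y s cs f kf := by
    rw [pj_add, pj_smul, pj_smul]
  obtain ⟨h, a1, a2, a3, a4, a5⟩ := norm hI hm (z := p • e + q • f) (k := p * ke + q * kf)
    (by rw [e1]; exact h0)
  rw [e1] at a3
  have a3' : rv (p • e + q • f - h • s) -
      lam x y s cs (p • e + q • f - h • s) (p * ke + q * kf - h * cs) • rv s =
      (p : ℝ) • pj x y s cs e ke + (q : ℝ) • pj x y s cs f kf := a3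
  refine ⟨p • e + q • f - h • s, p * ke + q * kf - h * cs, h,
    lam x y s cs (p • e + q • f - h • s) (p * ke + q * kf - h * cs), by abel, by ring, a1, a2,
    ?_, ?_, a4, a5, ?_⟩
  · rw [← a3', sub_add_cancel]
  · rw [F09_rv_sub (p • e + q • f - h • s) s, ← a3', sub_smul, one_smul]
    abel
  · have := hm.p0
    unfold lam
    field_simp

theorem core {x y C0 : ℝ} (h : Ind2 x y) (hx : 0 < x) (hx1 : x < 1) (hy : 0 < y) (hy1 : y < 1)
    (hC : 2 ≤ C0) : ∃ (s d1 d2 : V) (cs k1 k2 : ℤ) (δ x' y' : ℝ),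
      CoreF (1 / 20000) C0 x y s d1 d2 cs k1 k2 δ x' y' := by
  obtain ⟨C, s, cs, hC1, hC2, hsc⟩ := scale h hx hx1 hy hy1 hC
  have hm := hsc.toIsMin
  obtain ⟨e, ke, f, kf, hr⟩ := exists_red h hm
  have hC0 : 0 < C := by linarith
  have hsC : nz (rv s) ≤ C ^ 2 := hm.sC.le
  have hE0 : pj x y s cs e ke ≠ 0 := by
    intro h0
    apply hr.cr0
    rw [h0]
    unfold cr
    simp
  have hbig := big h hm hE0
  obtain ⟨p, q, r, t, b1, b2, hD, hb1, hb2, hs, hcr, hd, hcov⟩ :=
    choose_basis (pj x y s cs e ke) (pj x y s cs f kf) (rv s) hr.cr0 hr.le hr.rd (by linarith)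
  have hH1 : (p : ℝ) • pj x y s cs e ke + (q : ℝ) • pj x y s cs f kf ≠ 0 := by
    intro h0
    rw [h0] at hcr
    unfold cr at hcr
    simp at hcr
  have hH2 : (r : ℝ) • pj x y s cs e ke + (t : ℝ) • pj x y s cs f kf ≠ 0 := by
    intro h0
    rw [h0] at hcr
    unfold cr at hcr
    simp at hcr
  obtain ⟨d1, k1, h1, x', g1, g1k, hx0, hx1', rd1, rd1', n1a, n1b, v1⟩ := F09_gen h hm p q hH1
  obtain ⟨d2, k2, h2, y', g2, g2k, hy0, hy1', rd2, rd2', n2a, n2b, v2⟩ := F09_gen h hm r t hH2
  generalize hG1 : (p : ℝ) • pj x y s cs e ke + (q : ℝ) • pj x y s cs f kf = H1 at *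
  generalize hG2 : (r : ℝ) • pj x y s cs e ke + (t : ℝ) • pj x y s cs f kf = H2 at *
  have mar : ∀ u v : ℝ, u ≤ x' → |u| ≤ 1 → v ≤ y' → |v| ≤ 1 →
      1 / 20000 * n1 (H1 + u • rv s) * n1 (H2 + v • rv s) ≤
        cr (H1 + u • rv s) (H2 + v • rv s) := by
    intro u v hu hu1 hv hv1
    refine margin hC0 hsc.gap hx0 hx1' hy0 hy1' hb1 hb2 hs hcr hd hcov ?_ ?_ ?_ ?_ hu hu1 hv hv1
    · rw [← rd1]; exact n1a
    · rw [← rd1']; exact n1b
    · rw [← rd2]; exact n2a
    · rw [← rd2']; exact n2b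
  have ax : |x'| ≤ 1 := abs_le.2 ⟨by linarith, by linarith⟩
  have ax' : |x' - 1| ≤ 1 := abs_le.2 ⟨by linarith, by linarith⟩
  have ay : |y'| ≤ 1 := abs_le.2 ⟨by linarith, by linarith⟩
  have ay' : |y' - 1| ≤ 1 := abs_le.2 ⟨by linarith, by linarith⟩
  refine ⟨s, d1, d2, cs, k1, k2, val x y s cs, x', y', ?_⟩
  exact
    { hs := hm.s0
      sb := (n1_up hC0.le hsC).trans (by linarith)
      hδ0 := hm.p0
      hδ1 := hm.p1
      hx0 := hx0
      hx1 := hx1'
      hy0 := hy0
      hy1 := hy1'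
      es := rfl
      ed1 := v1
      ed2 := v2
      basis := by
        intro w c
        obtain ⟨i, j, k, hw, hc⟩ := hr.sp w c
        have g11 := congrArg Prod.fst g1
        have g12 := congrArg Prod.snd g1
        have g21 := congrArg Prod.fst g2
        have g22 := congrArg Prod.snd g2
        have hw1 := congrArg Prod.fst hw
        have hw2 := congrArg Prod.snd hw
        simp only [Prod.fst_add, Prod.snd_add, Prod.smul_fst, Prod.smul_snd, smul_eq_mul] at g11 g12 g21 g22 hw1 hw2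
        rcases hD with hD | hD
        · refine ⟨i * t - j * r, j * p - i * q,
            k + (i * t - j * r) * h1 + (j * p - i * q) * h2, Prod.ext ?_ ?_, ?_⟩
          · simp only [Prod.fst_add, Prod.smul_fst, smul_eq_mul]
            linear_combination hw1 - (i * e.1 + j * f.1) * hD + (i * t - j * r) * g11 +
              (j * p - i * q) * g21
          · simp only [Prod.snd_add, Prod.smul_snd, smul_eq_mul]
            linear_combination hw2 - (i * e.2 + j * f.2) * hD + (i * t - j * r) * g12 +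
              (j * p - i * q) * g22
          · linear_combination hc - (i * ke + j * kf) * hD + (i * t - j * r) * g1k +
              (j * p - i * q) * g2k
        · refine ⟨-(i * t - j * r), -(j * p - i * q),
            k - (i * t - j * r) * h1 - (j * p - i * q) * h2, Prod.ext ?_ ?_, ?_⟩
          · simp only [Prod.fst_add, Prod.smul_fst, smul_eq_mul]
            linear_combination hw1 + (i * e.1 + j * f.1) * hD - (i * t - j * r) * g11 -
              (j * p - i * q) * g21
          · simp only [Prod.snd_add, Prod.smul_snd, smul_eq_mul]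
            linear_combination hw2 + (i * e.2 + j * f.2) * hD - (i * t - j * r) * g12 -
              (j * p - i * q) * g22
          · linear_combination hc + (i * ke + j * kf) * hD - (i * t - j * r) * g1k -
              (j * p - i * q) * g2k
      c11 := by
        rw [rd1, rd2]
        exact mar x' y' le_rfl ax le_rfl ay
      c12 := by
        rw [rd1, rd2']
        exact mar x' (y' - 1) le_rfl ax (by linarith) ay'
      c21 := by
        rw [rd1', rd2]
        exact mar (x' - 1) y' (by linarith) ax' le_rfl ay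
      c22 := by
        rw [rd1', rd2']
        exact mar (x' - 1) (y' - 1) (by linarith) ax' (by linarith) ay'
      l1 := hC1.trans (n1_ge hC0.le n1a)
      l1' := hC1.trans (n1_ge hC0.le n1b)
      l2 := hC1.trans (n1_ge hC0.le n2a)
      l2' := hC1.trans (n1_ge hC0.le n2b)
      s1 := n1_s n1a hsC
      s1' := n1_s n1b hsC
      s2 := n1_s n2a hsC
      s2' := n1_s n2b hsC
      t1 := by
        rw [F09_rv_sub d1 s] at n1b ⊢
        exact dots n1a n1b hsC
      t2 := by
        rw [F09_rv_sub d2 s] at n2b ⊢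
        exact dots n2a n2b hsC }

end BU39.Fr
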