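import Pool.Agent.LibBU39.FrA

/-!
Task F10.  Relabelling by a quarter turn: `(d1, d2) → (d2, s - d1)`.
`basis`: `i d1 + j d2 + h s = j d2 + (-i) (s - d1) + (h + i) s`.  `s - d1 = -(d1 - s)`,
`(s - d1) - s = - d1`; `n1 (rv (-a)) = n1 (rv a)`; `cr a (-b) = cr b a`, so the new `c11` is the old
`c21`, new `c12` = old `c11`, new `c21` = old `c22`, new `c22` = old `c12`.
-/

namespace BU39.Fr

theorem F10_rv_sub (a b : V) : rv (a - b) = rv a - rv b := by
  unfold rv
  ext <;> simp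

theorem F10_rv_sub' (a b : V) : rv (a - b) = -rv (b - a) := by
  rw [F10_rv_sub, F10_rv_sub]
  abel

theorem F10_n1_neg (a : ℝ × ℝ) : n1 (-a) = n1 a := by
  unfold n1
  simp

theorem F10_cr_neg (a b : ℝ × ℝ) : cr a (-b) = cr b a := by
  unfold cr
  simp
  ring

theorem F10_dt_neg (a b : ℝ × ℝ) : dt (-a) (-b) = dt b a := by
  unfold dt
  simp
  ring

theorem CoreF.turn {m0 C0 x y : ℝ} {s d1 d2 : V} {cs k1 k2 : ℤ} {δ x' y' : ℝ}
    (h : CoreF m0 C0 x y s d1 d2 cs k1 k2 δ x' y') :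
    CoreF m0 C0 x y s d2 (s - d1) cs k2 (cs - k1) δ y' (1 - x') := by
  have e1 : rv (s - d1) = -rv (d1 - s) := F10_rv_sub' s d1
  have e2 : rv (s - d1 - s) = -rv d1 := by
    rw [show s - d1 - s = 0 - d1 by abel, F10_rv_sub' 0 d1, sub_zero]
  have hx0 := h.hx0
  have hx1 := h.hx1
  refine
    { hs := h.hs
      sb := h.sb
      hδ0 := h.hδ0
      hδ1 := h.hδ1
      hx0 := h.hy0
      hx1 := h.hy1
      hy0 := by linarith
      hy1 := by linarith
      es := h.es
      ed1 := h.ed2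
      ed2 := ?_
      basis := ?_
      c11 := ?_
      c12 := ?_
      c21 := ?_
      c22 := ?_
      l1 := h.l2
      l1' := h.l2'
      l2 := ?_
      l2' := ?_
      s1 := h.s2
      s1' := h.s2'
      s2 := ?_
      s2' := ?_
      t1 := h.t2
      t2 := ?_ }
  · have h1 := h.es
    have h2 := h.ed1
    have e3 : ((s - d1).1 : ℝ) = s.1 - d1.1 := by
      rw [Prod.fst_sub]; push_cast; ring
    have e4 : ((s - d1).2 : ℝ) = s.2 - d1.2 := by
      rw [Prod.snd_sub]; push_cast; ring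
    rw [e3, e4]
    push_cast
    linear_combination h1 - h2
  · intro w c
    obtain ⟨i, j, k, hw, hc⟩ := h.basis w c
    refine ⟨j, -i, k + i, ?_, ?_⟩
    · rw [hw]
      module
    · rw [hc]
      ring
  · rw [e1, F10_n1_neg, F10_cr_neg]
    have := h.c21
    linarith
  · rw [e2, F10_n1_neg, F10_cr_neg]
    have := h.c11
    linarith
  · rw [e1, F10_n1_neg, F10_cr_neg]
    have := h.c22
    linarith
  · rw [e2, F10_n1_neg, F10_cr_neg]
    have := h.c12
    linarith
  · rw [e1, F10_n1_neg]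
    exact h.l1'
  · rw [e2, F10_n1_neg]
    exact h.l1
  · rw [e1, F10_n1_neg]
    exact h.s1'
  · rw [e2, F10_n1_neg]
    exact h.s1
  · rw [e1, e2, F10_n1_neg, F10_n1_neg, F10_dt_neg]
    have := h.t1
    linarith

end BU39.Fr
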