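import Pool.Agent.LibBU39.Fr11

/-!
Task F14.  Cutting a vector in two parts.  `OkD`: allowed side with slopes in
`[-(u0 + ε), u1 + ε]`.  Take a natural number `M ≥ 100 U / (ε μ)` (so `M ≥ 100`),
`C1 = 2 M (A + 2 + 2 (U + 2) / ε) / μ` (any larger number is fine), and
`P1 = ((2 d.1 - s.1) / M, (2 d.2 - s.2) / M)` (integer division), `P0 = d - P1`.
Write `w = 2 d - s = d + (d - s)`, `N = n1 d`, `N' = n1 (d - s)`; `N' ≤ 3 N`, `N ≤ 3 N'`.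
`w.1 / M - 1 < P1.1 ≤ w.1 / M` and the same for the second coordinates; `w.1 ≥ μ (N + N')`;
`-u0 w.1 ≤ w.2 ≤ u1 w.1`.
* `P1`: `P1.1 ≥ 2 μ C0 / M - 1 ≥ A`; `P1.2 ≤ u1 w.1 / M ≤ u1 (P1.1 + 1) ≤ (u1 + ε) P1.1` because
  `U ≤ ε P1.1`; `P1.2 ≥ -u0 w.1 / M - 1 ≥ -u0 (P1.1 + 1) - 1 ≥ -(u0 + ε) P1.1`.
* `P0`: `P0.1 ≥ (1 - 1/M) d.1 - (d - s).1 / M ≥ (1 - 1/M) μ N - 3 N / M ≥ μ N / 2 ≥ A`;
  `P0.2 ≤ (1 - 1/M) d.2 - (d - s).2 / M + 1 ≤ (1 - 1/M) u1 d.1 + u0 (d - s).1 / M + 1` and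
  `(u1 + ε) P0.1 ≥ (u1 + ε) ((1 - 1/M) d.1 - (d - s).1 / M)`; the difference is at least
  `ε (1 - 1/M) d.1 - (u0 + u1 + ε) (d - s).1 / M - 1 ≥ ε μ N / 2 - (2 U + 1) 3 N / M - 1 ≥ 0`.
  The lower bound in the same way.
* `P0 - s = (d - s) - P1`: the same computation with `d` and `d - s` interchanged.
* all coordinates are bounded by `10 N`.
-/

namespace BU39.Fr

/-- Allowed side. -/
structure OkD (ε : ℝ) (A : ℤ) (u0 u1 K : ℝ) (D : V) : Prop where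
  lo : A ≤ D.1
  hi : (D.1 : ℝ) ≤ K
  hi2 : |(D.2 : ℝ)| ≤ K
  sp : (D.2 : ℝ) ≤ (u1 + ε) * D.1
  sm : -((u0 + ε) * D.1) ≤ (D.2 : ℝ)

/-- Hypotheses of the cutting lemma. -/
structure CutH (μ U C0 u0 u1 : ℝ) (d s : V) : Prop where
  u00 : 0 ≤ u0
  u0U : u0 ≤ U
  u10 : 0 ≤ u1
  u1U : u1 ≤ U
  r : RtV μ (rv d)
  r' : RtV μ (rv (d - s))
  l : C0 ≤ n1 (rv d)
  l' : C0 ≤ n1 (rv (d - s))
  s1 : n1 (rv s) ≤ 2 * n1 (rv d)
  s1' : n1 (rv s) ≤ 2 * n1 (rv (d - s))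
  p : (d.2 : ℝ) ≤ u1 * d.1
  q : -(u0 * d.1) ≤ (d.2 : ℝ)
  p' : ((d - s).2 : ℝ) ≤ u1 * (d - s).1
  q' : -(u0 * (d - s).1) ≤ ((d - s).2 : ℝ)

private theorem Fr14_real {μ ε U A x n u0 u1 a1 a2 b1 b2 p1 p2 : ℝ} (hμ : 0 < μ) (hμ1 : μ ≤ 1)
    (hε : 0 < ε) (hε1 : ε ≤ 1) (hU : 1 ≤ U) (hx : 0 < x) (hx1 : 100 * U * x ≤ ε * μ)
    (hA : 0 ≤ A) (u00 : 0 ≤ u0) (u0U : u0 ≤ U) (u10 : 0 ≤ u1) (u1U : u1 ≤ U)
    (ha : μ * n ≤ a1) (hb0 : 0 ≤ b1) (hb : b1 ≤ 3 * n) (hn : 0 ≤ n) (hnA : 2 * A ≤ μ * n)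
    (hnε : 2 ≤ ε * μ * n)
    (p : a2 ≤ u1 * a1) (q : -(u0 * a1) ≤ a2) (p' : b2 ≤ u1 * b1) (q' : -(u0 * b1) ≤ b2)
    (h1 : (a1 + b1) * x - 1 ≤ p1) (h2 : p1 ≤ (a1 + b1) * x)
    (h3 : (a2 + b2) * x - 1 ≤ p2) (h4 : p2 ≤ (a2 + b2) * x) :
    A ≤ a1 - p1 ∧ a2 - p2 ≤ (u1 + ε) * (a1 - p1) ∧ -((u0 + ε) * (a1 - p1)) ≤ a2 - p2 := by
  have hεμ : ε * μ ≤ 1 := by nlinarith
  have hx2 : 100 * x ≤ 100 * U * x := by nlinarith
  have hx3 : x ≤ 1 / 100 := by linarith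
  have hεμ' : ε * μ ≤ μ := by nlinarith
  have ha0 : 0 ≤ a1 := le_trans (by positivity) ha
  -- bounds for `r = x a1`, `t = x b1`
  have hr : x * a1 ≤ 1 / 100 * a1 := mul_le_mul_of_nonneg_right hx3 ha0
  have hr0 : 0 ≤ x * a1 := by positivity
  have ht0 : 0 ≤ x * b1 := by positivity
  have hUt : U * (x * b1) ≤ 3 / 100 * (ε * a1) := by
    have e1 : U * (x * b1) ≤ U * x * (3 * n) := by
      have := mul_le_mul_of_nonneg_left hb (show (0 : ℝ) ≤ U * x by positivity)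
      linarith
    have e2 : 100 * U * x * n ≤ ε * μ * n := mul_le_mul_of_nonneg_right hx1 hn
    have e3 : ε * (μ * n) ≤ ε * a1 := mul_le_mul_of_nonneg_left ha hε.le
    linarith
  have ht : x * b1 ≤ U * (x * b1) := by nlinarith
  have hεa : ε * a1 ≤ a1 := by nlinarith
  have hεt : ε * (x * b1) ≤ U * (x * b1) := by nlinarith
  have hεr : ε * (x * a1) ≤ 1 / 100 * (ε * a1) := by nlinarith
  have hu0t : u0 * (x * b1) ≤ U * (x * b1) := mul_le_mul_of_nonneg_right u0U ht0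
  have hu1t : u1 * (x * b1) ≤ U * (x * b1) := mul_le_mul_of_nonneg_right u1U ht0
  have hn2 : 2 ≤ ε * a1 := by
    have e3 : ε * (μ * n) ≤ ε * a1 := mul_le_mul_of_nonneg_left ha hε.le
    linarith
  have hlow : a1 - x * a1 - x * b1 ≤ a1 - p1 := by linarith
  have hx4 : 0 ≤ 1 - x := by linarith
  have e1 := mul_le_mul_of_nonneg_left p hx4
  have e2 := mul_le_mul_of_nonneg_left q' hx.le
  have e3 := mul_le_mul_of_nonneg_left q hx4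
  have e4 := mul_le_mul_of_nonneg_left p' hx.le
  refine ⟨by linarith, ?_, ?_⟩
  · have e5 := mul_le_mul_of_nonneg_left hlow (show (0 : ℝ) ≤ u1 + ε by linarith)
    refine le_trans ?_ e5
    nlinarith
  · have e5 := mul_le_mul_of_nonneg_left hlow (show (0 : ℝ) ≤ u0 + ε by linarith)
    have e6 : -((u0 + ε) * (a1 - p1)) ≤ -((u0 + ε) * (a1 - x * a1 - x * b1)) := by linarith
    refine e6.trans ?_
    nlinarith

theorem cut2 {μ ε U : ℝ} {A : ℤ} (hμ : 0 < μ) (hμ1 : μ ≤ 1) (hε : 0 < ε) (hε1 : ε ≤ 1)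
    (hU : 1 ≤ U) (hA : 1 ≤ A) (hA2 : 4 * U ≤ ε * A) : ∃ C1 : ℝ, ∀ (C0 u0 u1 : ℝ) (d s : V),
      C1 ≤ C0 → CutH μ U C0 u0 u1 d s →
      ∃ P0 P1 : V, P0 + P1 = d ∧ OkD ε A u0 u1 (10 * n1 (rv d)) P0 ∧
        OkD ε A u0 u1 (10 * n1 (rv d)) P1 ∧ OkD ε A u0 u1 (10 * n1 (rv d)) (P0 - s) := by
  have hAR : (1 : ℝ) ≤ (A : ℝ) := by exact_mod_cast hA
  obtain ⟨x, hxdef⟩ : ∃ x : ℝ, x = ε * μ / (100 * U) := ⟨_, rfl⟩
  have hU0 : 0 < U := by linarith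
  have hx : 0 < x := by rw [hxdef]; positivity
  have hx1 : 100 * U * x = ε * μ := by rw [hxdef]; field_simp
  have hεμ : ε * μ ≤ 1 := by nlinarith
  have hx2 : 100 * x ≤ 100 * U * x := by nlinarith
  have hx3 : x ≤ 1 / 100 := by linarith
  refine ⟨((A : ℝ) + 1) / (2 * μ * x) + 2 * A / μ + 2 / (ε * μ) + 1, ?_⟩
  intro C0 u0 u1 d s hC0 H
  have t1 : 0 ≤ ((A : ℝ) + 1) / (2 * μ * x) := by positivity
  have t2 : 0 ≤ 2 * (A : ℝ) / μ := by positivity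
  have t3 : 0 ≤ 2 / (ε * μ) := by positivity
  have c1 : ((A : ℝ) + 1) / (2 * μ * x) ≤ C0 := by linarith
  have c2 : 2 * (A : ℝ) / μ ≤ C0 := by linarith
  have c3 : 2 / (ε * μ) ≤ C0 := by linarith
  have c4 : 1 ≤ C0 := by linarith
  rw [div_le_iff₀ (by positivity)] at c1 c2 c3
  obtain ⟨N, hN⟩ : ∃ N, N = BU39.Fr.n1 (rv d) := ⟨_, rfl⟩
  obtain ⟨N', hN'⟩ : ∃ N', N' = BU39.Fr.n1 (rv (d - s)) := ⟨_, rfl⟩
  have r := H.r
  have r' := H.r'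
  have l := H.l
  have l' := H.l'
  have s1 := H.s1
  have s1' := H.s1'
  unfold RtV at r r'
  rw [← hN] at r l s1
  rw [← hN'] at r' l' s1'
  have hd' : ∀ z : V, BU39.Fr.n1 (rv z) = |(z.1 : ℝ)| + |(z.2 : ℝ)| := fun z => rfl
  have f1 : (((d - s).1 : ℤ) : ℝ) = d.1 - s.1 := by simp
  have f2 : (((d - s).2 : ℤ) : ℝ) = d.2 - s.2 := by simp
  rw [hd', f1, f2] at hN'
  rw [hd'] at hN s1 s1'
  change μ * N ≤ (d.1 : ℝ) at r
  change μ * N' ≤ (((d - s).1 : ℤ) : ℝ) at r'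
  have hp := H.p
  have hq := H.q
  have hp' := H.p'
  have hq' := H.q'
  rw [f1] at r' hp' hq'
  rw [f2] at hp' hq'
  have hN0 : 1 ≤ N := by linarith
  have hN0' : 1 ≤ N' := by linarith
  -- comparison of the lengths
  have g1 : |(d.1 : ℝ) - s.1| ≤ |(d.1 : ℝ)| + |(s.1 : ℝ)| := abs_sub _ _
  have g2 : |(d.2 : ℝ) - s.2| ≤ |(d.2 : ℝ)| + |(s.2 : ℝ)| := abs_sub _ _
  have hN'N : N' ≤ 3 * N := by linarith
  have g3 : |(d.1 : ℝ)| ≤ |(d.1 : ℝ) - s.1| + |(s.1 : ℝ)| := by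
    have := abs_add_le ((d.1 : ℝ) - s.1) (s.1 : ℝ)
    rwa [sub_add_cancel] at this
  have g4 : |(d.2 : ℝ)| ≤ |(d.2 : ℝ) - s.2| + |(s.2 : ℝ)| := by
    have := abs_add_le ((d.2 : ℝ) - s.2) (s.2 : ℝ)
    rwa [sub_add_cancel] at this
  have hNN' : N ≤ 3 * N' := by linarith
  obtain ⟨a1, ha1⟩ : ∃ a : ℝ, a = (d.1 : ℝ) := ⟨_, rfl⟩
  obtain ⟨a2, ha2⟩ : ∃ a : ℝ, a = (d.2 : ℝ) := ⟨_, rfl⟩
  obtain ⟨b1, hb1⟩ : ∃ a : ℝ, a = (d.1 : ℝ) - s.1 := ⟨_, rfl⟩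
  obtain ⟨b2, hb2⟩ : ∃ a : ℝ, a = (d.2 : ℝ) - s.2 := ⟨_, rfl⟩
  rw [← ha1] at r hN hp hq
  rw [← ha2] at hN hp hq
  rw [← hb1] at r' hN' hp' hq'
  rw [← hb2] at hN' hp' hq'
  have k1 := abs_le.1 (show |a1| ≤ N by linarith [abs_nonneg a2])
  have k2 := abs_le.1 (show |a2| ≤ N by linarith [abs_nonneg a1])
  have k3 := abs_le.1 (show |b1| ≤ N' by linarith [abs_nonneg b2])
  have k4 := abs_le.1 (show |b2| ≤ N' by linarith [abs_nonneg b1])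
  have hmN : 0 ≤ μ * N := by positivity
  have hmN' : 0 ≤ μ * N' := by positivity
  have hC0N : μ * C0 ≤ μ * N := mul_le_mul_of_nonneg_left l hμ.le
  have hC0N' : μ * C0 ≤ μ * N' := mul_le_mul_of_nonneg_left l' hμ.le
  have hεC0N : ε * μ * C0 ≤ ε * μ * N := mul_le_mul_of_nonneg_left l (by positivity)
  have hεC0N' : ε * μ * C0 ≤ ε * μ * N' := mul_le_mul_of_nonneg_left l' (by positivity)
  -- the vector `P1`
  obtain ⟨m1, hm1⟩ : ∃ m : ℤ, m = ⌊(a1 + b1) * x⌋ := ⟨_, rfl⟩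
  obtain ⟨m2, hm2⟩ : ∃ m : ℤ, m = ⌊(a2 + b2) * x⌋ := ⟨_, rfl⟩
  have i1 : (m1 : ℝ) ≤ (a1 + b1) * x := by rw [hm1]; exact Int.floor_le _
  have i2 : (a1 + b1) * x - 1 ≤ (m1 : ℝ) := by rw [hm1]; exact (Int.sub_one_lt_floor _).le
  have i3 : (m2 : ℝ) ≤ (a2 + b2) * x := by rw [hm2]; exact Int.floor_le _
  have i4 : (a2 + b2) * x - 1 ≤ (m2 : ℝ) := by rw [hm2]; exact (Int.sub_one_lt_floor _).le
  have j1 : (a1 + b1) * x ≤ 4 * N * (1 / 100) := by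
    have e1 : (a1 + b1) * x ≤ 4 * N * x := mul_le_mul_of_nonneg_right (by linarith) hx.le
    exact e1.trans (mul_le_mul_of_nonneg_left hx3 (by linarith))
  have j2 : (a2 + b2) * x ≤ 4 * N * (1 / 100) := by
    have e1 : (a2 + b2) * x ≤ 4 * N * x := mul_le_mul_of_nonneg_right (by linarith) hx.le
    exact e1.trans (mul_le_mul_of_nonneg_left hx3 (by linarith))
  have j3 : -(4 * N * (1 / 100)) ≤ (a2 + b2) * x := by
    have e1 : -(4 * N) * x ≤ (a2 + b2) * x := mul_le_mul_of_nonneg_right (by linarith) hx.le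
    have e2 : 4 * N * x ≤ 4 * N * (1 / 100) := mul_le_mul_of_nonneg_left hx3 (by linarith)
    linarith
  have j4 : 0 ≤ (a1 + b1) * x := mul_nonneg (by linarith) hx.le
  obtain ⟨o1, o2, o3⟩ := Fr14_real (p1 := m1) (p2 := m2) hμ hμ1 hε hε1 hU hx hx1.le
    (by linarith : (0 : ℝ) ≤ A) H.u00 H.u0U H.u10 H.u1U r (by linarith) (by linarith)
    (by linarith : (0 : ℝ) ≤ N) (by linarith) (by linarith) hp hq hp' hq' i2 i1 i4 i3
  obtain ⟨q1, q2, q3⟩ := Fr14_real (p1 := m1) (p2 := m2) hμ hμ1 hε hε1 hU hx hx1.le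
    (by linarith : (0 : ℝ) ≤ A) H.u00 H.u0U H.u10 H.u1U r' (by linarith) (by linarith)
    (by linarith : (0 : ℝ) ≤ N') (by linarith) (by linarith) hp' hq' hp hq
    (by linarith) (by linarith) (by linarith) (by linarith)
  have hm1A : (A : ℝ) ≤ m1 := by
    have e1 : 2 * μ * C0 ≤ a1 + b1 := by linarith
    have e2 : 2 * μ * C0 * x ≤ (a1 + b1) * x := mul_le_mul_of_nonneg_right e1 hx.le
    linarith
  have hεA : 4 * U ≤ ε * m1 := by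
    have := mul_le_mul_of_nonneg_left hm1A hε.le
    linarith
  have hu1 : (a2 + b2) * x ≤ u1 * ((a1 + b1) * x) := by
    have := mul_le_mul_of_nonneg_right (show a2 + b2 ≤ u1 * (a1 + b1) by linarith) hx.le
    linarith
  have hu0 : -(u0 * ((a1 + b1) * x)) ≤ (a2 + b2) * x := by
    have := mul_le_mul_of_nonneg_right (show -(u0 * (a1 + b1)) ≤ a2 + b2 by linarith) hx.le
    linarith
  have hu1' : u1 * ((a1 + b1) * x) ≤ u1 * (m1 + 1) :=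
    mul_le_mul_of_nonneg_left (by linarith) H.u10
  have hu0' : u0 * ((a1 + b1) * x) ≤ u0 * (m1 + 1) :=
    mul_le_mul_of_nonneg_left (by linarith) H.u00
  have hu1U := H.u1U
  have hu0U := H.u0U
  have hK : (10 : ℝ) * BU39.Fr.n1 (rv d) = 10 * N := by rw [hd', hN, ha1, ha2]
  rw [hK]
  refine ⟨(d.1 - m1, d.2 - m2), (m1, m2), ?_, ?_, ?_, ?_⟩
  · apply Prod.ext
    · simp
    · simp
  · refine ⟨?_, ?_, ?_, ?_, ?_⟩
    · have : ((A : ℤ) : ℝ) ≤ ((d.1 - m1 : ℤ) : ℝ) := by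
        push_cast
        rw [← ha1]
        exact o1
      exact_mod_cast this
    · push_cast
      rw [← ha1]
      linarith
    · push_cast
      rw [← ha2, abs_le]
      constructor <;> linarith
    · push_cast
      rw [← ha1, ← ha2]
      exact o2
    · push_cast
      rw [← ha1, ← ha2]
      exact o3
  · refine ⟨by exact_mod_cast hm1A, by linarith, ?_, ?_, ?_⟩
    · rw [abs_le]
      constructor <;> linarith
    · change (m2 : ℝ) ≤ (u1 + ε) * m1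
      linarith
    · change -((u0 + ε) * (m1 : ℝ)) ≤ m2
      linarith
  · have e1 : ((d.1 - m1, d.2 - m2) - s : V) = (d.1 - s.1 - m1, d.2 - s.2 - m2) := by
      apply Prod.ext
      · simp only [Prod.fst_sub]
        ring
      · simp only [Prod.snd_sub]
        ring
    rw [e1]
    refine ⟨?_, ?_, ?_, ?_, ?_⟩
    · have : ((A : ℤ) : ℝ) ≤ ((d.1 - s.1 - m1 : ℤ) : ℝ) := by
        push_cast
        rw [← hb1]
        exact q1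
      exact_mod_cast this
    · push_cast
      rw [← hb1]
      linarith
    · push_cast
      rw [← hb2, abs_le]
      constructor <;> linarith
    · push_cast
      rw [← hb1, ← hb2]
      exact q2
    · push_cast
      rw [← hb1, ← hb2]
      exact q3

end BU39.Fr
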