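import Pool.Agent.LibBU39.Fr14

/-!
Task F15.  Cutting a long vector in many equal parts.  Let `S ≥ 0` be a bound for `n1 s`.  Take an
integer `L ≥ 2 (U + 1) (S + 2) / ε + A + S + 3`, `B = 2 L`, `n = (d.1 / L).toNat` (integer
division; `d.1 ≥ 2 L` gives `n ≥ 2`, and `L n ≤ d.1 < L (n + 1) ≤ 2 L n`),
`P a = (d.1 (a + 1) / n - d.1 a / n, d.2 (a + 1) / n - d.2 a / n)` (integer divisions, telescoping
sum).  `P a .1` differs from `d.1 / n ∈ [L, 2 L]` by less than `1`, `P a .2` differs from `d.2 / n`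
by less than `1`, so `L - 1 ≤ P a .1 ≤ 2 L + 1`,
`P a .2 ≤ u1 d.1 / n + 1 ≤ u1 (P a .1 + 1) + 1 ≤ (u1 + ε) P a .1`, and the same for the lower
bound.  `P 0 - s`: first coordinate `≥ L - 1 - S ≥ A`; second coordinate
`≤ u1 (P 0 .1 + 1) + 1 + S ≤ u1 (P 0 - s).1 + u1 (S + 1) + 1 + S ≤ (u1 + ε) (P 0 - s).1` because
`(U + 1) (S + 2) ≤ ε (L - 1 - S)`.  All coordinates are bounded by `K = (U + 2) (2 L + S + 2)`.
-/

namespace BU39.Fr

/-- steps of the integer parts -/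
theorem cutn_step (D : ℤ) (a n : ℤ) (hn : 0 < n) :
    D - n < n * (D * (a + 1) / n - D * a / n) ∧ n * (D * (a + 1) / n - D * a / n) < D + n := by
  have h1 := Int.ediv_mul_le (D * (a + 1)) hn.ne'
  have h2 := Int.lt_ediv_add_one_mul_self (D * (a + 1)) hn
  have h3 := Int.ediv_mul_le (D * a) hn.ne'
  have h4 := Int.lt_ediv_add_one_mul_self (D * a) hn
  constructor <;> nlinarith

/-- one part -/
theorem cutn_one {ε U : ℝ} {u0 u1 n L x y D E : ℝ} (hn : 0 < n) (hu0 : 0 ≤ u0) (hu0U : u0 ≤ U)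
    (hu1 : 0 ≤ u1) (hu1U : u1 ≤ U) (hL : U + 1 ≤ ε * L)
    (hLx : L ≤ x) (hε : 0 < ε) (h1 : D - n < n * x) (h2 : n * y < E + n)
    (h3 : E - n < n * y) (p : E ≤ u1 * D) (q : -(u0 * D) ≤ E) :
    y ≤ u1 * (x + 1) + 1 ∧ -(u0 * (x + 1) + 1) ≤ y ∧
    y ≤ (u1 + ε) * x ∧ -((u0 + ε) * x) ≤ y := by
  have hD : D ≤ n * (x + 1) := by linarith
  have a1 : n * y ≤ n * (u1 * (x + 1) + 1) := by
    have := mul_le_mul_of_nonneg_left hD hu1
    nlinarith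
  have a2 : n * (-(u0 * (x + 1) + 1)) ≤ n * y := by
    have := mul_le_mul_of_nonneg_left hD hu0
    nlinarith
  have b1 := le_of_mul_le_mul_left a1 hn
  have b2 := le_of_mul_le_mul_left a2 hn
  have c : ε * L ≤ ε * x := mul_le_mul_of_nonneg_left hLx hε.le
  refine ⟨b1, b2, ?_, ?_⟩
  · nlinarith
  · nlinarith

theorem cutn {ε U S : ℝ} {A : ℤ} (hε : 0 < ε) (hε1 : ε ≤ 1) (hU : 1 ≤ U) (hA : 1 ≤ A)
    (hS : 0 ≤ S) : ∃ B K : ℝ, ∀ (u0 u1 : ℝ) (d s : V), 0 ≤ u0 → u0 ≤ U → 0 ≤ u1 → u1 ≤ U →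
      n1 (rv s) ≤ S → B ≤ d.1 → (d.2 : ℝ) ≤ u1 * d.1 → -(u0 * d.1) ≤ (d.2 : ℝ) →
      ∃ (n : ℕ) (P : ℕ → V), 2 ≤ n ∧ ∑ a ∈ Finset.range n, P a = d ∧
        (∀ a < n, OkD ε A u0 u1 K (P a)) ∧ OkD ε A u0 u1 K (P 0 - s) := by
  set L : ℤ := ⌈2 * (U + 1) * (S + 2) / ε + A + S + 3⌉ with hLdef
  have hA' : (1 : ℝ) ≤ A := by exact_mod_cast hA
  have hL : 2 * (U + 1) * (S + 2) / ε + A + S + 3 ≤ (L : ℝ) := Int.le_ceil _
  have hX : 0 ≤ 2 * (U + 1) * (S + 2) / ε := by positivity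
  have hL1 : (1 : ℝ) ≤ L := by linarith
  have hL1' : 1 ≤ L := by exact_mod_cast hL1
  have hLe : 2 * (U + 1) * (S + 2) ≤ ε * (L - S) := by
    have : 2 * (U + 1) * (S + 2) / ε ≤ L - S := by linarith
    rwa [div_le_iff₀ hε, mul_comm _ ε] at this
  have hLe2 : U + 1 ≤ ε * L := by nlinarith
  refine ⟨2 * L, (U + 2) * (2 * L + S + 2), ?_⟩
  intro u0 u1 d s hu0 hu0U hu1 hu1U hs hB hp hq
  have hB' : 2 * L ≤ d.1 := by exact_mod_cast hB
  have hL0 : 0 < L := by omega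
  set N : ℤ := d.1 / L with hN
  have hN2 : 2 ≤ N := by
    rw [hN, Int.le_ediv_iff_mul_le hL0]
    exact hB'
  have hN1 : N * L ≤ d.1 := Int.ediv_mul_le _ hL0.ne'
  have hN3 : d.1 < (N + 1) * L := Int.lt_ediv_add_one_mul_self _ hL0
  have hnN : ((N.toNat : ℕ) : ℤ) = N := Int.toNat_of_nonneg (by omega)
  have hN0 : 0 < N := by omega
  have hNr : (0 : ℝ) < N := by exact_mod_cast hN0
  -- the parts
  have key : ∀ a : ℕ, (L : ℤ) ≤ d.1 * (a + 1) / N - d.1 * a / N ∧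
      d.1 * (a + 1) / N - d.1 * a / N ≤ 2 * L := by
    intro a
    obtain ⟨h1, h2⟩ := cutn_step d.1 a N hN0
    constructor
    · by_contra hcon
      push Not at hcon
      have : N * (d.1 * (a + 1) / N - d.1 * a / N) ≤ N * (L - 1) :=
        mul_le_mul_of_nonneg_left (by omega) hN0.le
      nlinarith
    · by_contra hcon
      push Not at hcon
      have : N * (2 * L + 1) ≤ N * (d.1 * (a + 1) / N - d.1 * a / N) :=
        mul_le_mul_of_nonneg_left (by omega) hN0.le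
      nlinarith
  have key2 : ∀ a : ℕ,
      ((d.2 * (a + 1) / N - d.2 * a / N : ℤ) : ℝ) ≤
        u1 * (((d.1 * (a + 1) / N - d.1 * a / N : ℤ) : ℝ) + 1) + 1 ∧
      -(u0 * (((d.1 * (a + 1) / N - d.1 * a / N : ℤ) : ℝ) + 1) + 1) ≤
        ((d.2 * (a + 1) / N - d.2 * a / N : ℤ) : ℝ) ∧
      ((d.2 * (a + 1) / N - d.2 * a / N : ℤ) : ℝ) ≤
        (u1 + ε) * ((d.1 * (a + 1) / N - d.1 * a / N : ℤ) : ℝ) ∧
      -((u0 + ε) * ((d.1 * (a + 1) / N - d.1 * a / N : ℤ) : ℝ)) ≤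
        ((d.2 * (a + 1) / N - d.2 * a / N : ℤ) : ℝ) := by
    intro a
    obtain ⟨h1, h2⟩ := cutn_step d.1 a N hN0
    obtain ⟨h3, h4⟩ := cutn_step d.2 a N hN0
    have hk := (key a).1
    refine cutn_one (U := U) (n := N) (L := L) (D := d.1) (E := d.2) hNr hu0 hu0U hu1 hu1U hLe2
      (by exact_mod_cast hk) hε (by exact_mod_cast h1) (by exact_mod_cast h4)
      (by exact_mod_cast h3) hp hq
  have hs' : |(s.1 : ℝ)| + |(s.2 : ℝ)| ≤ S := hs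
  have hs1 : |(s.1 : ℝ)| ≤ S := by linarith [abs_nonneg (s.2 : ℝ)]
  have hs2 : |(s.2 : ℝ)| ≤ S := by linarith [abs_nonneg (s.1 : ℝ)]
  rw [abs_le] at hs1 hs2
  refine ⟨N.toNat, fun a => (d.1 * (a + 1) / N - d.1 * a / N, d.2 * (a + 1) / N - d.2 * a / N),
    by omega, ?_, ?_, ?_⟩
  · have h := Finset.sum_range_sub (fun a : ℕ => ((d.1 * a / N, d.2 * a / N) : V)) N.toNat
    have e : ∀ a : ℕ, ((d.1 * (a + 1) / N - d.1 * a / N, d.2 * (a + 1) / N - d.2 * a / N) : V) =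
        ((d.1 * ((a + 1 : ℕ) : ℤ) / N, d.2 * ((a + 1 : ℕ) : ℤ) / N) : V) -
          (d.1 * a / N, d.2 * a / N) := by
      intro a
      ext <;> simp
    simp only [e]
    rw [h, hnN]
    ext
    · simp [Int.mul_ediv_cancel _ hN0.ne']
    · simp [Int.mul_ediv_cancel _ hN0.ne']
  · intro a _
    obtain ⟨k1, k2⟩ := key a
    obtain ⟨k3, k4, k5, k6⟩ := key2 a
    have k1' : (L : ℝ) ≤ ((d.1 * (a + 1) / N - d.1 * a / N : ℤ) : ℝ) := by exact_mod_cast k1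
    have k2' : ((d.1 * (a + 1) / N - d.1 * a / N : ℤ) : ℝ) ≤ 2 * L := by exact_mod_cast k2
    show OkD ε A u0 u1 _
      (d.1 * ((a : ℤ) + 1) / N - d.1 * a / N, d.2 * ((a : ℤ) + 1) / N - d.2 * a / N)
    generalize ((d.1 * (a + 1) / N - d.1 * a / N : ℤ)) = x at *
    generalize ((d.2 * (a + 1) / N - d.2 * a / N : ℤ)) = y at *
    have m1 : u1 * ((x : ℝ) + 1) ≤ U * (2 * L + 1) :=
      mul_le_mul hu1U (by linarith) (by linarith) (by linarith)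
    have m0 : u0 * ((x : ℝ) + 1) ≤ U * (2 * L + 1) :=
      mul_le_mul hu0U (by linarith) (by linarith) (by linarith)
    constructor
    · show A ≤ x
      have : (A : ℝ) ≤ x := by linarith
      exact_mod_cast this
    · show (x : ℝ) ≤ _
      nlinarith
    · show |(y : ℝ)| ≤ _
      rw [abs_le]
      constructor
      · nlinarith
      · nlinarith
    · exact k5
    · exact k6
  · obtain ⟨k1, k2⟩ := key 0
    obtain ⟨k3, k4, k5, k6⟩ := key2 0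
    have k1' : (L : ℝ) ≤ ((d.1 * ((0 : ℕ) + 1) / N - d.1 * (0 : ℕ) / N : ℤ) : ℝ) := by
      exact_mod_cast k1
    have k2' : ((d.1 * ((0 : ℕ) + 1) / N - d.1 * (0 : ℕ) / N : ℤ) : ℝ) ≤ 2 * L := by
      exact_mod_cast k2
    have e : ((d.1 * (((0 : ℕ) : ℤ) + 1) / N - d.1 * ((0 : ℕ) : ℤ) / N,
        d.2 * (((0 : ℕ) : ℤ) + 1) / N - d.2 * ((0 : ℕ) : ℤ) / N) : V) - s =
        (d.1 * (((0 : ℕ) : ℤ) + 1) / N - d.1 * ((0 : ℕ) : ℤ) / N - s.1,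
        d.2 * (((0 : ℕ) : ℤ) + 1) / N - d.2 * ((0 : ℕ) : ℤ) / N - s.2) := rfl
    show OkD ε A u0 u1 _ (((d.1 * (((0 : ℕ) : ℤ) + 1) / N - d.1 * ((0 : ℕ) : ℤ) / N,
        d.2 * (((0 : ℕ) : ℤ) + 1) / N - d.2 * ((0 : ℕ) : ℤ) / N) : V) - s)
    rw [e]
    generalize ((d.1 * (((0 : ℕ) : ℤ) + 1) / N - d.1 * ((0 : ℕ) : ℤ) / N : ℤ)) = x at *
    generalize ((d.2 * (((0 : ℕ) : ℤ) + 1) / N - d.2 * ((0 : ℕ) : ℤ) / N : ℤ)) = y at *
    have m1 : u1 * ((x : ℝ) + 1) ≤ U * (2 * L + 1) :=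
      mul_le_mul hu1U (by linarith) (by linarith) (by linarith)
    have m0 : u0 * ((x : ℝ) + 1) ≤ U * (2 * L + 1) :=
      mul_le_mul hu0U (by linarith) (by linarith) (by linarith)
    have hxs : (L : ℝ) - S ≤ x - s.1 := by linarith
    have hεx : ε * (L - S) ≤ ε * (x - s.1) := mul_le_mul_of_nonneg_left hxs hε.le
    have m2 : u1 * (s.1 : ℝ) ≤ U * S := by
      calc u1 * (s.1 : ℝ) ≤ u1 * S := mul_le_mul_of_nonneg_left hs1.2 hu1
        _ ≤ U * S := mul_le_mul_of_nonneg_right hu1U hS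
    have m3 : u0 * (s.1 : ℝ) ≤ U * S := by
      calc u0 * (s.1 : ℝ) ≤ u0 * S := mul_le_mul_of_nonneg_left hs1.2 hu0
        _ ≤ U * S := mul_le_mul_of_nonneg_right hu0U hS
    constructor
    · show A ≤ x - s.1
      have : (A : ℝ) ≤ x - s.1 := by linarith
      exact_mod_cast this
    · show ((x - s.1 : ℤ) : ℝ) ≤ _
      push_cast
      nlinarith
    · show |((y - s.2 : ℤ) : ℝ)| ≤ _
      push_cast
      rw [abs_le]
      constructor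
      · nlinarith
      · nlinarith
    · show ((y - s.2 : ℤ) : ℝ) ≤ (u1 + ε) * ((x - s.1 : ℤ) : ℝ)
      push_cast
      nlinarith
    · show -((u0 + ε) * ((x - s.1 : ℤ) : ℝ)) ≤ ((y - s.2 : ℤ) : ℝ)
      push_cast
      nlinarith

end BU39.Fr
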