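import Pool.Agent.LibBU39.Frame

/-!
Module FRAME, definitions.  Vectors of `ℤ × ℤ` (`V`), real vectors `ℝ × ℝ`.
-/

namespace BU39.Fr

/-- The value of `(z, k)`. -/
def val (x y : ℝ) (z : V) (k : ℤ) : ℝ := (z.1 : ℝ) * x + z.2 * y - k

/-- Real vector of an integer vector. -/
def rv (z : V) : ℝ × ℝ := ((z.1 : ℝ), (z.2 : ℝ))

/-- Squared Euclidean length. -/
def nz (a : ℝ × ℝ) : ℝ := a.1 ^ 2 + a.2 ^ 2

/-- Cross product. -/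
def cr (a b : ℝ × ℝ) : ℝ := a.1 * b.2 - a.2 * b.1

/-- Scalar product. -/
def dt (a b : ℝ × ℝ) : ℝ := a.1 * b.1 + a.2 * b.2

/-- `1`-norm. -/
def n1 (a : ℝ × ℝ) : ℝ := |a.1| + |a.2|

/-- `(s, cs)` minimises the positive values among the vectors of length `< C`. -/
structure IsMin (x y C : ℝ) (s : V) (cs : ℤ) : Prop where
  s0 : s ≠ 0
  sC : nz (rv s) < C ^ 2
  p0 : 0 < val x y s cs
  p1 : val x y s cs < 1
  mn : ∀ (z : V) (k : ℤ), nz (rv z) < C ^ 2 → 0 < val x y z k → val x y s cs ≤ val x y z k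

/-- As `IsMin`, and `s` is shorter by a factor `64/65`. -/
structure IsSc (x y C : ℝ) (s : V) (cs : ℤ) : Prop extends IsMin x y C s cs where
  gap : (1 + 1 / 64) ^ 2 * nz (rv s) ≤ C ^ 2

/-- Phase of `(z, k)` in units of `δ = val s cs`. -/
noncomputable def lam (x y : ℝ) (s : V) (cs : ℤ) (z : V) (k : ℤ) : ℝ :=
  val x y z k / val x y s cs

/-- Projection of `(z, k)` along `(s, cs)`. -/
noncomputable def pj (x y : ℝ) (s : V) (cs : ℤ) (z : V) (k : ℤ) : ℝ × ℝ :=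
  rv z - lam x y s cs z k • rv s

/-- Reduced basis of `ℤ³` modulo `(s, cs)`. -/
structure Red (x y : ℝ) (s : V) (cs : ℤ) (e : V) (ke : ℤ) (f : V) (kf : ℤ) : Prop where
  sp : ∀ (w : V) (c : ℤ), ∃ i j h : ℤ, w = i • e + j • f + h • s ∧ c = i * ke + j * kf + h * cs
  cr0 : cr (pj x y s cs e ke) (pj x y s cs f kf) ≠ 0
  le : nz (pj x y s cs e ke) ≤ nz (pj x y s cs f kf)
  rd : 2 * |dt (pj x y s cs e ke) (pj x y s cs f kf)| ≤ nz (pj x y s cs e ke)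

/-- The data of a frame without the subdivision; `m0` is the margin, `C0` the scale. -/
structure CoreF (m0 C0 x y : ℝ) (s d1 d2 : V) (cs k1 k2 : ℤ) (δ x' y' : ℝ) : Prop where
  hs : s ≠ 0
  sb : n1 (rv s) ≤ 4 * C0
  hδ0 : 0 < δ
  hδ1 : δ < 1
  hx0 : 0 < x'
  hx1 : x' < 1
  hy0 : 0 < y'
  hy1 : y' < 1
  es : (s.1 : ℝ) * x + s.2 * y - cs = δ
  ed1 : (d1.1 : ℝ) * x + d1.2 * y - k1 = x' * δ
  ed2 : (d2.1 : ℝ) * x + d2.2 * y - k2 = y' * δ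
  basis : ∀ (w : V) (c : ℤ), ∃ i j h : ℤ,
    w = i • d1 + j • d2 + h • s ∧ c = i * k1 + j * k2 + h * cs
  c11 : m0 * n1 (rv d1) * n1 (rv d2) ≤ cr (rv d1) (rv d2)
  c12 : m0 * n1 (rv d1) * n1 (rv (d2 - s)) ≤ cr (rv d1) (rv (d2 - s))
  c21 : m0 * n1 (rv (d1 - s)) * n1 (rv d2) ≤ cr (rv (d1 - s)) (rv d2)
  c22 : m0 * n1 (rv (d1 - s)) * n1 (rv (d2 - s)) ≤ cr (rv (d1 - s)) (rv (d2 - s))
  l1 : C0 ≤ n1 (rv d1)
  l1' : C0 ≤ n1 (rv (d1 - s))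
  l2 : C0 ≤ n1 (rv d2)
  l2' : C0 ≤ n1 (rv (d2 - s))
  s1 : n1 (rv s) ≤ 2 * n1 (rv d1)
  s1' : n1 (rv s) ≤ 2 * n1 (rv (d1 - s))
  s2 : n1 (rv s) ≤ 2 * n1 (rv d2)
  s2' : n1 (rv s) ≤ 2 * n1 (rv (d2 - s))
  t1 : 1 / 4 * n1 (rv d1) * n1 (rv (d1 - s)) ≤ dt (rv d1) (rv (d1 - s))
  t2 : 1 / 4 * n1 (rv d2) * n1 (rv (d2 - s)) ≤ dt (rv d2) (rv (d2 - s))

end BU39.Fr
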