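import Pool.Agent.LibBU39.Geo

/-!
Frames (definition).  A frame describes the step from a `Λ`-level with rotation numbers
`x`, `y` to the next `Λ`-level with rotation numbers `x'`, `y'`.
-/

namespace BU39

/-- `1, x, y` are linearly independent over `ℚ`. -/
def Ind2 (x y : ℝ) : Prop := ∀ a b c : ℤ, (a : ℝ) * x + b * y = c → a = 0 ∧ b = 0

structure Frame (G : GeoC) (K1 : ℤ) (x y : ℝ) where
  C : Cn
  hC : C.Good G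
  s : V
  d1 : V
  d2 : V
  cs : ℤ
  k1 : ℤ
  k2 : ℤ
  δ : ℝ
  x' : ℝ
  y' : ℝ
  hs : s ≠ 0
  hsb : Bd K1 s
  hδ0 : 0 < δ
  hδ1 : δ < 1
  hx0 : 0 < x'
  hx1 : x' < 1
  hy0 : 0 < y'
  hy1 : y' < 1
  es : (s.1 : ℝ) * x + s.2 * y - cs = δ
  ed1 : (d1.1 : ℝ) * x + d1.2 * y - k1 = x' * δ
  ed2 : (d2.1 : ℝ) * x + d2.2 * y - k2 = y' * δ
  basis : ∀ (w : V) (c : ℤ), ∃ i j h : ℤ,
    w = i • d1 + j • d2 + h • s ∧ c = i * k1 + j * k2 + h * cs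
  n1 : ℕ
  n2 : ℕ
  hn1 : 2 ≤ n1
  hn2 : 2 ≤ n2
  P : ℕ → V
  Q : ℕ → V
  sP : ∑ a ∈ Finset.range n1, P a = d1
  sQ : ∑ b ∈ Finset.range n2, Q b = d2
  hP : ∀ a < n1, InD G C K1 (P a)
  hP0 : InD G C K1 (P 0 - s)
  hQ : ∀ b < n2, InD G C.sw K1 (Q b).swap
  hQ0 : InD G C.sw K1 (Q 0 - s).swap

end BU39
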