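import Pool.Agent.LibBU39.Geo

/-!
TASK G01.  One digital wall.  Write `a = D.1`, `b = D.2`, `q = a - 2 ρ > 0` (`hA1`),
`k = min (max (u - ρ) 0) q ∈ [0, q]`, `hh = ⌊b k / q⌋`, so `b k / q - 1 < hh ≤ b k / q`.
* `hh_lo`: `k = 0`.  `hh_hi`: `k = q`, `b q / q = b`.
* `-(um) ≤ b / q ≤ up` (reals): from `InD` and `hA2`: `(up - ε) a ≤ up (a - 2 ρ)` because
  `2 ρ up ≤ 2 ρ U ≤ ε A ≤ ε a`; similarly for `um`.
* `hh_fw` (`0 ≤ u`): upper bound: `b ≥ 0`: `b k / q ≤ up k ≤ up u` (`k ≤ u`); `b < 0`: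
  `hh ≤ 0`.  Lower bound: `b ≥ 0`: `hh ≥ 0`; `b < 0`, `u ≤ ρ`: `hh = 0`; `b < 0`, `u > ρ`:
  `k ≤ u - ρ`, `hh ≥ b k / q - 1 ≥ - um (u - ρ) - 1 ≥ - um u` because `um ρ ≥ 2 ε ρ ≥ 1`.
* `hh_bw` (`u ≤ a - 1`): upper bound of `b - hh`: `b < 0`: `hh ≥ b` so `≤ 0`; `b ≥ 0`, `k = q`:
  `0`; `b ≥ 0`, `k < q`: `q - k ≤ a - ρ - u`, `b - hh ≤ b (q - k) / q + 1 ≤
  up (a - ρ - u) + 1 ≤ up (a - 1 - u)` because `up (ρ - 1) ≥ 2 ε (ρ - 1) ≥ 1`.
  Lower bound: `b ≥ 0`: `hh ≤ b`; `b < 0`: `b - hh ≥ b (q - k) / q ≥ - um (q - k)` and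
  `q - k ≤ a - 1 - u` (if `k < q`; if `k = q` it is `0 ≤ a - 1 - u`).
* `hh_lin` (`0 ≤ u ≤ a`): `|b k / q - b u / a| ≤ U ρ`: for `k = u - ρ` it is
  `|b| |2 ρ u - a ρ| / (a q) ≤ |b| ρ / q ≤ U ρ`; for `u ≤ ρ`: `|b| u / a ≤ U ρ`; for
  `u ≥ a - ρ`: `|b| (a - u) / a ≤ U ρ`.  Plus `1` for the floor.
-/

namespace BU39

variable {G : GeoC} {C : Cn} {K1 : ℤ} {D : V}

private theorem G01_q (hD : InD G C K1 D) : 0 < D.1 - 2 * G.ρ := by
  have h1 := hD.lo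
  have h2 := G.hA1
  have h3 := G.hρ
  omega

private theorem G01_up (hC : C.Good G) (hD : InD G C K1 D) :
    (D.2 : ℝ) ≤ C.up * ((D.1 : ℝ) - 2 * G.ρ) := by
  have h1 := hD.sp
  have h2 := G.hA2
  have h3 : (G.A : ℝ) ≤ D.1 := by exact_mod_cast hD.lo
  have h4 : (9 : ℝ) ≤ G.ρ := by exact_mod_cast G.hρ
  have h5 := hC.up2
  have h6 := G.hε
  have h7 := G.hU
  nlinarith [mul_le_mul_of_nonneg_left h3 h6.le, mul_le_mul_of_nonneg_left h5
    (by linarith : (0 : ℝ) ≤ G.ρ), mul_nonneg (by linarith : (0 : ℝ) ≤ G.ρ)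
    (by linarith : (0 : ℝ) ≤ G.U)]

private theorem G01_um (hC : C.Good G) (hD : InD G C K1 D) :
    -(C.um * ((D.1 : ℝ) - 2 * G.ρ)) ≤ (D.2 : ℝ) := by
  have h1 := hD.sm
  have h2 := G.hA2
  have h3 : (G.A : ℝ) ≤ D.1 := by exact_mod_cast hD.lo
  have h4 : (9 : ℝ) ≤ G.ρ := by exact_mod_cast G.hρ
  have h5 := hC.um2
  have h6 := G.hε
  have h7 := G.hU
  nlinarith [mul_le_mul_of_nonneg_left h3 h6.le, mul_le_mul_of_nonneg_left h5
    (by linarith : (0 : ℝ) ≤ G.ρ), mul_nonneg (by linarith : (0 : ℝ) ≤ G.ρ)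
    (by linarith : (0 : ℝ) ≤ G.U)]

private theorem G01_le {a b q : ℤ} (hq : 0 < q) : ((a * b) / q : ℤ) * q ≤ a * b :=
  Int.ediv_mul_le _ hq.ne'

private theorem G01_lt {a b q : ℤ} (hq : 0 < q) : a * b < ((a * b) / q + 1) * q :=
  Int.lt_ediv_add_one_mul_self _ hq

/-- the data of one digital wall -/
private theorem G01_data (hD : InD G C K1 D) (u : ℤ) : ∃ k : ℤ, 0 ≤ k ∧
    k ≤ D.1 - 2 * G.ρ ∧ hh G.ρ D u * (D.1 - 2 * G.ρ) ≤ D.2 * k ∧
    D.2 * k < (hh G.ρ D u + 1) * (D.1 - 2 * G.ρ) ∧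
    (u ≤ G.ρ → k = 0) ∧ (G.ρ ≤ u → u ≤ D.1 - G.ρ → k = u - G.ρ) ∧
    (D.1 - G.ρ ≤ u → k = D.1 - 2 * G.ρ) := by
  have hq := G01_q hD
  refine ⟨min (max (u - G.ρ) 0) (D.1 - 2 * G.ρ), le_min (le_max_right _ _) hq.le,
    min_le_right _ _, G01_le hq, G01_lt hq, ?_, ?_, ?_⟩
  · intro h
    rw [max_eq_right (by omega), min_eq_left hq.le]
  · intro h h'
    rw [max_eq_left (by omega), min_eq_left (by omega)]
  · intro h
    rw [max_eq_left (by omega), min_eq_right (by omega)]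

theorem hh_lo (hD : InD G C K1 D) {u : ℤ} (h : u ≤ G.ρ) : hh G.ρ D u = 0 := by
  have hq := G01_q hD
  unfold hh
  rw [max_eq_right (by omega), min_eq_left hq.le, mul_zero, Int.zero_ediv]

theorem hh_hi (hD : InD G C K1 D) {u : ℤ} (h : D.1 - G.ρ ≤ u) : hh G.ρ D u = D.2 := by
  have hq := G01_q hD
  unfold hh
  rw [max_eq_left (by omega), min_eq_right (by omega), Int.mul_ediv_cancel _ hq.ne']

theorem hh_fw (hC : C.Good G) (hD : InD G C K1 D) {u : ℤ} (h : 0 ≤ u) :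
    -(C.um * u) ≤ (hh G.ρ D u : ℝ) ∧ (hh G.ρ D u : ℝ) ≤ C.up * u := by
  obtain ⟨k, k0, kq, h1, h2, h3, h4, h5⟩ := G01_data hD u
  have hq := G01_q hD
  have hup := G01_up hC hD
  have hum := G01_um hC hD
  have hρ : (9 : ℝ) ≤ G.ρ := by exact_mod_cast G.hρ
  have hε := G.hε
  have e1 : (2 : ℝ) ≤ G.ε * (G.ρ - 1) := by exact_mod_cast G.hρε
  have hup1 := hC.up1
  have hum1 := hC.um1
  have q0 : (0 : ℝ) < (D.1 : ℝ) - 2 * G.ρ := by exact_mod_cast hq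
  have r1 : (hh G.ρ D u : ℝ) * ((D.1 : ℝ) - 2 * G.ρ) ≤ D.2 * k := by exact_mod_cast h1
  have r2 : (D.2 : ℝ) * k < ((hh G.ρ D u : ℝ) + 1) * ((D.1 : ℝ) - 2 * G.ρ) := by
    exact_mod_cast h2
  have k0' : (0 : ℝ) ≤ k := by exact_mod_cast k0
  have hu : (0 : ℝ) ≤ u := by exact_mod_cast h
  constructor
  · rcases le_total u G.ρ with hc | hc
    · rw [hh_lo hD hc]
      push_cast
      have : 0 ≤ C.um := by linarith
      nlinarith
    · have hk : (k : ℝ) ≤ u - G.ρ := by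
        rcases le_total u (D.1 - G.ρ) with hc' | hc'
        · rw [h4 hc hc']
          push_cast
          linarith
        · rw [h5 hc']
          have : ((D.1 - G.ρ : ℤ) : ℝ) ≤ u := by exact_mod_cast hc'
          push_cast at this ⊢
          linarith
      have h6 : -(C.um * k) < (hh G.ρ D u : ℝ) + 1 := by
        have : -(C.um * k) * ((D.1 : ℝ) - 2 * G.ρ) <
            ((hh G.ρ D u : ℝ) + 1) * ((D.1 : ℝ) - 2 * G.ρ) := by
          nlinarith [mul_le_mul_of_nonneg_right hum k0']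
        exact lt_of_mul_lt_mul_right this q0.le
      have h7 : C.um * k ≤ C.um * (u - G.ρ) :=
        mul_le_mul_of_nonneg_left hk (by linarith)
      have h8 : 2 * G.ε * G.ρ ≤ C.um * G.ρ := mul_le_mul_of_nonneg_right hum1 (by linarith)
      nlinarith
  · have hk : (k : ℝ) ≤ u := by
      rcases le_total u G.ρ with hc | hc
      · rw [h3 hc]
        push_cast
        exact hu
      · rcases le_total u (D.1 - G.ρ) with hc' | hc'
        · rw [h4 hc hc']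
          push_cast
          linarith
        · rw [h5 hc']
          have : ((D.1 - G.ρ : ℤ) : ℝ) ≤ u := by exact_mod_cast hc'
          push_cast at this ⊢
          linarith
    have h6 : (hh G.ρ D u : ℝ) ≤ C.up * k := by
      have : (hh G.ρ D u : ℝ) * ((D.1 : ℝ) - 2 * G.ρ) ≤ (C.up * k) * ((D.1 : ℝ) - 2 * G.ρ) := by
        nlinarith [mul_le_mul_of_nonneg_right hup k0']
      exact le_of_mul_le_mul_right this q0
    exact h6.trans (mul_le_mul_of_nonneg_left hk (by linarith))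

theorem hh_bw (hC : C.Good G) (hD : InD G C K1 D) {u : ℤ} (h : u ≤ D.1 - 1) :
    -(C.um * (D.1 - 1 - u)) ≤ (D.2 : ℝ) - hh G.ρ D u ∧
      (D.2 : ℝ) - hh G.ρ D u ≤ C.up * (D.1 - 1 - u) := by
  obtain ⟨k, k0, kq, h1, h2, h3, h4, h5⟩ := G01_data hD u
  have hq := G01_q hD
  have hup := G01_up hC hD
  have hum := G01_um hC hD
  have hρ : (9 : ℝ) ≤ G.ρ := by exact_mod_cast G.hρ
  have hε := G.hε
  have e1 : (2 : ℝ) ≤ G.ε * (G.ρ - 1) := by exact_mod_cast G.hρε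
  have hup1 := hC.up1
  have hum1 := hC.um1
  have hu : (u : ℝ) ≤ D.1 - 1 := by exact_mod_cast h
  have a1 : 0 ≤ C.up * ((D.1 : ℝ) - 1 - u) := mul_nonneg (by linarith) (by linarith)
  have a2 : 0 ≤ C.um * ((D.1 : ℝ) - 1 - u) := mul_nonneg (by linarith) (by linarith)
  rcases le_total (D.1 - G.ρ) u with hc | hc
  · rw [hh_hi hD hc]
    constructor <;> linarith
  · have q0 : (0 : ℝ) < (D.1 : ℝ) - 2 * G.ρ := by exact_mod_cast hq
    have r1 : (hh G.ρ D u : ℝ) * ((D.1 : ℝ) - 2 * G.ρ) ≤ D.2 * k := by exact_mod_cast h1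
    have r2 : (D.2 : ℝ) * k < ((hh G.ρ D u : ℝ) + 1) * ((D.1 : ℝ) - 2 * G.ρ) := by
      exact_mod_cast h2
    have kq' : 0 ≤ (D.1 : ℝ) - 2 * G.ρ - k := by
      have : (k : ℝ) ≤ ((D.1 - 2 * G.ρ : ℤ) : ℝ) := by exact_mod_cast kq
      push_cast at this
      linarith
    have hk : (D.1 : ℝ) - 2 * G.ρ - k ≤ D.1 - G.ρ - u := by
      rcases le_total u G.ρ with hc' | hc'
      · rw [h3 hc']
        have : (u : ℝ) ≤ G.ρ := by exact_mod_cast hc'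
        push_cast
        linarith
      · rw [h4 hc' hc]
        push_cast
        linarith
    constructor
    · have h6 : -(C.um * ((D.1 : ℝ) - 2 * G.ρ - k)) ≤ (D.2 : ℝ) - hh G.ρ D u := by
        have : -(C.um * ((D.1 : ℝ) - 2 * G.ρ - k)) * ((D.1 : ℝ) - 2 * G.ρ) ≤
            ((D.2 : ℝ) - hh G.ρ D u) * ((D.1 : ℝ) - 2 * G.ρ) := by
          nlinarith [mul_le_mul_of_nonneg_right hum kq']
        exact le_of_mul_le_mul_right this q0
      have h7 : C.um * ((D.1 : ℝ) - 2 * G.ρ - k) ≤ C.um * (D.1 - G.ρ - u) :=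
        mul_le_mul_of_nonneg_left hk (by linarith)
      nlinarith
    · have h6 : (D.2 : ℝ) - hh G.ρ D u ≤ C.up * ((D.1 : ℝ) - 2 * G.ρ - k) + 1 := by
        have : ((D.2 : ℝ) - hh G.ρ D u) * ((D.1 : ℝ) - 2 * G.ρ) ≤
            (C.up * ((D.1 : ℝ) - 2 * G.ρ - k) + 1) * ((D.1 : ℝ) - 2 * G.ρ) := by
          nlinarith [mul_le_mul_of_nonneg_right hup kq']
        exact le_of_mul_le_mul_right this q0
      have h7 : C.up * ((D.1 : ℝ) - 2 * G.ρ - k) ≤ C.up * (D.1 - G.ρ - u) :=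
        mul_le_mul_of_nonneg_left hk (by linarith)
      have h8 : 2 * G.ε * (G.ρ - 1) ≤ C.up * (G.ρ - 1) :=
        mul_le_mul_of_nonneg_right hup1 (by linarith)
      nlinarith

theorem hh_lin (hC : C.Good G) (hD : InD G C K1 D) {u : ℤ} (h : 0 ≤ u) (h' : u ≤ D.1) :
    |(hh G.ρ D u : ℝ) - (D.2 : ℝ) / D.1 * u| ≤ G.U * G.ρ + 1 := by
  obtain ⟨k, k0, kq, h1, h2, h3, h4, h5⟩ := G01_data hD u
  have hq := G01_q hD
  have hup := G01_up hC hD
  have hum := G01_um hC hD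
  have hρ : (9 : ℝ) ≤ G.ρ := by exact_mod_cast G.hρ
  have hU := G.hU
  have q0 : (0 : ℝ) < (D.1 : ℝ) - 2 * G.ρ := by exact_mod_cast hq
  have a0 : (0 : ℝ) < (D.1 : ℝ) := by linarith
  have r1 : (hh G.ρ D u : ℝ) * ((D.1 : ℝ) - 2 * G.ρ) ≤ D.2 * k := by exact_mod_cast h1
  have r2 : (D.2 : ℝ) * k < ((hh G.ρ D u : ℝ) + 1) * ((D.1 : ℝ) - 2 * G.ρ) := by
    exact_mod_cast h2
  have hu : (0 : ℝ) ≤ u := by exact_mod_cast h
  have hu' : (u : ℝ) ≤ D.1 := by exact_mod_cast h'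
  have hb1 : (D.2 : ℝ) / ((D.1 : ℝ) - 2 * G.ρ) ≤ G.U := by
    rw [div_le_iff₀ q0]
    exact hup.trans (mul_le_mul_of_nonneg_right hC.up2 q0.le)
  have hb2 : -G.U ≤ (D.2 : ℝ) / ((D.1 : ℝ) - 2 * G.ρ) := by
    rw [le_div_iff₀ q0]
    have := mul_le_mul_of_nonneg_right hC.um2 q0.le
    linarith
  have hk : |(k : ℝ) - ((D.1 : ℝ) - 2 * G.ρ) * (u / D.1)| ≤ G.ρ := by
    have e : (k : ℝ) - ((D.1 : ℝ) - 2 * G.ρ) * (u / D.1) =
        (k * D.1 - ((D.1 : ℝ) - 2 * G.ρ) * u) / D.1 := by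
      field_simp
    rw [e, abs_div, abs_of_pos a0, div_le_iff₀ a0, abs_le]
    rcases le_total u G.ρ with hc | hc
    · rw [h3 hc]
      have hc' : (u : ℝ) ≤ G.ρ := by exact_mod_cast hc
      push_cast
      constructor <;> nlinarith
    · rcases le_total u (D.1 - G.ρ) with hd | hd
      · rw [h4 hc hd]
        push_cast
        constructor <;> nlinarith
      · rw [h5 hd]
        have hd' : (D.1 : ℝ) - G.ρ ≤ u := by exact_mod_cast hd
        push_cast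
        constructor <;> nlinarith
  have h6 : (hh G.ρ D u : ℝ) ≤ D.2 / ((D.1 : ℝ) - 2 * G.ρ) * k := by
    rw [div_mul_eq_mul_div, le_div_iff₀ q0]
    exact r1
  have h7 : (D.2 : ℝ) / ((D.1 : ℝ) - 2 * G.ρ) * k ≤ hh G.ρ D u + 1 := by
    rw [div_mul_eq_mul_div, div_le_iff₀ q0]
    exact r2.le
  have h8 : (D.2 : ℝ) / D.1 * u =
      D.2 / ((D.1 : ℝ) - 2 * G.ρ) * (((D.1 : ℝ) - 2 * G.ρ) * (u / D.1)) := by
    field_simp
  have h9 : |(D.2 : ℝ) / ((D.1 : ℝ) - 2 * G.ρ) * k - (D.2 : ℝ) / D.1 * u| ≤ G.U * G.ρ := by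
    rw [h8, ← mul_sub, abs_mul]
    exact mul_le_mul (abs_le.2 ⟨hb2, hb1⟩) hk (abs_nonneg _) (by linarith)
  rw [abs_le] at h9 ⊢
  constructor <;> linarith

/-- The wall stays between the heights of its ends. -/
theorem hh_bd (hD : InD G C K1 D) (u : ℤ) : min 0 D.2 ≤ hh G.ρ D u ∧ hh G.ρ D u ≤ max 0 D.2 := by
  obtain ⟨k, k0, kq, h1, h2, -, -, -⟩ := G01_data hD u
  have hq := G01_q hD
  generalize hh G.ρ D u = x at h1 h2 ⊢
  generalize D.1 - 2 * G.ρ = q at *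
  rcases le_total 0 D.2 with h | h
  · rw [min_eq_left h, max_eq_right h]
    constructor
    · by_contra hc
      have : x + 1 ≤ 0 := by omega
      nlinarith [mul_nonneg h k0]
    · by_contra hc
      have : D.2 + 1 ≤ x := by omega
      nlinarith [mul_le_mul_of_nonneg_left kq h]
  · rw [min_eq_right h, max_eq_left h]
    constructor
    · by_contra hc
      have : x + 1 ≤ D.2 := by omega
      nlinarith [mul_le_mul_of_nonpos_left kq h]
    · by_contra hc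
      have : 1 ≤ x := by omega
      nlinarith [mul_nonneg (neg_nonneg.2 h) k0]

end BU39
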