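import Pool.Agent.LibBU39.G03

/-!
TASK G04.  Consecutive horizontal walls are separated.
-/

namespace BU39

variable {G : GeoC} {C : Cn} {K1 : ℤ}

private theorem inD_r {D : V} (hD : InD G C K1 D) :
    (G.A : ℝ) ≤ D.1 ∧ (D.2 : ℝ) ≤ (C.up - G.ε) * D.1 ∧ -((C.um - G.ε) * D.1) ≤ (D.2 : ℝ) :=
  ⟨by exact_mod_cast hD.lo, hD.sp, hD.sm⟩

private theorem geo_pos (G : GeoC) : (9 : ℝ) ≤ G.ρ ∧ (72 : ℝ) ≤ G.A := by
  have h1 : (9 : ℝ) ≤ G.ρ := by exact_mod_cast G.hρ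
  have h2 : (8 : ℝ) * G.ρ ≤ G.A := by exact_mod_cast G.hA1
  exact ⟨h1, by linarith⟩

theorem crs_pos (hC : C.Good G) {D D' : V} (hD : InD G C K1 D) (hD' : InD G C.sw K1 D'.swap) :
    G.m * (D.1 * D'.2) ≤ (D.1 * D'.2 - D.2 * D'.1 : ℝ) := by
  obtain ⟨ha, hb1, hb2⟩ := inD_r hD
  obtain ⟨hd, hc1, hc2⟩ := inD_r hD'
  simp only [Cn.sw, Prod.fst_swap, Prod.snd_swap] at hd hc1 hc2
  obtain ⟨_, hA⟩ := geo_pos G
  have hε := G.hε
  have h1 := hC.pp
  have h2 := hC.mm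
  have hup := hC.up1
  have hum := hC.um1
  have hwp := hC.wp1
  have hwm := hC.wm1
  have ha0 : (0 : ℝ) < D.1 := by linarith
  have hd0 : (0 : ℝ) < D'.2 := by linarith
  have hm1 := G.hm1
  have had : (0 : ℝ) < (D.1 : ℝ) * D'.2 := mul_pos ha0 hd0
  have hb1' : (D.2 : ℝ) ≤ C.up * D.1 := by nlinarith
  have hb2' : -(D.2 : ℝ) ≤ C.um * D.1 := by nlinarith
  have hc1' : (D'.1 : ℝ) ≤ C.wp * D'.2 := by nlinarith
  have hc2' : -(D'.1 : ℝ) ≤ C.wm * D'.2 := by nlinarith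
  have key : (D.2 : ℝ) * D'.1 ≤ (1 - G.m) * (D.1 * D'.2) := by
    rcases le_total 0 (D.2 : ℝ) with hb | hb <;> rcases le_total 0 (D'.1 : ℝ) with hc | hc
    · calc (D.2 : ℝ) * D'.1 ≤ (C.up * D.1) * (C.wp * D'.2) :=
            mul_le_mul hb1' hc1' hc (mul_nonneg (by linarith) ha0.le)
        _ = (C.up * C.wp) * (D.1 * D'.2) := by ring
        _ ≤ (1 - G.m) * (D.1 * D'.2) := mul_le_mul_of_nonneg_right h1 had.le
    · have : (D.2 : ℝ) * D'.1 ≤ 0 := mul_nonpos_of_nonneg_of_nonpos hb hc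
      have h3 : 0 ≤ (1 - G.m) * ((D.1 : ℝ) * D'.2) := mul_nonneg (by linarith) had.le
      linarith
    · have : (D.2 : ℝ) * D'.1 ≤ 0 := mul_nonpos_of_nonpos_of_nonneg hb hc
      have h3 : 0 ≤ (1 - G.m) * ((D.1 : ℝ) * D'.2) := mul_nonneg (by linarith) had.le
      linarith
    · calc (D.2 : ℝ) * D'.1 = (-(D.2 : ℝ)) * (-(D'.1 : ℝ)) := by ring
        _ ≤ (C.um * D.1) * (C.wm * D'.2) :=
            mul_le_mul hb2' hc2' (by linarith) (mul_nonneg (by linarith) ha0.le)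
        _ = (C.um * C.wm) * (D.1 * D'.2) := by ring
        _ ≤ (1 - G.m) * (D.1 * D'.2) := mul_le_mul_of_nonneg_right h2 had.le
  linarith

private theorem D1_r (S : Skew G C K1) (i j : ℤ) :
    ((S.D1 (i, j)).1 : ℝ) = (S.Φ (i + 1, j)).1 - (S.Φ (i, j)).1 ∧
    ((S.D1 (i, j)).2 : ℝ) = (S.Φ (i + 1, j)).2 - (S.Φ (i, j)).2 := by
  have : ((i, j) : V) + e1 = (i + 1, j) := by ext <;> simp [e1]
  constructor <;> simp [Skew.D1, this]

private theorem D2_r (S : Skew G C K1) (i j : ℤ) :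
    ((S.D2 (i, j)).1 : ℝ) = (S.Φ (i, j + 1)).1 - (S.Φ (i, j)).1 ∧
    ((S.D2 (i, j)).2 : ℝ) = (S.Φ (i, j + 1)).2 - (S.Φ (i, j)).2 := by
  have : ((i, j) : V) + e2 = (i, j + 1) := by ext <;> simp [e2]
  constructor <;> simp [Skew.D2, this]

private theorem sep_alg {a b a' b' X Y X2 Y2 X' Y' X3 Y3 x x' m A U : ℝ}
    (ha0 : 0 < a) (ha'0 : 0 < a') (hm : 0 ≤ m) (hbU : |b| ≤ U * a)
    (hx1r : -1 ≤ x' - x) (hx2r : x' - x ≤ 1) (h0 : X' ≤ x') (h1 : x' ≤ X3)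
    (da1 : a = X2 - X) (da2 : b = Y2 - Y) (db1 : a' = X3 - X') (db2 : b' = Y3 - Y')
    (c1 : m * (a * (Y' - Y)) ≤ a * (Y' - Y) - b * (X' - X))
    (c2 : m * (a * (Y3 - Y2)) ≤ a * (Y3 - Y2) - b * (X3 - X2))
    (hd : A ≤ Y' - Y) (hd' : A ≤ Y3 - Y2) :
    m * A - U ≤ (Y' - Y) + b' / a' * (x' - X') - b / a * (x - X) := by
  have hlam0 : 0 ≤ (x' - X') / a' := div_nonneg (by linarith) ha'0.le
  have hlam1 : (x' - X') / a' ≤ 1 := (div_le_one ha'0).2 (by linarith)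
  have hb'u : b' / a' * (x' - X') = b' * ((x' - X') / a') := by ring
  have hau : (x' - X') = a' * ((x' - X') / a') := by field_simp
  rw [hb'u]
  generalize (x' - X') / a' = lam at *
  have key : a * ((Y' - Y) + b' * lam - b / a * (x - X)) =
      (1 - lam) * (a * (Y' - Y) - b * (X' - X)) + lam * (a * (Y3 - Y2) - b * (X3 - X2)) +
        b * (x' - x) := by
    have hab : a * (b / a * (x - X)) = b * (x - X) := by field_simp
    have hx : x - X = a' * lam + (X' - X) - (x' - x) := by rw [← hau]; ring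
    have e : a * ((Y' - Y) + b' * lam - b / a * (x - X)) =
      a * (Y' - Y) + a * b' * lam - a * (b / a * (x - X)) := by ring
    rw [e, hab, hx, db1, db2, da1, da2]
    ring
  have hbx : -(U * a) ≤ b * (x' - x) := by
    have h1 : |b * (x' - x)| ≤ U * a := by
      rw [abs_mul]
      calc |b| * |x' - x| ≤ |b| * 1 := by
            apply mul_le_mul_of_nonneg_left _ (abs_nonneg _)
            exact abs_le.mpr ⟨hx1r, hx2r⟩
        _ ≤ U * a := by linarith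
    linarith [(abs_le.mp h1).1]
  have hmA1 : m * (a * A) ≤ a * (Y' - Y) - b * (X' - X) := by
    refine le_trans ?_ c1
    exact mul_le_mul_of_nonneg_left (mul_le_mul_of_nonneg_left hd ha0.le) hm
  have hmA2 : m * (a * A) ≤ a * (Y3 - Y2) - b * (X3 - X2) := by
    refine le_trans ?_ c2
    exact mul_le_mul_of_nonneg_left (mul_le_mul_of_nonneg_left hd' ha0.le) hm
  have hsum : a * (m * A - U) ≤ a * ((Y' - Y) + b' * lam - b / a * (x - X)) := by
    rw [key]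
    have t1 := mul_le_mul_of_nonneg_left hmA1 (show 0 ≤ 1 - lam by linarith)
    have t2 := mul_le_mul_of_nonneg_left hmA2 hlam0
    nlinarith only [t1, t2, hbx]
  exact le_of_mul_le_mul_left hsum ha0

theorem Skew.H_sep (S : Skew G C K1) (hC : C.Good G) {j x x' : ℤ} (h : |x' - x| ≤ 1) :
    G.ρ ≤ S.H (j + 1) x' - S.H j x := by
  obtain ⟨i, hi, hi'⟩ := S.exists_col j x
  obtain ⟨i', hj, hj'⟩ := S.exists_col (j + 1) x'
  obtain ⟨hx1, hx2⟩ := abs_le.mp h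
  have hx1r : -(1 : ℝ) ≤ x' - x := by exact_mod_cast hx1
  have hx2r : (x' - x : ℝ) ≤ 1 := by exact_mod_cast hx2
  obtain ⟨hρ9, hA72⟩ := geo_pos G
  have hε := G.hε
  have hm := G.hm
  have hU := G.hU
  have hA3 := G.hA3
  have hpp := hC.pp
  have hmm := hC.mm
  have hup := hC.up1
  have hum := hC.um1
  have hwp := hC.wp1
  have hwm := hC.wm1
  have hup2 := hC.up2
  have hum2 := hC.um2
  have hU2 : G.U ≤ G.U ^ 2 := by nlinarith
  have hUρ : G.U * G.ρ ≤ G.U ^ 2 * G.ρ := mul_le_mul_of_nonneg_right hU2 (by linarith)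
  have hρU : (G.ρ : ℝ) ≤ G.U * G.ρ := by nlinarith
  have hUU : G.U ≤ G.U * G.ρ := by nlinarith
  have hbig : (G.ρ : ℝ) ≤ G.m * G.A := by linarith
  suffices hs : (G.ρ : ℝ) ≤ (S.H (j + 1) x' : ℝ) - S.H j x by exact_mod_cast hs
  -- the vertical sides
  have vs : ∀ t : ℤ, (G.A : ℝ) ≤ (S.Φ (t, j + 1)).2 - (S.Φ (t, j)).2 ∧
      ((S.Φ (t, j + 1)).1 - (S.Φ (t, j)).1 : ℝ) ≤ C.wp * ((S.Φ (t, j + 1)).2 - (S.Φ (t, j)).2) ∧
      -((S.Φ (t, j + 1)).1 - (S.Φ (t, j)).1 : ℝ) ≤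
        C.wm * ((S.Φ (t, j + 1)).2 - (S.Φ (t, j)).2) := by
    intro t
    obtain ⟨hd, hc1, hc2⟩ := inD_r (S.h2 (t, j))
    have h2 := D2_r S t j
    simp only [Cn.sw, Prod.fst_swap, Prod.snd_swap] at hd hc1 hc2
    have e1' : ((S.Φ ((t, j) + e2) - S.Φ (t, j)).2 : ℝ) =
        (S.Φ (t, j + 1)).2 - (S.Φ (t, j)).2 := h2.2
    have e2' : ((S.Φ ((t, j) + e2) - S.Φ (t, j)).1 : ℝ) =
        (S.Φ (t, j + 1)).1 - (S.Φ (t, j)).1 := h2.1
    rw [e1'] at hd hc1 hc2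
    rw [e2'] at hc1 hc2
    refine ⟨hd, ?_, ?_⟩ <;> nlinarith
  rcases lt_trichotomy i' i with hlt | heq | hgt
  · -- case 2
    have hle : i' + 1 ≤ i := hlt
    have hmono := (S.strictMono j).monotone hle
    have hbw := (S.H_bw hC (i := i' + 1) (j := j + 1) (x := x') hj').1
    have hfw := (S.H_fw hC (i := i' + 1) (j := j) (x := x) (hmono.trans hi)).2
    obtain ⟨hd, hc1, hc2⟩ := vs (i' + 1)
    set c : ℝ := (S.Φ (i' + 1, j + 1)).1 - (S.Φ (i' + 1, j)).1 with hc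
    set d : ℝ := (S.Φ (i' + 1, j + 1)).2 - (S.Φ (i' + 1, j)).2 with hdd
    have h1 : C.up * ((S.Φ (i' + 1, j + 1)).1 - 1 - x') + C.up * (x - (S.Φ (i' + 1, j)).1)
        ≤ C.up * c := by
      have : ((S.Φ (i' + 1, j + 1)).1 - 1 - x' + (x - (S.Φ (i' + 1, j)).1) : ℝ) ≤ c := by
        rw [hc]; linarith
      rw [← mul_add]
      exact mul_le_mul_of_nonneg_left this (by linarith)
    have h2 : C.up * c ≤ C.up * C.wp * d := by
      rw [mul_assoc]; exact mul_le_mul_of_nonneg_left hc1 (by linarith)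
    have h3 : C.up * C.wp * d ≤ (1 - G.m) * d := mul_le_mul_of_nonneg_right hpp (by linarith)
    have h4 : G.m * G.A ≤ G.m * d := mul_le_mul_of_nonneg_left hd hm.le
    linarith
  · subst heq
    have e1' := S.H_eq hi hi'
    have e2' := S.H_eq hj hj'
    rw [e1', e2']
    have hD := S.h1 (i', j)
    have hD' := S.h1 (i', j + 1)
    have hV := S.h2 (i', j)
    have hV' := S.h2 (i' + 1, j)
    change InD G C K1 (S.D1 (i', j)) at hD
    change InD G C K1 (S.D1 (i', j + 1)) at hD'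
    change InD G C.sw K1 (S.D2 (i', j)).swap at hV
    change InD G C.sw K1 (S.D2 (i' + 1, j)).swap at hV'
    obtain ⟨da1, da2⟩ := D1_r S i' j
    obtain ⟨db1, db2⟩ := D1_r S i' (j + 1)
    obtain ⟨dc1, dc2⟩ := D2_r S i' j
    obtain ⟨dd1, dd2⟩ := D2_r S (i' + 1) j
    have L1 := abs_le.mp (hh_lin hC hD (u := x - (S.Φ (i', j)).1) (by linarith) (by
      have : (S.D1 (i', j)).1 = (S.Φ (i' + 1, j)).1 - (S.Φ (i', j)).1 := by exact_mod_cast da1
      linarith))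
    have L2 := abs_le.mp (hh_lin hC hD' (u := x' - (S.Φ (i', j + 1)).1) (by linarith) (by
      have : (S.D1 (i', j + 1)).1 = (S.Φ (i' + 1, j + 1)).1 - (S.Φ (i', j + 1)).1 := by
        exact_mod_cast db1
      linarith))
    have c1 := crs_pos hC hD hV
    have c2 := crs_pos hC hD hV'
    obtain ⟨ha, hb1, hb2⟩ := inD_r hD
    obtain ⟨ha', _, _⟩ := inD_r hD'
    obtain ⟨hd, _, _⟩ := vs i'
    obtain ⟨hd', _, _⟩ := vs (i' + 1)
    push_cast at L1 L2 ⊢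
    rw [dc1, dc2] at c1
    rw [dd1, dd2] at c2
    have hup3 : (C.up - G.ε) * ((S.D1 (i', j)).1 : ℝ) ≤ G.U * (S.D1 (i', j)).1 :=
      mul_le_mul_of_nonneg_right (by linarith) (by linarith)
    have hum3 : (C.um - G.ε) * ((S.D1 (i', j)).1 : ℝ) ≤ G.U * (S.D1 (i', j)).1 :=
      mul_le_mul_of_nonneg_right (by linarith) (by linarith)
    have hxr : (x : ℝ) < (S.Φ (i' + 1, j)).1 := by exact_mod_cast hi'
    have hxr0 : ((S.Φ (i', j)).1 : ℝ) ≤ (x : ℝ) := by exact_mod_cast hi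
    have hxr' : (x' : ℝ) < (S.Φ (i' + 1, j + 1)).1 := by exact_mod_cast hj'
    have hxr0' : ((S.Φ (i', j + 1)).1 : ℝ) ≤ (x' : ℝ) := by exact_mod_cast hj
    have hfin := sep_alg (a := (S.D1 (i', j)).1) (b := (S.D1 (i', j)).2)
      (a' := (S.D1 (i', j + 1)).1) (b' := (S.D1 (i', j + 1)).2)
      (X := (S.Φ (i', j)).1) (Y := (S.Φ (i', j)).2)
      (X2 := (S.Φ (i' + 1, j)).1) (Y2 := (S.Φ (i' + 1, j)).2)
      (X' := (S.Φ (i', j + 1)).1) (Y' := (S.Φ (i', j + 1)).2)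
      (X3 := (S.Φ (i' + 1, j + 1)).1) (Y3 := (S.Φ (i' + 1, j + 1)).2)
      (x := x) (x' := x') (m := G.m) (A := G.A) (U := G.U)
      (by linarith) (by linarith) hm.le (by rw [abs_le]; constructor <;> linarith)
      hx1r hx2r hxr0' hxr'.le da1 da2 db1 db2 c1 c2 hd hd'
    linarith only [hfin, L1.1, L1.2, L2.1, L2.2, hA3, hUρ, hρU, hUU, hρ9, hU]
  · -- case 1
    have hle : i + 1 ≤ i' := hgt
    have hmono := (S.strictMono j).monotone hle
    have hfw := (S.H_fw hC (i := i') (j := j + 1) (x := x') hj).1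
    have hbw := (S.H_bw hC (i := i') (j := j) (x := x) (lt_of_lt_of_le hi' hmono)).2
    obtain ⟨hd, hc1, hc2⟩ := vs i'
    set c : ℝ := (S.Φ (i', j + 1)).1 - (S.Φ (i', j)).1 with hc
    set d : ℝ := (S.Φ (i', j + 1)).2 - (S.Φ (i', j)).2 with hdd
    have h1 : C.um * (x' - (S.Φ (i', j + 1)).1) + C.um * ((S.Φ (i', j)).1 - 1 - x)
        ≤ C.um * (-c) := by
      have : (x' - (S.Φ (i', j + 1)).1 + ((S.Φ (i', j)).1 - 1 - x) : ℝ) ≤ -c := by
        rw [hc]; linarith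
      rw [← mul_add]
      exact mul_le_mul_of_nonneg_left this (by linarith)
    have h2 : C.um * (-c) ≤ C.um * C.wm * d := by
      rw [mul_assoc]; exact mul_le_mul_of_nonneg_left hc2 (by linarith)
    have h3 : C.um * C.wm * d ≤ (1 - G.m) * d := mul_le_mul_of_nonneg_right hmm (by linarith)
    have h4 : G.m * G.A ≤ G.m * d := mul_le_mul_of_nonneg_left hd hm.le
    linarith

end BU39
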