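import Pool.Agent.LibBU39.G04

/-!
TASK G05.  Crossings.  A vertex which is on the horizontal wall `j` and on the vertical wall
`i` is `Φ (i, j)`; two different horizontal walls have no common vertex.
-/

namespace BU39

variable {G : GeoC} {C : Cn} {K1 : ℤ}

private theorem good_pos {G : GeoC} {C : Cn} (hC : C.Good G) :
    0 < C.up ∧ 0 < C.um ∧ 0 < C.wp ∧ 0 < C.wm ∧ C.up * C.wp < 1 ∧ C.um * C.wm < 1 := by
  have hε := G.hε
  have hm := G.hm
  exact ⟨by linarith [hC.up1], by linarith [hC.um1], by linarith [hC.wp1], by linarith [hC.wm1],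
    by linarith [hC.pp], by linarith [hC.mm]⟩

/-- Cone bounds of a vertex on the wall. -/
private theorem onH_cone (S : Skew G C K1) (hC : C.Good G) (i : ℤ) {j : ℤ} {w : V}
    (h : S.onH j w) :
    ((S.Φ (i, j)).1 ≤ w.1 → -(C.um * (w.1 - (S.Φ (i, j)).1)) ≤ (w.2 : ℝ) - (S.Φ (i, j)).2 ∧
      (w.2 : ℝ) - (S.Φ (i, j)).2 ≤ C.up * (w.1 - (S.Φ (i, j)).1)) ∧
    (w.1 ≤ (S.Φ (i, j)).1 → -(C.up * ((S.Φ (i, j)).1 - w.1)) ≤ (w.2 : ℝ) - (S.Φ (i, j)).2 ∧
      (w.2 : ℝ) - (S.Φ (i, j)).2 ≤ C.um * ((S.Φ (i, j)).1 - w.1)) := by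
  obtain ⟨p1, p2, -, -, -, -⟩ := good_pos hC
  obtain ⟨h1, h2⟩ := h
  have h1r : min (S.H j (w.1 - 1) : ℝ) (S.H j w.1) ≤ w.2 := by exact_mod_cast h1
  have h2r : (w.2 : ℝ) ≤ max (S.H j (w.1 - 1) : ℝ) (S.H j w.1) := by exact_mod_cast h2
  constructor
  · intro hle
    have hler : ((S.Φ (i, j)).1 : ℝ) ≤ w.1 := by exact_mod_cast hle
    have b1 := S.H_fw hC hle
    have b2 : -(C.um * (w.1 - (S.Φ (i, j)).1)) ≤ (S.H j (w.1 - 1) : ℝ) - (S.Φ (i, j)).2 ∧
      (S.H j (w.1 - 1) : ℝ) - (S.Φ (i, j)).2 ≤ C.up * (w.1 - (S.Φ (i, j)).1) := by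
      rcases eq_or_lt_of_le hle with he | hlt
      · have : S.H j (w.1 - 1) = (S.Φ (i, j)).2 := by
          apply S.H_root
          · have := G.hρ; omega
          · have := G.hρ; omega
        rw [this, he]
        constructor <;> simp
      · have b3 := S.H_fw hC (i := i) (j := j) (x := w.1 - 1) (by omega)
        push_cast at b3
        constructor <;> nlinarith [b3.1, b3.2]
    rcases min_le_iff.mp h1r with m1 | m1 <;> rcases le_max_iff.mp h2r with m2 | m2 <;>
      constructor <;> linarith [b1.1, b1.2, b2.1, b2.2]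
  · intro hle
    have hler : (w.1 : ℝ) ≤ (S.Φ (i, j)).1 := by exact_mod_cast hle
    have b1 := S.H_bw hC (i := i) (j := j) (x := w.1 - 1) (by omega)
    push_cast at b1
    have b2 : -(C.up * ((S.Φ (i, j)).1 - w.1)) ≤ (S.H j w.1 : ℝ) - (S.Φ (i, j)).2 ∧
      (S.H j w.1 : ℝ) - (S.Φ (i, j)).2 ≤ C.um * ((S.Φ (i, j)).1 - w.1) := by
      rcases eq_or_lt_of_le hle with he | hlt
      · have : S.H j w.1 = (S.Φ (i, j)).2 := by
          apply S.H_root
          · have := G.hρ; omega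
          · have := G.hρ; omega
        rw [this, ← he]
        constructor <;> simp
      · have b3 := S.H_bw hC (i := i) (j := j) (x := w.1) hlt
        constructor <;> nlinarith [b3.1, b3.2]
    have b1' : -(C.up * ((S.Φ (i, j)).1 - w.1)) ≤ (S.H j (w.1 - 1) : ℝ) - (S.Φ (i, j)).2 ∧
      (S.H j (w.1 - 1) : ℝ) - (S.Φ (i, j)).2 ≤ C.um * ((S.Φ (i, j)).1 - w.1) := by
      constructor <;> nlinarith [b1.1, b1.2]
    rcases min_le_iff.mp h1r with m1 | m1 <;> rcases le_max_iff.mp h2r with m2 | m2 <;>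
      constructor <;> linarith [b1'.1, b1'.2, b2.1, b2.2]

private theorem cone_zero {u v s t x y : ℝ} (hu : 0 < u) (hv : 0 < v) (hs : 0 < s) (ht : 0 < t)
    (h1 : u * s < 1) (h2 : v * t < 1)
    (a1 : 0 ≤ x → -(v * x) ≤ y ∧ y ≤ u * x) (a2 : x ≤ 0 → -(u * (-x)) ≤ y ∧ y ≤ v * (-x))
    (b1 : 0 ≤ y → -(t * y) ≤ x ∧ x ≤ s * y) (b2 : y ≤ 0 → -(s * (-y)) ≤ x ∧ x ≤ t * (-y)) :
    x = 0 ∧ y = 0 := by
  have key : ∀ {p q a b : ℝ}, 0 < p → 0 < q → p * q < 1 → 0 ≤ a → 0 ≤ b → b ≤ p * a →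
      a ≤ q * b → a = 0 ∧ b = 0 := by
    intro p q a b hp hq hpq ha hb h1 h2
    have h3 : a ≤ (p * q) * a := by
      calc a ≤ q * b := h2
        _ ≤ q * (p * a) := mul_le_mul_of_nonneg_left h1 hq.le
        _ = _ := by ring
    have ha0 : a = 0 := by
      by_contra hne
      have : 0 < a := lt_of_le_of_ne ha (Ne.symm hne)
      nlinarith
    subst ha0
    exact ⟨rfl, le_antisymm (by simpa using h1) hb⟩
  rcases le_total 0 x with hx | hx <;> rcases le_total 0 y with hy | hy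
  · exact key hu hs h1 hx hy (a1 hx).2 (b1 hy).2
  · have := key hv ht h2 hx (neg_nonneg.mpr hy) (by linarith [(a1 hx).1]) (b2 hy).2
    exact ⟨this.1, by linarith [this.2]⟩
  · have := key hv ht h2 (neg_nonneg.mpr hx) hy (a2 hx).2 (by linarith [(b1 hy).1])
    exact ⟨by linarith [this.1], this.2⟩
  · have := key hu hs h1 (neg_nonneg.mpr hx) (neg_nonneg.mpr hy) (by linarith [(a2 hx).1])
      (by linarith [(b2 hy).1])
    exact ⟨by linarith [this.1], by linarith [this.2]⟩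

theorem Skew.cross (S : Skew G C K1) (hC : C.Good G) {i j : ℤ} {w : V} (h : S.onH j w)
    (h' : S.tr.onH i w.swap) : w = S.Φ (i, j) := by
  obtain ⟨p1, p2, p3, p4, p5, p6⟩ := good_pos hC
  have c1 := onH_cone S hC i h
  have c2 := onH_cone S.tr hC.sw j h'
  have e : S.tr.Φ (j, i) = (S.Φ (i, j)).swap := rfl
  rw [e] at c2
  simp only [Cn.sw, Prod.fst_swap, Prod.snd_swap] at c2
  have := cone_zero (x := (w.1 : ℝ) - (S.Φ (i, j)).1) (y := (w.2 : ℝ) - (S.Φ (i, j)).2)
    p1 p2 p3 p4 p5 p6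
    (fun hx => c1.1 (by exact_mod_cast (sub_nonneg.mp hx)))
    (fun hx => by
      have := c1.2 (by exact_mod_cast (sub_nonpos.mp hx))
      rw [neg_sub]; exact this)
    (fun hx => c2.1 (by exact_mod_cast (sub_nonneg.mp hx)))
    (fun hx => by
      have := c2.2 (by exact_mod_cast (sub_nonpos.mp hx))
      rw [neg_sub]; exact this)
  ext
  · exact_mod_cast (sub_eq_zero.mp this.1)
  · exact_mod_cast (sub_eq_zero.mp this.2)

private theorem onH_root1 (S : Skew G C K1) (k : V) : S.onH k.2 (S.Φ k) := by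
  have hρ := G.hρ
  have h1 : S.H k.2 ((S.Φ k).1 - 1) = (S.Φ k).2 :=
    S.H_root (i := k.1) (j := k.2) (by simp; omega) (by simp; omega)
  have h2 : S.H k.2 (S.Φ k).1 = (S.Φ k).2 :=
    S.H_root (i := k.1) (j := k.2) (by simp; omega) (by simp; omega)
  constructor
  · rw [h1, h2]; simp
  · rw [h1, h2]; simp

theorem Skew.onH_root (S : Skew G C K1) (k : V) :
    S.onH k.2 (S.Φ k) ∧ S.tr.onH k.1 (S.Φ k).swap :=
  ⟨onH_root1 S k, onH_root1 S.tr k.swap⟩

theorem Skew.onH_unique (S : Skew G C K1) (hC : C.Good G) {j j' : ℤ} {w : V}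
    (h : S.onH j w) (h' : S.onH j' w) : j = j' := by
  -- heights increase with the wall
  have hmono : ∀ (n : ℕ) (j x : ℤ), S.H j x + n * G.ρ ≤ S.H (j + n) x := by
    intro n
    induction n with
    | zero => intro j x; simp
    | succ n ih =>
      intro j x
      have := S.H_sep hC (j := j + n) (x := x) (x' := x) (by simp)
      have h2 := ih j x
      push_cast
      rw [← add_assoc]
      linarith
  have hρ := G.hρ
  have key : ∀ {j j' : ℤ}, S.onH j w → S.onH j' w → ¬ j < j' := by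
    intro j j' h h' hlt
    obtain ⟨n, hn⟩ := Int.le.dest (show j + 1 ≤ j' from hlt)
    have g : ∀ x x' : ℤ, |x' - x| ≤ 1 → S.H j x < S.H j' x' := by
      intro x x' hx
      have s1 := S.H_sep hC (j := j) hx
      have s2 := hmono n (j + 1) x'
      rw [hn] at s2
      have : 0 ≤ (n : ℤ) * G.ρ := mul_nonneg (by omega) (by omega)
      linarith
    obtain ⟨-, a2⟩ := h
    obtain ⟨b1, -⟩ := h'
    have g1 := g (w.1 - 1) (w.1 - 1) (by simp)
    have g2 := g (w.1 - 1) w.1 (by simp)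
    have g3 := g w.1 (w.1 - 1) (by simp)
    have g4 := g w.1 w.1 (by simp)
    rcases le_max_iff.mp a2 with m | m <;> rcases min_le_iff.mp b1 with m' | m' <;> omega
  rcases lt_trichotomy j j' with hlt | he | hgt
  · exact absurd hlt (key h h')
  · exact he
  · exact absurd hgt (key h' h)

/-- Roots on a horizontal wall. -/
theorem Skew.root_onH (S : Skew G C K1) (hC : C.Good G) {j : ℤ} {k : V}
    (h : S.onH j (S.Φ k)) : k.2 = j :=
  S.onH_unique hC (S.onH_root k).1 h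

theorem Skew.inj (S : Skew G C K1) (hC : C.Good G) : Function.Injective S.Φ := by
  intro k k' h
  have h2 : k.2 = k'.2 := S.root_onH hC (by rw [h]; exact (S.onH_root k').1)
  have h1 : k.1 = k'.1 := by
    have := S.tr.root_onH hC.sw (k := k.swap) (j := k'.1) (by
      have e : S.tr.Φ k.swap = (S.Φ k).swap := rfl
      rw [e, h]; exact (S.onH_root k').2)
    exact this
  exact Prod.ext h1 h2

end BU39
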