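import Pool.Agent.LibBU39.G05
import Pool.Agent.LibBU39.G09

/-!
TASK G11.  Following a horizontal wall.

Let `k = (i, j)`, `(X, Y) = Φ k`, `X1 = Φ (k + e1).1`.  All edges of the wall `j` with abscissa
between `X` and `X1` are connected with the edge `(Φ k, false)` without meeting a root, near
`Φ k`: for `X ≤ x < X1` the horizontal edge `((x, H j x), false)`, and for `X < x < X1` the
vertical edges `((x, y), true)` with `vH j (x, y)`.
Induction on `x`: from `((x - 1, H j (x - 1)), false)` to the vertex `(x, H j (x - 1))`, along the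
vertical edges at abscissa `x` (induction on the height) to `(x, H j x)`, then to
`((x, H j x), false)`.  The vertices used are `(x, y)` with `X < x < X1`, `y` between `H j (x-1)` and
`H j x`; they are on the wall `j`; a root on this wall is `Φ (i', j)` (G05 `root_onH`) with
abscissa `X < Φ (i', j).1 < X1`, impossible by `strictMono`.  All these edges are walls: the
horizontal edge `(w, false)` with `hH j w`: `ι w ≠ ι (w - e2)` by the first case of `edge_h`;
same for vertical edges by `edge_v`.  Bounds: `|x - X| ≤ K1`, `|y - Y| ≤ K1` by `hh_bd`.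
-/

namespace BU39

variable {G : GeoC} {C : Cn} {K1 : ℤ}

private theorem G11_wallH (S : Skew G C K1) (hC : C.Good G) {ι : V → V}
    (hι : ∀ z k, ι z = k ↔ S.InCell z k) {j : ℤ} {w : V} (h : S.hH j w) :
    wallF ι (w, false) := by
  intro he
  have he' : ι (w - e2) = ι w := he
  rcases S.edge_h hC (fun i j w h h' => S.cross hC h h') hι w with h1 | h1 | h1 | h1
  · exact h1.2.1 j h
  · have := congrArg Prod.snd h1.1
    rw [he'] at this
    simp [e2] at this
  · have := congrArg Prod.fst h1.1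
    rw [he'] at this
    simp [e1] at this
  · have := congrArg Prod.fst h1.1
    rw [he'] at this
    simp [e1] at this

private theorem G11_wallV (S : Skew G C K1) (hC : C.Good G) {ι : V → V}
    (hι : ∀ z k, ι z = k ↔ S.InCell z k) {j : ℤ} {w : V} (h : S.vH j w) :
    wallF ι (w, true) := by
  intro he
  have he' : ι (w - e1) = ι w := he
  rcases S.edge_v hC (fun i j w h h' => S.cross hC h h') hι w with h1 | h1 | h1 | h1
  · exact h1.2.2 j h
  · have := congrArg Prod.fst h1.1
    rw [he'] at this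
    simp [e1] at this
  · have := congrArg Prod.snd h1.1
    rw [he'] at this
    simp [e2] at this
  · have := congrArg Prod.snd h1.1
    rw [he'] at this
    simp [e2] at this

/-- the heights of the wall near `Φ k` -/
private theorem G11_bd (S : Skew G C K1) (k : V) {x : ℤ} (h : (S.Φ k).1 ≤ x)
    (h' : x < (S.Φ (k + e1)).1) :
    (S.Φ k).2 - K1 ≤ S.H k.2 x ∧ S.H k.2 x ≤ (S.Φ k).2 + K1 ∧ x - (S.Φ k).1 ≤ K1 := by
  have hD : InD G C K1 (S.D1 k) := S.h1 k
  have hk : k + e1 = (k.1 + 1, k.2) := by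
    ext <;> simp [e1]
  have e : (S.D1 k).1 = (S.Φ (k + e1)).1 - (S.Φ k).1 := rfl
  have h1 : S.H k.2 x = (S.Φ k).2 + hh G.ρ (S.D1 k) (x - (S.Φ k).1) :=
    S.H_eq (i := k.1) (j := k.2) h (by rw [← hk]; exact h')
  have h2 := hh_bd hD (x - (S.Φ k).1)
  have h3 := abs_le.1 hD.hi2
  have h4 := hD.hi
  rw [e] at h4
  refine ⟨?_, ?_, ?_⟩ <;> omega

/-- the vertices of the wall strictly between two roots -/
private theorem G11_vert (S : Skew G C K1) (hC : C.Good G) (k : V) {x y : ℤ}
    (h : (S.Φ k).1 < x) (h' : x < (S.Φ (k + e1)).1)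
    (hy : min (S.H k.2 (x - 1)) (S.H k.2 x) ≤ y ∧ y ≤ max (S.H k.2 (x - 1)) (S.H k.2 x)) :
    Bd (2 * K1) ((x, y) - S.Φ k) ∧ ((x, y) : V) ∉ Set.range S.Φ := by
  have b1 := G11_bd S k (x := x) h.le h'
  have b2 := G11_bd S k (x := x - 1) (by omega) (by omega)
  have hK : 0 ≤ K1 := by omega
  refine ⟨⟨abs_le.2 ⟨?_, ?_⟩, abs_le.2 ⟨?_, ?_⟩⟩, ?_⟩
  · change -(2 * K1) ≤ x - (S.Φ k).1
    omega
  · change x - (S.Φ k).1 ≤ 2 * K1
    omega
  · change -(2 * K1) ≤ y - (S.Φ k).2
    omega
  · change y - (S.Φ k).2 ≤ 2 * K1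
    omega
  · rintro ⟨k', hk'⟩
    have h1 : S.onH k.2 (S.Φ k') := by
      rw [hk']
      exact hy
    have h2 := S.root_onH hC h1
    have hk : k + e1 = (k.1 + 1, k.2) := by
      ext <;> simp [e1]
    have m := S.strictMono k.2
    have e0 : ((k'.1, k.2) : V) = k' := by rw [← h2]
    have h3 : (S.Φ (k.1, k.2)).1 < (S.Φ (k'.1, k.2)).1 := by
      rw [e0, hk']
      exact h
    have h4 : (S.Φ (k'.1, k.2)).1 < (S.Φ (k.1 + 1, k.2)).1 := by
      rw [e0, hk', ← hk]
      exact h'
    have h5 : k.1 < k'.1 := m.lt_iff_lt.1 h3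
    have h6 : k'.1 < k.1 + 1 := m.lt_iff_lt.1 h4
    omega

private theorem G11_link (S : Skew G C K1) (hC : C.Good G) {ι : V → V} (k : V) {x y : ℤ}
    (h : (S.Φ k).1 < x) (h' : x < (S.Φ (k + e1)).1)
    (hy : min (S.H k.2 (x - 1)) (S.H k.2 x) ≤ y ∧ y ≤ max (S.H k.2 (x - 1)) (S.H k.2 x))
    {e e' : V × Bool} (he : inc e (x, y)) (he' : inc e' (x, y)) (hw : wallF ι e)
    (hw' : wallF ι e') : LinkF (2 * K1) ι (Set.range S.Φ) (S.Φ k) e e' :=
  ⟨(x, y), (G11_vert S hC k h h' hy).1, (G11_vert S hC k h h' hy).2, he, he', hw, hw'⟩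

private theorem G11_step (S : Skew G C K1) (hC : C.Good G) {ι : V → V}
    (hι : ∀ z k, ι z = k ↔ S.InCell z k) (k : V) {x : ℤ} (h : (S.Φ k).1 < x)
    (h' : x < (S.Φ (k + e1)).1)
    (hr : ReachF (2 * K1) ι (Set.range S.Φ) (S.Φ k) (S.Φ k, false)
      ((x - 1, S.H k.2 (x - 1)), false)) :
    (∀ y, S.vH k.2 (x, y) →
      ReachF (2 * K1) ι (Set.range S.Φ) (S.Φ k) (S.Φ k, false) ((x, y), true)) ∧
    ReachF (2 * K1) ι (Set.range S.Φ) (S.Φ k) (S.Φ k, false) ((x, S.H k.2 x), false) := by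
  have w0 : wallF ι ((x - 1, S.H k.2 (x - 1)), false) :=
    G11_wallH S hC hι (j := k.2) rfl
  have w1 : wallF ι ((x, S.H k.2 x), false) := G11_wallH S hC hι (j := k.2) rfl
  have wv : ∀ y, S.vH k.2 (x, y) → wallF ι ((x, y), true) := fun y hy =>
    G11_wallV S hC hι hy
  have i0 : inc ((x - 1, S.H k.2 (x - 1)), false) (x, S.H k.2 (x - 1)) :=
    Or.inr (by ext <;> simp [e1])
  have i1 : inc ((x, S.H k.2 x), false) (x, S.H k.2 x) := Or.inl rfl
  have ib : ∀ y, inc ((x, y), true) (x, y) := fun y => Or.inl rfl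
  have it : ∀ y, inc ((x, y), true) (x, y + 1) := fun y => Or.inr (by ext <;> simp [e2])
  rcases lt_trichotomy (S.H k.2 (x - 1)) (S.H k.2 x) with hpq | hpq | hpq
  · have hv : ∀ y, S.H k.2 (x - 1) ≤ y → y < S.H k.2 x → S.vH k.2 (x, y) :=
      fun y h1 h2 => Or.inl ⟨h1, h2⟩
    have key : ∀ n : ℕ, S.H k.2 (x - 1) + n < S.H k.2 x →
        ReachF (2 * K1) ι (Set.range S.Φ) (S.Φ k) (S.Φ k, false)
          ((x, S.H k.2 (x - 1) + n), true) := by
      intro n
      induction n with
      | zero =>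
        intro hn
        rw [Nat.cast_zero, add_zero] at hn ⊢
        exact hr.tail (G11_link S hC k h h' ⟨min_le_left _ _, le_max_left _ _⟩ i0 (ib _) w0
          (wv _ (hv _ le_rfl hn)))
      | succ n ih =>
        intro hn
        push_cast at hn ⊢
        rw [← add_assoc] at hn ⊢
        refine (ih (by omega)).tail (G11_link S hC k h h' (y := S.H k.2 (x - 1) + n + 1)
          ⟨by omega, by omega⟩ (it _) (ib _) (wv _ (hv _ (by omega) (by omega)))
          (wv _ (hv _ (by omega) hn)))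
    have key' : ∀ y, S.H k.2 (x - 1) ≤ y → y < S.H k.2 x →
        ReachF (2 * K1) ι (Set.range S.Φ) (S.Φ k) (S.Φ k, false) ((x, y), true) := by
      intro y h1 h2
      obtain ⟨n, hn⟩ := Int.eq_ofNat_of_zero_le (by omega : 0 ≤ y - S.H k.2 (x - 1))
      have e : y = S.H k.2 (x - 1) + n := by omega
      rw [e]
      exact key n (by omega)
    refine ⟨fun y hy => ?_, ?_⟩
    · rcases hy with hy | hy
      · exact key' y hy.1 hy.2
      · have h1 : S.H k.2 x ≤ y := hy.1
        have h2 : y < S.H k.2 (x - 1) := hy.2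
        omega
    · have h1 := it (S.H k.2 x - 1)
      rw [sub_add_cancel] at h1
      exact (key' (S.H k.2 x - 1) (by omega) (by omega)).tail
        (G11_link S hC k h h' ⟨min_le_right _ _, le_max_right _ _⟩ h1 i1
          (wv _ (hv _ (by omega) (by omega))) w1)
  · refine ⟨fun y hy => ?_, ?_⟩
    · rcases hy with hy | hy
      · have h1 : S.H k.2 (x - 1) ≤ y := hy.1
        have h2 : y < S.H k.2 x := hy.2
        omega
      · have h1 : S.H k.2 x ≤ y := hy.1
        have h2 : y < S.H k.2 (x - 1) := hy.2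
        omega
    · refine hr.tail (G11_link S hC k h h' (y := S.H k.2 x)
        ⟨min_le_right _ _, le_max_right _ _⟩ ?_ i1 w0 w1)
      rw [← hpq]
      exact i0
  · have hv : ∀ y, S.H k.2 x ≤ y → y < S.H k.2 (x - 1) → S.vH k.2 (x, y) :=
      fun y h1 h2 => Or.inr ⟨h1, h2⟩
    have key : ∀ n : ℕ, S.H k.2 x ≤ S.H k.2 (x - 1) - 1 - n →
        ReachF (2 * K1) ι (Set.range S.Φ) (S.Φ k) (S.Φ k, false)
          ((x, S.H k.2 (x - 1) - 1 - n), true) := by
      intro n
      induction n with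
      | zero =>
        intro hn
        rw [Nat.cast_zero, sub_zero] at hn ⊢
        have h1 := it (S.H k.2 (x - 1) - 1)
        rw [sub_add_cancel] at h1
        exact hr.tail (G11_link S hC k h h' ⟨min_le_left _ _, le_max_left _ _⟩ i0 h1 w0
          (wv _ (hv _ hn (by omega))))
      | succ n ih =>
        intro hn
        push_cast at hn ⊢
        have h1 := it (S.H k.2 (x - 1) - 1 - ((n : ℤ) + 1))
        have e : S.H k.2 (x - 1) - 1 - ((n : ℤ) + 1) + 1 = S.H k.2 (x - 1) - 1 - n := by ring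
        rw [e] at h1
        refine (ih (by omega)).tail (G11_link S hC k h h' (y := S.H k.2 (x - 1) - 1 - n)
          ⟨by omega, by omega⟩ (ib _) h1 (wv _ (hv _ (by omega) (by omega)))
          (wv _ (hv _ hn (by omega))))
    have key' : ∀ y, S.H k.2 x ≤ y → y < S.H k.2 (x - 1) →
        ReachF (2 * K1) ι (Set.range S.Φ) (S.Φ k) (S.Φ k, false) ((x, y), true) := by
      intro y h1 h2
      obtain ⟨n, hn⟩ := Int.eq_ofNat_of_zero_le (by omega : 0 ≤ S.H k.2 (x - 1) - 1 - y)
      have e : y = S.H k.2 (x - 1) - 1 - n := by omega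
      rw [e]
      exact key n (by omega)
    refine ⟨fun y hy => ?_, ?_⟩
    · rcases hy with hy | hy
      · have h1 : S.H k.2 (x - 1) ≤ y := hy.1
        have h2 : y < S.H k.2 x := hy.2
        omega
      · exact key' y hy.1 hy.2
    · exact (key' (S.H k.2 x) le_rfl hpq).tail
        (G11_link S hC k h h' ⟨min_le_right _ _, le_max_right _ _⟩ (ib _) i1
          (wv _ (hv _ le_rfl hpq)) w1)

theorem Skew.follow (S : Skew G C K1) (hC : C.Good G) {ι : V → V}
    (hι : ∀ z k, ι z = k ↔ S.InCell z k) (k : V) {x : ℤ} (h : (S.Φ k).1 ≤ x)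
    (h' : x < (S.Φ (k + e1)).1) :
    ReachF (2 * K1) ι (Set.range S.Φ) (S.Φ k) (S.Φ k, false) ((x, S.H k.2 x), false) ∧
    ∀ y, (S.Φ k).1 < x → S.vH k.2 (x, y) →
      ReachF (2 * K1) ι (Set.range S.Φ) (S.Φ k) (S.Φ k, false) ((x, y), true) := by
  have hroot : S.H k.2 (S.Φ k).1 = (S.Φ k).2 := by
    have hρ := G.hρ
    exact S.H_root (i := k.1) (j := k.2) (by change (S.Φ k).1 - G.ρ ≤ _; omega)
      (by change _ ≤ (S.Φ k).1 + G.ρ; omega)
  have key : ∀ n : ℕ, (S.Φ k).1 + n < (S.Φ (k + e1)).1 →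
      ReachF (2 * K1) ι (Set.range S.Φ) (S.Φ k) (S.Φ k, false)
        (((S.Φ k).1 + n, S.H k.2 ((S.Φ k).1 + n)), false) := by
    intro n
    induction n with
    | zero =>
      intro _
      rw [Nat.cast_zero, add_zero, hroot]
      exact Relation.ReflTransGen.refl
    | succ n ih =>
      intro hn
      push_cast at hn ⊢
      rw [← add_assoc] at hn ⊢
      refine (G11_step S hC hι k (by omega) hn ?_).2
      rw [add_sub_cancel_right]
      exact ih (by omega)
  have key' : ∀ x, (S.Φ k).1 ≤ x → x < (S.Φ (k + e1)).1 →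
      ReachF (2 * K1) ι (Set.range S.Φ) (S.Φ k) (S.Φ k, false) ((x, S.H k.2 x), false) := by
    intro x h h'
    obtain ⟨n, hn⟩ := Int.eq_ofNat_of_zero_le (by omega : 0 ≤ x - (S.Φ k).1)
    have e : x = (S.Φ k).1 + n := by omega
    rw [e]
    exact key n (by omega)
  exact ⟨key' x h h', fun y hx hy =>
    (G11_step S hC hι k hx h' (key' (x - 1) (by omega) (by omega))).1 y hy⟩

end BU39
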