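import Pool.Agent.LibBU39.G11

/-!
TASK G12.  General facts about `ReachF`: symmetry, change of the centre, transposition; and the
transposed version of G11.
-/

namespace BU39

variable {G : GeoC} {C : Cn} {K1 : ℤ}

theorem ReachF.symm {K : ℤ} {f : V → V} {Rt : Set V} {z : V} {e e' : V × Bool}
    (h : ReachF K f Rt z e e') : ReachF K f Rt z e' e := by
  induction h with
  | refl => exact Relation.ReflTransGen.refl
  | tail _ hb ih =>
    refine Relation.ReflTransGen.head ?_ ih
    obtain ⟨u, h1, h2, h3, h4, h5, h6⟩ := hb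
    exact ⟨u, h1, h2, h4, h3, h6, h5⟩

theorem ReachF.center {K K' : ℤ} {f : V → V} {Rt : Set V} {z z' : V} {e e' : V × Bool}
    (h : ReachF K f Rt z e e') (hb : Bd K' (z - z')) : ReachF (K + K') f Rt z' e e' := by
  refine Relation.ReflTransGen.mono (fun a b hab => ?_) _ _ h
  obtain ⟨u, h1, h2, h3, h4, h5, h6⟩ := hab
  refine ⟨u, ⟨?_, ?_⟩, h2, h3, h4, h5, h6⟩
  · have e : (u - z').1 = (u - z).1 + (z - z').1 := by simp only [Prod.fst_sub]; ring
    rw [e]
    exact (abs_add_le _ _).trans (add_le_add h1.1 hb.1)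
  · have e : (u - z').2 = (u - z).2 + (z - z').2 := by simp only [Prod.snd_sub]; ring
    rw [e]
    exact (abs_add_le _ _).trans (add_le_add h1.2 hb.2)

private theorem G12_inc {e : V × Bool} {u : V} (h : inc e u) : inc (e.1.swap, !e.2) u.swap := by
  obtain ⟨w, o⟩ := e
  rcases h with h | h
  · left
    rw [h]
  · right
    rw [h]
    cases o <;> rfl

private theorem G12_wall {f : V → V} {e : V × Bool} (h : wallF f e) :
    wallF (fun z => (f z.swap).swap) (e.1.swap, !e.2) := by
  obtain ⟨w, o⟩ := e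
  intro h2
  apply h
  have h3 := congrArg Prod.swap h2
  simp only [Prod.swap_swap] at h3
  cases o <;> exact h3

theorem ReachF.swap {K : ℤ} {f : V → V} {Rt : Set V} {z : V} {e e' : V × Bool}
    (h : ReachF K f Rt z e e') :
    ReachF K (fun z => (f z.swap).swap) {u | u.swap ∈ Rt} z.swap (e.1.swap, !e.2)
      (e'.1.swap, !e'.2) := by
  induction h with
  | refl => exact Relation.ReflTransGen.refl
  | tail _ hb ih =>
    refine Relation.ReflTransGen.tail ih ?_
    obtain ⟨u, h1, h2, h3, h4, h5, h6⟩ := hb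
    exact ⟨u.swap, ⟨h1.2, h1.1⟩, by simpa using h2, G12_inc h3, G12_inc h4, G12_wall h5,
      G12_wall h6⟩

private theorem G12_trtr (S : Skew G C K1) (j x : ℤ) : S.tr.tr.H j x = S.H j x := by
  obtain ⟨i, h1, h2⟩ := S.exists_col j x
  rw [Skew.H_eq S h1 h2]
  exact Skew.H_eq S.tr.tr h1 h2

private theorem G12_cell (S : Skew G C K1) {ι : V → V} (hι : ∀ z k, ι z = k ↔ S.InCell z k) :
    ∀ z k, (fun z => (ι z.swap).swap) z = k ↔ S.tr.InCell z k := by
  intro z k
  have h1 : (fun z : V => (ι z.swap).swap) z = k ↔ ι z.swap = k.swap := by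
    constructor
    · intro h
      have := congrArg Prod.swap h
      simpa using this
    · intro h
      show (ι z.swap).swap = k
      rw [h, Prod.swap_swap]
  rw [h1, hι]
  unfold Skew.InCell
  simp only [G12_trtr, Prod.fst_swap, Prod.snd_swap]
  tauto

theorem Skew.follow_tr (S : Skew G C K1) (hC : C.Good G) {ι : V → V}
    (hι : ∀ z k, ι z = k ↔ S.InCell z k) (k : V) {y : ℤ} (h : (S.Φ k).2 ≤ y)
    (h' : y < (S.Φ (k + e2)).2) :
    ReachF (2 * K1) ι (Set.range S.Φ) (S.Φ k) (S.Φ k, true) ((S.tr.H k.1 y, y), true) ∧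
    ∀ x, (S.Φ k).2 < y → S.tr.vH k.1 (y, x) →
      ReachF (2 * K1) ι (Set.range S.Φ) (S.Φ k) (S.Φ k, true) ((x, y), false) := by
  have hk : (k.swap + e1 : V).swap = k + e2 := rfl
  have a1 : (S.tr.Φ k.swap).1 ≤ y := by
    show (S.Φ k.swap.swap).swap.1 ≤ y
    rw [Prod.swap_swap]
    exact h
  have a2 : y < (S.tr.Φ (k.swap + e1)).1 := by
    show y < (S.Φ (k.swap + e1 : V).swap).swap.1
    rw [hk]
    exact h'
  have F := Skew.follow S.tr hC.sw (G12_cell S hι) k.swap a1 a2
  have hΦ : S.tr.Φ k.swap = (S.Φ k).swap := by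
    show (S.Φ k.swap.swap).swap = _
    rw [Prod.swap_swap]
  have hf : (fun z : V => ((fun z : V => (ι z.swap).swap) z.swap).swap) = ι := by
    funext z
    simp
  have hR : {u : V | u.swap ∈ Set.range S.tr.Φ} = Set.range S.Φ := by
    ext u
    constructor
    · rintro ⟨p, hp⟩
      refine ⟨p.swap, ?_⟩
      have h0 : (S.Φ p.swap).swap = u.swap := hp
      have := congrArg Prod.swap h0
      simpa using this
    · rintro ⟨p, hp⟩
      refine ⟨p.swap, ?_⟩
      show (S.Φ p.swap.swap).swap = u.swap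
      rw [Prod.swap_swap, hp]
  rw [hΦ] at F
  constructor
  · have g := ReachF.swap F.1
    rw [hf, hR] at g
    simpa using g
  · intro x hx hv
    have hx' : (S.Φ k).swap.1 < y := hx
    have g := ReachF.swap (F.2 x hx' hv)
    rw [hf, hR] at g
    simpa using g

end BU39
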