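import Pool.Agent.LibBU39.Conts3

/-!
COMPLETENESS, part 4: generic phases.  The dynamical part of a hierarchy: displacements in the
next level, local constancy off the orbit of `0`, large patches.
-/

namespace BU39

open Topology Filter

/-- The `ℓ¹`-norm. -/
def nn (z : V) : ℤ := |z.1| + |z.2|

/-- Phases that are not in the orbit of `0`. -/
def Om (α : T1 × T1) : Set T1 := {x | ∀ z, x ≠ rt α z 0}

/-- Labellings of all levels, with displacements and local constancy. -/
structure HierG (P : Par) extends Hier P where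
  /-- index (in the next level) of the block of the cell `z`, relative to the block of `0` -/
  blk : ℕ → T1 → V → V
  blk_bp : ∀ l x z, bp l (rt (α l) z x) = rt (α (l + 1)) (blk l x z) (bp l x)
  blk_le : ∀ l x z, 2 * nn (blk l x z) ≤ nn z + 2
  /-- a wall on the side of a block separates the blocks of its two cells -/
  lift : ∀ l x o r o', wall (cfg (α l) (raw l) x) (0, o) → gr l x o = (r, o') →
    sf o' (raw l r).g = true →
    (bp l r = bp l x ∧ rt (α (l + 1)) (-(nv o')) (bp l r) = bp l (rt (α l) (-(nv o)) x)) ∨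
    (bp l r = bp l (rt (α l) (-(nv o)) x) ∧ rt (α (l + 1)) (-(nv o')) (bp l r) = bp l x)
  free : ∀ l z x, rt (α l) z x = x → z = 0
  /-- some patch is large -/
  core : ∀ l, ∃ x ∈ Om (α l), ∀ z o, nn z ≤ 3 → nn (z - nv o) ≤ 3 →
    ¬ wall (cfg (α l) (raw l) x) (z, o)
  surj : ∀ l, ∀ y ∈ Om (α (l + 1)), ∃ x ∈ Om (α l), bp l x = y
  om_bp : ∀ l, ∀ x ∈ Om (α l), bp l x ∈ Om (α (l + 1))
  loc_raw : ∀ l, ∀ x ∈ Om (α l), ∀ᶠ x' in 𝓝 x, raw l x' = raw l x
  loc_bp : ∀ l, ∀ x ∈ Om (α l), ContinuousAt (bp l) x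
  loc_gr : ∀ l, ∀ x ∈ Om (α l), ∀ o, wall (cfg (α l) (raw l) x) (0, o) →
    ∃ v o', ∀ᶠ x' in 𝓝 x, gr l x' o = (rt (α l) v x', o')

theorem continuous_rt (α : T1 × T1) (z : V) : Continuous (rt α z) := by
  unfold rt
  fun_prop

theorem Om_rt {α : T1 × T1} {x : T1} (h : x ∈ Om α) (w : V) : rt α w x ∈ Om α := by
  intro z hz
  apply h (-w + z)
  rw [← rt_rt, ← hz, rt_rt, neg_add_cancel, rt_zero]

theorem nn_nonneg (z : V) : 0 ≤ nn z := by
  unfold nn; positivity

theorem nn_add (z w : V) : nn (z + w) ≤ nn z + nn w := by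
  unfold nn
  have h1 := abs_add_le z.1 w.1
  have h2 := abs_add_le z.2 w.2
  simp only [Prod.fst_add, Prod.snd_add]
  linarith

theorem nn_neg (z : V) : nn (-z) = nn z := by
  unfold nn
  simp only [Prod.fst_neg, Prod.snd_neg, abs_neg]

namespace HierG

variable {P : Par} (H : HierG P)

/-- All contents of the edges between cells in the ball of radius `N` exist. -/
def Good (l : ℕ) (x : T1) (N : ℤ) : Prop :=
  ∀ z o, nn z ≤ N → nn (z - nv o) ≤ N → ∃ c, H.toHier.Con l (rt (H.α l) z x) o c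

variable {H}

theorem Good.mono {l : ℕ} {x : T1} {N N' : ℤ} (h : H.Good l x N) (hN : N' ≤ N) :
    H.Good l x N' := fun z o h1 h2 => h z o (h1.trans hN) (h2.trans hN)

theorem Good.shift {l : ℕ} {x : T1} {N M : ℤ} {w : V} (h : H.Good l x N)
    (hw : M + nn w ≤ N) : H.Good l (rt (H.α l) w x) M := by
  intro z o h1 h2
  rw [rt_rt]
  apply h
  · have := nn_add z w
    linarith
  · have := nn_add (z - nv o) w
    have e : z - nv o + w = z + w - nv o := by abel
    rw [e] at this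
    linarith

/-- One level down. -/
theorem Good.down {l : ℕ} {x : T1} {N N' : ℤ} (h : H.Good (l + 1) (H.bp l x) N')
    (hN : N + 2 ≤ 2 * N' + 1) : H.Good l x N := by
  intro z o h1 h2
  set y := rt (H.α l) z x with hy
  by_cases hw : wall (H.toHier.cf l y) (0, o)
  · rcases hg : H.gr l y o with ⟨r, o'⟩
    rcases hs : sf o' (H.raw l r).g with _ | _
    · exact ⟨_, Hier.Con.intg hw hg hs⟩
    · have hz1 : H.bp l y = rt (H.α (l + 1)) (H.blk l x z) (H.bp l x) := H.blk_bp l x z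
      have hz2 : H.bp l (rt (H.α l) (-(nv o)) y) =
          rt (H.α (l + 1)) (H.blk l x (z - nv o)) (H.bp l x) := by
        rw [hy, rt_rt, neg_add_eq_sub]
        exact H.blk_bp l x _
      have n1 := H.blk_le l x z
      have n2 := H.blk_le l x (z - nv o)
      have hfree : ∀ v w : V, rt (H.α (l + 1)) v (H.bp l x) = rt (H.α (l + 1)) w (H.bp l x) →
          v = w := by
        intro v w hvw
        have h3 : rt (H.α (l + 1)) (-w + v) (H.bp l x) = H.bp l x := by
          rw [← rt_rt, hvw, rt_rt, neg_add_cancel, rt_zero]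
        have h4 := H.free (l + 1) _ _ h3
        have h5 : v = w := by
          rw [neg_add_eq_zero] at h4
          exact h4.symm
        exact h5
      rcases H.lift l y o r o' hw hg hs with ⟨q1, q2⟩ | ⟨q1, q2⟩
      · have h3 : H.blk l x z - nv o' = H.blk l x (z - nv o) := by
          apply hfree
          rw [← hz2, ← q2, q1, hz1, rt_rt, neg_add_eq_sub]
        obtain ⟨c, hc⟩ := h (H.blk l x z) o' (by omega) (by rw [h3]; omega)
        refine ⟨c, Hier.Con.up hw hg hs ?_⟩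
        rw [q1, hz1]
        exact hc
      · have h3 : H.blk l x (z - nv o) - nv o' = H.blk l x z := by
          apply hfree
          rw [← hz1, ← q2, q1, hz2, rt_rt, neg_add_eq_sub]
        obtain ⟨c, hc⟩ := h (H.blk l x (z - nv o)) o' (by omega) (by rw [h3]; omega)
        refine ⟨c, Hier.Con.up hw hg hs ?_⟩
        rw [q1, hz2]
        exact hc
  · exact ⟨_, Hier.Con.intl hw⟩

/-- Good phases exist at all levels. -/
theorem exists_good (N : ℕ) : ∀ l, ∃ x ∈ Om (H.α l), H.Good l x (N + 3) := by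
  induction N with
  | zero =>
    intro l
    obtain ⟨x, hx, h⟩ := H.core l
    refine ⟨x, hx, ?_⟩
    intro z o h1 h2
    refine ⟨_, Hier.Con.intl ?_⟩
    rw [Hier.wall_rt, zero_add]
    exact h z o (by simpa using h1) (by simpa using h2)
  | succ N ih =>
    intro l
    obtain ⟨y, hy, h⟩ := ih (l + 1)
    obtain ⟨x, hx, hxy⟩ := H.surj l y hy
    rw [← hxy] at h
    refine ⟨x, hx, h.down ?_⟩
    push_cast
    linarith

/-- Local constancy of finitely many raw labels. -/
theorem ev_cf {l : ℕ} {x : T1} (hx : x ∈ Om (H.α l)) (z : V) :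
    ∀ᶠ x' in 𝓝 x, H.toHier.cf l x' z = H.toHier.cf l x z := by
  have h1 := H.loc_raw l _ (Om_rt hx z)
  exact (continuous_rt (H.α l) z).continuousAt.eventually h1

theorem ev_wall {l : ℕ} {x : T1} (hx : x ∈ Om (H.α l)) (e : V × Bool) :
    ∀ᶠ x' in 𝓝 x, (wall (H.toHier.cf l x') e ↔ wall (H.toHier.cf l x) e) := by
  filter_upwards [ev_cf hx e.1, ev_cf hx (e.1 - (if e.2 then e1 else e2))] with x' h1 h2
  unfold wall root
  rw [h1, h2]

theorem ev_vt {l : ℕ} {x : T1} (hx : x ∈ Om (H.α l)) (w : V) :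
    ∀ᶠ x' in 𝓝 x, vt (H.toHier.cf l x') w = vt (H.toHier.cf l x) w := by
  filter_upwards [ev_wall hx (w, false), ev_wall hx (w, true), ev_wall hx (w - e1, false),
    ev_wall hx (w - e2, true)] with x' h1 h2 h3 h4
  unfold vt
  simp only [h1, h2, h3, h4]

theorem ev_wn {l : ℕ} {x : T1} (hx : x ∈ Om (H.α l)) :
    ∀ᶠ x' in 𝓝 x, H.toHier.wn l x' = H.toHier.wn l x := by
  have hfin : (Set.Icc (-(P.K + 3), -(P.K + 3)) (P.K + 3, P.K + 3) : Set V).Finite :=
    Set.finite_Icc _ _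
  have h : ∀ᶠ x' in 𝓝 x, ∀ w ∈ (Set.Icc (-(P.K + 3), -(P.K + 3)) (P.K + 3, P.K + 3) : Set V),
      H.toHier.cf l x' w = H.toHier.cf l x w :=
    (hfin.eventually_all).2 fun w _ => ev_cf hx w
  filter_upwards [h] with x' h'
  funext w
  unfold Hier.wn win
  by_cases hw : |w.1| ≤ P.K + 3 ∧ |w.2| ≤ P.K + 3
  · rw [if_pos hw, if_pos hw, zero_add]
    apply h'
    rw [abs_le, abs_le] at hw
    exact ⟨⟨hw.1.1, hw.2.1⟩, ⟨hw.1.2, hw.2.2⟩⟩
  · rw [if_neg hw, if_neg hw]

/-- Contents are locally constant. -/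
theorem ev_con {l : ℕ} {x : T1} {o : Bool} {c : Cont} (h : H.toHier.Con l x o c) :
    x ∈ Om (H.α l) → ∀ᶠ x' in 𝓝 x, H.toHier.Con l x' o c := by
  induction h with
  | @intl l x o h =>
    intro hx
    filter_upwards [ev_wall hx (0, o), ev_vt hx 0, ev_vt hx (dv o), ev_cf hx 0] with x' h1 h2 h3 h4
    rw [Hier.cf_zero, Hier.cf_zero] at h4
    rw [← h2, ← h3, ← h4]
    exact Hier.Con.intl (fun h' => h (h1.1 h'))
  | @intg l x o r o' h hg hi =>
    intro hx
    obtain ⟨v, o'', hv⟩ := H.loc_gr l x hx o h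
    have h0 := hv.self_of_nhds
    rw [hg] at h0
    obtain ⟨hr, ho⟩ := Prod.mk.inj h0
    subst ho
    have hr' : r ∈ Om (H.α l) := by rw [hr]; exact Om_rt hx v
    have hraw := H.loc_raw l r hr'
    have hc1 : ContinuousAt (rt (H.α l) v) x := (continuous_rt _ v).continuousAt
    have hbp := H.loc_bp l r hr'
    have hbo := H.om_bp l r hr'
    have hwn := hbp.eventually (ev_wn hbo)
    rw [hr] at hraw hwn
    have e1' := hc1.eventually hraw
    have e2' := hc1.eventually hwn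
    filter_upwards [ev_wall hx (0, o), hv, e1', e2'] with x' h1 h2 h3 h4
    rw [← hr] at h3 h4
    have h5 := Hier.Con.intg (H := H.toHier) (h1.2 h) h2 (by rw [h3]; exact hi)
    rw [h3, h4] at h5
    exact h5
  | @up l x o r o' c h hg hi hc ih =>
    intro hx
    obtain ⟨v, o'', hv⟩ := H.loc_gr l x hx o h
    have h0 := hv.self_of_nhds
    rw [hg] at h0
    obtain ⟨hr, ho⟩ := Prod.mk.inj h0
    subst ho
    have hr' : r ∈ Om (H.α l) := by rw [hr]; exact Om_rt hx v
    have hraw := H.loc_raw l r hr'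
    have hc1 : ContinuousAt (rt (H.α l) v) x := (continuous_rt _ v).continuousAt
    have hbp := H.loc_bp l r hr'
    have hbo := H.om_bp l r hr'
    have hcc := hbp.eventually (ih hbo)
    rw [hr] at hraw hcc
    have e1' := hc1.eventually hraw
    have e2' := hc1.eventually hcc
    filter_upwards [ev_wall hx (0, o), hv, e1', e2'] with x' h1 h2 h3 h4
    rw [← hr] at h3
    exact Hier.Con.up (H := H.toHier) (h1.2 h) h2 (by rw [h3]; exact hi) h4

/-- Labels are locally constant. -/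
theorem ev_lab {x : T1} {c : Cell} (hx : x ∈ Om (H.α 0)) (h : H.toHier.Lab x c) :
    ∀ᶠ x' in 𝓝 x, H.toHier.Lab x' c := by
  filter_upwards [ev_wn hx, ev_con h.2.1 hx, ev_con h.2.2 hx] with x' h1 h2 h3
  exact ⟨h.1.trans h1.symm, h2, h3⟩

theorem Good.lab {x : T1} (h : H.Good 0 x 1) : ∃ c, H.toHier.Lab x c := by
  have h0 : nn (0 : V) ≤ 1 := by simp [nn]
  obtain ⟨c1, hc1⟩ := h 0 false h0 (by simp [nn, nv, e2])
  obtain ⟨c2, hc2⟩ := h 0 true h0 (by simp [nn, nv, e1])
  rw [rt_zero] at hc1 hc2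
  exact ⟨(_, c1, c2), rfl, hc1, hc2⟩

/-- Minimality, with a uniform bound. -/
theorem syndetic {U : Set T1} (hU : IsOpen U) (hne : U.Nonempty) :
    ∃ R : ℕ, ∀ x, ∃ w, nn w ≤ R ∧ rt (H.α 0) w x ∈ U := by
  have hord : ¬ IsOfFinAddOrder (H.α 0).1 := by
    intro h
    obtain ⟨n, hn, h1⟩ := isOfFinAddOrder_iff_nsmul_eq_zero.1 h
    have h2 := H.free 0 (n, 0) 0 (by
      unfold rt
      simp only [zero_smul, add_zero, natCast_zsmul, h1])
    have h3 : (n : ℤ) = 0 := congrArg Prod.fst h2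
    omega
  have hd : DenseRange fun n : ℤ => n • (H.α 0).1 := AddCircle.denseRange_zsmul_iff.2 (addOrderOf_eq_zero hord)
  have hcov : (Set.univ : Set T1) ⊆ ⋃ n : ℤ, rt (H.α 0) (n, 0) ⁻¹' U := by
    intro x _
    have hU' : IsOpen ((fun y => y + x) ⁻¹' U) := hU.preimage (by fun_prop)
    obtain ⟨u, hu⟩ := hne
    have hne' : ((fun y => y + x) ⁻¹' U).Nonempty := ⟨u - x, by simpa using hu⟩
    obtain ⟨n, hn⟩ := hd.exists_mem_open hU' hne'
    refine Set.mem_iUnion.2 ⟨n, ?_⟩
    change rt (H.α 0) (n, 0) x ∈ U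
    unfold rt
    simp only [zero_smul, add_zero]
    rw [add_comm]
    exact hn
  obtain ⟨F, hF⟩ := isCompact_univ.elim_finite_subcover _
    (fun n => hU.preimage (continuous_rt _ _)) hcov
  refine ⟨F.sup fun n => n.natAbs, fun x => ?_⟩
  obtain ⟨n, hn, hx⟩ := Set.mem_iUnion₂.1 (hF (Set.mem_univ x))
  refine ⟨(n, 0), ?_, hx⟩
  have h1 := Finset.le_sup (f := fun n : ℤ => n.natAbs) hn
  unfold nn
  simp only [abs_zero, add_zero]
  have h2 : |n| = (n.natAbs : ℤ) := Int.abs_eq_natAbs n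
  rw [h2]
  exact_mod_cast h1

/-- The open set of the phases with locally constant label `c`. -/
def VV (H : HierG P) (c : Cell) : Set T1 := {x | ∀ᶠ x' in 𝓝 x, H.toHier.Lab x' c}

theorem isOpen_VV (c : Cell) : IsOpen (H.VV c) := isOpen_setOfPred_eventually_nhds

theorem VV_lab {c : Cell} {x : T1} (h : x ∈ H.VV c) : H.toHier.Lab x c := by
  have h' : ∀ᶠ x' in 𝓝 x, H.toHier.Lab x' c := h
  exact h'.self_of_nhds

/-- The union of these sets. -/
def OO (H : HierG P) : Set T1 := ⋃ c, H.VV c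

theorem isOpen_OO : IsOpen H.OO := isOpen_iUnion fun _ => isOpen_VV _

theorem dense_OO : Dense H.OO := by
  rw [dense_iff_inter_open]
  intro U hU hne
  obtain ⟨R, hR⟩ := syndetic (H := H) hU hne
  obtain ⟨x, hx, hg⟩ := exists_good (H := H) R 0
  obtain ⟨w, hw, hwU⟩ := hR x
  have h1 : H.Good 0 (rt (H.α 0) w x) 1 := hg.shift (by linarith)
  obtain ⟨c, hc⟩ := h1.lab
  exact ⟨_, hwU, Set.mem_iUnion.2 ⟨c, ev_lab (Om_rt hx w) hc⟩⟩

end HierG

end BU39
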