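import Pool.Agent.LibBU39.Defs

/-!
Geometry (definitions): skew grids in the plane, digital walls, the patches.
-/

namespace BU39

/-- Constants of the geometry. -/
structure GeoC where
  ε : ℝ
  m : ℝ
  U : ℝ
  ρ : ℤ
  A : ℤ
  hε : 0 < ε
  hε1 : ε ≤ 1
  hm : 0 < m
  hm1 : m ≤ 1
  hU : 1 ≤ U
  hρ : 9 ≤ ρ
  hρε : 2 ≤ ε * (ρ - 1)
  hA1 : 8 * ρ ≤ A
  hA2 : 8 * ρ * U ≤ ε * A
  hA3 : 100 * U ^ 2 * ρ ≤ m * A

/-- Slopes of the cones: horizontal walls are in the cone `- um x ≤ y ≤ up x`, vertical walls in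
the cone `- wm y ≤ x ≤ wp y`. -/
structure Cn where
  up : ℝ
  um : ℝ
  wp : ℝ
  wm : ℝ

/-- Transposed cones. -/
def Cn.sw (C : Cn) : Cn := ⟨C.wp, C.wm, C.up, C.um⟩

structure Cn.Good (G : GeoC) (C : Cn) : Prop where
  up1 : 2 * G.ε ≤ C.up
  up2 : C.up ≤ G.U
  um1 : 2 * G.ε ≤ C.um
  um2 : C.um ≤ G.U
  wp1 : 2 * G.ε ≤ C.wp
  wp2 : C.wp ≤ G.U
  wm1 : 2 * G.ε ≤ C.wm
  wm2 : C.wm ≤ G.U
  pp : C.up * C.wp ≤ 1 - G.m
  mm : C.um * C.wm ≤ 1 - G.m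

/-- Allowed horizontal sides. -/
structure InD (G : GeoC) (C : Cn) (K1 : ℤ) (D : V) : Prop where
  lo : G.A ≤ D.1
  hi : D.1 ≤ K1
  hi2 : |D.2| ≤ K1
  sp : (D.2 : ℝ) ≤ (C.up - G.ε) * D.1
  sm : -((C.um - G.ε) * D.1) ≤ (D.2 : ℝ)

/-- A skew grid. -/
structure Skew (G : GeoC) (C : Cn) (K1 : ℤ) where
  Φ : V → V
  h1 : ∀ k, InD G C K1 (Φ (k + e1) - Φ k)
  h2 : ∀ k, InD G C.sw K1 (Φ (k + e2) - Φ k).swap

/-- Horizontal digital wall from `0` to `D`: height over the interval `[u, u + 1]`. -/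
def hh (ρ : ℤ) (D : V) (u : ℤ) : ℤ := (D.2 * min (max (u - ρ) 0) (D.1 - 2 * ρ)) / (D.1 - 2 * ρ)

/-- The patch with bottom, left, top, right sides `B`, `L`, `T`, `R`. -/
def patchQ (ρ : ℤ) (B L T R : V) (w : V) : Prop :=
  hh ρ B w.1 ≤ w.2 ∧ w.2 < L.2 + hh ρ T (w.1 - L.1) ∧
  hh ρ L.swap w.2 ≤ w.1 ∧ w.1 < B.1 + hh ρ R.swap (w.2 - B.2)

/-- The parameters of the local problem. -/
def parOf (ρ K1 : ℤ) : Par := ⟨8 * K1, fun g w => patchQ ρ g.B g.L g.T g.R w⟩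

/-! Walls of a partition of the cells: `f z` is the name of the class of the cell `z`. -/

def wallF (f : V → V) (e : V × Bool) : Prop := f (e.1 - (if e.2 then e1 else e2)) ≠ f e.1

instance (f : V → V) (e : V × Bool) : Decidable (wallF f e) := by unfold wallF; infer_instance

def vtF (f : V → V) (w : V) : VT :=
  ⟨decide (wallF f (w, false)), decide (wallF f (w, true)),
    decide (wallF f (w - e1, false)), decide (wallF f (w - e2, true))⟩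

/-- Two walls meet at a vertex that is not in `Rt`, near `z`. -/
def LinkF (K : ℤ) (f : V → V) (Rt : Set V) (z : V) (e e' : V × Bool) : Prop :=
  ∃ u, Bd K (u - z) ∧ u ∉ Rt ∧ inc e u ∧ inc e' u ∧ wallF f e ∧ wallF f e'

def ReachF (K : ℤ) (f : V → V) (Rt : Set V) (z : V) : V × Bool → V × Bool → Prop :=
  Relation.ReflTransGen (LinkF K f Rt z)

namespace Skew

variable {G : GeoC} {C : Cn} {K1 : ℤ}

/-- Horizontal side. -/
def D1 (S : Skew G C K1) (k : V) : V := S.Φ (k + e1) - S.Φ k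

/-- Vertical side. -/
def D2 (S : Skew G C K1) (k : V) : V := S.Φ (k + e2) - S.Φ k

/-- All facts about the partition of the plane given by a skew grid that are used later. -/
structure Out (S : Skew G C K1) (ι : V → V) : Prop where
  inj : Function.Injective S.Φ
  s1 : ∀ z k, ι z = k ↔
    patchQ G.ρ (S.D1 k) (S.D2 k) (S.D1 (k + e2)) (S.D2 (k + e1)) (z - S.Φ k)
  sb : ∀ z, Bd (2 * K1) (z - S.Φ (ι z))
  s2 : ∀ k, ι (S.Φ k) = k ∧ ι (S.Φ k - e1) = k - e1 ∧ ι (S.Φ k - e2) = k - e2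
  s3 : ∀ z, (ι (z + e1) = ι z ∨ ι (z + e1) = ι z + e1 ∨ ι z = ι (z + e1) + e1 ∨
      ι (z + e1) = ι z + e2 ∨ ι z = ι (z + e1) + e2) ∧
    (ι (z + e2) = ι z ∨ ι (z + e2) = ι z + e1 ∨ ι z = ι (z + e2) + e1 ∨
      ι (z + e2) = ι z + e2 ∨ ι z = ι (z + e2) + e2)
  s4 : ∀ w, w ∉ Set.range S.Φ → (vtF ι w).cnt ≤ 2
  s5 : ∀ k, ReachF (2 * K1) ι (Set.range S.Φ) (S.Φ k) (S.Φ k, false) (S.Φ (k + e1) - e1, false) ∧
    ReachF (2 * K1) ι (Set.range S.Φ) (S.Φ k) (S.Φ k, true) (S.Φ (k + e2) - e2, true)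
  s6 : ∀ z o, wallF ι (z, o) → ∃ k o', Bd (4 * K1) (S.Φ k - z) ∧
    ReachF (4 * K1) ι (Set.range S.Φ) z (z, o) (S.Φ k, o') ∧
    ((o' = true ∧ (ι z = k ∨ ι (z - (if o then e1 else e2)) = k) ∧
        (ι z = k - e1 ∨ ι (z - (if o then e1 else e2)) = k - e1)) ∨
      (o' = false ∧ (ι z = k ∨ ι (z - (if o then e1 else e2)) = k) ∧
        (ι z = k - e2 ∨ ι (z - (if o then e1 else e2)) = k - e2)))
  s7 : ∀ k (x y : ℤ), 0 ≤ x → x < G.ρ → 0 ≤ y → y < G.ρ → ι (S.Φ k + (x, y)) = k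

end Skew

end BU39
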