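import Pool.Agent.LibBU39.Level

/-!
TASK L01.  The grid of a frame: sides and labels.
-/

namespace BU39

namespace Frame

variable {G : GeoC} {K1 : ℤ} {x y : ℝ} (F : Frame G K1 x y)

private theorem L01_floor (e t : ℝ) (h0 : 0 < t) (h1 : t < 1) :
    ⌊e + t⌋ - ⌊e⌋ = ((decide (1 ≤ Int.fract e + t)).toNat : ℤ) := by
  have e1 : e + t = (⌊e⌋ : ℝ) + (Int.fract e + t) := by
    have := Int.floor_add_fract e
    linarith
  rw [e1, Int.floor_intCast_add, add_sub_cancel_left]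
  have f0 := Int.fract_nonneg e
  have f1 := Int.fract_lt_one e
  by_cases h : 1 ≤ Int.fract e + t
  · rw [decide_eq_true h, Int.floor_eq_iff]
    simp
    exact ⟨h, by linarith⟩
  · rw [decide_eq_false h, Int.floor_eq_iff]
    simp
    push Not at h
    exact ⟨by linarith, h⟩

theorem c1_floor (e : ℝ) : ⌊e + F.x'⌋ - ⌊e⌋ = (F.c1 e).toNat := L01_floor e F.x' F.hx0 F.hx1

theorem c2_floor (e : ℝ) : ⌊e + F.y'⌋ - ⌊e⌋ = (F.c2 e).toNat := L01_floor e F.y' F.hy0 F.hy1

private theorem L01_comm (e : ℝ) : ((F.c1 e).toNat : ℤ) + (F.c2 (e + F.x')).toNat =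
    (F.c2 e).toNat + (F.c1 (e + F.y')).toNat := by
  rw [← F.c1_floor, ← F.c2_floor, ← F.c2_floor, ← F.c1_floor]
  have : e + F.x' + F.y' = e + F.y' + F.x' := by ring
  rw [this]
  ring

private theorem L01_bt (b : Bool) (s : V) : bt b s = (b.toNat : ℤ) • s := by
  cases b <;> simp [bt]

/-- the vertex `(a, b)` of the block `i` -/
private noncomputable def L01_v (e : ℝ) (i : V) (a b : ℕ) : V :=
  F.big e i + F.off (F.eb e i) a b

private theorem L01_PP_succ (a : ℕ) : F.PP (a + 1) = F.PP a + F.P a := by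
  unfold PP
  rw [Finset.sum_range_succ]

private theorem L01_QQ_succ (a : ℕ) : F.QQ (a + 1) = F.QQ a + F.Q a := by
  unfold QQ
  rw [Finset.sum_range_succ]

private theorem L01_off1 (E : ℝ) (a b : ℕ) :
    F.off E (a + 1) b - F.off E a b = (F.lbl E a b).B := by
  have hc := F.L01_comm E
  simp only [off, Gl.B, lbl, L01_bt, L01_PP_succ]
  have key : F.sh E (a + 1) b - F.sh E a b =
      ((decide (a = 0) && (if b = 0 then F.c1 E else F.c1 (E + F.y'))).toNat : ℤ) := by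
    simp only [sh, Nat.succ_ne_zero, if_false]
    by_cases ha : a = 0
    · by_cases hb : b = 0
      · simp [ha, hb]
      · simp [ha, hb]
        linarith
    · by_cases hb : b = 0
      · simp [ha, hb]
      · simp [ha, hb]
  rw [← key]
  module

private theorem L01_off2 (E : ℝ) (a b : ℕ) :
    F.off E a (b + 1) - F.off E a b = (F.lbl E a b).L := by
  have hc := F.L01_comm E
  simp only [off, Gl.L, lbl, L01_bt, L01_QQ_succ]
  have key : F.sh E a (b + 1) - F.sh E a b =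
      ((decide (b = 0) && (if a = 0 then F.c2 E else F.c2 (E + F.x'))).toNat : ℤ) := by
    simp only [sh, Nat.succ_ne_zero, if_false]
    by_cases ha : a = 0
    · by_cases hb : b = 0
      · simp [ha, hb]
      · simp [ha, hb]
    · by_cases hb : b = 0
      · simp [ha, hb]
      · simp [ha, hb]
  rw [← key]
  module

private theorem L01_eb1 (e : ℝ) (i : V) : F.eb e (i + e1) = F.eb e i + F.x' := by
  simp only [eb, ph, e1, Prod.fst_add, Prod.snd_add]
  push_cast
  ring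

private theorem L01_eb2 (e : ℝ) (i : V) : F.eb e (i + e2) = F.eb e i + F.y' := by
  simp only [eb, ph, e2, Prod.fst_add, Prod.snd_add]
  push_cast
  ring

private theorem L01_wrap1 (e : ℝ) (i : V) (b : ℕ) : F.L01_v e (i + e1) 0 b = F.L01_v e i F.n1 b := by
  have hn : F.n1 ≠ 0 := by have := F.hn1; omega
  have hP : F.PP F.n1 = F.d1 := F.sP
  have hP0 : F.PP 0 = 0 := by simp [PP]
  have hf := F.c1_floor (F.eb e i)
  simp only [L01_v, big, off, L01_eb1, hP, hP0, sh, hn, if_false, if_true]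
  have h1 : (i + e1).1 = i.1 + 1 := rfl
  have h2 : (i + e1).2 = i.2 := by show i.2 + 0 = i.2; ring
  rw [h1, h2, ← hf]
  module

private theorem L01_wrap2 (e : ℝ) (i : V) (a : ℕ) : F.L01_v e (i + e2) a 0 = F.L01_v e i a F.n2 := by
  have hn : F.n2 ≠ 0 := by have := F.hn2; omega
  have hQ : F.QQ F.n2 = F.d2 := F.sQ
  have hQ0 : F.QQ 0 = 0 := by simp [QQ]
  have hf := F.c2_floor (F.eb e i)
  have hc := F.L01_comm (F.eb e i)
  simp only [L01_v, big, off, L01_eb2, hQ, hQ0, sh, hn, if_false, if_true]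
  have h1 : (i + e2).1 = i.1 := by show i.1 + 0 = i.1; ring
  have h2 : (i + e2).2 = i.2 + 1 := rfl
  rw [h1, h2]
  have hf' : ⌊F.eb e i + F.y'⌋ = ⌊F.eb e i⌋ + (F.c2 (F.eb e i)).toNat := by linarith
  rw [hf']
  by_cases ha : a = 0
  · simp only [ha, if_true]
    module
  · simp only [ha, if_false]
    rw [hc]
    module

private theorem L01_divmod (n : ℕ) (hn : 2 ≤ n) (z : ℤ) :
    ((z % n).toNat + 1 < n ∧ (z + 1) / n = z / n ∧ ((z + 1) % n).toNat = (z % n).toNat + 1) ∨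
    ((z % n).toNat + 1 = n ∧ (z + 1) / n = z / n + 1 ∧ ((z + 1) % n).toNat = 0) := by
  have hn0 : (0 : ℤ) < n := by exact_mod_cast (by omega : 0 < n)
  have h1 := Int.emod_nonneg z hn0.ne'
  have h2 := Int.emod_lt_of_pos z hn0
  have h3 := Int.emod_add_mul_ediv z n
  by_cases h : z % n + 1 < n
  · left
    have hd : (z + 1) / n = z / n ∧ (z + 1) % n = z % n + 1 := by
      rw [Int.ediv_emod_unique hn0]
      refine ⟨by linarith, by linarith, h⟩
    refine ⟨by omega, hd.1, ?_⟩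
    rw [hd.2]
    omega
  · right
    have he : z % n + 1 = n := by omega
    have hd : (z + 1) / n = z / n + 1 ∧ (z + 1) % n = 0 := by
      rw [Int.ediv_emod_unique hn0]
      refine ⟨?_, le_rfl, hn0⟩
      have : (n : ℤ) * (z / n + 1) = n * (z / n) + n := by ring
      rw [this]
      linarith
    refine ⟨by omega, hd.1, ?_⟩
    rw [hd.2]
    rfl

private theorem L01_step1 (k : V) :
    (F.bk (k + e1) = F.bk k ∧ F.ra (k + e1) = F.ra k + 1 ∧ F.rb (k + e1) = F.rb k) ∨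
    (F.ra k + 1 = F.n1 ∧ F.bk (k + e1) = F.bk k + e1 ∧ F.ra (k + e1) = 0 ∧
      F.rb (k + e1) = F.rb k) := by
  have h1 : (k + e1).1 = k.1 + 1 := rfl
  have h2 : (k + e1).2 = k.2 := by show k.2 + 0 = k.2; ring
  rcases L01_divmod F.n1 F.hn1 k.1 with ⟨a, b, c⟩ | ⟨a, b, c⟩
  · left
    refine ⟨?_, ?_, ?_⟩
    · simp only [bk, h1, h2, b]
    · simp only [ra, h1]
      exact c
    · simp only [rb, h2]
  · right
    refine ⟨a, ?_, ?_, ?_⟩
    · simp only [bk, e1]
      simp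
      exact b
    · simp only [ra, h1]
      exact c
    · simp only [rb, h2]

private theorem L01_step2 (k : V) :
    (F.bk (k + e2) = F.bk k ∧ F.rb (k + e2) = F.rb k + 1 ∧ F.ra (k + e2) = F.ra k) ∨
    (F.rb k + 1 = F.n2 ∧ F.bk (k + e2) = F.bk k + e2 ∧ F.rb (k + e2) = 0 ∧
      F.ra (k + e2) = F.ra k) := by
  have h1 : (k + e2).1 = k.1 := by show k.1 + 0 = k.1; ring
  have h2 : (k + e2).2 = k.2 + 1 := rfl
  rcases L01_divmod F.n2 F.hn2 k.2 with ⟨a, b, c⟩ | ⟨a, b, c⟩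
  · left
    refine ⟨?_, ?_, ?_⟩
    · simp only [bk, h1, h2, b]
    · simp only [rb, h2]
      exact c
    · simp only [ra, h1]
  · right
    refine ⟨a, ?_, ?_, ?_⟩
    · simp only [bk, e2]
      simp
      exact b
    · simp only [rb, h2]
      exact c
    · simp only [ra, h1]

private theorem L01_g (e : ℝ) (k : V) : F.gΦ e k = F.L01_v e (F.bk k) (F.ra k) (F.rb k) := rfl

theorem gB (e : ℝ) (k : V) : F.gΦ e (k + e1) - F.gΦ e k = (F.gl e k).B := by
  have h : F.gΦ e (k + e1) = F.L01_v e (F.bk k) (F.ra k + 1) (F.rb k) := by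
    rw [L01_g]
    rcases F.L01_step1 k with ⟨a, b, c⟩ | ⟨n, a, b, c⟩
    · rw [a, b, c]
    · rw [a, b, c, n, L01_wrap1]
  rw [h, L01_g]
  have h2 := F.L01_off1 (F.eb e (F.bk k)) (F.ra k) (F.rb k)
  show F.big e (F.bk k) + F.off (F.eb e (F.bk k)) (F.ra k + 1) (F.rb k) -
    (F.big e (F.bk k) + F.off (F.eb e (F.bk k)) (F.ra k) (F.rb k)) = _
  rw [add_sub_add_left_eq_sub, h2]
  rfl

theorem gL (e : ℝ) (k : V) : F.gΦ e (k + e2) - F.gΦ e k = (F.gl e k).L := by
  have h : F.gΦ e (k + e2) = F.L01_v e (F.bk k) (F.ra k) (F.rb k + 1) := by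
    rw [L01_g]
    rcases F.L01_step2 k with ⟨a, b, c⟩ | ⟨n, a, b, c⟩
    · rw [a, b, c]
    · rw [a, b, c, n, L01_wrap2]
  rw [h, L01_g]
  have h2 := F.L01_off2 (F.eb e (F.bk k)) (F.ra k) (F.rb k)
  show F.big e (F.bk k) + F.off (F.eb e (F.bk k)) (F.ra k) (F.rb k + 1) -
    (F.big e (F.bk k) + F.off (F.eb e (F.bk k)) (F.ra k) (F.rb k)) = _
  rw [add_sub_add_left_eq_sub, h2]
  rfl

theorem gRG (e : ℝ) (k : V) : RG (F.gl e k) (F.gl e (k + e1)) := by
  have hn := F.hn1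
  rcases F.L01_step1 k with ⟨a, b, c⟩ | ⟨n, a, b, c⟩
  · refine ⟨rfl, ?_, ?_, ?_, ?_⟩
    · simp only [gl, lbl, c]
    · simp only [gl, lbl, c]
    · simp only [gl, lbl, a, b, c, Nat.succ_ne_zero, if_false]
    · intro _
      simp [gl, lbl, b]
  · refine ⟨rfl, ?_, ?_, ?_, ?_⟩
    · simp only [gl, lbl, c]
    · simp only [gl, lbl, c]
    · simp only [gl, lbl, a, b, c, if_true, L01_eb1]
    · intro h
      simp only [gl, lbl, decide_eq_true_eq] at h
      omega

theorem gUG (e : ℝ) (k : V) : UG (F.gl e k) (F.gl e (k + e2)) := by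
  have hn := F.hn2
  rcases F.L01_step2 k with ⟨a, b, c⟩ | ⟨n, a, b, c⟩
  · refine ⟨rfl, ?_, ?_, ?_, ?_⟩
    · simp only [gl, lbl, c]
    · simp only [gl, lbl, c]
    · simp only [gl, lbl, a, b, c, Nat.succ_ne_zero, if_false]
    · intro _
      simp [gl, lbl, b]
  · refine ⟨rfl, ?_, ?_, ?_, ?_⟩
    · simp only [gl, lbl, c]
    · simp only [gl, lbl, c]
    · simp only [gl, lbl, a, b, c, if_true, L01_eb2]
    · intro h
      simp only [gl, lbl, decide_eq_true_eq] at h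
      omega

theorem gT (e : ℝ) (k : V) : (F.gl e (k + e2)).B = (F.gl e k).T := by
  obtain ⟨h1, h2, h3, h4, h5⟩ := F.gUG e k
  simp only [Gl.B, Gl.T]
  rw [h1, h2, h4]

theorem gR (e : ℝ) (k : V) : (F.gl e (k + e1)).L = (F.gl e k).R := by
  obtain ⟨h1, h2, h3, h4, h5⟩ := F.gRG e k
  simp only [Gl.L, Gl.R]
  rw [h1, h2, h4]

end Frame

end BU39
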