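import Pool.Agent.LibBU39.L01

/-!
TASK L02.  The grid of a frame is a skew grid, its labels are allowed.

`InD`: the bottom side of `k` is `P a` or (if `a = 0`) `P 0 - s`; use `hP`, `hP0`; same for the
left side with `hQ`, `hQ0`.  `Ok`: `s ≠ 0`, bounds (`8 K1`; note `0 ≤ K1`), `Long` because
`B.1 ≥ A ≥ 2`, closure from `gB`, `gL`, `gT`, `gR` (go around the cell).
-/

namespace BU39

namespace Frame

variable {G : GeoC} {K1 : ℤ} {x y : ℝ} (F : Frame G K1 x y)

private theorem L02_ra (k : V) : F.ra k < F.n1 := by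
  have hn := F.hn1
  have hn0 : (0 : ℤ) < F.n1 := by exact_mod_cast (by omega : 0 < F.n1)
  have h1 := Int.emod_nonneg k.1 hn0.ne'
  have h2 := Int.emod_lt_of_pos k.1 hn0
  unfold ra
  omega

private theorem L02_rb (k : V) : F.rb k < F.n2 := by
  have hn := F.hn2
  have hn0 : (0 : ℤ) < F.n2 := by exact_mod_cast (by omega : 0 < F.n2)
  have h1 := Int.emod_nonneg k.2 hn0.ne'
  have h2 := Int.emod_lt_of_pos k.2 hn0
  unfold rb
  omega

private theorem L02_B (e : ℝ) (k : V) : InD G F.C K1 (F.gl e k).B := by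
  have ha := F.L02_ra k
  simp only [gl, lbl, Gl.B]
  by_cases h0 : F.ra k = 0
  · have hn : 0 < F.n1 := by have := F.hn1; omega
    cases hb : (if F.rb k = 0 then F.c1 (F.eb e (F.bk k)) else F.c1 (F.eb e (F.bk k) + F.y'))
    · simpa [h0, bt] using F.hP 0 hn
    · simpa [h0, bt] using F.hP0
  · simpa [h0, bt] using F.hP _ ha

private theorem L02_L (e : ℝ) (k : V) : InD G F.C.sw K1 (F.gl e k).L.swap := by
  have hb := F.L02_rb k
  simp only [gl, lbl, Gl.L]
  by_cases h0 : F.rb k = 0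
  · have hn : 0 < F.n2 := by have := F.hn2; omega
    cases hb : (if F.ra k = 0 then F.c2 (F.eb e (F.bk k)) else F.c2 (F.eb e (F.bk k) + F.x'))
    · simpa [h0, bt] using F.hQ 0 hn
    · simpa [h0, bt] using F.hQ0
  · simpa [h0, bt] using F.hQ _ hb

/-- The skew grid. -/
noncomputable def sk (e : ℝ) : Skew G F.C K1 where
  Φ := F.gΦ e
  h1 := by
    intro k
    rw [F.gB]
    exact F.L02_B e k
  h2 := by
    intro k
    rw [F.gL]
    exact F.L02_L e k

private theorem L02_bd {C : Cn} {D : V} (h : InD G C K1 D) : Bd (8 * K1) D ∧ Long D ∧ 0 ≤ K1 := by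
  have hA := G.hA1
  have hρ := G.hρ
  have h1 := h.lo
  have h2 := h.hi
  have h3 := h.hi2
  have h4 : 0 ≤ D.1 := by linarith
  refine ⟨⟨?_, ?_⟩, Or.inl ?_, by linarith⟩
  · rw [abs_of_nonneg h4]; linarith
  · linarith
  · rw [abs_of_nonneg h4]; linarith

private theorem L02_bd' {C : Cn} {D : V} (h : InD G C K1 D.swap) : Bd (8 * K1) D ∧ Long D := by
  have h1 := L02_bd h
  refine ⟨⟨h1.1.2, h1.1.1⟩, ?_⟩
  rcases h1.2.1 with h2 | h2
  · exact Or.inr h2
  · exact Or.inl h2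

theorem gOk (e : ℝ) (k : V) : Ok (parOf G.ρ K1) (F.gl e k) := by
  have hB := L02_bd (F.L02_B e k)
  have hL := L02_bd' (F.L02_L e k)
  have hP := L02_bd (F.hP _ (F.L02_ra k))
  have hQ := L02_bd' (F.hQ _ (F.L02_rb k))
  refine ⟨F.hs, ?_, hP.1, hQ.1, hB.1, hL.1, hB.2.1, hL.2, ?_⟩
  · have h1 := F.hsb.1
    have h2 := F.hsb.2
    have h3 := hB.2.2
    constructor
    · show |F.s.1| ≤ 8 * K1
      linarith
    · show |F.s.2| ≤ 8 * K1
      linarith
  · rw [← F.gB e k, ← F.gL e k, ← F.gT e k, ← F.gR e k, ← F.gB e (k + e2), ← F.gL e (k + e1)]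
    have : k + e1 + e2 = k + e2 + e1 := by abel
    rw [this]
    abel

end Frame

end BU39
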