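import Pool.Agent.LibBU39.L01

/-!
TASK L03.  Phases.

`ph` is additive.  With `es`, `ed1`, `ed2`:
`δ fract e + ph (big e i) = δ fract (eb e i) + integer`.
Covariance of the grid under a change of the base block: `eb (eb e i) j = eb e (i + j)`,
`big e (i + j) = big e i + big (eb e i) j`, and for the grid
`gΦ e (k + (n1 i.1, n2 i.2)) = big e i + gΦ (eb e i) k`,
`gl e (k + (n1 i.1, n2 i.2)) = gl (eb e i) k`.
Everything is 1-periodic in `e`.
-/

namespace BU39

theorem ph_add (x y : ℝ) (v w : V) : ph x y (v + w) = ph x y v + ph x y w := by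
  simp only [ph, Prod.fst_add, Prod.snd_add]; push_cast; ring

theorem ph_sub (x y : ℝ) (v w : V) : ph x y (v - w) = ph x y v - ph x y w := by
  simp only [ph, Prod.fst_sub, Prod.snd_sub]; push_cast; ring

theorem ph_neg (x y : ℝ) (v : V) : ph x y (-v) = - ph x y v := by
  simp only [ph, Prod.fst_neg, Prod.snd_neg]; push_cast; ring

private theorem ph_zsmul (x y : ℝ) (n : ℤ) (v : V) : ph x y (n • v) = n * ph x y v := by
  simp only [ph, Prod.smul_fst, Prod.smul_snd, smul_eq_mul]; push_cast; ring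

namespace Frame

variable {G : GeoC} {K1 : ℤ} {x y : ℝ} (F : Frame G K1 x y)

private theorem eb_eb (e : ℝ) (i j : V) : F.eb (F.eb e i) j = F.eb e (j + i) := by
  simp only [eb, ph_add]; ring

private theorem big_add (e : ℝ) (i j : V) :
    F.big e (j + i) = F.big e i + F.big (F.eb e i) j := by
  simp only [big, eb_eb, Prod.fst_add, Prod.snd_add, add_smul, sub_smul]
  abel

private theorem phs : ph x y F.s = F.δ + F.cs := by
  have := F.es; simp only [ph]; linarith

private theorem phd1 : ph x y F.d1 = F.x' * F.δ + F.k1 := by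
  have := F.ed1; simp only [ph]; linarith

private theorem phd2 : ph x y F.d2 = F.y' * F.δ + F.k2 := by
  have := F.ed2; simp only [ph]; linarith

theorem big_ph (e : ℝ) (i : V) : ∃ n : ℤ,
    F.δ * Int.fract e + ph x y (F.big e i) = F.δ * Int.fract (F.eb e i) + n := by
  refine ⟨i.1 * F.k1 + i.2 * F.k2 - (⌊F.eb e i⌋ - ⌊e⌋) * F.cs, ?_⟩
  have h : F.eb e i = e + (i.1 * F.x' + i.2 * F.y') := by simp only [eb, ph]
  simp only [big, ph_sub, ph_add, ph_zsmul, phs, phd1, phd2, Int.fract]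
  push_cast
  linear_combination F.δ * (-h)

private theorem bk_shift (i k : V) :
    F.bk (k + ((F.n1 : ℤ) * i.1, (F.n2 : ℤ) * i.2)) = F.bk k + i := by
  have h1 : (F.n1 : ℤ) ≠ 0 := by have := F.hn1; omega
  have h2 : (F.n2 : ℤ) ≠ 0 := by have := F.hn2; omega
  ext
  · simp only [bk, Prod.fst_add]
    rw [Int.add_mul_ediv_left _ _ h1]
  · simp only [bk, Prod.snd_add]
    rw [Int.add_mul_ediv_left _ _ h2]

private theorem ra_shift (i k : V) :
    F.ra (k + ((F.n1 : ℤ) * i.1, (F.n2 : ℤ) * i.2)) = F.ra k := by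
  simp only [ra, Prod.fst_add, Int.add_mul_emod_self_left]

private theorem rb_shift (i k : V) :
    F.rb (k + ((F.n1 : ℤ) * i.1, (F.n2 : ℤ) * i.2)) = F.rb k := by
  simp only [rb, Prod.snd_add, Int.add_mul_emod_self_left]

theorem gΦ_shift (e : ℝ) (i k : V) :
    F.gΦ e (k + (F.n1 * i.1, F.n2 * i.2)) = F.big e i + F.gΦ (F.eb e i) k := by
  simp only [gΦ, bk_shift, ra_shift, rb_shift, eb_eb, big_add]
  abel

theorem gl_shift (e : ℝ) (i k : V) :
    F.gl e (k + (F.n1 * i.1, F.n2 * i.2)) = F.gl (F.eb e i) k := by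
  simp only [gl, bk_shift, ra_shift, rb_shift, eb_eb]

private theorem eb_per (e : ℝ) (n : ℤ) (i : V) : F.eb (e + n) i = F.eb e i + n := by
  simp only [eb]; ring

private theorem c1_per (e : ℝ) (n : ℤ) : F.c1 (e + n) = F.c1 e := by
  simp only [c1, Int.fract_add_intCast]

private theorem c2_per (e : ℝ) (n : ℤ) : F.c2 (e + n) = F.c2 e := by
  simp only [c2, Int.fract_add_intCast]

private theorem big_per (e : ℝ) (n : ℤ) (i : V) : F.big (e + n) i = F.big e i := by
  simp only [big, eb_per, Int.floor_add_intCast]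
  rw [show ⌊F.eb e i⌋ + n - (⌊e⌋ + n) = ⌊F.eb e i⌋ - ⌊e⌋ by ring]

private theorem sh_per (e : ℝ) (n : ℤ) (a b : ℕ) : F.sh (e + n) a b = F.sh e a b := by
  have h : e + n + F.x' = e + F.x' + n := by ring
  simp only [sh, c1_per, c2_per, h]

private theorem off_per (e : ℝ) (n : ℤ) (a b : ℕ) : F.off (e + n) a b = F.off e a b := by
  simp only [off, sh_per]

private theorem lbl_per (e : ℝ) (n : ℤ) (a b : ℕ) : F.lbl (e + n) a b = F.lbl e a b := by
  have h : e + n + F.x' = e + F.x' + n := by ring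
  have h' : e + n + F.y' = e + F.y' + n := by ring
  simp only [lbl, c1_per, c2_per, h, h']

theorem gΦ_per (e : ℝ) (n : ℤ) (k : V) : F.gΦ (e + n) k = F.gΦ e k := by
  simp only [gΦ, eb_per, big_per, off_per]

theorem gl_per (e : ℝ) (n : ℤ) (k : V) : F.gl (e + n) k = F.gl e k := by
  simp only [gl, eb_per, lbl_per]

/-- Two representations of the same phase differ by a change of the base block. -/
theorem rep_eq (hxy : Ind2 x y) {e e' : ℝ} {z z' : V} {n : ℤ}
    (h : F.δ * Int.fract e + ph x y z = F.δ * Int.fract e' + ph x y z' + n) :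
    ∃ (i : V) (m : ℤ), e' = F.eb e i + m ∧ z = F.big e i + z' := by
  obtain ⟨i, j, l, hw, hc⟩ := F.basis (z - z') n
  have h1 : ph x y z - ph x y z' = i * (F.x' * F.δ + F.k1) + j * (F.y' * F.δ + F.k2) +
      l * (F.δ + F.cs) := by
    rw [← ph_sub, hw, ph_add, ph_add, ph_zsmul, ph_zsmul, ph_zsmul, phs, phd1, phd2]
  have hcr : (n : ℝ) = i * F.k1 + j * F.k2 + l * F.cs := by exact_mod_cast hc
  have hδ : F.δ ≠ 0 := F.hδ0.ne'
  have h2 : Int.fract e' = Int.fract e + (i * F.x' + j * F.y') + l := by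
    apply mul_left_cancel₀ hδ
    linear_combination -h + h1 - hcr
  have h3 : F.eb e (i, j) = e + (i * F.x' + j * F.y') := by simp only [eb, ph]
  have h4 : e' = F.eb e (i, j) + ((⌊e'⌋ - ⌊e⌋ + l : ℤ) : ℝ) := by
    have a1 := Int.fract_add_floor e
    have a2 := Int.fract_add_floor e'
    push_cast
    rw [h3]
    linear_combination -a2 + h2 + a1
  refine ⟨(i, j), _, h4, ?_⟩
  have h5 : ⌊F.eb e (i, j)⌋ - ⌊e⌋ = -l := by
    have h6 : F.eb e (i, j) = e' - ((⌊e'⌋ - ⌊e⌋ + l : ℤ) : ℝ) := by linarith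
    rw [h6, Int.floor_sub_intCast]
    ring
  rw [← sub_eq_iff_eq_add, hw]
  simp only [big, h5, neg_smul, sub_neg_eq_add]

/-- The rotation numbers of the next level are independent. -/
theorem ind (hxy : Ind2 x y) : Ind2 F.x' F.y' := by
  intro a b c h
  have h1 : ph x y (a • F.d1 + b • F.d2 - c • F.s) =
      ((a * F.k1 + b * F.k2 - c * F.cs : ℤ) : ℝ) := by
    rw [ph_sub, ph_add, ph_zsmul, ph_zsmul, ph_zsmul, phs, phd1, phd2]
    push_cast
    linear_combination F.δ * h
  obtain ⟨e1', e2'⟩ := hxy _ _ _ h1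
  have e3' : a * F.k1 + b * F.k2 - c * F.cs = 0 := by
    have : ph x y (a • F.d1 + b • F.d2 - c • F.s) = 0 := by
      unfold ph; rw [e1', e2']; simp
    rw [this] at h1
    exact_mod_cast h1.symm
  obtain ⟨p1, p2, p3, hp, hp'⟩ := F.basis (1, 0) 0
  obtain ⟨q1, q2, q3, hq, hq'⟩ := F.basis (0, 1) 0
  obtain ⟨r1, r2, r3, hr, hr'⟩ := F.basis (0, 0) 1
  have hp1 := congrArg Prod.fst hp
  have hp2 := congrArg Prod.snd hp
  have hq1 := congrArg Prod.fst hq
  have hq2 := congrArg Prod.snd hq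
  have hr1 := congrArg Prod.fst hr
  have hr2 := congrArg Prod.snd hr
  simp only [Prod.fst_add, Prod.snd_add, Prod.smul_fst, Prod.smul_snd, Prod.fst_sub,
    Prod.snd_sub, smul_eq_mul] at hp1 hp2 hq1 hq2 hr1 hr2 e1' e2'
  let M : Matrix (Fin 3) (Fin 3) ℤ := !![F.d1.1, F.d1.2, F.k1; F.d2.1, F.d2.2, F.k2;
    F.s.1, F.s.2, F.cs]
  let N : Matrix (Fin 3) (Fin 3) ℤ := !![p1, p2, p3; q1, q2, q3; r1, r2, r3]
  have hNM : N * M = 1 := by
    ext i j
    fin_cases i <;> fin_cases j <;> simp [N, M, Matrix.mul_apply, Fin.sum_univ_three] <;> linarith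
  have hMN : M * N = 1 := mul_eq_one_comm.mp hNM
  let v : Fin 3 → ℤ := ![a, b, -c]
  have hv : Matrix.vecMul v M = 0 := by
    ext j
    fin_cases j <;> simp [v, M, Matrix.vecMul, dotProduct, Fin.sum_univ_three] <;> linarith
  have hv0 : v = 0 := by
    have : Matrix.vecMul (Matrix.vecMul v M) N = v := by
      rw [Matrix.vecMul_vecMul, hMN, Matrix.vecMul_one]
    rw [← this, hv, Matrix.zero_vecMul]
  exact ⟨by simpa [v] using congrFun hv0 0, by simpa [v] using congrFun hv0 1⟩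

/-- Every phase has a representation. -/
theorem exists_rep (hxy : Ind2 x y) (t : ℝ) : ∃ (e : ℝ) (z : V) (n : ℤ),
    0 ≤ e ∧ e < 1 ∧ t = F.δ * e + ph x y z + n := by
  refine ⟨Int.fract (t / F.δ), ⌊t / F.δ⌋ • F.s, -(⌊t / F.δ⌋ * F.cs), Int.fract_nonneg _,
    Int.fract_lt_one _, ?_⟩
  rw [ph_zsmul, phs]
  push_cast
  have h := Int.fract_add_floor (t / F.δ)
  have hδ : F.δ ≠ 0 := F.hδ0.ne'
  have h2 : F.δ * (t / F.δ) = t := by field_simp
  linear_combination -h2 + F.δ * (-h)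

end Frame

end BU39
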