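import Pool.Agent.LibBU39.Conf
import Pool.Agent.LibBU39.L03

/-!
TASK L04.  The canonical configuration obeys the rules, first part (everything except the
bits).
-/

namespace BU39

namespace Frame

variable {G : GeoC} {K1 : ℤ} {x y : ℝ} (F : Frame G K1 x y)

theorem conf_root (e : ℝ) (z : V) : root (F.conf e) z = F.gΦ e (F.ι e z) := by
  simp [root, conf]

private theorem ι_g (e : ℝ) (k : V) : F.ι e (F.gΦ e k) = k := ((F.out e).s2 k).1

private theorem ι_g1 (e : ℝ) (k : V) : F.ι e (F.gΦ e k - e1) = k - e1 := ((F.out e).s2 k).2.1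

private theorem ι_g2 (e : ℝ) (k : V) : F.ι e (F.gΦ e k - e2) = k - e2 := ((F.out e).s2 k).2.2

theorem conf_p (e : ℝ) (u : V) : (F.conf e u).p = 0 ↔ u ∈ Set.range (F.gΦ e) := by
  constructor
  · intro h
    exact ⟨F.ι e u, (sub_eq_zero.mp h).symm⟩
  · rintro ⟨k, rfl⟩
    simp only [conf, ι_g, sub_self]

private theorem inj' (e : ℝ) : Function.Injective (F.gΦ e) := (F.out e).inj

theorem conf_wall (e : ℝ) (d : V × Bool) : wall (F.conf e) d ↔ wallF (F.ι e) d := by
  unfold wall wallF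
  rw [conf_root, conf_root, (F.inj' e).ne_iff]

theorem conf_vt (e : ℝ) (w : V) : vt (F.conf e) w = vtF (F.ι e) w := by
  unfold vt vtF
  simp only [conf_wall]

include F in
private theorem K1_nonneg : 0 ≤ K1 := by
  have h := F.hP 0 (by have := F.hn1; omega)
  have h1 := h.lo
  have h2 := h.hi
  have h3 := G.hA1
  have h4 := G.hρ
  omega

theorem conf_reach (e : ℝ) {K K' : ℤ} (hK : K ≤ K') {z : V} {d d' : V × Bool}
    (h : ReachF K (F.ι e) (Set.range (F.sk e).Φ) z d d') : Reach K' (F.conf e) z d d' := by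
  refine Relation.ReflTransGen.mono (r := LinkF K (F.ι e) (Set.range (F.sk e).Φ) z) ?_ _ _ h
  rintro a b ⟨u, h1, h2, h3, h4, h5, h6⟩
  refine ⟨u, ⟨h1.1.trans hK, h1.2.trans hK⟩, ?_, h3, h4, (F.conf_wall e a).2 h5,
    (F.conf_wall e b).2 h6⟩
  intro h0
  exact h2 ((F.conf_p e u).1 h0)

private theorem D1_eq (e : ℝ) (k : V) : (F.sk e).D1 k = (F.gl e k).B := F.gB e k

private theorem D2_eq (e : ℝ) (k : V) : (F.sk e).D2 k = (F.gl e k).L := F.gL e k

private theorem ι_iff (e : ℝ) (z k : V) : F.ι e z = k ↔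
    (parOf G.ρ K1).patch (F.gl e k) (z - F.gΦ e k) := by
  have h := (F.out e).s1 z k
  rw [D1_eq, D2_eq, D1_eq, D2_eq, gT, gR] at h
  exact h

private theorem gB' (e : ℝ) (k : V) : F.gΦ e (k + e1) = F.gΦ e k + (F.gl e k).B := by
  rw [← F.gB e k]; abel

private theorem gL' (e : ℝ) (k : V) : F.gΦ e (k + e2) = F.gΦ e k + (F.gl e k).L := by
  rw [← F.gL e k]; abel

private theorem adj_of (e : ℝ) (z z' : V) (h : F.ι e z' = F.ι e z ∨ F.ι e z' = F.ι e z + e1 ∨
    F.ι e z = F.ι e z' + e1 ∨ F.ι e z' = F.ι e z + e2 ∨ F.ι e z = F.ι e z' + e2) :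
    Adj (F.conf e) z z' := by
  unfold Adj
  simp only [conf_root]
  rcases h with h | h | h | h | h
  · exact Or.inl (by rw [h])
  · exact Or.inr (Or.inl (by rw [h, gB']; rfl))
  · exact Or.inr (Or.inr (Or.inl (by rw [h, gB']; rfl)))
  · exact Or.inr (Or.inr (Or.inr (Or.inl (by rw [h, gL']; rfl))))
  · exact Or.inr (Or.inr (Or.inr (Or.inr (by rw [h, gL']; rfl))))

theorem conf_LR (hxy : Ind2 x y) (e : ℝ) (z : V)
    (hc1 : (F.conf e z).b1.toNat + (br (F.conf e) z).toNat =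
      (F.conf e (z - (F.conf e z).g.s)).b1.toNat + (br (F.conf e) (z + e1)).toNat)
    (hc2 : (F.conf e z).b2.toNat + (br (F.conf e) z).toNat =
      (F.conf e (z - (F.conf e z).g.s)).b2.toNat + (br (F.conf e) (z + e2)).toNat) :
    LR (parOf G.ρ K1) (F.conf e) z := by
  have hK := F.K1_nonneg
  have hout := F.out e
  have hg : ∀ u, (F.conf e u).g = F.gl e (F.ι e u) := fun u => rfl
  have hp : ∀ u, (F.conf e u).p = u - F.gΦ e (F.ι e u) := fun u => rfl
  -- roots
  have hrt : (F.conf e z).p = 0 → z = F.gΦ e (F.ι e z) := fun h => sub_eq_zero.mp h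
  refine { ok := F.gOk e _, bd := ?_, pp := ?_, p0 := ?_, pg := ?_, fill := ?_, rt := ?_,
           up := ?_, ad1 := ?_, ad2 := ?_, vx := ?_, pH := ?_, pV := ?_, wl := ?_,
           c1 := hc1, c2 := hc2 }
  · have h := hout.sb z
    have e1' : (F.conf e z).p = z - (F.sk e).Φ (F.ι e z) := rfl
    rw [e1']
    simp only [parOf]
    exact ⟨h.1.trans (by omega), h.2.trans (by omega)⟩
  · exact (F.ι_iff e z _).1 rfl
  · rw [conf_root]; exact (F.conf_p e _).2 ⟨_, rfl⟩
  · rw [conf_root, hg, hg, ι_g]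
  · intro h w _ hw
    have hz := hrt h
    have h1 : F.ι e (z + w) = F.ι e z := by
      rw [F.ι_iff]
      rw [hg] at hw
      have : z + w - F.gΦ e (F.ι e z) = w := by rw [← hz]; abel
      rw [this]; exact hw
    rw [hp, h1, ← hz]; abel
  · intro h
    have hz := hrt h
    have h1 : z + (F.conf e z).g.B = F.gΦ e (F.ι e z + e1) := by
      rw [gB', ← hz]; rfl
    rw [h1]
    refine ⟨(F.conf_p e _).2 ⟨_, rfl⟩, ?_, ?_, ?_⟩
    · rw [hg, hg, ι_g]; exact F.gRG e _
    · rw [conf_root, ι_g1, add_sub_cancel_right, ← hz]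
    · have h2 : F.ι e (z - e1) = F.ι e z - e1 := by
        conv_lhs => rw [hz]
        rw [ι_g1]
      rw [conf_root, hg, h2]
      have := F.gB' e (F.ι e z - e1)
      rw [sub_add_cancel] at this
      rw [← this, ← hz]
  · intro h
    have hz := hrt h
    have h1 : z + (F.conf e z).g.L = F.gΦ e (F.ι e z + e2) := by
      rw [gL', ← hz]; rfl
    rw [h1]
    refine ⟨(F.conf_p e _).2 ⟨_, rfl⟩, ?_, ?_, ?_⟩
    · rw [hg, hg, ι_g]; exact F.gUG e _
    · rw [conf_root, ι_g2, add_sub_cancel_right, ← hz]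
    · have h2 : F.ι e (z - e2) = F.ι e z - e2 := by
        conv_lhs => rw [hz]
        rw [ι_g2]
      rw [conf_root, hg, h2]
      have := F.gL' e (F.ι e z - e2)
      rw [sub_add_cancel] at this
      rw [← this, ← hz]
  · exact F.adj_of e _ _ (hout.s3 z).1
  · exact F.adj_of e _ _ (hout.s3 z).2
  · intro h
    rw [conf_vt]
    exact hout.s4 z (fun hr => h ((F.conf_p e z).2 hr))
  · intro h
    have hz := hrt h
    have h1 : z + (F.conf e z).g.B = F.gΦ e (F.ι e z + e1) := by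
      rw [gB', ← hz]; rfl
    have h5 := (hout.s5 (F.ι e z)).1
    have e1' : (F.sk e).Φ (F.ι e z) = z := hz.symm
    have e2' : (F.sk e).Φ (F.ι e z + e1) = F.gΦ e (F.ι e z + e1) := rfl
    rw [e1', e2', ← h1] at h5
    exact F.conf_reach e (by simp only [parOf]; omega) h5
  · intro h
    have hz := hrt h
    have h1 : z + (F.conf e z).g.L = F.gΦ e (F.ι e z + e2) := by
      rw [gL', ← hz]; rfl
    have h5 := (hout.s5 (F.ι e z)).2
    have e1' : (F.sk e).Φ (F.ι e z) = z := hz.symm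
    have e2' : (F.sk e).Φ (F.ι e z + e2) = F.gΦ e (F.ι e z + e2) := rfl
    rw [e1', e2', ← h1] at h5
    exact F.conf_reach e (by simp only [parOf]; omega) h5
  · intro o ho
    obtain ⟨k, o', h1, h2, -⟩ := hout.s6 z o ((F.conf_wall e _).1 ho)
    refine ⟨(F.sk e).Φ k, o', ?_, (F.conf_p e _).2 ⟨k, rfl⟩,
      F.conf_reach e (by simp only [parOf]; omega) h2⟩
    simp only [parOf]
    exact ⟨h1.1.trans (by omega), h1.2.trans (by omega)⟩

end Frame

end BU39
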