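import Pool.Agent.LibBU39.Conf
import Pool.Agent.LibBU39.L03

/-!
TASK L05.  The bits of the canonical configuration.

(1) `br (conf e) z` iff `fract (δ fract e + ph z) < δ`.
(⇒) `z = gΦ e k` with `ra k = 0`, `rb k = 0`, so `z = big e (bk k)` (`off _ 0 0 = 0`) and by
`big_ph` the phase is `δ fract (eb e (bk k))` mod 1, in `[0, δ)`, `δ < 1`.
(⇐) let `t` be the fractional part, `t < δ`, `e' = t / δ ∈ [0, 1)`; `rep_eq` with `z' = 0` gives
`z = big e i`; and `gΦ e (n1 i.1, n2 i.2) = big e i` (`gΦ_shift` with `k = 0`), so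
`ι e z = (n1 i.1, n2 i.2)` by `Out.s2`, `p = 0`, flags true.
(2) Let `t = fract (δ fract e + ph z)`, `t' = fract (.. + ph (z - s)) = fract (t - δ)`,
`u = fract (t + x)` = phase of `z + e1`, `u' = fract (u - δ)`.  `[1 ≤ t + x] = t + x - u`,
`[1 ≤ t' + x] = t' + x - u'`, `t' = t - δ + [t < δ]`, `u' = u - δ + [u < δ]`.  So
`[1 ≤ t + x] + [t < δ] = [1 ≤ t' + x] + [u < δ]`.  (`0 < x < 1` is an assumption.)  Same for `y`.
The vector: `(conf e z).g.s = F.s`.
-/

namespace BU39

namespace Frame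

variable {G : GeoC} {K1 : ℤ} {x y : ℝ} (F : Frame G K1 x y)

theorem L05_off0 (e : ℝ) : F.off e 0 0 = 0 := by
  unfold off PP QQ sh
  simp

theorem L05_big0 (e : ℝ) : F.big e 0 = 0 := by
  unfold big eb ph
  simp

theorem L05_gΦ0 (e : ℝ) : F.gΦ e 0 = 0 := by
  have h1 : F.bk 0 = 0 := by
    unfold bk
    simp
  have h2 : F.ra 0 = 0 := by
    unfold ra
    simp
  have h3 : F.rb 0 = 0 := by
    unfold rb
    simp
  unfold gΦ
  rw [h1, h2, h3, F.L05_off0, F.L05_big0, add_zero]

theorem L05_br_iff (e : ℝ) (z : V) :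
    br (F.conf e) z = true ↔
      z = F.gΦ e (F.ι e z) ∧ F.ra (F.ι e z) = 0 ∧ F.rb (F.ι e z) = 0 := by
  have e1 : (F.conf e z).p = z - F.gΦ e (F.ι e z) := rfl
  have e2 : (F.conf e z).g.a = decide (F.ra (F.ι e z) = 0) := rfl
  have e3 : (F.conf e z).g.b = decide (F.rb (F.ι e z) = 0) := rfl
  unfold br
  rw [e1, e2, e3]
  simp only [Bool.and_eq_true, decide_eq_true_eq, sub_eq_zero]
  tauto

theorem L05_fract_small {δ u : ℝ} (hδ0 : 0 < δ) (hδ1 : δ < 1) :
    Int.fract (δ * Int.fract u) = δ * Int.fract u ∧ δ * Int.fract u < δ := by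
  have h0 := Int.fract_nonneg u
  have h1 := Int.fract_lt_one u
  have h2 : 0 ≤ δ * Int.fract u := mul_nonneg hδ0.le h0
  have h3 : δ * Int.fract u < δ := by
    have := mul_lt_mul_of_pos_left h1 hδ0
    linarith
  exact ⟨Int.fract_eq_self.mpr ⟨h2, by linarith⟩, h3⟩

theorem conf_br (hxy : Ind2 x y) (e : ℝ) (z : V) :
    br (F.conf e) z = true ↔ Int.fract (F.δ * Int.fract e + ph x y z) < F.δ := by
  rw [F.L05_br_iff]
  constructor
  · rintro ⟨h1, h2, h3⟩
    have h4 : z = F.big e (F.bk (F.ι e z)) := by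
      have : F.gΦ e (F.ι e z) = F.big e (F.bk (F.ι e z)) := by
        unfold gΦ
        rw [h2, h3, F.L05_off0, add_zero]
      rw [← this]
      exact h1
    obtain ⟨n, hn⟩ := F.big_ph e (F.bk (F.ι e z))
    rw [← h4] at hn
    obtain ⟨h5, h6⟩ := L05_fract_small (u := F.eb e (F.bk (F.ι e z))) F.hδ0 F.hδ1
    rw [hn, Int.fract_add_intCast, h5]
    exact h6
  · intro h
    set t := Int.fract (F.δ * Int.fract e + ph x y z) with ht
    have hδ0 := F.hδ0
    have ht0 : 0 ≤ t := Int.fract_nonneg _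
    have he0 : 0 ≤ t / F.δ := div_nonneg ht0 hδ0.le
    have he1 : t / F.δ < 1 := by
      rw [div_lt_one hδ0]
      exact h
    have hfr : Int.fract (t / F.δ) = t / F.δ := Int.fract_eq_self.mpr ⟨he0, he1⟩
    have h0 : ph x y (0 : V) = 0 := by
      unfold ph
      simp
    have hrep : F.δ * Int.fract e + ph x y z =
        F.δ * Int.fract (t / F.δ) + ph x y 0 + (⌊F.δ * Int.fract e + ph x y z⌋ : ℤ) := by
      rw [hfr, h0, mul_div_cancel₀ _ hδ0.ne', add_zero, ht]
      exact (Int.fract_add_floor _).symm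
    obtain ⟨i, m, -, hz⟩ := F.rep_eq hxy hrep
    rw [add_zero] at hz
    have h1 := F.gΦ_shift e i 0
    rw [F.L05_gΦ0, add_zero, zero_add, ← hz] at h1
    have h2 := ((F.out e).s2 (F.n1 * i.1, F.n2 * i.2)).1
    have h3 : (F.sk e).Φ (F.n1 * i.1, F.n2 * i.2) = z := h1
    rw [h3] at h2
    rw [h2]
    refine ⟨h1.symm, ?_, ?_⟩
    · unfold ra
      simp
    · unfold rb
      simp

theorem L05_fract_sub {A δ : ℝ} (hδ0 : 0 < δ) (hδ1 : δ < 1) :
    Int.fract (A - δ) = Int.fract A - δ + (if Int.fract A < δ then 1 else 0) := by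
  have h0 := Int.fract_nonneg A
  have h1 := Int.fract_lt_one A
  have h2 := Int.fract_add_floor A
  split_ifs with h
  · rw [Int.fract_eq_iff]
    refine ⟨by linarith, by linarith, ⌊A⌋ - 1, ?_⟩
    push_cast
    linarith
  · rw [Int.fract_eq_iff]
    refine ⟨by linarith, by linarith, ⌊A⌋, ?_⟩
    linarith

theorem L05_fract_add {A x : ℝ} (hx : 0 < x ∧ x < 1) :
    Int.fract (A + x) = Int.fract A + x - (if 1 ≤ Int.fract A + x then 1 else 0) := by
  have h0 := Int.fract_nonneg A
  have h1 := Int.fract_lt_one A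
  have h2 := Int.fract_add_floor A
  split_ifs with h
  · rw [Int.fract_eq_iff]
    refine ⟨by linarith [hx.1], by linarith [hx.2], ⌊A⌋ + 1, ?_⟩
    push_cast
    linarith
  · rw [Int.fract_eq_iff]
    refine ⟨by linarith [hx.1], by linarith, ⌊A⌋, ?_⟩
    linarith

theorem L05_key {A x δ : ℝ} (hx : 0 < x ∧ x < 1) (hδ0 : 0 < δ) (hδ1 : δ < 1) :
    (decide (1 ≤ Int.fract A + x)).toNat + (decide (Int.fract A < δ)).toNat =
      (decide (1 ≤ Int.fract (A - δ) + x)).toNat + (decide (Int.fract (A + x) < δ)).toNat := by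
  have h0 := Int.fract_nonneg A
  have h1 := Int.fract_lt_one A
  obtain ⟨hx0, hx1⟩ := hx
  rw [L05_fract_sub hδ0 hδ1, L05_fract_add ⟨hx0, hx1⟩]
  by_cases c1 : Int.fract A < δ
  · rw [if_pos c1]
    by_cases c2 : 1 ≤ Int.fract A + x
    · rw [if_pos c2, decide_eq_true c2, decide_eq_true c1,
        decide_eq_true (show 1 ≤ Int.fract A - δ + 1 + x by linarith),
        decide_eq_true (show Int.fract A + x - 1 < δ by linarith)]
    · rw [if_neg c2, decide_eq_false c2, decide_eq_true c1]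
      by_cases c3 : Int.fract A + x < δ
      · rw [decide_eq_false (show ¬ 1 ≤ Int.fract A - δ + 1 + x by linarith),
          decide_eq_true (show Int.fract A + x - 0 < δ by linarith)]
      · rw [decide_eq_true (show 1 ≤ Int.fract A - δ + 1 + x by linarith),
          decide_eq_false (show ¬ Int.fract A + x - 0 < δ by linarith)]
        rfl
  · rw [if_neg c1]
    by_cases c2 : 1 ≤ Int.fract A + x
    · rw [if_pos c2, decide_eq_true c2, decide_eq_false c1]
      by_cases c3 : Int.fract A + x - 1 < δ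
      · rw [decide_eq_false (show ¬ 1 ≤ Int.fract A - δ + 0 + x by linarith),
          decide_eq_true c3]
        rfl
      · rw [decide_eq_true (show 1 ≤ Int.fract A - δ + 0 + x by linarith),
          decide_eq_false c3]
    · rw [if_neg c2, decide_eq_false c2, decide_eq_false c1,
        decide_eq_false (show ¬ 1 ≤ Int.fract A - δ + 0 + x by linarith),
        decide_eq_false (show ¬ Int.fract A + x - 0 < δ by linarith)]

theorem L05_br_dec (hxy : Ind2 x y) (e : ℝ) (z : V) :
    br (F.conf e) z = decide (Int.fract (F.δ * Int.fract e + ph x y z) < F.δ) := by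
  rw [Bool.eq_iff_iff, F.conf_br hxy, decide_eq_true_eq]

theorem L05_sub_s (e : ℝ) (z : V) :
    Int.fract (F.δ * Int.fract e + ph x y (z - F.s)) =
      Int.fract (F.δ * Int.fract e + ph x y z - F.δ) := by
  have h1 : ph x y F.s = F.δ + F.cs := by
    have := F.es
    unfold ph
    linarith
  rw [ph_sub, h1]
  have e2 : F.δ * Int.fract e + (ph x y z - (F.δ + F.cs)) =
      F.δ * Int.fract e + ph x y z - F.δ - (F.cs : ℤ) := by ring
  rw [e2, Int.fract_sub_intCast]

theorem conf_c1 (hxy : Ind2 x y) (hx : 0 < x ∧ x < 1) (e : ℝ) (z : V) :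
    (F.conf e z).b1.toNat + (br (F.conf e) z).toNat =
      (F.conf e (z - (F.conf e z).g.s)).b1.toNat + (br (F.conf e) (z + e1)).toNat := by
  rw [F.L05_br_dec hxy, F.L05_br_dec hxy]
  have h1 : (F.conf e z).g.s = F.s := rfl
  have h2 : ∀ w : V, (F.conf e w).b1 =
      decide (1 ≤ Int.fract (F.δ * Int.fract e + ph x y w) + x) := fun w => rfl
  have h3 : F.δ * Int.fract e + ph x y (z + e1) = F.δ * Int.fract e + ph x y z + x := by
    have : ph x y e1 = x := by
      unfold ph e1
      simp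
    rw [ph_add, this]
    ring
  rw [h1, h2, h2, F.L05_sub_s, h3]
  exact L05_key hx F.hδ0 F.hδ1

theorem conf_c2 (hxy : Ind2 x y) (hy : 0 < y ∧ y < 1) (e : ℝ) (z : V) :
    (F.conf e z).b2.toNat + (br (F.conf e) z).toNat =
      (F.conf e (z - (F.conf e z).g.s)).b2.toNat + (br (F.conf e) (z + e2)).toNat := by
  rw [F.L05_br_dec hxy, F.L05_br_dec hxy]
  have h1 : (F.conf e z).g.s = F.s := rfl
  have h2 : ∀ w : V, (F.conf e w).b2 =
      decide (1 ≤ Int.fract (F.δ * Int.fract e + ph x y w) + y) := fun w => rfl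
  have h3 : F.δ * Int.fract e + ph x y (z + e2) = F.δ * Int.fract e + ph x y z + y := by
    have : ph x y e2 = y := by
      unfold ph e2
      simp
    rw [ph_add, this]
    ring
  rw [h1, h2, h2, F.L05_sub_s, h3]
  exact L05_key hy F.hδ0 F.hδ1

end Frame

end BU39
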