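import Pool.Agent.LibBU39.Conf
import Pool.Agent.LibBU39.L03

/-!
TASK L06.  Covariance: the raw label depends only on the phase of the cell.

Let `e' = eb e i + m`, `z = big e i + z'`.  Then `ι e z = ι e' z' + (n1 i.1, n2 i.2)`: by `Out.s1`
for `e` it suffices that `z - gΦ e (k' + (..))` is in the patch, `k' = ι e' z'`; by `gΦ_shift`,
`gΦ_per` it is `z' - gΦ e' k'`, and the sides are the same (differences of `gΦ`, shifted).  The
label: `gl_shift`, `gl_per`.  The bits: the phases agree mod 1 by `big_ph`.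
-/

namespace BU39

namespace Frame

variable {G : GeoC} {K1 : ℤ} {x y : ℝ} (F : Frame G K1 x y)

private theorem L06_gΦ (e : ℝ) (i : V) (m : ℤ) (k : V) :
    F.gΦ e (k + (F.n1 * i.1, F.n2 * i.2)) = F.big e i + F.gΦ (F.eb e i + m) k := by
  rw [gΦ_shift, gΦ_per]

private theorem L06_D1 (e : ℝ) (i : V) (m : ℤ) (k : V) :
    (F.sk e).D1 (k + (F.n1 * i.1, F.n2 * i.2)) = (F.sk (F.eb e i + m)).D1 k := by
  change F.gΦ e (k + (F.n1 * i.1, F.n2 * i.2) + e1) - F.gΦ e (k + (F.n1 * i.1, F.n2 * i.2)) =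
    F.gΦ (F.eb e i + m) (k + e1) - F.gΦ (F.eb e i + m) k
  rw [add_right_comm, L06_gΦ F e i m, L06_gΦ F e i m]
  abel

private theorem L06_D2 (e : ℝ) (i : V) (m : ℤ) (k : V) :
    (F.sk e).D2 (k + (F.n1 * i.1, F.n2 * i.2)) = (F.sk (F.eb e i + m)).D2 k := by
  change F.gΦ e (k + (F.n1 * i.1, F.n2 * i.2) + e2) - F.gΦ e (k + (F.n1 * i.1, F.n2 * i.2)) =
    F.gΦ (F.eb e i + m) (k + e2) - F.gΦ (F.eb e i + m) k
  rw [add_right_comm, L06_gΦ F e i m, L06_gΦ F e i m]
  abel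

theorem ι_shift (e : ℝ) (i : V) (m : ℤ) (z' : V) :
    F.ι e (F.big e i + z') = F.ι (F.eb e i + m) z' + (F.n1 * i.1, F.n2 * i.2) := by
  rw [(F.out e).s1, L06_D1, L06_D2, add_right_comm _ _ e2, add_right_comm _ _ e1, L06_D1, L06_D2]
  have h1 : F.big e i + z' - (F.sk e).Φ (F.ι (F.eb e i + m) z' + (F.n1 * i.1, F.n2 * i.2)) =
      z' - (F.sk (F.eb e i + m)).Φ (F.ι (F.eb e i + m) z') := by
    change F.big e i + z' - F.gΦ e (F.ι (F.eb e i + m) z' + (F.n1 * i.1, F.n2 * i.2)) =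
      z' - F.gΦ (F.eb e i + m) (F.ι (F.eb e i + m) z')
    rw [L06_gΦ F e i m]
    abel
  rw [h1]
  exact ((F.out (F.eb e i + m)).s1 z' _).1 rfl

private theorem L06_fract (e : ℝ) (i : V) (m : ℤ) (z' : V) :
    Int.fract (F.δ * Int.fract e + ph x y (F.big e i + z')) =
      Int.fract (F.δ * Int.fract (F.eb e i + m) + ph x y z') := by
  obtain ⟨n, hn⟩ := F.big_ph e i
  rw [ph_add, ← add_assoc, hn, Int.fract_add_intCast (F.eb e i) m, add_right_comm,
    Int.fract_add_intCast]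

theorem conf_shift (e : ℝ) (i : V) (m : ℤ) (z' : V) :
    F.conf e (F.big e i + z') = F.conf (F.eb e i + m) z' := by
  unfold conf
  rw [L06_fract F e i m, ι_shift F e i m, gl_shift, gl_per, L06_gΦ F e i m]
  congr 1
  abel

/-- The raw label is a function of the phase. -/
theorem conf_phase (hxy : Ind2 x y) {e e' : ℝ} {z z' : V} {n : ℤ}
    (h : F.δ * Int.fract e + ph x y z = F.δ * Int.fract e' + ph x y z' + n) :
    F.conf e z = F.conf e' z' := by
  obtain ⟨i, m, rfl, rfl⟩ := F.rep_eq hxy h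
  exact F.conf_shift e i m z'

private theorem L06_bk (i k : V) : F.bk (k + (F.n1 * i.1, F.n2 * i.2)) = F.bk k + i := by
  have h1 : (F.n1 : ℤ) ≠ 0 := by
    have := F.hn1
    omega
  have h2 : (F.n2 : ℤ) ≠ 0 := by
    have := F.hn2
    omega
  unfold bk
  ext
  · change (k.1 + F.n1 * i.1) / (F.n1 : ℤ) = k.1 / (F.n1 : ℤ) + i.1
    rw [Int.add_mul_ediv_left _ _ h1]
  · change (k.2 + F.n2 * i.2) / (F.n2 : ℤ) = k.2 / (F.n2 : ℤ) + i.2
    rw [Int.add_mul_ediv_left _ _ h2]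

/-- The phase of the block is a function of the phase of the cell. -/
theorem bp_phase (hxy : Ind2 x y) {e e' : ℝ} {z z' : V} {n : ℤ}
    (h : F.δ * Int.fract e + ph x y z = F.δ * Int.fract e' + ph x y z' + n) :
    Int.fract (F.eb e (F.bk (F.ι e z))) = Int.fract (F.eb e' (F.bk (F.ι e' z'))) := by
  obtain ⟨i, m, rfl, rfl⟩ := F.rep_eq hxy h
  rw [ι_shift F e i m, L06_bk]
  generalize F.bk (F.ι (F.eb e i + m) z') = j
  have h1 : F.eb (F.eb e i + m) j = F.eb e (j + i) + m := by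
    unfold eb
    rw [ph_add]
    ring
  rw [h1, Int.fract_add_intCast]

end Frame

end BU39
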