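import Pool.Agent.LibBU39.L07d
import Pool.Agent.LibBU39.F00

/-!
LEVEL, assembly: the hierarchies, with one local problem for all pairs of rotation numbers.
-/

namespace BU39

/-- Hierarchies for all pairs of rotation numbers, with the same local problem. -/
theorem exists_hierarchies : ∃ P : Par, ∀ x y : ℝ, 0 < x → x < 1 → 0 < y → y < 1 → Ind2 x y →
    ∃ H : HierG P, H.α 0 = ((x : T1), (y : T1)) := by
  obtain ⟨G, K1, h⟩ := exists_frame
  refine ⟨parOf G.ρ K1, ?_⟩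
  intro x y hx0 hx1 hy0 hy1 hxy
  have hR : IsRN x y := ⟨hx0, hx1, hy0, hy1, hxy⟩
  refine exists_hierG ?_ hR
  intro x y hR
  obtain ⟨F⟩ := h x y hR.x0 hR.x1 hR.y0 hR.y1 hR.ind
  exact ⟨F.x', F.y', F.isRN hR, ⟨F.phLv hR⟩⟩

end BU39
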