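import Pool.Agent.LibBU39.Gen
import Pool.Agent.LibBU39.Frame

/-!
COMPLETENESS: one level of the canonical labelling, as functions of a phase on the circle.
`rep` is the representative of a phase in `[0, 1)`.  From such levels for all rotation numbers
we get a hierarchy `HierG`.
-/

namespace BU39

open Topology Filter

/-- The representative in `[0, 1)`. -/
noncomputable def rep (t : T1) : ℝ := (AddCircle.equivIco (1 : ℝ) 0 t : ℝ)

/-- The bit of a phase: does the rotation by `x` pass `0`. -/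
noncomputable def bit (x : ℝ) (t : T1) : Bool := decide (1 ≤ rep t + x)

/-- A pair of rotation numbers as a pair of elements of the circle. -/
noncomputable def pr (x y : ℝ) : T1 × T1 := ((x : T1), (y : T1))

/-- The bits of the sides of `g` in terms of the bits `β1`, `β2` of the blocks (the block of `g`
has the index `0`). -/
def TGs (g : Gl) (β1 β2 : V → Bool) : Prop :=
  g.t1 = (g.a && (if g.b then β1 0 else β1 e2)) ∧
  g.u1 = (g.a && β1 e2) ∧
  g.t2 = (g.b && (if g.a then β2 0 else β2 e1)) ∧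
  g.u2 = (g.b && β2 e1)

/-- One level: the labels `raw`, the phase `bp` of the block of a cell, the root `gr` (with
orientation) at the beginning of the edge of the grid level that contains a wall, and the
index `blk t z` of the block of the cell `z` relative to the block of the cell `0`, in the
configuration of the phase `t`. -/
structure PhLv (P : Par) (x y x' y' : ℝ) where
  raw : T1 → Raw
  bp : T1 → T1
  gr : T1 → Bool → T1 × Bool
  blk : T1 → V → V
  bits : ∀ t, (raw t).b1 = bit x t ∧ (raw t).b2 = bit y t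
  lr : ∀ t, LR P (cfg (pr x y) raw t) 0
  gr0 : ∀ t o, (raw t).p = 0 → gr t o = (t, o)
  grW : ∀ t, (raw t).p = 0 → gr (rt (pr x y) (-e1) t) false =
    (rt (pr x y) (-(raw (rt (pr x y) (-e1) t)).p) (rt (pr x y) (-e1) t), false)
  grS : ∀ t, (raw t).p = 0 → gr (rt (pr x y) (-e2) t) true =
    (rt (pr x y) (-(raw (rt (pr x y) (-e2) t)).p) (rt (pr x y) (-e2) t), true)
  grv : ∀ t, (raw t).p ≠ 0 → ∀ e e' : V × Bool, inc e 0 → inc e' 0 →
    wall (cfg (pr x y) raw t) e → wall (cfg (pr x y) raw t) e' →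
    gr (rt (pr x y) e.1 t) e.2 = gr (rt (pr x y) e'.1 t) e'.2
  bpr : ∀ t, bp (rt (pr x y) (-(raw t).p) t) = bp t
  bpW : ∀ t, (raw t).p = 0 → bp (rt (pr x y) (-e1) t) =
    if (raw t).g.a then rt (pr x' y') (-e1) (bp t) else bp t
  bpS : ∀ t, (raw t).p = 0 → bp (rt (pr x y) (-e2) t) =
    if (raw t).g.b then rt (pr x' y') (-e2) (bp t) else bp t
  tg : ∀ t, TGs (raw t).g (fun w => bit x' (rt (pr x' y') w (bp t)))
    (fun w => bit y' (rt (pr x' y') w (bp t)))
  blk_bp : ∀ t z, bp (rt (pr x y) z t) = rt (pr x' y') (blk t z) (bp t)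
  blk_le : ∀ t z, 2 * nn (blk t z) ≤ nn z + 2
  lift : ∀ t o r o', wall (cfg (pr x y) raw t) (0, o) → gr t o = (r, o') →
    sf o' (raw r).g = true →
    (bp r = bp t ∧ rt (pr x' y') (-(nv o')) (bp r) = bp (rt (pr x y) (-(nv o)) t)) ∨
    (bp r = bp (rt (pr x y) (-(nv o)) t) ∧ rt (pr x' y') (-(nv o')) (bp r) = bp t)
  core : ∃ t ∈ Om (pr x y), ∀ z o, nn z ≤ 3 → nn (z - nv o) ≤ 3 →
    ¬ wall (cfg (pr x y) raw t) (z, o)
  surj : ∀ u ∈ Om (pr x' y'), ∃ t ∈ Om (pr x y), bp t = u
  om_bp : ∀ t ∈ Om (pr x y), bp t ∈ Om (pr x' y')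
  loc_raw : ∀ t ∈ Om (pr x y), ∀ᶠ t' in 𝓝 t, raw t' = raw t
  loc_bp : ∀ t ∈ Om (pr x y), ContinuousAt bp t
  loc_gr : ∀ t ∈ Om (pr x y), ∀ o, wall (cfg (pr x y) raw t) (0, o) →
    ∃ v o', ∀ᶠ t' in 𝓝 t, gr t' o = (rt (pr x y) v t', o')

/-- Pairs of rotation numbers. -/
structure IsRN (x y : ℝ) : Prop where
  x0 : 0 < x
  x1 : x < 1
  y0 : 0 < y
  y1 : y < 1
  ind : Ind2 x y

theorem rt_coe (x y : ℝ) (z : V) (t : ℝ) :
    rt (pr x y) z (t : T1) = ((t + (z.1 * x + z.2 * y) : ℝ) : T1) := by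
  unfold rt pr
  simp only [AddCircle.coe_add]
  congr 1
  rw [← AddCircle.coe_zsmul, ← AddCircle.coe_zsmul, zsmul_eq_mul, zsmul_eq_mul]

theorem rt_free {x y : ℝ} (h : Ind2 x y) (z : V) (t : T1) (hz : rt (pr x y) z t = t) : z = 0 := by
  obtain ⟨t, rfl⟩ := QuotientAddGroup.mk_surjective t
  have h1 : rt (pr x y) z (t : T1) = (t : T1) := hz
  rw [rt_coe, AddCircle.coe_add] at h1
  have h2 : ((z.1 * x + z.2 * y : ℝ) : T1) = 0 := by simpa using h1
  rw [AddCircle.coe_eq_zero_iff] at h2
  obtain ⟨n, hn⟩ := h2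
  rw [zsmul_eq_mul, mul_one] at hn
  obtain ⟨q1, q2⟩ := h z.1 z.2 n hn.symm
  exact Prod.ext q1 q2

/-- Levels for all pairs of rotation numbers give a hierarchy. -/
theorem exists_hierG {P : Par}
    (h : ∀ x y, IsRN x y → ∃ x' y', IsRN x' y' ∧ Nonempty (PhLv P x y x' y'))
    {x y : ℝ} (hxy : IsRN x y) : ∃ H : HierG P, H.α 0 = pr x y := by
  classical
  let St := {q : ℝ × ℝ // IsRN q.1 q.2}
  have hnext : ∀ q : St, ∃ q' : St, Nonempty (PhLv P q.1.1 q.1.2 q'.1.1 q'.1.2) := by
    intro q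
    obtain ⟨x', y', h1, h2⟩ := h _ _ q.2
    exact ⟨⟨(x', y'), h1⟩, h2⟩
  choose nx hnx using hnext
  let st : ℕ → St := fun n => nx^[n] ⟨(x, y), hxy⟩
  have hst : ∀ n, st (n + 1) = nx (st n) := fun n => Function.iterate_succ_apply' nx n _
  have hL : ∀ n, Nonempty (PhLv P (st n).1.1 (st n).1.2 (st (n + 1)).1.1 (st (n + 1)).1.2) := by
    intro n
    rw [hst n]
    exact hnx (st n)
  let L : ∀ n, PhLv P (st n).1.1 (st n).1.2 (st (n + 1)).1.1 (st (n + 1)).1.2 :=
    fun n => (hL n).some
  have hK : 0 ≤ P.K := (abs_nonneg _).trans ((L 0).lr 0).bd.1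
  refine ⟨{ α := fun n => pr (st n).1.1 (st n).1.2
            raw := fun n => (L n).raw
            bp := fun n => (L n).bp
            gr := fun n => (L n).gr
            lr := fun n => (L n).lr
            gr0 := fun n => (L n).gr0
            grW := fun n => (L n).grW
            grS := fun n => (L n).grS
            grv := fun n => (L n).grv
            bpr := fun n => (L n).bpr
            bpW := fun n => (L n).bpW
            bpS := fun n => (L n).bpS
            tg := ?_
            blk := fun n => (L n).blk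
            blk_bp := fun n => (L n).blk_bp
            blk_le := fun n => (L n).blk_le
            lift := fun n => (L n).lift
            free := fun n z t ht => rt_free (st n).2.ind z t ht
            core := fun n => (L n).core
            surj := fun n => (L n).surj
            om_bp := fun n => (L n).om_bp
            loc_raw := fun n => (L n).loc_raw
            loc_bp := fun n => (L n).loc_bp
            loc_gr := fun n => (L n).loc_gr }, rfl⟩
  intro n t
  have h1 := (L n).tg t
  have hw : ∀ w : V, |w.1| ≤ 1 → |w.2| ≤ 1 →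
      win P.K (cfg (pr (st (n + 1)).1.1 (st (n + 1)).1.2) (L (n + 1)).raw ((L n).bp t)) 0 w =
      (L (n + 1)).raw (rt (pr (st (n + 1)).1.1 (st (n + 1)).1.2) w ((L n).bp t)) := by
    intro w h2 h3
    unfold win
    rw [if_pos ⟨by linarith, by linarith⟩, zero_add]
    rfl
  have w0 := hw 0 (by simp) (by simp)
  have w1 := hw e1 (by simp [e1]) (by simp [e1])
  have w2 := hw e2 (by simp [e2]) (by simp [e2])
  unfold TG
  unfold TGs at h1
  rw [w0, w1, w2]
  rw [((L (n + 1)).bits _).1, ((L (n + 1)).bits _).1, ((L (n + 1)).bits _).2,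
    ((L (n + 1)).bits _).2]
  exact h1

end BU39
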