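import Pool.Agent.LibBU39.L04
import Pool.Agent.LibBU39.L05
import Pool.Agent.LibBU39.L06
import Pool.Agent.LibBU39.PhLv

/-!
LEVEL, assembly, part a: phases of cells on the circle, the edge of the grid level that contains
a wall.
-/

namespace BU39

open Topology Filter

theorem coe_int' (n : ℤ) : ((n : ℝ) : T1) = 0 := by
  rw [AddCircle.coe_eq_zero_iff]
  exact ⟨n, by simp⟩

theorem coe_eq_iff {a b : ℝ} : (a : T1) = (b : T1) ↔ ∃ n : ℤ, a = b + n := by
  constructor
  · intro h
    have h1 : ((a - b : ℝ) : T1) = 0 := by rw [AddCircle.coe_sub, h, sub_self]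
    rw [AddCircle.coe_eq_zero_iff] at h1
    obtain ⟨n, hn⟩ := h1
    rw [zsmul_eq_mul, mul_one] at hn
    exact ⟨n, by linarith⟩
  · rintro ⟨n, rfl⟩
    rw [AddCircle.coe_add, coe_int', add_zero]

theorem rep_coe (τ : ℝ) : rep (τ : T1) = Int.fract τ := by
  unfold rep
  rw [AddCircle.coe_equivIco_mk_apply]
  rw [div_one, mul_one]

theorem coe_rep (t : T1) : ((rep t : ℝ) : T1) = t := AddCircle.coe_equivIco

theorem rep_mem (t : T1) : 0 ≤ rep t ∧ rep t < 1 := by
  have h := (AddCircle.equivIco (1 : ℝ) 0 t).2
  exact ⟨h.1, by simpa [rep] using h.2⟩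

theorem rt_coe' (x y : ℝ) (z : V) (t : ℝ) :
    rt (pr x y) z (t : T1) = ((t + ph x y z : ℝ) : T1) := rt_coe x y z t

theorem coe_fract_eq {a b : ℝ} (h : Int.fract a = Int.fract b) : (a : T1) = (b : T1) := by
  rw [coe_eq_iff]
  refine ⟨⌊a⌋ - ⌊b⌋, ?_⟩
  have h1 := Int.floor_add_fract a
  have h2 := Int.floor_add_fract b
  push_cast
  linarith

/-- The edge of the grid level between the cells `p` and `q` (first vertex, orientation). -/
def ge (p q : V) : V × Bool :=
  if p = q + e1 then (p, true) else if q = p + e1 then (q, true)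
  else if p = q + e2 then (p, false) else if q = p + e2 then (q, false) else (p, false)

theorem ge_add (p q N : V) : ge (p + N) (q + N) = ((ge p q).1 + N, (ge p q).2) := by
  unfold ge
  have h1 : ∀ a b c : V, (a + N = b + N + c) ↔ (a = b + c) := by
    intro a b c
    rw [add_right_comm, add_left_inj]
  simp only [h1]
  split_ifs <;> rfl

theorem e1_ne (p : V) : p ≠ p + e1 + e1 := by
  intro h
  have := congrArg Prod.fst h
  simp [e1] at this
  omega

theorem e2_ne (p : V) : p ≠ p + e2 + e2 := by
  intro h
  have := congrArg Prod.snd h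
  simp [e2] at this
  omega

theorem ge_1 (p : V) : ge (p + e1) p = (p + e1, true) := by
  unfold ge
  rw [if_pos rfl]

theorem ge_1' (p : V) : ge p (p + e1) = (p + e1, true) := by
  unfold ge
  rw [if_neg (e1_ne p), if_pos rfl]

theorem e21_ne (p : V) : p + e2 ≠ p + e1 := by
  intro h
  have := congrArg Prod.fst h
  simp [e1, e2] at this

theorem ge_2 (p : V) : ge (p + e2) p = (p + e2, false) := by
  unfold ge
  rw [if_neg (e21_ne p), if_neg, if_pos rfl]
  intro h
  have := congrArg Prod.fst h
  simp [e1, e2] at this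

theorem ge_2' (p : V) : ge p (p + e2) = (p + e2, false) := by
  unfold ge
  rw [if_neg, if_neg (e21_ne p), if_neg (e2_ne p), if_pos rfl]
  intro h
  have := congrArg Prod.fst h
  simp [e1, e2] at this

/-- Neighbouring indices. -/
def Nb (p q : V) : Prop := q = p ∨ q = p + e1 ∨ p = q + e1 ∨ q = p + e2 ∨ p = q + e2

theorem Nb.symm {p q : V} (h : Nb p q) : Nb q p := by
  rcases h with h | h | h | h | h
  · exact Or.inl h.symm
  · exact Or.inr (Or.inr (Or.inl h))
  · exact Or.inr (Or.inl h)
  · exact Or.inr (Or.inr (Or.inr (Or.inr h)))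
  · exact Or.inr (Or.inr (Or.inr (Or.inl h)))

theorem ge_symm {p q : V} (h : Nb p q) : ge p q = ge q p := by
  rcases h with rfl | rfl | rfl | rfl | rfl
  · rfl
  · rw [ge_1, ge_1']
  · rw [ge_1, ge_1']
  · rw [ge_2, ge_2']
  · rw [ge_2, ge_2']

/-- A wall between neighbours. -/
theorem ge_cases {p q : V} (h : Nb p q) (hne : q ≠ p) :
    (p = (ge p q).1 ∧ q = (ge p q).1 - nv (ge p q).2) ∨
    (q = (ge p q).1 ∧ p = (ge p q).1 - nv (ge p q).2) := by
  rcases h with rfl | rfl | rfl | rfl | rfl
  · exact absurd rfl hne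
  · rw [ge_1']; right; simp [nv]
  · rw [ge_1]; left; simp [nv]
  · rw [ge_2']; right; simp [nv]
  · rw [ge_2]; left; simp [nv]

namespace Skew.Out

variable {G : GeoC} {C : Cn} {K1 : ℤ} {S : Skew G C K1} {f : V → V}

theorem nb1 (h : S.Out f) (z : V) : Nb (f z) (f (z + e1)) := (h.s3 z).1

theorem nb2 (h : S.Out f) (z : V) : Nb (f z) (f (z + e2)) := (h.s3 z).2

theorem nbv (h : S.Out f) (z : V) (o : Bool) : Nb (f z) (f (z - nv o)) := by
  cases o
  · have := h.nb2 (z - e2)
    rw [sub_add_cancel] at this
    exact this.symm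
  · have := h.nb1 (z - e1)
    rw [sub_add_cancel] at this
    exact this.symm

/-- The edge of the grid level at an edge. -/
def gv (f : V → V) (d : V × Bool) : V × Bool := ge (f d.1) (f (d.1 - nv d.2))

/-- Walls that meet at a vertex that is not a root belong to the same edge. -/
theorem gv_eq (h : S.Out f) {u : V} (hu : u ∉ Set.range S.Φ) {d d' : V × Bool}
    (hd : inc d u) (hd' : inc d' u) (hw : wallF f d) (hw' : wallF f d') : gv f d = gv f d' := by
  have hc := h.s4 u hu
  -- the four edges
  have cases4 : ∀ d : V × Bool, inc d u → d = (u, false) ∨ d = (u, true) ∨ d = (u - e1, false) ∨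
      d = (u - e2, true) := by
    rintro ⟨w, o⟩ hd
    rcases hd with h1 | h1
    · cases o
      · left; exact Prod.ext h1.symm rfl
      · right; left; exact Prod.ext h1.symm rfl
    · cases o
      · right; right; left
        simp only [Bool.false_eq_true, if_false] at h1
        rw [h1, add_sub_cancel_right]
      · right; right; right
        simp only [if_true] at h1
        rw [h1, add_sub_cancel_right]
  have n1 : Nb (f u) (f (u - e1)) := h.nbv u true
  have n2 : Nb (f u) (f (u - e2)) := h.nbv u false
  have n3 : Nb (f (u - e1)) (f (u - e1 - e2)) := h.nbv (u - e1) false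
  have n4 : Nb (f (u - e2)) (f (u - e2 - e1)) := h.nbv (u - e2) true
  have e12 : u - e2 - e1 = u - e1 - e2 := by abel
  have hcnt : (vtF f u).cnt = (decide (f (u - e2) ≠ f u)).toNat + (decide (f (u - e1) ≠ f u)).toNat
      + (decide (f (u - e1 - e2) ≠ f (u - e1))).toNat +
      (decide (f (u - e1 - e2) ≠ f (u - e2))).toNat := by
    simp only [VT.cnt, vtF, wallF, Bool.false_eq_true, if_false, if_true]
    rw [e12]
  rw [hcnt] at hc
  rw [e12] at n4
  have key : ∀ a b c d : V, Nb a b → Nb a c → Nb b d → Nb c d →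
      (decide (c ≠ a)).toNat + (decide (b ≠ a)).toNat + (decide (d ≠ b)).toNat +
      (decide (d ≠ c)).toNat ≤ 2 →
      (c ≠ a → b ≠ a → ge a c = ge a b) ∧ (c ≠ a → d ≠ b → ge a c = ge b d) ∧
      (c ≠ a → d ≠ c → ge a c = ge c d) ∧ (b ≠ a → d ≠ b → ge a b = ge b d) ∧
      (b ≠ a → d ≠ c → ge a b = ge c d) ∧ (d ≠ b → d ≠ c → ge b d = ge c d) := by
    intro a b c d h1 h2 h3 h4 hc
    by_cases p1 : c = a
    · by_cases p2 : b = a
      · subst p1; subst p2
        exact ⟨fun h => absurd rfl h, fun h => absurd rfl h, fun h => absurd rfl h,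
          fun h => absurd rfl h, fun h => absurd rfl h, fun _ _ => rfl⟩
      · subst p1
        by_cases p3 : d = b
        · subst p3
          exact ⟨fun h => absurd rfl h, fun h => absurd rfl h, fun h => absurd rfl h,
            fun _ h => absurd rfl h, fun _ _ => rfl, fun h => absurd rfl h⟩
        · by_cases p4 : d = c
          · subst p4
            exact ⟨fun h => absurd rfl h, fun h => absurd rfl h, fun h => absurd rfl h,
              fun _ _ => ge_symm h1, fun _ h => absurd rfl h, fun _ h => absurd rfl h⟩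
          · exfalso
            simp [p2, p3, p4] at hc
    · by_cases p2 : b = a
      · subst p2
        by_cases p3 : d = b
        · subst p3
          exact ⟨fun _ h => absurd rfl h, fun _ h => absurd rfl h, fun _ _ => ge_symm h2,
            fun h => absurd rfl h, fun h => absurd rfl h, fun h => absurd rfl h⟩
        · by_cases p4 : d = c
          · subst p4
            exact ⟨fun _ h => absurd rfl h, fun _ _ => rfl, fun _ h => absurd rfl h,
              fun h => absurd rfl h, fun h => absurd rfl h, fun _ h => absurd rfl h⟩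
          · exfalso
            simp [p1, p3, p4] at hc
      · by_cases p3 : d = b
        · subst p3
          by_cases p4 : d = c
          · subst p4
            exact ⟨fun _ _ => rfl, fun _ h => absurd rfl h, fun _ h => absurd rfl h,
              fun _ h => absurd rfl h, fun _ h => absurd rfl h, fun h => absurd rfl h⟩
          · exfalso
            simp [p1, p2, p4] at hc
        · exfalso
          by_cases p4 : d = c
          · subst p4
            simp [p1, p2, p3] at hc
          · simp [p1, p2, p3, p4] at hc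
  have K := key (f u) (f (u - e1)) (f (u - e2)) (f (u - e1 - e2)) n1 n2 n3 n4 hc
  have wE : wallF f (u, false) ↔ f (u - e2) ≠ f u := by simp [wallF]
  have wN : wallF f (u, true) ↔ f (u - e1) ≠ f u := by simp [wallF]
  have wW : wallF f (u - e1, false) ↔ f (u - e1 - e2) ≠ f (u - e1) := by simp [wallF]
  have wS : wallF f (u - e2, true) ↔ f (u - e1 - e2) ≠ f (u - e2) := by simp [wallF, e12]
  have gE : gv f (u, false) = ge (f u) (f (u - e2)) := by simp [gv, nv]
  have gN : gv f (u, true) = ge (f u) (f (u - e1)) := by simp [gv, nv]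
  have gW : gv f (u - e1, false) = ge (f (u - e1)) (f (u - e1 - e2)) := by simp [gv, nv]
  have gS : gv f (u - e2, true) = ge (f (u - e2)) (f (u - e1 - e2)) := by simp [gv, nv, e12]
  obtain ⟨k1, k2, k3, k4, k5, k6⟩ := K
  rcases cases4 d hd with rfl | rfl | rfl | rfl <;>
  rcases cases4 d' hd' with rfl | rfl | rfl | rfl <;>
  simp only [wE, wN, wW, wS] at hw hw' <;>
  simp only [gE, gN, gW, gS]
  · exact k1 hw hw'
  · exact k2 hw hw'
  · exact k3 hw hw'
  · exact (k1 hw' hw).symm
  · exact k4 hw hw'
  · exact k5 hw hw'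
  · exact (k2 hw' hw).symm
  · exact (k4 hw' hw).symm
  · exact k6 hw hw'
  · exact (k3 hw' hw).symm
  · exact (k5 hw' hw).symm
  · exact (k6 hw' hw).symm

theorem reach_gv (h : S.Out f) {K : ℤ} {z : V} {d d' : V × Bool}
    (hr : ReachF K f (Set.range S.Φ) z d d') : gv f d = gv f d' := by
  induction hr with
  | refl => rfl
  | tail _ hl ih =>
    obtain ⟨u, -, hu, h1, h2, h3, h4⟩ := hl
    rw [ih]
    exact h.gv_eq hu h1 h2 h3 h4

theorem gv_E (h : S.Out f) (k : V) : gv f (S.Φ k, false) = (k, false) := by
  have h2 := h.s2 k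
  unfold gv nv
  simp only [Bool.false_eq_true, if_false]
  rw [h2.1, h2.2.2]
  have := ge_2 (k - e2)
  rw [sub_add_cancel] at this
  exact this

theorem gv_N (h : S.Out f) (k : V) : gv f (S.Φ k, true) = (k, true) := by
  have h2 := h.s2 k
  unfold gv nv
  simp only [if_true]
  rw [h2.1, h2.2.1]
  have := ge_1 (k - e1)
  rw [sub_add_cancel] at this
  exact this

theorem gv_W (h : S.Out f) (k : V) : gv f (S.Φ k - e1, false) = (k - e1, false) := by
  have h1 := (h.s5 (k - e1)).1
  rw [sub_add_cancel] at h1
  rw [← h.reach_gv h1, h.gv_E]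

theorem gv_S (h : S.Out f) (k : V) : gv f (S.Φ k - e2, true) = (k - e2, true) := by
  have h1 := (h.s5 (k - e2)).2
  rw [sub_add_cancel] at h1
  rw [← h.reach_gv h1, h.gv_N]

theorem nn_le (h : S.Out f) : ∀ (n : ℕ) (z w : V), nn (w - z) ≤ n → nn (f w - f z) ≤ nn (w - z) := by
  have nb_le : ∀ p q : V, Nb p q → nn (q - p) ≤ 1 := by
    intro p q hpq
    rcases hpq with rfl | rfl | rfl | rfl | rfl <;> simp [nn, e1, e2]
  intro n
  induction n with
  | zero =>
    intro z w hn
    have h0 : nn (w - z) = 0 := le_antisymm hn (nn_nonneg _)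
    have h1 : w = z := by
      unfold nn at h0
      have a1 := abs_nonneg (w - z).1
      have a2 := abs_nonneg (w - z).2
      have b1 : (w - z).1 = 0 := abs_eq_zero.1 (by linarith)
      have b2 : (w - z).2 = 0 := abs_eq_zero.1 (by linarith)
      simp only [Prod.fst_sub, Prod.snd_sub] at b1 b2
      exact Prod.ext (by omega) (by omega)
    subst h1
    simp [nn]
  | succ n ih =>
    intro z w hn
    by_cases hwz : w = z
    · subst hwz; simp [nn]
    -- one step towards `z`
    have hstep : ∃ w', Nb (f w') (f w) ∧ nn (w' - z) + 1 = nn (w - z) := by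
      by_cases c1 : w.1 = z.1
      · have c2 : w.2 ≠ z.2 := fun h => hwz (Prod.ext c1 h)
        rcases lt_or_gt_of_ne c2 with c2 | c2
        · refine ⟨w + e2, (h.nb2 w).symm, ?_⟩
          simp only [nn, e2, Prod.fst_sub, Prod.snd_sub, Prod.fst_add, Prod.snd_add, c1, add_zero,
            sub_self, abs_zero, zero_add]
          rw [abs_of_nonpos (by omega), abs_of_nonpos (by omega)]
          omega
        · refine ⟨w - e2, ?_, ?_⟩
          · have := h.nb2 (w - e2)
            rwa [sub_add_cancel] at this
          simp only [nn, e2, Prod.fst_sub, Prod.snd_sub, c1, sub_zero,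
            sub_self, abs_zero, zero_add]
          rw [abs_of_nonneg (by omega), abs_of_nonneg (by omega)]
          omega
      · rcases lt_or_gt_of_ne c1 with c1 | c1
        · refine ⟨w + e1, (h.nb1 w).symm, ?_⟩
          simp only [nn, e1, Prod.fst_sub, Prod.snd_sub, Prod.fst_add, Prod.snd_add, add_zero]
          rw [abs_of_nonpos (a := w.1 + 1 - z.1) (by omega),
            abs_of_nonpos (a := w.1 - z.1) (by omega)]
          omega
        · refine ⟨w - e1, ?_, ?_⟩
          · have := h.nb1 (w - e1)
            rwa [sub_add_cancel] at this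
          simp only [nn, e1, Prod.fst_sub, Prod.snd_sub, sub_zero]
          rw [abs_of_nonneg (a := w.1 - 1 - z.1) (by omega),
            abs_of_nonneg (a := w.1 - z.1) (by omega)]
          omega
    obtain ⟨w', h1, h2⟩ := hstep
    have h3 := ih z w' (by push_cast at hn; omega)
    have h4 := nb_le _ _ h1
    have h5 := nn_add (f w - f w') (f w' - f z)
    have h6 : f w - f w' + (f w' - f z) = f w - f z := by abel
    rw [h6] at h5
    omega

end Skew.Out

end BU39
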