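import Pool.Agent.LibBU39.L07a

/-!
LEVEL, assembly, part b: the labelling of a frame by phases.
-/

namespace BU39

open Topology Filter

namespace Frame

variable {G : GeoC} {K1 : ℤ} {x y : ℝ} (F : Frame G K1 x y)

/-- Phase of the cell `z`. -/
noncomputable def cell (e : ℝ) (z : V) : T1 := ((F.δ * Int.fract e + ph x y z : ℝ) : T1)

/-- Shift of the index by whole blocks. -/
def NI (i : V) : V := (F.n1 * i.1, F.n2 * i.2)

theorem n1_pos : (0 : ℤ) < F.n1 := by have := F.hn1; omega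
theorem n2_pos : (0 : ℤ) < F.n2 := by have := F.hn2; omega

theorem bk_NI (k i : V) : F.bk (k + F.NI i) = F.bk k + i := by
  unfold bk NI
  simp only [Prod.fst_add, Prod.snd_add]
  rw [Int.add_mul_ediv_left _ _ F.n1_pos.ne', Int.add_mul_ediv_left _ _ F.n2_pos.ne']
  rfl

theorem rt_cell (e : ℝ) (z w : V) : rt (pr x y) w (F.cell e z) = F.cell e (z + w) := by
  unfold cell
  rw [rt_coe', ph_add]
  congr 1
  ring

theorem cell_big (e : ℝ) (i z : V) : F.cell e (F.big e i + z) = F.cell (F.eb e i) z := by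
  unfold cell
  obtain ⟨n, hn⟩ := F.big_ph e i
  rw [coe_eq_iff]
  refine ⟨n, ?_⟩
  rw [ph_add]
  linarith

theorem cell_per (e : ℝ) (m : ℤ) (z : V) : F.cell (e + m) z = F.cell e z := by
  unfold cell
  rw [Int.fract_add_intCast]

theorem exists_cell (hxy : Ind2 x y) (t : T1) : ∃ (e : ℝ) (z : V), t = F.cell e z := by
  obtain ⟨e, z, n, h0, h1, h⟩ := F.exists_rep hxy (rep t)
  refine ⟨e, z, ?_⟩
  rw [← coe_rep t]
  unfold cell
  rw [Int.fract_eq_self.2 ⟨h0, h1⟩, coe_eq_iff]
  exact ⟨n, h⟩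

/-- A representation of a phase. -/
noncomputable def ez (t : T1) : ℝ × V := Classical.epsilon fun q => t = F.cell q.1 q.2

theorem ez_spec (hxy : Ind2 x y) (t : T1) : F.cell (F.ez t).1 (F.ez t).2 = t := by
  obtain ⟨e, z, h⟩ := F.exists_cell hxy t
  exact (Classical.epsilon_spec (p := fun q : ℝ × V => t = F.cell q.1 q.2) ⟨(e, z), h⟩).symm

theorem cell_eq {e e' : ℝ} {z z' : V} (h : F.cell e z = F.cell e' z') :
    ∃ n : ℤ, F.δ * Int.fract e + ph x y z = F.δ * Int.fract e' + ph x y z' + n :=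
  coe_eq_iff.1 h

theorem cell_eq' (hxy : Ind2 x y) {e e' : ℝ} {z z' : V} (h : F.cell e z = F.cell e' z') :
    ∃ (i : V) (m : ℤ), e' = F.eb e i + m ∧ z = F.big e i + z' := by
  obtain ⟨n, hn⟩ := F.cell_eq h
  exact F.rep_eq hxy hn

/-- Raw label of a phase. -/
noncomputable def rawT (t : T1) : Raw := F.conf (F.ez t).1 (F.ez t).2

theorem rawT_cell (hxy : Ind2 x y) (e : ℝ) (z : V) : F.rawT (F.cell e z) = F.conf e z := by
  obtain ⟨n, hn⟩ := F.cell_eq (F.ez_spec hxy (F.cell e z))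
  exact F.conf_phase hxy hn

/-- Phase of the block. -/
noncomputable def bpT (t : T1) : T1 :=
  ((F.eb (F.ez t).1 (F.bk (F.ι (F.ez t).1 (F.ez t).2)) : ℝ) : T1)

theorem bpT_cell (hxy : Ind2 x y) (e : ℝ) (z : V) :
    F.bpT (F.cell e z) = ((F.eb e (F.bk (F.ι e z)) : ℝ) : T1) := by
  obtain ⟨n, hn⟩ := F.cell_eq (F.ez_spec hxy (F.cell e z))
  exact coe_fract_eq (F.bp_phase hxy hn)

/-- First vertex of the edge of the grid level. -/
noncomputable def grT (t : T1) (o : Bool) : T1 × Bool :=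
  (F.cell (F.ez t).1 (F.gΦ (F.ez t).1 (Skew.Out.gv (F.ι (F.ez t).1) ((F.ez t).2, o)).1),
    (Skew.Out.gv (F.ι (F.ez t).1) ((F.ez t).2, o)).2)

theorem gv_shift (e : ℝ) (i : V) (m : ℤ) (z' : V) (o : Bool) :
    Skew.Out.gv (F.ι e) (F.big e i + z', o) =
      ((Skew.Out.gv (F.ι (F.eb e i + m)) (z', o)).1 + F.NI i,
        (Skew.Out.gv (F.ι (F.eb e i + m)) (z', o)).2) := by
  unfold Skew.Out.gv
  simp only
  rw [add_sub_assoc, F.ι_shift e i m z', F.ι_shift e i m (z' - nv o)]
  exact ge_add _ _ _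

theorem grT_cell (hxy : Ind2 x y) (e : ℝ) (z : V) (o : Bool) :
    F.grT (F.cell e z) o = (F.cell e (F.gΦ e (Skew.Out.gv (F.ι e) (z, o)).1),
      (Skew.Out.gv (F.ι e) (z, o)).2) := by
  obtain ⟨i, m, h1, h2⟩ := F.cell_eq' hxy (F.ez_spec hxy (F.cell e z)).symm
  unfold grT
  rw [h1]
  set w := (F.ez (F.cell e z)).2 with hw
  have h3 := F.gv_shift e i m w o
  rw [← h2] at h3
  rw [h3]
  simp only
  refine Prod.ext ?_ rfl
  simp only
  have h4 := F.gΦ_shift e i (Skew.Out.gv (F.ι (F.eb e i + m)) (w, o)).1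
  change F.gΦ e (_ + F.NI i) = _ at h4
  rw [h4, F.cell_big, F.cell_per, F.gΦ_per]

/-- Index of the block relative to the block of `0`. -/
noncomputable def blkT (t : T1) (z : V) : V :=
  F.bk (F.ι (F.ez t).1 ((F.ez t).2 + z)) - F.bk (F.ι (F.ez t).1 (F.ez t).2)

theorem blkT_cell (hxy : Ind2 x y) (e : ℝ) (z w : V) :
    F.blkT (F.cell e z) w = F.bk (F.ι e (z + w)) - F.bk (F.ι e z) := by
  obtain ⟨i, m, h1, h2⟩ := F.cell_eq' hxy (F.ez_spec hxy (F.cell e z)).symm
  unfold blkT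
  rw [h1]
  set v := (F.ez (F.cell e z)).2 with hv
  rw [h2, add_assoc, F.ι_shift e i m, F.ι_shift e i m]
  change _ = F.bk (_ + F.NI i) - F.bk (_ + F.NI i)
  rw [F.bk_NI, F.bk_NI]
  abel

theorem cfg_cell (hxy : Ind2 x y) (e : ℝ) (z w : V) :
    cfg (pr x y) F.rawT (F.cell e z) w = F.conf e (z + w) := by
  unfold cfg
  rw [F.rt_cell, F.rawT_cell hxy]

theorem wall_cell (hxy : Ind2 x y) (e : ℝ) (z : V) (d : V × Bool) :
    wall (cfg (pr x y) F.rawT (F.cell e z)) d ↔ wallF (F.ι e) (z + d.1, d.2) := by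
  rw [← F.conf_wall]
  unfold wall root
  rw [F.cfg_cell hxy, F.cfg_cell hxy]
  simp only
  have h1 : z + (d.1 - (if d.2 = true then e1 else e2)) =
      z + d.1 - (if d.2 = true then e1 else e2) := by abel
  rw [h1]
  have h2 : z + d.1 - (if d.2 = true then e1 else e2) -
      (F.conf e (z + d.1 - (if d.2 = true then e1 else e2))).p =
      z + (d.1 - (if d.2 = true then e1 else e2) -
      (F.conf e (z + d.1 - (if d.2 = true then e1 else e2))).p) := by abel
  have h3 : z + d.1 - (F.conf e (z + d.1)).p = z + (d.1 - (F.conf e (z + d.1)).p) := by abel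
  rw [h2, h3, Ne, Ne, add_right_inj]

theorem wall_cell0 (hxy : Ind2 x y) (e : ℝ) (z : V) (o : Bool) :
    wall (cfg (pr x y) F.rawT (F.cell e z)) (0, o) ↔ F.ι e (z - nv o) ≠ F.ι e z := by
  rw [F.wall_cell hxy]
  unfold wallF nv
  simp only [add_zero]

theorem ι_gΦ (e : ℝ) (k : V) : F.ι e (F.gΦ e k) = k := ((F.out e).s2 k).1

/-- Roots. -/
theorem root_cell (hxy : Ind2 x y) {e : ℝ} {z : V} (h : (F.rawT (F.cell e z)).p = 0) :
    z = F.gΦ e (F.ι e z) := by
  rw [F.rawT_cell hxy] at h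
  exact sub_eq_zero.1 h

theorem LR_conf (h : IsRN x y) (e : ℝ) (z : V) : LR (parOf G.ρ K1) (F.conf e) z :=
  F.conf_LR h.ind e z (F.conf_c1 h.ind ⟨h.x0, h.x1⟩ e z) (F.conf_c2 h.ind ⟨h.y0, h.y1⟩ e z)

theorem emod_of_sub {k n : ℤ} (hn : 0 < n) :
    (k - 1) / n = if k % n = 0 then k / n - 1 else k / n := by
  have h1 := Int.emod_nonneg k hn.ne'
  have h2 := Int.emod_lt_of_pos k hn
  have h3 := Int.mul_ediv_add_emod k n
  split_ifs with h
  · rw [Int.ediv_eq_iff_of_pos hn]
    constructor <;> nlinarith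
  · have h4 : 1 ≤ k % n := by omega
    rw [Int.ediv_eq_iff_of_pos hn]
    constructor <;> nlinarith

theorem ra_zero (k : V) : F.ra k = 0 ↔ k.1 % F.n1 = 0 := by
  unfold ra
  have h1 := Int.emod_nonneg k.1 F.n1_pos.ne'
  omega

theorem rb_zero (k : V) : F.rb k = 0 ↔ k.2 % F.n2 = 0 := by
  unfold rb
  have h1 := Int.emod_nonneg k.2 F.n2_pos.ne'
  omega

theorem bk_sub1 (e : ℝ) (k : V) :
    F.bk (k - e1) = if (F.gl e k).a then F.bk k - e1 else F.bk k := by
  have h : (F.gl e k).a = decide (F.ra k = 0) := rfl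
  rw [h]
  by_cases h0 : F.ra k = 0
  · rw [decide_eq_true h0, if_pos rfl]
    have h1 := (F.ra_zero k).1 h0
    unfold bk
    have h2 := emod_of_sub (k := k.1) F.n1_pos
    rw [if_pos h1] at h2
    refine Prod.ext ?_ ?_
    · simp only [e1, Prod.fst_sub]
      exact h2
    · simp [e1]
  · rw [decide_eq_false h0, if_neg (by simp)]
    have h1 : ¬ k.1 % F.n1 = 0 := fun h => h0 ((F.ra_zero k).2 h)
    unfold bk
    have h2 := emod_of_sub (k := k.1) F.n1_pos
    rw [if_neg h1] at h2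
    refine Prod.ext ?_ ?_
    · simp only [e1, Prod.fst_sub]
      exact h2
    · simp [e1]

theorem bk_sub2 (e : ℝ) (k : V) :
    F.bk (k - e2) = if (F.gl e k).b then F.bk k - e2 else F.bk k := by
  have h : (F.gl e k).b = decide (F.rb k = 0) := rfl
  rw [h]
  by_cases h0 : F.rb k = 0
  · rw [decide_eq_true h0, if_pos rfl]
    have h1 := (F.rb_zero k).1 h0
    unfold bk
    have h2 := emod_of_sub (k := k.2) F.n2_pos
    rw [if_pos h1] at h2
    refine Prod.ext ?_ ?_
    · simp [e2]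
    · simp only [e2, Prod.snd_sub]
      exact h2
  · rw [decide_eq_false h0, if_neg (by simp)]
    have h1 : ¬ k.2 % F.n2 = 0 := fun h => h0 ((F.rb_zero k).2 h)
    unfold bk
    have h2 := emod_of_sub (k := k.2) F.n2_pos
    rw [if_neg h1] at h2
    refine Prod.ext ?_ ?_
    · simp [e2]
    · simp only [e2, Prod.snd_sub]
      exact h2

theorem bk_subn (e : ℝ) (k : V) (o : Bool) (h : sf o (F.gl e k) = true) :
    F.bk (k - nv o) = F.bk k - nv o := by
  cases o
  · have h1 := F.bk_sub2 e k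
    simp only [sf, Bool.false_eq_true, if_false] at h
    rw [if_pos h] at h1
    exact h1
  · have h1 := F.bk_sub1 e k
    simp only [sf, if_true] at h
    rw [if_pos h] at h1
    exact h1

theorem eb_coe (e : ℝ) (i w : V) :
    ((F.eb e (i + w) : ℝ) : T1) = rt (pr F.x' F.y') w ((F.eb e i : ℝ) : T1) := by
  rw [rt_coe']
  unfold eb
  rw [ph_add]
  congr 1
  ring

theorem half_le {a b n : ℤ} (hn : 2 ≤ n) : 2 * |a / n - b / n| ≤ |a - b| + 1 := by
  have hn0 : 0 < n := by omega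
  have h1 := Int.emod_nonneg a hn0.ne'
  have h2 := Int.emod_lt_of_pos a hn0
  have h3 := Int.mul_ediv_add_emod a n
  have h4 := Int.emod_nonneg b hn0.ne'
  have h5 := Int.emod_lt_of_pos b hn0
  have h6 := Int.mul_ediv_add_emod b n
  generalize a / n = A at *
  generalize b / n = B at *
  generalize a % n = r at *
  generalize b % n = s at *
  rcases le_total B A with h | h
  · rw [abs_of_nonneg (by omega)]
    have h7 : (n - 2) * (A - B) ≥ 0 := mul_nonneg (by omega) (by omega)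
    by_cases hAB : A = B
    · subst hAB
      have := abs_nonneg (a - b)
      omega
    · have h8 : 1 ≤ A - B := by omega
      have h9 : (n - 2) * (A - B) ≥ n - 2 := by nlinarith
      have h10 := le_abs_self (a - b)
      nlinarith
  · rw [abs_of_nonpos (by omega)]
    by_cases hAB : A = B
    · subst hAB
      have := abs_nonneg (a - b)
      omega
    · have h8 : 1 ≤ B - A := by omega
      have h9 : (n - 2) * (B - A) ≥ n - 2 := by nlinarith
      have h10 := neg_abs_le (a - b)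
      nlinarith

theorem bk_le (e : ℝ) (z w : V) :
    2 * nn (F.bk (F.ι e (z + w)) - F.bk (F.ι e z)) ≤ nn w + 2 := by
  have h1 : nn (z + w - z) ≤ (nn w).toNat := by
    rw [add_sub_cancel_left]
    exact Int.self_le_toNat _
  have h2 := (F.out e).nn_le _ z (z + w) h1
  rw [add_sub_cancel_left] at h2
  generalize F.ι e (z + w) = p at *
  generalize F.ι e z = q at *
  have hn1 : (2 : ℤ) ≤ F.n1 := by exact_mod_cast F.hn1
  have hn2 : (2 : ℤ) ≤ F.n2 := by exact_mod_cast F.hn2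
  have h3 := half_le (a := p.1) (b := q.1) hn1
  have h4 := half_le (a := p.2) (b := q.2) hn2
  unfold nn at *
  simp only [Prod.fst_sub, Prod.snd_sub, bk] at *
  linarith

end Frame

end BU39
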