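import Pool.Agent.LibBU39.L07b

/-!
LEVEL, assembly, part c: the fields of `PhLv`, except the local constancy.
-/

namespace BU39

open Topology Filter

namespace Frame

variable {G : GeoC} {K1 : ℤ} {x y : ℝ} (F : Frame G K1 x y)

theorem rep_cell (e : ℝ) (z : V) :
    rep (F.cell e z) = Int.fract (F.δ * Int.fract e + ph x y z) := rep_coe _

theorem f_bits (hxy : Ind2 x y) (t : T1) :
    (F.rawT t).b1 = bit x t ∧ (F.rawT t).b2 = bit y t := by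
  obtain ⟨e, z, rfl⟩ := F.exists_cell hxy t
  rw [F.rawT_cell hxy]
  unfold bit
  rw [F.rep_cell]
  exact ⟨rfl, rfl⟩

theorem f_lr (h : IsRN x y) (t : T1) : LR (parOf G.ρ K1) (cfg (pr x y) F.rawT t) 0 := by
  obtain ⟨e, z, rfl⟩ := F.exists_cell h.ind t
  refine LR.congr ?_ (F.LR_conf h e z)
  intro w _
  rw [F.cfg_cell h.ind, zero_add]

/-- A root. -/
theorem exists_root (hxy : Ind2 x y) {t : T1} (h : (F.rawT t).p = 0) :
    ∃ (e : ℝ) (k : V), t = F.cell e (F.gΦ e k) := by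
  obtain ⟨e, z, rfl⟩ := F.exists_cell hxy t
  exact ⟨e, F.ι e z, congrArg (F.cell e) (F.root_cell hxy h)⟩

theorem f_gr0 (hxy : Ind2 x y) (t : T1) (o : Bool) (h : (F.rawT t).p = 0) :
    F.grT t o = (t, o) := by
  obtain ⟨e, k, rfl⟩ := F.exists_root hxy h
  rw [F.grT_cell hxy]
  have h1 : Skew.Out.gv (F.ι e) (F.gΦ e k, o) = (k, o) := by
    cases o
    · exact (F.out e).gv_E k
    · exact (F.out e).gv_N k
  rw [h1]

theorem conf_of_root (e : ℝ) (k : V) : (F.conf e (F.gΦ e k)).g = F.gl e k := by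
  change F.gl e (F.ι e (F.gΦ e k)) = _
  rw [F.ι_gΦ]

theorem f_grW (hxy : Ind2 x y) (t : T1) (h : (F.rawT t).p = 0) :
    F.grT (rt (pr x y) (-e1) t) false =
    (rt (pr x y) (-(F.rawT (rt (pr x y) (-e1) t)).p) (rt (pr x y) (-e1) t), false) := by
  obtain ⟨e, k, rfl⟩ := F.exists_root hxy h
  rw [F.rt_cell, F.grT_cell hxy, F.rawT_cell hxy, F.rt_cell]
  have h1 := (F.out e).gv_W k
  change Skew.Out.gv (F.ι e) (F.gΦ e k - e1, false) = _ at h1
  rw [← sub_eq_add_neg, h1]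
  simp only
  have h2 : (F.conf e (F.gΦ e k - e1)).p = F.gΦ e k - e1 - F.gΦ e (k - e1) := by
    change _ - F.gΦ e (F.ι e (F.gΦ e k - e1)) = _
    have h3 := ((F.out e).s2 k).2.1
    change F.ι e (F.gΦ e k - e1) = _ at h3
    rw [h3]
  rw [h2]
  congr 2
  abel

theorem f_grS (hxy : Ind2 x y) (t : T1) (h : (F.rawT t).p = 0) :
    F.grT (rt (pr x y) (-e2) t) true =
    (rt (pr x y) (-(F.rawT (rt (pr x y) (-e2) t)).p) (rt (pr x y) (-e2) t), true) := by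
  obtain ⟨e, k, rfl⟩ := F.exists_root hxy h
  rw [F.rt_cell, F.grT_cell hxy, F.rawT_cell hxy, F.rt_cell]
  have h1 := (F.out e).gv_S k
  change Skew.Out.gv (F.ι e) (F.gΦ e k - e2, true) = _ at h1
  rw [← sub_eq_add_neg, h1]
  simp only
  have h2 : (F.conf e (F.gΦ e k - e2)).p = F.gΦ e k - e2 - F.gΦ e (k - e2) := by
    change _ - F.gΦ e (F.ι e (F.gΦ e k - e2)) = _
    have h3 := ((F.out e).s2 k).2.2
    change F.ι e (F.gΦ e k - e2) = _ at h3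
    rw [h3]
  rw [h2]
  congr 2
  abel

theorem inc_add {d : V × Bool} {u z : V} (h : inc d u) : inc (z + d.1, d.2) (z + u) := by
  rcases h with h | h
  · left; rw [h]
  · right; simp only; rw [h, add_assoc]

theorem f_grv (hxy : Ind2 x y) (t : T1) (h : (F.rawT t).p ≠ 0) (d d' : V × Bool)
    (hd : inc d 0) (hd' : inc d' 0) (hw : wall (cfg (pr x y) F.rawT t) d)
    (hw' : wall (cfg (pr x y) F.rawT t) d') :
    F.grT (rt (pr x y) d.1 t) d.2 = F.grT (rt (pr x y) d'.1 t) d'.2 := by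
  obtain ⟨e, z, rfl⟩ := F.exists_cell hxy t
  rw [F.wall_cell hxy] at hw hw'
  rw [F.rt_cell, F.rt_cell, F.grT_cell hxy, F.grT_cell hxy]
  have hu : z ∉ Set.range (F.sk e).Φ := by
    intro hz
    apply h
    rw [F.rawT_cell hxy]
    exact (F.conf_p e z).2 hz
  have h1 := inc_add (z := z) hd
  have h2 := inc_add (z := z) hd'
  rw [add_zero] at h1 h2
  rw [(F.out e).gv_eq hu h1 h2 hw hw']

theorem f_bpr (hxy : Ind2 x y) (t : T1) :
    F.bpT (rt (pr x y) (-(F.rawT t).p) t) = F.bpT t := by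
  obtain ⟨e, z, rfl⟩ := F.exists_cell hxy t
  rw [F.rawT_cell hxy, F.rt_cell, F.bpT_cell hxy, F.bpT_cell hxy]
  have h1 : z + -(F.conf e z).p = F.gΦ e (F.ι e z) := by
    change z + -(z - F.gΦ e (F.ι e z)) = _
    abel
  rw [h1, F.ι_gΦ]

theorem f_bpW (hxy : Ind2 x y) (t : T1) (h : (F.rawT t).p = 0) :
    F.bpT (rt (pr x y) (-e1) t) =
    if (F.rawT t).g.a then rt (pr F.x' F.y') (-e1) (F.bpT t) else F.bpT t := by
  obtain ⟨e, k, rfl⟩ := F.exists_root hxy h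
  rw [F.rt_cell, F.rawT_cell hxy, F.bpT_cell hxy, F.bpT_cell hxy, F.conf_of_root, F.ι_gΦ,
    ← sub_eq_add_neg]
  have h3 := ((F.out e).s2 k).2.1
  change F.ι e (F.gΦ e k - e1) = _ at h3
  rw [h3, F.bk_sub1 e k, ← F.eb_coe]
  split_ifs
  · rw [sub_eq_add_neg]
  · rfl

theorem f_bpS (hxy : Ind2 x y) (t : T1) (h : (F.rawT t).p = 0) :
    F.bpT (rt (pr x y) (-e2) t) =
    if (F.rawT t).g.b then rt (pr F.x' F.y') (-e2) (F.bpT t) else F.bpT t := by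
  obtain ⟨e, k, rfl⟩ := F.exists_root hxy h
  rw [F.rt_cell, F.rawT_cell hxy, F.bpT_cell hxy, F.bpT_cell hxy, F.conf_of_root, F.ι_gΦ,
    ← sub_eq_add_neg]
  have h3 := ((F.out e).s2 k).2.2
  change F.ι e (F.gΦ e k - e2) = _ at h3
  rw [h3, F.bk_sub2 e k, ← F.eb_coe]
  split_ifs
  · rw [sub_eq_add_neg]
  · rfl

theorem bit_coe1 (s : ℝ) : bit F.x' (s : T1) = F.c1 s := by
  unfold bit c1
  rw [rep_coe]

theorem bit_coe2 (s : ℝ) : bit F.y' (s : T1) = F.c2 s := by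
  unfold bit c2
  rw [rep_coe]

theorem f_tg (hxy : Ind2 x y) (t : T1) :
    TGs (F.rawT t).g (fun w => bit F.x' (rt (pr F.x' F.y') w (F.bpT t)))
    (fun w => bit F.y' (rt (pr F.x' F.y') w (F.bpT t))) := by
  obtain ⟨e, z, rfl⟩ := F.exists_cell hxy t
  rw [F.rawT_cell hxy, F.bpT_cell hxy]
  change TGs (F.gl e (F.ι e z)) _ _
  generalize F.ι e z = k
  have h0 : ∀ w : V, rt (pr F.x' F.y') w ((F.eb e (F.bk k) : ℝ) : T1) =
      ((F.eb e (F.bk k) + ph F.x' F.y' w : ℝ) : T1) := fun w => rt_coe' _ _ _ _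
  have p0 : ph F.x' F.y' 0 = 0 := by simp [ph]
  have p1 : ph F.x' F.y' e1 = F.x' := by simp [ph, e1]
  have p2 : ph F.x' F.y' e2 = F.y' := by simp [ph, e2]
  unfold TGs
  simp only [h0, F.bit_coe1, F.bit_coe2, p0, p1, p2, add_zero]
  unfold gl lbl
  simp only
  refine ⟨?_, trivial, ?_, trivial⟩
  · by_cases hb : F.rb k = 0 <;> simp [hb]
  · by_cases ha : F.ra k = 0 <;> simp [ha]

theorem f_blk_bp (hxy : Ind2 x y) (t : T1) (z : V) :
    F.bpT (rt (pr x y) z t) = rt (pr F.x' F.y') (F.blkT t z) (F.bpT t) := by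
  obtain ⟨e, z0, rfl⟩ := F.exists_cell hxy t
  rw [F.rt_cell, F.bpT_cell hxy, F.bpT_cell hxy, F.blkT_cell hxy, ← F.eb_coe]
  congr 2
  abel

theorem f_blk_le (hxy : Ind2 x y) (t : T1) (z : V) : 2 * nn (F.blkT t z) ≤ nn z + 2 := by
  obtain ⟨e, z0, rfl⟩ := F.exists_cell hxy t
  rw [F.blkT_cell hxy]
  exact F.bk_le e z0 z

theorem f_lift (hxy : Ind2 x y) (t : T1) (o : Bool) (r : T1) (o' : Bool)
    (hw : wall (cfg (pr x y) F.rawT t) (0, o)) (hg : F.grT t o = (r, o'))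
    (hs : sf o' (F.rawT r).g = true) :
    (F.bpT r = F.bpT t ∧
      rt (pr F.x' F.y') (-(nv o')) (F.bpT r) = F.bpT (rt (pr x y) (-(nv o)) t)) ∨
    (F.bpT r = F.bpT (rt (pr x y) (-(nv o)) t) ∧
      rt (pr F.x' F.y') (-(nv o')) (F.bpT r) = F.bpT t) := by
  obtain ⟨e, z, rfl⟩ := F.exists_cell hxy t
  rw [F.wall_cell0 hxy] at hw
  rw [F.grT_cell hxy, Prod.mk.injEq] at hg
  obtain ⟨rfl, rfl⟩ := hg
  rw [F.rawT_cell hxy, F.conf_of_root] at hs
  have hk := ge_cases ((F.out e).nbv z o) hw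
  change (_ = (Skew.Out.gv (F.ι e) (z, o)).1 ∧ _ = (Skew.Out.gv (F.ι e) (z, o)).1 -
    nv (Skew.Out.gv (F.ι e) (z, o)).2) ∨ (_ = (Skew.Out.gv (F.ι e) (z, o)).1 ∧
    _ = (Skew.Out.gv (F.ι e) (z, o)).1 - nv (Skew.Out.gv (F.ι e) (z, o)).2) at hk
  have hb := F.bk_subn e _ _ hs
  rw [F.rt_cell, F.bpT_cell hxy, F.bpT_cell hxy, F.bpT_cell hxy, F.ι_gΦ, ← F.eb_coe,
    ← sub_eq_add_neg, ← sub_eq_add_neg, ← hb]
  rcases hk with ⟨k1, k2⟩ | ⟨k1, k2⟩
  · left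
    rw [← k2, ← k1]
    exact ⟨rfl, rfl⟩
  · right
    rw [← k2, ← k1]
    exact ⟨rfl, rfl⟩

theorem cell_zero0 : F.cell 0 0 = 0 := by
  unfold cell
  simp [ph]

theorem rt_zero_cell (z : V) : rt (pr x y) z 0 = F.cell 0 z := by
  rw [← F.cell_zero0, F.rt_cell, zero_add]

theorem Om_nonempty (hxy : Ind2 x y) : ((x / 2 : ℝ) : T1) ∈ Om (pr x y) := by
  intro z hz
  have h1 : rt (pr x y) z 0 = ((0 + ph x y z : ℝ) : T1) := rt_coe' x y z 0
  rw [h1, coe_eq_iff] at hz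
  obtain ⟨n, hn⟩ := hz
  have h2 := hxy (2 * z.1 - 1) (2 * z.2) (-(2 * n)) (by unfold ph at hn; push_cast; linarith)
  omega

theorem ι_root (e : ℝ) : F.ι e 0 = 0 ∧ F.gΦ e 0 = 0 := by
  have h := F.gΦ_shift e 0 0
  have h0 : F.gΦ e 0 = 0 := by
    unfold gΦ bk ra rb off sh big eb PP QQ
    simp [ph]
  refine ⟨?_, h0⟩
  have h2 := F.ι_gΦ e 0
  rwa [h0] at h2

theorem f_core (hxy : Ind2 x y) : ∃ t ∈ Om (pr x y), ∀ z o, nn z ≤ 3 → nn (z - nv o) ≤ 3 →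
    ¬ wall (cfg (pr x y) F.rawT t) (z, o) := by
  obtain ⟨e, z0, h0⟩ := F.exists_cell hxy ((x / 2 : ℝ) : T1)
  have ht := Om_nonempty hxy
  rw [h0] at ht
  have ht2 := Om_rt ht ((4, 4) - z0)
  rw [F.rt_cell] at ht2
  have h1 : z0 + ((4, 4) - z0) = ((4, 4) : V) := by abel
  rw [h1] at ht2
  refine ⟨_, ht2, ?_⟩
  intro z o hz hzo
  rw [F.wall_cell hxy]
  have hρ := G.hρ
  have key : ∀ w : V, nn w ≤ 3 → F.ι e ((4, 4) + w) = 0 := by
    intro w hw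
    have h7 := (F.out e).s7 0 (4 + w.1) (4 + w.2)
    change _ → _ → _ → _ → F.ι e (F.gΦ e 0 + (4 + w.1, 4 + w.2)) = 0 at h7
    rw [(F.ι_root e).2, zero_add] at h7
    unfold nn at hw
    have a1 := abs_nonneg w.1
    have a2 := abs_nonneg w.2
    have b1 := abs_le.1 (show |w.1| ≤ 3 by linarith)
    have b2 := abs_le.1 (show |w.2| ≤ 3 by linarith)
    exact h7 (by linarith [b1.1]) (by linarith [b1.2]) (by linarith [b2.1]) (by linarith [b2.2])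
  have h2 := key z hz
  have h3 := key (z - nv o) hzo
  intro hw
  apply hw
  simp only
  rw [h2]
  have h4 : (4, 4) + z - (if o = true then e1 else e2) = ((4, 4) : V) + (z - nv o) := by
    unfold nv
    abel
  rw [h4, h3]

theorem f_surj (hxy : Ind2 x y) : ∀ u ∈ Om (pr F.x' F.y'), ∃ t ∈ Om (pr x y), F.bpT t = u := by
  intro u hu
  refine ⟨F.cell (rep u) 0, ?_, ?_⟩
  · intro z hz
    rw [F.rt_zero_cell] at hz
    obtain ⟨i, m, h1, h2⟩ := F.cell_eq' hxy hz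
    apply hu (-i)
    have h3 : rt (pr F.x' F.y') (-i) 0 = ((0 + ph F.x' F.y' (-i) : ℝ) : T1) := rt_coe' _ _ _ 0
    rw [h3, ← coe_rep u, coe_eq_iff]
    refine ⟨-m, ?_⟩
    rw [ph_neg]
    unfold eb at h1
    push_cast
    linarith
  · rw [F.bpT_cell hxy, (F.ι_root _).1]
    have h1 : F.bk 0 = 0 := by unfold bk; simp
    rw [h1]
    unfold eb
    simp [ph, coe_rep]

theorem f_om_bp (hxy : Ind2 x y) : ∀ t ∈ Om (pr x y), F.bpT t ∈ Om (pr F.x' F.y') := by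
  intro t ht w hw
  obtain ⟨e, z, rfl⟩ := F.exists_cell hxy t
  rw [F.bpT_cell hxy] at hw
  have h3 : rt (pr F.x' F.y') w 0 = ((0 + ph F.x' F.y' w : ℝ) : T1) := rt_coe' _ _ _ 0
  rw [h3, coe_eq_iff] at hw
  obtain ⟨n, hn⟩ := hw
  set j := F.bk (F.ι e z) with hj
  have h4 : e = F.eb 0 (w - j) + n := by
    unfold eb at hn ⊢
    rw [ph_sub]
    linarith
  apply ht (F.big 0 (w - j) + z)
  rw [F.rt_zero_cell, F.cell_big, h4, F.cell_per]

end Frame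

end BU39
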