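import Pool.Agent.LibBU39.L07c

/-!
LEVEL, assembly, part d: local constancy; the level of a frame.
-/

namespace BU39

open Topology Filter

theorem ev_floor {τ : ℝ} (h0 : ∀ n : ℤ, τ ≠ n) : ∀ᶠ τ' in 𝓝 τ, ⌊τ'⌋ = ⌊τ⌋ := by
  have h1 : (⌊τ⌋ : ℝ) < τ := lt_of_le_of_ne (Int.floor_le τ) (fun h => h0 _ h.symm)
  have h2 : τ < ⌊τ⌋ + 1 := Int.lt_floor_add_one τ
  filter_upwards [lt_mem_nhds h1, gt_mem_nhds h2] with a ha hb
  rw [Int.floor_eq_iff]
  exact ⟨ha.le, hb⟩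

theorem ev_bit {x τ : ℝ} (h0 : ∀ n : ℤ, τ ≠ n) (h1 : ∀ n : ℤ, τ + x ≠ n) :
    ∀ᶠ τ' in 𝓝 τ, decide (1 ≤ Int.fract τ' + x) = decide (1 ≤ Int.fract τ + x) := by
  have hf := ev_floor h0
  rcases lt_trichotomy (Int.fract τ + x) 1 with h | h | h
  · have h2 : τ - ⌊τ⌋ + x < 1 := h
    have hc : ContinuousAt (fun s : ℝ => s - (⌊τ⌋ : ℝ) + x) τ := by fun_prop
    filter_upwards [hf, hc.eventually (gt_mem_nhds h2)] with a ha hb
    have h3 : Int.fract a + x < 1 := by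
      unfold Int.fract
      rw [ha]
      exact hb
    rw [decide_eq_false (not_le.2 h3), decide_eq_false (not_le.2 h)]
  · exfalso
    apply h1 (⌊τ⌋ + 1)
    unfold Int.fract at h
    push_cast
    linarith
  · have h2 : 1 < τ - ⌊τ⌋ + x := h
    have hc : ContinuousAt (fun s : ℝ => s - (⌊τ⌋ : ℝ) + x) τ := by fun_prop
    filter_upwards [hf, hc.eventually (lt_mem_nhds h2)] with a ha hb
    have h3 : 1 < Int.fract a + x := by
      unfold Int.fract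
      rw [ha]
      exact hb
    rw [decide_eq_true h3.le, decide_eq_true h.le]

/-- The real number `τ` is not in the orbit of `0`. -/
def GenR (x y τ : ℝ) : Prop := ∀ (j : V) (n : ℤ), τ + ph x y j ≠ n

theorem genR_of_Om {x y τ : ℝ} (h : (τ : T1) ∈ Om (pr x y)) : GenR x y τ := by
  intro j n hn
  apply h (-j)
  rw [show (0 : T1) = ((0 : ℝ) : T1) from rfl, rt_coe', coe_eq_iff]
  refine ⟨n, ?_⟩
  rw [ph_neg]
  linarith

theorem ev_bit_Om {x y : ℝ} {t : T1} (h : t ∈ Om (pr x y)) :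
    ∀ᶠ t' in 𝓝 t, bit x t' = bit x t ∧ bit y t' = bit y t := by
  have h1 : ((rep t : ℝ) : T1) ∈ Om (pr x y) := by rwa [coe_rep]
  have hg := genR_of_Om h1
  have g0 : ∀ n : ℤ, rep t ≠ n := by
    intro n hn
    exact hg 0 n (by simpa [ph] using hn)
  have g1 : ∀ n : ℤ, rep t + x ≠ n := by
    intro n hn
    exact hg e1 n (by simpa [ph, e1] using hn)
  have g2 : ∀ n : ℤ, rep t + y ≠ n := by
    intro n hn
    exact hg e2 n (by simpa [ph, e2] using hn)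
  have h2 : 𝓝 t ≤ map (fun s : ℝ => (s : T1)) (𝓝 (rep t)) := by
    have h3 := (QuotientAddGroup.isOpenMap_coe (N := AddSubgroup.zmultiples (1 : ℝ))).nhds_le (rep t)
    have h4 : ((rep t : ℝ) : T1) = t := coe_rep t
    calc 𝓝 t = 𝓝 ((rep t : ℝ) : T1) := by rw [h4]
      _ ≤ _ := h3
  apply h2
  rw [mem_map]
  have hf : Int.fract (rep t) = rep t := Int.fract_eq_self.2 (rep_mem t)
  filter_upwards [ev_bit g0 g1, ev_bit g0 g2] with s hs1 hs2
  rw [hf] at hs1 hs2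
  have e3 : bit x (s : T1) = decide (1 ≤ Int.fract s + x) := by unfold bit; rw [rep_coe]
  have e4 : bit y (s : T1) = decide (1 ≤ Int.fract s + y) := by unfold bit; rw [rep_coe]
  exact ⟨e3.trans hs1, e4.trans hs2⟩

namespace Frame

variable {G : GeoC} {K1 : ℤ} {x y : ℝ} (F : Frame G K1 x y)

theorem nhds_cell {e : ℝ} {z : V} (h0 : 0 < e) (h1 : e < 1) {Q : T1 → Prop}
    (h : ∀ᶠ e' in 𝓝 e, Q (F.cell e' z)) : ∀ᶠ t' in 𝓝 (F.cell e z), Q t' := by
  have hδ := F.hδ0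
  set τ : ℝ := F.δ * Int.fract e + ph x y z with hτ
  have hfe : Int.fract e = e := Int.fract_eq_self.2 ⟨h0.le, h1⟩
  have h2 : 𝓝 (F.cell e z) ≤ map (fun s : ℝ => (s : T1)) (𝓝 τ) :=
    (QuotientAddGroup.isOpenMap_coe (N := AddSubgroup.zmultiples (1 : ℝ))).nhds_le τ
  apply h2
  rw [mem_map]
  have hc : Tendsto (fun s : ℝ => (s - ph x y z) / F.δ) (𝓝 τ) (𝓝 e) := by
    have hc1 : ContinuousAt (fun s : ℝ => (s - ph x y z) / F.δ) τ := by fun_prop
    have hv : (τ - ph x y z) / F.δ = e := by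
      rw [hτ, hfe]
      field_simp
      ring
    have := hc1.tendsto
    simp only [hv] at this
    exact this
  filter_upwards [hc.eventually h, hc.eventually (lt_mem_nhds h0), hc.eventually (gt_mem_nhds h1)]
    with s hs1 hs2 hs3
  have h3 : F.cell ((s - ph x y z) / F.δ) z = (s : T1) := by
    unfold cell
    rw [Int.fract_eq_self.2 ⟨hs2.le, hs3⟩]
    congr 1
    field_simp
    ring
  rw [h3] at hs1
  exact hs1

/-- A representation of a generic phase. -/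
theorem exists_gen (hxy : Ind2 x y) {t : T1} (ht : t ∈ Om (pr x y)) :
    ∃ (e : ℝ) (z : V), t = F.cell e z ∧ 0 < e ∧ e < 1 ∧ GenR F.x' F.y' e := by
  obtain ⟨e, z, n, h0, h1, h⟩ := F.exists_rep hxy (rep t)
  have h2 : t = F.cell e z := by
    rw [← coe_rep t]
    unfold cell
    rw [Int.fract_eq_self.2 ⟨h0, h1⟩, coe_eq_iff]
    exact ⟨n, h⟩
  have hg : GenR F.x' F.y' e := by
    intro j m hm
    apply ht (F.big 0 (-j) + z)
    rw [F.rt_zero_cell, F.cell_big, h2]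
    have h4 : e = F.eb 0 (-j) + m := by
      unfold eb
      rw [ph_neg]
      linarith
    rw [h4, F.cell_per]
  refine ⟨e, z, h2, ?_, h1, hg⟩
  rcases h0.lt_or_eq with h3 | h3
  · exact h3
  · exfalso
    exact hg 0 0 (by rw [← h3]; simp [ph])

variable {F} {e : ℝ}

theorem ev_eb (hg : GenR F.x' F.y' e) (j : V) :
    ∀ᶠ e' in 𝓝 e, ⌊F.eb e' j⌋ = ⌊F.eb e j⌋ := by
  have h1 : ∀ n : ℤ, F.eb e j ≠ n := fun n => hg j n
  have hc : ContinuousAt (fun s : ℝ => F.eb s j) e := by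
    unfold eb
    fun_prop
  exact hc.eventually (ev_floor h1)

theorem ev_c1 (hg : GenR F.x' F.y' e) (j : V) :
    ∀ᶠ e' in 𝓝 e, F.c1 (F.eb e' j) = F.c1 (F.eb e j) := by
  have h1 : ∀ n : ℤ, F.eb e j ≠ n := fun n => hg j n
  have h2 : ∀ n : ℤ, F.eb e j + F.x' ≠ n := by
    intro n hn
    refine hg (j + e1) n ?_
    rw [ph_add]
    have : ph F.x' F.y' e1 = F.x' := by simp [ph, e1]
    rw [this]
    unfold eb at hn
    linarith
  have hc : ContinuousAt (fun s : ℝ => F.eb s j) e := by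
    unfold eb
    fun_prop
  exact hc.eventually (ev_bit h1 h2)

theorem ev_c2 (hg : GenR F.x' F.y' e) (j : V) :
    ∀ᶠ e' in 𝓝 e, F.c2 (F.eb e' j) = F.c2 (F.eb e j) := by
  have h1 : ∀ n : ℤ, F.eb e j ≠ n := fun n => hg j n
  have h2 : ∀ n : ℤ, F.eb e j + F.y' ≠ n := by
    intro n hn
    refine hg (j + e2) n ?_
    rw [ph_add]
    have : ph F.x' F.y' e2 = F.y' := by simp [ph, e2]
    rw [this]
    unfold eb at hn
    linarith
  have hc : ContinuousAt (fun s : ℝ => F.eb s j) e := by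
    unfold eb
    fun_prop
  exact hc.eventually (ev_bit h1 h2)

theorem eb_e1 (e : ℝ) (j : V) : F.eb e j + F.x' = F.eb e (j + e1) := by
  unfold eb
  rw [ph_add]
  have : ph F.x' F.y' e1 = F.x' := by simp [ph, e1]
  rw [this]
  ring

theorem eb_e2 (e : ℝ) (j : V) : F.eb e j + F.y' = F.eb e (j + e2) := by
  unfold eb
  rw [ph_add]
  have : ph F.x' F.y' e2 = F.y' := by simp [ph, e2]
  rw [this]
  ring

theorem ev_gΦ (hg : GenR F.x' F.y' e) (k : V) : ∀ᶠ e' in 𝓝 e, F.gΦ e' k = F.gΦ e k := by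
  have h0 : ∀ᶠ e' in 𝓝 e, ⌊e'⌋ = ⌊e⌋ := by
    refine ev_floor ?_
    intro n hn
    exact hg 0 n (by simpa [ph] using hn)
  filter_upwards [h0, ev_eb hg (F.bk k), ev_c1 hg (F.bk k), ev_c2 hg (F.bk k),
    ev_c2 hg (F.bk k + e1)] with e' a0 a1 a2 a3 a4
  unfold gΦ big off sh
  rw [eb_e1, eb_e1, a0, a1, a2, a3, a4]

theorem ev_gl (hg : GenR F.x' F.y' e) (k : V) : ∀ᶠ e' in 𝓝 e, F.gl e' k = F.gl e k := by
  filter_upwards [ev_c1 hg (F.bk k), ev_c2 hg (F.bk k),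
    ev_c1 hg (F.bk k + e2), ev_c2 hg (F.bk k + e1)] with e' a2 a3 a4 a5
  unfold gl lbl
  rw [eb_e1, eb_e1, eb_e2, eb_e2, a2, a3, a4, a5]

theorem ev_ι (hg : GenR F.x' F.y' e) (z : V) : ∀ᶠ e' in 𝓝 e, F.ι e' z = F.ι e z := by
  set k := F.ι e z with hk
  filter_upwards [ev_gΦ hg k, ev_gΦ hg (k + e1), ev_gΦ hg (k + e2), ev_gΦ hg (k + e2 + e1),
    ev_gΦ hg (k + e1 + e2)] with e' a0 a1 a2 a3 a4
  rw [(F.out e').s1]
  have h := ((F.out e).s1 z k).1 hk.symm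
  have d1 : (F.sk e').D1 k = (F.sk e).D1 k := by
    change F.gΦ e' (k + e1) - F.gΦ e' k = F.gΦ e (k + e1) - F.gΦ e k
    rw [a0, a1]
  have d2 : (F.sk e').D2 k = (F.sk e).D2 k := by
    change F.gΦ e' (k + e2) - F.gΦ e' k = F.gΦ e (k + e2) - F.gΦ e k
    rw [a0, a2]
  have d3 : (F.sk e').D1 (k + e2) = (F.sk e).D1 (k + e2) := by
    change F.gΦ e' (k + e2 + e1) - F.gΦ e' (k + e2) = F.gΦ e (k + e2 + e1) - F.gΦ e (k + e2)
    rw [a2, a3]
  have d4 : (F.sk e').D2 (k + e1) = (F.sk e).D2 (k + e1) := by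
    change F.gΦ e' (k + e1 + e2) - F.gΦ e' (k + e1) = F.gΦ e (k + e1 + e2) - F.gΦ e (k + e1)
    rw [a1, a4]
  have d0 : (F.sk e').Φ k = (F.sk e).Φ k := a0
  rw [d1, d2, d3, d4, d0]
  exact h

variable (F)

theorem f_loc_raw (hxy : Ind2 x y) : ∀ t ∈ Om (pr x y), ∀ᶠ t' in 𝓝 t, F.rawT t' = F.rawT t := by
  intro t ht
  have hb := ev_bit_Om ht
  obtain ⟨e, z, rfl, h0, h1, hg⟩ := F.exists_gen hxy ht
  have h2 : ∀ᶠ e' in 𝓝 e, (F.rawT (F.cell e' z)).g = (F.rawT (F.cell e z)).g ∧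
      (F.rawT (F.cell e' z)).p = (F.rawT (F.cell e z)).p := by
    filter_upwards [ev_ι hg z, ev_gl hg (F.ι e z), ev_gΦ hg (F.ι e z)] with e' a1 a2 a3
    rw [F.rawT_cell hxy, F.rawT_cell hxy]
    constructor
    · change F.gl e' (F.ι e' z) = F.gl e (F.ι e z)
      rw [a1, a2]
    · change z - F.gΦ e' (F.ι e' z) = z - F.gΦ e (F.ι e z)
      rw [a1, a3]
  have h3 := F.nhds_cell (z := z) h0 h1 (Q := fun t' => (F.rawT t').g = (F.rawT (F.cell e z)).g ∧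
      (F.rawT t').p = (F.rawT (F.cell e z)).p) h2
  filter_upwards [hb, h3] with t' b1 b2
  have c1 := F.f_bits hxy t'
  have c2 := F.f_bits hxy (F.cell e z)
  refine Raw.ext ?_ ?_ b2.1 b2.2
  · rw [c1.1, c2.1, b1.1]
  · rw [c1.2, c2.2, b1.2]

theorem f_loc_bp (hxy : Ind2 x y) : ∀ t ∈ Om (pr x y), ContinuousAt F.bpT t := by
  intro t ht
  obtain ⟨e, z, rfl, h0, h1, hg⟩ := F.exists_gen hxy ht
  rw [ContinuousAt, tendsto_def]
  intro U hU
  have h2 : ∀ᶠ e' in 𝓝 e, F.bpT (F.cell e' z) ∈ U := by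
    rw [F.bpT_cell hxy] at hU
    have hc : ContinuousAt (fun s : ℝ => ((F.eb s (F.bk (F.ι e z)) : ℝ) : T1)) e := by
      have hc1 : Continuous (fun s : ℝ => F.eb s (F.bk (F.ι e z))) := by
        unfold eb
        fun_prop
      exact ((AddCircle.continuous_mk' 1).comp hc1).continuousAt
    filter_upwards [ev_ι hg z, hc hU] with e' a1 a2
    rw [F.bpT_cell hxy, a1]
    exact a2
  exact F.nhds_cell (z := z) h0 h1 (Q := fun t' => F.bpT t' ∈ U) h2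

theorem f_loc_gr (hxy : Ind2 x y) : ∀ t ∈ Om (pr x y), ∀ o, 
    ∃ v o', ∀ᶠ t' in 𝓝 t, F.grT t' o = (rt (pr x y) v t', o') := by
  intro t ht o
  obtain ⟨e, z, rfl, h0, h1, hg⟩ := F.exists_gen hxy ht
  refine ⟨F.gΦ e (Skew.Out.gv (F.ι e) (z, o)).1 - z, (Skew.Out.gv (F.ι e) (z, o)).2, ?_⟩
  refine F.nhds_cell (z := z) h0 h1 ?_
  filter_upwards [ev_ι hg z, ev_ι hg (z - nv o), ev_gΦ hg (Skew.Out.gv (F.ι e) (z, o)).1]
    with e' a1 a2 a3
  rw [F.grT_cell hxy, F.rt_cell]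
  have h2 : Skew.Out.gv (F.ι e') (z, o) = Skew.Out.gv (F.ι e) (z, o) := by
    unfold Skew.Out.gv
    rw [a1, a2]
  rw [h2, a3]
  congr 2
  abel

/-- The level of a frame. -/
noncomputable def phLv (h : IsRN x y) : PhLv (parOf G.ρ K1) x y F.x' F.y' where
  raw := F.rawT
  bp := F.bpT
  gr := F.grT
  blk := F.blkT
  bits := F.f_bits h.ind
  lr := F.f_lr h
  gr0 := F.f_gr0 h.ind
  grW := F.f_grW h.ind
  grS := F.f_grS h.ind
  grv := F.f_grv h.ind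
  bpr := F.f_bpr h.ind
  bpW := F.f_bpW h.ind
  bpS := F.f_bpS h.ind
  tg := F.f_tg h.ind
  blk_bp := F.f_blk_bp h.ind
  blk_le := F.f_blk_le h.ind
  lift := F.f_lift h.ind
  core := F.f_core h.ind
  surj := F.f_surj h.ind
  om_bp := F.f_om_bp h.ind
  loc_raw := F.f_loc_raw h.ind
  loc_bp := F.f_loc_bp h.ind
  loc_gr := fun t ht o _ => F.f_loc_gr h.ind t ht o

theorem isRN (h : IsRN x y) : IsRN F.x' F.y' := ⟨F.hx0, F.hx1, F.hy0, F.hy1, F.ind h.ind⟩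

end Frame

end BU39
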