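import Pool.Agent.LibBU39.Frame

/-!
The grid of a frame (definitions).  `e` is the phase of a block at the next level (only
`Int.fract e` matters).  The root of the block with phase `e` is the cell `0`; the cell `z`
has the phase `δ * fract e + ph x y z` (mod 1).
-/

namespace BU39

/-- Phase of a vector. -/
def ph (x y : ℝ) (w : V) : ℝ := w.1 * x + w.2 * y

namespace Frame

variable {G : GeoC} {K1 : ℤ} {x y : ℝ} (F : Frame G K1 x y)

/-- The two bits of a block with phase `e`. -/
noncomputable def c1 (e : ℝ) : Bool := decide (1 ≤ Int.fract e + F.x')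
noncomputable def c2 (e : ℝ) : Bool := decide (1 ≤ Int.fract e + F.y')

/-- Partial sums. -/
def PP (a : ℕ) : V := ∑ i ∈ Finset.range a, F.P i
def QQ (b : ℕ) : V := ∑ i ∈ Finset.range b, F.Q i

/-- The number of `s` subtracted at the vertex `(a, b)` of the block with phase `e`. -/
noncomputable def sh (e : ℝ) (a b : ℕ) : ℤ :=
  if a = 0 then (if b = 0 then 0 else ((F.c2 e).toNat : ℤ))
  else (F.c1 e).toNat + (if b = 0 then 0 else ((F.c2 (e + F.x')).toNat : ℤ))

/-- Position of the vertex `(a, b)` of the block with phase `e` relative to its root. -/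
noncomputable def off (e : ℝ) (a b : ℕ) : V := F.PP a + F.QQ b - F.sh e a b • F.s

/-- The label of the grid cell `(a, b)` of the block with phase `e`. -/
noncomputable def lbl (e : ℝ) (a b : ℕ) : Gl where
  s := F.s
  P := F.P a
  Q := F.Q b
  a := decide (a = 0)
  b := decide (b = 0)
  t1 := decide (a = 0) && (if b = 0 then F.c1 e else F.c1 (e + F.y'))
  t2 := decide (b = 0) && (if a = 0 then F.c2 e else F.c2 (e + F.x'))
  u1 := decide (a = 0) && F.c1 (e + F.y')
  u2 := decide (b = 0) && F.c2 (e + F.x')

/-- The block that contains the grid cell `k`. -/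
def bk (k : V) : V := (k.1 / F.n1, k.2 / F.n2)

/-- Column and row in the block. -/
def ra (k : V) : ℕ := (k.1 % F.n1).toNat
def rb (k : V) : ℕ := (k.2 % F.n2).toNat

/-- Phase of the block `i` if the block `0` has phase `e` (not reduced mod 1). -/
def eb (e : ℝ) (i : V) : ℝ := e + ph F.x' F.y' i

/-- Root of the block `i`. -/
noncomputable def big (e : ℝ) (i : V) : V :=
  i.1 • F.d1 + i.2 • F.d2 - (⌊F.eb e i⌋ - ⌊e⌋) • F.s

/-- The grid. -/
noncomputable def gΦ (e : ℝ) (k : V) : V :=
  F.big e (F.bk k) + F.off (F.eb e (F.bk k)) (F.ra k) (F.rb k)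

/-- The labels of the grid. -/
noncomputable def gl (e : ℝ) (k : V) : Gl := F.lbl (F.eb e (F.bk k)) (F.ra k) (F.rb k)

end Frame

end BU39
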