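import Pool.Agent.LibBU39.Defs

/-!
Locality of the rules: `vt` and `Reach` depend only on the raw labels in a window.
-/

namespace BU39

variable {K : ℤ} {ξ ξ' : V → Raw} {z z' : V}

theorem S01_root {a d : V} (h : ξ a = ξ' (a + d)) : root ξ' (a + d) = root ξ a + d := by
  unfold root
  rw [h]
  abel

theorem S01_wall {a d : V} {o : Bool} (h1 : ξ a = ξ' (a + d))
    (h2 : ξ (a - (if o then e1 else e2)) = ξ' (a - (if o then e1 else e2) + d)) :
    wall ξ' (a + d, o) ↔ wall ξ (a, o) := by
  unfold wall
  simp only
  have h3 := S01_root h1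
  have h4 := S01_root h2
  have h5 : a + d - (if o = true then e1 else e2) = a - (if o = true then e1 else e2) + d := by abel
  rw [h5, h4, h3]
  simp only [ne_eq, add_left_inj]

theorem S01_link (h : ∀ w, Bd (K + 3) w → ξ (z + w) = ξ' (z' + w)) {e f : V × Bool}
    (hr : Link K ξ z e f) :
    Link K ξ' z' (e.1 + (z' - z), e.2) (f.1 + (z' - z), f.2) := by
  obtain ⟨u, hu, hp, i1, i2, w1, w2⟩ := hr
  have key : ∀ a : V, Bd (K + 3) (a - z) → ξ a = ξ' (a + (z' - z)) := by
    intro a ha
    have := h _ ha
    rw [show z + (a - z) = a by abel, show z' + (a - z) = a + (z' - z) by abel] at this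
    exact this
  have hin : ∀ e : V × Bool, inc e u → inc (e.1 + (z' - z), e.2) (u + (z' - z)) := by
    intro e he
    rcases he with he | he
    · left
      rw [he]
    · right
      rw [he]
      simp only
      abel
  have hwa : ∀ e : V × Bool, inc e u → wall ξ e → wall ξ' (e.1 + (z' - z), e.2) := by
    rintro ⟨a, o⟩ he hw
    obtain ⟨hu1, hu2⟩ := hu
    rw [abs_le] at hu1 hu2
    simp only [Prod.fst_sub, Prod.snd_sub] at hu1 hu2
    refine (S01_wall (key a ?_) (key _ ?_)).2 hw
    · rcases he with he | he
      · simp only at he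
        subst he
        constructor <;> rw [abs_le] <;> simp only [Prod.fst_sub, Prod.snd_sub] <;>
          constructor <;> linarith
      · have h1 := congrArg Prod.fst he
        have h2 := congrArg Prod.snd he
        cases o <;> simp [e1, e2] at h1 h2 <;>
        constructor <;> rw [abs_le] <;> simp only [Prod.fst_sub, Prod.snd_sub] <;>
          constructor <;> linarith
    · rcases he with he | he
      · simp only at he
        subst he
        cases o <;> constructor <;> rw [abs_le] <;> simp [e1, e2] <;>
          constructor <;> linarith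
      · have h1 := congrArg Prod.fst he
        have h2 := congrArg Prod.snd he
        cases o <;> simp [e1, e2] at h1 h2 <;>
        constructor <;> rw [abs_le] <;> simp [e1, e2] <;>
          constructor <;> linarith
  refine ⟨u + (z' - z), ?_, ?_, hin e i1, hin f i2, hwa e i1 w1, hwa f i2 w2⟩
  · rw [show u + (z' - z) - z' = u - z by abel]
    exact hu
  · rw [← key u ⟨hu.1.trans (by linarith), hu.2.trans (by linarith)⟩]
    exact hp

theorem reach_congr (h : ∀ w, Bd (K + 3) w → ξ (z + w) = ξ' (z' + w)) {e f : V × Bool}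
    (hr : Reach K ξ z e f) :
    Reach K ξ' z' (e.1 + (z' - z), e.2) (f.1 + (z' - z), f.2) := by
  unfold Reach at hr ⊢
  induction hr with
  | refl => exact Relation.ReflTransGen.refl
  | tail _ hl ih => exact ih.tail (S01_link h hl)

theorem vt_congr (h : ∀ w, Bd 2 w → ξ (z + w) = ξ' (z' + w)) {w : V} (hw : Bd 1 w) :
    vt ξ (z + w) = vt ξ' (z' + w) := by
  have key : ∀ a : V, Bd 2 (a - z) → ξ a = ξ' (a + (z' - z)) := by
    intro a ha
    have := h _ ha
    rw [show z + (a - z) = a by abel, show z' + (a - z) = a + (z' - z) by abel] at this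
    exact this
  obtain ⟨hw1, hw2⟩ := hw
  rw [abs_le] at hw1 hw2
  have e : z' + w = z + w + (z' - z) := by abel
  rw [e]
  have hw' : ∀ (v : V) (o : Bool), v = 0 ∨ v = e1 ∧ o = false ∨ v = e2 ∧ o = true →
      (wall ξ' (z + w + (z' - z) - v, o) ↔ wall ξ (z + w - v, o)) := by
    intro v o hv
    rw [show z + w + (z' - z) - v = z + w - v + (z' - z) by abel]
    refine S01_wall (key _ ?_) (key _ ?_)
    · rcases hv with rfl | ⟨rfl, rfl⟩ | ⟨rfl, rfl⟩ <;> constructor <;> rw [abs_le] <;>
        simp [e1, e2] <;> constructor <;> linarith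
    · rcases hv with rfl | ⟨rfl, rfl⟩ | ⟨rfl, rfl⟩
      · cases o <;> constructor <;> rw [abs_le] <;>
          simp [e1, e2] <;> constructor <;> linarith
      · constructor <;> rw [abs_le] <;>
          simp [e1, e2] <;> constructor <;> linarith
      · constructor <;> rw [abs_le] <;>
          simp [e1, e2] <;> constructor <;> linarith
  unfold vt
  have a1 := hw' 0 false (Or.inl rfl)
  have a2 := hw' 0 true (Or.inl rfl)
  have a3 := hw' e1 false (Or.inr (Or.inl ⟨rfl, rfl⟩))
  have a4 := hw' e2 true (Or.inr (Or.inr ⟨rfl, rfl⟩))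
  rw [sub_zero, sub_zero] at a1 a2
  simp only [a1, a2, a3, a4]

end BU39
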