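import Pool.Agent.LibBU39.S01

/-!
TASK S02.  Locality of the rules, continued (uses S01).
`LR` at `z` only uses the window of radius `K + 3`; `EH`, `EV` use the window of radius 2.
-/

namespace BU39

variable {P : Par} {ξ ξ' : V → Raw} {z z' : V}

private theorem S02_mono {K L : ℤ} {v : V} (h : Bd K v) (hKL : K ≤ L) : Bd L v :=
  ⟨h.1.trans hKL, h.2.trans hKL⟩

private theorem S02_add {K L : ℤ} {v w : V} (h : Bd K v) (h' : Bd L w) : Bd (K + L) (v + w) :=
  ⟨(abs_add_le _ _).trans (add_le_add h.1 h'.1), (abs_add_le _ _).trans (add_le_add h.2 h'.2)⟩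

private theorem S02_neg {K : ℤ} {v : V} (h : Bd K v) : Bd K (-v) := by
  refine ⟨?_, ?_⟩
  · rw [Prod.fst_neg, abs_neg]; exact h.1
  · rw [Prod.snd_neg, abs_neg]; exact h.2

private theorem S02_zero {K : ℤ} (hK : 0 ≤ K) : Bd K 0 := by
  refine ⟨?_, ?_⟩ <;> simpa using hK

private theorem S02_e1 : Bd 1 e1 := by
  refine ⟨?_, ?_⟩ <;> simp [e1]

private theorem S02_e2 : Bd 1 e2 := by
  refine ⟨?_, ?_⟩ <;> simp [e2]

private theorem S02_root {w : V} (h : ξ (z + w) = ξ' (z' + w)) :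
    root ξ' (z' + w) = root ξ (z + w) + (z' - z) := by
  unfold root
  rw [← h]
  abel

private theorem S02_root0 (h : ξ z = ξ' z') : root ξ' z' = root ξ z + (z' - z) := by
  unfold root
  rw [← h]
  abel

private theorem S02_br {w : V} (h : ξ (z + w) = ξ' (z' + w)) : br ξ' (z' + w) = br ξ (z + w) := by
  unfold br
  rw [← h]

private theorem S02_adj {w : V} (h0 : ξ z = ξ' z') (h : ξ (z + w) = ξ' (z' + w))
    (ha : Adj ξ z (z + w)) : Adj ξ' z' (z' + w) := by
  unfold Adj at ha ⊢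
  rw [S02_root h, S02_root0 h0, ← h, ← h0]
  rcases ha with h1 | h1 | h1 | h1 | h1
  · left; rw [h1]
  · right; left; rw [h1]; abel
  · right; right; left; rw [h1]; abel
  · right; right; right; left; rw [h1]; abel
  · right; right; right; right; rw [h1]; abel

theorem LR.congr (h : ∀ w, Bd (P.K + 3) w → ξ (z + w) = ξ' (z' + w)) (hl : LR P ξ z) :
    LR P ξ' z' := by
  have hK : 0 ≤ P.K := le_trans (abs_nonneg _) hl.bd.1
  have h0 : ξ z = ξ' z' := by
    have h1 := h 0 (S02_zero (by linarith))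
    rwa [add_zero, add_zero] at h1
  have hm : ∀ w, Bd P.K w → ξ (z + w) = ξ' (z' + w) := fun w hw => h w (S02_mono hw (by linarith))
  have hm1 : ∀ w, Bd (P.K + 1) w → ξ (z + w) = ξ' (z' + w) :=
    fun w hw => h w (S02_mono hw (by linarith))
  have h2 : ∀ w, Bd 2 w → ξ (z + w) = ξ' (z' + w) := fun w hw => h w (S02_mono hw (by linarith))
  have h1 : ∀ w, Bd 1 w → ξ (z + w) = ξ' (z' + w) := fun w hw => h w (S02_mono hw (by linarith))
  have hv : vt ξ z = vt ξ' z' := by
    have h3 := vt_congr h2 (S02_zero (K := 1) (by norm_num))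
    rwa [add_zero, add_zero] at h3
  have hr0 : root ξ' z' = root ξ z + (z' - z) := S02_root0 h0
  have hrp : ξ (root ξ z) = ξ' (root ξ' z') := by
    have h3 := hm (-(ξ z).p) (S02_neg hl.bd)
    have h4 : z + -(ξ z).p = root ξ z := by unfold root; abel
    have h5 : z' + -(ξ z).p = root ξ' z' := by unfold root; rw [← h0]; abel
    rwa [h4, h5] at h3
  have hb0 : br ξ' z' = br ξ z := by unfold br; rw [← h0]
  have hb1 : br ξ' (z' + e1) = br ξ (z + e1) := S02_br (h1 _ S02_e1)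
  have hb2 : br ξ' (z' + e2) = br ξ (z + e2) := S02_br (h1 _ S02_e2)
  have hs : ξ (z - (ξ z).g.s) = ξ' (z' - (ξ z).g.s) := by
    have h3 := hm (-(ξ z).g.s) (S02_neg hl.ok.sb)
    rwa [← sub_eq_add_neg, ← sub_eq_add_neg] at h3
  have hB : ξ (z + (ξ z).g.B) = ξ' (z' + (ξ z).g.B) := hm _ hl.ok.Bb
  have hL : ξ (z + (ξ z).g.L) = ξ' (z' + (ξ z).g.L) := hm _ hl.ok.Lb
  refine ⟨?_, ?_, ?_, ?_, ?_, ?_, ?_, ?_, ?_, ?_, ?_, ?_, ?_, ?_, ?_, ?_⟩
  · rw [← h0]; exact hl.ok
  · rw [← h0]; exact hl.bd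
  · rw [← h0]; exact hl.pp
  · rw [← hrp]; exact hl.p0
  · rw [← hrp, ← h0]; exact hl.pg
  · rw [← h0]
    intro hp w hw hpw
    rw [← hm w hw]
    exact hl.fill hp w hw hpw
  · rw [← h0]
    intro hp
    obtain ⟨r1, r2, r3, r4⟩ := hl.rt hp
    refine ⟨?_, ?_, ?_, ?_⟩
    · rw [← hB]; exact r1
    · rw [← hB]; exact r2
    · have h3 := S02_root (hm1 ((ξ z).g.B + -e1) (S02_add hl.ok.Bb (S02_neg S02_e1)))
      have h4 : z' + (ξ z).g.B - e1 = z' + ((ξ z).g.B + -e1) := by abel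
      have h5 : z + (ξ z).g.B - e1 = z + ((ξ z).g.B + -e1) := by abel
      rw [h4, h3, ← h5, r3]
      abel
    · have h6 := h1 (-e1) (S02_neg S02_e1)
      have h3 := S02_root h6
      rw [← sub_eq_add_neg, ← sub_eq_add_neg] at h3 h6
      rw [h3, ← h6]
      have h7 : root ξ (z - e1) + (z' - z) + (ξ (z - e1)).g.B =
          root ξ (z - e1) + (ξ (z - e1)).g.B + (z' - z) := by abel
      rw [h7, r4]
      abel
  · rw [← h0]
    intro hp
    obtain ⟨r1, r2, r3, r4⟩ := hl.up hp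
    refine ⟨?_, ?_, ?_, ?_⟩
    · rw [← hL]; exact r1
    · rw [← hL]; exact r2
    · have h3 := S02_root (hm1 ((ξ z).g.L + -e2) (S02_add hl.ok.Lb (S02_neg S02_e2)))
      have h4 : z' + (ξ z).g.L - e2 = z' + ((ξ z).g.L + -e2) := by abel
      have h5 : z + (ξ z).g.L - e2 = z + ((ξ z).g.L + -e2) := by abel
      rw [h4, h3, ← h5, r3]
      abel
    · have h6 := h1 (-e2) (S02_neg S02_e2)
      have h3 := S02_root h6
      rw [← sub_eq_add_neg, ← sub_eq_add_neg] at h3 h6
      rw [h3, ← h6]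
      have h7 : root ξ (z - e2) + (z' - z) + (ξ (z - e2)).g.L =
          root ξ (z - e2) + (ξ (z - e2)).g.L + (z' - z) := by abel
      rw [h7, r4]
      abel
  · exact S02_adj h0 (h1 _ S02_e1) hl.ad1
  · exact S02_adj h0 (h1 _ S02_e2) hl.ad2
  · rw [← h0, ← hv]; exact hl.vx
  · rw [← h0]
    intro hp
    have h3 := reach_congr h (hl.pH hp)
    have h4 : z + (z' - z) = z' := by abel
    have h5 : z + (ξ z).g.B - e1 + (z' - z) = z' + (ξ z).g.B - e1 := by abel
    rwa [h4, h5] at h3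
  · rw [← h0]
    intro hp
    have h3 := reach_congr h (hl.pV hp)
    have h4 : z + (z' - z) = z' := by abel
    have h5 : z + (ξ z).g.L - e2 + (z' - z) = z' + (ξ z).g.L - e2 := by abel
    rwa [h4, h5] at h3
  · intro o ho
    have hw : wall ξ (z, o) := by
      unfold wall at ho ⊢
      intro h3
      apply ho
      have h6 : ξ (z + -(if o then e1 else e2)) = ξ' (z' + -(if o then e1 else e2)) := by
        apply h1
        apply S02_neg
        cases o
        · exact S02_e2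
        · exact S02_e1
      have h7 := S02_root h6
      rw [← sub_eq_add_neg, ← sub_eq_add_neg] at h7
      change root ξ' (z' - if o then e1 else e2) = root ξ' z'
      rw [h7, hr0]
      exact congrArg (· + (z' - z)) h3
    obtain ⟨r, o', hr1, hr2, hr3⟩ := hl.wl o hw
    refine ⟨r + (z' - z), o', ?_, ?_, ?_⟩
    · have h3 : r + (z' - z) - z' = r - z := by abel
      rw [h3]; exact hr1
    · have h3 := hm (r - z) hr1
      have h4 : z + (r - z) = r := by abel
      have h5 : z' + (r - z) = r + (z' - z) := by abel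
      rw [h4, h5] at h3
      rw [← h3]; exact hr2
    · have h3 := reach_congr h hr3
      have h4 : z + (z' - z) = z' := by abel
      rwa [h4] at h3
  · rw [← h0, ← hs, hb0, hb1]; exact hl.c1
  · rw [← h0, ← hs, hb0, hb2]; exact hl.c2

theorem EH_congr (h : ∀ w, Bd 2 w → ξ (z + w) = ξ' (z' + w)) {c : Cont} (hl : EH ξ z c) :
    EH ξ' z' c := by
  have h1 : ∀ w, Bd 1 w → ξ (z + w) = ξ' (z' + w) := fun w hw => h w (S02_mono hw (by norm_num))
  have h0 : ξ z = ξ' z' := by
    have h1 := h 0 (S02_zero (by norm_num))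
    rwa [add_zero, add_zero] at h1
  have hv : vt ξ z = vt ξ' z' := by
    have h3 := vt_congr h (S02_zero (K := 1) (by norm_num))
    rwa [add_zero, add_zero] at h3
  have hv1 : vt ξ (z + e1) = vt ξ' (z' + e1) := vt_congr h S02_e1
  have h6 := h1 (-e2) (S02_neg S02_e2)
  have h3 := S02_root h6
  rw [← sub_eq_add_neg, ← sub_eq_add_neg] at h3 h6
  unfold EH at hl ⊢
  rw [h3, S02_root0 h0, ← h0, ← hv, ← hv1, ← h6]
  exact ⟨fun h7 => hl.1 (add_right_cancel h7), hl.2⟩

theorem EV_congr (h : ∀ w, Bd 2 w → ξ (z + w) = ξ' (z' + w)) {c : Cont} (hl : EV ξ z c) :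
    EV ξ' z' c := by
  have h1 : ∀ w, Bd 1 w → ξ (z + w) = ξ' (z' + w) := fun w hw => h w (S02_mono hw (by norm_num))
  have h0 : ξ z = ξ' z' := by
    have h1 := h 0 (S02_zero (by norm_num))
    rwa [add_zero, add_zero] at h1
  have hv : vt ξ z = vt ξ' z' := by
    have h3 := vt_congr h (S02_zero (K := 1) (by norm_num))
    rwa [add_zero, add_zero] at h3
  have hv1 : vt ξ (z + e2) = vt ξ' (z' + e2) := vt_congr h S02_e2
  have h6 := h1 (-e1) (S02_neg S02_e1)
  have h3 := S02_root h6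
  rw [← sub_eq_add_neg, ← sub_eq_add_neg] at h3 h6
  unfold EV at hl ⊢
  rw [h3, S02_root0 h0, ← h0, ← hv, ← hv1, ← h6]
  exact ⟨fun h7 => hl.1 (add_right_cancel h7), hl.2⟩

end BU39
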