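import Pool.Agent.LibBU39.Sys
import Pool.Agent.LibBU39.S02

/-!
TASK S03.  Configurations in `GX P` are the same as systems.

(⇒) `ξ z := (X z).1 0`.  Overlap rules give `(X z).1 w = ξ (z + w)` for `Bd (K + 3) w`
(go from `0` to `w` inside the window by unit steps: if `0 < w.1` use
`(X z).1 w = (X (z + e1)).1 (w - e1)`, and so on; induction on `|w.1| + |w.2|`).  Then
`LR`, `EH`, `EV` follow with S02; outside the window `(X z).1` is `dflt`.
(⇐) similarly.  Note `0 ≤ K` by `LR.bd`.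
-/

namespace BU39

variable {P : Par}

private theorem S03_K (ξ : V → Raw) (z : V) (h : LR P ξ z) : 0 ≤ P.K :=
  le_trans (abs_nonneg _) h.bd.1

private theorem S03_hor {K : ℤ} (μ : V → V → Raw)
    (h1 : ∀ z w, Bd (K + 3) w → Bd (K + 3) (w + e1) → μ z w = μ (z - e1) (w + e1)) (y : ℤ)
    (hy : |y| ≤ K + 3) : ∀ (n : ℕ) (x : ℤ) (z : V), x.natAbs = n → |x| ≤ K + 3 →
      μ z (x, y) = μ (z + (x, 0)) (0, y) := by
  intro n
  induction n with
  | zero =>
    intro x z hx _
    have hx0 : x = 0 := Int.natAbs_eq_zero.mp hx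
    subst hx0
    congr 1
    ext <;> simp
  | succ n ih =>
    intro x z hx hxb
    rcases lt_trichotomy x 0 with hneg | h0 | hpos
    · -- move to the left neighbour
      have hb' : |x + 1| ≤ K + 3 := by rw [abs_le] at hxb ⊢; constructor <;> omega
      have e : ((x, y) : V) + e1 = (x + 1, y) := by ext <;> simp [e1]
      have h2 := h1 z (x, y) ⟨hxb, hy⟩ (by rw [e]; exact ⟨hb', hy⟩)
      rw [e] at h2
      rw [h2, ih (x + 1) (z - e1) (by omega) hb']
      congr 1
      ext <;> simp [e1]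
    · omega
    · have hb' : |x - 1| ≤ K + 3 := by rw [abs_le] at hxb ⊢; constructor <;> omega
      have e : ((x - 1, y) : V) + e1 = (x, y) := by ext <;> simp [e1]
      have h2 := h1 (z + e1) (x - 1, y) ⟨hb', hy⟩ (by rw [e]; exact ⟨hxb, hy⟩)
      rw [e, add_sub_cancel_right] at h2
      rw [← h2, ih (x - 1) (z + e1) (by omega) hb']
      congr 1
      ext <;> simp [e1]

private theorem S03_ver {K : ℤ} (μ : V → V → Raw)
    (h2 : ∀ z w, Bd (K + 3) w → Bd (K + 3) (w + e2) → μ z w = μ (z - e2) (w + e2))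
    (hK : 0 ≤ K) : ∀ (n : ℕ) (y : ℤ) (z : V), y.natAbs = n → |y| ≤ K + 3 →
      μ z (0, y) = μ (z + (0, y)) 0 := by
  have h0 : |(0 : ℤ)| ≤ K + 3 := by rw [abs_zero]; omega
  intro n
  induction n with
  | zero =>
    intro y z hy _
    have hy0 : y = 0 := Int.natAbs_eq_zero.mp hy
    subst hy0
    have : z + ((0, 0) : V) = z := by ext <;> simp
    rw [this]
    rfl
  | succ n ih =>
    intro y z hy hyb
    rcases lt_trichotomy y 0 with hneg | h0' | hpos
    · have hb' : |y + 1| ≤ K + 3 := by rw [abs_le] at hyb ⊢; constructor <;> omega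
      have e : ((0, y) : V) + e2 = (0, y + 1) := by ext <;> simp [e2]
      have h3 := h2 z (0, y) ⟨h0, hyb⟩ (by rw [e]; exact ⟨h0, hb'⟩)
      rw [e] at h3
      rw [h3, ih (y + 1) (z - e2) (by omega) hb']
      congr 1
      ext <;> simp [e2]
    · omega
    · have hb' : |y - 1| ≤ K + 3 := by rw [abs_le] at hyb ⊢; constructor <;> omega
      have e : ((0, y - 1) : V) + e2 = (0, y) := by ext <;> simp [e2]
      have h3 := h2 (z + e2) (0, y - 1) ⟨h0, hb'⟩ (by rw [e]; exact ⟨h0, hyb⟩)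
      rw [e, add_sub_cancel_right] at h3
      rw [← h3, ih (y - 1) (z + e2) (by omega) hb']
      congr 1
      ext <;> simp [e2]

theorem exists_sys {X : V → Cell} (hX : X ∈ GX P) : ∃ S : LSys P, ∀ z, S.cell z = X z := by
  have hR : ∀ z, CellBd P.K (X z) ∧ Rule P (X z) (X (z - e1)) (X (z - e2)) := hX
  have hlr0 : ∀ z, LR P (X z).1 0 := fun z => (hR z).2.1.2.1
  have hK : 0 ≤ P.K := S03_K _ _ (hlr0 0)
  have hv : ∀ z w, Bd (P.K + 3) w → Bd (P.K + 3) (w + e2) →
      (X z).1 w = (X (z - e2)).1 (w + e2) := fun z w => (hR z).2.1.2.2.1 w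
  have hh : ∀ z w, Bd (P.K + 3) w → Bd (P.K + 3) (w + e1) →
      (X z).1 w = (X (z - e1)).1 (w + e1) := fun z w => (hR z).2.2.1.2.2.1 w
  set ξ : V → Raw := fun z => (X z).1 0 with hξ
  have hw : ∀ z w, Bd (P.K + 3) w → (X z).1 w = ξ (z + w) := by
    intro z w hw
    have a1 := S03_hor (K := P.K) (fun z => (X z).1) hh w.2 hw.2 _ w.1 z rfl hw.1
    have a2 := S03_ver (K := P.K) (fun z => (X z).1) hv hK _ w.2 (z + (w.1, 0)) rfl hw.2
    have e1 : ((w.1, w.2) : V) = w := rfl
    have e2 : z + ((w.1, 0) : V) + (0, w.2) = z + w := by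
      ext <;> simp
    rw [e1] at a1
    rw [e2] at a2
    exact a1.trans a2
  have hB2 : ∀ w : V, Bd 2 w → Bd (P.K + 3) w := fun w h =>
    ⟨h.1.trans (by omega), h.2.trans (by omega)⟩
  have hcong : ∀ z w, Bd (P.K + 3) w → (X z).1 (0 + w) = ξ (z + w) := by
    intro z w h
    rw [zero_add]
    exact hw z w h
  refine ⟨{ ξ := ξ
            h := fun z => (X z).2.1
            v := fun z => (X z).2.2
            lr := fun z => (hlr0 z).congr (hcong z)
            eh := fun z => EH_congr (fun w h => hcong z w (hB2 w h)) (hR z).2.1.2.2.2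
            ev := fun z => EV_congr (fun w h => hcong z w (hB2 w h)) (hR z).2.2.1.2.2.2
            vr := fun z => (hR z).2.2.2 }, ?_⟩
  intro z
  show (win P.K ξ z, (X z).2.1, (X z).2.2) = X z
  have : win P.K ξ z = (X z).1 := by
    funext w
    rw [win]
    by_cases h : |w.1| ≤ P.K + 3 ∧ |w.2| ≤ P.K + 3
    · rw [if_pos h]
      exact (hw z w h).symm
    · rw [if_neg h]
      exact (((hR z).1.1 w).2 h).symm
  rw [this]

/-- Bounds of the raw labels of a system that comes from a configuration. -/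
theorem cell_mem (S : LSys P) (hb : ∀ z, RawBd P.K (S.ξ z))
    (hc : ∀ z, ContBd P.K (S.h z) ∧ ContBd P.K (S.v z)) :
    (fun z => S.cell z) ∈ GX P := by
  have hK : 0 ≤ P.K := S03_K _ _ (S.lr 0)
  have hd : RawBd P.K dflt := by
    have h0 : Bd P.K 0 := by
      constructor <;> simpa using hK
    exact ⟨h0, h0, h0, h0⟩
  have hwin : ∀ z w, Bd (P.K + 3) w → win P.K S.ξ z w = S.ξ (z + w) := by
    intro z w h
    exact if_pos h
  have hcong : ∀ z w, Bd (P.K + 3) w → S.ξ (z + w) = win P.K S.ξ z (0 + w) := by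
    intro z w h
    rw [zero_add, hwin z w h]
  have hB2 : ∀ w : V, Bd 2 w → Bd (P.K + 3) w := fun w h =>
    ⟨h.1.trans (by omega), h.2.trans (by omega)⟩
  have hLR : ∀ z, LR P (win P.K S.ξ z) 0 := fun z => (S.lr z).congr (hcong z)
  intro z
  refine ⟨⟨?_, (hc z).1, (hc z).2⟩, ⟨?_, ?_, S.vr z⟩⟩
  · intro w
    refine ⟨?_, ?_⟩
    · show RawBd P.K (win P.K S.ξ z w)
      rw [win]
      split_ifs
      · exact hb _
      · exact hd
    · intro h
      show win P.K S.ξ z w = dflt
      exact if_neg h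
  · refine ⟨hLR _, hLR _, ?_, EH_congr (fun w h => hcong z w (hB2 w h)) (S.eh z)⟩
    intro w h h'
    show win P.K S.ξ z w = win P.K S.ξ (z - e2) (w + e2)
    rw [hwin z w h, hwin _ _ h']
    congr 1
    abel
  · refine ⟨hLR _, hLR _, ?_, EV_congr (fun w h => hcong z w (hB2 w h)) (S.ev z)⟩
    intro w h h'
    show win P.K S.ξ z w = win P.K S.ξ (z - e1) (w + e1)
    rw [hwin z w h, hwin _ _ h']
    congr 1
    abel

end BU39
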