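import Pool.Agent.LibBU39.Sys

/-!
TASK S05.  Two walls that meet at a vertex which is not a root have the same content.

Let `u` be the vertex, `τ := vt ξ u`, `τ.cnt ≤ 2` by `LR.vx`.  If `e = e'` there is nothing
to prove; otherwise `τ` has exactly the two walls `e`, `e'`, and the other two edges at `u`
are not walls, so by `EH`/`EV` their contents are `intL` with the type `τ` at `u` and with the
positions `p`.  Now `VR`:
* `VA τ'` with `τ' = τ`: the walls have equal contents, done.
* `VA τ'` with `τ' ≠ τ`: a non-wall of both would have type `τ` and `τ'` at `u`.  So both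
  non-walls of `τ` are walls of `τ'` and have equal contents.  If the two non-walls of `τ` have
  different orientation this is impossible.  If they are `E`, `W`: the positions are equal,
  `(ξ u).p = (ξ (u - e1)).p`, so `root ξ u = root ξ (u - e1) + e1`, but `N` is a wall and
  `Adj ξ (u - e1) u` (`LR.ad1`) with `Long` sides `B`, `L` excludes this.  `N`, `S` similarly.
* the second case of `VR` has four `intG`, impossible.
* the third (fourth) case: `N`, `S` (`E`, `W`) are `intG`, so they are the walls, and the
  non-walls `E`, `W` (`N`, `S`) are equal: impossible as before.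
-/

namespace BU39

variable {P : Par}

private theorem S05_core {τ : VT} {cE cN cW cS : Cont} (hVR : VR P cE cN cW cS)
    (hcnt : τ.cnt ≤ 2)
    (nE : τ.E = false → ∃ σ p, cE = Cont.intL false τ σ p)
    (nN : τ.N = false → ∃ σ p, cN = Cont.intL true τ σ p)
    (nW : τ.W = false → ∃ σ p, cW = Cont.intL false σ τ p)
    (nS : τ.S = false → ∃ σ p, cS = Cont.intL true σ τ p)
    (kEW : τ.E = false → τ.W = false → cE ≠ cW)
    (kNS : τ.N = false → τ.S = false → cN ≠ cS) :
    (τ.E = true → τ.N = true → cE = cN) ∧ (τ.E = true → τ.W = true → cE = cW) ∧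
    (τ.E = true → τ.S = true → cE = cS) ∧ (τ.N = true → τ.W = true → cN = cW) ∧
    (τ.N = true → τ.S = true → cN = cS) ∧ (τ.W = true → τ.S = true → cW = cS) := by
  have c1 : τ.E = true → τ.N = true → τ.W = false ∧ τ.S = false := by
    intro h1 h2
    unfold VT.cnt at hcnt
    rw [h1, h2] at hcnt
    rcases τ with ⟨_, _, _ | _, _ | _⟩ <;> simp_all
  have c2 : τ.E = true → τ.W = true → τ.N = false ∧ τ.S = false := by
    intro h1 h2
    unfold VT.cnt at hcnt
    rw [h1, h2] at hcnt
    rcases τ with ⟨_, _ | _, _, _ | _⟩ <;> simp_all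
  have c3 : τ.E = true → τ.S = true → τ.N = false ∧ τ.W = false := by
    intro h1 h2
    unfold VT.cnt at hcnt
    rw [h1, h2] at hcnt
    rcases τ with ⟨_, _ | _, _ | _, _⟩ <;> simp_all
  have c4 : τ.N = true → τ.W = true → τ.E = false ∧ τ.S = false := by
    intro h1 h2
    unfold VT.cnt at hcnt
    rw [h1, h2] at hcnt
    rcases τ with ⟨_ | _, _, _, _ | _⟩ <;> simp_all
  have c5 : τ.N = true → τ.S = true → τ.E = false ∧ τ.W = false := by
    intro h1 h2
    unfold VT.cnt at hcnt
    rw [h1, h2] at hcnt
    rcases τ with ⟨_ | _, _, _ | _, _⟩ <;> simp_all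
  have c6 : τ.W = true → τ.S = true → τ.E = false ∧ τ.N = false := by
    intro h1 h2
    unfold VT.cnt at hcnt
    rw [h1, h2] at hcnt
    rcases τ with ⟨_ | _, _ | _, _, _⟩ <;> simp_all
  rcases hVR with ⟨τ', hc, vE, vN, vW, vS, en, ew, es, nw, ns, ws⟩ |
    ⟨μ, fW, fS, h1, h2, h3, h4⟩ | ⟨μ, μ', h1, h2, h3, -⟩ | ⟨μ, μ', h1, h2, h3, -⟩
  · by_cases hττ : τ' = τ
    · subst hττ
      exact ⟨en, ew, es, nw, ns, ws⟩
    · have tE : τ.E = false → τ'.E = true := by
        intro h
        by_contra h'
        obtain ⟨σ, p, e⟩ := nE h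
        obtain ⟨σ', p', e'⟩ := vE (by simpa using h')
        rw [e] at e'
        injection e' with _ e2 _ _
        exact hττ e2.symm
      have tN : τ.N = false → τ'.N = true := by
        intro h
        by_contra h'
        obtain ⟨σ, p, e⟩ := nN h
        obtain ⟨σ', p', e'⟩ := vN (by simpa using h')
        rw [e] at e'
        injection e' with _ e2 _ _
        exact hττ e2.symm
      have tW : τ.W = false → τ'.W = true := by
        intro h
        by_contra h'
        obtain ⟨σ, p, e⟩ := nW h
        obtain ⟨σ', p', e'⟩ := vW (by simpa using h')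
        rw [e] at e'
        injection e' with _ _ e2 _
        exact hττ e2.symm
      have tS : τ.S = false → τ'.S = true := by
        intro h
        by_contra h'
        obtain ⟨σ, p, e⟩ := nS h
        obtain ⟨σ', p', e'⟩ := vS (by simpa using h')
        rw [e] at e'
        injection e' with _ _ e2 _
        exact hττ e2.symm
      refine ⟨fun a b => ?_, fun a b => ?_, fun a b => ?_, fun a b => ?_, fun a b => ?_,
        fun a b => ?_⟩
      · obtain ⟨x, y⟩ := c1 a b
        exfalso
        have e := ws (tW x) (tS y)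
        obtain ⟨σ, p, e1⟩ := nW x
        obtain ⟨σ', p', e2⟩ := nS y
        rw [e1, e2] at e
        injection e with e3
        exact absurd e3 (by decide)
      · obtain ⟨x, y⟩ := c2 a b
        exact absurd (ns (tN x) (tS y)) (kNS x y)
      · obtain ⟨x, y⟩ := c3 a b
        exfalso
        have e := nw (tN x) (tW y)
        obtain ⟨σ, p, e1⟩ := nN x
        obtain ⟨σ', p', e2⟩ := nW y
        rw [e1, e2] at e
        injection e with e3
        exact absurd e3 (by decide)
      · obtain ⟨x, y⟩ := c4 a b
        exfalso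
        have e := es (tE x) (tS y)
        obtain ⟨σ, p, e1⟩ := nE x
        obtain ⟨σ', p', e2⟩ := nS y
        rw [e1, e2] at e
        injection e with e3
        exact absurd e3 (by decide)
      · obtain ⟨x, y⟩ := c5 a b
        exact absurd (ew (tE x) (tW y)) (kEW x y)
      · obtain ⟨x, y⟩ := c6 a b
        exfalso
        have e := en (tE x) (tN y)
        obtain ⟨σ, p, e1⟩ := nE x
        obtain ⟨σ', p', e2⟩ := nN y
        rw [e1, e2] at e
        injection e with e3
        exact absurd e3 (by decide)
  · have tE : τ.E = false → False := by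
      intro h
      obtain ⟨σ, p, e⟩ := nE h
      rw [h1] at e
      exact Cont.noConfusion e
    have tN : τ.N = false → False := by
      intro h
      obtain ⟨σ, p, e⟩ := nN h
      rw [h2] at e
      exact Cont.noConfusion e
    have tW : τ.W = false → False := by
      intro h
      obtain ⟨σ, p, e⟩ := nW h
      rw [h3] at e
      exact Cont.noConfusion e
    exact ⟨fun a b => (tW (c1 a b).1).elim, fun a b => (tN (c2 a b).1).elim,
      fun a b => (tN (c3 a b).1).elim, fun a b => (tE (c4 a b).1).elim,
      fun a b => (tE (c5 a b).1).elim, fun a b => (tE (c6 a b).1).elim⟩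
  · have tN : τ.N = true := by
      by_contra h
      obtain ⟨σ, p, e⟩ := nN (by simpa using h)
      rw [h1] at e
      exact Cont.noConfusion e
    have tS : τ.S = true := by
      by_contra h
      obtain ⟨σ, p, e⟩ := nS (by simpa using h)
      rw [h2] at e
      exact Cont.noConfusion e
    obtain ⟨x, y⟩ := c5 tN tS
    exact absurd h3 (kEW x y)
  · have tE : τ.E = true := by
      by_contra h
      obtain ⟨σ, p, e⟩ := nE (by simpa using h)
      rw [h1] at e
      exact Cont.noConfusion e
    have tW : τ.W = true := by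
      by_contra h
      obtain ⟨σ, p, e⟩ := nW (by simpa using h)
      rw [h2] at e
      exact Cont.noConfusion e
    obtain ⟨x, y⟩ := c2 tE tW
    exact absurd h3 (kNS x y)

private theorem S05_not_adj (S : LSys P) {z z' d : V} (ha : Adj S.ξ z z')
    (hr : root S.ξ z' = root S.ξ z + d) (hd0 : d ≠ 0) (hd : ¬ Long d) : False := by
  have hd' : ¬ Long (-d) := by
    unfold Long at hd ⊢
    simpa using hd
  rcases ha with h | h | h | h | h
  · rw [h] at hr
    exact hd0 (by simpa using hr.symm)
  · rw [h] at hr
    have e := add_left_cancel hr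
    exact hd (e ▸ (S.lr z).ok.Bl)
  · rw [hr] at h
    have e : (S.ξ z').g.B = -d := by
      have h1 : root S.ξ z = root S.ξ z + (d + (S.ξ z').g.B) := by
        rw [← add_assoc]; exact h
      have h2 : d + (S.ξ z').g.B = 0 := by simpa using h1.symm
      exact (neg_eq_of_add_eq_zero_right h2).symm
    exact hd' (e ▸ (S.lr z').ok.Bl)
  · rw [h] at hr
    have e := add_left_cancel hr
    exact hd (e ▸ (S.lr z).ok.Ll)
  · rw [hr] at h
    have e : (S.ξ z').g.L = -d := by
      have h1 : root S.ξ z = root S.ξ z + (d + (S.ξ z').g.L) := by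
        rw [← add_assoc]; exact h
      have h2 : d + (S.ξ z').g.L = 0 := by simpa using h1.symm
      exact (neg_eq_of_add_eq_zero_right h2).symm
    exact hd' (e ▸ (S.lr z').ok.Ll)

private theorem S05_all (S : LSys P) {u : V} (hu : (S.ξ u).p ≠ 0) :
    ((vt S.ξ u).E = true → (vt S.ξ u).N = true → S.h u = S.v u) ∧
    ((vt S.ξ u).E = true → (vt S.ξ u).W = true → S.h u = S.h (u - e1)) ∧
    ((vt S.ξ u).E = true → (vt S.ξ u).S = true → S.h u = S.v (u - e2)) ∧
    ((vt S.ξ u).N = true → (vt S.ξ u).W = true → S.v u = S.h (u - e1)) ∧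
    ((vt S.ξ u).N = true → (vt S.ξ u).S = true → S.v u = S.v (u - e2)) ∧
    ((vt S.ξ u).W = true → (vt S.ξ u).S = true → S.h (u - e1) = S.v (u - e2)) := by
  have nE : (vt S.ξ u).E = false →
      S.h u = Cont.intL false (vt S.ξ u) (vt S.ξ (u + e1)) (S.ξ u).p := by
    intro h
    apply (S.eh u).1
    simpa [vt, wall] using h
  have nN : (vt S.ξ u).N = false →
      S.v u = Cont.intL true (vt S.ξ u) (vt S.ξ (u + e2)) (S.ξ u).p := by
    intro h
    apply (S.ev u).1
    simpa [vt, wall] using h
  have nW : (vt S.ξ u).W = false →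
      S.h (u - e1) = Cont.intL false (vt S.ξ (u - e1)) (vt S.ξ u) (S.ξ (u - e1)).p := by
    intro h
    have := (S.eh (u - e1)).1 (by simpa [vt, wall] using h)
    rwa [sub_add_cancel] at this
  have nS : (vt S.ξ u).S = false →
      S.v (u - e2) = Cont.intL true (vt S.ξ (u - e2)) (vt S.ξ u) (S.ξ (u - e2)).p := by
    intro h
    have := (S.ev (u - e2)).1 (by simpa [vt, wall] using h)
    rwa [sub_add_cancel] at this
  refine S05_core (S.vr u) ((S.lr u).vx hu) (fun h => ⟨_, _, nE h⟩) (fun h => ⟨_, _, nN h⟩)
    (fun h => ⟨_, _, nW h⟩) (fun h => ⟨_, _, nS h⟩) ?_ ?_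
  · intro x y e
    rw [nE x, nW y] at e
    injection e with _ _ _ e4
    have ha : Adj S.ξ (u - e1) (u - e1 + e1) := (S.lr (u - e1)).ad1
    rw [sub_add_cancel] at ha
    refine S05_not_adj S ha (d := e1) ?_ (by unfold e1; decide) ?_
    · unfold root
      rw [e4]
      abel
    · unfold Long e1
      norm_num
  · intro x y e
    rw [nN x, nS y] at e
    injection e with _ _ _ e4
    have ha : Adj S.ξ (u - e2) (u - e2 + e2) := (S.lr (u - e2)).ad2
    rw [sub_add_cancel] at ha
    refine S05_not_adj S ha (d := e2) ?_ (by unfold e2; decide) ?_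
    · unfold root
      rw [e4]
      abel
    · unfold Long e2
      norm_num

private theorem S05_inc {e : V × Bool} {u : V} (h : inc e u) :
    e = (u, false) ∨ e = (u, true) ∨ e = (u - e1, false) ∨ e = (u - e2, true) := by
  obtain ⟨w, b⟩ := e
  rcases h with h | h
  · cases b
    · left; rw [h]
    · right; left; rw [h]
  · cases b
    · right; right; left
      simp only [Bool.false_eq_true, if_false] at h
      rw [h, add_sub_cancel_right]
    · right; right; right
      simp only [if_true] at h
      rw [h, add_sub_cancel_right]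

theorem LSys.link_ct (S : LSys P) {u : V} (hu : (S.ξ u).p ≠ 0) {e e' : V × Bool}
    (h : inc e u) (h' : inc e' u) (hw : wall S.ξ e) (hw' : wall S.ξ e') :
    S.ct e = S.ct e' := by
  obtain ⟨h1, h2, h3, h4, h5, h6⟩ := S05_all S hu
  have tE : wall S.ξ (u, false) → (vt S.ξ u).E = true := fun x => decide_eq_true x
  have tN : wall S.ξ (u, true) → (vt S.ξ u).N = true := fun x => decide_eq_true x
  have tW : wall S.ξ (u - e1, false) → (vt S.ξ u).W = true := fun x => decide_eq_true x
  have tS : wall S.ξ (u - e2, true) → (vt S.ξ u).S = true := fun x => decide_eq_true x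
  rcases S05_inc h with rfl | rfl | rfl | rfl <;> rcases S05_inc h' with rfl | rfl | rfl | rfl
  · rfl
  · exact h1 (tE hw) (tN hw')
  · exact h2 (tE hw) (tW hw')
  · exact h3 (tE hw) (tS hw')
  · exact (h1 (tE hw') (tN hw)).symm
  · rfl
  · exact h4 (tN hw) (tW hw')
  · exact h5 (tN hw) (tS hw')
  · exact (h2 (tE hw') (tW hw)).symm
  · exact (h4 (tN hw') (tW hw)).symm
  · rfl
  · exact h6 (tW hw) (tS hw')
  · exact (h3 (tE hw') (tS hw)).symm
  · exact (h5 (tN hw') (tS hw)).symm
  · exact (h6 (tW hw') (tS hw)).symm
  · rfl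

theorem LSys.reach_ct (S : LSys P) {z : V} {e e' : V × Bool} (h : Reach P.K S.ξ z e e') :
    S.ct e = S.ct e' := by
  induction h with
  | refl => rfl
  | tail _ hl ih =>
    obtain ⟨u, _, hu, hi, hi', hw, hw'⟩ := hl
    exact ih.trans (S.link_ct hu hi hi' hw hw')

end BU39
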