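import Pool.Agent.LibBU39.S05

/-!
TASK S06.  The grid of the roots.

Let `Rt = {z // (ξ z).p = 0}`.  `R z = z + B`, `U z = z + L` are bijections of `Rt`:
injective by `root ξ (z + B - e1) = z`, surjective because for a root `z` the root
`r := root ξ (z - e1)` satisfies `r + B (ξ (z - e1)).g = z` and `(ξ r).g = (ξ (z - e1)).g`
(`LR.pg`, `LR.p0`).  They commute: `R (U z) = z + L g + B g'` with `g' = g (U z)`, `UG g g'`,
so `B g' = T g`; `U (R z) = z + B g + L g''`, `L g'' = R g`; and `B + R = L + T` (`Ok.cl`).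
`Φ (i, j) := R^i U^j r0`.
-/

namespace BU39

variable {P : Par}

/-- the step to the right on the roots -/
private noncomputable def S06_R (S : LSys P) :
    {z : V // (S.ξ z).p = 0} ≃ {z : V // (S.ξ z).p = 0} :=
  Equiv.ofBijective (fun z => ⟨z.1 + (S.ξ z.1).g.B, ((S.lr z.1).rt z.2).1⟩) (by
    constructor
    · intro z z' h
      have h1 : z.1 + (S.ξ z.1).g.B = z'.1 + (S.ξ z'.1).g.B := congrArg Subtype.val h
      have h2 := ((S.lr z.1).rt z.2).2.2.1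
      have h3 := ((S.lr z'.1).rt z'.2).2.2.1
      rw [h1, h3] at h2
      exact Subtype.ext h2.symm
    · intro z
      refine ⟨⟨root S.ξ (z.1 - e1), (S.lr (z.1 - e1)).p0⟩, Subtype.ext ?_⟩
      have h1 := ((S.lr z.1).rt z.2).2.2.2
      have h2 := (S.lr (z.1 - e1)).pg
      change root S.ξ (z.1 - e1) + (S.ξ (root S.ξ (z.1 - e1))).g.B = z.1
      rw [h2, h1])

/-- the step upwards on the roots -/
private noncomputable def S06_U (S : LSys P) :
    {z : V // (S.ξ z).p = 0} ≃ {z : V // (S.ξ z).p = 0} :=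
  Equiv.ofBijective (fun z => ⟨z.1 + (S.ξ z.1).g.L, ((S.lr z.1).up z.2).1⟩) (by
    constructor
    · intro z z' h
      have h1 : z.1 + (S.ξ z.1).g.L = z'.1 + (S.ξ z'.1).g.L := congrArg Subtype.val h
      have h2 := ((S.lr z.1).up z.2).2.2.1
      have h3 := ((S.lr z'.1).up z'.2).2.2.1
      rw [h1, h3] at h2
      exact Subtype.ext h2.symm
    · intro z
      refine ⟨⟨root S.ξ (z.1 - e2), (S.lr (z.1 - e2)).p0⟩, Subtype.ext ?_⟩
      have h1 := ((S.lr z.1).up z.2).2.2.2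
      have h2 := (S.lr (z.1 - e2)).pg
      change root S.ξ (z.1 - e2) + (S.ξ (root S.ξ (z.1 - e2))).g.L = z.1
      rw [h2, h1])

private theorem S06_R_coe (S : LSys P) (z : {z : V // (S.ξ z).p = 0}) :
    (S06_R S z).1 = z.1 + (S.ξ z.1).g.B := rfl

private theorem S06_U_coe (S : LSys P) (z : {z : V // (S.ξ z).p = 0}) :
    (S06_U S z).1 = z.1 + (S.ξ z.1).g.L := rfl

private theorem S06_comm (S : LSys P) : S06_R S * S06_U S = S06_U S * S06_R S := by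
  ext1 z
  refine Subtype.ext ?_
  rw [Equiv.Perm.mul_apply, Equiv.Perm.mul_apply, S06_R_coe, S06_U_coe, S06_U_coe, S06_R_coe]
  have hU := ((S.lr z.1).up z.2).2.1
  have hR := ((S.lr z.1).rt z.2).2.1
  have hT : (S.ξ (z.1 + (S.ξ z.1).g.L)).g.B = (S.ξ z.1).g.T := by
    unfold Gl.B Gl.T
    rw [← hU.1, ← hU.2.1, ← hU.2.2.2.1]
  have hRR : (S.ξ (z.1 + (S.ξ z.1).g.B)).g.L = (S.ξ z.1).g.R := by
    unfold Gl.L Gl.R
    rw [← hR.1, ← hR.2.1, ← hR.2.2.2.1]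
  rw [hT, hRR, add_assoc, add_assoc, (S.lr z.1).ok.cl]

theorem LSys.exists_grid (S : LSys P) {r0 : V} (h0 : (S.ξ r0).p = 0) :
    ∃ Φ : V → V, Φ 0 = r0 ∧ (∀ k, (S.ξ (Φ k)).p = 0) ∧
      (∀ k, Φ (k + e1) = Φ k + (S.ξ (Φ k)).g.B) ∧
      (∀ k, Φ (k + e2) = Φ k + (S.ξ (Φ k)).g.L) := by
  refine ⟨fun k => ((S06_R S ^ k.1 * S06_U S ^ k.2 :
    Equiv.Perm {z : V // (S.ξ z).p = 0}) ⟨r0, h0⟩).1, ?_, fun k => ?_, fun k => ?_,
    fun k => ?_⟩
  · simp
  · exact ((S06_R S ^ k.1 * S06_U S ^ k.2 :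
      Equiv.Perm {z : V // (S.ξ z).p = 0}) ⟨r0, h0⟩).2
  · rw [← S06_R_coe, ← Equiv.Perm.mul_apply, ← mul_assoc, ← zpow_one_add]
    simp [e1, add_comm]
  · have hc : Commute (S06_U S) (S06_R S ^ k.1) := (Commute.symm (S06_comm S)).zpow_right k.1
    rw [← S06_U_coe, ← Equiv.Perm.mul_apply, ← mul_assoc, hc.eq, mul_assoc, ← zpow_one_add]
    simp [e2, add_comm]

end BU39
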