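import Pool.Agent.LibBU39.S06

/-!
TASK S07.  The derived configuration of the grid level.

Let `Φ` be a grid of roots.  `Y k := (g (Φ k), h (Φ k), v (Φ k))`.
* `RelGH`: `EH` at the root `r = Φ k` gives `RelGH (ξ (r - e2)).g (ξ r).g (h r)`.  Let
  `r' = root ξ (r - e2)`; it is a root with `(ξ r').g = (ξ (r - e2)).g` and
  `r' + L = r` (`LR.up`, last part).  Also `Φ (k - e2)` is a root with
  `Φ (k - e2) + L = Φ k = r`, and `root ξ (Φ (k - e2) + L - e2) = Φ (k - e2)` (`LR.up`, third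
  part), i.e. `r' = Φ (k - e2)`.
* `RelGV` similarly.
* `VR`: at the vertex `r`: `h r`, `v r` are the first two contents; the third is
  `h (r - e1)`; with `r' = Φ (k - e1)`, `r' + B = r`, `LR.pH` at `r'` and S05 give
  `h r' = h (r - e1)`.  The fourth similarly with `LR.pV`.
* Bounds: `hb`, `hc`.
-/

namespace BU39

variable {P : Par}

theorem LSys.derived (S : LSys P) (hb : ∀ z, RawBd P.K (S.ξ z))
    (hc : ∀ z, ContBd P.K (S.h z) ∧ ContBd P.K (S.v z)) {Φ : V → V}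
    (h0 : ∀ k, (S.ξ (Φ k)).p = 0)
    (h1 : ∀ k, Φ (k + e1) = Φ k + (S.ξ (Φ k)).g.B)
    (h2 : ∀ k, Φ (k + e2) = Φ k + (S.ξ (Φ k)).g.L) :
    (fun k => ((S.ξ (Φ k)).g, S.h (Φ k), S.v (Φ k))) ∈ GY P := by
  intro k
  have hk1 : Φ k = Φ (k - e1) + (S.ξ (Φ (k - e1))).g.B := by
    have h := h1 (k - e1)
    rwa [sub_add_cancel] at h
  have hk2 : Φ k = Φ (k - e2) + (S.ξ (Φ (k - e2))).g.L := by
    have h := h2 (k - e2)
    rwa [sub_add_cancel] at h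
  have hr1 : root S.ξ (Φ k - e1) = Φ (k - e1) := by
    have h := ((S.lr (Φ (k - e1))).rt (h0 _)).2.2.1
    rwa [← hk1] at h
  have hr2 : root S.ξ (Φ k - e2) = Φ (k - e2) := by
    have h := ((S.lr (Φ (k - e2))).up (h0 _)).2.2.1
    rwa [← hk2] at h
  have hg1 : (S.ξ (Φ (k - e1))).g = (S.ξ (Φ k - e1)).g := by
    have h := (S.lr (Φ k - e1)).pg
    rwa [hr1] at h
  have hg2 : (S.ξ (Φ (k - e2))).g = (S.ξ (Φ k - e2)).g := by
    have h := (S.lr (Φ k - e2)).pg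
    rwa [hr2] at h
  have hh : S.h (Φ (k - e1)) = S.h (Φ k - e1) := by
    have h := S.reach_ct ((S.lr (Φ (k - e1))).pH (h0 _))
    rw [← hk1] at h
    exact h
  have hv : S.v (Φ (k - e2)) = S.v (Φ k - e2) := by
    have h := S.reach_ct ((S.lr (Φ (k - e2))).pV (h0 _))
    rw [← hk2] at h
    exact h
  refine ⟨⟨⟨(hb _).1, (hb _).2.1, (hb _).2.2.1⟩, (hc _).1, (hc _).2⟩, ?_, ?_, ?_⟩
  · have h := (S.eh (Φ k)).2 (h0 k)
    show RelGH (S.ξ (Φ (k - e2))).g (S.ξ (Φ k)).g (S.h (Φ k))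
    rw [hg2]
    exact h
  · have h := (S.ev (Φ k)).2 (h0 k)
    show RelGV (S.ξ (Φ (k - e1))).g (S.ξ (Φ k)).g (S.v (Φ k))
    rw [hg1]
    exact h
  · show VR P (S.h (Φ k)) (S.v (Φ k)) (S.h (Φ (k - e1))) (S.v (Φ (k - e2)))
    rw [hh, hv]
    exact S.vr (Φ k)

end BU39
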