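import Pool.Agent.LibBU39.S06

/-!
TASK S08.  Every cell `z` is in the patch of some `Φ k` with `|k|_1 ≤ |z|_1`, if
`root ξ 0 = Φ 0`.

Induction on `|z|_1`: walk from `0` to `z`; a unit step changes the root by `0`, `± B`,
`± L` (`LR.ad1`, `LR.ad2`).  If `root ξ z = Φ k` and `root ξ z' = root ξ z + (ξ z).g.B` then
`(ξ z).g = (ξ (Φ k)).g` (`LR.pg`) so `root ξ z' = Φ (k + e1)`.  If
`root ξ z = root ξ z' + (ξ z').g.B`: `r' := root ξ z'` is a root, and
`root ξ (r' + B - e1) = r'`, also `root ξ (Φ (k - e1) + B - e1) = Φ (k - e1)`, both points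
`r' + B`, `Φ (k - e1) + B` are equal to `Φ k`, so `r' = Φ (k - e1)`.  Same for `L`.
-/

namespace BU39

variable {P : Par}

theorem s08_adj_symm {ξ : V → Raw} {z z' : V} (h : Adj ξ z z') : Adj ξ z' z := by
  rcases h with h | h | h | h | h
  · exact Or.inl h.symm
  · exact Or.inr (Or.inr (Or.inl h))
  · exact Or.inr (Or.inl h)
  · exact Or.inr (Or.inr (Or.inr (Or.inr h)))
  · exact Or.inr (Or.inr (Or.inr (Or.inl h)))

theorem s08_step (S : LSys P) {Φ : V → V}
    (h0 : ∀ k, (S.ξ (Φ k)).p = 0)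
    (h1 : ∀ k, Φ (k + e1) = Φ k + (S.ξ (Φ k)).g.B)
    (h2 : ∀ k, Φ (k + e2) = Φ k + (S.ξ (Φ k)).g.L) {z z' k : V} (hz : root S.ξ z = Φ k)
    (h : Adj S.ξ z z') :
    ∃ k' : V, |k'.1| + |k'.2| ≤ |k.1| + |k.2| + 1 ∧ root S.ξ z' = Φ k' := by
  have hg : (S.ξ (Φ k)).g = (S.ξ z).g := by
    have h := (S.lr z).pg
    rwa [hz] at h
  have hp' : (S.ξ (root S.ξ z')).p = 0 := (S.lr z').p0
  have hg' : (S.ξ (root S.ξ z')).g = (S.ξ z').g := (S.lr z').pg
  rcases h with h | h | h | h | h
  · exact ⟨k, by omega, h.trans hz⟩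
  · refine ⟨k + e1, ?_, ?_⟩
    · have e : (k + e1).1 = k.1 + 1 ∧ (k + e1).2 = k.2 := by simp [e1]
      rw [e.1, e.2]
      have := abs_add_le k.1 1
      simp only [abs_one] at this
      omega
    · rw [h, h1, hz, hg]
  · refine ⟨k - e1, ?_, ?_⟩
    · have e : (k - e1).1 = k.1 - 1 ∧ (k - e1).2 = k.2 := by simp [e1]
      rw [e.1, e.2]
      have := abs_sub k.1 1
      simp only [abs_one] at this
      omega
    · have a1 := ((S.lr (root S.ξ z')).rt hp').2.2.1
      have a2 := ((S.lr (Φ (k - e1))).rt (h0 _)).2.2.1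
      have a3 := h1 (k - e1)
      rw [sub_add_cancel] at a3
      rw [← a3] at a2
      rw [hg', ← h, hz] at a1
      exact a1.symm.trans a2
  · refine ⟨k + e2, ?_, ?_⟩
    · have e : (k + e2).1 = k.1 ∧ (k + e2).2 = k.2 + 1 := by simp [e2]
      rw [e.1, e.2]
      have := abs_add_le k.2 1
      simp only [abs_one] at this
      omega
    · rw [h, h2, hz, hg]
  · refine ⟨k - e2, ?_, ?_⟩
    · have e : (k - e2).1 = k.1 ∧ (k - e2).2 = k.2 - 1 := by simp [e2]
      rw [e.1, e.2]
      have := abs_sub k.2 1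
      simp only [abs_one] at this
      omega
    · have a1 := ((S.lr (root S.ξ z')).up hp').2.2.1
      have a2 := ((S.lr (Φ (k - e2))).up (h0 _)).2.2.1
      have a3 := h2 (k - e2)
      rw [sub_add_cancel] at a3
      rw [← a3] at a2
      rw [hg', ← h, hz] at a1
      exact a1.symm.trans a2

theorem LSys.index (S : LSys P) {Φ : V → V} (h00 : root S.ξ 0 = Φ 0)
    (h0 : ∀ k, (S.ξ (Φ k)).p = 0)
    (h1 : ∀ k, Φ (k + e1) = Φ k + (S.ξ (Φ k)).g.B)
    (h2 : ∀ k, Φ (k + e2) = Φ k + (S.ξ (Φ k)).g.L) (z : V) :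
    ∃ k : V, |k.1| + |k.2| ≤ |z.1| + |z.2| ∧ root S.ξ z = Φ k := by
  have key : ∀ n : ℕ, ∀ z : V, |z.1| + |z.2| = n →
      ∃ k : V, |k.1| + |k.2| ≤ (n : ℤ) ∧ root S.ξ z = Φ k := by
    intro n
    induction n with
    | zero =>
      intro z hz
      have a1 : z.1 = 0 := by
        have := abs_nonneg z.1
        have := abs_nonneg z.2
        apply abs_eq_zero.mp
        push_cast at hz
        omega
      have a2 : z.2 = 0 := by
        have := abs_nonneg z.1
        have := abs_nonneg z.2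
        apply abs_eq_zero.mp
        push_cast at hz
        omega
      have a3 : z = 0 := Prod.ext a1 a2
      subst a3
      exact ⟨0, by simp, h00⟩
    | succ n ih =>
      intro z hz
      have main : ∃ z' : V, |z'.1| + |z'.2| = n ∧ Adj S.ξ z' z := by
        by_cases c1 : 0 < z.1
        · refine ⟨z - e1, ?_, ?_⟩
          · have e : (z - e1).1 = z.1 - 1 ∧ (z - e1).2 = z.2 := by simp [e1]
            rw [e.1, e.2, abs_of_nonneg (by omega : 0 ≤ z.1 - 1)]
            rw [abs_of_pos c1] at hz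
            push_cast at hz
            omega
          · have := (S.lr (z - e1)).ad1
            rwa [sub_add_cancel] at this
        by_cases c2 : z.1 < 0
        · refine ⟨z + e1, ?_, s08_adj_symm (S.lr z).ad1⟩
          have e : (z + e1).1 = z.1 + 1 ∧ (z + e1).2 = z.2 := by simp [e1]
          rw [e.1, e.2, abs_of_nonpos (by omega : z.1 + 1 ≤ 0)]
          rw [abs_of_neg c2] at hz
          push_cast at hz
          omega
        by_cases c3 : 0 < z.2
        · refine ⟨z - e2, ?_, ?_⟩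
          · have e : (z - e2).1 = z.1 ∧ (z - e2).2 = z.2 - 1 := by simp [e2]
            rw [e.1, e.2, abs_of_nonneg (by omega : 0 ≤ z.2 - 1)]
            rw [abs_of_pos c3] at hz
            push_cast at hz
            omega
          · have := (S.lr (z - e2)).ad2
            rwa [sub_add_cancel] at this
        by_cases c4 : z.2 < 0
        · refine ⟨z + e2, ?_, s08_adj_symm (S.lr z).ad2⟩
          have e : (z + e2).1 = z.1 ∧ (z + e2).2 = z.2 + 1 := by simp [e2]
          rw [e.1, e.2, abs_of_nonpos (by omega : z.2 + 1 ≤ 0)]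
          rw [abs_of_neg c4] at hz
          push_cast at hz
          omega
        exfalso
        have a1 : z.1 = 0 := by omega
        have a2 : z.2 = 0 := by omega
        rw [a1, a2] at hz
        simp only [abs_zero] at hz
        push_cast at hz
        omega
      obtain ⟨z', hz', hadj⟩ := main
      obtain ⟨k, hk, hr⟩ := ih z' hz'
      obtain ⟨k', hk', hr'⟩ := s08_step S h0 h1 h2 hr hadj
      exact ⟨k', by push_cast; omega, hr'⟩
  have hn : 0 ≤ |z.1| + |z.2| := by positivity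
  obtain ⟨k, hk, hr⟩ := key (|z.1| + |z.2|).toNat z (Int.toNat_of_nonneg hn).symm
  rw [Int.toNat_of_nonneg hn] at hk
  exact ⟨k, hk, hr⟩

end BU39
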