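import Pool.Agent.LibBU39.S08

/-!
TASK S09.  Decoding, first part: roots and grid labels.

Two systems `S`, `S'` with grids `Φ`, `Φ'`, the same root of the cell `0`, and the same grid
labels on the `ℓ¹`-ball of radius `M`.  Then
(1) `Φ k = Φ' k` for `|k|_1 ≤ M` (go from `0` to `k` by unit steps inside the ball; a step
    `k → k + e1` uses the label at `k`, a step `k → k - e1` the label at `k - e1`, the end
    point);
(2) for `|z|_1 ≤ M` the cells `z` have the same position and the same grid label: by S08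
    `root ξ z = Φ k` with `|k|_1 ≤ |z|_1`; `(ξ z).p = z - Φ k` is in the patch of
    `(ξ (Φ k)).g`; by `LR.fill` for `S'` at the root `Φ' k = Φ k` (the same label) we get
    `(ξ' z).p = z - Φ k`.
-/

namespace BU39

variable {P : Par}

/-- `Φ` is the grid of the roots of `S`. -/
structure IsGrid (S : LSys P) (Φ : V → V) : Prop where
  h00 : root S.ξ 0 = Φ 0
  h0 : ∀ k, (S.ξ (Φ k)).p = 0
  h1 : ∀ k, Φ (k + e1) = Φ k + (S.ξ (Φ k)).g.B
  h2 : ∀ k, Φ (k + e2) = Φ k + (S.ξ (Φ k)).g.L

private theorem S09_mem {M : ℕ} {k : V} : k ∈ dia M ↔ |k.1| + |k.2| ≤ M := Iff.rfl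

private theorem S09_roots {S S' : LSys P} {Φ Φ' : V → V} (hΦ : IsGrid S Φ) (hΦ' : IsGrid S' Φ')
    (h0 : Φ 0 = Φ' 0) {M : ℕ} (hg : ∀ k ∈ dia M, (S.ξ (Φ k)).g = (S'.ξ (Φ' k)).g) :
    ∀ n : ℕ, n ≤ M → ∀ k : V, |k.1| + |k.2| = n → Φ k = Φ' k := by
  intro n
  induction n with
  | zero =>
    intro _ k hk
    have h1 : k.1 = 0 := by
      have := abs_nonneg k.1
      have := abs_nonneg k.2
      exact abs_eq_zero.1 (by push_cast at hk; omega)
    have h2 : k.2 = 0 := by
      have := abs_nonneg k.1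
      have := abs_nonneg k.2
      exact abs_eq_zero.1 (by push_cast at hk; omega)
    have : k = 0 := Prod.ext h1 h2
    rw [this, h0]
  | succ n ih =>
    intro hn k hk
    have hkM : k ∈ dia M := by
      rw [S09_mem, hk]
      exact_mod_cast hn
    have key : ∀ k' : V, |k'.1| + |k'.2| = n → k' ∈ dia M := by
      intro k' hk'
      rw [S09_mem, hk']
      exact_mod_cast (Nat.le_succ n).trans hn
    push_cast at hk
    by_cases h1 : 0 < k.1
    · have hk' : |(k - e1).1| + |(k - e1).2| = (n : ℤ) := by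
        simp only [e1, Prod.fst_sub, Prod.snd_sub, sub_zero]
        rw [abs_of_nonneg (by omega : (0 : ℤ) ≤ k.1 - 1)]
        rw [abs_of_pos h1] at hk
        omega
      have e := ih (by omega) _ hk'
      have a1 := hΦ.h1 (k - e1)
      have a2 := hΦ'.h1 (k - e1)
      rw [sub_add_cancel] at a1 a2
      rw [a1, a2, hg _ (key _ hk'), e]
    · by_cases h2 : k.1 < 0
      · have hk' : |(k + e1).1| + |(k + e1).2| = (n : ℤ) := by
          simp only [e1, Prod.fst_add, Prod.snd_add, add_zero]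
          rw [abs_of_nonpos (by omega : k.1 + 1 ≤ 0)]
          rw [abs_of_neg h2] at hk
          omega
        have e := ih (by omega) _ hk'
        rw [hΦ.h1 k, hΦ'.h1 k, hg k hkM] at e
        exact add_right_cancel e
      · have h3 : k.1 = 0 := by omega
        rw [h3, abs_zero, zero_add] at hk
        by_cases h4 : 0 < k.2
        · have hk' : |(k - e2).1| + |(k - e2).2| = (n : ℤ) := by
            simp only [e2, Prod.fst_sub, Prod.snd_sub, sub_zero]
            rw [h3, abs_zero, abs_of_nonneg (by omega : (0 : ℤ) ≤ k.2 - 1)]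
            rw [abs_of_pos h4] at hk
            omega
          have e := ih (by omega) _ hk'
          have a1 := hΦ.h2 (k - e2)
          have a2 := hΦ'.h2 (k - e2)
          rw [sub_add_cancel] at a1 a2
          rw [a1, a2, hg _ (key _ hk'), e]
        · have h5 : k.2 < 0 := by
            rcases lt_or_ge k.2 0 with h | h
            · exact h
            · have : k.2 = 0 := by omega
              rw [this, abs_zero] at hk
              omega
          have hk' : |(k + e2).1| + |(k + e2).2| = (n : ℤ) := by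
            simp only [e2, Prod.fst_add, Prod.snd_add, add_zero]
            rw [h3, abs_zero, abs_of_nonpos (by omega : k.2 + 1 ≤ 0)]
            rw [abs_of_neg h5] at hk
            omega
          have e := ih (by omega) _ hk'
          rw [hΦ.h2 k, hΦ'.h2 k, hg k hkM] at e
          exact add_right_cancel e

theorem decode1 {S S' : LSys P} {Φ Φ' : V → V} (hΦ : IsGrid S Φ) (hΦ' : IsGrid S' Φ')
    (h0 : Φ 0 = Φ' 0) {M : ℕ} (hg : ∀ k ∈ dia M, (S.ξ (Φ k)).g = (S'.ξ (Φ' k)).g) :
    (∀ k ∈ dia M, Φ k = Φ' k) ∧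
    ∀ z ∈ dia M, (S.ξ z).p = (S'.ξ z).p ∧ (S.ξ z).g = (S'.ξ z).g := by
  have hroots : ∀ k ∈ dia M, Φ k = Φ' k := by
    intro k hk
    have hnn : 0 ≤ |k.1| + |k.2| := add_nonneg (abs_nonneg _) (abs_nonneg _)
    obtain ⟨n, hn⟩ := Int.eq_ofNat_of_zero_le hnn
    have hk' : |k.1| + |k.2| ≤ M := hk
    exact S09_roots hΦ hΦ' h0 hg n (by omega) k hn
  refine ⟨hroots, fun z hz => ?_⟩
  obtain ⟨k, hk, hkr⟩ := S.index hΦ.h00 hΦ.h0 hΦ.h1 hΦ.h2 z
  have hkM : k ∈ dia M := le_trans hk hz
  have hg1 : (S.ξ (Φ k)).g = (S.ξ z).g := by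
    rw [← hkr]
    exact (S.lr z).pg
  have hz1 : Φ' k + (S.ξ z).p = z := by
    rw [← hroots k hkM, ← hkr]
    unfold root
    exact sub_add_cancel _ _
  have hp : (S'.ξ z).p = (S.ξ z).p := by
    have h1 := (S'.lr (Φ' k)).fill (hΦ'.h0 k) (S.ξ z).p (S.lr z).bd (by
      rw [← hg k hkM, hg1]
      exact (S.lr z).pp)
    rwa [hz1] at h1
  refine ⟨hp.symm, ?_⟩
  have hr : root S'.ξ z = Φ' k := by
    unfold root
    rw [hp]
    exact sub_eq_iff_eq_add.2 hz1.symm
  rw [← hg1, hg k hkM, ← hr]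
  exact (S'.lr z).pg

end BU39
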