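import Pool.Agent.LibBU39.S09

/-!
TASK S10.  Decoding, second part: bits.

The vector `s := (ξ z).g.s` is the same for all cells (connectedness: along a step of the
grid `RG`, `UG` preserve `s`; every cell has the label of a root `Φ k`).
If two systems have the same positions and grid labels on `dia (M + 1)` and the same bits on
the layer `dia (M + 2 K) \ dia M`, then they have the same bits on `dia M`:
for `z ∈ dia M` follow `z, z - s, z - 2 s, ...` (`s ≠ 0`, `Bd K s`) until the first point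
outside of `dia M`, it is in the layer; `LR.c1`, `LR.c2` determine the bits at `z` from the
bits at `z - s` and from `br` at `z`, `z + e1`, `z + e2`.  Induction on the number of steps.
-/

namespace BU39

variable {P : Par}

theorem IsGrid.s_const {S : LSys P} {Φ : V → V} (hΦ : IsGrid S Φ) (z z' : V) :
    (S.ξ z).g.s = (S.ξ z').g.s := by
  have hs1 : ∀ k, (S.ξ (Φ (k + e1))).g.s = (S.ξ (Φ k)).g.s := by
    intro k
    have h := ((S.lr (Φ k)).rt (hΦ.h0 k)).2.1.1
    rw [hΦ.h1 k]
    exact h.symm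
  have hs2 : ∀ k, (S.ξ (Φ (k + e2))).g.s = (S.ξ (Φ k)).g.s := by
    intro k
    have h := ((S.lr (Φ k)).up (hΦ.h0 k)).2.1.1
    rw [hΦ.h2 k]
    exact h.symm
  have hx : ∀ (i j : ℤ), (S.ξ (Φ (i, j))).g.s = (S.ξ (Φ (0, j))).g.s := by
    intro i j
    induction i using Int.induction_on with
    | zero => rfl
    | succ i ih =>
      have h := hs1 ((i : ℤ), j)
      have e : (((i : ℤ), j) : V) + e1 = ((i : ℤ) + 1, j) := by simp [e1]
      rw [e] at h
      rw [h, ih]
    | pred i ih =>
      have h := hs1 (-(i : ℤ) - 1, j)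
      have e : ((-(i : ℤ) - 1, j) : V) + e1 = (-(i : ℤ), j) := by simp [e1]
      rw [e] at h
      rw [← h, ih]
  have hy : ∀ (j : ℤ), (S.ξ (Φ (0, j))).g.s = (S.ξ (Φ (0, 0))).g.s := by
    intro j
    induction j using Int.induction_on with
    | zero => rfl
    | succ i ih =>
      have h := hs2 (0, (i : ℤ))
      have e : ((0, (i : ℤ)) : V) + e2 = (0, (i : ℤ) + 1) := by simp [e2]
      rw [e] at h
      rw [h, ih]
    | pred i ih =>
      have h := hs2 (0, -(i : ℤ) - 1)
      have e : ((0, -(i : ℤ) - 1) : V) + e2 = (0, -(i : ℤ)) := by simp [e2]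
      rw [e] at h
      rw [← h, ih]
  have key : ∀ z : V, (S.ξ z).g.s = (S.ξ (Φ (0, 0))).g.s := by
    intro z
    obtain ⟨k, -, hk⟩ := S.index hΦ.h00 hΦ.h0 hΦ.h1 hΦ.h2 z
    have h := (S.lr z).pg
    rw [hk] at h
    rw [← h]
    have := hx k.1 k.2
    rw [Prod.mk.eta] at this
    rw [this, hy]
  rw [key z, key z']

private lemma bu10_toNat_inj {a b : Bool} (h : a.toNat = b.toNat) : a = b := by
  cases a <;> cases b <;> simp_all

theorem decode2 {S S' : LSys P} {Φ Φ' : V → V} (hΦ : IsGrid S Φ) (hΦ' : IsGrid S' Φ')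
    {M : ℕ} (hp : ∀ z ∈ dia (M + 1), (S.ξ z).p = (S'.ξ z).p ∧ (S.ξ z).g = (S'.ξ z).g)
    (hb : ∀ z ∈ dia (M + 2 * P.K.toNat) \ dia M,
      (S.ξ z).b1 = (S'.ξ z).b1 ∧ (S.ξ z).b2 = (S'.ξ z).b2) :
    ∀ z ∈ dia M, (S.ξ z).b1 = (S'.ξ z).b1 ∧ (S.ξ z).b2 = (S'.ξ z).b2 := by
  have hbr : ∀ z ∈ dia (M + 1), br S.ξ z = br S'.ξ z := by
    intro z hz
    obtain ⟨h1, h2⟩ := hp z hz
    unfold br
    rw [h1, h2]
  set s : V := (S.ξ 0).g.s with hs
  have hs0 : s ≠ 0 := (S.lr 0).ok.s0
  have hsb : Bd P.K s := (S.lr 0).ok.sb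
  have hsz : ∀ z, (S.ξ z).g.s = s := fun z => hΦ.s_const z 0
  have main : ∀ n : ℕ, ∀ z ∈ dia M, z - (n : ℤ) • s ∉ dia M →
      (S.ξ z).b1 = (S'.ξ z).b1 ∧ (S.ξ z).b2 = (S'.ξ z).b2 := by
    intro n
    induction n with
    | zero =>
      intro z hz hn
      simp at hn
      exact absurd hz hn
    | succ n ih =>
      intro z hz hn
      have hprev : (S.ξ (z - s)).b1 = (S'.ξ (z - s)).b1 ∧
          (S.ξ (z - s)).b2 = (S'.ξ (z - s)).b2 := by
        by_cases hm : z - s ∈ dia M
        · apply ih (z - s) hm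
          have e : z - s - (n : ℤ) • s = z - ((n + 1 : ℕ) : ℤ) • s := by
            push_cast
            rw [add_smul, one_smul]
            abel
          rw [e]
          exact hn
        · apply hb
          refine ⟨?_, hm⟩
          simp only [dia, Set.mem_setOf_eq] at hz ⊢
          obtain ⟨hs1, hs2⟩ := hsb
          have hK : (0 : ℤ) ≤ P.K := le_trans (abs_nonneg _) hs1
          push_cast
          rw [Int.toNat_of_nonneg hK]
          have a1 : |(z - s).1| ≤ |z.1| + |s.1| := by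
            rw [Prod.fst_sub]; exact abs_sub _ _
          have a2 : |(z - s).2| ≤ |z.2| + |s.2| := by
            rw [Prod.snd_sub]; exact abs_sub _ _
          linarith
      have hz1 : z ∈ dia (M + 1) := by
        simp only [dia, Set.mem_setOf_eq] at hz ⊢
        push_cast
        linarith
      have hze1 : z + e1 ∈ dia (M + 1) := by
        simp only [dia, Set.mem_setOf_eq] at hz ⊢
        have a1 : |(z + e1).1| ≤ |z.1| + 1 := by
          rw [Prod.fst_add]
          refine (abs_add_le _ _).trans ?_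
          simp [e1]
        have a2 : |(z + e1).2| = |z.2| := by simp [e1]
        push_cast
        linarith
      have hze2 : z + e2 ∈ dia (M + 1) := by
        simp only [dia, Set.mem_setOf_eq] at hz ⊢
        have a1 : |(z + e2).1| = |z.1| := by simp [e2]
        have a2 : |(z + e2).2| ≤ |z.2| + 1 := by
          rw [Prod.snd_add]
          refine (abs_add_le _ _).trans ?_
          simp [e2]
        push_cast
        linarith
      have hs' : (S'.ξ z).g.s = s := by rw [← (hp z hz1).2]; exact hsz z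
      have c1 := (S.lr z).c1
      have c1' := (S'.lr z).c1
      have c2 := (S.lr z).c2
      have c2' := (S'.lr z).c2
      rw [hsz z] at c1 c2
      rw [hs'] at c1' c2'
      rw [← hbr z hz1, ← hprev.1, ← hbr _ hze1] at c1'
      rw [← hbr z hz1, ← hprev.2, ← hbr _ hze2] at c2'
      constructor
      · apply bu10_toNat_inj
        omega
      · apply bu10_toNat_inj
        omega
  intro z hz
  apply main (2 * M + 1) z hz
  simp only [dia, Set.mem_setOf_eq] at hz ⊢
  push Not
  have hne : s.1 ≠ 0 ∨ s.2 ≠ 0 := by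
    by_contra hcon
    push Not at hcon
    exact hs0 (Prod.ext hcon.1 hcon.2)
  have hs1 : 1 ≤ |s.1| + |s.2| := by
    rcases hne with h | h
    · have := Int.one_le_abs h
      have := abs_nonneg s.2
      linarith
    · have := Int.one_le_abs h
      have := abs_nonneg s.1
      linarith
  have b1 : ((2 * M + 1 : ℕ) : ℤ) * |s.1| - |z.1| ≤ |(z - ((2 * M + 1 : ℕ) : ℤ) • s).1| := by
    have h := abs_sub_abs_le_abs_sub (((2 * M + 1 : ℕ) : ℤ) * s.1) z.1
    rw [abs_mul, Nat.abs_cast] at h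
    have e : (z - ((2 * M + 1 : ℕ) : ℤ) • s).1 = -(((2 * M + 1 : ℕ) : ℤ) * s.1 - z.1) := by
      simp [Prod.fst_sub, Prod.smul_fst]
    rw [e, abs_neg]
    exact h
  have b2 : ((2 * M + 1 : ℕ) : ℤ) * |s.2| - |z.2| ≤ |(z - ((2 * M + 1 : ℕ) : ℤ) • s).2| := by
    have h := abs_sub_abs_le_abs_sub (((2 * M + 1 : ℕ) : ℤ) * s.2) z.2
    rw [abs_mul, Nat.abs_cast] at h
    have e : (z - ((2 * M + 1 : ℕ) : ℤ) • s).2 = -(((2 * M + 1 : ℕ) : ℤ) * s.2 - z.2) := by
      simp [Prod.snd_sub, Prod.smul_snd]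
    rw [e, abs_neg]
    exact h
  have h3 : ((2 * M + 1 : ℕ) : ℤ) * 1 ≤ ((2 * M + 1 : ℕ) : ℤ) * (|s.1| + |s.2|) :=
    mul_le_mul_of_nonneg_left hs1 (by positivity)
  rw [mul_one, mul_add] at h3
  push_cast at h3 b1 b2 ⊢
  linarith

end BU39
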