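import Pool.Agent.LibBU39.S10
import Pool.Agent.LibBU39.S01

/-!
TASK S11.  Decoding, third part: contents, and the complete cell.

`c := 4 K + 20`.  Suppose that on `dia (M + c)` the raw labels agree, the grids agree and the
contents of the derived configurations agree (`k ∈ dia (M + c)`).  For an edge `(z, o)` with
`z ∈ dia M`:
* not a wall: the content is `intL o (vt ξ z) (vt ξ (z + ..)) (ξ z).p`, the same for both;
* a wall: by `LR.wl` there is a root `r`, `Bd K (r - z)`, with `Reach K ξ z (z,o) (r,o')`;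
  by S01 (with `z = z'`) it is also reachable in `ξ'`; so by S05 the content is
  `S.ct (r,o') `; by S08 `r = root ξ r = Φ k` with `|k|_1 ≤ |r|_1 ≤ M + 2 K`, so the
  contents agree.
The window label `win K ξ z` only uses raw labels in `dia (M + 2 K + 6)`.
-/

namespace BU39

variable {P : Par}

private theorem S11_mem {M : ℕ} {k : V} : k ∈ dia M ↔ |k.1| + |k.2| ≤ M := Iff.rfl

private theorem S11_near {K : ℤ} {M : ℕ} {z w : V} (hz : z ∈ dia M)
    (h1 : |w.1| ≤ K.toNat + 3) (h2 : |w.2| ≤ K.toNat + 3) :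
    z + w ∈ dia (M + 4 * K.toNat + 20) := by
  rw [S11_mem] at hz ⊢
  have a1 : |(z + w).1| ≤ |z.1| + |w.1| := abs_add_le _ _
  have a2 : |(z + w).2| ≤ |z.2| + |w.2| := abs_add_le _ _
  push_cast
  omega

private theorem S11_ct {S S' : LSys P} {Φ Φ' : V → V} (hΦ : IsGrid S Φ)
    {M : ℕ}
    (hr : ∀ z ∈ dia (M + 4 * P.K.toNat + 20), S.ξ z = S'.ξ z)
    (hk : ∀ k ∈ dia (M + 4 * P.K.toNat + 20), Φ k = Φ' k ∧
      S.h (Φ k) = S'.h (Φ' k) ∧ S.v (Φ k) = S'.v (Φ' k)) (z : V) (hz : z ∈ dia M) (o : Bool) :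
    S.ct (z, o) = S'.ct (z, o) := by
  have hcong : ∀ w, Bd (P.K + 3) w → S.ξ (z + w) = S'.ξ (z + w) := by
    intro w hw
    refine hr _ (S11_near hz ?_ ?_)
    · have := hw.1
      omega
    · have := hw.2
      omega
  have hcong2 : ∀ w, Bd 2 w → S.ξ (z + w) = S'.ξ (z + w) := by
    intro w hw
    refine hr _ (S11_near hz ?_ ?_)
    · have := hw.1
      omega
    · have := hw.2
      omega
  have hz0 : S.ξ z = S'.ξ z := by
    have := hcong2 0 ⟨by simp, by simp⟩
    rwa [add_zero] at this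
  have hz1 : S.ξ (z - e1) = S'.ξ (z - e1) := by
    have := hcong2 (-e1) ⟨by simp [e1], by simp [e1]⟩
    rwa [← sub_eq_add_neg] at this
  have hz2 : S.ξ (z - e2) = S'.ξ (z - e2) := by
    have := hcong2 (-e2) ⟨by simp [e2], by simp [e2]⟩
    rwa [← sub_eq_add_neg] at this
  have hv0 : vt S.ξ z = vt S'.ξ z := by
    have := vt_congr (w := 0) hcong2 ⟨by simp, by simp⟩
    rwa [add_zero] at this
  have hv1 : vt S.ξ (z + e1) = vt S'.ξ (z + e1) :=
    vt_congr (w := e1) hcong2 ⟨by simp [e1], by simp [e1]⟩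
  have hv2 : vt S.ξ (z + e2) = vt S'.ξ (z + e2) :=
    vt_congr (w := e2) hcong2 ⟨by simp [e2], by simp [e2]⟩
  by_cases hw : wall S.ξ (z, o)
  · obtain ⟨r, o', hrz, hr0, hreach⟩ := (S.lr z).wl o hw
    have hreach' : Reach P.K S'.ξ z (z, o) (r, o') := by
      have := reach_congr (z := z) (z' := z) hcong hreach
      simpa using this
    rw [S.reach_ct hreach, S'.reach_ct hreach']
    obtain ⟨k, hkr, hkΦ⟩ := S.index hΦ.h00 hΦ.h0 hΦ.h1 hΦ.h2 r
    have hroot : root S.ξ r = r := by
      unfold root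
      rw [hr0, sub_zero]
    rw [hroot] at hkΦ
    have hkM : k ∈ dia (M + 4 * P.K.toNat + 20) := by
      rw [S11_mem] at hz ⊢
      have b1 := hrz.1
      have b2 := hrz.2
      have a1 : |r.1| ≤ |r.1 - z.1| + |z.1| := by
        have := abs_add_le (r.1 - z.1) z.1
        rwa [sub_add_cancel] at this
      have a2 : |r.2| ≤ |r.2 - z.2| + |z.2| := by
        have := abs_add_le (r.2 - z.2) z.2
        rwa [sub_add_cancel] at this
      rw [Prod.fst_sub] at b1
      rw [Prod.snd_sub] at b2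
      push_cast
      omega
    obtain ⟨c1, c2, c3⟩ := hk k hkM
    rw [← c1, ← hkΦ] at c2 c3
    unfold LSys.ct
    cases o'
    · exact c2
    · exact c3
  · cases o
    · have h1 : root S.ξ (z - e2) = root S.ξ z := by
        have := hw
        unfold wall at this
        simpa using this
      have h2 : root S'.ξ (z - e2) = root S'.ξ z := by
        unfold root at h1 ⊢
        rw [← hz2, ← hz0]
        exact h1
      change S.h z = S'.h z
      rw [(S.eh z).1 h1, (S'.eh z).1 h2, hv0, hv1, hz0]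
    · have h1 : root S.ξ (z - e1) = root S.ξ z := by
        have := hw
        unfold wall at this
        simpa using this
      have h2 : root S'.ξ (z - e1) = root S'.ξ z := by
        unfold root at h1 ⊢
        rw [← hz1, ← hz0]
        exact h1
      change S.v z = S'.v z
      rw [(S.ev z).1 h1, (S'.ev z).1 h2, hv0, hv2, hz0]

theorem decode3 {S S' : LSys P} {Φ Φ' : V → V} (hΦ : IsGrid S Φ) (hΦ' : IsGrid S' Φ')
    {M : ℕ}
    (hr : ∀ z ∈ dia (M + 4 * P.K.toNat + 20), S.ξ z = S'.ξ z)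
    (hk : ∀ k ∈ dia (M + 4 * P.K.toNat + 20), Φ k = Φ' k ∧
      S.h (Φ k) = S'.h (Φ' k) ∧ S.v (Φ k) = S'.v (Φ' k)) :
    ∀ z ∈ dia M, S.cell z = S'.cell z := by
  intro z hz
  unfold LSys.cell
  refine Prod.ext ?_ (Prod.ext ?_ ?_)
  · funext w
    change win P.K S.ξ z w = win P.K S'.ξ z w
    unfold win
    split_ifs with hw
    · refine hr _ (S11_near hz ?_ ?_)
      · have := hw.1
        omega
      · have := hw.2
        omega
    · rfl
  · exact S11_ct hΦ hr hk z hz false
  · exact S11_ct hΦ hr hk z hz true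

end BU39
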