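import Pool.Agent.LibBU39.Sys

/-!
TASK S12a.  Finiteness of the label sets.

`RawBd K` describes a finite set (bits and four bounded vectors; note that `g.P`, `g.Q`, `g.s`,
`p` and seven bits determine the raw label), `LabBd K` a finite set of functions (the values
outside the finite window are `dflt`, inside they are in a finite set: `Set.Finite.pi` on the
window), hence `ContBd`, `CellBd`, `GBd` describe finite sets.
-/

namespace BU39

private theorem S12a_bd (K : ℤ) : {v : V | Bd K v}.Finite := by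
  refine (Set.finite_Icc ((-K, -K) : V) (K, K)).subset ?_
  rintro ⟨x, y⟩ ⟨h1, h2⟩
  have h1' := abs_le.1 h1
  have h2' := abs_le.1 h2
  exact ⟨⟨h1'.1, h2'.1⟩, ⟨h1'.2, h2'.2⟩⟩

private def S12a_fg (g : Gl) : (V × V × V) × (Bool × Bool × Bool × Bool × Bool × Bool) :=
  ((g.s, g.P, g.Q), (g.a, g.b, g.t1, g.t2, g.u1, g.u2))

private theorem S12a_fg_inj : Function.Injective S12a_fg := by
  intro g g' h
  simp only [S12a_fg, Prod.mk.injEq] at h
  obtain ⟨⟨h1, h2, h3⟩, h4, h5, h6, h7, h8, h9⟩ := h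
  exact Gl.ext h1 h2 h3 h4 h5 h6 h7 h8 h9

private theorem S12a_gl (K : ℤ) : {g : Gl | Bd K g.s ∧ Bd K g.P ∧ Bd K g.Q}.Finite := by
  have h1 : (({v : V | Bd K v} ×ˢ ({v : V | Bd K v} ×ˢ {v : V | Bd K v})) ×ˢ
      (Set.univ : Set (Bool × Bool × Bool × Bool × Bool × Bool))).Finite :=
    ((S12a_bd K).prod ((S12a_bd K).prod (S12a_bd K))).prod Set.finite_univ
  refine (h1.preimage S12a_fg_inj.injOn).subset ?_
  rintro g ⟨h2, h3, h4⟩
  exact ⟨⟨h2, h3, h4⟩, Set.mem_univ _⟩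

private def S12a_fr (r : Raw) : Gl × V × Bool × Bool := (r.g, r.p, r.b1, r.b2)

private theorem S12a_fr_inj : Function.Injective S12a_fr := by
  intro g g' h
  simp only [S12a_fr, Prod.mk.injEq] at h
  obtain ⟨h1, h2, h3, h4⟩ := h
  exact Raw.ext h3 h4 h1 h2

theorem finite_raw (K : ℤ) : {r : Raw | RawBd K r}.Finite := by
  have h1 : ({g : Gl | Bd K g.s ∧ Bd K g.P ∧ Bd K g.Q} ×ˢ ({v : V | Bd K v} ×ˢ
      (Set.univ : Set (Bool × Bool)))).Finite :=
    (S12a_gl K).prod ((S12a_bd K).prod Set.finite_univ)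
  refine (h1.preimage S12a_fr_inj.injOn).subset ?_
  rintro r ⟨h2, h3, h4, h5⟩
  exact ⟨⟨h2, h3, h4⟩, h5, Set.mem_univ _⟩

theorem finite_lab (K : ℤ) : {μ : V → Raw | LabBd K μ}.Finite := by
  have hW : {w : V | Bd (K + 3) w}.Finite := S12a_bd (K + 3)
  have := hW.to_subtype
  have h1 : {f : {w : V | Bd (K + 3) w} → Raw | ∀ i, f i ∈ {r : Raw | RawBd K r}}.Finite :=
    Set.Finite.pi' fun _ => finite_raw K
  refine Set.Finite.of_finite_image
    (f := fun (μ : V → Raw) (w : {w : V | Bd (K + 3) w}) => μ w) (h1.subset ?_) ?_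
  · rintro _ ⟨μ, hμ, rfl⟩ w
    exact (hμ w).1
  · intro μ hμ μ' hμ' h2
    funext w
    by_cases hw : Bd (K + 3) w
    · exact congrFun h2 ⟨w, hw⟩
    · rw [(hμ w).2 hw, (hμ' w).2 hw]

private def S12a_fv (τ : VT) : Bool × Bool × Bool × Bool := (τ.E, τ.N, τ.W, τ.S)

private theorem S12a_fv_inj : Function.Injective S12a_fv := by
  intro g g' h
  simp only [S12a_fv, Prod.mk.injEq] at h
  obtain ⟨h1, h2, h3, h4⟩ := h
  exact VT.ext h1 h2 h3 h4

private theorem S12a_vt : (Set.univ : Set VT).Finite := by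
  have : Finite VT := Finite.of_injective _ S12a_fv_inj
  exact Set.finite_univ

theorem finite_cont (K : ℤ) : {c : Cont | ContBd K c}.Finite := by
  have h1 : ((Set.univ : Set Bool) ×ˢ ((Set.univ : Set VT) ×ˢ ((Set.univ : Set VT) ×ˢ
      {v : V | Bd K v}))).Finite :=
    Set.finite_univ.prod (S12a_vt.prod (S12a_vt.prod (S12a_bd K)))
  have h2 : ((Set.univ : Set Bool) ×ˢ ({μ : V → Raw | LabBd K μ} ×ˢ
      (Set.univ : Set Bool))).Finite :=
    Set.finite_univ.prod ((finite_lab K).prod Set.finite_univ)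
  refine ((h1.image fun x => Cont.intL x.1 x.2.1 x.2.2.1 x.2.2.2).union
    (h2.image fun x => Cont.intG x.1 x.2.1 x.2.2)).subset ?_
  rintro (⟨o, τ, σ, p⟩ | ⟨o, μ, f⟩) hc
  · exact Or.inl ⟨(o, τ, σ, p), ⟨Set.mem_univ _, Set.mem_univ _, Set.mem_univ _, hc⟩, rfl⟩
  · exact Or.inr ⟨(o, μ, f), ⟨Set.mem_univ _, hc, Set.mem_univ _⟩, rfl⟩

theorem finite_cell (K : ℤ) : {c : Cell | CellBd K c}.Finite := by
  refine ((finite_lab K).prod ((finite_cont K).prod (finite_cont K))).subset ?_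
  rintro ⟨μ, c, d⟩ ⟨h1, h2, h3⟩
  exact ⟨h1, h2, h3⟩

theorem finite_gcell (K : ℤ) : {c : GCell | GBd K c}.Finite := by
  refine ((S12a_gl K).prod ((finite_cont K).prod (finite_cont K))).subset ?_
  rintro ⟨μ, c, d⟩ ⟨h1, h2, h3⟩
  exact ⟨h1, h2, h3⟩

end BU39
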