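import Pool.Agent.LibBU39.S03
import Pool.Agent.LibBU39.S11
import Pool.Agent.LibBU39.S12
import Pool.Agent.LibBU39.S07

/-!
TASK S13.  The number of patterns of a `Λ`-level is bounded by the number of patterns of
the grid level.

Let `c0 = 4 K + 20` (`K` as a natural number), `M' = M + c0`.  For `X ∈ GX P` take the system
`S` of S03, `r0 = root ξ 0`, the grid `Φ` of S06 and the derived configuration `f X ∈ GY P`
of S07.  Data `d X`: `r0` (bounded by `K`) and the bits on the layer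
`dia (M' + 2 K) \ dia M'` (extend by `false` outside), `2 ^ (c (M + 1))` possibilities
(the layer has at most `c (M + 1)` cells).  If the data agree and the derived configurations
agree on `dia (M' + 1)`, then by S09 (with `M' + 1`), S10 (with `M'`), the raw labels agree
on `dia M'`, and by S11 the cells agree on `dia M`.  Use `cnt_le`.
The bounds of the raw labels: `CellBd` of `X z` gives `RawBd` of `ξ z = (X z).1 0`.
-/

namespace BU39

private theorem S13_bd (K : ℤ) : {v : V | Bd K v}.Finite := by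
  refine (Set.finite_Icc ((-K, -K) : V) (K, K)).subset ?_
  rintro ⟨x, y⟩ ⟨h1, h2⟩
  have h1' := abs_le.1 h1
  have h2' := abs_le.1 h2
  exact ⟨⟨h1'.1, h2'.1⟩, ⟨h1'.2, h2'.2⟩⟩

private theorem S13_layer (n k : ℕ) :
    (dia (n + k) \ dia n).ncard ≤ (2 * (n + k) + 1) * (2 * (k + 1)) := by
  classical
  have h1 : (dia (n + k) \ dia n).ncard ≤
      ((Finset.Icc (-((n : ℤ) + k)) ((n : ℤ) + k) ×ˢ ((Finset.univ : Finset Bool) ×ˢ
        Finset.Icc (0 : ℤ) k) : Finset (ℤ × Bool × ℤ)) : Set (ℤ × Bool × ℤ)).ncard := by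
    refine Set.ncard_le_ncard_of_injOn
      (fun z : V => (z.1, decide (0 ≤ z.2), |z.1| + |z.2| - (n : ℤ))) ?_ ?_
      (Finset.finite_toSet _)
    · rintro ⟨x, y⟩ ⟨h2, h3⟩
      have h2' : |x| + |y| ≤ ((n + k : ℕ) : ℤ) := h2
      have h3' : ¬ |x| + |y| ≤ (n : ℤ) := h3
      push_cast at h2'
      have hx := abs_nonneg x
      have hy := abs_nonneg y
      have hx1 := le_abs_self x
      have hx2 := neg_le_abs x
      simp only [Finset.coe_product, Set.mem_prod, Finset.mem_coe, Finset.mem_Icc,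
        Finset.mem_univ, true_and]
      refine ⟨⟨?_, ?_⟩, ?_, ?_⟩ <;> omega
    · rintro ⟨x, y⟩ _ ⟨x', y'⟩ _ h
      simp only [Prod.mk.injEq] at h
      obtain ⟨h2, h3, h4⟩ := h
      subst h2
      have h5 : |y| = |y'| := by omega
      have h6 : (0 ≤ y) ↔ (0 ≤ y') := by simpa using h3
      refine Prod.ext rfl ?_
      change y = y'
      rcases abs_cases y with ⟨h7, h8⟩ | ⟨h7, h8⟩ <;> rcases abs_cases y' with ⟨h9, h10⟩ | ⟨h9, h10⟩ <;>
        omega
  refine h1.trans ?_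
  rw [Set.ncard_coe_finset, Finset.card_product, Finset.card_product, Int.card_Icc, Int.card_Icc,
    Finset.card_univ, Fintype.card_bool]
  refine le_of_eq ?_
  have h2 : ((n : ℤ) + k + 1 - -((n : ℤ) + k)).toNat = 2 * (n + k) + 1 := by omega
  have h3 : ((k : ℤ) + 1 - 0).toNat = k + 1 := by omega
  rw [h2, h3]

private theorem S13_dia {m n : ℕ} (h : m ≤ n) : dia m ⊆ dia n := by
  intro z hz
  have h1 : |z.1| + |z.2| ≤ (m : ℤ) := hz
  have h2 : (m : ℤ) ≤ n := by exact_mod_cast h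
  exact h1.trans h2

/-- the data of a configuration -/
private theorem S13_ex (P : Par) (N : ℕ) (X : V → Cell) (hX : X ∈ GX P) :
    ∃ (S : LSys P) (Φ : V → V), IsGrid S Φ ∧ (∀ z, S.cell z = X z) ∧
      (fun k => ((S.ξ (Φ k)).g, S.h (Φ k), S.v (Φ k))) ∈ GY P ∧ Bd P.K (Φ 0) := by
  obtain ⟨S, hS⟩ := exists_sys hX
  have hK : 0 ≤ P.K := le_trans (abs_nonneg _) (S.lr 0).bd.1
  obtain ⟨Φ, h00, h0, h1, h2⟩ := S.exists_grid (r0 := root S.ξ 0) (S.lr 0).p0
  have hb : ∀ z, RawBd P.K (S.ξ z) := by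
    intro z
    have h3 : CellBd P.K (S.cell z) := by rw [hS]; exact (hX z).1
    have h4 := (h3.1 0).1
    have h5 : (S.cell z).1 0 = S.ξ z := by
      change win P.K S.ξ z 0 = S.ξ z
      unfold win
      rw [if_pos, add_zero]
      constructor <;> simp <;> linarith
    rwa [h5] at h4
  have hc : ∀ z, ContBd P.K (S.h z) ∧ ContBd P.K (S.v z) := by
    intro z
    have h3 : CellBd P.K (S.cell z) := by rw [hS]; exact (hX z).1
    exact ⟨h3.2.1, h3.2.2⟩
  refine ⟨S, Φ, ⟨h00.symm, h0, h1, h2⟩, hS, S.derived hb hc h0 h1 h2, ?_⟩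
  rw [h00]
  have h3 := (S.lr 0).bd
  unfold root
  rw [zero_sub]
  exact ⟨by rw [Prod.fst_neg, abs_neg]; exact h3.1, by rw [Prod.snd_neg, abs_neg]; exact h3.2⟩

theorem A_count (P : Par) : ∃ c : ℕ, ∀ M : ℕ,
    cnt (GX P) (dia M) ≤ 2 ^ (c * (M + 1)) * cnt (GY P) (dia (M + c)) := by
  classical
  set K := P.K.toNat with hKdef
  set a : ℕ := (2 * (4 * K + 20) + 4 * K + 3) * (2 * (2 * K + 1)) with ha
  set β : ℕ := {v : V | Bd P.K v}.ncard with hβ
  refine ⟨β + 2 * a + (4 * K + 20) + 1, fun M => ?_⟩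
  set c : ℕ := β + 2 * a + (4 * K + 20) + 1 with hc
  set M' : ℕ := M + 4 * K + 20 with hM'
  set Ly : Set V := dia (M' + 2 * K) \ dia M' with hLy
  have hLyf : Ly.Finite := (dia_finite _).subset Set.sdiff_subset
  have hLyi : Finite Ly := hLyf
  have key : ∀ X : V → Cell, ∃ (Y : V → GCell) (D : V × (Ly → Bool × Bool)), X ∈ GX P →
      Y ∈ GY P ∧ Bd P.K D.1 ∧ ∃ (S : LSys P) (Φ : V → V), IsGrid S Φ ∧ (∀ z, S.cell z = X z) ∧
        Y = (fun k => ((S.ξ (Φ k)).g, S.h (Φ k), S.v (Φ k))) ∧ D.1 = Φ 0 ∧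
        ∀ w : Ly, D.2 w = ((S.ξ w).b1, (S.ξ w).b2) := by
    intro X
    by_cases hX : X ∈ GX P
    · obtain ⟨S, Φ, h1, h2, h3, h4⟩ := S13_ex P 0 X hX
      exact ⟨_, (Φ 0, fun w : Ly => ((S.ξ w).b1, (S.ξ w).b2)), fun _ =>
        ⟨h3, h4, S, Φ, h1, h2, rfl, rfl, fun _ => rfl⟩⟩
    · exact ⟨fun _ => (⟨0, 0, 0, false, false, false, false, false, false⟩,
        Cont.intL false ⟨false, false, false, false⟩ ⟨false, false, false, false⟩ 0,
        Cont.intL false ⟨false, false, false, false⟩ ⟨false, false, false, false⟩ 0),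
        (0, fun _ => (false, false)), fun h => absurd h hX⟩
  choose f d hfd using key
  have hT : ({v : V | Bd P.K v} ×ˢ (Set.univ : Set (Ly → Bool × Bool))).Finite :=
    (S13_bd P.K).prod Set.finite_univ
  have hcard : ({v : V | Bd P.K v} ×ˢ (Set.univ : Set (Ly → Bool × Bool))).ncard ≤
      2 ^ (c * (M + 1)) := by
    rw [Set.ncard_prod, Set.ncard_univ, Nat.card_fun]
    have h1 : Nat.card (Bool × Bool) = 2 ^ 2 := by
      rw [Nat.card_eq_fintype_card]; rfl
    have h2 : Nat.card Ly ≤ a * (M + 1) := by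
      have h3 : Nat.card Ly = Ly.ncard := rfl
      rw [h3, hLy]
      refine (S13_layer M' (2 * K)).trans ?_
      rw [ha]
      have h4 : 2 * (M' + 2 * K) + 1 ≤ (2 * (4 * K + 20) + 4 * K + 3) * (M + 1) := by
        rw [hM']
        nlinarith [Nat.zero_le (K * M), Nat.zero_le M, Nat.zero_le K]
      calc (2 * (M' + 2 * K) + 1) * (2 * (2 * K + 1))
          ≤ ((2 * (4 * K + 20) + 4 * K + 3) * (M + 1)) * (2 * (2 * K + 1)) :=
            Nat.mul_le_mul_right _ h4
        _ = (2 * (4 * K + 20) + 4 * K + 3) * (2 * (2 * K + 1)) * (M + 1) := by ring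
    rw [h1, ← pow_mul]
    calc β * 2 ^ (2 * Nat.card Ly) ≤ 2 ^ β * 2 ^ (2 * (a * (M + 1))) := by
          refine Nat.mul_le_mul Nat.lt_two_pow_self.le (Nat.pow_le_pow_right (by norm_num) ?_)
          exact Nat.mul_le_mul_left _ h2
      _ = 2 ^ (β + 2 * (a * (M + 1))) := by rw [pow_add]
      _ ≤ 2 ^ (c * (M + 1)) := by
          refine Nat.pow_le_pow_right (by norm_num) ?_
          rw [hc]
          nlinarith [Nat.zero_le (β * M), Nat.zero_le (K * M), Nat.zero_le M, Nat.zero_le K]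
  have hfin : ((fun (X : V → GCell) (z : dia (M + c)) => X z) '' GY P).Finite :=
    pat_finite (finite_gcell P.K) (dia_finite _) (fun Y hY z _ => (hY z).1)
  refine (cnt_le hT hfin f d (fun X hX => (hfd X hX).1)
    (fun X hX => ⟨(hfd X hX).2.1, Set.mem_univ _⟩) ?_).trans (Nat.mul_le_mul_right _ hcard)
  intro X hX X' hX' hdd hff
  obtain ⟨-, -, S, Φ, hΦ, hS, hY, hD1, hD2⟩ := hfd X hX
  obtain ⟨-, -, S', Φ', hΦ', hS', hY', hD1', hD2'⟩ := hfd X' hX'
  have hff' : ∀ k ∈ dia (M + c), ((S.ξ (Φ k)).g, S.h (Φ k), S.v (Φ k)) =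
      ((S'.ξ (Φ' k)).g, S'.h (Φ' k), S'.v (Φ' k)) := by
    intro k hk
    have h1 := hff k hk
    rw [hY, hY'] at h1
    exact h1
  have hsub : dia (M' + 1) ⊆ dia (M + c) := S13_dia (by rw [hM', hc]; omega)
  have hsub' : dia M' ⊆ dia (M + c) := S13_dia (by rw [hM', hc]; omega)
  have h00 : Φ 0 = Φ' 0 := by rw [← hD1, ← hD1', hdd]
  obtain ⟨g1, g2⟩ := decode1 (M := M' + 1) hΦ hΦ' h00
    (fun k hk => congrArg Prod.fst (hff' k (hsub hk)))
  have g3 := decode2 (M := M') hΦ hΦ' g2 (by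
    intro z hz
    have h1 := hD2 ⟨z, hz⟩
    have h2 := hD2' ⟨z, hz⟩
    rw [hdd, h2] at h1
    have h3 := Prod.mk.inj h1
    exact ⟨h3.1.symm, h3.2.symm⟩)
  have hr : ∀ z ∈ dia (M + 4 * P.K.toNat + 20), S.ξ z = S'.ξ z := by
    intro z hz
    have h1 := g3 z hz
    have h2 := g2 z (S13_dia (by omega : M' ≤ M' + 1) hz)
    exact Raw.ext h1.1 h1.2 h2.2 h2.1
  have hk : ∀ k ∈ dia (M + 4 * P.K.toNat + 20), Φ k = Φ' k ∧
      S.h (Φ k) = S'.h (Φ' k) ∧ S.v (Φ k) = S'.v (Φ' k) := by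
    intro k hk
    have h1 := hff' k (hsub' hk)
    simp only [Prod.mk.injEq] at h1
    exact ⟨g1 k (S13_dia (by omega : M' ≤ M' + 1) hk), h1.2.1, h1.2.2⟩
  intro z hz
  rw [← hS, ← hS']
  exact decode3 hΦ hΦ' hr hk z hz

end BU39
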