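import Pool.Agent.LibBU39.Sys

/-!
TASK S14.  The three kinds of vertices at a grid level.

At a vertex `k` of a configuration `Y` of a grid level write `g = (Y k).1`, and
`cE = (Y k).2.1`, `cN = (Y k).2.2`, `cW = (Y (k - e1)).2.1`, `cS = (Y (k - e2)).2.2`.
By `RelGH`, `RelGV` (at `k`, `k - e1`, `k - e2`) with `RG`, `UG`:
* if `g.b = false` then `cE = intG false μ g.a` and `cW = intG false μ' (Y (k - e1)).1.a`;
* if `g.a = false` then `cN = intG true μ g.b` and `cS = intG true μ' (Y (k - e2)).1.b`;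
* if `g.a = true` then `(Y (k - e1)).1.a = false`; if `g.b = true` then
  `(Y (k - e2)).1.b = false`.
Then the cases of `VR`:
* `g.a = g.b = false`: only the second case is possible (`VA` needs at least two `intL`; the
  third has flag `true` for `N`, the fourth flag `true` for `E`).
* `g.a = false`, `g.b = true`: `VA τ`: `N`, `S` are `intG`, so both are walls of `τ`, then
  `cN = cS`, but the flags are `true` and `false`.  Second: flag of `N` is `true`.  Fourth:
  `cN = cS` impossible.  So the third case.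
* `g.a = true`, `g.b = false`: the fourth case in the same way.
-/

namespace BU39

variable {P : Par} {Y : V → GCell}

private theorem s14_E (hY : Y ∈ GY P) {k : V} (hb : (Y k).1.b = false) :
    ∃ μ, (Y k).2.1 = Cont.intG false μ (Y k).1.a := by
  obtain ⟨-, ⟨-, h⟩, -, -⟩ := hY k
  obtain ⟨μ, h1, -⟩ := h hb
  exact ⟨μ, h1⟩

private theorem s14_N (hY : Y ∈ GY P) {k : V} (ha : (Y k).1.a = false) :
    ∃ μ, (Y k).2.2 = Cont.intG true μ (Y k).1.b := by
  obtain ⟨-, -, ⟨-, h⟩, -⟩ := hY k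
  obtain ⟨μ, h1, -⟩ := h ha
  exact ⟨μ, h1⟩

private theorem s14_bW (hY : Y ∈ GY P) (k : V) : (Y (k - e1)).1.b = (Y k).1.b := by
  obtain ⟨-, -, ⟨⟨-, -, h, -⟩, -⟩, -⟩ := hY k
  exact h

private theorem s14_aS (hY : Y ∈ GY P) (k : V) : (Y (k - e2)).1.a = (Y k).1.a := by
  obtain ⟨-, ⟨⟨-, -, h, -⟩, -⟩, -, -⟩ := hY k
  exact h

private theorem s14_aW (hY : Y ∈ GY P) {k : V} (ha : (Y k).1.a = true) :
    (Y (k - e1)).1.a = false := by
  obtain ⟨-, -, ⟨⟨-, -, -, -, h⟩, -⟩, -⟩ := hY k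
  by_contra hc
  have := h (by simpa using hc)
  rw [ha] at this
  exact Bool.noConfusion this

private theorem s14_bS (hY : Y ∈ GY P) {k : V} (hb : (Y k).1.b = true) :
    (Y (k - e2)).1.b = false := by
  obtain ⟨-, ⟨⟨-, -, -, -, h⟩, -⟩, -, -⟩ := hY k
  by_contra hc
  have := h (by simpa using hc)
  rw [hb] at this
  exact Bool.noConfusion this

theorem GY.vI (hY : Y ∈ GY P) {k : V} (ha : (Y k).1.a = false) (hb : (Y k).1.b = false) :
    ∃ μ, (Y k).2.1 = Cont.intG false μ false ∧ (Y k).2.2 = Cont.intG true μ false ∧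
      (Y (k - e1)).2.1 = Cont.intG false μ (Y (k - e1)).1.a ∧
      (Y (k - e2)).2.2 = Cont.intG true μ (Y (k - e2)).1.b := by
  obtain ⟨μ1, hE⟩ := s14_E hY hb
  obtain ⟨μ2, hN⟩ := s14_N hY ha
  obtain ⟨μ3, hW⟩ := s14_E hY ((s14_bW hY k).trans hb)
  obtain ⟨μ4, hS⟩ := s14_N hY ((s14_aS hY k).trans ha)
  rw [ha] at hE
  rw [hb] at hN
  obtain ⟨-, -, -, hv⟩ := hY k
  rcases hv with ⟨τ, h⟩ | ⟨μ, fW, fS, h1, h2, h3, h4⟩ | ⟨μ, μ', h1, -⟩ | ⟨μ, μ', h1, -⟩
  · exfalso
    obtain ⟨hc, hE', hN', hW', hS', -⟩ := h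
    have e1' : τ.E = true := by
      by_contra hx
      obtain ⟨σ, p, hh⟩ := hE' (by simpa using hx)
      rw [hE] at hh
      cases hh
    have e2' : τ.N = true := by
      by_contra hx
      obtain ⟨σ, p, hh⟩ := hN' (by simpa using hx)
      rw [hN] at hh
      cases hh
    have e3' : τ.W = true := by
      by_contra hx
      obtain ⟨σ, p, hh⟩ := hW' (by simpa using hx)
      rw [hW] at hh
      cases hh
    simp [VT.cnt, e1', e2', e3'] at hc
    omega
  · have h1' : μ1 = μ := by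
      rw [hE] at h1
      cases h1
      rfl
    have h2' : μ2 = μ := by
      rw [hN] at h2
      cases h2
      rfl
    have h3' : μ3 = μ := by
      rw [hW] at h3
      cases h3
      rfl
    have h4' : μ4 = μ := by
      rw [hS] at h4
      cases h4
      rfl
    subst h1'
    subst h2'
    subst h3'
    subst h4'
    exact ⟨_, hE, hN, hW, hS⟩
  · rw [hN] at h1
    cases h1
  · rw [hE] at h1
    cases h1

theorem GY.vH (hY : Y ∈ GY P) {k : V} (ha : (Y k).1.a = false) (hb : (Y k).1.b = true) :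
    ∃ μ μ', (Y k).2.2 = Cont.intG true μ' true ∧ (Y (k - e2)).2.2 = Cont.intG true μ false ∧
      (Y k).2.1 = (Y (k - e1)).2.1 ∧ RelN P μ μ' (Y k).2.1 := by
  obtain ⟨μ2, hN⟩ := s14_N hY ha
  obtain ⟨μ4, hS⟩ := s14_N hY ((s14_aS hY k).trans ha)
  rw [hb] at hN
  rw [s14_bS hY hb] at hS
  obtain ⟨-, -, -, hv⟩ := hY k
  rcases hv with ⟨τ, h⟩ | ⟨μ, fW, fS, h1, h2, h3, h4⟩ | ⟨μ, μ', h1, h2, h3, h4⟩ |
    ⟨μ, μ', h1, h2, h3, h4⟩
  · exfalso
    obtain ⟨hc, hE', hN', hW', hS', -, -, -, -, hNS, -⟩ := h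
    have e2' : τ.N = true := by
      by_contra hx
      obtain ⟨σ, p, hh⟩ := hN' (by simpa using hx)
      rw [hN] at hh
      cases hh
    have e4' : τ.S = true := by
      by_contra hx
      obtain ⟨σ, p, hh⟩ := hS' (by simpa using hx)
      rw [hS] at hh
      cases hh
    have := hNS e2' e4'
    rw [hN, hS] at this
    cases this
  · rw [hN] at h2
    cases h2
  · exact ⟨μ, μ', h1, h2, h3, h4⟩
  · rw [hN, hS] at h3
    cases h3

theorem GY.vV (hY : Y ∈ GY P) {k : V} (ha : (Y k).1.a = true) (hb : (Y k).1.b = false) :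
    ∃ μ μ', (Y k).2.1 = Cont.intG false μ' true ∧ (Y (k - e1)).2.1 = Cont.intG false μ false ∧
      (Y k).2.2 = (Y (k - e2)).2.2 ∧ RelE P μ μ' (Y k).2.2 := by
  obtain ⟨μ1, hE⟩ := s14_E hY hb
  obtain ⟨μ3, hW⟩ := s14_E hY ((s14_bW hY k).trans hb)
  rw [ha] at hE
  rw [s14_aW hY ha] at hW
  obtain ⟨-, -, -, hv⟩ := hY k
  rcases hv with ⟨τ, h⟩ | ⟨μ, fW, fS, h1, h2, h3, h4⟩ | ⟨μ, μ', h1, h2, h3, h4⟩ |
    ⟨μ, μ', h1, h2, h3, h4⟩
  · exfalso
    obtain ⟨hc, hE', hN', hW', hS', -, hEW, -, -, -, -⟩ := h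
    have e1' : τ.E = true := by
      by_contra hx
      obtain ⟨σ, p, hh⟩ := hE' (by simpa using hx)
      rw [hE] at hh
      cases hh
    have e3' : τ.W = true := by
      by_contra hx
      obtain ⟨σ, p, hh⟩ := hW' (by simpa using hx)
      rw [hW] at hh
      cases hh
    have := hEW e1' e3'
    rw [hE, hW] at this
    cases this
  · rw [hE] at h1
    cases h1
  · rw [hE, hW] at h3
    cases h3
  · exact ⟨μ, μ', h1, h2, h3, h4⟩

end BU39
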