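import Pool.Agent.LibBU39.S14

/-!
TASK S15.  The label of a block.

`colF Y i := (Y (i, 0)).1.a`; by `UG` the flag `(Y (i, j)).1.a` depends only on `i`, by `RG`
the flag `(Y (i, j)).1.b` depends only on `j`.  By `RG` two adjacent columns do not both have
flag `true`.
`mu Y (i, j)`: take `i' = i` if column `i` has flag `false` and `i' = i + 1` otherwise; then
column `i'` has flag `false` and `(Y (i', j)).2.2 = intG true μ b` by `RelGV`; `mu := μ`.
Then:
(1) `mu Y (i, j + 1) = mu Y (i, j)` if row `j + 1` has flag `false`: `GY.vI` at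
    `(i', j + 1)`.
(2) `mu Y (i + 1, j) = mu Y (i, j)` if column `i + 1` has flag `false`: if column `i` has flag
    `true` both are read off at `i + 1`.  Otherwise let `j' = j` if row `j` has flag `false`
    and `j' = j + 1` otherwise (then row `j'` has flag `false`, and by (1)
    `mu Y (i, j') = mu Y (i, j)`, same for `i + 1`); `GY.vI` at `(i, j')` and `(i + 1, j')`
    share the horizontal edge `(Y (i, j')).2.1`.
(3) interior edges carry `mu`; `TG (Y k).1 (mu Y k)`.
-/

namespace BU39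

variable {P : Par} {Y : V → GCell}

private theorem S15_const {α : Type*} (f : ℤ → α) (h : ∀ j, f (j - 1) = f j) (j j' : ℤ) :
    f j = f j' := by
  have h0 : ∀ j, f j = f 0 := by
    intro j
    induction j using Int.induction_on with
    | zero => rfl
    | succ i ih =>
      rw [← ih, ← h ((i : ℤ) + 1)]
      congr 1
      ring
    | pred i ih =>
      rw [← ih, ← h (-(i : ℤ))]
  rw [h0 j, h0 j']

private theorem S15_sub2 (i j : ℤ) : ((i, j) : V) - e2 = (i, j - 1) := by
  unfold e2
  ext <;> simp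

private theorem S15_sub1 (i j : ℤ) : ((i, j) : V) - e1 = (i - 1, j) := by
  unfold e1
  ext <;> simp

private theorem S15_UG (hY : Y ∈ GY P) (k : V) : UG (Y k).1 (Y (k + e2)).1 := by
  have h := (hY (k + e2)).2.1.1
  rwa [add_sub_cancel_right] at h

private theorem S15_RG (hY : Y ∈ GY P) (k : V) : RG (Y k).1 (Y (k + e1)).1 := by
  have h := (hY (k + e1)).2.2.1.1
  rwa [add_sub_cancel_right] at h

theorem GY.colF (hY : Y ∈ GY P) (i j j' : ℤ) : (Y (i, j)).1.a = (Y (i, j')).1.a := by
  refine S15_const (fun j => (Y (i, j)).1.a) (fun j => ?_) j j'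
  have h := (hY (i, j)).2.1.1
  rw [S15_sub2] at h
  exact h.2.2.1

theorem GY.rowF (hY : Y ∈ GY P) (i i' j : ℤ) : (Y (i, j)).1.b = (Y (i', j)).1.b := by
  refine S15_const (fun i => (Y (i, j)).1.b) (fun i => ?_) i i'
  have h := (hY (i, j)).2.2.1.1
  rw [S15_sub1] at h
  exact h.2.2.1

theorem GY.colP (hY : Y ∈ GY P) (i j j' : ℤ) :
    (Y (i, j)).1.P = (Y (i, j')).1.P ∧ (Y (i, j)).1.s = (Y (i, j')).1.s := by
  constructor
  · refine S15_const (fun j => (Y (i, j)).1.P) (fun j => ?_) j j'
    have h := (hY (i, j)).2.1.1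
    rw [S15_sub2] at h
    exact h.2.1
  · refine S15_const (fun j => (Y (i, j)).1.s) (fun j => ?_) j j'
    have h := (hY (i, j)).2.1.1
    rw [S15_sub2] at h
    exact h.1

theorem GY.rowQ (hY : Y ∈ GY P) (i i' j : ℤ) :
    (Y (i, j)).1.Q = (Y (i', j)).1.Q ∧ (Y (i, j)).1.s = (Y (i', j)).1.s := by
  constructor
  · refine S15_const (fun i => (Y (i, j)).1.Q) (fun i => ?_) i i'
    have h := (hY (i, j)).2.2.1.1
    rw [S15_sub1] at h
    exact h.2.1
  · refine S15_const (fun i => (Y (i, j)).1.s) (fun i => ?_) i i'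
    have h := (hY (i, j)).2.2.1.1
    rw [S15_sub1] at h
    exact h.1

theorem GY.exists_mu (hY : Y ∈ GY P) : ∃ mu : V → V → Raw,
    (∀ k, (Y (k + e1)).1.a = false → mu (k + e1) = mu k) ∧
    (∀ k, (Y (k + e2)).1.b = false → mu (k + e2) = mu k) ∧
    (∀ k, (Y k).1.a = false → (Y k).2.2 = Cont.intG true (mu k) (Y k).1.b) ∧
    (∀ k, (Y k).1.b = false → (Y k).2.1 = Cont.intG false (mu k) (Y k).1.a) ∧
    (∀ k, TG (Y k).1 (mu k)) ∧ ∀ k, LabBd P.K (mu k) := by
  obtain ⟨c, hc⟩ : ∃ c : V → V, ∀ k, c k = if (Y k).1.a = false then k else k + e1 :=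
    ⟨_, fun _ => rfl⟩
  have hc0 : ∀ k, (Y k).1.a = false → c k = k := fun k h => by rw [hc, if_pos h]
  have hc1 : ∀ k, (Y k).1.a = true → c k = k + e1 := fun k h => by
    rw [hc, if_neg (by rw [h]; decide)]
  have ha1 : ∀ k, (Y k).1.a = true → (Y (k + e1)).1.a = false := fun k h =>
    (S15_RG hY k).2.2.2.2 h
  have hb1 : ∀ k, (Y k).1.b = true → (Y (k + e2)).1.b = false := fun k h =>
    (S15_UG hY k).2.2.2.2 h
  have haU : ∀ k, (Y (k + e2)).1.a = (Y k).1.a := fun k => (S15_UG hY k).2.2.1.symm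
  have hbR : ∀ k, (Y (k + e1)).1.b = (Y k).1.b := fun k => (S15_RG hY k).2.2.1.symm
  have hca : ∀ k, (Y (c k)).1.a = false := by
    intro k
    rcases Bool.eq_false_or_eq_true (Y k).1.a with h | h
    · rw [hc1 k h]; exact ha1 k h
    · rw [hc0 k h]; exact h
  have hM : ∀ k, ∃ μ, (Y (c k)).2.2 = Cont.intG true μ (Y (c k)).1.b ∧
      TG (Y (c k - e1)).1 μ ∧ TG (Y (c k)).1 μ := fun k => (hY (c k)).2.2.1.2 (hca k)
  choose mu hmu using hM
  have huniq : ∀ k μ f, (Y (c k)).2.2 = Cont.intG true μ f → mu k = μ := by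
    intro k μ f h
    have h1 := (hmu k).1
    rw [h] at h1
    injection h1 with _ h2 _
    exact h2.symm
  have hcb : ∀ k, (Y (c k)).1.b = (Y k).1.b := by
    intro k
    rcases Bool.eq_false_or_eq_true (Y k).1.a with h | h
    · rw [hc1 k h]; exact hbR k
    · rw [hc0 k h]
  have hce2 : ∀ k, c (k + e2) = c k + e2 := by
    intro k
    rcases Bool.eq_false_or_eq_true (Y k).1.a with h | h
    · rw [hc1 k h, hc1 (k + e2) (by rw [haU]; exact h)]
      abel
    · rw [hc0 k h, hc0 (k + e2) (by rw [haU]; exact h)]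
  have h2 : ∀ k, (Y (k + e2)).1.b = false → mu (k + e2) = mu k := by
    intro k hk
    have a0 : (Y (c (k + e2))).1.a = false := hca _
    have b0 : (Y (c (k + e2))).1.b = false := by rw [hcb]; exact hk
    obtain ⟨μ, i1, i2, i3, i4⟩ := GY.vI hY a0 b0
    rw [huniq _ _ _ i2]
    rw [hce2, add_sub_cancel_right] at i4
    rw [huniq _ _ _ i4]
  have h1 : ∀ k, (Y (k + e1)).1.a = false → mu (k + e1) = mu k := by
    intro k hk
    rcases Bool.eq_false_or_eq_true (Y k).1.a with h | h
    · have i1 := (hmu (k + e1)).1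
      rw [hc0 _ hk] at i1
      have i2 := (hmu k).1
      rw [hc1 _ h, i1] at i2
      injection i2 with _ i3 _
    · have main : ∀ q, (Y q).1.a = false → (Y q).1.b = false → (Y (q + e1)).1.a = false →
          mu (q + e1) = mu q := by
        intro q qa qb qa'
        obtain ⟨μ, i1, i2, i3, i4⟩ := GY.vI hY qa qb
        obtain ⟨μ', j1, j2, j3, j4⟩ := GY.vI hY qa' (by rw [hbR]; exact qb)
        rw [add_sub_cancel_right, i1] at j3
        injection j3 with _ e _
        have l1 : mu q = μ := huniq q μ false (by rw [hc0 q qa]; exact i2)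
        have l2 : mu (q + e1) = μ' := huniq (q + e1) μ' false (by rw [hc0 _ qa']; exact j2)
        rw [l1, l2, e]
      rcases Bool.eq_false_or_eq_true (Y k).1.b with hb | hb
      · have e : k + e2 + e1 = k + e1 + e2 := by abel
        have hq := main (k + e2) (by rw [haU]; exact h) (hb1 k hb)
          (by rw [e, haU]; exact hk)
        rw [e, h2 (k + e1) (by rw [← e, hbR]; exact hb1 k hb), h2 k (hb1 k hb)] at hq
        exact hq
      · exact main k h hb hk
  refine ⟨mu, h1, h2, ?_, ?_, ?_, ?_⟩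
  · intro k hk
    have i1 := (hmu k).1
    rwa [hc0 _ hk] at i1
  · intro k hk
    obtain ⟨μ, i1, -, -⟩ := (hY k).2.1.2 hk
    rcases Bool.eq_false_or_eq_true (Y k).1.a with h | h
    · obtain ⟨μ', j1, j2, j3, j4⟩ := GY.vI hY (ha1 k h) (by rw [hbR]; exact hk)
      rw [add_sub_cancel_right] at j3
      have l : mu k = μ' := huniq k μ' false (by rw [hc1 k h]; exact j2)
      rw [l]
      exact j3
    · obtain ⟨μ', j1, j2, j3, j4⟩ := GY.vI hY h hk
      have l : mu k = μ' := huniq k μ' false (by rw [hc0 k h]; exact j2)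
      rw [l, h]
      exact j1
  · intro k
    rcases Bool.eq_false_or_eq_true (Y k).1.a with h | h
    · have i1 := (hmu k).2.1
      rwa [hc1 _ h, add_sub_cancel_right] at i1
    · have i1 := (hmu k).2.2
      rwa [hc0 _ h] at i1
  · intro k
    have i1 := (hY (c k)).1.2.2
    rw [(hmu k).1] at i1
    exact i1

end BU39
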