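import Mathlib

/-!
TASK S16.  Block coordinates on the line (pure combinatorics of `ℤ`).

`F : ℤ → Bool` marks the starts of the blocks, no two adjacent integers are marked.  There is
`c : ℤ → ℤ` with `c 0 = 0` and `c (i + 1) = c i + (1 if F (i + 1) else 0)`.  It is monotone,
`2 |c i| ≤ |i| + 1`.  There is a partial inverse `st`: for `n` in the range of `c` which is
not the first block (i.e. `n - 1` is also in the range), `st n` is the start of block `n`:
`F (st n) = true`, `c (st n) = n`, `c (st n - 1) = n - 1`, and `c i = n, F i = true`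
implies `i = st n`.
-/

namespace BU39

/-- Block coordinates. -/
structure Blk (F : ℤ → Bool) where
  c : ℤ → ℤ
  st : ℤ → ℤ
  c0 : c 0 = 0
  step : ∀ i, c (i + 1) = c i + (if F (i + 1) then 1 else 0)
  mono : Monotone c
  bd : ∀ i, 2 * |c i| ≤ |i| + 1
  stF : ∀ n, (∃ i, c i = n) → (∃ i, c i = n - 1) → F (st n) = true ∧ c (st n) = n
  stU : ∀ i, F i = true → st (c i) = i

/-- The counting function. -/
def S16_c (f : ℤ → ℤ) : ℤ → ℤ
  | Int.ofNat n => ∑ k ∈ Finset.range n, f ((k : ℤ) + 1)
  | Int.negSucc n => - ∑ k ∈ Finset.range (n + 1), f (-(k : ℤ))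

theorem S16_step (f : ℤ → ℤ) (i : ℤ) : S16_c f (i + 1) = S16_c f i + f (i + 1) := by
  cases i with
  | ofNat n =>
    have h : (Int.ofNat n + 1 : ℤ) = Int.ofNat (n + 1) := rfl
    rw [h]
    simp only [S16_c, Finset.sum_range_succ]
    rfl
  | negSucc n =>
    cases n with
    | zero =>
      have h : (Int.negSucc 0 + 1 : ℤ) = Int.ofNat 0 := rfl
      rw [h]
      simp [S16_c]
    | succ n =>
      have h : (Int.negSucc (n + 1) + 1 : ℤ) = Int.negSucc n := rfl
      rw [h]
      simp only [S16_c]
      rw [Finset.sum_range_succ (fun k : ℕ => f (-(k : ℤ))) (n + 1)]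
      have h2 : (-((n + 1 : ℕ) : ℤ)) = Int.negSucc n := rfl
      rw [h2]
      ring

theorem exists_blk (F : ℤ → Bool) (hF : ∀ i, F i = true → F (i + 1) = false) :
    Nonempty (Blk F) := by
  classical
  set f : ℤ → ℤ := fun i => if F i then 1 else 0 with hf
  have hf0 : ∀ i, 0 ≤ f i := fun i => by simp only [hf]; split <;> norm_num
  have hf1 : ∀ i, f i ≤ 1 := fun i => by simp only [hf]; split <;> norm_num
  have hf2 : ∀ i, f i + f (i + 1) ≤ 1 := fun i => by
    by_cases h : F i = true
    · have := hF i h
      simp [hf, h, this]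
    · have h' : f i = 0 := by simp [hf, h]
      rw [h']; linarith [hf1 (i + 1)]
  have hstep := S16_step f
  have hc0 : S16_c f 0 = 0 := by
    show S16_c f (Int.ofNat 0) = 0
    simp [S16_c]
  have hmono : Monotone (S16_c f) :=
    monotone_int_of_le_succ fun i => by rw [hstep]; linarith [hf0 (i + 1)]
  have hpos : ∀ n : ℕ, 2 * S16_c f n ≤ n + 1 ∧ 2 * S16_c f (n + 1) ≤ (n + 1) + 1 := by
    intro n
    induction n with
    | zero =>
      constructor
      · simp [hc0]
      · have := hstep 0
        rw [hc0] at this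
        simp only [Nat.cast_zero]
        rw [this]
        linarith [hf1 (0 + 1)]
    | succ n ih =>
      refine ⟨by push_cast; exact ih.2, ?_⟩
      push_cast
      have h1 := hstep (n + 1)
      have h2 := hstep n
      have h3 := hf2 (n + 1)
      linarith [ih.1]
  have hneg : ∀ n : ℕ, 2 * (-S16_c f (-n)) ≤ n + 1 ∧ 2 * (-S16_c f (-(n + 1))) ≤ (n + 1) + 1 := by
    intro n
    induction n with
    | zero =>
      constructor
      · simp [hc0]
      · have := hstep (-1)
        have e : (-1 + 1 : ℤ) = 0 := by norm_num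
        rw [e, hc0] at this
        simp only [Nat.cast_zero]
        have e2 : (-(0 + 1) : ℤ) = -1 := by norm_num
        rw [e2]
        linarith [hf1 0]
    | succ n ih =>
      refine ⟨by push_cast; exact ih.2, ?_⟩
      push_cast
      have h1 := hstep (-(n + 1 + 1))
      have h2 := hstep (-(n + 1))
      have e1 : (-((n : ℤ) + 1 + 1) + 1) = -(n + 1) := by ring
      have e2 : (-((n : ℤ) + 1) + 1) = -n := by ring
      rw [e1] at h1
      rw [e2] at h2
      have h3 := hf2 (-(n + 1))
      rw [e2] at h3
      linarith [ih.1]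
  have hU : ∀ i j, F i = true → F j = true → S16_c f i = S16_c f j → ¬ i < j := by
    intro i j _ hj h hij
    have h1 : S16_c f i ≤ S16_c f (j - 1) := hmono (by omega)
    have h2 := hstep (j - 1)
    rw [sub_add_cancel] at h2
    have h3 : f j = 1 := by simp [hf, hj]
    rw [h3] at h2
    omega
  have hex : ∀ n, (∃ i, S16_c f i = n) → (∃ i, S16_c f i = n - 1) →
      ∃ i, F i = true ∧ S16_c f i = n := by
    rintro n ⟨i, hi⟩ ⟨j, hj⟩
    -- the largest point at most `i` with value at most `n - 1`
    have hji : j < i := by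
      by_contra hcon
      have := hmono (not_lt.1 hcon)
      omega
    obtain ⟨m, ⟨hm1, hm2⟩, hm3⟩ := Int.exists_greatest_of_bdd
      (P := fun z => S16_c f z ≤ n - 1 ∧ z ≤ i) ⟨i, fun z hz => hz.2⟩ ⟨j, hj.le, hji.le⟩
    have hmi : m < i := by
      rcases hm2.lt_or_eq with h | h
      · exact h
      · rw [h, hi] at hm1; omega
    have hgt : ¬ (S16_c f (m + 1) ≤ n - 1) := fun h => by
      have := hm3 (m + 1) ⟨h, by omega⟩
      omega
    have hs := hstep m
    have h1 := hf1 (m + 1)
    have h2 : f (m + 1) = 1 := by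
      have := hf0 (m + 1)
      omega
    refine ⟨m + 1, ?_, by omega⟩
    by_contra hcon
    simp [hf, hcon] at h2
  refine ⟨{ c := S16_c f
            st := fun n => if h : ∃ i, F i = true ∧ S16_c f i = n then h.choose else 0
            c0 := hc0
            step := fun i => ?_
            mono := hmono
            bd := fun i => ?_
            stF := fun n h1 h2 => ?_
            stU := fun i hi => ?_ }⟩
  · rw [hstep]
  · rcases le_total 0 i with h | h
    · obtain ⟨n, rfl⟩ := Int.eq_ofNat_of_zero_le h
      have h0 : 0 ≤ S16_c f n := by rw [← hc0]; exact hmono h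
      rw [abs_of_nonneg h0, abs_of_nonneg h]
      exact (hpos n).1
    · obtain ⟨n, hn⟩ := Int.eq_ofNat_of_zero_le (by omega : 0 ≤ -i)
      have hi : i = -(n : ℤ) := by omega
      subst hi
      have h0 : S16_c f (-n) ≤ 0 := by rw [← hc0]; exact hmono h
      rw [abs_of_nonpos h0, abs_of_nonpos h, neg_neg]
      exact (hneg n).1
  · have h := hex n h1 h2
    simp only [dif_pos h]
    exact h.choose_spec
  · have h : ∃ j, F j = true ∧ S16_c f j = S16_c f i := ⟨i, hi, rfl⟩
    simp only [dif_pos h]
    obtain ⟨h1, h2⟩ := h.choose_spec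
    rcases lt_trichotomy h.choose i with h3 | h3 | h3
    · exact absurd h3 (hU _ _ h1 hi h2)
    · exact h3
    · exact absurd h3 (hU _ _ hi h1 h2.symm)

end BU39
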