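import Pool.Agent.LibBU39.S15
import Pool.Agent.LibBU39.S16

/-!
TASK S17.  The derived pattern of a grid level.

`Y ∈ GY P`, `cc : Blk (fun i => (Y (i, 0)).1.a)`, `rr : Blk (fun j => (Y (0, j)).1.b)`, `mu` as
in S15.  The block of `k` has the coordinates `blk k = (cc.c k.1, rr.c k.2)`.  By S15 (1), (2)
`mu k` depends only on `blk k` (two cells of the same block are joined by steps inside the
block because `cc.c`, `rr.c` are monotone with steps 0 and 1).
Define `Z : V → Cell`: for a block `n = blk k` put
`Z n := (mu k, (Y (k.1, rr.st n.2)).2.1, (Y (cc.st n.1, k.2)).2.2)`,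
where for the contents one chooses any `k` with `blk k = n`: the bottom side of the block is a
straight line in row `rr.st n.2` and its contents do not depend on `k.1` by `GY.vH`
(first component of consecutive edges of one block: for `k.1`, `k.1 + 1` in the same block
the column `k.1 + 1` has flag `false`), the left side similarly by `GY.vV`.  If there is no
bottom side (the block below does not exist) take any bounded content, e.g. `(Y 0).2.1`.
Claims:
(1) rules: if `n`, `n - e1`, `n - e2` are blocks then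
    `Rule P (Z n) (Z (n - e1)) (Z (n - e2))`: let `k = (cc.st n.1, rr.st n.2)`, both flags
    true.  `RelN` from `GY.vH` at `k + e1` (column `k.1 + 1` has flag false, same block):
    `(Y (k + e1)).2.2 = intG true μ' true` with `μ' = mu (k + e1) = mu k` by S15,
    `(Y (k + e1 - e2)).2.2 = intG true μ false`, `μ = mu (k + e1 - e2)` = label of the block
    `n - e2`, and the content is `(Y (k + e1)).2.1 = (Y k).2.1`.  `RelE` similarly from
    `GY.vV` at `k + e2`.  `VR` at the vertex `k`: contents `(Y k).2.1`, `(Y k).2.2`,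
    `(Y (k - e1)).2.1` = content of the bottom side of the block `n - e1`, same for `e2`.
(2) decoding: `Y k` is determined by `(s, P, a)` of the column, `(Q, b)` of the row and
    `Z (blk k)`: the label by `TG`, the contents: interior edges by `mu` and flags, others are
    the contents of the sides.
-/

namespace BU39

variable {P : Par} {Y : V → GCell}

/-- The coordinates of the block. -/
def blk {F G : ℤ → Bool} (cc : Blk F) (rr : Blk G) (k : V) : V := (cc.c k.1, rr.c k.2)

private theorem s17_line {α : Type*} {F : ℤ → Bool} (cc : Blk F) (g : ℤ → α)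
    (hg : ∀ i, F (i + 1) = false → g (i + 1) = g i) (i : ℤ) (n : ℕ)
    (h : cc.c (i + n) = cc.c i) : g (i + n) = g i := by
  induction n with
  | zero => simp
  | succ n ih =>
    have m1 : cc.c i ≤ cc.c (i + n) := cc.mono (by omega)
    have m2 : cc.c (i + n) ≤ cc.c (i + (n + 1 : ℕ)) := cc.mono (by push_cast; omega)
    have e1 : cc.c (i + n) = cc.c i := le_antisymm (h ▸ m2) m1
    have st := cc.step (i + n)
    have e2 : i + ((n + 1 : ℕ) : ℤ) = i + n + 1 := by push_cast; ring
    rw [e2] at h ⊢
    rw [h, e1] at st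
    have hF : F (i + n + 1) = false := by
      by_contra hc
      have : F (i + n + 1) = true := by simpa using hc
      rw [this] at st
      simp at st
    rw [hg _ hF, ih e1]

private theorem s17_line' {α : Type*} {F : ℤ → Bool} (cc : Blk F) (g : ℤ → α)
    (hg : ∀ i, F (i + 1) = false → g (i + 1) = g i) (i j : ℤ)
    (h : cc.c i = cc.c j) : g i = g j := by
  rcases le_total i j with hij | hij
  · obtain ⟨n, hn⟩ := Int.eq_ofNat_of_zero_le (sub_nonneg.2 hij)
    have e : j = i + n := by omega
    subst e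
    exact (s17_line cc g hg i n h.symm).symm
  · obtain ⟨n, hn⟩ := Int.eq_ofNat_of_zero_le (sub_nonneg.2 hij)
    have e : i = j + n := by omega
    subst e
    exact s17_line cc g hg j n h

private theorem s17_fac {α : Type*} {F G : ℤ → Bool} (cc : Blk F) (rr : Blk G) (f : V → α)
    (h1 : ∀ k : V, F (k.1 + 1) = false → f (k + e1) = f k)
    (h2 : ∀ k : V, G (k.2 + 1) = false → f (k + e2) = f k) (k k' : V)
    (h : blk cc rr k = blk cc rr k') : f k = f k' := by
  obtain ⟨x, y⟩ := k
  obtain ⟨x', y'⟩ := k'
  simp only [blk, Prod.mk.injEq] at h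
  have a1 : f (x, y) = f (x', y) :=
    s17_line' cc (fun i => f (i, y)) (fun i hi => by
      have := h1 (i, y) hi
      simpa [e1] using this) x x' h.1
  have a2 : f (x', y) = f (x', y') :=
    s17_line' rr (fun j => f (x', j)) (fun i hi => by
      have := h2 (x', i) hi
      simpa [e2] using this) y y' h.2
  exact a1.trans a2

theorem GY.exists_Z (hY : Y ∈ GY P) (cc : Blk (fun i => (Y (i, 0)).1.a))
    (rr : Blk (fun j => (Y (0, j)).1.b)) : ∃ Z : V → Cell,
    (∀ n, CellBd P.K (Z n)) ∧
    (∀ n, n ∈ Set.range (blk cc rr) → n - e1 ∈ Set.range (blk cc rr) →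
      n - e2 ∈ Set.range (blk cc rr) → Rule P (Z n) (Z (n - e1)) (Z (n - e2))) ∧
    (∀ k, TG (Y k).1 (Z (blk cc rr k)).1) ∧
    (∀ k, (Y k).2.1 = if (Y k).1.b then (Z (blk cc rr k)).2.1
      else Cont.intG false (Z (blk cc rr k)).1 (Y k).1.a) ∧
    (∀ k, (Y k).2.2 = if (Y k).1.a then (Z (blk cc rr k)).2.2
      else Cont.intG true (Z (blk cc rr k)).1 (Y k).1.b) := by
  classical
  obtain ⟨mu, h1, h2, h3, h4, h5, h6⟩ := GY.exists_mu hY
  -- flags
  have cA : ∀ i j : ℤ, (Y (i, j)).1.a = (Y (i, 0)).1.a := fun i j => GY.colF hY i j 0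
  have cB : ∀ i j : ℤ, (Y (i, j)).1.b = (Y (0, j)).1.b := fun i j => GY.rowF hY i 0 j
  -- the contents of the bottom and the left sides
  let D : V → Cont := fun k =>
    if (Y (0, rr.st (rr.c k.2))).1.b then (Y (k.1, rr.st (rr.c k.2))).2.1 else (Y 0).2.1
  let E : V → Cont := fun k =>
    if (Y (cc.st (cc.c k.1), 0)).1.a then (Y (cc.st (cc.c k.1), k.2)).2.2 else (Y 0).2.2
  let f : V → Cell := fun k => (mu k, D k, E k)
  have ccs : ∀ i, (Y (i + 1, 0)).1.a = false → cc.c (i + 1) = cc.c i := by
    intro i hi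
    have := cc.step i
    rw [this]
    simp [hi]
  have rrs : ∀ i, (Y (0, i + 1)).1.b = false → rr.c (i + 1) = rr.c i := by
    intro i hi
    have := rr.step i
    rw [this]
    simp [hi]
  have f1 : ∀ k : V, (Y (k.1 + 1, 0)).1.a = false → f (k + e1) = f k := by
    intro k hk
    obtain ⟨x, y⟩ := k
    have hk' : (Y (x + 1, 0)).1.a = false := hk
    have ek : ((x, y) : V) + e1 = (x + 1, y) := by simp [e1]
    have m1 : mu ((x, y) + e1) = mu (x, y) := h1 _ (by rw [ek, cA]; exact hk')
    have m2 : D ((x, y) + e1) = D (x, y) := by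
      rw [ek]
      simp only [D]
      by_cases hb : (Y (0, rr.st (rr.c y))).1.b = true
      · rw [if_pos hb, if_pos hb]
        have a0 : (Y (x + 1, rr.st (rr.c y))).1.a = false := by rw [cA]; exact hk'
        have b0 : (Y (x + 1, rr.st (rr.c y))).1.b = true := by rw [cB]; exact hb
        obtain ⟨μ, μ', -, -, h, -⟩ := GY.vH hY a0 b0
        rw [h]
        congr 3
        simp [e1]
      · rw [if_neg hb, if_neg hb]
    have m3 : E ((x, y) + e1) = E (x, y) := by
      rw [ek]
      simp only [E]
      rw [ccs x hk']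
    simp only [f]
    rw [m1, m2, m3]
  have f2 : ∀ k : V, (Y (0, k.2 + 1)).1.b = false → f (k + e2) = f k := by
    intro k hk
    obtain ⟨x, y⟩ := k
    have hk' : (Y (0, y + 1)).1.b = false := hk
    have ek : ((x, y) : V) + e2 = (x, y + 1) := by simp [e2]
    have m1 : mu ((x, y) + e2) = mu (x, y) := h2 _ (by rw [ek, cB]; exact hk')
    have m2 : E ((x, y) + e2) = E (x, y) := by
      rw [ek]
      simp only [E]
      by_cases hb : (Y (cc.st (cc.c x), 0)).1.a = true
      · rw [if_pos hb, if_pos hb]
        have a0 : (Y (cc.st (cc.c x), y + 1)).1.b = false := by rw [cB]; exact hk'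
        have b0 : (Y (cc.st (cc.c x), y + 1)).1.a = true := by rw [cA]; exact hb
        obtain ⟨μ, μ', -, -, h, -⟩ := GY.vV hY b0 a0
        rw [h]
        congr 3
        simp [e2]
      · rw [if_neg hb, if_neg hb]
    have m3 : D ((x, y) + e2) = D (x, y) := by
      rw [ek]
      simp only [D]
      rw [rrs y hk']
    simp only [f]
    rw [m1, m2, m3]
  have ff : ∀ k k', blk cc rr k = blk cc rr k' → f k = f k' := s17_fac cc rr f f1 f2
  let Z : V → Cell := fun n => if h : ∃ k, blk cc rr k = n then f h.choose else f 0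
  have hZ : ∀ k, Z (blk cc rr k) = f k := by
    intro k
    have hx : ∃ k', blk cc rr k' = blk cc rr k := ⟨k, rfl⟩
    simp only [Z]
    rw [dif_pos hx]
    exact ff _ _ hx.choose_spec
  have fBd : ∀ k, CellBd P.K (f k) := by
    intro k
    refine ⟨h6 k, ?_, ?_⟩
    · simp only [f, D]
      split_ifs
      · exact ((hY _).1).2.1
      · exact ((hY _).1).2.1
    · simp only [f, E]
      split_ifs
      · exact ((hY _).1).2.2
      · exact ((hY _).1).2.2
  have stc : ∀ i, (Y (i, 0)).1.a = true → cc.st (cc.c i) = i := fun i hi => cc.stU i hi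
  have str : ∀ i, (Y (0, i)).1.b = true → rr.st (rr.c i) = i := fun i hi => rr.stU i hi
  refine ⟨Z, ?_, ?_, ?_, ?_, ?_⟩
  · intro n
    simp only [Z]
    split_ifs
    · exact fBd _
    · exact fBd _
  · rintro n ⟨k0, rfl⟩ ⟨k1, hk1⟩ ⟨k2, hk2⟩
    set n := blk cc rr k0 with hn
    have c1 : cc.c k1.1 = n.1 - 1 := by
      have := congrArg Prod.fst hk1
      simpa [blk, e1] using this
    have c2 : rr.c k2.2 = n.2 - 1 := by
      have := congrArg Prod.snd hk2
      simpa [blk, e2] using this
    obtain ⟨Fx, cx⟩ := cc.stF n.1 ⟨k0.1, rfl⟩ ⟨k1.1, c1⟩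
    obtain ⟨Gy, cy⟩ := rr.stF n.2 ⟨k0.2, rfl⟩ ⟨k2.2, c2⟩
    set x := cc.st n.1 with hx
    set y := rr.st n.2 with hy
    have Fx' : (Y (x, 0)).1.a = true := Fx
    have Gy' : (Y (0, y)).1.b = true := Gy
    -- neighbours
    have Fx1 : (Y (x + 1, 0)).1.a = false := by
      obtain ⟨-, -, ⟨⟨-, -, -, -, h⟩, -⟩, -⟩ := hY (x + 1, 0)
      apply h
      have : ((x + 1, 0) : V) - e1 = (x, 0) := by simp [e1]
      rw [this]
      exact Fx'
    have Gy1 : (Y (0, y + 1)).1.b = false := by
      obtain ⟨-, ⟨⟨-, -, -, -, h⟩, -⟩, -, -⟩ := hY (0, y + 1)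
      apply h
      have : ((0, y + 1) : V) - e2 = (0, y) := by simp [e2]
      rw [this]
      exact Gy'
    have cx1 : cc.c (x + 1) = n.1 := (ccs x Fx1).trans cx
    have cy1 : rr.c (y + 1) = n.2 := (rrs y Gy1).trans cy
    have cxm : cc.c (x - 1) = n.1 - 1 := by
      have := cc.step (x - 1)
      rw [sub_add_cancel, Fx', cx] at this
      simp at this
      omega
    have cym : rr.c (y - 1) = n.2 - 1 := by
      have := rr.step (y - 1)
      rw [sub_add_cancel, Gy', cy] at this
      simp at this
      omega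
    -- values
    have zn0 : Z n = f (x, y) := by
      rw [← hZ (x, y)]
      simp only [blk]
      rw [cx, cy]
    have zn1 : Z n = f (x + 1, y) := by
      rw [← hZ (x + 1, y)]
      simp only [blk]
      rw [cx1, cy]
    have zn2 : Z n = f (x, y + 1) := by
      rw [← hZ (x, y + 1)]
      simp only [blk]
      rw [cx, cy1]
    have zW0 : Z (n - e1) = f (x - 1, y) := by
      rw [← hZ (x - 1, y)]
      simp only [blk]
      rw [cxm, cy]
      congr 1
      ext <;> simp [e1]
    have zW1 : Z (n - e1) = f (x - 1, y + 1) := by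
      rw [← hZ (x - 1, y + 1)]
      simp only [blk]
      rw [cxm, cy1]
      congr 1
      ext <;> simp [e1]
    have zS0 : Z (n - e2) = f (x, y - 1) := by
      rw [← hZ (x, y - 1)]
      simp only [blk]
      rw [cx, cym]
      congr 1
      ext <;> simp [e2]
    have zS1 : Z (n - e2) = f (x + 1, y - 1) := by
      rw [← hZ (x + 1, y - 1)]
      simp only [blk]
      rw [cx1, cym]
      congr 1
      ext <;> simp [e2]
    have Dy : ∀ i : ℤ, D (i, y) = (Y (i, y)).2.1 := by
      intro i
      simp only [D]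
      rw [str y Gy', if_pos Gy']
    have Ex : ∀ j : ℤ, E (x, j) = (Y (x, j)).2.2 := by
      intro j
      simp only [E]
      rw [stc x Fx', if_pos Fx']
    refine ⟨?_, ?_, ?_⟩
    · -- RelN
      have a0 : (Y (x + 1, y)).1.a = false := by rw [cA]; exact Fx1
      have b0 : (Y (x + 1, y)).1.b = true := by rw [cB]; exact Gy'
      obtain ⟨μ, μ', hN, hS, -, hR⟩ := GY.vH hY a0 b0
      have eS : ((x + 1, y) : V) - e2 = (x + 1, y - 1) := by simp [e2]
      rw [eS] at hS
      have a1 : (Y (x + 1, y - 1)).1.a = false := by rw [cA]; exact Fx1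
      have q1 := h3 _ a0
      have q2 := h3 _ a1
      rw [hN] at q1
      rw [hS] at q2
      have r1 : μ' = mu (x + 1, y) := by
        injection q1
      have r2 : μ = mu (x + 1, y - 1) := by
        injection q2
      rw [zS1, zn1]
      simp only [f]
      rw [← r1, ← r2, Dy]
      exact hR
    · -- RelE
      have a0 : (Y (x, y + 1)).1.a = true := by rw [cA]; exact Fx'
      have b0 : (Y (x, y + 1)).1.b = false := by rw [cB]; exact Gy1
      obtain ⟨μ, μ', hN, hS, -, hR⟩ := GY.vV hY a0 b0
      have eS : ((x, y + 1) : V) - e1 = (x - 1, y + 1) := by simp [e1]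
      rw [eS] at hS
      have a1 : (Y (x - 1, y + 1)).1.b = false := by rw [cB]; exact Gy1
      have q1 := h4 _ b0
      have q2 := h4 _ a1
      rw [hN] at q1
      rw [hS] at q2
      have r1 : μ' = mu (x, y + 1) := by
        injection q1
      have r2 : μ = mu (x - 1, y + 1) := by
        injection q2
      rw [zW1, zn2]
      simp only [f]
      rw [← r1, ← r2, Ex]
      exact hR
    · -- VR
      have := (hY (x, y)).2.2.2
      have eW : ((x, y) : V) - e1 = (x - 1, y) := by simp [e1]
      have eS : ((x, y) : V) - e2 = (x, y - 1) := by simp [e2]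
      rw [eW, eS] at this
      have w1 : (Z n).2.1 = (Y (x, y)).2.1 := by rw [zn0]; exact Dy x
      have w2 : (Z n).2.2 = (Y (x, y)).2.2 := by rw [zn0]; exact Ex y
      have w3 : (Z (n - e1)).2.1 = (Y (x - 1, y)).2.1 := by rw [zW0]; exact Dy (x - 1)
      have w4 : (Z (n - e2)).2.2 = (Y (x, y - 1)).2.2 := by rw [zS0]; exact Ex (y - 1)
      rw [w1, w2, w3, w4]
      exact this
  · intro k
    rw [hZ]
    exact h5 k
  · intro k
    rw [hZ]
    obtain ⟨x, y⟩ := k
    by_cases hb : (Y (x, y)).1.b = true
    · rw [if_pos hb]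
      have hb' : (Y (0, y)).1.b = true := by rw [← cB x y]; exact hb
      simp only [f, D]
      rw [str y hb', if_pos hb']
    · rw [if_neg hb]
      exact h4 _ (by simpa using hb)
  · intro k
    rw [hZ]
    obtain ⟨x, y⟩ := k
    by_cases hb : (Y (x, y)).1.a = true
    · rw [if_pos hb]
      have hb' : (Y (x, 0)).1.a = true := by rw [← cA x y]; exact hb
      simp only [f, E]
      rw [stc x hb', if_pos hb']
    · rw [if_neg hb]
      exact h3 _ (by simpa using hb)

end BU39
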