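import Pool.Agent.LibBU39.S12

/-!
TASK S19.  Compactness: the centre of a large local pattern is a global pattern.

For a set `A = {w | Bd R (w - z)}` (a square around `z`) the configurations in `LP P A` obey
the rule at all `w` with `Bd (R - 1) (w - z)`.  Claim: for every `m` there is `R` such that
for every `z` and `X ∈ LP P {w | Bd R (w - z)}` there is `X' ∈ GX P` with `X' = X` on
`{w | Bd m (w - z)}`.
Proof by an ultrafilter limit.
-/

namespace BU39

theorem s19_ev (v : V) : ∃ N : ℕ, ∀ R : ℕ, N ≤ R → Bd R v := by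
  refine ⟨(max |v.1| |v.2|).toNat, fun R hR => ?_⟩
  have h : max |v.1| |v.2| ≤ (R : ℤ) := by
    have := Int.self_le_toNat (max |v.1| |v.2|)
    have h2 : (((max |v.1| |v.2|).toNat : ℕ) : ℤ) ≤ (R : ℤ) := by exact_mod_cast hR
    linarith
  exact ⟨le_trans (le_max_left _ _) h, le_trans (le_max_right _ _) h⟩

theorem s19_evU (v : V) : ∀ᶠ R : ℕ in (Filter.hyperfilter ℕ : Filter ℕ), Bd R v := by
  obtain ⟨N, hN⟩ := s19_ev v
  have h : ∀ᶠ R : ℕ in Filter.atTop, Bd R v := Filter.eventually_atTop.mpr ⟨N, hN⟩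
  have hle : (Filter.hyperfilter ℕ : Filter ℕ) ≤ Filter.atTop := by
    rw [← Nat.cofinite_eq_atTop]
    exact Filter.hyperfilter_le_cofinite
  exact hle h

theorem s19_finBd (m : ℕ) : {w : V | Bd m w}.Finite := by
  have h : {w : V | Bd m w} ⊆ (Set.Icc (-(m:ℤ)) m) ×ˢ (Set.Icc (-(m:ℤ)) m) := by
    rintro ⟨a, b⟩ ⟨h1, h2⟩
    simp only [abs_le] at h1 h2
    exact ⟨⟨h1.1, h1.2⟩, ⟨h2.1, h2.2⟩⟩
  exact ((Set.finite_Icc _ _).prod (Set.finite_Icc _ _)).subset h

theorem compact (P : Par) (m : ℕ) : ∃ R : ℕ, ∀ (z : V) (X : V → Cell),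
    X ∈ LP P {w | Bd R (w - z)} →
    ∃ X' ∈ GX P, ∀ w, Bd m (w - z) → X' w = X w := by
  by_contra hcon
  push Not at hcon
  choose zR XR hX hno using hcon
  set U : Ultrafilter ℕ := Filter.hyperfilter ℕ with hU
  let Y : ℕ → V → Cell := fun R w => XR R (w + zR R)
  have hY : ∀ w : V, ∀ᶠ R : ℕ in (U : Filter ℕ), CellBd P.K (Y R w) := by
    intro w
    filter_upwards [s19_evU w] with R hR
    exact (hX R (w + zR R) (by simpa using hR)).1
  have hlim : ∀ w : V, ∃ c : Cell, ∀ᶠ R : ℕ in (U : Filter ℕ), Y R w = c := by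
    intro w
    have h1 : (⋃ c ∈ {c : Cell | CellBd P.K c}, {R : ℕ | Y R w = c}) ∈ U := by
      have h2 := hY w
      refine Filter.mem_of_superset h2 ?_
      intro R hR
      simp only [Set.mem_iUnion]
      exact ⟨Y R w, hR, rfl⟩
    obtain ⟨c, _, hc⟩ := (Ultrafilter.finite_biUnion_mem_iff (finite_cell P.K)).mp h1
    exact ⟨c, hc⟩
  choose Z hZ using hlim
  have hZX : Z ∈ GX P := by
    intro z
    have h := ((hZ z).and ((hZ (z - e1)).and ((hZ (z - e2)).and ((s19_evU z).and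
      ((s19_evU (z - e1)).and (s19_evU (z - e2))))))).exists
    obtain ⟨R, h1, h2, h3, h4, h5, h6⟩ := h
    have h7 := hX R (z + zR R) (by simpa using h4)
    have e1' : z + zR R - e1 = (z - e1) + zR R := by abel
    have e2' : z + zR R - e2 = (z - e2) + zR R := by abel
    rw [e1', e2'] at h7
    have h8 := h7.2 (by simpa using h5) (by simpa using h6)
    refine ⟨?_, ?_⟩
    · rw [← h1]; exact h7.1
    · rw [← h1, ← h2, ← h3]; exact h8
  have hfin : ∀ᶠ R : ℕ in (U : Filter ℕ), ∀ w ∈ {w : V | Bd m w}, Y R w = Z w := by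
    rw [Filter.eventually_all_finite (s19_finBd m)]
    intro w _
    exact hZ w
  obtain ⟨R, hR⟩ := hfin.exists
  obtain ⟨w, hw, hne⟩ := hno R (fun w => Z (w - zR R)) (by
    intro z
    have h := hZX (z - zR R)
    have e1' : z - zR R - e1 = z - e1 - zR R := by abel
    have e2' : z - zR R - e2 = z - e2 - zR R := by abel
    rw [e1', e2'] at h
    exact h)
  apply hne
  have h := hR (w - zR R) hw
  simp only [Y, sub_add_cancel] at h
  exact h.symm

end BU39
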