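import Pool.Agent.LibBU39.S12

/-!
TASK S20a.  Squares inside a set, first part: their number.

The squares `Q_u = {w | Bd r (w - (2 r + 1) • u)}`, `u ∈ V` (side `2 r + 1`, centre
`(2 r + 1) • u`) are a partition of the plane.  `Q_u` is good for `A` if the larger square
with the same centre and radius `R ≥ r` is contained in `A`.  The good squares are disjoint
and contained in `A ⊆ dia k`, so their number `q` satisfies `q (2 r + 1)² ≤ #dia k`.
-/

namespace BU39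

/-- The good squares of `A`. -/
def gd (R r : ℕ) (A : Set V) : Set V := {u | ∀ w, Bd R (w - (2 * (r : ℤ) + 1) • u) → w ∈ A}

theorem gd_finite {R r : ℕ} {A : Set V} {k : ℕ} (hA : A ⊆ dia k) : (gd R r A).Finite := by
  refine (dia_finite k).subset fun u hu => ?_
  have h1 : (2 * (r : ℤ) + 1) • u ∈ dia k := hA (hu _ (by
    rw [sub_self]
    exact ⟨by simp, by simp⟩))
  change |((2 * (r : ℤ) + 1) • u).1| + |((2 * (r : ℤ) + 1) • u).2| ≤ k at h1
  change |u.1| + |u.2| ≤ k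
  rw [Prod.smul_fst, Prod.smul_snd, smul_eq_mul, smul_eq_mul, abs_mul, abs_mul,
    abs_of_pos (by positivity : (0 : ℤ) < 2 * (r : ℤ) + 1)] at h1
  have h2 := abs_nonneg u.1
  have h3 := abs_nonneg u.2
  have h4 : (0 : ℤ) ≤ r := Int.natCast_nonneg r
  nlinarith [mul_nonneg h4 h2, mul_nonneg h4 h3]

private theorem S20a_uniq {r a u u' : ℤ} (h0 : 0 ≤ r) (h : |a - (2 * r + 1) * u| ≤ r)
    (h' : |a - (2 * r + 1) * u'| ≤ r) : u = u' := by
  rw [abs_le] at h h'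
  have e : ∀ v : ℤ, -r ≤ a - (2 * r + 1) * v → a - (2 * r + 1) * v ≤ r →
      (a + r) / (2 * r + 1) = v := by
    intro v h1 h2
    exact ((Int.ediv_emod_unique (a := a + r) (b := 2 * r + 1)
      (r := a + r - (2 * r + 1) * v) (q := v) (by omega)).2
      ⟨by ring, by linarith, by linarith⟩).1
  rw [← e u h.1 h.2, ← e u' h'.1 h'.2]

/-- Every cell is in exactly one square. -/
private theorem S20a_unique {r : ℕ} {w u u' : V} (h : Bd r (w - (2 * (r : ℤ) + 1) • u))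
    (h' : Bd r (w - (2 * (r : ℤ) + 1) • u')) : u = u' := by
  have h0 : (0 : ℤ) ≤ r := Int.natCast_nonneg r
  exact Prod.ext (S20a_uniq h0 h.1 h'.1) (S20a_uniq h0 h.2 h'.2)

theorem gd_ncard {R r : ℕ} (hr : r ≤ R) {A : Set V} {k : ℕ} (hA : A ⊆ dia k) :
    (gd R r A).ncard * (2 * r + 1) ^ 2 ≤ 2 * k ^ 2 + 2 * k + 1 := by
  refine le_trans ?_ (dia_ncard k)
  have hc : (Set.Icc (-(r : ℤ)) r).ncard = 2 * r + 1 := by
    rw [← Finset.coe_Icc, Set.ncard_coe_finset, Int.card_Icc]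
    omega
  have e : (gd R r A ×ˢ (Set.Icc (-(r : ℤ)) r ×ˢ Set.Icc (-(r : ℤ)) r)).ncard =
      (gd R r A).ncard * (2 * r + 1) ^ 2 := by
    rw [Set.ncard_prod, Set.ncard_prod, hc, sq]
  rw [← e]
  have hb : ∀ p : V × V, p ∈ gd R r A ×ˢ (Set.Icc (-(r : ℤ)) r ×ˢ Set.Icc (-(r : ℤ)) r) →
      Bd r (((2 * (r : ℤ) + 1) • p.1 + p.2) - (2 * (r : ℤ) + 1) • p.1) := by
    rintro ⟨u, v⟩ ⟨-, hv⟩
    rw [add_sub_cancel_left]
    exact ⟨abs_le.2 hv.1, abs_le.2 hv.2⟩
  refine Set.ncard_le_ncard_of_injOn (fun p : V × V => (2 * (r : ℤ) + 1) • p.1 + p.2) ?_ ?_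
    (dia_finite k)
  · intro p hp
    refine hA (hp.1 _ ?_)
    have h1 := hb p hp
    have h2 : (r : ℤ) ≤ R := by exact_mod_cast hr
    exact ⟨h1.1.trans h2, h1.2.trans h2⟩
  · intro p hp p' hp' hpp
    change (2 * (r : ℤ) + 1) • p.1 + p.2 = (2 * (r : ℤ) + 1) • p'.1 + p'.2 at hpp
    have h1 := hb p hp
    have h2 := hb p' hp'
    rw [← hpp] at h2
    have h3 : p.1 = p'.1 := S20a_unique h1 h2
    rw [h3] at hpp
    exact Prod.ext h3 (add_left_cancel hpp)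

/-- Every cell is in a square. -/
theorem exists_sq (r : ℕ) (w : V) : ∃ u : V, Bd r (w - (2 * (r : ℤ) + 1) • u) := by
  have key : ∀ a : ℤ, |a - (2 * (r : ℤ) + 1) * ((a + r) / (2 * r + 1))| ≤ r := by
    intro a
    have h1 := Int.emod_add_mul_ediv (a + r) (2 * r + 1)
    have h2 := Int.emod_nonneg (a + r) (by omega : (2 * (r : ℤ) + 1) ≠ 0)
    have h3 := Int.emod_lt_of_pos (a + r) (by omega : (0 : ℤ) < 2 * (r : ℤ) + 1)
    rw [abs_le]
    constructor <;> linarith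
  exact ⟨((w.1 + r) / (2 * r + 1), (w.2 + r) / (2 * r + 1)), key w.1, key w.2⟩

theorem sq_unique {r : ℕ} {w u u' : V} (h : Bd r (w - (2 * (r : ℤ) + 1) • u))
    (h' : Bd r (w - (2 * (r : ℤ) + 1) • u')) : u = u' := S20a_unique h h'

end BU39
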