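import Pool.Agent.LibBU39.Defs

/-! Systems: configurations of the plane at the two kinds of levels (definitions). -/

namespace BU39

/-- A configuration of a `Λ`-level. -/
structure LSys (P : Par) where
  ξ : V → Raw
  h : V → Cont
  v : V → Cont
  lr : ∀ z, LR P ξ z
  eh : ∀ z, EH ξ z (h z)
  ev : ∀ z, EV ξ z (v z)
  vr : ∀ z, VR P (h z) (v z) (h (z - e1)) (v (z - e2))

/-- Label of a cell of a grid level with the contents of its bottom and left edge. -/
abbrev GCell := Gl × Cont × Cont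

/-- Bounded labels. -/
def GBd (K : ℤ) (c : GCell) : Prop :=
  (Bd K c.1.s ∧ Bd K c.1.P ∧ Bd K c.1.Q) ∧ ContBd K c.2.1 ∧ ContBd K c.2.2

/-- The rule of a grid level for a cell, its left and its lower neighbour. -/
def RuleG (P : Par) (c cW cS : GCell) : Prop :=
  RelGH cS.1 c.1 c.2.1 ∧ RelGV cW.1 c.1 c.2.2 ∧ VR P c.2.1 c.2.2 cW.2.1 cS.2.2

/-- The configurations of a grid level. -/
def GY (P : Par) : Set (V → GCell) :=
  {Y | ∀ z, GBd P.K (Y z) ∧ RuleG P (Y z) (Y (z - e1)) (Y (z - e2))}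

/-- The content of an edge. -/
def LSys.ct {P : Par} (S : LSys P) (e : V × Bool) : Cont := if e.2 then S.v e.1 else S.h e.1

/-- The configuration of the cells of a system. -/
def LSys.cell {P : Par} (S : LSys P) (z : V) : Cell := (win P.K S.ξ z, S.h z, S.v z)

/-- Balls of the `ℓ¹`-norm. -/
def dia (M : ℕ) : Set V := {z | |z.1| + |z.2| ≤ M}

/-- Rectangles (possibly empty). -/
def rect (x0 x1 y0 y1 : ℤ) : Set V := {z | (x0 ≤ z.1 ∧ z.1 ≤ x1) ∧ (y0 ≤ z.2 ∧ z.2 ≤ y1)}

/-- The number of patterns of the configurations in `S` on the set `A`. -/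
noncomputable def cnt {α : Type} (S : Set (V → α)) (A : Set V) : ℕ :=
  ((fun (X : V → α) (z : A) => X z) '' S).ncard

/-- The configurations that obey the rules inside `A`. -/
def LP (P : Par) (A : Set V) : Set (V → Cell) :=
  {X | ∀ z ∈ A, CellBd P.K (X z) ∧
    (z - e1 ∈ A → z - e2 ∈ A → Rule P (X z) (X (z - e1)) (X (z - e2)))}

end BU39
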